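import Pool.Agent.Lib.MP_d3d358_ag.AS.Ring

/-! Graded commutativity of the cup product: reversal of lists and a cone homotopy. -/

set_option autoImplicit false

namespace Pool.Agent.Lib.MP_d3d358_ag.AS

open Topology Set

variable {Z R : Type} [CommRing R]

/-- the sign of the reversal of a list of given length -/
def cmEps (R : Type) [CommRing R] : ℕ → R
  | 0 => 1
  | n + 1 => (-1) ^ n * cmEps R n

theorem cmEps_succ (n : ℕ) : cmEps R (n + 1) = (-1) ^ n * cmEps R n := rfl

theorem cm_sq (n : ℕ) : (-1 : R) ^ n * (-1) ^ n = 1 := by rw [← mul_pow]; simp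

theorem cmEps_sq (n : ℕ) : cmEps R n * cmEps R n = 1 := by
  induction n with
  | zero => simp [cmEps]
  | succ n ih => rw [cmEps_succ, mul_mul_mul_comm, cm_sq, ih, one_mul]

theorem cmEps_add (p q : ℕ) :
    cmEps R (p + q + 1) = (-1) ^ (p * q) * (cmEps R (q + 1) * cmEps R (p + 1)) := by
  induction q with
  | zero => simp [cmEps]
  | succ q ih =>
    rw [← add_assoc, cmEps_succ (p + q + 1), ih, cmEps_succ (q + 1)]
    ring

/-- reversal -/
def cmRev (a : List Z → R) : List Z → R := fun l => cmEps R l.length * a l.reverse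

theorem cm_erase (l : List Z) {i : ℕ} (hi : i < l.length) :
    (l.eraseIdx i).reverse = l.reverse.eraseIdx (l.length - 1 - i) := by
  rw [List.eraseIdx_eq_take_drop_succ, List.eraseIdx_eq_take_drop_succ, List.reverse_append,
    List.take_reverse, List.drop_reverse]
  congr 3 <;> omega

theorem cm_d_rev (a : List Z → R) (l : List Z) : d (cmRev a) l = cmRev (d a) l := by
  have e : d a l.reverse = ∑ i ∈ Finset.range l.length,
      (-1) ^ (l.length - 1 - i) * a (l.reverse.eraseIdx (l.length - 1 - i)) := by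
    rw [d, List.length_reverse, ← Finset.sum_range_reflect _ l.length]
  rw [cmRev, e, d, Finset.mul_sum]
  refine Finset.sum_congr rfl fun i hi => ?_
  have hi := Finset.mem_range.1 hi
  obtain ⟨j, hj⟩ : ∃ j, l.length = i + j + 1 := ⟨l.length - 1 - i, by omega⟩
  have e2 : l.length - 1 - i = j := by omega
  have e3 : l.length - 1 = i + j := by omega
  rw [cmRev, cm_erase l hi, List.length_eraseIdx_of_lt hi, e2, e3, hj, cmEps_succ, pow_add]
  linear_combination (-((-1) ^ i * cmEps R (i + j) * a (l.reverse.eraseIdx j))) * cm_sq (R := R) j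

theorem cm_rev_sub (a b : List Z → R) (l : List Z) :
    cmRev (fun m => a m - b m) l = cmRev a l - cmRev b l := mul_sub _ _ _

theorem cm_rev_rev (a : List Z → R) : cmRev (cmRev a) = a := by
  funext l
  rw [cmRev, cmRev, List.length_reverse, List.reverse_reverse, ← mul_assoc, cmEps_sq, one_mul]

theorem cm_cup_deg {p : ℕ} {a : List Z → R} (ha : ∀ l : List Z, l.length ≠ p + 1 → a l = 0)
    (b : List Z → R) {l : List Z} (hl : p < l.length) :
    cup a b l = a (l.take (p + 1)) * b (l.drop p) := by
  rw [cup]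
  refine Finset.sum_eq_single p (fun i hi ne => ?_) fun h => (h (Finset.mem_range.2 hl)).elim
  have hi := Finset.mem_range.1 hi
  rw [ha _ (by rw [List.length_take]; omega), zero_mul]

theorem cm_cup_zero {p q : ℕ} {a b : List Z → R} (ha : ∀ l : List Z, l.length ≠ p + 1 → a l = 0)
    (hb : ∀ l : List Z, l.length ≠ q + 1 → b l = 0) {l : List Z} (hl : l.length ≠ p + q + 1) :
    cup a b l = 0 := by
  refine Finset.sum_eq_zero fun i hi => ?_
  have hi := Finset.mem_range.1 hi
  by_cases e : i = p
  · rw [hb _ (by rw [List.length_drop]; omega), mul_zero]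
  · rw [ha _ (by rw [List.length_take]; omega), zero_mul]

theorem cm_rev_deg {n : ℕ} {a : List Z → R} (ha : ∀ l : List Z, l.length ≠ n → a l = 0)
    (l : List Z) (hl : l.length ≠ n) : cmRev a l = 0 := by
  rw [cmRev, ha _ (by rwa [List.length_reverse]), mul_zero]

theorem cm_rev_cup {p q : ℕ} {a b : List Z → R} (ha : ∀ l : List Z, l.length ≠ p + 1 → a l = 0)
    (hb : ∀ l : List Z, l.length ≠ q + 1 → b l = 0) (l : List Z) :
    cmRev (cup a b) l = (-1) ^ (p * q) * cup (cmRev b) (cmRev a) l := by
  by_cases hl : l.length = p + q + 1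
  · rw [cmRev, cm_cup_deg ha b (by rw [List.length_reverse]; omega),
      cm_cup_deg (cm_rev_deg hb) _ (by omega), cmRev, cmRev, List.take_reverse, List.drop_reverse,
      List.length_take, List.length_drop, hl, cmEps_add]
    have e1 : p + q + 1 - (p + 1) = q := by omega
    have e2 : p + q + 1 - p = q + 1 := by omega
    have e3 : min (q + 1) (p + q + 1) = q + 1 := by omega
    have e4 : p + q + 1 - q = p + 1 := by omega
    rw [e1, e2, e3, e4]
    ring
  · rw [cm_rev_deg (fun l => cm_cup_zero ha hb) l hl,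
      cm_cup_zero (cm_rev_deg hb) (cm_rev_deg ha) (by omega), mul_zero]

/-- the cone homotopy on lists of length at most `n` -/
def cmH : ℕ → (List Z → R) → List Z → R
  | 0, _, _ => 0
  | _ + 1, _, [] => 0
  | n + 1, a, x :: l => a (x :: x :: l) - cmRev (fun m => a (x :: m)) (x :: l) -
      d (cmH n fun m => a (x :: m)) (x :: l)

/-- the cone homotopy between the identity and the reversal -/
def cmK (a : List Z → R) : List Z → R := fun l => cmH l.length a l

theorem cm_d_congr {a b : List Z → R} {l : List Z}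
    (h : ∀ m : List Z, m.length + 1 = l.length → (∀ y ∈ m, y ∈ l) → a m = b m) :
    d a l = d b l :=
  Finset.sum_congr rfl fun i hi => by
    have hi := Finset.mem_range.1 hi
    rw [h _ (by rw [List.length_eraseIdx_of_lt hi]; omega) fun y hy => List.mem_of_mem_eraseIdx hy]

theorem cmK_nil (a : List Z → R) : cmK a [] = 0 := rfl

theorem cmK_cons (a : List Z → R) (x : Z) (l : List Z) :
    cmK a (x :: l) = a (x :: x :: l) - cmRev (fun m => a (x :: m)) (x :: l) -
      d (cmK fun m => a (x :: m)) (x :: l) := by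
  have : d (cmK fun m => a (x :: m)) (x :: l) = d (cmH l.length fun m => a (x :: m)) (x :: l) :=
    cm_d_congr fun m hm _ => by
      rw [cmK, show m.length = l.length by simpa using hm]
  rw [this]
  rfl

theorem cm_ind {P : List Z → Prop} (h0 : P [])
    (h1 : ∀ x l, (∀ m : List Z, m.length = l.length → P m) → P (x :: l)) (l : List Z) : P l := by
  have : ∀ n, ∀ l : List Z, l.length = n → P l := fun n => by
    induction n with
    | zero => intro l hl; rwa [List.length_eq_zero_iff.1 hl]
    | succ n ih =>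
      intro l hl
      match l, hl with
      | x :: l, hl => exact h1 x l fun m hm => ih m (by simp at hl; omega)
  exact this _ l rfl

theorem cmK_lin (c : R) (l : List Z) : ∀ a b : List Z → R,
    cmK (fun m => a m + c * b m) l = cmK a l + c * cmK b l := by
  induction l using cm_ind with
  | h0 => intro a b; simp [cmK_nil]
  | h1 x l ih =>
    intro a b
    have : d (cmK fun m => a (x :: m) + c * b (x :: m)) (x :: l) =
        d (fun k => cmK (fun m => a (x :: m)) k + c * cmK (fun m => b (x :: m)) k) (x :: l) :=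
      cm_d_congr fun m hm _ => ih m (by simpa using hm) _ _
    rw [cmK_cons, cmK_cons, cmK_cons, this, Alg_d_add, Alg_d_mul, cmRev, cmRev, cmRev]
    ring

theorem cmK_sub (a b : List Z → R) (l : List Z) :
    cmK (fun m => a m - b m) l = cmK a l - cmK b l := by
  have := cmK_lin (-1) l a b
  simpa [sub_eq_add_neg] using this

theorem cmK_homotopy (l : List Z) : ∀ a : List Z → R,
    cmK (d a) l + d (cmK a) l = a l - cmRev a l := by
  induction l using cm_ind with
  | h0 => intro a; simp [cmK_nil, Alg_d_nil, cmRev, cmEps]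
  | h1 x l ih =>
    intro a
    have e : (fun m => d a (x :: m)) = fun m => a m - d (fun k => a (x :: k)) m :=
      funext fun m => Alg_d_cons a x m
    have e1 : d (cmK fun m => a m - d (fun k => a (x :: k)) m) (x :: l) =
        d (fun m => cmK a m - ((a (x :: m) - cmRev (fun k => a (x :: k)) m) -
          d (cmK fun k => a (x :: k)) m)) (x :: l) :=
      cm_d_congr fun m hm _ => by
        rw [cmK_sub, ← ih m (by simpa using hm) fun k => a (x :: k), add_sub_cancel_right]
    rw [cmK_cons, e, e1, Alg_d_sub, Alg_d_sub, Alg_d_sub, Alg_dd, cm_rev_sub, Alg_d_cons a x]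
    have := cm_d_rev (fun k => a (x :: k)) (x :: l)
    linear_combination -this

theorem cmK_loc (l : List Z) : ∀ a : List Z → R,
    (∀ m : List Z, m.length = l.length + 1 → (∀ y ∈ m, y ∈ l) → a m = 0) → cmK a l = 0 := by
  induction l using cm_ind with
  | h0 => intro a _; rfl
  | h1 x l ih =>
    intro a h
    have e1 : d (cmK fun m => a (x :: m)) (x :: l) = d (fun _ => 0) (x :: l) :=
      cm_d_congr fun m hm hm' => ih m (by simpa using hm) _ fun k hk hk' =>
        h _ (by simp at hm ⊢; omega) fun y hy => by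
          rcases List.mem_cons.1 hy with rfl | hy
          · exact List.mem_cons_self
          · exact hm' y (hk' y hy)
    rw [cmK_cons, e1, cmRev, h _ rfl (by simp +contextual), h _ (by simp) (by
      intro y hy
      rcases List.mem_cons.1 hy with rfl | hy
      · exact List.mem_cons_self
      · exact List.mem_reverse.1 hy)]
    simp [d]

/-- reversal of cochains -/
def revC : Ch Z R →ₗ[R] Ch Z R where
  toFun a := ⟨cmRev a.1, show _ * a.1 [] = 0 by rw [Alg_nil, mul_zero]⟩
  map_add' _ _ := Alg_ext fun _ => mul_add _ _ _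
  map_smul' _ _ := Alg_ext fun _ => mul_left_comm _ _ _

/-- the homotopy between the identity and the reversal -/
def homC : Ch Z R →ₗ[R] Ch Z R where
  toFun a := ⟨cmK a.1, cmK_nil _⟩
  map_add' a b := Alg_ext fun l => by
    have := cmK_lin 1 l a.1 b.1
    simp only [one_mul] at this
    exact this
  map_smul' c a := Alg_ext fun l => by
    have := cmK_lin c l (fun _ => 0) a.1
    rw [cmK_loc l (fun _ => 0) fun _ _ _ => rfl] at this
    simp only [zero_add] at this
    exact this

theorem revC_revC (a : Ch Z R) : revC (revC a) = a := Subtype.ext (cm_rev_rev a.1)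

theorem dC_revC (a : Ch Z R) : dC (revC a) = revC (dC a) := Alg_ext fun l => cm_d_rev a.1 l

theorem homC_spec (a : Ch Z R) : homC (dC a) + dC (homC a) = a - revC a :=
  Alg_ext fun l => cmK_homotopy l a.1

theorem revC_mem {k : ℤ} {a : Ch Z R} (h : a ∈ DZ k) : revC a ∈ DZ k := fun l hl => by
  change _ * a.1 l.reverse = 0
  rw [h _ (by rwa [List.length_reverse]), mul_zero]

theorem homC_mem {k : ℤ} {a : Ch Z R} (h : a ∈ DZ k) : homC a ∈ DZ (k - 1) := fun l hl =>
  cmK_loc l a.1 fun m hm _ => h m (by omega)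

theorem revC_mul {p q : ℤ} {a b : Ch Z R} (ha : a ∈ DZ p) (hb : b ∈ DZ q) :
    revC (a * b) = ((p * q).negOnePow : ℤ) • (revC b * revC a) := by
  rcases lt_or_ge p 0 with hp | hp
  · obtain rfl := DZ_neg hp ha
    simp
  rcases lt_or_ge q 0 with hq | hq
  · obtain rfl := DZ_neg hq hb
    simp
  lift p to ℕ using hp
  lift q to ℕ using hq
  refine Alg_ext fun l => ?_
  have := cm_rev_cup (p := p) (q := q) (fun l hl => ha l (by omega)) (fun l hl => hb l (by omega)) l
  rw [← Int.cast_smul_eq_zsmul R, Alg_smul, ← Nat.cast_mul, Int.coe_negOnePow_natCast]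
  push_cast
  exact this

variable [TopologicalSpace Z] {K L : Set Z}

theorem N_revC {a : Ch Z R} (h : a ∈ N K) : revC a ∈ N K := Null_of_loc h fun l hl => by
  change _ * a.1 l.reverse = 0
  rw [hl _ fun y hy => List.mem_reverse.1 hy, mul_zero]

theorem N_homC {a : Ch Z R} (h : a ∈ N K) : homC a ∈ N K := Null_of_loc h fun l hl =>
  cmK_loc l a.1 fun m _ hm => hl m hm

/-- a cocycle and its reversal differ by the coboundary of `homC` -/
theorem sub_revC_mem {a : Ch Z R} (h : dC a ∈ N K) : a - revC a - dC (homC a) ∈ N K := by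
  rw [← homC_spec, add_sub_cancel_right]
  exact N_homC h

/-- Graded commutativity for cochains, with a homotopy that vanishes where a factor vanishes. -/
theorem comm_ch {p q : ℤ} {a b : Ch Z R} (ha : a ∈ DZ p) (hb : b ∈ DZ q) :
    ∃ c ∈ DZ (R := R) (Z := Z) (p + q - 1),
      (∀ K : Set Z, dC a ∈ N K → dC b ∈ N K →
        a * b - ((p * q).negOnePow : ℤ) • (b * a) - dC c ∈ N K) ∧
      ∀ L : Set Z, a ∈ N L ∨ b ∈ N L → c ∈ N L := by
  refine ⟨homC (a * b) - ((p * q).negOnePow : ℤ) • (homC b * revC a + sg b * homC a), ?_,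
    fun K da db => ?_, fun L h => ?_⟩
  · refine sub_mem (homC_mem (mul_mem_DZ ha hb)) (zsmul_mem (add_mem ?_ ?_) _)
    · have := mul_mem_DZ (homC_mem hb) (revC_mem ha)
      rwa [show q - 1 + p = p + q - 1 by ring] at this
    · have := mul_mem_DZ (sg_mem hb) (homC_mem ha)
      rwa [show q + (p - 1) = p + q - 1 by ring] at this
  · have dab : dC (a * b) ∈ N K := (Zs R K).mul_mem (x := a) (y := b) da db
    have h1 := sub_revC_mem dab
    have h2 := N_mul_right (sub_revC_mem db) (revC a)
    have h3 := N_mul_left b (sub_revC_mem da)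
    have h4 : sg (homC b) * dC (revC a) ∈ N K := N_mul_left _ (dC_revC a ▸ N_revC da)
    have h5 : sg (dC b) * homC a ∈ N K := N_mul_right (N_sg db) _
    have := add_mem h1 (zsmul_mem (sub_mem (sub_mem h4 h5) (add_mem h2 h3))
      ((p * q).negOnePow : ℤ))
    convert this using 1
    rw [revC_mul ha hb, map_sub, map_zsmul, map_add, dC_mul (homC b), dC_mul (sg b), dC_sg, sg_sg]
    simp only [smul_add, smul_sub, sub_mul, mul_sub, neg_mul, smul_neg]
    abel
  · rcases h with h | h
    · exact sub_mem (N_homC (N_mul_right h b)) (zsmul_mem (add_mem (N_mul_left _ (N_revC h))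
        (N_mul_left _ (N_homC h))) _)
    · exact sub_mem (N_homC (N_mul_left a h)) (zsmul_mem (add_mem (N_mul_right (N_homC h) _)
        (N_mul_right (N_sg h) _)) _)

/-- Graded commutativity of the cohomology ring. -/
theorem comm_gr {p q : ℤ} {x y : HT R K} (hx : x ∈ Hk K p) (hy : y ∈ Hk K q) :
    x * y = ((p * q).negOnePow : ℤ) • (y * x) := by
  obtain ⟨a, da, ha, rfl⟩ := hx
  obtain ⟨b, db, hb, rfl⟩ := hy
  obtain ⟨c, -, h, -⟩ := comm_ch ha hb
  change Ring_mk K ⟨a, da⟩ * Ring_mk K ⟨b, db⟩ = _ • (Ring_mk K ⟨b, db⟩ * Ring_mk K ⟨a, da⟩)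
  rw [← map_mul, ← map_mul, ← map_zsmul]
  exact (mk_eq_iff _ _).2 ⟨c, h K da db⟩

/-- A class of even degree commutes with every homogeneous class. -/
theorem comm_even {p q : ℤ} (hp : Even p) {x y : HT R K} (hx : x ∈ Hk K p) (hy : y ∈ Hk K q) :
    x * y = y * x := by
  rw [comm_gr hx hy, Int.negOnePow_even _ (hp.mul_right q), Units.val_one, one_smul]

end Pool.Agent.Lib.MP_d3d358_ag.AS

namespace Pool.Agent.Lib.MP_d3d358_ag.Cw

open AS

variable {Z : Type}

theorem comm [TopologicalSpace Z] {K : Set Z} {i j : ℤ} {x y : HT ℚ K} (hx : x ∈ Hk K i)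
    (hy : y ∈ Hk K j) : x * y = ((i * j).negOnePow : ℤ) • (y * x) := comm_gr hx hy

end Pool.Agent.Lib.MP_d3d358_ag.Cw
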