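import Pool.Agent.Lib.MP_d3d358_ag.Cw.SVal
import Pool.Agent.Lib.MP_62d77c_ag.R.Sm

/-! The dimension of the closure of a point. -/

set_option autoImplicit false

namespace Pool.Agent.Lib.MP_d3d358_ag.Cw

open CategoryTheory AlgebraicGeometry MonoidalCategory Order Topology Set Filter

variable {V W : Sch} {U : W.left.Opens}

theorem dm_ft [LocallyOfFiniteType W.hom] (hU : IsAffineOpen U) :
    Algebra.FiniteType ℂ Γ(W.left, U) :=
  RingHom.FiniteType.comp (W.hom.finiteType_appLE (isAffineOpen_top _) hU le_top)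
    (RingHom.FiniteType.of_surjective _
      (Scheme.ΓSpecIso (.of ℂ)).symm.commRingCatIsoToRingEquiv.surjective)

theorem dm_app (f : V ⟶ W) {T : V.left.Opens} (h : T ≤ f.left ⁻¹ᵁ U) :
    ∃ φ : Γ(W.left, U) →ₐ[ℂ] Γ(V.left, T), ∀ s, φ s = f.left.appLE U T h s := by
  refine ⟨{ (f.left.appLE U T h).hom with commutes' := fun c => ?_ }, fun _ => rfl⟩
  have e := Scheme.Hom.appLE_comp_appLE f.left W.hom ⊤ U T le_top h
  have e2 : ∀ (g : V.left ⟶ Spec (.of ℂ)) (i), g = V.hom →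
      g.appLE ⊤ T i = V.hom.appLE ⊤ T le_top := by
    rintro _ i rfl; rfl
  rw [e2 _ _ (Over.w f)] at e
  change f.left.appLE U T h (algebraMap ℂ Γ(W.left, U) c) = algebraMap ℂ Γ(V.left, T) c
  rw [algU_eq, algU_eq, ← e]
  rfl

theorem dm_tr_le (f : V ⟶ W) {T : V.left.Opens} (h : T ≤ f.left ⁻¹ᵁ U) (hU : IsAffineOpen U)
    (hT : IsAffineOpen T) {v : V.left} (hv : v ∈ T) :
    Algebra.trdeg ℂ (Γ(W.left, U) ⧸ pri hU (h hv)) ≤
      Algebra.trdeg ℂ (Γ(V.left, T) ⧸ pri hT hv) := by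
  obtain ⟨φ, hφ⟩ := dm_app f h
  have e : pri hU (h hv) = (pri hT hv).comap φ := by
    have := congrArg PrimeSpectrum.asIdeal (IsAffineOpen.comap_primeIdealOf_appLE U hU T hT h hv)
    refine this.symm.trans (Ideal.ext fun s => ?_)
    rw [Ideal.mem_comap, hφ]
    rfl
  exact trdeg_le_of_injective (Ideal.quotientMapₐ _ φ e.le)
    (Ideal.quotientMap_injective' (H := e.le) e.ge)

theorem dm_aff {Y : Scheme.{0}} {O : Y.Opens} {y : Y} (h : y ∈ O) :
    ∃ T : Y.Opens, IsAffineOpen T ∧ y ∈ T ∧ T ≤ O := by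
  obtain ⟨T, hT, h1, h2⟩ := exists_isAffineOpen_mem_and_subset h
  exact ⟨T, hT, h1, h2⟩

/-- the dimension of the quotient is the height in the open set -/
theorem dm_loc (hU : IsAffineOpen U) {w : W.left} (hw : w ∈ U) :
    ringKrullDim (Γ(W.left, U) ⧸ pri hU hw) =
      (height (⟨w, hw⟩ : (U : Set W.left)) : ℕ∞) := by
  have e : PrimeSpectrum.zeroLocus (pri hU hw : Set Γ(W.left, U)) =
      Ici (hU.primeIdealOf ⟨w, hw⟩) := rfl
  rw [ringKrullDim_quotient, e, ← coheight_eq_krullDim_Ici, ← height_toDual]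
  congr 1
  let g : ↥(U : Set W.left) → (PrimeSpectrum Γ(W.left, U))ᵒᵈ := fun x =>
    OrderDual.toDual (hU.primeIdealOf ⟨x.1, x.2⟩)
  have hg : ∀ x y, g x ≤ g y ↔ x ≤ y := fun x y => (specializes_iff_pri hU y.2 x.2).symm
  have hs : Function.Surjective g := fun P =>
    ⟨⟨hU.fromSpec (OrderDual.ofDual P), hU.range_fromSpec ▸ mem_range_self _⟩,
      hU.fromSpec.isOpenEmbedding.injective (hU.fromSpec_primeIdealOf _)⟩
  have hl : ∀ x y, g x < g y ↔ x < y := fun x y => lt_iff_lt_of_le_iff_le' (hg _ _) (hg _ _)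
  refine (height_eq_of_strictMono g (fun x y h => (hl x y).2 h) (fun a b h => ?_) ⟨w, hw⟩).symm
  obtain ⟨a', rfl⟩ := hs b
  exact ⟨a', (hl _ _).1 h, rfl⟩

theorem dm_tr [LocallyOfFiniteType W.hom] (hU : IsAffineOpen U) {w : W.left} (hw : w ∈ U) :
    ∃ n : ℕ, Algebra.trdeg ℂ (Γ(W.left, U) ⧸ pri hU hw) = n ∧
      height (⟨w, hw⟩ : (U : Set W.left)) = n := by
  have := dm_ft hU
  obtain ⟨n, hn⟩ := Cardinal.lt_aleph0.1
    (trdeg_lt_aleph0_of_finiteType (R := ℂ) (S := Γ(W.left, U) ⧸ pri hU hw))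
  have e := Pool.Agent.Lib.MP_62d77c_ag.R.sm_dim _ n hn
  rw [dm_loc] at e
  exact ⟨n, hn, by exact_mod_cast e⟩

theorem dm_sub [LocallyOfFiniteType W.hom] {T : W.left.Opens} (h : T ≤ U) (hU : IsAffineOpen U)
    (hT : IsAffineOpen T) {w : W.left} (hw : w ∈ T) :
    height (⟨w, hw⟩ : (T : Set W.left)) = height (⟨w, h hw⟩ : (U : Set W.left)) := by
  refine le_antisymm (height_le_height_apply_of_strictMono (inclusion h) (fun _ _ h => h) _) ?_
  obtain ⟨n, h1, h2⟩ := dm_tr hU (h hw)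
  obtain ⟨m, h3, h4⟩ := dm_tr hT hw
  have := dm_tr_le (𝟙 W) (T := T) (U := U) h hU hT hw
  rw [h2, h4]
  exact_mod_cast (h1.symm.trans_le this).trans_eq h3

theorem dm_glob [LocallyOfFiniteType W.hom] (hU : IsAffineOpen U) {w : W.left} (hw : w ∈ U) :
    height (⟨w, hw⟩ : (U : Set W.left)) = height w := by
  refine le_antisymm (height_le_height_apply_of_strictMono Subtype.val (fun _ _ h => h) _)
    (height_le fun p hp => ?_)
  obtain ⟨U', hU', h1, -⟩ := dm_aff (O := ⊤) (y := p.head) trivial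
  have hp' : ∀ i, p i ∈ U' := fun i =>
    Specializes.mem_open (show p i ⤳ p.head from p.head_le i) U'.isOpen h1
  have hw' : w ∈ U' := hp ▸ hp' _
  obtain ⟨T, hT, h2, h3⟩ := dm_aff (O := U ⊓ U') ⟨hw, hw'⟩
  rw [← dm_sub (h3.trans inf_le_left) hU hT h2, dm_sub (h3.trans inf_le_right) hU' hT h2]
  let q : LTSeries (U' : Set W.left) := ⟨p.length, fun i => ⟨p i, hp' i⟩, p.step⟩
  exact length_le_height (p := q) (le_of_eq (Subtype.ext hp))

theorem dm_trdeg [LocallyOfFiniteType W.hom] (hU : IsAffineOpen U) {w : W.left} (hw : w ∈ U) :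
    Algebra.trdeg ℂ (Γ(W.left, U) ⧸ pri hU hw) = dm w ∧ height w = dm w := by
  obtain ⟨n, h1, h2⟩ := dm_tr hU hw
  rw [dm_glob hU hw] at h2
  have : dm w = n := by rw [dm, h2, ENat.toNat_natCast]
  rw [this]
  exact ⟨h1, h2⟩

section Dm
variable [Gd W]

theorem dm_eq (hU : IsAffineOpen U) {w : W.left} (hw : w ∈ U) :
    ringKrullDim (Γ(W.left, U) ⧸ pri hU hw) = dm w := by
  rw [dm_loc, dm_glob hU hw, (dm_trdeg hU hw).2]
  rfl

theorem height_eq (w : W.left) : height w = dm w := by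
  obtain ⟨U, hU, h1, -⟩ := dm_aff (O := ⊤) (y := w) trivial
  exact (dm_trdeg hU h1).2

theorem exists_tb (hU : IsAffineOpen U) {w : W.left} (hw : w ∈ U) :
    ∃ y : Fin (dm w) → Γ(W.left, U),
      IsTranscendenceBasis ℂ (Ideal.Quotient.mk (pri hU hw) ∘ y) := by
  obtain ⟨s, hs⟩ := exists_isTranscendenceBasis ℂ (Γ(W.left, U) ⧸ pri hU hw)
  have e := hs.cardinalMk_eq_trdeg.trans (dm_trdeg hU hw).1
  obtain ⟨e⟩ := Cardinal.mk_eq_nat_iff.1 e
  choose y hy using fun i : Fin (dm w) => Ideal.Quotient.mk_surjective (e.symm i).1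
  exact ⟨y, (funext hy : _ ∘ y = Subtype.val ∘ e.symm) ▸ (isTranscendenceBasis_equiv e.symm).2 hs⟩

theorem dm_lt {w w' : W.left} (h : w ⤳ w') (hne : w ≠ w') : dm w' < dm w := by
  have hl : w' < w := lt_of_le_not_ge h fun h' => hne (h.antisymm h').eq
  have := height_add_one_le hl
  rw [height_eq, height_eq] at this
  exact_mod_cast this

theorem dm_map_le [Gd V] (f : V ⟶ W) (v : V.left) : dm (f.left v) ≤ dm v := by
  obtain ⟨U, hU, h1, -⟩ := dm_aff (O := ⊤) (y := f.left v) trivial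
  obtain ⟨T, hT, h2, h3⟩ := dm_aff (O := f.left ⁻¹ᵁ U) (y := v) h1
  have := dm_tr_le f h3 hU hT h2
  rw [(dm_trdeg hU _).1, (dm_trdeg hT _).1] at this
  exact_mod_cast this

theorem dm_add_le {w η : W.left} (hη : ∀ x, η ⤳ x) {k : ℕ}
    (h : ringKrullDim (W.left.presheaf.stalk w) = k) : dm w + k ≤ dm η := by
  rw [ringKrullDim_stalk_eq_coheight] at h
  have hk : coheight w = k := by exact_mod_cast h
  have : Nonempty W.left := ⟨w⟩
  have e := krullDim_eq_iSup_height_add_coheight_of_nonempty (α := W.left)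
  rw [krullDim_eq_iSup_height_of_nonempty, WithBot.coe_inj] at e
  have h1 : height w + coheight w ≤ height η :=
    ((le_iSup (fun a : W.left => height a + coheight a) w).trans_eq e.symm).trans
      (iSup_le fun a => height_mono (hη a))
  rw [hk, height_eq, height_eq] at h1
  exact_mod_cast h1

end Dm

end Pool.Agent.Lib.MP_d3d358_ag.Cw
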