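import Pool.Agent.Lib.MP_d3d358_ag.Cw.Sp

/-! A simple root depends smoothly on the parameters. -/

set_option autoImplicit false

namespace Pool.Agent.Lib.MP_d3d358_ag.Cw

open Topology Set Filter

theorem root_inv (L : ℂ →L[ℂ] ℂ) (h : L 1 ≠ 0) : L.IsInvertible := by
  refine ⟨ContinuousLinearEquiv.unitsEquivAut ℂ (Units.mk0 (L 1) h), ?_⟩
  ext
  simp

theorem root_smooth {r : ℕ} {T : Type} [TopologicalSpace T] {l : Filter T} {y : T → Fin r → ℂ}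
    {y₀ : Fin r → ℂ} (hy : Tendsto y l (𝓝 y₀)) {u : T → ℂ} {u₀ : ℂ} (hu : Tendsto u l (𝓝 u₀))
    {F : (Fin r → ℂ) × ℂ → ℂ} (hF : ContDiffAt ℂ 1 F (y₀, u₀)) (h0 : F (y₀, u₀) = 0)
    (hd : fderiv ℂ F (y₀, u₀) (0, 1) ≠ 0) (h : ∀ᶠ t in l, F (y t, u t) = 0) :
    ∃ ρ : (Fin r → ℂ) → ℂ, ContDiffAt ℂ 1 ρ y₀ ∧ ρ y₀ = u₀ ∧
      (∀ᶠ w in 𝓝 y₀, F (w, ρ w) = 0) ∧ ∀ᶠ t in l, u t = ρ (y t) := by
  have hi := root_inv (fderiv ℂ F (y₀, u₀) ∘L .inr ℂ (Fin r → ℂ) ℂ) hd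
  refine ⟨hF.implicitFunction one_ne_zero hi, hF.contDiffAt_implicitFunction one_ne_zero hi,
    hF.implicitFunction_apply_self one_ne_zero hi, ?_, ?_⟩
  · simpa [h0] using hF.eventually_apply_implicitFunction one_ne_zero hi
  · have := (hy.prodMk_nhds hu).eventually
      (hF.eventually_apply_eq_iff_implicitFunction one_ne_zero hi)
    filter_upwards [this, h] with t h1 h2
    exact (h1.1 (h2.trans h0.symm)).symm

end Pool.Agent.Lib.MP_d3d358_ag.Cw
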