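import Pool.Agent.Lib.MP_d3d358_ag.Cw.EtA
import Pool.Agent.Lib.MP_d3d358_ag.Cw.Root

/-! Square free parts. -/

set_option autoImplicit false

namespace Pool.Agent.Lib.MP_d3d358_ag.Cw

open Topology Set Filter Polynomial

variable {A : Type} [CommRing A] [Algebra ℂ A]

theorem sqfree [IsDomain A] (Q : Polynomial A) (hQ : Q ≠ 0) : ∃ h : A, h ≠ 0 ∧
    ∃ Q' : Polynomial A, ∀ p : Sp A, p h ≠ 0 → ∀ ζ, Q.eval₂ p.hom.toRingHom ζ = 0 →
      Q'.eval₂ p.hom.toRingHom ζ = 0 ∧ Q'.derivative.eval₂ p.hom.toRingHom ζ ≠ 0 := by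
  classical
  let K := FractionRing A
  have iK : Function.Injective (algebraMap A K) := IsFractionRing.injective A K
  have : CharZero A := charZero_of_injective_algebraMap (algebraMap ℂ A).injective
  have : CharZero K := charZero_of_injective_algebraMap iK
  have q0 : Q.map (algebraMap A K) ≠ 0 := (Polynomial.map_ne_zero_iff iK).2 hQ
  set S := UniqueFactorizationMonoid.radical (Q.map (algebraMap A K)) with hS
  have sep : S.Separable := PerfectField.separable_iff_squarefree.2
    UniqueFactorizationMonoid.squarefree_radical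
  obtain ⟨n, W, hW⟩ := UniqueFactorizationMonoid.exists_dvd_radical_self_pow q0
  obtain ⟨V, hV⟩ : S ∣ Q.map (algebraMap A K) := UniqueFactorizationMonoid.radical_dvd_self
  obtain ⟨P, T, hP⟩ := sep
  obtain ⟨b, S0, hb, e⟩ := et_clear (R := A) S
  obtain ⟨b1, P0, hb1, e1⟩ := et_clear (R := A) P
  obtain ⟨b2, T0, hb2, e2⟩ := et_clear (R := A) T
  obtain ⟨b3, W0, hb3, e3⟩ := et_clear (R := A) W
  have i1 : C b3 * S0 ^ n = C (b ^ n) * (Q * W0) := by
    apply map_injective _ iK
    simp only [Polynomial.map_mul, Polynomial.map_pow, map_C, e, e3, map_pow, mul_pow]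
    rw [← hS] at hW
    rw [hW]
    ring
  have i2 : C b2 * P0 * S0 + C b1 * T0 * derivative S0 = C (b * b1 * b2) := by
    apply map_injective _ iK
    simp only [Polynomial.map_add, Polynomial.map_mul, map_C, ← derivative_map, e, e1, e2,
      map_mul, derivative_C_mul]
    linear_combination (C (algebraMap A K b) * C (algebraMap A K b1) * C (algebraMap A K b2)) * hP
  refine ⟨b3 * (b * b1 * b2), mul_ne_zero hb3 (mul_ne_zero (mul_ne_zero hb hb1) hb2), S0,
    fun p hp ζ hζ => ?_⟩
  rw [map_mul, mul_ne_zero_iff] at hp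
  have j1 := congrArg (eval₂RingHom p.hom.toRingHom ζ) i1
  have j2 := congrArg (eval₂RingHom p.hom.toRingHom ζ) i2
  simp only [map_mul (eval₂RingHom p.hom.toRingHom ζ), map_pow (eval₂RingHom p.hom.toRingHom ζ),
    map_add, coe_eval₂RingHom, eval₂_C, hζ, zero_mul, mul_zero] at j1 j2
  have z : S0.eval₂ p.hom.toRingHom ζ = 0 :=
    eq_zero_of_pow_eq_zero ((mul_eq_zero.1 j1).resolve_left hp.1)
  refine ⟨z, fun z' => hp.2 ?_⟩
  rw [z, z', mul_zero, mul_zero, add_zero] at j2
  exact j2.symm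

end Pool.Agent.Lib.MP_d3d358_ag.Cw
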