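import Pool.Agent.Lib.MP_d3d358_ag.Cw.SpA
import Pool.Agent.Lib.MP_d3d358_ag.Cw.Sq

/-! Generic fibres and generic charts. -/

set_option autoImplicit false

namespace Pool.Agent.Lib.MP_d3d358_ag.Cw

open Topology Set Filter Polynomial

variable {A A' : Type} [CommRing A] [Algebra ℂ A] [CommRing A'] [Algebra ℂ A'] {r : ℕ}

/-- the value of a polynomial at a point of the base and a number -/
theorem et_smooth {E : Type} [NormedAddCommGroup E] [NormedSpace ℂ E] {s : E → Sp A'} {ρ : E → ℂ}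
    {t : E} (hs : ∀ c, ContDiffAt ℂ 1 (fun w => s w c) t) (hρ : ContDiffAt ℂ 1 ρ t) (G : A'[X]) :
    ContDiffAt ℂ 1 (fun w => G.eval₂ (s w).hom.toRingHom (ρ w)) t := by
  induction G using Polynomial.induction_on' with
  | add p q hp hq => simpa only [eval₂_add] using hp.add hq
  | monomial n c => simp only [eval₂_monomial]; exact (hs c).mul (hρ.pow n)

section
variable [Algebra A' A] [IsScalarTower ℂ A' A]

theorem et_val (p : Sp A) (u : A) (G : A'[X]) : p (aeval u G) =
    G.eval₂ (Sp.map (IsScalarTower.toAlgHom ℂ A' A) p).hom.toRingHom (p u) := by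
  rw [aeval_def]
  exact hom_eval₂ G (algebraMap A' A) p.hom.toRingHom u

theorem et_mod (q : Sp A') (u : A) (G : A'[X]) : aeval u G - aeval u (G.map q.hom.toRingHom) ∈
    (RingHom.ker q.hom).map (algebraMap A' A) := by
  induction G using Polynomial.induction_on' with
  | add p g hp hg =>
    have := add_mem hp hg
    rw [Polynomial.map_add, map_add, map_add]
    convert this using 1
    ring
  | monomial n c =>
    rw [map_monomial, aeval_monomial, aeval_monomial, ← sub_mul]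
    refine Ideal.mul_mem_right _ _ ?_
    rw [IsScalarTower.algebraMap_apply ℂ A' A, ← map_sub]
    refine Ideal.mem_map_of_mem _ ?_
    rw [RingHom.mem_ker, map_sub, AlgHom.commutes]
    exact sub_self _

/-- the data of `et_str` -/
structure EtD (u : A) (F : A'[X]) (h : A') : Prop where
  mon : F.Monic
  zero : aeval u F = 0
  dvd : ∀ G : A'[X], aeval u G = 0 → F ∣ G
  gen : ∀ a : A, ∃ (n : ℕ) (G : A'[X]), algebraMap A' A h ^ n * a = aeval u G
  sep : ∃ P Q : A'[X], P * F + Q * derivative F = C h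

variable {u : A} {F : A'[X]} {h : A'}

theorem EtD.pt (D : EtD u F h) {q : Sp A'} (hq : q h ≠ 0) {ζ : ℂ}
    (hζ : F.eval₂ q.hom.toRingHom ζ = 0) :
    ∃ p : Sp A, Sp.map (IsScalarTower.toAlgHom ℂ A' A) p = q ∧ p u = ζ := by
  obtain ⟨p, hp⟩ := et_ext ((aeval u : A'[X] →ₐ[A'] A).restrictScalars ℂ)
    (eval₂AlgHom q.hom ζ fun _ => Commute.all _ _) (C h) (by simpa using hq)
    (fun a => by simpa using D.gen a) (fun G hG => by
      obtain ⟨W, rfl⟩ := D.dvd G hG
      rw [map_mul]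
      exact mul_eq_zero_of_left hζ _)
  refine ⟨p, DFunLike.ext _ _ fun c => ?_, ?_⟩
  · simpa using hp (C c)
  · simpa using hp X

theorem et_frm {p : Sp A} (hp : p (algebraMap A' A h) ≠ 0) {a : A} {n : ℕ} {G : A'[X]}
    (e : algebraMap A' A h ^ n * a = aeval u G) :
    p a = G.eval₂ (Sp.map (IsScalarTower.toAlgHom ℂ A' A) p).hom.toRingHom (p u) /
      p (algebraMap A' A h) ^ n := by
  rw [← et_val, ← e, map_mul, map_pow]
  field_simp

theorem EtD.inj (D : EtD u F h) {p p' : Sp A} (hp : p (algebraMap A' A h) ≠ 0)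
    (e : Sp.map (IsScalarTower.toAlgHom ℂ A' A) p = Sp.map (IsScalarTower.toAlgHom ℂ A' A) p')
    (eu : p u = p' u) : p = p' := by
  have eh : p (algebraMap A' A h) = p' (algebraMap A' A h) := congrArg (fun q : Sp A' => q h) e
  refine DFunLike.ext _ _ fun a => ?_
  obtain ⟨n, G, hG⟩ := D.gen a
  rw [et_frm hp hG, et_frm (eh ▸ hp) hG, e, eu, eh]

theorem EtD.root (D : EtD u F h) (p : Sp A) :
    F.eval₂ (Sp.map (IsScalarTower.toAlgHom ℂ A' A) p).hom.toRingHom (p u) = 0 := by
  rw [← et_val, D.zero, map_zero]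

theorem EtD.separable (D : EtD u F h) {q : Sp A'} (hq : q h ≠ 0) :
    (F.map q.hom.toRingHom).Separable := by
  obtain ⟨P, Q, e⟩ := D.sep
  have e' := congrArg (Polynomial.map q.hom.toRingHom) e
  simp only [Polynomial.map_add, Polynomial.map_mul, map_C, ← derivative_map] at e'
  refine ⟨C (q h)⁻¹ * P.map q.hom.toRingHom, C (q h)⁻¹ * Q.map q.hom.toRingHom, ?_⟩
  rw [mul_assoc, mul_assoc, ← mul_add, e', ← map_mul]
  exact (congrArg C (inv_mul_cancel₀ hq)).trans C_1

theorem EtD.card (D : EtD u F h) {q : Sp A'} (hq : q h ≠ 0) :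
    ∃ S : Finset (Sp A), S.card = F.natDegree ∧
      (S : Set (Sp A)) = Sp.map (IsScalarTower.toAlgHom ℂ A' A) ⁻¹' {q} := by
  classical
  have mq := D.mon.map q.hom.toRingHom
  have io : InjOn (fun p : Sp A => p u) (Sp.map (IsScalarTower.toAlgHom ℂ A' A) ⁻¹' {q}) :=
    fun p hp p' hp' e => D.inj (by
      have : q h = p (algebraMap A' A h) := by rw [← mem_singleton_iff.1 hp]; rfl
      exact this ▸ hq) ((mem_singleton_iff.1 hp).trans (mem_singleton_iff.1 hp').symm) e
  have im : (fun p : Sp A => p u) '' (Sp.map (IsScalarTower.toAlgHom ℂ A' A) ⁻¹' {q}) =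
      ((F.map q.hom.toRingHom).roots.toFinset : Set ℂ) := by
    ext ζ
    rw [Finset.mem_coe, Multiset.mem_toFinset, mem_roots mq.ne_zero, IsRoot, eval_map]
    constructor
    · rintro ⟨p, hp, rfl⟩
      rw [← mem_singleton_iff.1 hp]
      exact D.root p
    · intro hζ
      obtain ⟨p, h1, h2⟩ := D.pt hq hζ
      exact ⟨p, h1, h2⟩
  have fin : (Sp.map (IsScalarTower.toAlgHom ℂ A' A) ⁻¹' {q}).Finite :=
    Finite.of_finite_image (im ▸ Finset.finite_toSet _) io
  refine ⟨fin.toFinset, ?_, fin.coe_toFinset⟩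
  rw [← ncard_eq_toFinset_card _ fin, ← ncard_image_of_injOn io, im, ncard_coe_finset,
    Multiset.toFinset_card_of_nodup (nodup_roots (D.separable hq)),
    IsAlgClosed.card_roots_eq_natDegree, D.mon.natDegree_map]

theorem EtD.loc (D : EtD u F h) {p : Sp A} (hp : p (algebraMap A' A h) ≠ 0) {a : A}
    (ha : p a = 0) : ∃ b, p b ≠ 0 ∧ b * a ∈
      (RingHom.ker (Sp.map (IsScalarTower.toAlgHom ℂ A' A) p).hom).map (algebraMap A' A) := by
  set q := Sp.map (IsScalarTower.toAlgHom ℂ A' A) p with hq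
  obtain ⟨n, G, hG⟩ := D.gen a
  have zG : (G.map q.hom.toRingHom).IsRoot (p u) := by
    rw [IsRoot, eval_map, ← et_val, ← hG, map_mul, ha, mul_zero]
  have zF : (F.map q.hom.toRingHom).IsRoot (p u) := by
    rw [IsRoot, eval_map]; exact D.root p
  obtain ⟨G1, eG⟩ := dvd_iff_isRoot.2 zG
  obtain ⟨F1, eF⟩ := dvd_iff_isRoot.2 zF
  have n1 : F1.eval (p u) ≠ 0 := by
    have := (D.separable (q := q) hp).eval₂_derivative_ne_zero (RingHom.id ℂ) (x := p u) zF
    rw [eF] at this
    simpa using this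
  refine ⟨aeval u F1 * algebraMap A' A h ^ n, ?_, ?_⟩
  · rw [map_mul, map_pow]
    refine mul_ne_zero ?_ (pow_ne_zero _ hp)
    have : p (aeval u F1) = aeval (p u) F1 := (aeval_algHom_apply p u F1).symm
    rw [this]
    simpa using n1
  · have h1 := Ideal.mul_mem_left _ (aeval u F1) (et_mod q u G)
    have h2 := Ideal.mul_mem_left _ (aeval u G1) (et_mod q u F)
    rw [D.zero, eF] at h2
    rw [eG] at h1
    rw [mul_assoc, hG]
    convert sub_mem h1 h2 using 1
    simp only [map_mul]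
    ring

theorem EtD.at (D : EtD u F h) {p : Sp A} (hp : p (algebraMap A' A h) ≠ 0)
    {y : Sp A' → Fin r → ℂ} (hy : At RgA univ (Sp.map (IsScalarTower.toAlgHom ℂ A' A) p) y) :
    At RgA univ p (y ∘ Sp.map (IsScalarTower.toAlgHom ℂ A' A)) := by
  classical
  set π := Sp.map (IsScalarTower.toAlgHom ℂ A' A) with hπ
  have cπ : Continuous π := Sp.cont_map _
  obtain ⟨U, O, s, hc, hU, hq⟩ := hy
  simp only [inter_univ] at hU hq
  have cy : ContinuousOn y U := by simpa using hc.cy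
  have li : ∀ z ∈ U, s (y z) = z := fun z hz => hc.li z ⟨hz, trivial⟩
  have sm : ∀ t ∈ O, ∀ c, ContDiffAt ℂ 1 (fun w => s w c) t := fun t ht c => by
    have := (hq _ (hc.ms ht).1).2 _ (rgA_ev (s t) c)
    rwa [hc.ri t ht] at this
  set t₀ := y (π p) with ht₀
  have hO : t₀ ∈ O := hc.my ⟨hU, trivial⟩
  have s₀ : s t₀ = π p := li _ hU
  have ty : Tendsto (y ∘ π) (𝓝 p) (𝓝 t₀) :=
    (cy.continuousAt (hc.oU.mem_nhds hU)).tendsto.comp cπ.continuousAt
  have eU : ∀ᶠ z in 𝓝 p, π z ∈ U := cπ.continuousAt (hc.oU.mem_nhds hU)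
  have sΦ : ContDiffAt ℂ 1 (fun w : (Fin r → ℂ) × ℂ => F.eval₂ (s w.1).hom.toRingHom w.2)
      (t₀, p u) := et_smooth (s := fun w : (Fin r → ℂ) × ℂ => s w.1)
        (fun c => (sm t₀ hO c).comp (t₀, p u) contDiffAt_fst) contDiffAt_snd F
  obtain ⟨ρ, sρ, -, zρ, eρ⟩ := root_smooth ty (Sp.cont_ev u).continuousAt.tendsto sΦ
    (by simp only [s₀]; exact D.root p) (by
      have d1 := (sΦ.differentiableAt one_ne_zero).hasFDerivAt
      have d2 : HasDerivAt (fun ζ : ℂ => ((t₀, ζ) : (Fin r → ℂ) × ℂ)) (0, 1) (p u) :=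
        (hasDerivAt_const _ _).prodMk (hasDerivAt_id _)
      have d3 := d1.comp_hasDerivAt (p u) d2
      have d4 := (F.map (π p).hom.toRingHom).hasDerivAt (p u)
      have e : (fun w : (Fin r → ℂ) × ℂ => F.eval₂ (s w.1).hom.toRingHom w.2) ∘
          (fun ζ : ℂ => ((t₀, ζ) : (Fin r → ℂ) × ℂ)) =
          fun x => (F.map (π p).hom.toRingHom).eval x := by
        funext x; simp only [Function.comp, s₀, eval_map]
      rw [e] at d3
      rw [d3.unique d4]
      simpa using (D.separable (q := π p) hp).eval₂_derivative_ne_zero (RingHom.id ℂ)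
        (x := p u) (by rw [eval₂_id, eval_map]; exact D.root p))
    (eU.mono fun z hz => by simp only [Function.comp, li _ hz]; exact D.root z)
  have eh : ∀ᶠ w in 𝓝 t₀, s w h ≠ 0 :=
    (sm t₀ hO h).continuousAt.eventually_ne (by rw [s₀]; exact hp)
  obtain ⟨O₁, hO₁, oO₁, mO₁⟩ := eventually_nhds_iff.1
    ((hc.oO.eventually_mem hO).and ((sρ.eventually (by simp)).and (zρ.and eh)))
  have ex : ∀ w, ∃ z : Sp A, w ∈ O₁ → π z = s w ∧ z u = ρ w := fun w => by
    by_cases hw : w ∈ O₁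
    · obtain ⟨z, hz⟩ := D.pt (hO₁ w hw).2.2.2 (hO₁ w hw).2.2.1
      exact ⟨z, fun _ => hz⟩
    · exact ⟨p, fun h => absurd h hw⟩
  choose σ hσ using ex
  have hh : ∀ w ∈ O₁, σ w (algebraMap A' A h) = s w h := fun w hw =>
    congrArg (fun q : Sp A' => q h) (hσ w hw).1
  have sσ : ∀ t ∈ O₁, ∀ a, ContDiffAt ℂ 1 (fun w => σ w a) t := fun t ht a => by
    obtain ⟨n, G, hG⟩ := D.gen a
    have h1 := hO₁ t ht
    refine ((et_smooth (sm t h1.1) h1.2.1 G).div ((sm t h1.1 h).pow n)
      (pow_ne_zero _ h1.2.2.2)).congr_of_eventuallyEq ?_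
    filter_upwards [oO₁.mem_nhds ht] with w hw
    rw [et_frm (by rw [hh w hw]; exact (hO₁ w hw).2.2.2) hG, hh w hw, ← hπ, (hσ w hw).1,
      (hσ w hw).2]
    rfl
  have cσ : ∀ t ∈ O₁, ContinuousAt σ t := fun t ht =>
    Sp.tendsto_iff.2 fun a => (sσ t ht a).continuousAt
  obtain ⟨V, hV, oV, mV⟩ := eventually_nhds_iff.1
    (eU.and (eρ.and (ty.eventually (oO₁.mem_nhds mO₁))))
  have lσ : ∀ z ∈ V, σ (y (π z)) = z := fun z hz => by
    obtain ⟨h1, h2, h3⟩ := hV z hz
    refine D.inj ((hh _ h3).trans_ne (hO₁ _ h3).2.2.2) ?_ ?_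
    · exact (hσ _ h3).1.trans (li _ h1)
    · exact (hσ _ h3).2.trans h2.symm
  have cσ' : ContinuousOn σ O₁ := fun t ht => (cσ t ht).continuousWithinAt
  refine ⟨V, O₁ ∩ σ ⁻¹' V, σ, ⟨oV, cσ'.isOpen_inter_preimage oO₁ oV, ?_, ?_,
    cσ'.mono inter_subset_left, fun t ht => ⟨ht.2, trivial⟩, fun z hz => lσ z hz.1, ?_⟩,
    ⟨mV, trivial⟩, fun z hz => ⟨fun i => ?_, fun f hf => ?_⟩⟩
  · exact cy.comp cπ.continuousOn fun z hz => (hV z hz.1).1
  · intro z hz
    refine ⟨(hV z hz.1).2.2, ?_⟩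
    show σ (y (π z)) ∈ V
    rw [lσ z hz.1]; exact hz.1
  · intro t ht
    show y (π (σ t)) = t
    rw [(hσ t ht.1).1, hc.ri t (hO₁ t ht.1).1]
  · exact RgA.comp _ ((hq _ (hV z hz.1).1).1 i)
  · obtain ⟨a, b, hb, e⟩ := hf
    have h3 := (hV z hz.1).2.2
    have l := lσ z hz.1
    have tσ : Tendsto σ (𝓝 (y (π z))) (𝓝 z) := by
      have := (cσ _ h3).tendsto
      rwa [Function.comp, l] at this
    exact ((sσ _ h3 a).div (sσ _ h3 b) (by rw [Function.comp, l]; exact hb)).congr_of_eventuallyEq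
      (tσ.eventually e)

end

theorem gen_fib [Algebra.FiniteType ℂ A] [IsDomain A] [Algebra.FiniteType ℂ A'] [IsDomain A']
    [Algebra A' A] [IsScalarTower ℂ A' A] [FaithfulSMul A' A] [Algebra.IsAlgebraic A' A] :
    ∃ h : A', h ≠ 0 ∧ ∀ q : Sp A', q h ≠ 0 →
      (∃ S : Finset (Sp A), S.card = Module.finrank A' A ∧
        (S : Set (Sp A)) = Sp.map (IsScalarTower.toAlgHom ℂ A' A) ⁻¹' {q}) ∧
      ∀ p, Sp.map (IsScalarTower.toAlgHom ℂ A' A) p = q →
        (∀ (r : ℕ) (y : Sp A' → Fin r → ℂ), At RgA univ q y →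
          At RgA univ p (y ∘ Sp.map (IsScalarTower.toAlgHom ℂ A' A))) ∧
        ∀ a, p a = 0 → ∃ b, p b ≠ 0 ∧ b * a ∈ (RingHom.ker q.hom).map (algebraMap A' A) := by
  haveI : CharZero A' := charZero_of_injective_algebraMap (algebraMap ℂ A').injective
  haveI : Algebra.FiniteType A' A := Algebra.FiniteType.of_restrictScalars_finiteType ℂ A' A
  obtain ⟨u, F, h, h1, h2, -, h4, h5, h6, h7, h8⟩ := et_str (R := A') (A := A)
  have D : EtD u F h := ⟨h1, h5, h6, h7, h8⟩
  refine ⟨h, h4, fun q hq => ⟨h2 ▸ D.card hq, ?_⟩⟩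
  rintro p rfl
  exact ⟨fun r y hy => D.at hq hy, fun a ha => D.loc hq ha⟩

/-- the coordinates are a chart of affine space -/
theorem et_aff (q : Sp (MvPolynomial (Fin r) ℂ)) : At RgA univ q (co MvPolynomial.X) := by
  let s : (Fin r → ℂ) → Sp (MvPolynomial (Fin r) ℂ) := fun t => MvPolynomial.aeval t
  have sm : ∀ a t, ContDiffAt ℂ 1 (fun w => s w a) t := fun a t => by
    induction a using MvPolynomial.induction_on with
    | C c =>
      have e : ∀ w, s w (MvPolynomial.C c) = c := fun w => MvPolynomial.aeval_C w c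
      simp only [e]; exact contDiffAt_const
    | add a b ha hb => simpa only [map_add] using ha.add hb
    | mul_X a i ha =>
      have e : ∀ w, s w (MvPolynomial.X i) = w i := fun w => MvPolynomial.aeval_X w i
      simpa only [map_mul, e] using ha.mul (contDiffAt_apply ℂ ℂ i t)
  have cs : Continuous s := continuous_iff_continuousAt.2 fun t =>
    Sp.tendsto_iff.2 fun a => (sm a t).continuousAt
  have li : ∀ z, s (co MvPolynomial.X z) = z := fun z =>
    MvPolynomial.algHom_ext (f := MvPolynomial.aeval _) (g := z.hom) fun i =>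
      MvPolynomial.aeval_X _ i
  refine ⟨univ, univ, s, ⟨isOpen_univ, isOpen_univ,
    (continuous_pi fun i => Sp.cont_ev _).continuousOn, fun _ _ => trivial, cs.continuousOn,
    fun _ _ => ⟨trivial, trivial⟩, fun z _ => li z,
    fun t _ => funext fun i => MvPolynomial.aeval_X t i⟩, ⟨trivial, trivial⟩,
    fun z _ => ⟨fun i => rgA_ev z _, fun f hf => ?_⟩⟩
  obtain ⟨a, b, hb, e⟩ := hf
  have ts : Tendsto s (𝓝 (co MvPolynomial.X z)) (𝓝 z) := by
    have := cs.tendsto (co MvPolynomial.X z)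
    rwa [li] at this
  exact ((sm a _).div (sm b _) (by rw [li]; exact hb)).congr_of_eventuallyEq (ts.eventually e)

theorem gen_chart [Algebra.FiniteType ℂ A] [IsDomain A] {y : Fin r → A}
    (hy : IsTranscendenceBasis ℂ y) : ∃ (H : MvPolynomial (Fin r) ℂ) (d : ℕ), H ≠ 0 ∧ 0 < d ∧
      ∀ t, MvPolynomial.eval t H ≠ 0 →
        (∃ S : Finset (Sp A), S.card = d ∧ (S : Set (Sp A)) = co y ⁻¹' {t}) ∧
        ∀ p, co y p = t → At RgA univ p (co y) ∧ ∀ a, ∃ b, p b ≠ 0 ∧
          b * (a - algebraMap ℂ A (p a)) ∈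
            Ideal.span (range fun i => y i - algebraMap ℂ A (p (y i))) := by
  letI : Algebra (MvPolynomial (Fin r) ℂ) A := (MvPolynomial.aeval y).toRingHom.toAlgebra
  haveI : IsScalarTower ℂ (MvPolynomial (Fin r) ℂ) A :=
    IsScalarTower.of_algebraMap_eq fun c => ((MvPolynomial.aeval y).commutes c).symm
  have am : ∀ G, algebraMap (MvPolynomial (Fin r) ℂ) A G = MvPolynomial.aeval y G := fun _ => rfl
  haveI : FaithfulSMul (MvPolynomial (Fin r) ℂ) A :=
    (faithfulSMul_iff_algebraMap_injective _ _).2 hy.1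
  haveI : Algebra.IsAlgebraic (MvPolynomial (Fin r) ℂ) A := ⟨fun a =>
    (hy.isAlgebraic.isAlgebraic a).ringHom_of_comp_eq hy.1.aevalEquiv.symm (RingHom.id A)
      hy.1.aevalEquiv.symm.injective (RingHom.ext fun x => by
        obtain ⟨G, rfl⟩ := hy.1.aevalEquiv.surjective x
        simp [am])⟩
  haveI : Algebra.FiniteType (MvPolynomial (Fin r) ℂ) A :=
    Algebra.FiniteType.of_restrictScalars_finiteType ℂ _ A
  obtain ⟨u, F, h, h1, -, h3, h4, h5, h6, h7, h8⟩ := et_str (R := MvPolynomial (Fin r) ℂ) (A := A)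
  have D : EtD u F h := ⟨h1, h5, h6, h7, h8⟩
  have cc : co y = co MvPolynomial.X ∘
      Sp.map (IsScalarTower.toAlgHom ℂ (MvPolynomial (Fin r) ℂ) A) := by
    funext p i
    simp [co, am]
  have eq : ∀ (p : Sp A) (t : Fin r → ℂ), co y p = t ↔
      Sp.map (IsScalarTower.toAlgHom ℂ (MvPolynomial (Fin r) ℂ) A) p =
        (MvPolynomial.aeval t : MvPolynomial (Fin r) ℂ →ₐ[ℂ] ℂ) := fun p t => by
    constructor
    · rintro rfl
      exact MvPolynomial.algHom_ext fun i => by
        rw [MvPolynomial.aeval_X]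
        exact congrArg p (MvPolynomial.aeval_X y i)
    · intro e
      rw [cc, Function.comp, e]
      exact funext fun i => MvPolynomial.aeval_X t i
  refine ⟨h, F.natDegree, h4, h3, fun t ht => ⟨?_, fun p hp => ?_⟩⟩
  · obtain ⟨S, s1, s2⟩ := D.card (q := (MvPolynomial.aeval t : MvPolynomial (Fin r) ℂ →ₐ[ℂ] ℂ)) ht
    exact ⟨S, s1, s2.trans (Set.ext fun p => (eq p t).symm)⟩
  · have hq : p (algebraMap (MvPolynomial (Fin r) ℂ) A h) ≠ 0 := by
      have := congrArg (fun q : Sp (MvPolynomial (Fin r) ℂ) => q h) ((eq p t).1 hp)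
      exact fun z => ht (this.symm.trans z)
    refine ⟨cc ▸ D.at hq (et_aff _), fun a => ?_⟩
    obtain ⟨b, hb, m⟩ := D.loc hq (a := a - algebraMap ℂ A (p a)) (by
      rw [map_sub, AlgHomClass.commutes]; exact sub_self _)
    refine ⟨b, hb, Ideal.map_le_iff_le_comap.2 (fun G hG => ?_) m⟩
    have key : ∀ G : MvPolynomial (Fin r) ℂ,
        MvPolynomial.aeval y G - algebraMap ℂ A (p (MvPolynomial.aeval y G)) ∈
          Ideal.span (range fun i => y i - algebraMap ℂ A (p (y i))) := fun G => by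
      induction G using MvPolynomial.induction_on with
      | C c =>
        rw [MvPolynomial.aeval_C, AlgHomClass.commutes]
        exact (sub_self (algebraMap ℂ A c)).symm ▸ zero_mem _
      | add a b ha hb =>
        have := add_mem ha hb
        simp only [map_add]
        convert this using 1
        ring
      | mul_X a i ha =>
        have := add_mem (Ideal.mul_mem_right (y i) _ ha) (Ideal.mul_mem_left _
          (algebraMap ℂ A (p (MvPolynomial.aeval y a))) (Ideal.subset_span (mem_range_self i)))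
        simp only [map_mul, MvPolynomial.aeval_X]
        convert this using 1
        ring
    have z : p (MvPolynomial.aeval y G) = 0 := hG
    have := key G
    rwa [z, map_zero, sub_zero] at this

end Pool.Agent.Lib.MP_d3d358_ag.Cw
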