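import Pool.Agent.Lib.MP_d3d358_ag.Cw.Loc

/-! Change of coordinates for the class of a point. -/

set_option autoImplicit false

namespace Pool.Agent.Lib.MP_d3d358_ag.Cw

open Topology Set Filter AS Metric Matrix

variable {Z Z' : Type} {r n : ℕ}

theorem chg_const (c : ℚ) : dC (fnC fun _ : Z => c) = 0 := by
  have : (fnC fun _ : Z => c) = c • (1 : Ch Z ℚ) := Alg_ext fun l => by
    rw [Alg_smul, Alg_one, Alg_fnC]
    rcases l with _ | ⟨x, _ | ⟨y, l⟩⟩
    · simp [fn]
    · simp [Alg_fn_one]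
    · simp [Alg_fn_two]
  rw [this, map_smul, dC_one, smul_zero]

theorem chg_smul_prod {ι : Type} (L : List ι) (c : ι → ℚ) (a : ι → Ch Z ℚ) :
    (L.map fun i => c i • a i).prod = (L.map c).prod • (L.map a).prod := by
  induction L with
  | nil => simp
  | cons j L ih =>
    simp only [List.map_cons, List.prod_cons, ih, smul_mul_assoc, mul_smul_comm, smul_smul]
    rw [mul_comm]

/-- the sign of a real number as a rational number -/
noncomputable def chgS (d : ℝ) : ℚ := ((SignType.sign d : ℤ) : ℚ)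

theorem chgS_mul (a b : ℝ) : chgS (a * b) = chgS a * chgS b := by
  simp [chgS, sign_mul]

theorem chgS_one : chgS 1 = 1 := by simp [chgS]

theorem chgS_pos {d : ℝ} (h : 0 < d) : chgS d = 1 := by simp [chgS, sign_pos h]

theorem chgS_neg {d : ℝ} (h : d < 0) : chgS d = -1 := by simp [chgS, sign_neg h]

theorem chgS_prod {ι : Type} (L : List ι) (d : ι → ℝ) :
    chgS (L.map d).prod = (L.map fun i => chgS (d i)).prod := by
  induction L with
  | nil => simpa using chgS_one
  | cons j L ih => simp only [List.map_cons, List.prod_cons, chgS_mul, ih]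

variable [MetricSpace Z] [MetricSpace Z'] {K S : Set Z} {p : Z}

theorem chg_jp {d : ℝ} (hd : d ≠ 0) (t : Z → ℝ) : ∃ e : Ch Z ℚ,
    jp (fun x => d * t x) - chgS d • jp t = dC e ∧ ∀ V, (∀ x ∈ V, t x ≠ 0) → e ∈ N V := by
  rcases lt_or_gt_of_ne hd with h | h
  · refine ⟨fnC fun x => if t x = 0 then 1 else 0, ?_, fun V hV => Null_of_zero fun l hl => ?_⟩
    · have e : (fun x => if 0 ≤ d * t x then (1 : ℚ) else 0) = (fun x => if t x = 0 then 1 else 0) -
          ((fun x => if 0 ≤ t x then 1 else 0) - fun _ => 1) := funext fun x => by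
        simp only [Pi.sub_apply]
        rcases lt_trichotomy (t x) 0 with a | a | a
        · rw [if_pos (mul_pos_of_neg_of_neg h a).le, if_neg a.ne, if_neg a.not_ge]; norm_num
        · simp [a]
        · rw [if_neg (mul_neg_of_neg_of_pos h a).not_ge, if_neg a.ne', if_pos a.le]; norm_num
      rw [chgS_neg h, jp, jp, e, Circle_fn_sub, Circle_fn_sub, map_sub, map_sub, chg_const]
      simp
    · rcases l with _ | ⟨x, _ | ⟨y, l⟩⟩
      · exact Alg_nil _
      · rw [Alg_fnC, Alg_fn_one, if_neg (hV x (hl x (by simp)))]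
      · rw [Alg_fnC, Alg_fn_two]
  · refine ⟨0, ?_, fun V _ => zero_mem _⟩
    rw [chgS_pos h, one_smul, map_zero, sub_eq_zero, jp, jp]
    simp only [mul_nonneg_iff_of_pos_left h]

/-- coboundaries of cochains that vanish on `S` -/
noncomputable def chgM (S : Set Z) : Submodule ℚ (Ch Z ℚ) := (N S).map dC

/-- relative homotopy invariance for strict cocycles -/
theorem chg_htpy (hS : IsCompact S) {W : Set Z'} {F : ℝ → Z → Z'}
    (hF : ContinuousOn (fun q : ℝ × Z => F q.1 q.2) (Icc 0 1 ×ˢ S))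
    (hm : ∀ t ∈ Icc (0 : ℝ) 1, ∀ x ∈ S, F t x ∈ W) {a : Ch Z' ℚ} (hd : dC a = 0) (ha : a ∈ N W) :
    pullC (F 1) a - pullC (F 0) a ∈ chgM S := by
  have hc := (isCompact_Icc.prod hS).image_of_continuousOn hF
  obtain ⟨ε, hε, e⟩ := (mem_N_iff hc).1 (N_mono (by
    rintro _ ⟨q, hq, rfl⟩; exact hm _ hq.1 _ hq.2) ha)
  obtain ⟨η, hη, hu⟩ := Metric.uniformContinuousOn_iff.1
    ((isCompact_Icc.prod hS).uniformContinuousOn_of_continuous hF) ε hε
  have step : ∀ s ∈ Icc (0 : ℝ) 1, ∀ t ∈ Icc (0 : ℝ) 1, dist s t < η →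
      pullC (F t) a - pullC (F s) a ∈ chgM S := by
    intro s m1 t m2 dd
    obtain ⟨h, g1, -, g3⟩ := NullM_prism (R := ℚ) (F s) (F t)
    refine ⟨h a, NullM_of_sm hη (g3 _ _ S ε η e (fun x hx => ⟨(s, x), ⟨m1, hx⟩, rfl⟩)
      (fun x hx => ⟨(t, x), ⟨m2, hx⟩, rfl⟩) fun x hx y hy hxy =>
      ⟨hu (s, x) ⟨m1, hx⟩ (s, y) ⟨m1, hy⟩ ?_, hu (s, x) ⟨m1, hx⟩ (t, y) ⟨m2, hy⟩ ?_,
        hu (t, x) ⟨m2, hx⟩ (t, y) ⟨m2, hy⟩ ?_⟩), by rw [g1, hd, map_zero, add_zero]⟩
    · rw [Prod.dist_eq]; exact max_lt (by simpa using hη) hxy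
    · rw [Prod.dist_eq]; exact max_lt dd hxy
    · rw [Prod.dist_eq]; exact max_lt (by simpa using hη) hxy
  obtain ⟨m, hn⟩ := exists_nat_one_div_lt hη
  have hn0 : (0 : ℝ) < m + 1 := by positivity
  have key : ∀ j : ℕ, j ≤ m + 1 → pullC (F (j / (m + 1))) a - pullC (F 0) a ∈ chgM S := by
    intro j
    induction j with
    | zero => exact fun _ => by simp
    | succ j ih =>
      intro hj
      have hj' : ((j + 1 : ℕ) : ℝ) ≤ m + 1 := by exact_mod_cast hj
      have := add_mem (step ((j : ℝ) / (m + 1)) ⟨by positivity, (div_le_one hn0).2 (by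
        push_cast at hj'; linarith)⟩ (((j + 1 : ℕ) : ℝ) / (m + 1))
        ⟨by positivity, (div_le_one hn0).2 hj'⟩ (by
          rw [Real.dist_eq, show (j : ℝ) / (m + 1) - ((j + 1 : ℕ) : ℝ) / (m + 1) = -(1 / (m + 1)) by
            push_cast; ring, abs_neg, abs_of_pos (by positivity)]
          exact hn)) (ih (by omega))
      rwa [sub_add_sub_cancel] at this
  have := key (m + 1) le_rfl
  rwa [show ((m + 1 : ℕ) : ℝ) / (m + 1) = 1 by push_cast; exact div_self hn0.ne'] at this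

theorem chg_jr (hS : IsCompact S) {F : ℝ → Z → Fin n → ℝ}
    (hF : ContinuousOn (fun q : ℝ × Z => F q.1 q.2) (Icc 0 1 ×ˢ S))
    (hm : ∀ t ∈ Icc (0 : ℝ) 1, ∀ x ∈ S, F t x ≠ 0) : jr (F 1) - jr (F 0) ∈ chgM S := by
  have := chg_htpy hS (W := {0}ᶜ) hF hm (dC_jr id) (jr_null continuousOn_id fun _ h => h)
  rwa [pullC_jr, pullC_jr] at this

/-- linear change of coordinates -/
theorem chg_lin (hS : IsCompact S) (A : Matrix (Fin n) (Fin n) ℝ) (hA : A.det ≠ 0) :
    ∀ h : Z → Fin n → ℝ, ContinuousOn h S → (∀ x ∈ S, h x ≠ 0) →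
      jr (fun x => A *ᵥ h x) - chgS A.det • jr h ∈ chgM S := by
  refine Matrix.diagonal_transvection_induction_of_det_ne_zero (fun A => ∀ h : Z → Fin n → ℝ,
    ContinuousOn h S → (∀ x ∈ S, h x ≠ 0) →
      jr (fun x => A *ᵥ h x) - chgS A.det • jr h ∈ chgM S) A hA ?_ ?_ ?_
  · intro D hD h hc h0
    have hD' : ∀ i, D i ≠ 0 := fun i =>
      Finset.prod_ne_zero_iff.1 (Matrix.det_diagonal (d := D) ▸ hD) i (Finset.mem_univ i)
    choose e e1 e2 using fun i => chg_jp (hD' i) fun x => h x i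
    obtain ⟨b, b1, b2⟩ := loc_tele (List.finRange n) e1 (fun _ => dC_jp _)
      fun _ => by rw [map_smul, dC_jp, smul_zero]
    refine ⟨b, Circle_local fun x hx => ?_, ?_⟩
    · obtain ⟨i, hi⟩ := Function.ne_iff.1 (h0 x hx)
      have ci : ContinuousWithinAt (fun x => h x i) S x :=
        (continuous_apply i).continuousAt.comp_continuousWithinAt (hc x hx)
      obtain ⟨V1, v1, w1⟩ := loc_jp_null ci hi
      obtain ⟨V2, v2, w2⟩ := loc_jp_null (t := fun x => D i * h x i)
        (continuousWithinAt_const.mul ci) (mul_ne_zero (hD' i) hi)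
      refine ⟨V1 ∩ V2 ∩ {x | h x i ≠ 0}, inter_mem (inter_mem v1 v2) (ci.eventually_ne hi),
        b2 _ i (List.mem_finRange i) (N_mono (fun _ h => h.1.2) w2)
          (Submodule.smul_mem _ _ (N_mono (fun _ h => h.1.1) w1)) (e2 i _ fun _ h => h.2)⟩
    · rw [← b1, chg_smul_prod, ← chgS_prod, Matrix.det_diagonal, loc_jr, loc_jr,
        Fin.prod_univ_def]
      simp only [Matrix.mulVec_diagonal]
  · intro t h hc h0
    have := chg_jr hS (F := fun s x => h x + (s * t.c * h x t.j) • Pi.single t.i 1) (by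
      have c2 : ContinuousOn (fun q : ℝ × Z => h q.2) (Icc 0 1 ×ˢ S) :=
        hc.comp continuousOn_snd fun _ h => h.2
      have c3 : ContinuousOn (fun q : ℝ × Z => q.1 * t.c * h q.2 t.j) (Icc 0 1 ×ˢ S) :=
        (continuousOn_fst.mul continuousOn_const).mul ((continuous_apply t.j).comp_continuousOn c2)
      exact c2.add (c3.smul continuousOn_const)) (by
      intro s _ x hx e
      have e1 := congrFun e t.j
      simp only [Pi.add_apply, Pi.smul_apply, Pi.single_eq_of_ne t.hij.symm, smul_zero, add_zero,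
        Pi.zero_apply] at e1
      rw [e1, mul_zero, zero_smul, add_zero] at e
      exact h0 x hx e)
    simp only [zero_mul, zero_smul, add_zero, one_mul] at this
    rw [t.det, chgS_one, one_smul]
    convert this using 3
    funext x
    obtain ⟨i, j, hij, c⟩ := t
    simp only [TransvectionStruct.toMatrix_mk, transvection, Matrix.add_mulVec, Matrix.one_mulVec,
      Matrix.single_mulVec]
    congr 1
    funext k
    by_cases hk : k = i
    · subst hk; simp
    · simp [hk]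
  · intro A B hA hB iA iB h hc h0
    have h1 := iA (fun x => B *ᵥ h x)
      ((continuous_const.matrix_mulVec continuous_id).comp_continuousOn hc)
      fun x hx e => h0 x hx (Matrix.eq_zero_of_mulVec_eq_zero hB e)
    have := add_mem h1 (Submodule.smul_mem _ (chgS A.det) (iB h hc h0))
    simp only [Matrix.mulVec_mulVec] at this
    rwa [smul_sub, sub_add_sub_cancel, smul_smul, ← chgS_mul, ← Matrix.det_mul] at this

/-- a relative coboundary on small shells is enough -/
theorem chg_shell {j j' : Ch Z ℚ} (h : ∀ᶠ ρ in 𝓝[>] (0 : ℝ),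
    j - j' ∈ chgM (K ∩ (closedBall p ρ \ ball p (ρ / 2)))) {x x' : HT ℚ K} (hx : Lc K p j x)
    (hx' : Lc K p j' x') : x = x' := by
  obtain ⟨a, ha, rfl, h1, U, hU, h2⟩ := hx
  obtain ⟨a', ha', rfl, h1', U', hU', h2'⟩ := hx'
  obtain ⟨ε, hε, hs⟩ := Metric.nhds_basis_closedBall.mem_iff.1 (inter_mem hU hU')
  obtain ⟨ρ, ⟨b, b1, b2⟩, hρ⟩ := (h.and (Ioo_mem_nhdsGT hε)).exists
  have sub : closedBall p ρ ⊆ U ∩ U' := (closedBall_subset_closedBall hρ.2.le).trans hs
  refine (mk_eq_iff ha ha').2 ⟨ptCut (closedBall p ρ) b, Circle_local fun q hq => ?_⟩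
  by_cases hb : q ∈ ball p ρ
  · refine ⟨closedBall p ρ ∩ K, inter_mem (mem_nhdsWithin_of_mem_nhds (mem_of_superset
      (isOpen_ball.mem_nhds hb) ball_subset_closedBall)) self_mem_nhdsWithin, ?_⟩
    have := sub_mem (sub_mem
      (N_mono (inter_subset_inter_left K (sub.trans inter_subset_left)) h2)
      (N_mono (inter_subset_inter_left K (sub.trans inter_subset_right)) h2'))
      (N_mono inter_subset_left (N_dC (pt_cut_in (K := closedBall p ρ) b)))
    rw [map_sub, b2] at this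
    convert this using 1
    abel
  · have hq' : q ∉ closedBall p (ρ / 2) := fun h =>
      hb (closedBall_subset_ball (by linarith [hρ.1]) h)
    have off : K ∩ (closedBall p (ρ / 2))ᶜ ⊆ K \ {p} := fun u hu => ⟨hu.1, fun e => hu.2 (by
      rw [show u = p from e]; exact mem_closedBall_self (by linarith [hρ.1]))⟩
    refine ⟨K ∩ (closedBall p (ρ / 2))ᶜ, inter_mem_nhdsWithin _
      (isClosed_closedBall.isOpen_compl.mem_nhds hq'),
      sub_mem (sub_mem (N_mono off h1) (N_mono off h1')) (N_dC fun u hu => ?_)⟩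
    by_cases hc : u ∈ closedBall p ρ
    · obtain ⟨V, hV, e⟩ := b1 u ⟨hu.1, hc, fun h => hu.2 (ball_subset_closedBall h)⟩
      refine ⟨V, hV, fun l hl => ?_⟩
      classical
      exact ite_eq_right_iff.2 fun h => e l fun y hy => ⟨(hl y hy).1, (hl y hy).2.1, h y hy,
        fun h => (hl y hy).2.2 (ball_subset_closedBall h)⟩
    · obtain ⟨V, hV, e⟩ := pt_cut_out (K := closedBall p ρ) b u hc
      exact ⟨V ∩ (closedBall p ρ)ᶜ, inter_mem hV (isClosed_closedBall.isOpen_compl.mem_nhds hc),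
        fun l hl => e l fun y hy => (hl y hy).1⟩

theorem chg_real (hK : IsCompact K) {y : Z → Fin r → ℂ} (h : Cht K p y)
    {F : (Fin r → ℂ) → Fin (r * 2) → ℝ} (hF : ContDiffAt ℝ 1 F (y p))
    (hd : ((fderiv ℝ F (y p)).comp (rl r).symm.toContinuousLinearMap).det ≠ 0)
    {g : Z → Fin (r * 2) → ℝ} (hg : g =ᶠ[𝓝[K] p] F ∘ y) {x x' : HT ℚ K} (hx : IsPt K p y x)
    (hx' : Lc K p (jr fun u => g u - g p) x') : x' = ((SignType.sign
      ((fderiv ℝ F (y p)).comp (rl r).symm.toContinuousLinearMap).det : ℤ) : ℚ) • x := by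
  obtain ⟨U, O, s, c, hp⟩ := h
  set L := fderiv ℝ F (y p) with hL
  set A := L.comp (rl r).symm.toContinuousLinearMap with hA
  have gp : g p = F (y p) := hg.eq_of_nhdsWithin hp.2
  have inj : Function.Injective L := by
    have h1 : Function.Injective A := by
      have := (LinearMap.isUnit_iff_ker_eq_bot _).1
        ((LinearMap.isUnit_iff_isUnit_det _).2 hd.isUnit)
      exact LinearMap.ker_eq_bot.1 this
    intro u v e
    exact (rl r).injective (h1 (by simpa [hA] using e))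
  obtain ⟨k, k0, hk⟩ := (L : (Fin r → ℂ) →ₗ[ℝ] Fin (r * 2) → ℝ).exists_antilipschitzWith
    (LinearMap.ker_eq_bot.2 inj)
  have hk' : ∀ v, ‖v‖ ≤ k * ‖L v‖ := fun v => by simpa using hk.le_mul_dist v 0
  have cy : Tendsto y (𝓝[K] p) (𝓝 (y p)) := (c.cy p hp).mono_of_mem_nhdsWithin
    (inter_mem (mem_nhdsWithin_of_mem_nhds (c.oU.mem_nhds hp.1)) self_mem_nhdsWithin)
  have k1 : (0 : ℝ) < k := k0
  have e1 := cy.eventually (((hF.differentiableAt one_ne_zero).hasFDerivAt.isLittleO.def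
    (c := 1 / (2 * k)) (by positivity)).and (hF.eventually (by simp)))
  obtain ⟨V, hV, hv⟩ := mem_nhdsWithin_iff_exists_mem_nhds_inter.1 ((hg.and e1).and
    (mem_nhdsWithin_of_mem_nhds (c.oU.mem_nhds hp.1)))
  obtain ⟨ε, hε, hs⟩ := Metric.nhds_basis_closedBall.mem_iff.1 hV
  rw [IsPt, jc_eq] at hx
  refine chg_shell ?_ hx' (hx.smul _)
  filter_upwards [Ioo_mem_nhdsGT hε] with ρ hρ
  set S := K ∩ (closedBall p ρ \ ball p (ρ / 2)) with hS
  have cS : IsCompact S := hK.inter_right (isClosed_closedBall.sdiff isOpen_ball)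
  have m : ∀ u ∈ S, u ∈ V ∩ K := fun u hu =>
    ⟨hs (closedBall_subset_closedBall hρ.2.le hu.2.1), hu.1⟩
  have mU : ∀ u ∈ S, u ∈ U ∩ K := fun u hu => ⟨(hv (m u hu)).2, hu.1⟩
  have y0 : ∀ u ∈ S, y u - y p ≠ 0 := fun u hu e => hu.2.2 (by
    rw [← c.li u (mU u hu), sub_eq_zero.1 e, c.li p hp]
    exact mem_ball_self (by linarith [hρ.1]))
  have c1 : ContinuousOn (fun u => y u - y p) S := (c.cy.mono mU).sub continuousOn_const
  have c2 : ContinuousOn g S := ContinuousOn.congr (f := F ∘ y)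
    (fun u hu => (hv (m u hu)).1.2.2.continuousAt.comp_continuousWithinAt
      ((c.cy u (mU u hu)).mono mU)) fun u hu => (hv (m u hu)).1.1
  have a1 := chg_lin cS (LinearMap.toMatrix' (A : (Fin (r * 2) → ℝ) →ₗ[ℝ] Fin (r * 2) → ℝ))
    (by rwa [LinearMap.det_toMatrix']) (fun u => rl r (y u - y p))
    ((rl r).continuous.comp_continuousOn c1) fun u hu e => y0 u hu ((rl r).map_eq_zero_iff.1 e)
  have a2 := chg_jr cS (F := fun t u => L (y u - y p) + t • (g u - g p - L (y u - y p))) (by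
    have d1 : ContinuousOn (fun q : ℝ × Z => L (y q.2 - y p)) (Icc 0 1 ×ˢ S) :=
      L.continuous.comp_continuousOn (c1.comp continuousOn_snd fun _ h => h.2)
    exact d1.add (continuousOn_fst.smul (((c2.comp continuousOn_snd fun _ h => h.2).sub
      continuousOn_const).sub d1))) (by
    intro t ht u hu e
    have b1 : ‖g u - g p - L (y u - y p)‖ ≤ 1 / (2 * k) * ‖y u - y p‖ := by
      rw [(hv (m u hu)).1.1, gp]; exact (hv (m u hu)).1.2.1
    have b2 : ‖L (y u - y p)‖ ≤ ‖g u - g p - L (y u - y p)‖ := by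
      refine (congrArg norm (eq_neg_of_add_eq_zero_left e)).trans_le ?_
      rw [norm_neg, norm_smul, Real.norm_of_nonneg ht.1]
      exact mul_le_of_le_one_left (norm_nonneg _) ht.2
    have b3 := (hk' (y u - y p)).trans (mul_le_mul_of_nonneg_left (b2.trans b1) k1.le)
    rw [← mul_assoc, show (k : ℝ) * (1 / (2 * k)) = 1 / 2 by field_simp] at b3
    linarith [norm_pos_iff.2 (y0 u hu)])
  simp only [one_smul, zero_smul, add_zero, add_sub_cancel] at a2
  simp only [LinearMap.toMatrix'_mulVec, LinearMap.det_toMatrix', hA, ContinuousLinearMap.coe_coe,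
    ContinuousLinearMap.comp_apply, ContinuousLinearEquiv.coe_coe,
    ContinuousLinearEquiv.symm_apply_apply] at a1
  have := add_mem a2 a1
  rwa [sub_add_sub_cancel] at this

theorem chg_cx (hK : IsCompact K) {y : Z → Fin r → ℂ} (h : Cht K p y)
    {F : (Fin r → ℂ) → Fin r → ℂ} (hF : ContDiffAt ℂ 1 F (y p))
    (hd : Function.Injective (fderiv ℂ F (y p))) {g : Z → Fin r → ℂ} (hg : g =ᶠ[𝓝[K] p] F ∘ y)
    {x x' : HT ℚ K} (hx : IsPt K p y x) (hx' : IsPt K p g x') : x = x' := by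
  set L := fderiv ℂ F (y p) with hL
  have f1 : fderiv ℝ (rl r ∘ F) (y p) = (rl r).toContinuousLinearMap.comp (L.restrictScalars ℝ) :=
    ((rl r).hasFDerivAt.comp _
      ((hF.differentiableAt one_ne_zero).hasFDerivAt.restrictScalars ℝ)).fderiv
  have d0 : 0 < ((fderiv ℝ (rl r ∘ F) (y p)).comp (rl r).symm.toContinuousLinearMap).det := by
    have e := LinearMap.det_conj ((L : (Fin r → ℂ) →ₗ[ℂ] Fin r → ℂ).restrictScalars ℝ)
      (rl r).toLinearEquiv
    rw [LinearMap.det_restrictScalars, Algebra.norm_complex_apply] at e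
    rw [f1]
    refine lt_of_lt_of_eq (Complex.normSq_pos.2 ?_) e.symm
    exact ((LinearMap.isUnit_iff_isUnit_det _).1 ((LinearMap.isUnit_iff_ker_eq_bot _).2
      (LinearMap.ker_eq_bot.2 hd))).ne_zero
  have := chg_real hK h ((rl r).contDiff.contDiffAt.comp _ (hF.restrict_scalars ℝ)) d0.ne'
    (g := fun u => rl r (g u)) (hg.mono fun u hu => congrArg (rl r) hu) hx (isPt_iff.1 hx')
  rw [this, sign_pos d0]
  simp

end Pool.Agent.Lib.MP_d3d358_ag.Cw
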