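import Pool.Agent.Lib.MP_d3d358_ag.Cw.At
import Pool.Agent.Lib.MP_d3d358_ag.Cw.Chg

/-! The class of a point does not depend on the holomorphic chart. -/

set_option autoImplicit false

namespace Pool.Agent.Lib.MP_d3d358_ag.Cw

open Topology Set Filter AS

variable {Z : Type} {r : ℕ} [MetricSpace Z] {K : Set Z} {p : Z} {Rg : Z → (Z → ℂ) → Prop}

theorem At.pt_eq (hK : IsCompact K) {y y' : Z → Fin r → ℂ} (h : At Rg K p y) (h' : At Rg K p y')
    {x x' : HT ℚ K} (hx : IsPt K p y x) (hx' : IsPt K p y' x') : x = x' := by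
  obtain ⟨F, hF, hinj, hg⟩ := h.trans h'
  exact chg_cx hK h.cht hF hinj hg hx hx'

end Pool.Agent.Lib.MP_d3d358_ag.Cw
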