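import Pool.Agent.Lib.MP_d3d358_ag.Cw.DimA

/-! Thin sets. -/

set_option autoImplicit false

namespace Pool.Agent.Lib.MP_d3d358_ag.Cw

open Topology Set Filter AS

variable {Z Z' : Type} {r n : ℕ}

section Dim
variable [MetricSpace Z] {K L B : Set Z}

theorem Thin.mono (h : Thin B r) (hL : L ⊆ B) {m : ℕ} (hm : r ≤ m) : Thin L m := by
  obtain ⟨s, hs, hB, h⟩ := h
  refine ⟨s, hs, hL.trans hB, fun C hC => ?_⟩
  obtain ⟨hC', k, hk, e⟩ := h C hC
  exact ⟨hC', k, hk.trans_le hm, e⟩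

theorem Thin.union (h : Thin B r) (h' : Thin L r) : Thin (B ∪ L) r := by
  obtain ⟨s, hs, hB, h⟩ := h
  obtain ⟨s', hs', hB', h'⟩ := h'
  exact ⟨s ∪ s', hs.union hs', by rw [sUnion_union]; exact union_subset_union hB hB',
    fun C hC => hC.elim (h C) (h' C)⟩

theorem thin_empty : Thin (∅ : Set Z) r :=
  ⟨∅, finite_empty, empty_subset _, fun _ h => h.elim⟩

theorem Thin.eq_empty (h : Thin B 0) : B = ∅ := by
  obtain ⟨s, -, hB, h⟩ := h
  refine eq_empty_of_forall_notMem fun x hx => ?_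
  obtain ⟨C, hC, -⟩ := hB hx
  obtain ⟨-, m, hm, -⟩ := h C hC
  exact absurd hm (Nat.not_lt_zero m)

theorem thin_biUnion {ι : Type} {s : Set ι} (hs : s.Finite) {C : ι → Set Z}
    (h : ∀ i ∈ s, Thin (C i) r) : Thin (⋃ i ∈ s, C i) r := by
  induction s, hs using Set.Finite.induction_on with
  | empty => rw [biUnion_empty]; exact thin_empty
  | @insert i s _ _ ih =>
    rw [biUnion_insert]
    exact (h i (mem_insert _ _)).union (ih fun j hj => h j (mem_insert_of_mem _ hj))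

theorem Thin.preimage [MetricSpace Z'] {K' : Set Z'} (hK' : IsCompact K') {f : Z' → Z}
    (hf : ContinuousOn f K') (hfin : ∀ z, (K' ∩ f ⁻¹' {z}).Finite) (h : Thin B r) :
    Thin (K' ∩ f ⁻¹' B) r := by
  obtain ⟨s, hs, hB, h⟩ := h
  refine ⟨(fun C => K' ∩ f ⁻¹' C) '' s, hs.image _, fun x hx => ?_, ?_⟩
  · obtain ⟨C, hC, hx'⟩ := hB hx.2
    exact ⟨_, ⟨C, hC, rfl⟩, hx.1, hx'⟩
  · rintro _ ⟨C, hC, rfl⟩
    obtain ⟨hC', m, hm, g, hg, hgf⟩ := h C hC
    refine ⟨asTh_compact hK' hf hC'.isClosed, m, hm, g ∘ f,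
      hg.comp (hf.mono inter_subset_left) fun x hx => hx.2, fun t => ?_⟩
    exact ((hgf t).biUnion fun z _ => hfin z).subset fun x hx =>
      mem_biUnion (x := f x) ⟨hx.1.2, hx.2⟩ ⟨hx.1.1, rfl⟩

theorem Thin.prod [MetricSpace Z'] {B' : Set Z'} {m : ℕ} (h : Thin B r) (h' : Thin B' (m + 1)) :
    Thin (B ×ˢ B') (r + m) := by
  obtain ⟨s, hs, hB, h⟩ := h
  obtain ⟨s', hs', hB', h'⟩ := h'
  refine ⟨image2 (· ×ˢ ·) s s', hs.image2 _ hs', fun x hx => ?_, ?_⟩
  · obtain ⟨C, hC, hx1⟩ := hB hx.1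
    obtain ⟨C', hC', hx2⟩ := hB' hx.2
    exact ⟨_, mem_image2_of_mem hC hC', hx1, hx2⟩
  · rintro _ ⟨C, hC, C', hC', rfl⟩
    obtain ⟨c1, k, hk, f, hf, hff⟩ := h C hC
    obtain ⟨c2, k', hk', g, hg, hgf⟩ := h' C' hC'
    have hf' : ContinuousOn (fun x : Z × Z' => f x.1) (C ×ˢ C') :=
      hf.comp continuous_fst.continuousOn fun x hx => hx.1
    have hg' : ContinuousOn (fun x : Z × Z' => g x.2) (C ×ˢ C') :=
      hg.comp continuous_snd.continuousOn fun x hx => hx.2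
    refine ⟨c1.prod c2, k + k', by omega, fun x => Fin.append (f x.1) (g x.2),
      continuousOn_pi.2 fun i => ?_, fun t => ?_⟩
    · refine Fin.addCases (fun i => ?_) (fun i => ?_) i
      · simp only [Fin.append_left]
        exact continuousOn_pi.1 hf' i
      · simp only [Fin.append_right]
        exact continuousOn_pi.1 hg' i
    · refine ((hff fun i => t (Fin.castAdd k' i)).prod
        (hgf fun i => t (Fin.natAdd k i))).subset fun x hx => ?_
      have e : Fin.append (f x.1) (g x.2) = t := hx.2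
      exact ⟨⟨hx.1.1, funext fun i => by rw [← e, Fin.append_left]⟩,
        hx.1.2, funext fun i => by rw [← e, Fin.append_right]⟩

end Dim

end Pool.Agent.Lib.MP_d3d358_ag.Cw
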