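import Pool.Agent.Lib.MP_d3d358_ag.Cw.Rel

/-! Cohomological dimension of thin sets. -/

set_option autoImplicit false

namespace Pool.Agent.Lib.MP_d3d358_ag.Cw

open Topology Set Filter AS

variable {Z : Type} {r : ℕ} [MetricSpace Z] {K L B : Set Z}

/-- relative form of `N_union` -/
theorem N_union_rel (hK : IsCompact K) (hL : IsCompact L) (hB : IsCompact B) {k : ℤ} {a : Ch Z ℚ}
    (ha : a ∈ DZ k) (h1 : a ∈ N K) (h2 : a ∈ N L) (h3 : a ∈ N (B ∩ (K ∪ L)))
    (hd : dC a ∈ N (K ∪ L)) : ∃ b ∈ DZ (k - 1), b ∈ N K ∧ b ∈ N L ∧ b ∈ N (B ∩ (K ∪ L)) ∧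
      a - dC b ∈ N (K ∪ L) := by
  obtain ⟨b, hb, b1, b2, b3, e⟩ := rel_union hK hL hB ha h1 h2 h3 hd
  exact ⟨b, hb, b1, b2, N_mono inter_subset_left b3, e⟩

theorem Dim.mono {m : ℤ} (h : Dim K m) (hL : IsCompact L) (hLK : L ⊆ K) : Dim L m := by
  intro A hA hAL k hk a ha hd h0
  obtain ⟨b, hb, b1, e⟩ := h L hL hLK (k + 1) (by omega) (dC a) (dC_mem ha)
    (by rw [dC_dC]; exact zero_mem _) hd
  rw [add_sub_cancel_right] at hb
  obtain ⟨c, hc, c1, e'⟩ := h A hA (hAL.trans hLK) k hk (a - b) (sub_mem ha hb)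
    (by rwa [map_sub]) (sub_mem h0 (N_mono hAL b1))
  exact ⟨c, hc, c1, rel_of_eq (add_mem (N_mono hLK e') b1) (by abel)⟩

theorem Dim.van {m k : ℤ} (h : Dim K m) (hk : m < k) : Van ℚ K k := by
  rintro x ⟨a, hd, ha, rfl⟩
  obtain ⟨b, hb, -, e⟩ := h ∅ isCompact_empty (empty_subset _) k hk a ha hd (N_empty a)
  exact (mk_eq_zero_iff ha hd).2 ⟨b, hb, e⟩

theorem Dim.le {m m' : ℤ} (h : Dim K m) (hm : m ≤ m') : Dim K m' :=
  fun L hL hLK k hk => h L hL hLK k (hm.trans_lt hk)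

theorem dim_empty (m : ℤ) : Dim (∅ : Set Z) m := fun _ _ _ _ _ _ _ _ _ =>
  ⟨0, zero_mem _, zero_mem _, N_empty _⟩

theorem Dim.rz {m k : ℤ} (h : Dim K m) (hK : IsCompact K) (hL : IsCompact L) (hk : m < k)
    {a : Ch Z ℚ} (ha : a ∈ DZ k) (hd : dC a ∈ N K) (h0 : a ∈ N (L ∩ K)) :
    ∃ b ∈ DZ (k - 1), b ∈ N L ∧ a - dC b ∈ N K :=
  RZ.strict hK.isClosed (h (L ∩ K) (hL.inter hK) inter_subset_right k hk a ha hd h0)

theorem Dim.union {m : ℤ} (hK : IsCompact K) (hB : IsCompact B) (h : Dim K m) (h' : Dim B m) :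
    Dim (K ∪ B) m := by
  intro L hL hs k hk a ha hd h0
  have dd : ∀ {a b : Ch Z ℚ}, dC a ∈ N (K ∪ B) → dC (a - dC b) ∈ N (K ∪ B) := fun h => by
    rwa [map_sub, dC_dC, sub_zero]
  obtain ⟨b, hb, b1, e1⟩ := h.rz hK hL hk ha (N_mono subset_union_left hd)
    (N_mono inter_subset_left h0)
  have s1 : K ∪ L ⊆ K ∪ B := union_subset subset_union_left hs
  have m1 := sub_mem ha (MV_dC_mem hb)
  obtain ⟨c, hc, -, c1, e2⟩ := N_union hK hL m1 e1 (sub_mem h0 (N_dC b1)) (N_mono s1 (dd hd))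
  have m2 := sub_mem m1 (MV_dC_mem hc)
  obtain ⟨e, he, f1, e3⟩ := h'.rz hB (hK.union hL) hk m2 (N_mono subset_union_right (dd (dd hd)))
    (N_mono inter_subset_left e2)
  have e4 := sub_mem e2 (N_dC f1)
  obtain ⟨g, hg, -, -, g1, e5⟩ := rel_union hK hB hL (sub_mem m2 (MV_dC_mem he))
    (N_mono subset_union_left e4) e3 (N_mono (inter_subset_left.trans subset_union_right) e4)
    (dd (dd (dd hd)))
  exact ⟨b + c + e + g, add_mem (add_mem (add_mem hb hc) he) hg,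
    add_mem (add_mem (add_mem b1 c1) (N_mono subset_union_right f1)) g1,
    rel_of_eq e5 (by simp only [map_add]; abel)⟩

theorem dim_finite (hK : K.Finite) : Dim K 0 := by
  intro L _ _ k hk a ha hd h0
  obtain ⟨b, hb, e⟩ := N_finite hK hk ha hd
  have o : ptCut Lᶜ b ∈ N L := by simpa only [compl_compl] using pt_cut_out (K := Lᶜ) b
  refine ⟨ptCut Lᶜ b, pt_cut_deg _ hb, o, Circle_local fun x hx => ⟨{x}, ?_, ?_⟩⟩
  · refine mem_of_superset (inter_mem_nhdsWithin K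
      ((hK.subset (sdiff_subset (t := {x}))).isClosed.isOpen_compl.mem_nhds fun h => h.2 rfl))
      fun y hy => by_contra fun h => hy.2 ⟨hy.1, h⟩
  · by_cases hxL : x ∈ L
    · exact N_mono (singleton_subset_iff.2 hxL) (sub_mem h0 (N_dC o))
    · exact rel_of_eq (sub_mem (N_mono (singleton_subset_iff.2 hx) e)
        (N_mono (singleton_subset_iff.2 hxL) (N_dC (pt_cut_in (K := Lᶜ) b))))
        (by rw [map_sub]; abel)

/-- over the line the dimension grows by one -/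
theorem dim_line (T : Th ℚ ℝ) {j : ℤ} (h : ∀ x, T.Ac {x} j) (h' : ∀ x, T.Ac {x} (j - 1))
    {a : T.M} (ha : a ∈ T.D j) (hd : T.d a ∈ T.N univ) (x y : ℝ) :
    ∃ b ∈ T.D (j - 1), a - T.d b ∈ T.N (uIcc x y) := by
  refine isPreconnected_univ.induction₂ (fun x y => ∃ b ∈ T.D (j - 1), a - T.d b ∈ T.N (uIcc x y))
    (fun x _ => ?_) ?_ ?_ (mem_univ x) (mem_univ y)
  · obtain ⟨b, hb, e⟩ := h x a ha (T.of_univ _ hd)
    obtain ⟨c, hc, -, V, hV, ec⟩ := T.nhds {x} univ j isClosed_singleton isClosed_univ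
      (subset_univ _) _ (sub_mem ha (T.d_deg' hb)) e univ Filter.univ_mem
      (T.mem_of_eq (sub_mem (T.of_univ _ hd) (T.dd' _ b)) (map_sub _ _ _))
    rw [nhdsSet_singleton] at hV
    obtain ⟨ε, hε, s⟩ := Metric.mem_nhds_iff.1 hV
    filter_upwards [mem_nhdsWithin_of_mem_nhds (Metric.ball_mem_nhds x hε)] with y hy
    exact ⟨b + c, add_mem hb hc, T.mem_of_eq (T.mono _ _ (subset_inter
      (((convex_ball x ε).ordConnected.uIcc_subset (Metric.mem_ball_self hε) hy).trans s)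
      (subset_univ _)) ec) (by rw [map_add]; abel)⟩
  · rintro x y z - - - ⟨b, hb, e⟩ ⟨c, hc, e'⟩
    by_cases hy : y ∈ uIcc x z
    · have : uIcc x y ∩ uIcc y z = {y} := by
        ext t
        simp only [mem_inter_iff, mem_uIcc, mem_singleton_iff] at hy ⊢
        constructor
        · rintro ⟨h1 | h1, h2 | h2⟩ <;> rcases hy with hy | hy <;>
            linarith [h1.1, h1.2, h2.1, h2.2, hy.1, hy.2]
        · rintro rfl
          constructor
          · rcases le_total x t with h | h <;> simp [h]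
          · rcases le_total t z with h | h <;> simp [h]
      obtain ⟨g, hg, eg⟩ := T.mv0 isClosed_Icc isClosed_Icc (show T.Ac (uIcc x y ∩ uIcc y z) _ from
        this ▸ h' y) ha (T.of_univ _ hd) hb hc e e'
      exact ⟨g, hg, T.mono _ _ uIcc_subset_uIcc_union_uIcc eg⟩
    · by_cases hz : z ∈ uIcc x y
      · exact ⟨b, hb, T.mono _ _ (uIcc_subset_uIcc left_mem_uIcc hz) e⟩
      · refine ⟨c, hc, T.mono _ _ (uIcc_subset_uIcc ?_ right_mem_uIcc) e'⟩
        simp only [mem_uIcc, not_or, not_and_or, not_le] at hy hz ⊢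
        rcases hy with ⟨h1 | h1, h2 | h2⟩ <;> rcases hz with ⟨h3 | h3, h4 | h4⟩ <;>
          first | (left; constructor <;> linarith) | (right; constructor <;> linarith)
  · exact fun x y _ _ ⟨b, hb, e⟩ => ⟨b, hb, uIcc_comm x y ▸ e⟩

theorem dim_slice (hK : IsCompact K) {t : Z → ℝ} (ht : ContinuousOn t K) {m : ℤ}
    (h : ∀ x, Dim (K ∩ t ⁻¹' {x}) m) : Dim K (m + 1) := by
  intro L hL _ k hk a ha hd h0
  have ac : ∀ j, m < j → ∀ x, (relTh hK hL t ht).Ac {x} j := fun j hj x c hc dc => by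
    obtain ⟨b, hb, b1, e⟩ := (h x).rz (asTh_compact hK ht isClosed_singleton) hL hj hc.1 dc
      (N_mono inter_subset_left hc.2)
    exact ⟨b, ⟨hb, b1⟩, e⟩
  obtain ⟨R, hR⟩ := hK.exists_bound_of_continuousOn ht
  obtain ⟨b, hb, e⟩ := dim_line (relTh hK hL t ht) (ac k (by omega)) (ac (k - 1) (by omega))
    (a := a) ⟨ha, h0⟩ (N_mono inter_subset_left hd) (-R) R
  refine ⟨b, hb.1, hb.2, N_mono (L := K ∩ t ⁻¹' uIcc (-R) R) (fun x hx => ⟨hx, ?_⟩) e⟩
  exact Icc_subset_uIcc (abs_le.1 (hR x hx))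

theorem dim_real (n : ℕ) : ∀ {K : Set Z}, IsCompact K → ∀ {f : Z → Fin n → ℝ}, ContinuousOn f K →
    (∀ v, (K ∩ f ⁻¹' {v}).Finite) → Dim K n := by
  induction n with
  | zero =>
    intro K _ f _ hf
    exact dim_finite ((hf 0).subset fun x hx => ⟨hx, Subsingleton.elim _ _⟩)
  | succ n ih =>
    intro K hK f hc hf
    have c0 : ContinuousOn (fun z => f z 0) K := (continuous_apply 0).comp_continuousOn hc
    rw [Nat.cast_succ]
    refine dim_slice hK c0 fun x => ih (asTh_compact hK c0 isClosed_singleton)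
      (f := fun z i => f z i.succ) (continuousOn_pi.2 fun i =>
        ((continuous_apply i.succ).comp_continuousOn hc).mono inter_subset_left) fun v => ?_
    refine (hf (Fin.cons x v)).subset fun z hz => ⟨hz.1.1, funext fun i => ?_⟩
    exact Fin.cases hz.1.2 (fun i => congrFun hz.2 i) i

theorem Thin.dim (hB : IsCompact B) (h : Thin B r) : Dim B (2 * r - 2) := by
  obtain ⟨s, hs, hc, h⟩ := h
  have key : IsCompact (⋃₀ s) ∧ Dim (⋃₀ s) (2 * r - 2) := by
    clear hc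
    induction s, hs using Set.Finite.induction_on with
    | empty => rw [sUnion_empty]; exact ⟨isCompact_empty, dim_empty _⟩
    | @insert C s _ _ ih =>
      obtain ⟨h1, h2⟩ := ih fun C hC => h C (mem_insert_of_mem _ hC)
      obtain ⟨hC, m, hm, f, cf, ff⟩ := h C (mem_insert _ _)
      rw [sUnion_insert]
      refine ⟨hC.union h1, Dim.union hC h1 ((dim_real (m * 2) hC
        ((rl m).continuous.comp_continuousOn cf) fun v => ?_).le (by push_cast; omega)) h2⟩
      exact (ff ((rl m).symm v)).subset fun z hz =>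
        ⟨hz.1, (ContinuousLinearEquiv.eq_symm_apply _).2 hz.2⟩
  exact key.2.mono hB hc

end Pool.Agent.Lib.MP_d3d358_ag.Cw
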