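import Pool.Agent.Lib.MP_d3d358_ag.Cw.Ball
import Pool.Agent.Lib.MP_d3d358_ag.Cw.DimA

/-! The top cohomology is generated by point classes. -/

set_option autoImplicit false

namespace Pool.Agent.Lib.MP_d3d358_ag.Cw

open Topology Set Filter AS Metric

variable {Z : Type} {r : ℕ} [MetricSpace Z] {K B : Set Z} {p : Z}

theorem gen_mono {L : Set Z} (h : Thin B r) (hL : L ⊆ B) : Thin L r :=
  h.imp fun _ h => ⟨h.1, hL.trans h.2.1, h.2.2⟩

theorem Cht.not_thin {y : Z → Fin r → ℂ} (h : Cht K p y) (hB : Thin B r) :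
    p ∈ closure (K \ B) := by
  by_contra hp
  obtain ⟨ρ, hρ, σ, U, -, s0, cs, ms, ri, cy, -⟩ :=
    h.bl_data (isClosed_closure.isOpen_compl.mem_nhds hp)
  have hD := (isCompact_closedBall _ _).image_of_continuousOn cs
  have DB : σ '' closedBall 0 ρ ⊆ B := by
    rintro _ ⟨t, ht, rfl⟩
    by_contra h
    exact (ms ht).1 (subset_closure ⟨(ms ht).2, h⟩)
  have sD : σ '' sphere 0 ρ ⊆ σ '' closedBall 0 ρ := image_mono sphere_subset_closedBall
  obtain ⟨b, -, b0, e⟩ := (gen_mono hB DB).dim hD _ ((isCompact_sphere _ _).image_of_continuousOn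
    (cs.mono sphere_subset_closedBall)) sD (2 * (r : ℤ)) (by omega) _
    (jc_mem fun z => y z - y p) (by rw [dC_jc]; exact zero_mem _)
    (jc_null ((cy.mono sD).sub continuousOn_const) (by
      rintro _ ⟨t, ht, rfl⟩ e
      rw [ri t (sphere_subset_closedBall ht)] at e
      simp [e, hρ.ne] at ht))
  have e1 := N_pullC cs (mapsTo_image _ _) e
  rw [map_sub, ← dC_pullC, pullC_jc] at e1
  refine bl_ne_ball hρ (N_pullC (cs.mono sphere_subset_closedBall) (mapsTo_image _ _) b0) ?_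
  have e2 := jc_congr (y := (fun z => y z - y p) ∘ σ) (y' := id) ri
  convert sub_mem e1 e2 using 1
  abel

theorem gen (hK : IsCompact K) (hT : Thin K (r + 1)) (hB : IsCompact B) (hBT : Thin B r)
    (Y : Z → Z → Fin r → ℂ) (hY : ∀ p ∈ K \ B, Cht K p (Y p)) :
    Hk K (2 * (r : ℤ)) ≤ Submodule.span ℚ {x | ∃ p ∈ K \ B, IsPt K p (Y p) x} := by
  classical
  have dK : Dim K (2 * r) := by
    have := hT.dim hK
    rwa [show 2 * ((r + 1 : ℕ) : ℤ) - 2 = 2 * r by push_cast; ring] at this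
  choose! U oU pU hU using fun p hp => ball_gen hK (hY p hp)
  have key : ∀ s : Finset Z, (∀ p ∈ s, p ∈ K \ B) → ∀ (a : Ch Z ℚ) (ha : dC a ∈ N K),
      a ∈ DZ (2 * (r : ℤ)) → a ∈ N (K \ ⋃ p ∈ s, U p) →
      AS.mk a ha ∈ Submodule.span ℚ {x | ∃ p ∈ K \ B, IsPt K p (Y p) x} := by
    intro s
    induction s using Finset.induction_on with
    | empty =>
      intro _ a ha _ h
      rw [loc_mk_zero ha (by simpa using h)]
      exact zero_mem _
    | insert q s _ ih =>
      intro hs a ha ak h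
      have hq := hs q (Finset.mem_insert_self _ _)
      have hs' : ∀ p ∈ s, p ∈ K \ B := fun p hp => hs p (Finset.mem_insert_of_mem hp)
      have c1 := hK.diff (oU q hq)
      have c2 : IsCompact (K \ ⋃ p ∈ s, U p) :=
        hK.diff (isOpen_biUnion fun p (hp : p ∈ s) => oU p (hs' p hp))
      obtain ⟨b, bk, b1, b2⟩ := N_split (K := K \ U q) c2.isClosed ak (N_mono (fun z hz => by
        rw [Finset.set_biUnion_insert]
        exact ⟨hz.1.1, fun h => h.elim hz.1.2 hz.2.2⟩) h)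
      obtain ⟨g, gk, g1, g2, eg⟩ := MV_union_d c1 c2 bk (N_dC b1) (by
        simpa using sub_mem (N_mono sdiff_subset ha) (N_dC b2))
      obtain ⟨e, ek, e0, ee⟩ := dK _ (c1.union c2) (union_subset sdiff_subset sdiff_subset)
        (2 * (r : ℤ) + 1) (by omega) _ (dC_mem (sub_mem bk gk)) (by rw [dC_dC]; exact zero_mem _) eg
      rw [add_sub_cancel_right] at ek
      rw [← map_sub] at ee
      have uk := sub_mem (sub_mem bk gk) ek
      have d2 : dC (a - (b - g - e)) ∈ N K := (Zs ℚ _).sub_mem ha ee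
      have e3 := ih hs' _ d2 (sub_mem ak uk) (by
        convert add_mem (add_mem b2 g2) (N_mono subset_union_right e0) using 1
        abel)
      obtain ⟨x, hx⟩ := (hY q hq).exists_isPt
      obtain ⟨c, e4⟩ := hU q hq _ ee uk
        (sub_mem (sub_mem b1 g1) (N_mono subset_union_left e0)) x hx
      rw [MV_mk_sub ha ee, e4] at e3
      simpa using add_mem e3 (Submodule.smul_mem _ c (Submodule.subset_span ⟨q, hq, hx⟩))
  rintro _ ⟨a, ha, ak, rfl⟩
  have cB := hK.inter hB
  obtain ⟨b, bk, -, e⟩ := (gen_mono hBT inter_subset_right).dim cB ∅ isCompact_empty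
    (empty_subset _) (2 * (r : ℤ)) (by omega) a ak (N_mono inter_subset_left ha) (N_empty _)
  have d1 : dC (a - dC b) ∈ N K := by rwa [map_sub, dC_dC, sub_zero]
  obtain ⟨b', bk', -, V, hV, e'⟩ := N_nhds cB hK inter_subset_left (sub_mem ak (MV_dC_mem bk)) e
    univ_mem (N_mono inter_subset_right d1)
  obtain ⟨O, hO, BO, OV⟩ := mem_nhdsSet_iff_exists.1 hV
  have sub : K \ O ⊆ K \ B := fun z hz => ⟨hz.1, fun h => hz.2 (BO ⟨hz.1, h⟩)⟩
  obtain ⟨s, hs, cov⟩ := (hK.diff hO).elim_nhds_subcover U fun z hz =>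
    (oU z (sub hz)).mem_nhds (pU z (sub hz))
  have d2 : dC (a - dC b - dC b') ∈ N K := by rwa [map_sub, dC_dC, sub_zero]
  rw [(mk_eq_iff ha d2).2 ⟨b + b', by
    rw [map_add, show a - (a - dC b - dC b') - (dC b + dC b') = 0 by abel]; exact zero_mem _⟩]
  exact key s (fun p hp => sub (hs p hp)) _ d2
    (sub_mem (sub_mem ak (MV_dC_mem bk)) (MV_dC_mem bk'))
    (N_mono (L := V ∩ K) (fun z hz => ⟨OV (by_contra fun h => hz.2 (cov ⟨hz.1, h⟩)), hz.1⟩) e')

end Pool.Agent.Lib.MP_d3d358_ag.Cw
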