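import Pool.Agent.Lib.MP_d3d358_ag.Cw.TrA
import Pool.Agent.Lib.MP_d3d358_ag.Cw.Dim
import Pool.Agent.Lib.MP_d3d358_ag.Cw.Gen
import Pool.Agent.Lib.MP_d3d358_ag.Cw.At2
import Pool.Agent.Lib.MP_d3d358_ag.AS.Torus

/-! The fundamental functional: existence, uniqueness, local degree. -/

set_option autoImplicit false

namespace Pool.Agent.Lib.MP_d3d358_ag.Cw

open Topology Set Filter AS

variable {Z : Type} {r n : ℕ} [MetricSpace Z] {K B : Set Z} {p : Z} {Rg : Z → (Z → ℂ) → Prop}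

theorem tr_factor {M A A' : Type} [AddCommGroup M] [Module ℚ M] [Ring A] [Algebra ℚ A] [Ring A']
    [Algebra ℚ A'] (f : M →ₗ[ℚ] A) (g : M →ₗ[ℚ] A') (h : ∀ v, f v = 0 → g v = 0) :
    ∃ φ : A →ₗ[ℚ] A', ∀ v, φ (f v) = g v := by
  obtain ⟨φ, hφ⟩ := ((LinearMap.ker f).liftQ g h ∘ₗ
    f.quotKerEquivRange.symm.toLinearMap).exists_extend
  refine ⟨φ, fun v => ?_⟩
  have := LinearMap.congr_fun hφ ⟨f v, LinearMap.mem_range_self _ _⟩
  refine Eq.trans ?_ (Submodule.liftQ_apply (LinearMap.ker f) g (h := h) v)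
  simpa [LinearMap.quotKerEquivRange_symm_apply_image] using this

theorem tr_prj (K : Set Z) (k : ℤ) : ∃ P : HT ℚ K →ₗ[ℚ] HT ℚ K, (∀ x ∈ Hk K k, P x = x) ∧
    ∀ j, j ≠ k → ∀ x ∈ Hk K j, P x = 0 := by
  have hd : ∀ a : Ch Z ℚ, dC a ∈ N K → dC (prj k a) ∈ N K := fun a ha => by
    rw [dC_prj]; exact N_prj _ ha
  let f : Zs ℚ K →ₗ[ℚ] HT ℚ K :=
    { toFun := fun a => mk (prj k a.1) (hd _ a.2)
      map_add' := fun a b => by
        rw [← mk_add (h := by rw [map_add]; exact add_mem (hd _ a.2) (hd _ b.2))]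
        exact MV_mk_congr _ _ (by rw [Subalgebra.coe_add, map_add, sub_self]; exact zero_mem _)
      map_smul' := fun c a => by
        rw [RingHom.id_apply,
          ← mk_smul (h := by rw [map_smul]; exact Submodule.smul_mem _ _ (hd _ a.2))]
        exact MV_mk_congr _ _ (by rw [Subalgebra.coe_smul, map_smul, sub_self]; exact zero_mem _) }
  have hf : ∀ a : Zs ℚ K, f a = mk (prj k a.1) (hd _ a.2) := fun a => rfl
  obtain ⟨P, hP⟩ := tr_factor (Ring_mk K).toLinearMap f fun a ha => by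
    obtain ⟨b, hb⟩ : a ∈ Bs ℚ K := Ideal.Quotient.eq_zero_iff_mem.1 ha
    refine (hf a).trans (MV_mk_zero_of _ (c := prj (k - 1) b) ?_)
    rw [dC_prj, sub_add_cancel, ← map_sub]
    exact N_prj _ hb
  refine ⟨P, ?_, ?_⟩
  · rintro _ ⟨a, h, ha, rfl⟩
    exact (hP ⟨a, h⟩).trans (MV_mk_congr _ _ (by rw [prj_of_mem ha, sub_self]; exact zero_mem _))
  · rintro j hj _ ⟨a, h, ha, rfl⟩
    exact (hP ⟨a, h⟩).trans (MV_mk_zero_of _ (c := 0) (by
      rw [torus_prj_ne hj ha, map_zero, sub_zero]; exact zero_mem _))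

/-- there is no relation of non zero degree between point classes -/
theorem tr_rel (hK : IsCompact K) (hB : IsCompact B) (hBK : B ⊆ K) (hBT : Thin B r)
    {π : Z → Fin r → ℂ} (hπ : ∀ p ∈ K \ B, Cht K p π) {ι : Type} (F : Finset ι) (c : ι → ℚ)
    (q : ι → Z) (x : ι → HT ℚ K) (hq : ∀ i, q i ∈ K \ B) (hx : ∀ i, IsPt K (q i) π (x i))
    (h : ∑ i ∈ F, c i • x i = 0) : ∑ i ∈ F, c i = 0 := by
  have : ∀ i, ∃ (a : Ch Z ℚ) (ha : dC a ∈ N K), x i = mk a ha ∧ a ∈ N (K \ {q i}) ∧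
      ∃ U ∈ 𝓝 (q i), a - jc (fun z => π z - π (q i)) ∈ N (U ∩ K) := hx
  choose a ha e h1 U hU h2 using this
  obtain ⟨hs, es⟩ := pt_sum_mk F (a := fun i => c i • a i) (K := K) fun i => by
    rw [map_smul]; exact Submodule.smul_mem _ _ (ha i)
  have h0 : mk (∑ i ∈ F, c i • a i) hs = mk 0 (by rw [map_zero]; exact zero_mem _) := by
    rw [es, MV_mk_zero_of (a := 0) (c := 0) _ (by rw [map_zero, sub_zero]; exact zero_mem _), ← h]
    exact Finset.sum_congr rfl fun i _ => by rw [e i, mk_smul]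
  obtain ⟨b, hb⟩ := (mk_eq_iff _ _).1 h0
  have hb1 : ∑ i ∈ F, c i • prj (2 * r) (a i) - dC (prj (2 * r - 1) b) ∈ N K := by
    have := N_prj (2 * r) hb
    rw [sub_zero, map_sub, map_sum] at this
    simp only [map_smul] at this
    rwa [dC_prj, sub_add_cancel]
  set A := ∑ i ∈ F, c i • prj (2 * r) (a i) with hA
  have hfin : (q '' F).Finite := F.finite_toSet.image q
  have hAN : A ∈ N ((q '' F)ᶜ ∩ K) := sum_mem fun i hi => Submodule.smul_mem _ _ (N_prj _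
    (N_mono (fun y hy => mem_sdiff_of_mem hy.2 fun e => hy.1 ⟨i, hi, e.symm⟩) (h1 i)))
  have hdb : dC (prj (2 * r - 1) b) ∈ N ((q '' F)ᶜ ∩ K) := by
    have := sub_mem hAN (N_mono inter_subset_right hb1)
    rwa [sub_sub_cancel] at this
  have hBq : B ⊆ (q '' F)ᶜ := fun y hy ⟨i, _, e⟩ => (hq i).2 (e ▸ hy)
  obtain ⟨b1, m1, -, n1⟩ := hBT.dim hB ∅ isCompact_empty (empty_subset _) (2 * r - 1) (by omega)
    _ (prj_mem _ b) (N_mono (subset_inter hBq hBK) hdb) (N_empty _)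
  obtain ⟨b2, -, -, V, hV, n2⟩ := N_nhds hB hK hBK (sub_mem (prj_mem _ b) (MV_dC_mem m1)) n1
    (hfin.isClosed.isOpen_compl.mem_nhdsSet.2 hBq) (by rwa [map_sub, dC_dC, sub_zero])
  have hC : IsCompact (K \ interior V ∪ q '' F) := (hK.diff isOpen_interior).union hfin.isCompact
  obtain ⟨l, l1, l0⟩ := exists_lam r
  obtain ⟨L, L0, L1, L2⟩ := tr_exists_int hK hC (π := π) (fun p hp => hπ p (by
    rcases hp with hp | ⟨i, -, rfl⟩
    · exact ⟨hp.1, fun h => hp.2 (subset_interior_iff_mem_nhdsSet.2 hV h)⟩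
    · exact hq i)) l0
  have e1 := L1 _ (N_mono (fun y hy => mem_inter
    (interior_subset (not_not.1 fun h => hy.2 (Or.inl ⟨hy.1, h⟩))) hy.1) n2)
  rw [map_sub dC, map_sub dC, dC_dC, dC_dC, sub_zero, sub_zero] at e1
  have e2 := L0 _ hb1
  rw [map_sub, e1, sub_zero, hA, map_sum] at e2
  rw [← e2]
  refine Finset.sum_congr rfl fun i hi => ?_
  rw [map_smul, L2 (q i) (Or.inr ⟨i, hi, rfl⟩) _ (N_prj _ (h1 i)) (jc fun t => t - π (q i)) ?_
    (U i) (hU i) ?_, l1, smul_eq_mul, mul_one]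
  · rw [jc_eq]
    exact jr_null (by fun_prop) fun z hz e => hz (sub_eq_zero.1 ((rl r).map_eq_zero_iff.1 e))
  · have := N_prj (2 * r) (h2 i)
    rw [map_sub, prj_of_mem (jc_mem _)] at this
    rw [pullC_jc]
    exact this

/-- the fibres of `π` play no part -/
theorem exists_fund' (hK : IsCompact K) (hT : Thin K (r + 1)) (hB : IsCompact B) (hBK : B ⊆ K)
    (hBT : Thin B r) (hd : K ⊆ closure (K \ B)) (π : Z → Fin r → ℂ)
    (hAt : ∀ p ∈ K \ B, At Rg K p π) : ∃ φ, Fund Rg K r φ := by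
  let I := {u : Z × HT ℚ K // u.1 ∈ K \ B ∧ IsPt K u.1 π u.2}
  let f : (I →₀ ℚ) →ₗ[ℚ] HT ℚ K := Finsupp.linearCombination ℚ fun u => u.1.2
  let g : (I →₀ ℚ) →ₗ[ℚ] ℚ := Finsupp.linearCombination ℚ fun _ => 1
  obtain ⟨φ, hφ⟩ := tr_factor f g fun v hv => by
    have := tr_rel hK hB hBK hBT (fun p hp => (hAt p hp).cht) v.support v (fun u => u.1.1)
      (fun u => u.1.2) (fun u => u.2.1) (fun u => u.2.2) hv
    simpa [g, Finsupp.linearCombination_apply, Finsupp.sum] using this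
  have h1 : ∀ u : I, φ u.1.2 = 1 := fun u => by
    simpa [f, g] using hφ (Finsupp.single u 1)
  obtain ⟨P, P1, P0⟩ := tr_prj K (2 * r)
  refine ⟨φ ∘ₗ P, hK, hT, ⟨B, hB, hBK, hBT, hd, fun p hp => ⟨π, hAt p hp⟩⟩, fun p y x hy hx => ?_,
    fun k hk x hx => by rw [LinearMap.comp_apply, P0 k hk x hx, map_zero]⟩
  have hp : p ∈ K := hy.choose_spec.choose_spec.choose_spec.2.1.2
  have hf : ∃ᶠ q in 𝓝[K] p, q ∈ K \ B := by
    rw [frequently_nhdsWithin_iff]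
    exact (mem_closure_iff_frequently.1 (hd hp)).mono fun q hq => ⟨hq, hq.1⟩
  obtain ⟨q, hq, h2, h3⟩ := (hf.and_eventually ((hy.cht.move hK).and hy.near)).exists
  obtain ⟨x', hx'⟩ := h3.cht.exists_isPt
  obtain ⟨x'', hx''⟩ := (hAt q hq).cht.exists_isPt
  rw [LinearMap.comp_apply, P1 x (Lc.mem (jc_mem _) hx), h2 x x' hx hx',
    h3.pt_eq hK (hAt q hq) hx' hx'']
  exact h1 ⟨(q, x''), hq, hx''⟩

theorem exists_fund (hK : IsCompact K) (hT : Thin K (r + 1)) (hB : IsCompact B) (hBK : B ⊆ K)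
    (hBT : Thin B r) (hd : K ⊆ closure (K \ B)) (π : Z → Fin r → ℂ) (d : ℕ)
    (hAt : ∀ p ∈ K \ B, At Rg K p π)
    (_hfib : ∀ p ∈ K \ B, ∃ S : Finset Z, S.card = d ∧ (S : Set Z) = (K \ B) ∩ π ⁻¹' {π p})
    (_hpr : ∀ C, IsCompact C → C ⊆ K \ B → IsCompact ((K \ B) ∩ π ⁻¹' (π '' C))) :
    ∃ φ, Fund Rg K r φ := exists_fund' hK hT hB hBK hBT hd π hAt

theorem Fund.dense {φ : HT ℚ K →ₗ[ℚ] ℚ} (h : Fund Rg K r φ) (hB : Thin B r) :
    K ⊆ closure (K \ B) := by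
  obtain ⟨B₀, -, -, -, hd, hc⟩ := h.bad
  refine hd.trans (closure_minimal (fun p hp => ?_) isClosed_closure)
  obtain ⟨y, hy⟩ := hc p hp
  exact hy.cht.not_thin hB

/-- a functional with the value `c` on enough point classes -/
theorem Fund.ext {φ : HT ℚ K →ₗ[ℚ] ℚ} (h : Fund Rg K r φ) (hB : IsCompact B) (hBT : Thin B r)
    (ψ : HT ℚ K →ₗ[ℚ] ℚ) (c : ℚ) (hψ : ∀ p ∈ K \ B, ∃ y : Z → Fin r → ℂ, At Rg K p y ∧
      ∀ x, IsPt K p y x → ψ x = c) : ∀ x ∈ Hk K (2 * (r : ℤ)), ψ x = c * φ x := by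
  choose! Y hY hc using hψ
  intro x hx
  have := gen h.cpt h.thin hB hBT Y (fun p hp => (hY p hp).cht) hx
  clear hx
  induction this using Submodule.span_induction with
  | mem x hx =>
    obtain ⟨p, hp, hx⟩ := hx
    rw [hc p hp x hx, h.val p _ x (hY p hp) hx, mul_one]
  | zero => simp
  | add x y _ _ h1 h2 => rw [map_add, map_add, h1, h2, mul_add]
  | smul a x _ h1 => rw [map_smul, map_smul, h1, smul_eq_mul, smul_eq_mul, mul_left_comm]

/-- local degree -/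
theorem Fund.deg_eq {φ : HT ℚ K →ₗ[ℚ] ℚ} (h : Fund Rg K r φ) {G : Z → Fin r → ℂ} {U : Set Z}
    (hU : U ∈ 𝓝 p) (hc : ContinuousOn G (U ∩ K)) (hi : ∀ q ∈ U ∩ K, G q = G p → q = p) {m : ℕ}
    (hm : ∀ V ∈ 𝓝 p, ∃ U', IsOpen U' ∧ p ∈ U' ∧ U' ⊆ V ∧ ∃ᶠ z in 𝓝 (G p), ∃ S : Finset Z,
      S.card = m ∧ (S : Set Z) = U' ∩ K ∩ G ⁻¹' {z} ∧ ∀ q ∈ S, At Rg K q G)
    {x : HT ℚ K} (hx : IsPt K p G x) : φ x = m := by
  obtain ⟨U₀, h0, hl⟩ := level h.cpt (G := fun z => rl r (G z)) hU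
    ((rl r).continuous.comp_continuousOn hc) fun q hq e => hi q hq ((rl r).injective e)
  obtain ⟨U', o, hp, hs, hf⟩ := hm U₀ h0
  obtain ⟨z, ⟨S, h1, h2, h3⟩, h4⟩ :=
    (hf.and_eventually ((rl r).continuous.tendsto (G p) (hl U' o hp hs))).exists
  have e : ∀ q, jc (fun u => G u - G q) = jr fun u => rl r (G u) - rl r (G q) := fun q => by
    simp only [jc_eq, map_sub]
  choose! xs hxs using fun q (hq : q ∈ S) => (h3 q hq).cht.exists_isPt
  rw [h4 S (by rw [h2]; congr 1; ext u; simp) x xs (e p ▸ hx) fun q hq => e q ▸ hxs q hq, map_sum,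
    Finset.sum_congr rfl fun q hq => h.val q G _ (h3 q hq) (hxs q hq)]
  simp [h1]

end Pool.Agent.Lib.MP_d3d358_ag.Cw
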