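import Pool.Agent.Lib.MP_d3d358_ag.Cw.DmB
import Pool.Agent.Lib.MP_d3d358_ag.Cw.Dm
import Pool.Agent.Lib.MP_d3d358_ag.Cw.Et
import Pool.Agent.Lib.MP_d3d358_ag.Cw.Tr

/-! Integration over the closure of a point and over cycles. -/

set_option autoImplicit false

namespace Pool.Agent.Lib.MP_d3d358_ag.Cw

open CategoryTheory AlgebraicGeometry MonoidalCategory CartesianMonoidalCategory Order Topology Set
  Filter AS

variable {W : Sch} {r n : ℕ}

theorem fnd_basic {U : W.left.Opens} (hU : IsAffineOpen U) {w : W.left} (hw : w ∈ U)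
    (h : Γ(W.left, U)) : w ∈ W.left.basicOpen h ↔ h ∉ pri hU hw := by
  have e := hU.fromSpec_preimage_basicOpen h
  have e1 := hU.fromSpec_primeIdealOf ⟨w, hw⟩
  have e2 : hU.primeIdealOf ⟨w, hw⟩ ∈ hU.fromSpec ⁻¹ᵁ W.left.basicOpen h ↔
      w ∈ W.left.basicOpen h := by
    change hU.fromSpec (hU.primeIdealOf ⟨w, hw⟩) ∈ W.left.basicOpen h ↔ _
    rw [e1]
  rw [← e2, e]
  rfl

theorem Emb.fnd_range {U : W.left.Opens} {hU : IsAffineOpen U} {e : Sp Γ(W.left, U) → Pnt W}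
    (he : Emb hU e) {w : W.left} (hw : w ∈ U) :
    range (e ∘ Sp.map (Ideal.Quotient.mkₐ ℂ (pri hU hw))) = Kc (U : Set W.left) ∩ Kw w := by
  have hs := (Sp.emb_of_surj (Ideal.Quotient.mkₐ_surjective ℂ (pri hU hw))).2
  have hk : RingHom.ker (Ideal.Quotient.mkₐ ℂ (pri hU hw)) = pri hU hw := Ideal.mk_ker
  rw [range_comp, hs, hk, ← he.rng]
  ext p
  constructor
  · rintro ⟨q, hq, rfl⟩
    exact ⟨⟨q, rfl⟩, (he.spec w hw q).2 hq⟩
  · rintro ⟨⟨q, rfl⟩, hq⟩
    exact ⟨q, (he.spec w hw q).1 hq, rfl⟩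

theorem fnd_univ {Z : Type} [TopologicalSpace Z] {Rg : Z → (Z → ℂ) → Prop} {K : Set Z}
    (hK : K = univ) {φ : HT ℚ K →ₗ[ℚ] ℚ} (h : Fund Rg K r φ) :
    Fund Rg univ r (φ ∘ₗ (res (subset_univ K)).toLinearMap) := by
  subst hK
  have : φ ∘ₗ (res (subset_univ (univ : Set Z))).toLinearMap = φ :=
    LinearMap.ext fun x => congrArg φ (res_self x)
  rwa [this]

section Dm
variable [Gd W] {U : W.left.Opens}

/-- transport of a chart of `Γ(U) ⧸ P` (`At.emb`) -/
theorem Emb.at {hU : IsAffineOpen U} {e : Sp Γ(W.left, U) → Pnt W} (he : Emb hU e) {w : W.left}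
    (hw : w ∈ U) {y : Fin r → Γ(W.left, U)} {q : Sp (Γ(W.left, U) ⧸ pri hU hw)}
    (h : At RgA univ q (co (Ideal.Quotient.mk _ ∘ y))) :
    At (Rg W) (Kw w) (e (Sp.map (Ideal.Quotient.mkₐ ℂ _) q)) fun p i => val U (y i) p := by
  have hs := (Sp.emb_of_surj (Ideal.Quotient.mkₐ_surjective ℂ (pri hU hw))).1
  have hr := he.fnd_range hw
  refine At.emb (Rg' := RgA) (e := e ∘ Sp.map (Ideal.Quotient.mkₐ ℂ (pri hU hw)))
    (he.opn.isEmbedding.comp hs.isEmbedding) (isOpen_Kc U) hr ?_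
    (Eventually.of_forall fun q' i => rg_val (y i) (hr.subset ⟨q', rfl⟩).1)
    fun q' f hf => RgA.comp _ ((he.rg _ f).1 hf)
  have e1 : (fun p i => val U (y i) p) ∘ e ∘ Sp.map (Ideal.Quotient.mkₐ ℂ (pri hU hw)) =
      co (Ideal.Quotient.mk _ ∘ y) := funext fun q' => funext fun i => he.val_eq _ _
  rw [e1]
  exact h

/-- a transcendence basis is a chart at a general point -/
theorem gen_at (hU : IsAffineOpen U) {w : W.left} (hw : w ∈ U) {y : Fin r → Γ(W.left, U)}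
    (hy : IsTranscendenceBasis ℂ (Ideal.Quotient.mk (pri hU hw) ∘ y)) :
    ∃ h ∉ pri hU hw, ∀ p ∈ Kw w, p.pt ∈ U → val U h p ≠ 0 →
      At (Rg W) (Kw w) p fun p i => val U (y i) p := by
  have := ft_sec hU
  obtain ⟨e, he⟩ := exists_emb hU
  obtain ⟨H, d, H0, -, hH⟩ := gen_chart hy
  have e1 : Ideal.Quotient.mkₐ ℂ (pri hU hw) (MvPolynomial.aeval y H) =
      MvPolynomial.aeval (Ideal.Quotient.mk (pri hU hw) ∘ y) H :=
    MvPolynomial.comp_aeval_apply y (Ideal.Quotient.mkₐ ℂ (pri hU hw)) H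
  refine ⟨MvPolynomial.aeval y H, fun hm => H0 (hy.1.eq_zero_of_aeval_eq_zero H ?_),
    fun p hp hpU h0 => ?_⟩
  · rw [← e1]; exact Ideal.Quotient.eq_zero_iff_mem.2 hm
  · obtain ⟨q, rfl⟩ := (he.fnd_range hw).symm.subset ⟨hpU, hp⟩
    refine he.at hw ((hH _ ?_).2 q rfl).1
    rw [Function.comp_apply, he.val_eq, Sp.map_apply, e1] at h0
    have e2 := MvPolynomial.comp_aeval_apply (Ideal.Quotient.mk (pri hU hw) ∘ y) q.hom H
    rw [Sp.hom_apply] at e2
    rw [e2] at h0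
    exact h0

theorem fnd_dense (w : W.left) {O : W.left.Opens} (hw : w ∈ O) :
    Kw w ⊆ closure (Kw w ∩ Kc (O : Set W.left)) := by
  intro p hp
  obtain ⟨_, ⟨U, hU, rfl⟩, hpU, -⟩ := W.left.isBasis_affineOpens.exists_subset_of_mem_open
    (mem_univ p.pt) isOpen_univ
  have hwU : w ∈ U := Specializes.mem_open hp U.2 hpU
  obtain ⟨h, h1, h2⟩ := IsAffineOpen.exists_basicOpen_le hU (V := O) ⟨w, hw⟩ hwU
  have := ft_sec hU
  obtain ⟨e, he⟩ := exists_emb hU
  obtain ⟨q, rfl⟩ := he.rng.symm.subset hpU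
  have hq := dense_vz (pri hU hwU) ((fnd_basic hU hwU h).1 h2) ((he.spec w hwU q).1 hp)
  refine map_mem_closure he.opn.continuous hq fun q' hq' => ⟨(he.spec w hwU q').2 hq'.1, h1 ?_⟩
  refine (val_ne_zero h (he.rng.subset ⟨q', rfl⟩)).1 ?_
  rw [he.val_eq]
  exact hq'.2

theorem fund (w : W.left) : Fund (Rg W) (Kw w) (dm w) (phi w) := by
  obtain ⟨_, ⟨U, hU, rfl⟩, hw, -⟩ := W.left.isBasis_affineOpens.exists_subset_of_mem_open
    (mem_univ w) isOpen_univ
  obtain ⟨y, hy⟩ := exists_tb hU hw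
  obtain ⟨h, h1, h2⟩ := gen_at hU hw hy
  have hwh := (fnd_basic hU hw h).2 h1
  have hD : IsClosed (closure {w} \ (W.left.basicOpen h : Set W.left)) :=
    isClosed_closure.sdiff (W.left.basicOpen h).2
  have e : Kw w \ Kc (closure {w} \ (W.left.basicOpen h : Set W.left)) =
      Kw w ∩ Kc (W.left.basicOpen h : Set W.left) := by
    ext p
    exact ⟨fun a => ⟨a.1, not_not.1 fun b => a.2 ⟨specializes_iff_mem_closure.1 a.1, b⟩⟩,
      fun a => ⟨a.1, fun b => b.2 a.2⟩⟩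
  refine Classical.epsilon_spec (exists_fund' (π := fun p i => val U (y i) p)
    (by rw [Kw_eq]; exact (isClosed_Kc isClosed_closure).isCompact) (thin_Kw w)
    (isClosed_Kc hD).isCompact (fun p hp => specializes_iff_mem_closure.2 hp.1)
    (thin_Kc hD fun z hz => dm_lt (specializes_iff_mem_closure.2 hz.1) fun a => hz.2 (a ▸ hwh))
    (by rw [e]; exact fnd_dense w hwh) fun p hp => ?_)
  rw [e] at hp
  have hpU : p.pt ∈ U := W.left.basicOpen_le h hp.2
  exact h2 p hp.1 hpU ((val_ne_zero h hpU).2 hp.2)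

theorem Phi_deg (w : W.left) {k : ℤ} (hk : k ≠ 2 * dm w) {u : HW W} (hu : u ∈ Hd W k) :
    Phi w u = 0 :=
  (fund w).deg k hk _ (pull_mem (hf := continuousOn_id) (hm := subset_univ (Kw w)) hu)

omit [Gd W] in
theorem tp_eq {η : W.left} (hη : ∀ x, η ⤳ x) : tp W = Phi η := by
  have e : ∀ w : W.left, IsMax w ↔ w = η := fun w =>
    ⟨fun h => (Specializes.antisymm (h (hη w)) (hη w)).eq, fun h b _ => h ▸ hη b⟩
  simp only [tp, e]
  exact finsum_cond_eq_left

theorem fnd_top {η : W.left} (hη : ∀ x, η ⤳ x) : Fund (Rg W) univ (dm η) (Phi η) := by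
  have e : Kw η = univ := eq_univ_of_forall fun (q : Pnt W) => show η ⤳ q.pt from hη q.pt
  exact fnd_univ e (fund η)

theorem Mf.dm (h : Mf W n) {η : W.left} (hη : ∀ x, η ⤳ x) : dm η = n := by
  obtain ⟨p, -⟩ := Kw_nonempty (U := ⊤) (w := η) trivial
  obtain ⟨y, hy⟩ := h.cht p
  exact ((fnd_top hη).size hy).symm

theorem Mf.man (h : Mf W n) : Man (Rg W) n (tp W) := by
  have := h.int
  have hη : ∀ x, genericPoint W.left ⤳ x := fun x => genericPoint_specializes x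
  have hf := fnd_top hη
  rw [← tp_eq hη, h.dm hη] at hf
  exact ⟨shf W, hf, h.pos, h.cht⟩

theorem fnd_fin (c : Cyc W.left) : (Function.support fun w => c w • Phi w).Finite :=
  (supp_fin c).subset fun w hw e => hw (by simp only [e, zero_smul])

theorem ev_apply (c : Cyc W.left) (u : HW W) : ev c u = ∑ᶠ w, c w * Phi w u :=
  (LinearMap.applyₗ (R := ℚ) (M₂ := ℚ) u).toAddMonoidHom.map_finsum (fnd_fin c)

theorem ev_sub (a b : Cyc W.left) : ev (a - b) = ev a - ev b := by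
  rw [ev, ev, ev, ← finsum_sub_distrib (fnd_fin a) (fnd_fin b)]
  exact finsum_congr fun w => sub_smul (a w) (b w) _

theorem ev_add (a b : Cyc W.left) : ev (a + b) = ev a + ev b := by
  rw [ev, ev, ev, ← finsum_add_distrib (fnd_fin a) (fnd_fin b)]
  exact finsum_congr fun w => add_smul (a w) (b w) _

theorem ev_nsmul (k : ℕ) (a : Cyc W.left) : ev (k • a) = (k : ℚ) • ev a := by
  rw [ev, ev, smul_finsum' _ (fnd_fin a)]
  refine finsum_congr fun w => ?_
  rw [smul_smul, ← nsmul_eq_mul]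
  rfl

end Dm

end Pool.Agent.Lib.MP_d3d358_ag.Cw
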