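import Pool.Agent.Lib.MP_d3d358_ag.Cw.PushA
import Pool.Agent.Lib.MP_d3d358_ag.Cw.Fnd

/-! Integration over the push forward of a cycle. -/

set_option autoImplicit false

namespace Pool.Agent.Lib.MP_d3d358_ag.Cw

open CategoryTheory AlgebraicGeometry Order Topology Set Filter AS

variable {V W : Sch}

theorem push_res (f : V ⟶ W) (v : V.left) (u : HW W) : res (subset_univ (Kw v)) (pb f u) =
    pull (Pnt.map f) (Pnt.cont f).continuousOn (Kw_map f v) (res (subset_univ _) u) :=
  (pull_pull u).trans (pull_pull (f := id) (hf := continuousOn_id) (hm := subset_univ _)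
    (hg := (Pnt.cont f).continuousOn) (hn := Kw_map f v) u).symm

/-- a proper closed part of a variety -/
theorem push_lt [Gd W] {w : W.left} {O : W.left.Opens} (hw : w ∈ O) {z : W.left}
    (hz : z ∈ closure {w} ∩ (O : Set W.left)ᶜ) : dm z < dm w :=
  dm_lt (specializes_iff_mem_closure.2 hz.1) fun e => hz.2 (e ▸ hw)

theorem push_eq [Gd V] [Gd W] (f : V ⟶ W) (v : V.left) (hd : dm v = dm (f.left v))
    {x : HT ℚ (Kw (f.left v))} (hx : x ∈ Hk (Kw (f.left v)) (2 * (dm (f.left v) : ℤ))) :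
    phi v (pull (Pnt.map f) (Pnt.cont f).continuousOn (Kw_map f v) x) =
      f.left.residueDegree v * phi (f.left v) x := by
  classical
  obtain ⟨U, hU, hw⟩ := exists_affine (f.left v)
  obtain ⟨T, hT, hv, h⟩ := exists_affine_le (W := V) (U' := f.left ⁻¹ᵁ U) (x := v) hw
  obtain ⟨y, hy⟩ := exists_tb hU hw
  have hy₀ := exists_tb hT hv
  have hF := fund v
  rw [hd] at hy₀ hF
  obtain ⟨y₀, hy₀⟩ := hy₀
  obtain ⟨tb, g, hg, H⟩ := push_fib f hU hT h hv hy hy₀
  obtain ⟨g₁, hg₁, H₁⟩ := gen_at hU hw hy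
  obtain ⟨g₂, hg₂, H₂⟩ := gen_at hT hv tb
  have m₁ : f.left v ∈ W.left.basicOpen (g * g₁) := by
    by_contra hc
    exact (Ideal.IsPrime.mem_or_mem inferInstance ((push_mem_pri hU hw _).2 hc)).elim hg hg₁
  have m₂ : v ∈ V.left.basicOpen g₂ := by
    by_contra hc
    exact hg₂ ((push_mem_pri hT hv _).2 hc)
  have c₁ : IsClosed (closure {f.left v} ∩ (W.left.basicOpen (g * g₁) : Set W.left)ᶜ) :=
    isClosed_closure.inter (W.left.basicOpen _).isOpen.isClosed_compl
  obtain ⟨s, hs, hs'⟩ := exists_comp (W := V) (D := closure {v} ∩ (V.left.basicOpen g₂ : Set V.left)ᶜ)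
    (isClosed_closure.inter (V.left.basicOpen _).isOpen.isClosed_compl)
  refine (fund (f.left v)).ext
    (B := Kc (closure {f.left v} ∩ (W.left.basicOpen (g * g₁) : Set W.left)ᶜ) ∪
      ⋃ z ∈ (s : Set V.left), Kw (f.left z))
    ((isClosed_Kc c₁).isCompact.union
      (s.finite_toSet.isCompact_biUnion fun z _ => (isClosed_Kw _).isCompact))
    ((thin_Kc c₁ fun z hz => push_lt m₁ hz).union (thin_biUnion s.finite_toSet fun z hz =>
      (thin_Kw _).mono subset_rfl (by
        have h1 := dm_map_le f z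
        have h2 := push_lt m₂ ((hs z).1 hz).1
        omega)))
    (phi v ∘ₗ (pull (Pnt.map f) (Pnt.cont f).continuousOn (Kw_map f v)).toLinearMap) _
    (fun p hp => ?_) x hx
  have p₁ : p.pt ∈ W.left.basicOpen (g * g₁) := by
    by_contra hc
    exact hp.2 (Or.inl ⟨specializes_iff_mem_closure.1 hp.1, hc⟩)
  have pU : p.pt ∈ U := W.left.basicOpen_le _ p₁
  rw [mem_basicOpen_iff, val_mul pU] at p₁
  have p₂ : ∀ u ∈ Kw v, u.map f = p → u.pt ∈ V.left.basicOpen g₂ := fun u hu e => by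
    by_contra hc
    obtain ⟨z, hz, hzu⟩ := (hs' u.pt).1 ⟨specializes_iff_mem_closure.1 hu, hc⟩
    exact hp.2 (Or.inr (mem_biUnion hz (e ▸ Kw_map f z hzu)))
  refine ⟨_, H₁ p hp.1 pU (right_ne_zero_of_mul p₁), fun x hx => ?_⟩
  obtain ⟨S, hS, eS⟩ := H p hp.1 (left_ne_zero_of_mul p₁)
  have eS' : (S : Set (Pnt V)) = Kw v ∩ Pnt.map f ⁻¹' {p} := by
    rw [eS]
    exact Subset.antisymm (fun u hu => ⟨hu.1.1, hu.2⟩) fun u hu =>
      ⟨⟨hu.1, V.left.basicOpen_le _ (p₂ u hu.1 hu.2)⟩, hu.2⟩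
  have key : ∀ q : Pnt V, ∃ x', q ∈ S → Lc (Kw v) q (pullC (Pnt.map f)
      (jc fun z => (fun i => val U (y i) z) - fun i => val U (y i) p)) x' ∧ phi v x' = 1 := by
    intro q
    by_cases hq : q ∈ S
    swap
    · exact ⟨0, fun h => (hq h).elim⟩
    have hq' := eS'.subset hq
    have q₂ := p₂ q hq'.1 hq'.2
    have qT : q.pt ∈ T := V.left.basicOpen_le _ q₂
    have hA := H₂ q hq'.1 qT ((mem_basicOpen_iff _).1 q₂)
    obtain ⟨x', hx'⟩ := hA.cht.exists_isPt
    refine ⟨x', fun _ => ⟨?_, hF.val q _ x' hA hx'⟩⟩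
    rw [pullC_jc]
    refine Lc.congr (Kc_mem_nhds qT) (jc_congr fun u hu => funext fun i => ?_) hx'
    change val T _ u - val T _ q = val U _ (u.map f) - val U _ p
    rw [val_appLE f h _ hu.1, val_appLE f h _ qT, show q.map f = p from hq'.2]
  choose xs hxs using key
  refine (congrArg (phi v) (Lc.pull hx (Pnt.cont f).continuousOn (Kw_map f v) eS'
    fun q hq => (hxs q hq).1)).trans ?_
  rw [map_sum, Finset.sum_congr rfl fun q hq => (hxs q hq).2, Finset.sum_const, hS, nsmul_one]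

theorem push_phi [Gd V] [Gd W] (f : V ⟶ W) (v : V.left) {k : ℤ} {u : HW W} (hu : u ∈ Hd W k) :
    Phi v (pb f u) = (AlgebraicCycle.mapCoeff f.left height height v : ℚ) * Phi (f.left v) u := by
  have e : Phi v (pb f u) = phi v (pull (Pnt.map f) (Pnt.cont f).continuousOn (Kw_map f v)
      (res (subset_univ _) u)) := congrArg (phi v) (push_res f v u)
  have hr : res (subset_univ (Kw (f.left v))) u ∈ Hk (Kw (f.left v)) k := MV_res_mem _ hu
  unfold AlgebraicCycle.mapCoeff
  split_ifs with h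
  · have hd : dm v = dm (f.left v) := congrArg ENat.toNat h
    by_cases hk : k = 2 * dm (f.left v)
    · rw [e, push_eq f v hd (hk ▸ hr)]
      rfl
    · rw [Phi_deg _ hk hu, Phi_deg v (by rwa [hd]) (pb_mem f hu), mul_zero]
  · rw [Nat.cast_zero, zero_mul]
    by_cases hk : k = 2 * dm v
    swap
    · exact Phi_deg v hk (pb_mem f hu)
    have h1 := dm_map_le f v
    have h2 : dm v ≠ dm (f.left v) := fun e => h (by rw [height_eq, e, ← height_eq])
    rw [e, ((thin_Kw (f.left v)).dim (isClosed_Kw _).isCompact).van (by push_cast; omega) _ hr,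
      map_zero, map_zero]

theorem Push.ev [Gd V] [Gd W] {f : V ⟶ W} {a : Cyc V.left} {b : Cyc W.left} (h : Push f.left a b)
    {k : ℤ} {u : HW W} (hu : u ∈ Hd W k) : ev b u = ev a (pb f u) := by
  classical
  obtain ⟨_, rfl⟩ := h
  have hs : Function.support a ⊆ (supp_fin a).toFinset := by simp
  generalize (supp_fin a).toFinset = s at hs
  have h0 : ∀ v, v ∉ s → a v = 0 := fun v hv => by
    by_contra hc
    exact hv (hs hc)
  have e : ∀ w, AlgebraicCycle.map f.left height height a w = ∑ v ∈ s with f.left v = w,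
      a v * (AlgebraicCycle.mapCoeff f.left height height v : ℚ) := fun w => by
    refine finsum_mem_eq_sum_of_inter_support_eq _ (Set.ext fun v => ?_)
    simp only [mem_inter_iff, mem_preimage, mem_singleton_iff, Finset.coe_filter, mem_ofPred_eq,
      Function.mem_support]
    exact ⟨fun h => ⟨⟨hs (left_ne_zero_of_mul h.2), h.1⟩, h.2⟩, fun h => ⟨h.1.2, h.2⟩⟩
  rw [ev_apply, ev_apply, finsum_eq_sum_of_support_subset (s := s.image f.left),
    finsum_eq_sum_of_support_subset (s := s),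
    ← Finset.sum_fiberwise_of_maps_to (g := f.left) fun v hv => Finset.mem_image_of_mem _ hv]
  · refine Finset.sum_congr rfl fun w _ => ?_
    rw [e, Finset.sum_mul]
    refine Finset.sum_congr rfl fun v hv => ?_
    rw [push_phi f v hu, (Finset.mem_filter.1 hv).2, mul_assoc]
  · exact fun v hv => hs (left_ne_zero_of_mul hv)
  · intro w hw
    have h1 := left_ne_zero_of_mul hw
    rw [e] at h1
    obtain ⟨v, hv, -⟩ := Finset.exists_ne_zero_of_sum_ne_zero h1
    exact Finset.mem_coe.2 (Finset.mem_image.2 ⟨v, Finset.mem_filter.1 hv⟩)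

theorem Img.ev [Gd V] [Gd W] {f : V ⟶ W} {b : Cyc W.left} (h : Img f.left b)
    {k : ℤ} {u : HW W} (hu : u ∈ Hd W k) : ev b u = tp V (pb f u) := by
  classical
  obtain ⟨a, ha, h⟩ := h
  rw [h.ev hu]
  refine congrArg (fun φ : HW V →ₗ[ℚ] ℚ => φ (pb f u)) (finsum_congr fun v => ?_)
  by_cases hv : IsMax v
  · rw [(ha v).1 hv, one_smul, finsum_eq_if, if_pos hv]
  · rw [(ha v).2 hv, zero_smul, finsum_eq_if, if_neg hv]

end Pool.Agent.Lib.MP_d3d358_ag.Cw
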