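import Pool.Agent.Lib.MP_d3d358_ag.Cw.DivA
import Pool.Agent.Lib.MP_d3d358_ag.Cw.Push

/-! Rationally equivalent cycles have the same integrals. -/

set_option autoImplicit false

namespace Pool.Agent.Lib.MP_d3d358_ag.Cw

open CategoryTheory AlgebraicGeometry MonoidalCategory CartesianMonoidalCategory Order Topology Set
  Filter AS

variable {V W F X Y Z X' Y' : Sch} {r n m : ℕ}

theorem Rat.ev [Gd W] {a b : Cyc W.left} (h : Rat a b) {k : ℤ} {u : HW W} (hu : u ∈ Hd W k) :
    ev a u = ev b u := by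
  obtain ⟨n, hn, h⟩ := h
  have key : ∀ c ∈ AddSubgroup.closure {c : Cyc W.left | Prin c}, Cw.ev c u = 0 := fun c hc => by
    have z : Cw.ev (0 : Cyc W.left) = 0 := by simpa using ev_sub (0 : Cyc W.left) 0
    induction hc using AddSubgroup.closure_induction with
    | mem c hc =>
      obtain ⟨Z, _, _, ι, _, f, d, hf, hd, hp⟩ := hc
      let ι' : Over.mk (ι ≫ W.hom) ⟶ W := Over.homMk ι
      have : IsClosedImmersion ι'.left := ‹_›
      have := gd_closed ι'
      have : IsIntegral (Over.mk (ι ≫ W.hom) : Sch).left := ‹_›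
      have : IsLocallyNoetherian (Over.mk (ι ≫ W.hom) : Sch).left := ‹_›
      exact (Push.ev (f := ι') hp hu).trans (div_ev (W := Over.mk (ι ≫ W.hom)) hf hd (pb_mem ι' hu))
    | zero => rw [z]; rfl
    | add c c' _ _ h h' => rw [ev_add, LinearMap.add_apply, h, h', add_zero]
    | neg c _ h => rw [← zero_sub, ev_sub, LinearMap.sub_apply, h, z, sub_zero]; rfl
  have := key _ h
  rw [ev_nsmul, ev_sub, LinearMap.smul_apply, LinearMap.sub_apply, smul_eq_mul,
    mul_eq_zero, sub_eq_zero] at this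
  exact this.resolve_left (Nat.cast_ne_zero.2 hn)

end Pool.Agent.Lib.MP_d3d358_ag.Cw
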