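import Pool.Agent.Lib.MP_d3d358_ag.Cw.Kun
import Pool.Agent.Lib.MP_d3d358_ag.Cw.Comm

/-! Poincare duality from the class of the diagonal. -/

set_option autoImplicit false

namespace Pool.Agent.Lib.MP_d3d358_ag.Cw

open Topology Set Filter AS

variable {Z : Type} {n : ℕ} [MetricSpace Z] {Rg : Z → (Z → ℂ) → Prop}
  {φ : HT ℚ (univ : Set Z) →ₗ[ℚ] ℚ}

/-- a class supported near the diagonal does not distinguish the two projections -/
theorem pd_diag (hK : IsCompact (univ : Set Z)) {τ : HT ℚ (univ ×ˢ univ : Set (Z × Z))} {m : ℤ}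
    (hτ : τ ∈ Hk _ m) (ht : ∀ ε > 0, ∃ (t : Ch (Z × Z) ℚ) (ht : _), τ = AS.mk t ht ∧
      t ∈ N {u : Z × Z | ε ≤ dist u.1 u.2}) {k : ℤ} {x : HT ℚ (univ : Set Z)}
    (hx : x ∈ Hk univ k) : τ * p1 univ univ x = τ * p2 univ univ x := by
  have hW := hK.prod hK
  have sub : ∀ A : Set (Z × Z), A ⊆ univ ×ˢ univ := fun A u _ => ⟨mem_univ _, mem_univ _⟩
  have cd : Continuous fun u : Z × Z => dist u.1 u.2 := continuous_dist
  have hD : IsCompact {u : Z × Z | u.1 = u.2} :=
    hW.of_isClosed_subset (isClosed_eq continuous_fst continuous_snd) (sub _)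
  have hu : p1 univ univ x - p2 univ univ x ∈ Hk _ k :=
    Submodule.sub_mem _ (pull_mem hx) (pull_mem hx)
  obtain ⟨V, hV, e⟩ := taut_zero hD hW (sub _) hu (by
    rw [map_sub, sub_eq_zero, res, p1, p2, pull_pull, pull_pull]
    exact pull_congr (fun u hu => hu) x)
  obtain ⟨O, hO, hDO, hOV⟩ := mem_nhdsSet_iff_exists.1 hV
  obtain ⟨ε, hε, h1⟩ := hD.exists_cthickening_subset_open hO hDO
  obtain ⟨t, ht, rfl, h2⟩ := ht ε hε
  have h3 : {u : Z × Z | dist u.1 u.2 ≤ ε} ⊆ V ∩ univ ×ˢ univ := fun u hu =>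
    ⟨hOV (h1 (Metric.mem_cthickening_of_dist_le u (u.2, u.2) ε _ rfl (by
      rw [Prod.dist_eq, dist_self]; exact max_le hu hε.le))), mem_univ _, mem_univ _⟩
  rw [← sub_eq_zero, ← mul_sub]
  refine mul_eq_zero_of_cover (K := {u : Z × Z | ε ≤ dist u.1 u.2})
    (L := {u : Z × Z | dist u.1 u.2 ≤ ε})
    (hW.of_isClosed_subset (isClosed_le continuous_const cd) (sub _))
    (hW.of_isClosed_subset (isClosed_le cd continuous_const) (sub _)) (sub _) (sub _)
    (fun u _ => le_total ε _) hτ hu ?_ ?_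
  · rw [res_mk]
    exact MV_mk_zero_of (c := 0) _ (by rwa [map_zero, sub_zero])
  · rw [← MV_res_res h3 inter_subset_right, e, map_zero]

theorem pd_const (q : Z) {i : ℤ} (hi : i ≠ 0) {a : HT ℚ (univ : Set Z)} (ha : a ∈ Hk univ i)
    (hf : ContinuousOn (fun _ : Z => q) univ) (hm : MapsTo (fun _ : Z => q) univ univ) :
    pull (fun _ => q) hf hm a = 0 := by
  rcases hi.lt_or_gt with h | h
  · rw [Hk_neg h ha, map_zero]
  · have h1 : res (subset_univ {q}) a = 0 :=
      van_finite (finite_singleton q) h _ (MV_res_mem _ ha)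
    have h2 := congrArg (pull (K := {q}) (fun _ : Z => q) hf fun _ _ => rfl) h1
    rwa [map_zero, res, pull_pull] at h2

theorem pd_const0 (q : Z) {a : Ch Z ℚ} (ha : a ∈ DZ 0) (da : dC a ∈ N univ)
    (hf : ContinuousOn (fun _ : Z => q) univ) (hm : MapsTo (fun _ : Z => q) univ univ) :
    pull (fun _ => q) hf hm (AS.mk a da) = a.1 [q] • 1 := by
  change _ = a.1 [q] • AS.mk 1 (Zs ℚ (univ : Set Z)).one_mem
  rw [← mk_smul _ _ ((Zs ℚ univ).smul_mem (Zs ℚ univ).one_mem _)]
  refine congrArg (Ring_mk univ) (Subtype.ext ?_)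
  change pullC (fun _ : Z => q) a = a.1 [q] • 1
  rw [eq_fnC ha, pullC_fnC]
  refine Alg_ext fun l => ?_
  rw [Alg_smul, Alg_one, Alg_fnC, Alg_fnC]
  match l with
  | [] => simp [fn]
  | [x] => simp [Alg_fn_one]
  | x :: y :: l => simp [Alg_fn_two]

/-- every class is the fibre integral of its product with the class of the diagonal -/
theorem pd_core_of (h : Man Rg n φ) {τ : HT ℚ (univ ×ˢ univ : Set (Z × Z))}
    (hτ : τ ∈ Hk _ (2 * (n : ℤ))) (h1 : ∀ q : Z, φ (pull (fun z => (q, z)) (by fun_prop)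
      (fun z _ => mk_mem_prod (mem_univ q) (mem_univ z)) τ) = 1)
    (h2 : ∀ ε > 0, ∃ (t : Ch (Z × Z) ℚ) (ht : _), τ = AS.mk t ht ∧
      t ∈ N {u : Z × Z | ε ≤ dist u.1 u.2})
    {I : HT ℚ (univ ×ˢ univ : Set (Z × Z)) →ₗ[ℚ] HT ℚ (univ : Set Z)}
    (hI : ∀ i j, ∀ x ∈ Hk univ i, ∀ y ∈ Hk univ j,
      I (p1 univ univ x * p2 univ univ y) = φ y • x) :
    ∀ k, ∀ x ∈ Hk univ k, I (τ * p2 univ univ x) = x := by
  intro k x hx
  have hK := h.fund.cpt
  have hs := cross_span hK hK _ hτ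
  have e1 : I τ = 1 := by
    suffices H : ∃ a da, a ∈ DZ 0 ∧ I τ = AS.mk a da ∧ ∀ q : Z, φ (pull (fun z => (q, z))
        (by fun_prop) (fun z _ => mk_mem_prod (mem_univ q) (mem_univ z)) τ) = a.1 [q] by
      obtain ⟨a, da, ha, e, hq⟩ := H
      obtain rfl : a = 1 := by
        rw [eq_fnC ha]
        exact congrArg fnC (funext fun q => (hq q).symm.trans (h1 q))
      exact e
    clear h1 h2 hτ
    induction hs using Submodule.span_induction with
    | mem u hu =>
      obtain ⟨i, j, hij, a, ha, b, hb, rfl⟩ := hu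
      have e2 : ∀ q : Z, pull (fun z => (q, z)) (by fun_prop)
          (fun z _ => mk_mem_prod (mem_univ q) (mem_univ z)) (p1 univ univ a * p2 univ univ b) =
          pull (fun _ => q) continuousOn_const (fun _ _ => mem_univ _) a * b := fun q => by
        rw [map_mul, p1, p2, pull_pull, pull_pull]
        exact congrArg (_ * ·) (res_self b)
      rw [hI i j a ha b hb]
      by_cases hi : i = 0
      · subst hi
        obtain ⟨c, dc, hc, rfl⟩ := ha
        refine ⟨φ b • c, (Zs ℚ univ).smul_mem dc _, Submodule.smul_mem _ _ hc,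
          (mk_smul _ _ _).symm, fun q => ?_⟩
        rw [e2, pd_const0 q hc, smul_mul_assoc, one_mul, map_smul, Alg_smul, smul_eq_mul, mul_comm]
      · refine ⟨0, (Zs ℚ univ).zero_mem, Submodule.zero_mem _, ?_, fun q => ?_⟩
        · rw [h.fund.deg j (by omega) b hb, zero_smul]
          exact (map_zero (Ring_mk univ)).symm
        · rw [e2, pd_const q hi ha, zero_mul, map_zero, Alg_zero]
    | zero =>
      exact ⟨0, (Zs ℚ univ).zero_mem, Submodule.zero_mem _,
        (map_zero I).trans (map_zero (Ring_mk univ)).symm, fun q => by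
          rw [map_zero, map_zero, Alg_zero]⟩
    | add u v _ _ hu hv =>
      obtain ⟨a, da, ha, e, hq⟩ := hu
      obtain ⟨b, db, hb, e', hq'⟩ := hv
      exact ⟨a + b, (Zs ℚ univ).add_mem da db, Submodule.add_mem _ ha hb, by
        rw [map_add, e, e', mk_add da db], fun q => by rw [map_add, map_add, hq, hq', Alg_add]⟩
    | smul c u _ hu =>
      obtain ⟨a, da, ha, e, hq⟩ := hu
      exact ⟨c • a, (Zs ℚ univ).smul_mem da c, Submodule.smul_mem _ c ha, by
        rw [map_smul, e, mk_smul c da], fun q => by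
          rw [map_smul, map_smul, hq, Alg_smul, smul_eq_mul]⟩
  have e3 : I (p1 univ univ x * τ) = x * I τ := by
    clear h1 h2 hτ e1
    induction hs using Submodule.span_induction with
    | mem u hu =>
      obtain ⟨i, j, -, a, ha, b, hb, rfl⟩ := hu
      rw [← mul_assoc, ← map_mul, hI _ j _ (mul_mem_Hk hx ha) b hb, hI i j a ha b hb,
        mul_smul_comm]
    | zero => rw [mul_zero, map_zero, mul_zero]
    | add u v _ _ hu hv => rw [mul_add, map_add, map_add, mul_add, hu, hv]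
    | smul c u _ hu => rw [mul_smul_comm, map_smul, map_smul, hu, mul_smul_comm]
  have hx1 : p1 univ univ x ∈ Hk (univ ×ˢ univ : Set (Z × Z)) k := pull_mem hx
  rw [← pd_diag hK hτ h2 hx, comm hτ hx1, mul_assoc, Int.negOnePow_two_mul, Units.val_one,
    one_smul, e3, e1, mul_one]

end Pool.Agent.Lib.MP_d3d358_ag.Cw
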