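import Pool.Agent.Lib.MP_d3d358_ag.Cw.Thom
import Pool.Agent.Lib.MP_d3d358_ag.Cw.PDa

/-! Poincare duality. -/

set_option autoImplicit false

namespace Pool.Agent.Lib.MP_d3d358_ag.Cw

open Topology Set Filter AS

variable {Z : Type} {n : ℕ} [MetricSpace Z] {Rg : Z → (Z → ℂ) → Prop}
  {φ : HT ℚ (univ : Set Z) →ₗ[ℚ] ℚ}

theorem pd_core (h : Man Rg n φ) : ∃ τ ∈ Hk (univ ×ˢ univ : Set (Z × Z)) (2 * (n : ℤ)),
    ∃ I : HT ℚ (univ ×ˢ univ : Set (Z × Z)) →ₗ[ℚ] HT ℚ (univ : Set Z),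
      (∀ i j, ∀ x ∈ Hk univ i, ∀ y ∈ Hk univ j, I (p1 univ univ x * p2 univ univ y) = φ y • x) ∧
      ∀ k, ∀ x ∈ Hk univ k, I (τ * p2 univ univ x) = x := by
  obtain ⟨τ, hτ, h1, Y, U, -, h2⟩ := thom h
  obtain ⟨I, hI⟩ := exists_int2 h.fund.cpt h.fund.cpt φ
  exact ⟨τ, hτ, I, hI, pd_core_of h hτ h1 (fun ε hε => by
    obtain ⟨t, ht, e, h3, -⟩ := h2 ε hε
    exact ⟨t, ht, e, h3⟩) hI⟩

theorem pd_rep (h : Man Rg n φ) (ψ : HT ℚ (univ : Set Z) →ₗ[ℚ] ℚ) (k : ℤ) :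
    ∃ c ∈ Hk univ (2 * n - k), ∀ x ∈ Hk univ k, ψ x = φ (c * x) := by
  obtain ⟨τ, hτ, I, hI, h1⟩ := pd_core h
  suffices H : ∃ c ∈ Hk univ (2 * n - k), ∀ x ∈ Hk univ k,
      ψ (I (τ * p2 univ univ x)) = φ (c * x) by
    obtain ⟨c, hc, e⟩ := H
    exact ⟨c, hc, fun x hx => by rw [← e x hx, h1 k x hx]⟩
  have hs := cross_span h.fund.cpt h.fund.cpt _ hτ
  clear h1 hτ
  induction hs using Submodule.span_induction with
  | mem u hu =>
    obtain ⟨i, j, -, a, ha, b, hb, rfl⟩ := hu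
    have e : ∀ x ∈ Hk univ k, ψ (I (p1 univ univ a * p2 univ univ b * p2 univ univ x)) =
        φ (b * x) * ψ a := fun x hx => by
      rw [mul_assoc, ← map_mul, hI i _ a ha _ (mul_mem_Hk hb hx), map_smul, smul_eq_mul]
    by_cases hj : j = 2 * n - k
    · subst hj
      exact ⟨ψ a • b, Submodule.smul_mem _ _ hb, fun x hx => by
        rw [e x hx, smul_mul_assoc, map_smul, smul_eq_mul, mul_comm]⟩
    · exact ⟨0, Submodule.zero_mem _, fun x hx => by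
        rw [e x hx, h.fund.deg _ (by omega) _ (mul_mem_Hk hb hx), zero_mul, zero_mul, map_zero]⟩
  | zero => exact ⟨0, Submodule.zero_mem _, fun x _ => by simp only [zero_mul, map_zero]⟩
  | add u v _ _ hu hv =>
    obtain ⟨c, hc, e⟩ := hu
    obtain ⟨d, hd, e'⟩ := hv
    exact ⟨c + d, Submodule.add_mem _ hc hd, fun x hx => by
      rw [add_mul, map_add, map_add, e x hx, e' x hx, add_mul, map_add]⟩
  | smul r u _ hu =>
    obtain ⟨c, hc, e⟩ := hu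
    exact ⟨r • c, Submodule.smul_mem _ r hc, fun x hx => by
      rw [smul_mul_assoc, map_smul, map_smul, e x hx, smul_mul_assoc, map_smul]⟩

/-- Poincare duality -/
theorem pd_zero (h : Man Rg n φ) {k : ℤ} {x : HT ℚ (univ : Set Z)} (hx : x ∈ Hk univ k)
    (h0 : ∀ y ∈ Hk univ (2 * n - k), φ (y * x) = 0) : x = 0 := by
  obtain ⟨τ, hτ, I, hI, h1⟩ := pd_core h
  rw [← h1 k x hx]
  have hs := cross_span h.fund.cpt h.fund.cpt _ hτ
  clear h1 hτ
  induction hs using Submodule.span_induction with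
  | mem u hu =>
    obtain ⟨i, j, -, a, ha, b, hb, rfl⟩ := hu
    rw [mul_assoc, ← map_mul, hI i _ a ha _ (mul_mem_Hk hb hx)]
    by_cases hj : j = 2 * n - k
    · rw [h0 b (hj ▸ hb), zero_smul]
    · rw [h.fund.deg _ (by omega) _ (mul_mem_Hk hb hx), zero_smul]
  | zero => rw [zero_mul, map_zero]
  | add u v _ _ hu hv => rw [add_mul, map_add, hu, hv, add_zero]
  | smul r u _ hu => rw [smul_mul_assoc, map_smul, hu, smul_zero]

end Pool.Agent.Lib.MP_d3d358_ag.Cw
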