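import Pool.Agent.Lib.MP_d3d358_ag.Cw.CapA
import Pool.Agent.Lib.MP_d3d358_ag.Cw.PD
import Pool.Agent.Lib.MP_d3d358_ag.Cw.Gen
import Pool.Agent.Lib.MP_d3d358_ag.Cw.Chg

/-! The class of a transversal intersection is the product of the classes. -/

set_option autoImplicit false

namespace Pool.Agent.Lib.MP_d3d358_ag.Cw

open Topology Set Filter AS

variable {Z : Type} {n : ℕ} [MetricSpace Z] {Rg : Z → (Z → ℂ) → Prop}
  {φ : HT ℚ (univ : Set Z) →ₗ[ℚ] ℚ} {A B : Set Z} {a b c : ℕ} {φA : HT ℚ A →ₗ[ℚ] ℚ}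
  {φB : HT ℚ B →ₗ[ℚ] ℚ}

theorem cap_chg {K : Set Z} {p : Z} {r m : ℕ} (e : r = m) (hK : IsCompact K) {y : Z → Fin r → ℂ}
    (h : Cht K p y) {F : (Fin r → ℂ) → Fin m → ℂ} (hF : ContDiffAt ℂ 1 F (y p))
    (hd : Function.Injective (fderiv ℂ F (y p))) {g : Z → Fin m → ℂ} (hg : g =ᶠ[𝓝[K] p] F ∘ y)
    {x x' : HT ℚ K} (hx : IsPt K p y x) (hx' : IsPt K p g x') : x = x' := by
  subst e
  exact chg_cx hK h hF hd hg hx hx'

theorem cap_dual (h : Man Rg n φ) (hA : Fund Rg A a φA) {α : HT ℚ (univ : Set Z)}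
    (hα : α ∈ Hk univ (2 * n - 2 * a))
    (eα : ∀ x ∈ Hk univ (2 * (a : ℤ)), φA (res (subset_univ A) x) = φ (α * x)) {k : ℤ}
    {x : HT ℚ (univ : Set Z)} (hx : x ∈ Hk univ k) : φA (res (subset_univ A) x) = φ (α * x) := by
  by_cases e : k = 2 * a
  · exact eα x (e ▸ hx)
  · rw [hA.deg k e _ (MV_res_mem _ hx), h.fund.deg _ (by omega) _ (mul_mem_Hk hα hx)]

/-- `t` represents the class of the diagonal and vanishes at distance `ε` from it -/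
def CapGd (Y : Z → Z → Fin n → ℂ) (U : Z → Set Z) (ε : ℝ) (t : Ch (Z × Z) ℚ) : Prop :=
  dC t ∈ N (univ ×ˢ univ : Set (Z × Z)) ∧ t ∈ N {u : Z × Z | ε ≤ dist u.1 u.2} ∧ ∀ p, ∃ b,
    b ∈ N ((U p ×ˢ U p) ∩ {u : Z × Z | ε ≤ dist u.1 u.2}) ∧
    t - jc (fun u : Z × Z => Y p u.2 - Y p u.1) - dC b ∈ N (U p ×ˢ U p)

theorem cap_point (h : Man Rg n φ) (hA : Fund Rg A a φA) (hB : Fund Rg B b φB)
    {Φ : HT ℚ (A ×ˢ B) →ₗ[ℚ] ℚ}
    (hΦ : ∀ i j, ∀ x ∈ Hk A i, ∀ y ∈ Hk B j, Φ (p1 A B x * p2 A B y) = φB y * φA x)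
    {Y : Z → Z → Fin n → ℂ} {U : Z → Set Z} (hY : ∀ p, At Rg univ p (Y p) ∧ U p ∈ 𝓝 p) {p : Z}
    (hp : p ∈ A ∩ B) {y : Z → Fin c → ℂ} (ht : TrAt Rg n A B p y) {x : HT ℚ (A ∩ B)}
    (hx : IsPt (A ∩ B) p y x) : ∃ (m : Ch Z ℚ) (hm : dC m ∈ N (A ∩ B)), x = AS.mk m hm ∧
      m ∈ DZ (2 * (c : ℤ)) ∧ (∀ z ∈ A ∩ B, dC m ∈ ptN (𝓝 z)) ∧ ∀ᶠ ε in 𝓝[>] (0 : ℝ), ∀ t,
        CapGd Y U ε t → ∃ hd, Φ (AS.mk (t * pullC Prod.snd m) hd) = 1 := by
  obtain ⟨U1, O1, s1, c1, p1', -⟩ := (cap_dim h hA hB hp ht).2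
  obtain ⟨U2, O2, s2, c2, p2', -⟩ := (hY p).1
  obtain ⟨a', b', yA, yB, F, e, hyA, hyB, f1, f2, f3⟩ := cap_loc h hp ht (hY p).1
  obtain ⟨k, l, s, t, -, -, -, hy, -⟩ := ht
  have cy : ∀ᶠ u in 𝓝 p, ContinuousAt y u := by
    filter_upwards [eventually_all.2 fun i => h.shf.near p _ (hy i)] with u hu
    exact continuousAt_pi.2 fun i => h.shf.cont u _ (hu i)
  obtain ⟨V, hV, oV, pV⟩ := mem_nhds_iff.1 (inter_mem (inter_mem (hY p).2 cy)
    (inter_mem (c1.oU.mem_nhds p1'.1) (c2.oU.mem_nhds p2'.1)))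
  obtain ⟨ρ, hρ, hb⟩ := Metric.nhds_basis_closedBall.mem_iff.1 (oV.mem_nhds pV)
  have hC : Metric.closedBall p (ρ / 2) ⊆ V :=
    (Metric.closedBall_subset_closedBall (by linarith)).trans hb
  have nC : Metric.closedBall p (ρ / 2) ∈ 𝓝 p := Metric.closedBall_mem_nhds p (by linarith)
  have i2 : ∀ u ∈ V, ∀ v ∈ V, Y p v - Y p u = 0 → u = v := fun u hu v hv e => by
    rw [← c2.li u ⟨(hV hu).2.2, mem_univ _⟩, ← sub_eq_zero.1 e, c2.li v ⟨(hV hv).2.2, mem_univ _⟩]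
  have cY : ∀ u ∈ V, ContinuousAt (Y p) u := fun u hu => c2.cy.continuousAt (by
    rw [inter_univ]; exact c2.oU.mem_nhds (hV hu).2.2)
  set j := jc fun z => y z - y p with hj
  set m := ptCut (Metric.closedBall p (ρ / 2)) j
  have a2 : m - j ∈ ptN (𝓝 p) := ⟨_, nC, pt_cut_in j⟩
  have a4 : ∀ z ∈ A ∩ B, z ≠ p → m ∈ ptN (𝓝 z) := fun z hz hn => by
    by_cases e : z ∈ Metric.closedBall p (ρ / 2)
    · have h1 : ContinuousAt (fun z => y z - y p) z := (hV (hC e)).1.2.sub continuousAt_const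
      have h2 : y z - y p ≠ 0 := fun e' => hn (by
        rw [← c1.li z ⟨(hV (hC e)).2.1, hz⟩, sub_eq_zero.1 e', c1.li p p1'])
      refine ⟨V ∩ {z | y z - y p ≠ 0}, inter_mem (oV.mem_nhds (hC e)) (h1.eventually_ne h2),
        pt_cut_N (jc_null (fun u hu => ?_) fun _ hu => hu.2)⟩
      exact ((hV hu.1).1.2.sub continuousAt_const).continuousWithinAt
    · exact ⟨_, Metric.isClosed_closedBall.isOpen_compl.mem_nhds e, pt_cut_out j⟩
  have a3 : ∀ z ∈ A ∩ B, dC m ∈ ptN (𝓝 z) := fun z hz => by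
    by_cases e : z = p
    · have := loc_dC a2
      rwa [map_sub, hj, dC_jc, sub_zero, ← e] at this
    · exact loc_dC (a4 z hz e)
  have up : ∀ {K : Set Z} {u : Ch Z ℚ} {z : Z}, u ∈ ptN (𝓝 z) → u ∈ ptN (𝓝[K] z) :=
    fun ⟨V, hV, e⟩ => ⟨V, mem_nhdsWithin_of_mem_nhds hV, e⟩
  have hm : dC m ∈ N (A ∩ B) := Circle_local fun z hz => up (a3 z hz)
  refine ⟨m, hm, Lc.unique hx (lc_iff.2 ⟨m, ⟨hm, rfl⟩,
    Circle_local fun z hz => up (a4 z hz.1 hz.2), up a2⟩), pt_cut_deg _ (jc_mem _), a3, ?_⟩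
  obtain ⟨xA, hxA⟩ := hyA.cht.exists_isPt
  obtain ⟨xB, hxB⟩ := hyB.cht.exists_isPt
  obtain ⟨η, hη⟩ := exists_isPt (K := A ×ˢ B) (p := (p, p)) (U := V ×ˢ V)
    (G := fun u : Z × Z => Fin.append (Y p u.2 - Y p u.1) (y u.2))
    (prod_mem_nhds (oV.mem_nhds pV) (oV.mem_nhds pV))
    (fun u hu => ContinuousAt.continuousWithinAt ((capT n c).continuous.continuousAt.comp
      ((((cY _ hu.1.2).comp continuousAt_snd).sub ((cY _ hu.1.1).comp continuousAt_fst)).prodMk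
        (ContinuousAt.comp (hV hu.1.2).1.2 continuousAt_snd))))
    fun u hu e => by
      have e1 := congrArg (capT n c).symm e
      rw [capT_symm, capT_symm, sub_self] at e1
      obtain ⟨e2, e3⟩ := Prod.mk.inj e1
      have e4 := i2 _ hu.1.1 _ hu.1.2 e2
      have e5 : u.2 = p := by
        rw [← c1.li u.2 ⟨(hV hu.1.2).2.1, e4 ▸ hu.2.1, hu.2.2⟩, e3, c1.li p p1']
      exact Prod.ext (e4.trans e5) e5
  have v : Φ η = 1 := by
    rw [← cap_chg e (hA.cpt.prod hB.cpt) (cap_cht hyA.cht hyB.cht) f1 f2 f3 (cap_pt hxA hxB) hη,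
      hΦ _ _ _ hxA.mem _ hxB.mem]
    obtain rfl := hA.size hyA
    obtain rfl := hB.size hyB
    rw [hA.val p _ _ hyA hxA, hB.val p _ _ hyB hxB, one_mul]
  have hη' : Lc (A ×ˢ B) (p, p)
      ((jc fun u : Z × Z => Y p u.2 - Y p u.1) * pullC Prod.snd j) η := by
    rw [hj, pullC_jc, ← jc_append]
    simp only [IsPt, cap_sub, sub_self, sub_zero] at hη
    exact hη
  filter_upwards [cap_near hA.cpt hB.cpt (cap_open (dC m)) a3,
    mem_nhdsWithin_of_mem_nhds (Iio_mem_nhds (half_pos hρ))] with ε h1 h2 t ⟨g1, g2, g3⟩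
  obtain ⟨β, g4, g5⟩ := g3 p
  have sV : V ×ˢ V ⊆ U p ×ˢ U p := fun u hu => ⟨(hV hu.1).1.1, (hV hu.2).1.1⟩
  have hd := cap_coc (N_mono (prod_mono (subset_univ A) (subset_univ B)) g1) g2 h1
  refine ⟨hd, ?_⟩
  rw [cap_one Metric.isClosed_closedBall oV pV (fun u hu hd => ⟨hb ?_, hC hu⟩) g2
    (N_mono (inter_subset_inter_left _ sV) g4) (N_mono sV g5) (fun u hu hn => ?_) (pt_cut_out j) a2
    h1 (fun z hz => a4 z hz) hη' hd, v]
  · have := dist_triangle u.1 u.2 p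
    rw [Metric.mem_closedBall] at hu ⊢
    linarith [mem_Iio.1 h2]
  · refine ⟨V ×ˢ V ∩ {u | u.1 ≠ u.2}, inter_mem ((oV.prod oV).mem_nhds hu)
      ((isOpen_ne_fun continuous_fst continuous_snd).mem_nhds hn),
      jc_null (fun u hu => ContinuousAt.continuousWithinAt ?_) fun u hu e => ?_⟩
    · exact ((cY _ hu.1.2).comp continuousAt_snd).sub ((cY _ hu.1.1).comp continuousAt_fst)
    · exact hu.2 (i2 _ hu.1.1 _ hu.1.2 e)

theorem cap (h : Man Rg n φ) {A B D : Set Z} {a b c : ℕ} {φA : HT ℚ A →ₗ[ℚ] ℚ}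
    {φB : HT ℚ B →ₗ[ℚ] ℚ} (hA : Fund Rg A a φA) (hB : Fund Rg B b φB)
    {α β : HT ℚ (univ : Set Z)} (hα : α ∈ Hk univ (2 * n - 2 * a)) (hβ : β ∈ Hk univ (2 * n - 2 * b))
    (eα : ∀ x ∈ Hk univ (2 * (a : ℤ)), φA (res (subset_univ A) x) = φ (α * x))
    (eβ : ∀ x ∈ Hk univ (2 * (b : ℤ)), φB (res (subset_univ B) x) = φ (β * x))
    (hT : Thin (A ∩ B) (c + 1)) (hD : IsCompact D) (hDT : Thin D c) (ψ : HT ℚ (A ∩ B) →ₗ[ℚ] ℚ)
    (hl : ∀ p ∈ (A ∩ B) \ D, ∃ y : Z → Fin c → ℂ, TrAt Rg n A B p y ∧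
      ∀ x, IsPt (A ∩ B) p y x → ψ x = 1) :
    ∀ x ∈ Hk univ (2 * (c : ℤ)), ψ (res (subset_univ _) x) = φ (α * β * x) := by
  intro x hx
  have hK := h.fund.cpt
  have hAB : IsCompact (A ∩ B) := hA.cpt.inter hB.cpt
  have sW : A ×ˢ B ⊆ univ ×ˢ univ := prod_mono (subset_univ A) (subset_univ B)
  obtain ⟨τ, hτ, h1, Y, U, hY, h2⟩ := thom h
  obtain ⟨I, hI⟩ := exists_int2 hK hK φ
  obtain ⟨J, hJ⟩ := exists_int2 hA.cpt hB.cpt φB
  have hΦ : ∀ i j, ∀ x ∈ Hk A i, ∀ y ∈ Hk B j,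
      (φA ∘ₗ J) (p1 A B x * p2 A B y) = φB y * φA x := fun i j x hx y hy => by
    rw [LinearMap.comp_apply, hJ i j x hx y hy, map_smul, smul_eq_mul]
  have e1 : (φA ∘ₗ J) (res sW (τ * p2 univ univ x)) = φ (α * β * x) := by
    rw [mul_assoc, ← pd_core_of h hτ h1 (fun ε hε => by
      obtain ⟨t, ht, e, h3, -⟩ := h2 ε hε
      exact ⟨t, ht, e, h3⟩) hI _ _ (mul_mem_Hk hβ hx)]
    have hs := cross_span hK hK _ hτ
    clear h1 h2 hτ
    induction hs using Submodule.span_induction with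
    | mem u hu =>
      obtain ⟨i, j, -, u, hu, v, hv, rfl⟩ := hu
      have r1 : res sW (p1 univ univ u) = p1 A B (res (subset_univ A) u) := by
        rw [res, res, p1, p1, pull_pull, pull_pull]; rfl
      have r2 : res sW (p2 univ univ (v * x)) = p2 A B (res (subset_univ B) (v * x)) := by
        rw [res, res, p2, p2, pull_pull, pull_pull]; rfl
      have hvx := mul_mem_Hk hv hx
      rw [mul_assoc, mul_assoc, ← map_mul, ← map_mul, map_mul (res sW), r1, r2,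
        hΦ _ _ _ (MV_res_mem _ hu) _ (MV_res_mem _ hvx),
        hI _ _ _ hu _ (mul_mem_Hk hv (mul_mem_Hk hβ hx)), cap_dual h hA hα eα hu,
        cap_dual h hB hβ eβ hvx, mul_smul_comm, map_smul, smul_eq_mul, ← mul_assoc, ← mul_assoc,
        comm_even ⟨n - b, by ring⟩ hβ hv]
    | zero => simp only [zero_mul, map_zero, mul_zero]
    | add u v _ _ hu hv => simp only [add_mul, map_add, mul_add, hu, hv]
    | smul r u _ hu => simp only [smul_mul_assoc, map_smul, mul_smul_comm, hu]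
  choose! y hy1 hy2 using hl
  have hs := gen hAB hT hD hDT y (fun p hp => (cap_dim h hA hB hp.1 (hy1 p hp)).2.cht)
    (MV_res_mem (subset_univ _) hx)
  have key : ∀ u ∈ Submodule.span ℚ {u | ∃ p ∈ (A ∩ B) \ D, IsPt (A ∩ B) p (y p) u},
      ∃ (m : Ch Z ℚ) (hm : dC m ∈ N (A ∩ B)), u = AS.mk m hm ∧
      m ∈ DZ (2 * (c : ℤ)) ∧ (∀ z ∈ A ∩ B, dC m ∈ ptN (𝓝 z)) ∧ ∀ᶠ ε in 𝓝[>] (0 : ℝ), ∀ t,
        CapGd Y U ε t → ∃ hd, (φA ∘ₗ J) (AS.mk (t * pullC Prod.snd m) hd) = ψ u := by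
    intro u hu
    induction hu using Submodule.span_induction with
    | mem u hu =>
      obtain ⟨p, hp, hu⟩ := hu
      rw [hy2 p hp u hu]
      exact cap_point h hA hB hΦ hY hp.1 (hy1 p hp) hu
    | zero =>
      refine ⟨0, (Zs ℚ _).zero_mem, (map_zero (Ring_mk _)).symm, zero_mem _, fun z _ => ?_,
        Eventually.of_forall fun ε t _ => ?_⟩
      · rw [map_zero]; exact zero_mem _
      · have e : t * pullC Prod.snd (0 : Ch Z ℚ) ∈ N (A ×ˢ B) := by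
          rw [map_zero, mul_zero]; exact zero_mem _
        exact ⟨N_dC e, by rw [loc_mk_zero _ e, map_zero, map_zero]⟩
    | add u v _ _ hu hv =>
      obtain ⟨m, hm, e, k1, k2, k3⟩ := hu
      obtain ⟨m', hm', e', k1', k2', k3'⟩ := hv
      refine ⟨m + m', (Zs ℚ _).add_mem hm hm', by rw [mk_add hm hm', e, e'], add_mem k1 k1',
        fun z hz => by rw [map_add]; exact add_mem (k2 z hz) (k2' z hz), ?_⟩
      filter_upwards [k3, k3'] with ε k3 k3' t ht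
      obtain ⟨d, f⟩ := k3 t ht
      obtain ⟨d', f'⟩ := k3' t ht
      rw [map_add, mul_add]
      exact ⟨(Zs ℚ _).add_mem d d', by rw [mk_add d d', map_add, map_add, f, f']⟩
    | smul r u _ hu =>
      obtain ⟨m, hm, e, k1, k2, k3⟩ := hu
      refine ⟨r • m, (Zs ℚ _).smul_mem hm r, by rw [mk_smul r hm, e], Submodule.smul_mem _ r k1,
        fun z hz => by rw [map_smul]; exact Submodule.smul_mem _ r (k2 z hz), ?_⟩
      filter_upwards [k3] with ε k3 t ht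
      obtain ⟨d, f⟩ := k3 t ht
      rw [map_smul, mul_smul_comm]
      exact ⟨(Zs ℚ _).smul_mem d r, by rw [mk_smul r d, map_smul, map_smul, f]⟩
  obtain ⟨m, hm, e, k1, k2, k3⟩ := key _ hs
  obtain ⟨ξ, dξ, kξ, rfl⟩ := hx
  have e2 := e
  rw [res_mk, ← sub_eq_zero, ← MV_mk_sub _ _ ((Zs ℚ _).sub_mem (N_mono (subset_univ _) dξ) hm),
    mk_eq_zero_iff (sub_mem kξ k1)] at e2
  obtain ⟨g, kg, e2⟩ := e2
  obtain ⟨g', -, -, V, hV, e3⟩ := N_nhds hAB hK (subset_univ _)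
    (sub_mem (sub_mem kξ k1) (MV_dC_mem kg)) e2 ((cap_open (dC m)).mem_nhdsSet.2 k2) (by
      rw [map_sub, map_sub, dC_dC, sub_zero]
      exact sub_mem (N_mono inter_subset_right dξ) (N_mono inter_subset_left (cap_null _)))
  obtain ⟨O, oO, hO, hOV⟩ := mem_nhdsSet_iff_exists.1 hV
  obtain ⟨ε, ⟨k3, k4⟩, hε⟩ := ((k3.and (cap_near hA.cpt hB.cpt oO hO)).and
    self_mem_nhdsWithin).exists
  obtain ⟨t, dt, rfl, t1, t2⟩ := h2 ε hε
  obtain ⟨d, f⟩ := k3 t ⟨dt, t1, t2⟩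
  have d1 : dC (pullC Prod.snd ξ) ∈ N (univ ×ˢ univ : Set (Z × Z)) := by
    rw [dC_pullC]; exact N_pullC continuousOn_snd (fun _ _ => mem_univ _) dξ
  rw [← f, ← e1, p2, pull_mk _ _ _ dξ d1, ← mk_mul dt d1 ((Zs ℚ _).mul_mem dt d1), res_mk]
  congr 1
  symm
  refine (mk_eq_iff _ _).2 ⟨sg t * pullC Prod.snd (g + g'), ?_⟩
  have c1 : t * pullC Prod.snd (ξ - m - dC g - dC g') ∈ N (A ×ˢ B) := Circle_local fun u hu =>
    cap_mul (fun h => ⟨_, mem_nhdsWithin_of_mem_nhds (cap_far h), t1⟩) fun h =>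
      ⟨O, oO.mem_nhds (k4 u hu h), N_mono (subset_inter hOV (subset_univ _)) e3⟩
  have := add_mem c1 (N_mul_right (N_sg (N_mono sW dt)) (pullC Prod.snd (g + g')))
  rw [dC_mul, dC_sg, sg_sg, dC_pullC, map_add dC, map_add (pullC Prod.snd) (dC g), mul_add, neg_mul]
  rw [map_sub, map_sub, map_sub, mul_sub, mul_sub, mul_sub] at this
  convert this using 1
  abel

end Pool.Agent.Lib.MP_d3d358_ag.Cw
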