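import Pool.Agent.Lib.MP_d3d358_ag.Cw.Et

/-! Transversality at a prime spreads out to an open set of points. -/

set_option autoImplicit false

namespace Pool.Agent.Lib.MP_d3d358_ag.Cw

open Topology Set Filter TensorProduct

variable {A A' : Type} [CommRing A] [Algebra ℂ A] [CommRing A'] [Algebra ℂ A'] {r : ℕ}

omit [Algebra ℂ A] in
/-- generators of a localised ideal may be taken in the ideal -/
theorem tv_clear (I P : Ideal A) [P.IsPrime] (L : Type) [CommRing L] [Algebra A L]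
    [IsLocalization.AtPrime L P] {k : ℕ} (s : Fin k → L)
    (h : I.map (algebraMap A L) = Ideal.span (range s)) :
    ∃ s' : Fin k → A, (∀ i, s' i ∈ I) ∧
      I.map (algebraMap A L) ≤ (Ideal.span (range s')).map (algebraMap A L) := by
  have hs : ∀ i, ∃ x : I × P.primeCompl,
      s i * algebraMap A L x.2 = algebraMap A L x.1 := fun i =>
    (IsLocalization.mem_map_algebraMap_iff P.primeCompl L).1
      (h ▸ Ideal.subset_span (mem_range_self i))
  choose x hx using hs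
  refine ⟨fun i => (x i).1, fun i => (x i).1.2, ?_⟩
  rw [h, Ideal.span_le]
  rintro _ ⟨i, rfl⟩
  exact (IsLocalization.mem_map_algebraMap_iff P.primeCompl L).2
    ⟨⟨⟨(x i).1, Ideal.subset_span (mem_range_self i)⟩, (x i).2⟩, hx i⟩

omit [Algebra ℂ A] in
/-- an inclusion of localised ideals spreads out -/
theorem tv_spread [IsNoetherianRing A] (I J P : Ideal A) [P.IsPrime] (L : Type) [CommRing L]
    [Algebra A L] [IsLocalization.AtPrime L P]
    (h : J.map (algebraMap A L) ≤ I.map (algebraMap A L)) :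
    ∃ c ∉ P, ∀ x ∈ J, c * x ∈ I := by
  classical
  obtain ⟨S, hS⟩ := IsNoetherian.noetherian J
  have hm : ∀ x : S, ∃ m ∈ P.primeCompl, m * (x : A) ∈ I := fun x =>
    (IsLocalization.algebraMap_mem_map_algebraMap_iff P.primeCompl L I x).1
      (h (Ideal.mem_map_of_mem _ (hS ▸ Submodule.subset_span x.2)))
  choose m hm hm' using hm
  refine ⟨∏ x, m x, P.primeCompl.prod_mem fun x _ => hm x, fun x hx => ?_⟩
  rw [← hS] at hx
  induction hx using Submodule.span_induction with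
  | mem x hx =>
    obtain ⟨c, hc⟩ := Finset.dvd_prod_of_mem m (Finset.mem_univ (⟨x, hx⟩ : S))
    rw [hc, mul_right_comm]
    exact I.mul_mem_right _ (hm' ⟨x, hx⟩)
  | zero => simp
  | add x y _ _ hx hy => rw [mul_add]; exact I.add_mem hx hy
  | smul a x _ hx => rw [smul_eq_mul, mul_left_comm]; exact I.mul_mem_left _ hx

theorem tv_vz (I : Ideal A) {k : ℕ} {s : Fin k → A} (hs : ∀ i, s i ∈ I) {c : A}
    (hc : ∀ x ∈ I, c * x ∈ Ideal.span (range s)) (q : Sp A) (hq : q c ≠ 0) :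
    q ∈ Vz I ↔ co s q = 0 := by
  refine ⟨fun h => funext fun i => h _ (hs i), fun h x hx => ?_⟩
  obtain ⟨α, hα⟩ := Ideal.mem_span_range_iff_exists_fun.1 (hc x hx)
  have h0 : q (c * x) = 0 := by
    rw [← hα, map_sum]
    refine Finset.sum_eq_zero fun i _ => ?_
    rw [map_mul, show q (s i) = 0 from congrFun h i, mul_zero]
  rw [map_mul] at h0
  exact (mul_eq_zero.1 h0).resolve_left hq

theorem transv [Algebra.FiniteType ℂ A] (P₁ P₂ P : Ideal A) [P.IsPrime] (L : Type) [CommRing L]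
    [Algebra A L] [IsLocalization.AtPrime L P] {k l : ℕ} (s : Fin k → L) (t : Fin l → L)
    (h₁ : P₁.map (algebraMap A L) = Ideal.span (range s))
    (h₂ : P₂.map (algebraMap A L) = Ideal.span (range t))
    (h₃ : P.map (algebraMap A L) = P₁.map (algebraMap A L) ⊔ P₂.map (algebraMap A L))
    {y : Fin r → A} (hy : IsTranscendenceBasis ℂ (Ideal.Quotient.mk P ∘ y)) :
    ∃ (s' : Fin k → A) (t' : Fin l → A), ∃ h ∉ P,
      (∀ q : Sp A, q h ≠ 0 → (q ∈ Vz P₁ ↔ co s' q = 0) ∧ (q ∈ Vz P₂ ↔ co t' q = 0)) ∧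
      ∀ p ∈ Vz P, p h ≠ 0 → ∀ a, ∃ b, p b ≠ 0 ∧ ∃ (α : Fin k → A) (β : Fin l → A) (γ : Fin r → A),
        b * (a - algebraMap ℂ A (p a)) =
          α ⬝ᵥ s' + β ⬝ᵥ t' + γ ⬝ᵥ fun i => y i - algebraMap ℂ A (p (y i)) := by
  have hP : P.IsPrime := inferInstance
  have : IsNoetherianRing A := Algebra.FiniteType.isNoetherianRing ℂ A
  obtain ⟨s', hs, hs'⟩ := tv_clear P₁ P L s h₁
  obtain ⟨t', ht, ht'⟩ := tv_clear P₂ P L t h₂
  obtain ⟨c₁, hc₁, hc₁'⟩ := tv_spread _ _ P L hs'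
  obtain ⟨c₂, hc₂, hc₂'⟩ := tv_spread _ _ P L ht'
  obtain ⟨c₃, hc₃, hc₃'⟩ := tv_spread (Ideal.span (range s') ⊔ Ideal.span (range t')) P P L (by
    rw [h₃, Ideal.map_sup]; exact sup_le_sup hs' ht')
  obtain ⟨H, d, hH, -, hgen⟩ := gen_chart hy
  have hc₄ : MvPolynomial.aeval y H ∉ P := fun h => hH <| by
    have h1 : MvPolynomial.aeval (Ideal.Quotient.mk P ∘ y) H = 0 := by
      have := MvPolynomial.comp_aeval_apply y (Ideal.Quotient.mkₐ ℂ P) H
      rw [show (Ideal.Quotient.mk P ∘ y) = fun i => Ideal.Quotient.mkₐ ℂ P (y i) from rfl, ← this]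
      exact Ideal.Quotient.eq_zero_iff_mem.2 h
    exact (algebraicIndependent_iff.1 hy.1) H h1
  refine ⟨s', t', c₁ * c₂ * (c₃ * MvPolynomial.aeval y H), fun h => ?_, fun q hq => ?_,
    fun p hp hph a => ?_⟩
  · rcases hP.mem_or_mem h with h | h <;> rcases hP.mem_or_mem h with h | h <;> contradiction
  · simp only [map_mul, ne_eq, mul_eq_zero, not_or] at hq
    exact ⟨tv_vz P₁ hs hc₁' q hq.1.1, tv_vz P₂ ht hc₂' q hq.1.2⟩
  · simp only [map_mul, ne_eq, mul_eq_zero, not_or] at hph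
    let pb : Sp (A ⧸ P) := Ideal.Quotient.liftₐ P p.hom hp
    have hpb : ∀ x, pb (Ideal.Quotient.mk P x) = p x := fun x => rfl
    have hev : MvPolynomial.eval (co (Ideal.Quotient.mk P ∘ y) pb) H ≠ 0 := by
      have := MvPolynomial.comp_aeval_apply y p.hom H
      rw [Sp.hom_apply] at this
      rw [this] at hph
      exact hph.2.2
    obtain ⟨b, hb, hb'⟩ := ((hgen _ hev).2 pb rfl).2 (Ideal.Quotient.mk P a)
    obtain ⟨b, rfl⟩ := Ideal.Quotient.mk_surjective b
    obtain ⟨γ, hγ⟩ := Ideal.mem_span_range_iff_exists_fun.1 hb'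
    choose γ' hγ' using fun i => Ideal.Quotient.mk_surjective (γ i)
    have hm : b * (a - algebraMap ℂ A (p a)) -
        (γ' ⬝ᵥ fun i => y i - algebraMap ℂ A (p (y i))) ∈ P := by
      rw [← Ideal.Quotient.eq_zero_iff_mem, map_sub, map_mul, map_sub, sub_eq_zero]
      refine hγ.symm.trans ?_
      rw [dotProduct, map_sum]
      refine Finset.sum_congr rfl fun i _ => ?_
      rw [map_mul, hγ', map_sub]
      rfl
    obtain ⟨u, hu, v, hv, huv⟩ := Submodule.mem_sup.1 (hc₃' _ hm)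
    obtain ⟨α, rfl⟩ := Ideal.mem_span_range_iff_exists_fun.1 hu
    obtain ⟨β, rfl⟩ := Ideal.mem_span_range_iff_exists_fun.1 hv
    refine ⟨c₃ * b, ?_, α, β, c₃ • γ', ?_⟩
    · rw [map_mul]; exact mul_ne_zero hph.2.1 hb
    · rw [smul_dotProduct, smul_eq_mul, dotProduct, dotProduct, huv]
      ring

end Pool.Agent.Lib.MP_d3d358_ag.Cw
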