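import Pool.Agent.Lib.MP_d3d358_ag.Cw.Fnd
import Pool.Agent.Lib.MP_d3d358_ag.Cw.Tv
import Pool.Agent.Lib.MP_d3d358_ag.Cw.Cap

/-! Integration over a generically transverse intersection. -/

set_option autoImplicit false
set_option linter.style.haveILetI false

namespace Pool.Agent.Lib.MP_d3d358_ag.Cw

open CategoryTheory AlgebraicGeometry MonoidalCategory CartesianMonoidalCategory Order Topology Set
  Filter AS

variable {W : Sch} {r n : ℕ}

theorem At.int_local {Z : Type} [TopologicalSpace Z] {Rg : Z → (Z → ℂ) → Prop} {K K' V : Set Z}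
    {p : Z} {y : Z → Fin r → ℂ} (h : At Rg K p y) (hV : IsOpen V) (hp : p ∈ V)
    (e : V ∩ K = V ∩ K') : At Rg K' p y := by
  obtain ⟨U, O, s, hc, hp', hq⟩ := h
  have h1 := hc.inter hV
  have e' : U ∩ V ∩ K' = U ∩ V ∩ K := by rw [inter_assoc, inter_assoc, e]
  refine ⟨U ∩ V, O ∩ s ⁻¹' V, s, ⟨h1.oU, h1.oO, ?_, ?_, h1.cs, ?_, ?_, h1.ri⟩, ?_, ?_⟩ <;> rw [e']
  exacts [h1.cy, h1.my, h1.ms, h1.li, ⟨⟨hp'.1, hp⟩, hp'.2⟩, fun q hz => hq q ⟨hz.1.1, hz.2⟩]

theorem int_res {Z : Type} [TopologicalSpace Z] {K L M : Set Z} (h : K ⊆ L) (h' : L ⊆ M)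
    (x : HT ℚ M) : res h (res h' x) = res (h.trans h') x := pull_pull x

theorem int_idl {U : W.left.Opens} (hU : IsAffineOpen U) {x z : W.left} (h : x ⤳ z) (hx : x ∈ U)
    (hz : z ∈ U) : (pri hU hx).map (W.left.presheaf.germ U z hz).hom = idl h := by
  letI := W.left.presheaf.algebra_section_stalk (⟨z, hz⟩ : U)
  letI := W.left.presheaf.algebra_section_stalk (⟨x, hx⟩ : U)
  haveI := hU.isLocalization_stalk ⟨z, hz⟩
  haveI := hU.isLocalization_stalk ⟨x, hx⟩
  have e1 := IsLocalization.map_under (pri hU hz).primeCompl (W.left.presheaf.stalk z) (idl h)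
  have e2 := IsLocalization.AtPrime.under_maximalIdeal (W.left.presheaf.stalk x) (pri hU hx)
  refine Eq.trans ?_ e1
  congr 1
  rw [← e2]
  ext a
  change (W.left.presheaf.germ U x hx).hom a ∈ IsLocalRing.maximalIdeal _ ↔
    (W.left.presheaf.stalkSpecializes h).hom ((W.left.presheaf.germ U z hz).hom a) ∈
      IsLocalRing.maximalIdeal _
  rw [← CommRingCat.comp_apply, TopCat.Presheaf.germ_stalkSpecializes]

theorem int_tr [Gd W] (h : Mf W n) {x y z : W.left} {hx : x ⤳ z} {hy : y ⤳ z}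
    (ht : Transv hx hy) : ∃ O : W.left.Opens, z ∈ O ∧ ∃ Y : Pnt W → Fin (dm z) → ℂ,
      ∀ p ∈ Kw z, p.pt ∈ O → TrAt (Rg W) n (Kw x) (Kw y) p Y := by
  obtain ⟨U, hU, hz⟩ := exists_affine z
  have hxU : x ∈ U := hx.mem_open U.2 hz
  have hyU : y ∈ U := hy.mem_open U.2 hz
  obtain ⟨s, t, h1, h2, h3, h4⟩ := ht
  obtain ⟨b, hb⟩ := exists_tb hU hz
  obtain ⟨e, he⟩ := exists_emb hU
  haveI := ft_sec hU
  haveI := h.int
  letI := W.left.presheaf.algebra_section_stalk (⟨z, hz⟩ : U)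
  haveI := hU.isLocalization_stalk ⟨z, hz⟩
  have rs : ∀ s : Finset (W.left.presheaf.stalk z),
      range (fun i => (s.equivFin.symm i : W.left.presheaf.stalk z)) = s := fun s => by
    rw [show (fun i => (s.equivFin.symm i : W.left.presheaf.stalk z)) =
      Subtype.val ∘ s.equivFin.symm from rfl, range_comp, Equiv.range_eq_univ, image_univ]
    exact Subtype.range_coe
  obtain ⟨s', t', g, hg, g1, g2⟩ := transv (pri hU hxU) (pri hU hyU) (pri hU hz)
    (W.left.presheaf.stalk z) (fun i => s.equivFin.symm i) (fun i => t.equivFin.symm i)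
    (by rw [rs, ← h1]; exact int_idl hU hx hxU hz) (by rw [rs, ← h2]; exact int_idl hU hy hyU hz)
    ((IsLocalization.AtPrime.map_eq_maximalIdeal _ _).trans (h3.trans (by
      rw [← int_idl hU hx hxU hz, ← int_idl hU hy hyU hz]; rfl))) hb
  have hd := dm_add_le (fun x => genericPoint_specializes x) h4
  rw [h.dm fun x => genericPoint_specializes x] at hd
  refine ⟨W.left.basicOpen g, (W.left.mem_basicOpen g z hz).2
    ((IsLocalization.AtPrime.isUnit_to_map_iff (W.left.presheaf.stalk z) (pri hU hz) g).2 hg),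
    fun p i => val U (b i) p, fun p hp hpO => ?_⟩
  have hpU : p.pt ∈ U := W.left.basicOpen_le g hpO
  obtain ⟨q, rfl⟩ : p ∈ range e := he.rng ▸ hpU
  have hq : q g ≠ 0 := he.val_eq q g ▸ (val_ne_zero g hpU).2 hpO
  have cv : ∀ a, ContinuousAt (val U a) (e q) := fun a => (shf W).cont _ _ (rg_val a hpU)
  have ne : ∀ a, q a ≠ 0 → ∀ᶠ q' in 𝓝 q, q' a ≠ 0 := fun a ha => by
    have := ((cv a).comp he.opn.continuous.continuousAt).eventually_ne
      (y := 0) (by simpa [he.val_eq] using ha)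
    simpa [he.val_eq] using this
  refine ⟨_, _, fun p i => val U (s' i) p, fun p i => val U (t' i) p, by omega,
    fun i => rg_val _ hpU, fun i => rg_val _ hpU, fun i => rg_val _ hpU, ?_, fun f hf => ?_⟩
  · rw [← he.opn.map_nhds_eq, eventually_map]
    filter_upwards [ne g hq] with q' hq'
    simp only [he.spec x hxU, he.spec y hyU, he.val_eq]
    exact g1 q' hq'
  · obtain ⟨a, d, hd, hf⟩ := (he.rg q f).1 hf
    have f0 : f (e q) = q a / q d := hf.self_of_nhds
    obtain ⟨d', hd', α, β, γ, e1⟩ := g2 q ((he.spec z hz q).1 hp) hq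
      (a - algebraMap ℂ _ (f (e q)) * d)
    have c0 : ContinuousAt (fun u => val U d u * val U d' u) (e q) := (cv d).mul (cv d')
    have c1 : val U d (e q) * val U d' (e q) ≠ 0 := by
      rw [he.val_eq, he.val_eq]; exact mul_ne_zero hd hd'
    refine ⟨fun u i => val U (α i) u / (val U d u * val U d' u),
      fun u i => val U (β i) u / (val U d u * val U d' u),
      fun u i => val U (γ i) u / (val U d u * val U d' u),
      continuousAt_pi.2 fun i => (cv _).div c0 c1, continuousAt_pi.2 fun i => (cv _).div c0 c1,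
      continuousAt_pi.2 fun i => (cv _).div c0 c1, ?_⟩
    rw [← he.opn.map_nhds_eq, eventually_map]
    filter_upwards [hf, ne d hd, ne d' hd'] with q' h1 h2 h3
    have e2 := congrArg q' e1
    have e3 : q a - f (e q) * q d = 0 := by rw [f0]; field_simp; ring
    simp only [map_mul, map_sub, map_add, dotProduct, map_sum, AlgHomClass.commutes,
      Algebra.algebraMap_self, RingHom.id_apply, e3, sub_zero] at e2
    simp only [dotProduct, he.val_eq, Pi.sub_apply, div_mul_eq_mul_div, ← Finset.sum_div,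
      ← add_div, ← e2]
    rw [show f (e q') = q' a / q' d from h1]
    field_simp

theorem cap_phi [Gd W] (h : Mf W n) {x y : W.left}
    (ht : ∀ z, ∀ hz : Meet x y z, Transv hz.1 hz.2.1) {α β : HW W}
    (hα : α ∈ Hd W (2 * n - 2 * dm x)) (hβ : β ∈ Hd W (2 * n - 2 * dm y))
    (eα : ∀ u ∈ Hd W (2 * dm x), Phi x u = tp W (α * u))
    (eβ : ∀ u ∈ Hd W (2 * dm y), Phi y u = tp W (β * u)) {k : ℤ} {u : HW W} (hu : u ∈ Hd W k) :
    {z | Meet x y z}.Finite ∧ ∑ᶠ (z : W.left) (_ : Meet x y z), Phi z u = tp W (α * β * u) := by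
  classical
  have hD : IsClosed (closure {x} ∩ closure {y} : Set W.left) :=
    isClosed_closure.inter isClosed_closure
  obtain ⟨s, s1, s2⟩ := exists_comp hD
  have s3 : ∀ z, Meet x y z ↔ z ∈ s := fun z => by
    simp only [s1, Meet, mem_inter_iff, ← specializes_iff_mem_closure, and_assoc, and_imp]
  have hK : Kw x ∩ Kw y = Kc (closure {x} ∩ closure {y}) := by rw [Kw_eq, Kw_eq]; rfl
  have s4 : ∀ p, p ∈ Kw x ∩ Kw y ↔ ∃ z ∈ s, p ∈ Kw z := fun p => by rw [hK]; exact s2 p.pt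
  have s5 : ∀ z ∈ s, Kw z ⊆ Kw x ∩ Kw y := fun z hz p hp => (s4 p).2 ⟨z, hz, hp⟩
  have hM := h.man
  have d0 : ∀ z ∈ s, dm x + dm y = dm z + n := fun z hz => by
    obtain ⟨O, hO, Y, hY⟩ := int_tr h (ht z ((s3 z).2 hz))
    obtain ⟨p, p1, p2⟩ := Kw_nonempty hO
    exact (cap_dim hM (fund x) (fund y) (s5 z hz p1) (hY p p1 p2)).1
  refine ⟨s.finite_toSet.subset fun z hz => (s3 z).1 hz, ?_⟩
  rw [finsum_cond_eq_sum_of_cond_iff _ (t := s) fun _ => s3 _]
  by_cases hk : k + 2 * n = 2 * dm x + 2 * dm y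
  swap
  · rw [hM.fund.deg _ (fun e => hk (by linarith)) _ (mul_mem_Hk (mul_mem_Hk hα hβ) hu)]
    refine Finset.sum_eq_zero fun z hz => Phi_deg z (fun e => hk ?_) hu
    have : (dm x : ℤ) + dm y = dm z + n := by exact_mod_cast d0 z hz
    linarith
  rcases lt_or_ge k 0 with k0 | k0
  · rw [Hk_neg k0 hu]; simp
  obtain ⟨c, hc⟩ : ∃ c : ℕ, dm x + dm y = c + n := ⟨dm x + dm y - n, by omega⟩
  obtain rfl : k = 2 * (c : ℤ) := by omega
  have d1 : ∀ z ∈ s, dm z = c := fun z hz => by have := d0 z hz; omega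
  have loc : ∀ z ∈ s, ∃ O : Set W.left, IsOpen O ∧ z ∈ O ∧ (∀ z' ∈ s, z' ≠ z →
      ∀ v ∈ O, ¬z' ⤳ v) ∧ ∃ Y : Pnt W → Fin c → ℂ,
      ∀ p ∈ Kw z, p.pt ∈ O → TrAt (Rg W) n (Kw x) (Kw y) p Y := fun z hz => by
    obtain ⟨O, hO, Y, hY⟩ := int_tr h (ht z ((s3 z).2 hz))
    obtain rfl := d1 z hz
    refine ⟨O ∩ ⋂ z' ∈ s.erase z, (closure {z'})ᶜ, O.2.inter (isOpen_biInter_finset fun z' _ =>
      isClosed_closure.isOpen_compl), ⟨hO, mem_iInter₂.2 fun z' hz' hm => ?_⟩,
      fun z' hz' hne v hv hm => ?_, Y, fun p p1 p2 => hY p p1 p2.1⟩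
    · obtain ⟨q1, q2⟩ := Finset.mem_erase.1 hz'
      exact q1 (((s1 z).1 hz).2 z' ((s1 z').1 q2).1 (specializes_iff_mem_closure.2 hm))
    · exact mem_iInter₂.1 hv.2 z' (Finset.mem_erase.2 ⟨hne, hz'⟩)
        (specializes_iff_mem_closure.1 hm)
  choose! O O1 O2 O3 Y hY using loc
  have hB : IsClosed (⋃ z ∈ s, closure {z} ∩ (O z)ᶜ) := isClosed_biUnion_finset fun z hz =>
    isClosed_closure.inter (O1 z hz).isClosed_compl
  have key := cap hM (fund x) (fund y) hα hβ eα eβ (c := c) (hK ▸ thin_Kc hD fun v hv => by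
      obtain ⟨z, hz, hzv⟩ := (s2 v).1 hv
      rcases eq_or_ne z v with rfl | hne
      · rw [d1 z hz]; exact Nat.lt_succ_self c
      · exact ((dm_lt hzv hne).trans_eq (d1 z hz)).trans (Nat.lt_succ_self c))
    (isClosed_Kc hB).isCompact (thin_Kc hB fun v hv => by
      obtain ⟨z, hz, hv1, hv2⟩ := mem_iUnion₂.1 hv
      exact (dm_lt (specializes_iff_mem_closure.2 hv1) (by
        rintro rfl; exact hv2 (O2 _ hz))).trans_eq (d1 z hz))
    (∑ z : s, phi z.1 ∘ₗ (res (s5 z.1 z.2)).toLinearMap) (fun p hp => by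
      obtain ⟨z, hz, hpz⟩ := (s4 p).1 hp.1
      have hpO : p.pt ∈ O z := by
        by_contra hn
        exact hp.2 (mem_iUnion₂.2 ⟨z, hz, specializes_iff_mem_closure.1 hpz, hn⟩)
      refine ⟨Y z, hY z hz p hpz hpO, fun v hv => ?_⟩
      have hA : At (Rg W) (Kw z) p (Y z) :=
        (cap_dim hM (fund x) (fund y) hp.1 (hY z hz p hpz hpO)).2.int_local
          (isOpen_Kc ⟨O z, O1 z hz⟩) hpO (by
            ext q
            refine ⟨fun hq => ⟨hq.1, ?_⟩, fun hq => ⟨hq.1, s5 z hz hq.2⟩⟩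
            obtain ⟨z', hz', hq'⟩ := (s4 q).1 hq.2
            rcases eq_or_ne z' z with rfl | hne
            · exact hq'
            · exact absurd hq' (O3 z hz z' hz' hne _ hq.1))
      rw [LinearMap.sum_apply, Finset.sum_eq_single (⟨z, hz⟩ : s) (fun z' _ hne => ?_) (by simp)]
      · have hF : Fund (Rg W) (Kw z) c (phi z) := d1 z hz ▸ fund z
        rw [LinearMap.comp_apply, AlgHom.toLinearMap_apply]
        exact hF.val p _ _ hA (Lc.res hv (s5 z hz))
      · have := (Lc.res hv (s5 z'.1 z'.2)).zero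
          (O3 z hz z'.1 z'.2 (fun e => hne (Subtype.ext e)) _ hpO)
        rw [LinearMap.comp_apply, AlgHom.toLinearMap_apply, this, map_zero]) u hu
  rw [← key, LinearMap.sum_apply, ← Finset.sum_coe_sort s]
  refine Finset.sum_congr rfl fun z _ => ?_
  rw [LinearMap.comp_apply, AlgHom.toLinearMap_apply, int_res, Phi, LinearMap.comp_apply,
    AlgHom.toLinearMap_apply]

end Pool.Agent.Lib.MP_d3d358_ag.Cw
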