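import Pool.Agent.Lib.MP_d3d358_ag.Cw.Sp
import Pool.Agent.Lib.MP_9ff3e7_ag.F.Dense

/-! Nullstellensatz, Noether normalisation, dimension. -/

set_option autoImplicit false

namespace Pool.Agent.Lib.MP_d3d358_ag.Cw

open Topology Set Filter TensorProduct Pool.Agent.Lib.MP_9ff3e7_ag.F

variable {A A' : Type} [CommRing A] [Algebra ℂ A] [CommRing A'] [Algebra ℂ A'] {r : ℕ}

theorem exists_vz [Algebra.FiniteType ℂ A] (P : Ideal A) [hP : P.IsPrime] {h : A} (hh : h ∉ P) :
    ∃ p ∈ Vz P, p h ≠ 0 := by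
  have : IsJacobsonRing A := isJacobsonRing_of_finiteType (A := ℂ)
  rw [← IsJacobsonRing.out' P hP.isRadical, Ideal.jacobson, Ideal.mem_sInf] at hh
  push Not at hh
  obtain ⟨M, ⟨h1, h2⟩, h3⟩ := hh
  obtain ⟨y, hy⟩ := pt_of_max M
  exact ⟨y, fun a ha => (hy a).2 (h1 ha), fun e => h3 ((hy h).1 e)⟩

theorem dense_vz [Algebra.FiniteType ℂ A] (P : Ideal A) [P.IsPrime] {h : A} (hh : h ∉ P) :
    Vz P ⊆ closure (Vz P ∩ {p | p h ≠ 0}) := fun p hp => by
  rw [mem_closure_iff_frequently, nhds_induced]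
  exact dense_prime_nhds P p hp h hh

theorem isDomain_tensor [Algebra.FiniteType ℂ A] [IsDomain A] [IsDomain A'] :
    IsDomain (A ⊗[ℂ] A') := by
  let b := Module.Free.chooseBasis ℂ A'
  let φ : Sp A → (A ⊗[ℂ] A' →ₐ[ℂ] A') := fun p =>
    Algebra.TensorProduct.lift ((Algebra.ofId ℂ A').comp p.hom) (AlgHom.id ℂ A')
      fun _ _ => Commute.all _ _
  have key : ∀ (p : Sp A) x i,
      b.repr (φ p x) i = p ((Algebra.TensorProduct.basis A b).repr x i) := fun p x i => by
    induction x with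
    | zero => simp
    | add x y hx hy => simp [hx, hy]
    | tmul a a' =>
      have : φ p (a ⊗ₜ a') = p a • a' := by simp [φ, Algebra.smul_def, Algebra.ofId_apply]
      simp [this, show ∀ c, p (algebraMap ℂ A c) = c from p.hom.commutes]
  obtain ⟨p₀, -, -⟩ := exists_vz (⊥ : Ideal A) (h := 1) (by simp)
  have : Nontrivial (A ⊗[ℂ] A') := (φ p₀).toRingHom.domain_nontrivial
  have : NoZeroDivisors (A ⊗[ℂ] A') := ⟨fun {x y} e => by
    by_contra hn
    rw [not_or] at hn
    obtain ⟨i, hi⟩ := Finsupp.ne_iff.1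
      ((map_ne_zero_iff _ (Algebra.TensorProduct.basis A b).repr.injective).2 hn.1)
    obtain ⟨j, hj⟩ := Finsupp.ne_iff.1
      ((map_ne_zero_iff _ (Algebra.TensorProduct.basis A b).repr.injective).2 hn.2)
    obtain ⟨p, -, hp⟩ := exists_vz (⊥ : Ideal A) (h := _ * _) fun h =>
      mul_ne_zero hi hj (Ideal.mem_bot.1 h)
    rw [map_mul, ← key, ← key] at hp
    have := congrArg (φ p) e
    rw [map_mul, map_zero, mul_eq_zero] at this
    rcases this with h | h <;> simp [h] at hp⟩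
  exact NoZeroDivisors.to_isDomain _

theorem spb_cont (a : A) : Continuous fun p : Sp A => p a :=
  (continuous_apply a).comp continuous_induced_dom

theorem spb_emb : IsClosedEmbedding fun (p : Sp A) (a : A) => p a := by
  refine ⟨⟨⟨rfl⟩, DFunLike.coe_injective⟩, ?_⟩
  have : range (fun (p : Sp A) (a : A) => p a) = (⋂ a, ⋂ b, {f : A → ℂ | f (a + b) = f a + f b}) ∩
      (⋂ a, ⋂ b, {f : A → ℂ | f (a * b) = f a * f b}) ∩
        ⋂ c, {f : A → ℂ | f (algebraMap ℂ A c) = c} := by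
    ext f
    simp only [mem_inter_iff, mem_iInter, mem_ofPred_eq]
    constructor
    · rintro ⟨p, rfl⟩
      exact ⟨⟨map_add p, map_mul p⟩, p.hom.commutes⟩
    · rintro ⟨⟨h1, h2⟩, h3⟩
      exact ⟨(⟨⟨⟨⟨f, by simpa using h3 1⟩, h2⟩, by simpa using h3 0, h1⟩, h3⟩ : A →ₐ[ℂ] ℂ), rfl⟩
  rw [this]
  exact ((isClosed_iInter fun a => isClosed_iInter fun b => isClosed_eq (by fun_prop)
    (by fun_prop)).inter (isClosed_iInter fun a => isClosed_iInter fun b => isClosed_eq
      (by fun_prop) (by fun_prop))).inter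
    (isClosed_iInter fun c => isClosed_eq (by fun_prop) (by fun_prop))

theorem spb_root {y : Fin r → A} {a : A} {Q : Polynomial (MvPolynomial (Fin r) ℂ)}
    (h : Q.eval₂ (MvPolynomial.aeval y : MvPolynomial (Fin r) ℂ →ₐ[ℂ] A).toRingHom a = 0)
    (p : Sp A) : (Q.map (MvPolynomial.eval (co y p))).IsRoot (p a) := by
  have e : (p.hom : A →+* ℂ).comp (MvPolynomial.aeval y : MvPolynomial (Fin r) ℂ →ₐ[ℂ] A).toRingHom =
      MvPolynomial.eval (co y p) := by
    ext c <;> simp [co]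
  have := congrArg (p.hom : A →+* ℂ) h
  rw [Polynomial.hom_eval₂, e, map_zero] at this
  rw [Polynomial.IsRoot, Polynomial.eval_map]
  exact this

/-- finite fibres of an integral map -/
theorem spb_fin [Algebra.FiniteType ℂ A] {y : Fin r → A}
    (hi : (MvPolynomial.aeval y : MvPolynomial (Fin r) ℂ →ₐ[ℂ] A).toRingHom.IsIntegral)
    (t : Fin r → ℂ) : (co y ⁻¹' {t}).Finite := by
  obtain ⟨s, hs⟩ := Algebra.FiniteType.out (R := ℂ) (A := A)
  choose Q hQ e using hi
  refine Set.Finite.of_finite_image (f := fun (p : Sp A) (a : s) => p a)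
    ((Set.Finite.pi' fun a : s => Polynomial.finite_setOfPred_isRoot
      ((hQ a).map (MvPolynomial.eval t)).ne_zero).subset ?_) fun p _ q _ h => ?_
  · rintro _ ⟨p, hp, rfl⟩ a
    have := spb_root (e a) p
    rwa [show co y p = t from hp] at this
  · exact AlgHom.ext_of_adjoin_eq_top (φ₁ := p.hom) (φ₂ := q.hom) hs fun a ha =>
      congrFun h ⟨a, ha⟩

theorem spb_cont_co (y : Fin r → A) : Continuous (co y) := continuous_pi fun i => spb_cont (y i)

/-- an integral map is proper -/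
theorem spb_cpt {y : Fin r → A}
    (hi : (MvPolynomial.aeval y : MvPolynomial (Fin r) ℂ →ₐ[ℂ] A).toRingHom.IsIntegral)
    {C : Set (Fin r → ℂ)} (hC : IsCompact C) : IsCompact (co y ⁻¹' C) := by
  have : ∀ a : A, ∃ R : ℝ, ∀ p ∈ co y ⁻¹' C, ‖p a‖ ≤ R := fun a => by
    obtain ⟨Q, hQ, e⟩ := hi a
    obtain ⟨B, hB⟩ := hC.exists_bound_of_continuousOn
      (f := fun t (i : Fin Q.natDegree) => MvPolynomial.eval t (Q.coeff i))
      (continuous_pi fun i => MvPolynomial.continuous_eval _).continuousOn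
    refine ⟨B + 1, fun p hp => root_bound _ (hQ.map _) B ((norm_nonneg _).trans (hB _ hp))
      (fun i hi => ?_) (spb_root e p)⟩
    rw [hQ.natDegree_map] at hi
    rw [Polynomial.coeff_map]
    exact (norm_le_pi_norm (fun i : Fin Q.natDegree => MvPolynomial.eval (co y p) (Q.coeff i))
      ⟨i, hi⟩).trans (hB _ hp)
  choose R hR using this
  exact (spb_emb.isCompact_preimage (isCompact_univ_pi fun a =>
    isCompact_closedBall (0 : ℂ) (R a))).of_isClosed_subset
    (hC.isClosed.preimage (spb_cont_co y)) fun p hp a _ => mem_closedBall_zero_iff.2 (hR a p hp)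

theorem spb_noether [Algebra.FiniteType ℂ A] [IsDomain A] : ∃ (r : ℕ) (y : Fin r → A),
    IsTranscendenceBasis ℂ y ∧
      (MvPolynomial.aeval y : MvPolynomial (Fin r) ℂ →ₐ[ℂ] A).toRingHom.IsIntegral := by
  obtain ⟨s, g, hg, hi⟩ := exists_integral_inj_algHom_of_fg ℂ A
  obtain ⟨y, rfl⟩ : ∃ y, g = MvPolynomial.aeval y := ⟨_, MvPolynomial.aeval_unique g⟩
  refine ⟨s, y, (AlgebraicIndependent.isTranscendenceBasis_iff_isAlgebraic hg).2 ?_, hi⟩
  rw [Algebra.adjoin_range_eq_range_aeval]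
  have : Algebra.IsIntegral (MvPolynomial.aeval y : MvPolynomial (Fin s) ℂ →ₐ[ℂ] A).range A :=
    ⟨RingHom.IsIntegral.tower_top
      (MvPolynomial.aeval y : MvPolynomial (Fin s) ℂ →ₐ[ℂ] A).rangeRestrict.toRingHom _ hi⟩
  infer_instance

theorem exists_noether [Algebra.FiniteType ℂ A] [IsDomain A] : ∃ (r : ℕ) (y : Fin r → A),
    IsTranscendenceBasis ℂ y ∧ (∀ t, (co y ⁻¹' {t}).Finite) ∧
      ∀ C, IsCompact C → IsCompact (co y ⁻¹' C) := by
  obtain ⟨r, y, h, hi⟩ := spb_noether (A := A)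
  exact ⟨r, y, h, spb_fin hi, fun _ => spb_cpt hi⟩

/-- integral extensions keep the dimension -/
theorem spb_dim (R S : Type) [CommRing R] [CommRing S] [Algebra R S] [Algebra.IsIntegral R S]
    [FaithfulSMul R S] : ringKrullDim S = ringKrullDim R := by
  refine le_antisymm (Order.krullDim_le_of_strictMono (PrimeSpectrum.comap (algebraMap R S))
    fun P Q h => Ideal.IsIntegral.comap_lt_comap h) (iSup_le fun l => ?_)
  obtain ⟨P, hP, hl⟩ := Ideal.nonempty_primesOver (S := S) l.head.asIdeal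
  obtain ⟨L, e, -⟩ := Ideal.exists_ltSeries_of_hasGoingUp l P
  rw [← e]
  exact Order.LTSeries.length_le_krullDim L

theorem dim_eq [Algebra.FiniteType ℂ A] [IsDomain A] {y : Fin r → A}
    (hy : IsTranscendenceBasis ℂ y) : ringKrullDim A = r := by
  obtain ⟨s, z, h, hi⟩ := spb_noether (A := A)
  obtain rfl : r = s := by simpa using hy.cardinalMk_eq h
  let : Algebra (MvPolynomial (Fin r) ℂ) A :=
    (MvPolynomial.aeval z : MvPolynomial (Fin r) ℂ →ₐ[ℂ] A).toRingHom.toAlgebra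
  have : Algebra.IsIntegral (MvPolynomial (Fin r) ℂ) A := ⟨hi⟩
  have : FaithfulSMul (MvPolynomial (Fin r) ℂ) A :=
    (faithfulSMul_iff_algebraMap_injective _ _).2 h.1
  rw [spb_dim (MvPolynomial (Fin r) ℂ) A, MvPolynomial.ringKrullDim_of_isNoetherianRing,
    ringKrullDim_eq_zero_of_field]
  simp

end Pool.Agent.Lib.MP_d3d358_ag.Cw
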