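import Pool.Agent.Lib.MP_d3d358_ag.Cw.PntA
import Pool.Agent.Lib.MP_d3d358_ag.Cw.SpB
import Pool.Agent.Lib.MP_d3d358_ag.Cw.Dm

/-! Components of closed sets, thin sets of complex points. -/

set_option autoImplicit false

namespace Pool.Agent.Lib.MP_d3d358_ag.Cw

open CategoryTheory AlgebraicGeometry MonoidalCategory CartesianMonoidalCategory Order Topology Set
  Filter AS

variable {W : Sch} {r : ℕ} [Gd W] {U : W.left.Opens}

theorem dmb_noeth (W : Sch) [Gd W] : IsNoetherian W.left :=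
  { __ := LocallyOfFiniteType.isLocallyNoetherian W.hom }

theorem exists_comp {D : Set W.left} (hD : IsClosed D) : ∃ s : Finset W.left,
    (∀ z, z ∈ s ↔ z ∈ D ∧ ∀ z' ∈ D, z' ⤳ z → z' = z) ∧ ∀ x, x ∈ D ↔ ∃ z ∈ s, z ⤳ x := by
  have := dmb_noeth W
  obtain ⟨S, hS, hc, hi, e⟩ :=
    TopologicalSpace.NoetherianSpace.exists_finite_set_isClosed_irreducible hD
  have := hS.to_subtype
  let g : S → W.left := fun t => (hi t t.2).genericPoint
  have hg : ∀ t : S, IsGenericPoint (g t) t := fun t => (hi t t.2).isGenericPoint_genericPoint (hc t t.2)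
  have hD' : ∀ t, g t ∈ D := fun t => e ▸ ⟨t, t.2, (hg t).mem⟩
  have h1 : ∀ x ∈ D, ∃ t, g t ⤳ x := fun x hx => by
    rw [e] at hx
    obtain ⟨t, ht, hx⟩ := hx
    exact ⟨⟨t, ht⟩, (hg ⟨t, ht⟩).specializes hx⟩
  have hf : {z | z ∈ D ∧ ∀ z' ∈ D, z' ⤳ z → z' = z}.Finite :=
    (finite_range g).subset fun z hz => by
      obtain ⟨t, ht⟩ := h1 z hz.1
      exact ⟨t, hz.2 _ (hD' t) ht⟩
  refine ⟨hf.toFinset, fun z => hf.mem_toFinset, fun x => ⟨fun hx => ?_, ?_⟩⟩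
  · obtain ⟨t, ht⟩ := h1 x hx
    obtain ⟨b, hb, ⟨t', rfl⟩, hm⟩ := (finite_range g).exists_le_maximal (mem_range_self t)
    refine ⟨g t', hf.mem_toFinset.2 ⟨hD' t', fun z' hz' h => ?_⟩, Specializes.trans hb ht⟩
    obtain ⟨u, hu⟩ := h1 z' hz'
    have h2 : g t' ⤳ g u := hm (mem_range_self u) (hu.trans h)
    exact (h.antisymm (h2.trans hu)).eq
  · rintro ⟨z, hz, h⟩
    exact h.mem_closed hD (hf.mem_toFinset.1 hz).1

theorem Kw_nonempty {w : W.left} (hw : w ∈ U) : (Kw w ∩ Kc (U : Set W.left)).Nonempty := by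
  obtain ⟨_, ⟨T, hT, rfl⟩, hwT, hle⟩ :=
    W.left.isBasis_affineOpens.exists_subset_of_mem_open hw U.isOpen
  have := ft_sec hT
  obtain ⟨q, hq, -⟩ := exists_vz (pri hT hwT) (h := 1)
    ((Ideal.ne_top_iff_one _).1 (Ideal.IsPrime.ne_top inferInstance))
  exact ⟨ofSp hT q, ((emb_ofSp hT).spec w hwT q).2 hq, hle (ofSp_mem hT q)⟩

theorem dmb_loc (hU : IsAffineOpen U) {w : W.left} (hw : w ∈ U) :
    ∃ y : Fin (dm w) → Γ(W.left, U), ∀ t,
      (Kw w ∩ Kc (U : Set W.left) ∩ (fun p i => val U (y i) p) ⁻¹' {t}).Finite := by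
  have := ft_sec hU
  obtain ⟨k, y, hy, hf, -⟩ := exists_noether (A := Γ(W.left, U) ⧸ pri hU hw)
  obtain rfl : k = dm w := by
    have e := (dim_eq hy).symm.trans (dm_eq hU hw)
    exact_mod_cast e
  choose y' hy' using fun i => Ideal.Quotient.mk_surjective (y i)
  refine ⟨y', fun t => ((hf t).image
    (ofSp hU ∘ Sp.map (Ideal.Quotient.mkₐ ℂ (pri hU hw)))).subset ?_⟩
  rintro p ⟨⟨h1, h2⟩, h3⟩
  obtain ⟨q, rfl⟩ : p ∈ range (ofSp hU) := (range_ofSp hU).symm ▸ h2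
  have h4 := ((emb_ofSp hU).spec w hw q).1 h1
  let q' : Sp (Γ(W.left, U) ⧸ pri hU hw) := Ideal.Quotient.liftₐ (pri hU hw) q.hom h4
  refine ⟨q', funext fun i => ?_, congrArg (ofSp hU) (DFunLike.ext _ _ fun a => rfl)⟩
  rw [← mem_singleton_iff.1 h3]
  change q' (y i) = val U (y' i) (ofSp hU q)
  rw [val_ofSp, ← hy']
  rfl

theorem thin_Kw (w : W.left) : Thin (Kw w) (dm w + 1) := by
  have hK : IsCompact (Kw w) := by
    refine IsClosed.isCompact ?_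
    have : Kw w = Pnt.pt ⁻¹' closure {w} := Set.ext fun p => specializes_iff_mem_closure
    exact this ▸ isClosed_closure.preimage Pnt.cont_pt
  have key : ∀ p ∈ Kw w, ∃ C ∈ 𝓝 p, IsCompact (Kw w ∩ C) ∧ ∃ m < dm w + 1,
      ∃ f : Pnt W → Fin m → ℂ, ContinuousOn f (Kw w ∩ C) ∧
        ∀ t, (Kw w ∩ C ∩ f ⁻¹' {t}).Finite := fun p hp => by
    obtain ⟨_, ⟨T, hT, rfl⟩, hpT, -⟩ :=
      W.left.isBasis_affineOpens.exists_subset_of_mem_open (mem_univ p.pt) isOpen_univ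
    obtain ⟨y, hy⟩ := dmb_loc hT (w := w) (Specializes.mem_open hp T.isOpen hpT)
    obtain ⟨C, hC, hCT, hc⟩ := local_compact_nhds ((isOpen_Kc T).mem_nhds hpT)
    refine ⟨C, hC, hK.inter_right hc.isClosed, _, Nat.lt_succ_self _, fun p i => val T (y i) p,
      continuousOn_pi.2 fun i q hq => (continuousAt_val (hCT hq.2) _).continuousWithinAt,
      fun t => (hy t).subset fun q hq => ⟨⟨hq.1.1, hCT hq.1.2⟩, hq.2⟩⟩
  choose! C hC h using key
  obtain ⟨s, hs, hcov⟩ := hK.elim_nhds_subcover C hC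
  refine ⟨(fun p => Kw w ∩ C p) '' s, s.finite_toSet.image _, fun p hp => ?_, ?_⟩
  · obtain ⟨q, hq, hp'⟩ := mem_iUnion₂.1 (hcov hp)
    exact ⟨_, ⟨q, hq, rfl⟩, hp, hp'⟩
  · rintro _ ⟨q, hq, rfl⟩
    exact h q (hs q hq)

theorem thin_Kc {D : Set W.left} (hD : IsClosed D) (h : ∀ z ∈ D, dm z < r) : Thin (Kc D) r := by
  obtain ⟨s, h1, h2⟩ := exists_comp hD
  choose S hS hc hm using fun z : W.left => thin_Kw z
  refine ⟨⋃ z ∈ s, S z, s.finite_toSet.biUnion fun z _ => hS z, fun p hp => ?_, fun C hC => ?_⟩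
  · obtain ⟨z, hz, hzp⟩ := (h2 _).1 hp
    obtain ⟨C, hC, hpC⟩ := hc z hzp
    exact ⟨C, mem_iUnion₂.2 ⟨z, hz, hC⟩, hpC⟩
  · obtain ⟨z, hz, hC⟩ := mem_iUnion₂.1 hC
    obtain ⟨h3, m, h4, h5⟩ := hm z C hC
    exact ⟨h3, m, h4.trans_le (h z ((h1 z).1 hz).1), h5⟩

theorem supp_fin (c : Cyc W.left) : (Function.support c).Finite := by
  simpa using c.locallyFiniteSupport.finite_inter_support_of_isCompact isCompact_univ

end Pool.Agent.Lib.MP_d3d358_ag.Cw
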