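import Pool.Agent.Lib.MP_d3d358_ag.Cw.KunA

/-! The Kuenneth theorem for compact sets. -/

set_option autoImplicit false

namespace Pool.Agent.Lib.MP_d3d358_ag.Cw

open Topology Set Filter AS

variable {Z Z' I : Type}

/-- the cross product with a family of cochains -/
noncomputable def kunF (Z : Type) (θ : I → Ch Z' ℚ) : (I →₀ Ch Z ℚ) →ₗ[ℚ] Ch (Z × Z') ℚ :=
  Finsupp.lsum ℚ fun i => LinearMap.mulRight ℚ (pullC Prod.snd (θ i)) ∘ₗ
    (pullC Prod.fst).toLinearMap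

theorem kunF_eq (θ : I → Ch Z' ℚ) {m : I →₀ Ch Z ℚ} {s : Finset I} (hs : m.support ⊆ s) :
    kunF Z θ m = ∑ i ∈ s, pullC Prod.fst (m i) * pullC Prod.snd (θ i) :=
  Finsupp.sum_of_support_subset m hs _ fun _ _ => map_zero _

theorem kunF_mem {dg : I → ℤ} {θ : I → Ch Z' ℚ} (hθ : ∀ i, θ i ∈ DZ (dg i)) {k : ℤ}
    {m : I →₀ Ch Z ℚ} (hm : ∀ i, m i ∈ DZ (k - dg i)) : kunF Z θ m ∈ DZ k := by
  rw [kunF_eq θ subset_rfl]
  refine sum_mem fun i _ => ?_
  have := mul_mem_DZ (pullC_mem (Prod.fst : Z × Z' → Z) (hm i)) (pullC_mem Prod.snd (hθ i))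
  rwa [sub_add_cancel] at this

variable [MetricSpace Z] [MetricSpace Z'] {K : Set Z} {L : Set Z'}

theorem kun_d {F : Set (Z × Z')} (h1 : MapsTo Prod.fst F K) (h2 : MapsTo Prod.snd F L)
    {a : Ch Z ℚ} {t : Ch Z' ℚ} (da : dC a ∈ N K) (dt : dC t ∈ N L) :
    dC (pullC Prod.fst a * pullC Prod.snd t) ∈ N F := by
  rw [dC_mul, dC_pullC, dC_pullC]
  exact add_mem (N_mul_right (N_pullC continuousOn_fst h1 da) _)
    (N_mul_left _ (N_pullC continuousOn_snd h2 dt))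

theorem kunF_mk {F : Set (Z × Z')} (h1 : MapsTo Prod.fst F K) (h2 : MapsTo Prod.snd F L)
    {θ : I → Ch Z' ℚ} (dθ : ∀ i, dC (θ i) ∈ N L) {m : I →₀ Ch Z ℚ} (dm : ∀ i, dC (m i) ∈ N K)
    {s : Finset I} (hs : m.support ⊆ s) : ∃ h, AS.mk (kunF Z θ m) h = ∑ i ∈ s,
      pull Prod.fst continuousOn_fst h1 (AS.mk (m i) (dm i)) *
        pull Prod.snd continuousOn_snd h2 (AS.mk (θ i) (dθ i)) := by
  have h : dC (kunF Z θ m) ∈ N F := by
    rw [kunF_eq θ hs, map_sum]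
    exact sum_mem fun i _ => kun_d h1 h2 (dm i) (dθ i)
  refine ⟨h, ?_⟩
  have e : ∀ i, pull Prod.fst continuousOn_fst h1 (AS.mk (m i) (dm i)) *
      pull Prod.snd continuousOn_snd h2 (AS.mk (θ i) (dθ i)) =
      Ring_mk F ⟨_, kun_d h1 h2 (dm i) (dθ i)⟩ := fun i => (mk_mul _ _ _).symm
  simp only [e, ← map_sum]
  refine congrArg (Ring_mk F) (a₁ := ⟨_, h⟩) (Subtype.ext ?_)
  rw [AddSubmonoidClass.coe_finsetSum]
  exact kunF_eq θ hs

theorem kun_fib {F : Set (Z × Z')} {x : Z} (t : MapsTo (fun z => (x, z)) L F)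
    (h1 : MapsTo Prod.fst F {x}) (h2 : MapsTo Prod.snd F L) (u : HT ℚ F) :
    pull Prod.snd continuousOn_snd h2 (pull (fun z => (x, z)) (by fun_prop) t u) = u := by
  have e : EqOn ((fun z => (x, z)) ∘ Prod.snd) id F := fun v hv => Prod.ext (h1 hv).symm rfl
  rw [pull_pull, pull_congr (hg := continuousOn_id) (hn := mapsTo_id F) e]
  exact res_self u

theorem kun_main (hK : IsCompact K) (hL : IsCompact L) {dg : I → ℤ} {e : I → HT ℚ L}
    (he : KunB L dg e) (k : ℤ) :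
    (∀ x : I →₀ HT ℚ K, (∀ i, x i ∈ Hk K (k - dg i)) →
      ∑ i ∈ x.support, p1 K L (x i) * p2 K L (e i) = 0 → x = 0) ∧
    ∀ u ∈ Hk (K ×ˢ L) k, ∃ (s : Finset I) (x : I → HT ℚ K), (∀ i, x i ∈ Hk K (k - dg i)) ∧
      u = ∑ i ∈ s, p1 K L (x i) * p2 K L (e i) := by
  choose θ dθ hθ eθ using he.mem
  obtain rfl : e = fun i => AS.mk (θ i) (dθ i) := funext eθ
  have key := Th.compare (kunTh (asTh ℚ hK id continuousOn_id) dg he.pos)
    (asTh ℚ (hK.prod hL) Prod.fst continuousOn_fst) (kunF Z θ) ?_ ?_ ?_ hK k ?_ ?_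
  · have s1 : K ∩ id ⁻¹' K ⊆ K := inter_subset_left
    have s2 : K ⊆ K ∩ id ⁻¹' K := fun x hx => ⟨hx, hx⟩
    have s3 : K ×ˢ L ∩ Prod.fst ⁻¹' K ⊆ K ×ˢ L := inter_subset_left
    have s4 : K ×ˢ L ⊆ K ×ˢ L ∩ Prod.fst ⁻¹' K := fun x hx => ⟨hx, hx.1⟩
    refine ⟨fun x hx h0 => ?_, ?_⟩
    · obtain ⟨m, hs, hm⟩ := kun_choose x
        (P := fun i (a : Ch Z ℚ) => ∃ h, a ∈ DZ (k - dg i) ∧ x i = AS.mk a h)
        (fun i h => ⟨(Zs ℚ K).zero_mem, zero_mem _, h.trans (map_zero (Ring_mk K)).symm⟩) hx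
      choose dm hm em using hm
      obtain ⟨h, eh⟩ := kunF_mk (F := K ×ˢ L) (fun _ h => h.1) (fun _ h => h.2) dθ dm hs
      simp only [← em] at eh
      obtain ⟨c, c1, c2⟩ := (mk_eq_zero_iff (kunF_mem hθ hm) h).1 (eh.trans h0)
      obtain ⟨a, -, a2⟩ := key.1 k (by omega) m hm (fun i => N_mono s1 (dm i))
        ⟨c, c1, N_mono s3 c2⟩
      refine Finsupp.ext fun i => (em i).trans ?_
      exact MV_mk_zero_of _ (N_mono s2 (a2 i))
    · rintro _ ⟨c, dc, hc, rfl⟩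
      obtain ⟨m, hm, dm, c', -, c2⟩ := key.2 k le_rfl c hc (N_mono s3 dc)
      change I →₀ Ch Z ℚ at m
      have dm' : ∀ i, dC (m i) ∈ N K := fun i => N_mono s2 (dm i)
      obtain ⟨h, eh⟩ := kunF_mk (F := K ×ˢ L) (fun _ h => h.1) (fun _ h => h.2) dθ dm' subset_rfl
      exact ⟨m.support, fun i => AS.mk (m i) (dm' i), fun i => ⟨_, _, hm i, rfl⟩,
        ((mk_eq_iff dc h).2 ⟨c', N_mono s4 c2⟩).trans eh⟩
  · exact fun k m hm => kunF_mem hθ hm
  · intro S m hm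
    change kunF Z θ m ∈ N (K ×ˢ L ∩ Prod.fst ⁻¹' S)
    rw [kunF_eq θ subset_rfl]
    exact sum_mem fun i _ => N_mul_right (N_pullC (K := K ∩ id ⁻¹' S) continuousOn_fst
      (fun _ h => ⟨h.1.1, h.2⟩) (hm i)) _
  · intro m
    change I →₀ Ch Z ℚ at m
    change kunF Z θ (m.mapRange dC (map_zero _)) - dC (kunF Z θ m) ∈
      N (K ×ˢ L ∩ Prod.fst ⁻¹' univ)
    rw [kunF_eq θ Finsupp.support_mapRange, kunF_eq θ subset_rfl, map_sum,
      ← Finset.sum_sub_distrib]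
    refine sum_mem fun i _ => ?_
    rw [Finsupp.mapRange_apply, dC_mul, dC_pullC, dC_pullC, sub_add_cancel_left]
    exact neg_mem (N_mul_left _ (N_pullC continuousOn_snd (fun _ h => h.1.2) (dθ i)))
  · rintro x hx j - m hm dm ⟨c, -, c2⟩
    change I →₀ Ch Z ℚ at m
    have s1 : K ∩ id ⁻¹' {x} ⊆ {x} := inter_subset_right
    have s2 : {x} ⊆ K ∩ id ⁻¹' {x} := fun y hy => ⟨(hy : y = x) ▸ hx, hy⟩
    have dm' : ∀ i, dC (m i) ∈ N {x} := fun i => N_mono s2 (dm i)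
    obtain ⟨h, eh⟩ := kunF_mk (F := K ×ˢ L ∩ Prod.fst ⁻¹' {x}) (K := {x}) (fun _ h => h.2)
      (fun _ h => h.1.2) dθ dm' subset_rfl
    choose r hr _ using fun i =>
      Leray_cls_pt (⟨m i, dm' i, hm i, rfl⟩ : AS.mk (m i) (dm' i) ∈ Hk {x} (j - dg i))
    have t : MapsTo (fun z => (x, z)) L (K ×ˢ L ∩ Prod.fst ⁻¹' {x}) := fun z hz => ⟨⟨hx, hz⟩, rfl⟩
    have h0 := congrArg (pull (fun z => (x, z)) (by fun_prop) t)
      ((MV_mk_zero_of h c2).symm.trans eh)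
    simp only [hr, map_smul, map_one, smul_mul_assoc, one_mul, map_sum, map_zero, pull_pull] at h0
    have h1 : 0 = ∑ i ∈ m.support, r i • AS.mk (θ i) (dθ i) :=
      h0.trans (Finset.sum_congr rfl fun i _ => congrArg _ (res_self _))
    obtain ⟨a, -, ha⟩ := kun_choose m
      (P := fun i (a : Ch Z ℚ) => a ∈ DZ (j - dg i - 1) ∧ m i - dC a ∈ N {x})
      (fun i h => ⟨zero_mem _, by rw [h, map_zero, sub_zero]; exact zero_mem _⟩) fun i => by
        by_cases hi : i ∈ m.support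
        · obtain ⟨γ, g1, g0⟩ := he.dual i
          have h2 := congrArg γ h1
          rw [map_zero, map_sum, Finset.sum_eq_single_of_mem i hi
            fun l _ hl => by rw [map_smul, g0 l hl, smul_zero], map_smul, g1, smul_eq_mul,
            mul_one] at h2
          exact (mk_eq_zero_iff (hm i) (dm' i)).1 ((hr i).trans (by rw [← h2, zero_smul]))
        · exact ⟨0, zero_mem _, by
            rw [Finsupp.notMem_support_iff.1 hi, map_zero, sub_zero]; exact zero_mem _⟩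
    exact ⟨a, fun i => by beta_reduce; rw [sub_right_comm]; exact (ha i).1, fun i => N_mono s1 (ha i).2⟩
  · intro x hx j _ c hc dc
    change Ch (Z × Z') ℚ at c
    change dC c ∈ N (K ×ˢ L ∩ Prod.fst ⁻¹' {x}) at dc
    have t : MapsTo (fun z => (x, z)) L (K ×ˢ L ∩ Prod.fst ⁻¹' {x}) := fun z hz => ⟨⟨hx, hz⟩, rfl⟩
    obtain ⟨l, l1, l2⟩ := (Finsupp.mem_span_image_iff_linearCombination ℚ).1 (he.span j
      (pull_mem (hf := by fun_prop) (hm := t) (⟨c, dc, hc, rfl⟩ : AS.mk c dc ∈ Hk _ j)))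
    let m : I →₀ Ch Z ℚ := l.mapRange (fun r => r • 1) (zero_smul _ _)
    have hm : ∀ i, m i ∈ DZ (j - dg i) := fun i => by
      change l i • (1 : Ch Z ℚ) ∈ _
      by_cases hi : dg i = j
      · rw [hi, sub_self]; exact Submodule.smul_mem _ _ (fnC_mem 1)
      · rw [(Finsupp.mem_supported' ℚ l).1 l1 i hi, zero_smul]; exact zero_mem _
    have dm : ∀ (S : Set Z) i, dC (m i) ∈ N S := fun S i => by
      change dC (l i • (1 : Ch Z ℚ)) ∈ _
      rw [map_smul, dC_one, smul_zero]; exact zero_mem _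
    obtain ⟨h, eh⟩ := kunF_mk (F := K ×ˢ L ∩ Prod.fst ⁻¹' {x}) (K := {x}) (fun _ h => h.2)
      (fun _ h => h.1.2) dθ (dm _) Finsupp.support_mapRange
    refine ⟨m, hm, dm _, kun_eq hc (kunF_mem hθ hm) (da := dc) (db := h) (Eq.trans ?_ eh.symm)⟩
    have e1 : ∀ i, AS.mk (m i) (dm {x} i) = l i • 1 := fun i => mk_smul _ (Zs ℚ _).one_mem _
    rw [← kun_fib t (fun _ h => h.2) (fun _ h => h.1.2) (AS.mk c dc), ← l2,
      Finsupp.linearCombination_apply, Finsupp.sum, map_sum]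
    simp only [e1, map_smul, map_one, smul_mul_assoc, one_mul]

theorem cross_span (hK : IsCompact K) (hL : IsCompact L) (k : ℤ) : Hk (K ×ˢ L) k ≤
    Submodule.span ℚ {u | ∃ i j, i + j = k ∧ ∃ x ∈ Hk K i, ∃ y ∈ Hk L j,
      u = p1 K L x * p2 K L y} := by
  obtain ⟨I, dg, e, he⟩ := kun_basis L
  intro u hu
  obtain ⟨s, x, hx, rfl⟩ := (kun_main hK hL he k).2 u hu
  exact sum_mem fun i _ => Submodule.subset_span
    ⟨_, _, sub_add_cancel _ _, _, hx i, _, he.mem i, rfl⟩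

theorem kun_indep (hK : IsCompact K) (hL : IsCompact L) {J : Type} {dh : J → ℤ} {g : J → HT ℚ K}
    (hg : KunB K dh g) {dg : I → ℤ} {e : I → HT ℚ L} (he : KunB L dg e) :
    LinearIndependent ℚ fun p : J × I => p1 K L (g p.1) * p2 K L (e p.2) := by
  classical
  refine kun_li fun s c h0 q hq => ?_
  obtain ⟨π, a1, a2⟩ := kun_prj (K ×ˢ L) (dh q.1 + dg q.2)
  let c' : J × I → ℚ := fun p => if dh p.1 + dg p.2 = dh q.1 + dg q.2 then c p else 0
  let G : (I →₀ HT ℚ K) →ₗ[ℚ] HT ℚ (K ×ˢ L) := Finsupp.lsum ℚ fun i =>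
    { toFun := fun u => p1 K L u * p2 K L (e i)
      map_add' := fun u v => by rw [map_add, add_mul]
      map_smul' := fun r u => by rw [map_smul, smul_mul_assoc, RingHom.id_apply] }
  have h1 : G (∑ p ∈ s, Finsupp.single p.2 (c' p • g p.1)) = 0 := by
    rw [← map_zero π, ← h0, map_sum, map_sum]
    refine Finset.sum_congr rfl fun p _ => ?_
    have m : p1 K L (g p.1) * p2 K L (e p.2) ∈ Hk _ (dh p.1 + dg p.2) :=
      mul_mem_Hk (pull_mem (hg.mem _)) (pull_mem (he.mem _))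
    rw [Finsupp.lsum_single, map_smul, map_smul]
    change c' p • (p1 K L (g p.1) * p2 K L (e p.2)) = _
    by_cases hp : dh p.1 + dg p.2 = dh q.1 + dg q.2
    · rw [a1 _ (hp ▸ m)]; simp only [c', if_pos hp]
    · rw [a2 _ hp _ m]; simp only [c', if_neg hp, zero_smul, smul_zero]
  have h2 := (kun_main hK hL he (dh q.1 + dg q.2)).1 _ (fun i => by
    rw [Finsupp.finsetSum_apply]
    refine sum_mem fun p _ => ?_
    rw [Finsupp.single_apply]
    split_ifs with hi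
    · by_cases hp : dh p.1 + dg p.2 = dh q.1 + dg q.2
      · rw [← hp, hi, add_sub_cancel_right]; exact Submodule.smul_mem _ _ (hg.mem _)
      · simp only [c', if_neg hp, zero_smul]; exact zero_mem _
    · exact zero_mem _) h1
  obtain ⟨γ, g1, g0⟩ := hg.dual q.1
  have h3 := congrArg (fun x : I →₀ HT ℚ K => γ (x q.2)) h2
  simp only [Finsupp.finsetSum_apply, map_sum, Finsupp.zero_apply, map_zero] at h3
  rw [Finset.sum_eq_single_of_mem q hq fun p _ hp => ?_, Finsupp.single_eq_same, map_smul, g1,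
    smul_eq_mul, mul_one] at h3
  · simpa only [c', if_true] using h3
  · rw [Finsupp.single_apply]
    split_ifs with hi
    · rw [map_smul, g0 _ fun h => hp (Prod.ext h hi), smul_zero]
    · exact map_zero _

/-- every bilinear map factors through the cross product on homogeneous classes -/
theorem kun_bilin (hK : IsCompact K) (hL : IsCompact L) {V : Type} [AddCommMonoid V] [Module ℚ V]
    (β : HT ℚ K →ₗ[ℚ] HT ℚ L →ₗ[ℚ] V) : ∃ I : HT ℚ (K ×ˢ L) →ₗ[ℚ] V,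
      ∀ i j, ∀ x ∈ Hk K i, ∀ y ∈ Hk L j, I (p1 K L x * p2 K L y) = β x y := by
  obtain ⟨J, dh, g, hg⟩ := kun_basis K
  obtain ⟨I, dg, e, he⟩ := kun_basis L
  obtain ⟨f, hf⟩ := kun_ext (kun_indep hK hL hg he) fun p => β (g p.1) (e p.2)
  refine ⟨f, fun i j x hx y hy => ?_⟩
  have hx' := hg.span i hx
  have hy' := he.span j hy
  clear hx hy
  induction hx' using Submodule.span_induction with
  | zero => simp
  | add _ _ _ _ h h' => simp only [map_add, add_mul, h, h', LinearMap.add_apply]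
  | smul c _ _ h => simp only [map_smul, smul_mul_assoc, h, LinearMap.smul_apply]
  | mem _ h =>
    obtain ⟨a, -, rfl⟩ := h
    induction hy' using Submodule.span_induction with
    | zero => simp
    | add _ _ _ _ h h' => simp only [map_add, mul_add, h, h']
    | smul c _ _ h => simp only [map_smul, mul_smul_comm, h]
    | mem _ h =>
      obtain ⟨b, -, rfl⟩ := h
      exact hf (a, b)

theorem exists_int2 (hK : IsCompact K) (hL : IsCompact L) (φ : HT ℚ L →ₗ[ℚ] ℚ) :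
    ∃ I : HT ℚ (K ×ˢ L) →ₗ[ℚ] HT ℚ K, ∀ i j, ∀ x ∈ Hk K i, ∀ y ∈ Hk L j,
      I (p1 K L x * p2 K L y) = φ y • x :=
  kun_bilin hK hL ((LinearMap.lsmul ℚ (HT ℚ K)).flip.compl₂ φ)

theorem exists_int1 (hK : IsCompact K) (hL : IsCompact L) (φ : HT ℚ K →ₗ[ℚ] ℚ) :
    ∃ I : HT ℚ (K ×ˢ L) →ₗ[ℚ] HT ℚ L, ∀ i j, ∀ x ∈ Hk K i, ∀ y ∈ Hk L j,
      I (p1 K L x * p2 K L y) = φ x • y :=
  kun_bilin hK hL ((LinearMap.lsmul ℚ (HT ℚ L)).comp φ)

end Pool.Agent.Lib.MP_d3d358_ag.Cw
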