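import Pool.Agent.Lib.MP_d3d358_ag.Cw.Rep
import Pool.Agent.Lib.MP_d3d358_ag.Cw.SpB

/-! Integral schemes of finite type over `ℂ` are geometrically integral. -/

set_option autoImplicit false

namespace Pool.Agent.Lib.MP_d3d358_ag.Cw

open CategoryTheory AlgebraicGeometry Limits Topology Set TensorProduct

theorem pg_affine {X : Scheme.{0}} [IsAffine X] [IsIntegral X] (f : X ⟶ Spec (.of ℂ))
    [LocallyOfFiniteType f] : GeometricallyIntegral f := by
  obtain ⟨φ, hφ⟩ := Spec.map_surjective (X.isoSpec.inv ≫ f)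
  have h1 : LocallyOfFiniteType (Spec.map φ) := hφ ▸ inferInstance
  have h2 : φ.hom.FiniteType := (HasRingHomProperty.Spec_iff (P := @LocallyOfFiniteType)).1 h1
  rw [← MorphismProperty.cancel_left_of_respectsIso @GeometricallyIntegral X.isoSpec.inv, ← hφ]
  algebraize [φ.hom]
  refine ⟨geometrically_iff_of_commRing.2 fun K _ _ Y a b h => ?_⟩
  have : IsDomain (Γ(X, ⊤) ⊗[ℂ] K) := isDomain_tensor
  exact IsIntegral.of_isIso ((pullbackSpecIso ℂ Γ(X, ⊤) K).inv ≫ h.isoPullback.inv)

/-- an integral scheme of finite type over `ℂ` is geometrically integral -/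
theorem pg_geo {X : Scheme.{0}} [IsIntegral X] (f : X ⟶ Spec (.of ℂ)) [LocallyOfFiniteType f] :
    GeometricallyIntegral f := by
  refine ⟨fun K _ y Z a b h => ?_⟩
  let ι : ∀ x : X, X.affineCover.X (X.affineCover.idx x) ⟶ X := fun x => X.affineCover.f _
  have cov : ∀ x, x ∈ range (ι x) := X.affineCover.covers
  have int : ∀ x, IsIntegral (pullback a (ι x)) := fun x => by
    have : Nonempty (X.affineCover.X (X.affineCover.idx x)) := ⟨(cov x).choose⟩
    have := isIntegral_of_isOpenImmersion (ι x)
    exact (pg_affine (ι x ≫ f)).1 y _ _ ((IsPullback.of_hasPullback a (ι x)).flip.paste_vert h)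
  have sy : Surjective y := ⟨fun p => ⟨default, Subsingleton.elim (α := PrimeSpectrum ℂ) _ _⟩⟩
  have sa : Surjective a := MorphismProperty.of_isPullback h.flip sy
  let U : X → Z.Opens := fun x => (pullback.fst a (ι x)).opensRange
  have mem : ∀ x z, z ∈ U x ↔ a z ∈ range (ι x) := fun x z =>
    Set.ext_iff.1 (Scheme.Pullback.range_fst a (ι x)) z
  have hU : TopologicalSpace.IsOpenCover U := TopologicalSpace.IsOpenCover.mk
    (eq_top_iff.2 fun z _ => TopologicalSpace.Opens.mem_iSup.2 ⟨a z, (mem _ z).2 (cov _)⟩)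
  have : PreirreducibleSpace Z := PreirreducibleSpace.of_isOpenCover (fun x x' _ hd => by
    obtain ⟨t, h1, h2⟩ := nonempty_preirreducible_inter (ι x).isOpenEmbedding.isOpen_range
      (ι x').isOpenEmbedding.isOpen_range ⟨x, cov x⟩ ⟨x', cov x'⟩
    obtain ⟨z, rfl⟩ := sa.1 t
    have : z ∈ U x ⊓ U x' := ⟨(mem x z).2 h1, (mem x' z).2 h2⟩
    rw [disjoint_iff.1 hd] at this
    exact this) hU fun x => by
      have := (IrreducibleSpace.isIrreducible_univ (pullback a (ι x) : Scheme.{0})).image _
        (pullback.fst a (ι x)).continuous.continuousOn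
      rw [image_univ] at this
      exact Subtype.preirreducibleSpace this.2
  have : IrreducibleSpace Z := ⟨⟨(sa.1 (Classical.arbitrary X)).choose⟩⟩
  have : IsReduced Z := by
    have (z : Z) : _root_.IsReduced (Z.presheaf.stalk z) := by
      obtain ⟨t, x, rfl⟩ : ∃ t, z ∈ U t := ⟨_, (mem _ z).2 (cov _)⟩
      exact isReduced_of_injective _
        (asIso <| (pullback.fst a (ι _)).stalkMap x).commRingCatIsoToRingEquiv.injective
    exact isReduced_of_isReduced_stalk _
  exact isIntegral_of_irreducibleSpace_of_isReduced Z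

variable {V W F : Sch} {f : V ⟶ W} {g : V ⟶ F}

theorem Sq.geo (h : Sq f g) [Gd F] [IsIntegral F.left] : GeometricallyIntegral f.left :=
  MorphismProperty.of_isPullback h.flip (pg_geo F.hom)

theorem Sq.uopen (h : Sq f g) : UniversallyOpen f.left :=
  MorphismProperty.of_isPullback h.flip inferInstance

theorem Sq.flat (h : Sq f g) : Flat f.left :=
  MorphismProperty.of_isPullback h.flip inferInstance

theorem Sq.integral (h : Sq f g) [Gd W] [Gd F] [IsIntegral W.left] [IsIntegral F.left] :
    IsIntegral V.left :=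
  have := h.geo
  have := h.uopen
  have := h.flat
  have := LocallyOfFiniteType.isLocallyNoetherian W.hom
  GeometricallyIntegral.isIntegral_of_isLocallyNoetherian f.left

/-- the generic point of a fibre -/
theorem Sq.generic (h : Sq f g) [Gd W] [Gd F] [IsIntegral F.left] (w : W.left) : ∃ v : V.left,
    (∀ u, (f.left u = w ∧ ∀ u', f.left u' = f.left u → u' ⤳ u → u' = u) ↔ u = v) ∧
      Kw v = Pnt.map f ⁻¹' Kw w := by
  have := h.geo
  have := h.uopen
  have hS := f.left.isIrreducible_preimage f.left.isOpenMap (isIrreducible_singleton (x := w))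
  have hv := hS.isGenericPoint_genericPoint_closure
  generalize hS.genericPoint = v at hv
  rw [← f.left.isOpenMap.preimage_closure_eq_closure_preimage f.left.continuous] at hv
  have key : ∀ u, v ⤳ u ↔ w ⤳ f.left u := fun u =>
    hv.specializes_iff_mem.trans specializes_iff_mem_closure.symm
  have e : f.left v = w := by
    obtain ⟨u, hu⟩ := hS.nonempty
    have hu' : f.left u = w := hu
    exact (((hu' ▸ ((key u).2 (hu' ▸ specializes_rfl)).map f.left.continuous :
      f.left v ⤳ w)).antisymm ((key v).1 specializes_rfl)).eq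
  refine ⟨v, fun u => ⟨fun ⟨h1, h2⟩ => (h2 v (e.trans h1.symm)
    ((key u).2 (h1 ▸ specializes_rfl))).symm, ?_⟩, Set.ext fun p => key p.pt⟩
  rintro rfl
  exact ⟨e, fun u' h1 h2 => (h2.antisymm ((key u').2 ((h1.trans e) ▸ specializes_rfl))).eq⟩

end Pool.Agent.Lib.MP_d3d358_ag.Cw
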