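import Pool.Agent.Lib.MP_d3d358_ag.Cw.PntP
import Pool.Agent.Lib.MP_d3d358_ag.Cw.PntG

/-! Charts of a product. -/

set_option autoImplicit false

namespace Pool.Agent.Lib.MP_d3d358_ag.Cw

open CategoryTheory AlgebraicGeometry Topology Set Filter

variable {V W F : Sch} {r n m : ℕ} {f : V ⟶ W} {g : V ⟶ F}

/-- a map into a product whose two components make regular functions `C¹` does so itself -/
theorem Sq.smooth (h : Sq f g) {E : Type} [NormedAddCommGroup E] [NormedSpace ℂ E] {s : E → Pnt V}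
    {t : E} (hs : ContinuousAt s t)
    (h1 : ∀ u, Rg W ((s t).map f) u → ContDiffAt ℂ 1 (fun x => u ((s x).map f)) t)
    (h2 : ∀ u, Rg F ((s t).map g) u → ContDiffAt ℂ 1 (fun x => u ((s x).map g)) t)
    {u : Pnt V → ℂ} (hu : Rg V (s t) u) : ContDiffAt ℂ 1 (u ∘ s) t := by
  obtain ⟨T, σ, hT, e⟩ := hu
  obtain ⟨A, hA, hx⟩ := exists_affine ((s t).map f).pt
  obtain ⟨B, hB, hx'⟩ := exists_affine ((s t).map g).pt
  have hb : (s t).pt ∈ f.left ⁻¹ᵁ A ⊓ g.left ⁻¹ᵁ B := ⟨hx, hx'⟩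
  have key : ∀ c : Γ(V.left, f.left ⁻¹ᵁ A ⊓ g.left ⁻¹ᵁ B),
      ContDiffAt ℂ 1 (fun x => val _ c (s x)) t := fun c =>
    h.box_ind hA hB (P := fun v => ContDiffAt ℂ 1 (fun x => v (s x)) t)
      (fun v v' hv e' => hv.congr_of_eventuallyEq
        ((hs.eventually (Kc_mem_nhds hb)).mono fun x hx => e' hx))
      (fun a b => (h1 _ (rg_val a hx)).mul (h2 _ (rg_val b hx'))) (fun v v' hv hv' => hv.add hv') c
  obtain ⟨a, b, hb1, -, hab⟩ := exists_div (h.box_affine hA hB) hb hT σ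
  have hb2 := (mem_basicOpen_iff b).1 hb1
  refine ((key a).div (key b) hb2).congr_of_eventuallyEq ?_
  filter_upwards [hs.eventually e, (key b).continuousAt.eventually_ne hb2] with x e1 e2
  exact e1.trans (hab _ e2)

theorem Sq.at (h : Sq f g) {K : Set (Pnt W)} {L : Set (Pnt F)} {p : Pnt V} {y : Pnt W → Fin r → ℂ}
    {y' : Pnt F → Fin m → ℂ} (h1 : At (Rg W) K (p.map f) y) (h2 : At (Rg F) L (p.map g) y') :
    At (Rg V) (Pnt.map f ⁻¹' K ∩ Pnt.map g ⁻¹' L) p
      fun u => Fin.append (y (u.map f)) (y' (u.map g)) := by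
  obtain ⟨U, O, s, c, hp, hr⟩ := h1
  obtain ⟨U', O', s', c', hp', hr'⟩ := h2
  obtain ⟨-, Ψ, hl, hi, hΨ⟩ := isHomeomorph_iff_exists_inverse.1 h.homeo
  have i1 : ∀ a b, (Ψ (a, b)).map f = a := fun a b => congrArg Prod.fst (hi (a, b))
  have i2 : ∀ a b, (Ψ (a, b)).map g = b := fun a b => congrArg Prod.snd (hi (a, b))
  let π : (Fin (r + m) → ℂ) → Fin r → ℂ := fun t i => t (Fin.castAdd m i)
  let π' : (Fin (r + m) → ℂ) → Fin m → ℂ := fun t i => t (Fin.natAdd r i)
  have d : ContDiff ℂ 1 π := by fun_prop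
  have d' : ContDiff ℂ 1 π' := by fun_prop
  have a1 : ∀ a b, π (Fin.append a b) = a := fun a b => funext (Fin.append_left a b)
  have a2 : ∀ a b, π' (Fin.append a b) = b := fun a b => funext (Fin.append_right a b)
  have C : Cd (Pnt.map f ⁻¹' K ∩ Pnt.map g ⁻¹' L) (fun u => Fin.append (y (u.map f)) (y' (u.map g)))
      (Pnt.map f ⁻¹' U ∩ Pnt.map g ⁻¹' U') (π ⁻¹' O ∩ π' ⁻¹' O')
      fun t => Ψ (s (π t), s' (π' t)) :=
    { oU := (c.oU.preimage (Pnt.cont f)).inter (c'.oU.preimage (Pnt.cont g))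
      oO := (c.oO.preimage d.continuous).inter (c'.oO.preimage d'.continuous)
      cy := continuousOn_pi.2 fun i => by
        refine Fin.addCases (fun i => ?_) (fun i => ?_) i
        · simp only [Fin.append_left]
          exact (continuousOn_pi.1 c.cy i).comp (Pnt.cont f).continuousOn fun u hu => ⟨hu.1.1, hu.2.1⟩
        · simp only [Fin.append_right]
          exact (continuousOn_pi.1 c'.cy i).comp (Pnt.cont g).continuousOn
            fun u hu => ⟨hu.1.2, hu.2.2⟩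
      my := fun u hu => by
        simp only [mem_inter_iff, mem_preimage, a1, a2]
        exact ⟨c.my ⟨hu.1.1, hu.2.1⟩, c'.my ⟨hu.1.2, hu.2.2⟩⟩
      cs := hΨ.comp_continuousOn ((c.cs.comp d.continuous.continuousOn fun _ ht => ht.1).prodMk
        (c'.cs.comp d'.continuous.continuousOn fun _ ht => ht.2))
      ms := fun t ht => by
        simp only [mem_inter_iff, mem_preimage, i1, i2]
        exact ⟨⟨(c.ms ht.1).1, (c'.ms ht.2).1⟩, (c.ms ht.1).2, (c'.ms ht.2).2⟩
      li := fun u hu => by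
        rw [a1, a2, c.li _ ⟨hu.1.1, hu.2.1⟩, c'.li _ ⟨hu.1.2, hu.2.2⟩]
        exact hl u
      ri := fun t ht => by
        rw [i1, i2, c.ri _ ht.1, c'.ri _ ht.2]
        exact Fin.append_castAdd_natAdd }
  refine ⟨_, _, _, C, ⟨⟨hp.1, hp'.1⟩, hp.2, hp'.2⟩, fun q hq => ?_⟩
  obtain ⟨r1, r2⟩ := hr _ ⟨hq.1.1, hq.2.1⟩
  obtain ⟨r1', r2'⟩ := hr' _ ⟨hq.1.2, hq.2.2⟩
  refine ⟨fun i => ?_, fun u hu => ?_⟩
  · refine Fin.addCases (fun i => ?_) (fun i => ?_) i
    · simp only [Fin.append_left]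
      exact (r1 i).comp f
    · simp only [Fin.append_right]
      exact (r1' i).comp g
  · have e := C.li q hq
    refine h.smooth (C.cs.continuousAt (C.oO.mem_nhds (C.my hq))) (fun v hv => ?_) (fun v hv => ?_)
      (by rw [e]; exact hu)
    · rw [e] at hv
      simp only [i1]
      exact ContDiffAt.comp (g := v ∘ s) _ (by rw [a1]; exact r2 v hv) d.contDiffAt
    · rw [e] at hv
      simp only [i2]
      exact ContDiffAt.comp (g := v ∘ s') _ (by rw [a2]; exact r2' v hv) d'.contDiffAt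

theorem Sq.mf (h : Sq f g) [Gd W] [Gd F] (h1 : Mf W n) (h2 : Mf F m) : Mf V (n + m) where
  int := have := h1.int; have := h2.int; h.integral
  pos := Nat.add_pos_left h1.pos m
  cht p := by
    obtain ⟨y, hy⟩ := h1.cht (p.map f)
    obtain ⟨y', hy'⟩ := h2.cht (p.map g)
    have := h.at hy hy'
    rw [preimage_univ, preimage_univ, univ_inter] at this
    exact ⟨_, this⟩

end Pool.Agent.Lib.MP_d3d358_ag.Cw
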