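import Pool.Agent.Lib.MP_d3d358_ag.Cw.Fnd
import Pool.Agent.Lib.MP_d3d358_ag.Cw.DmB
import Pool.Agent.Lib.MP_d3d358_ag.Cw.PntQ
import Pool.Agent.Lib.MP_d3d358_ag.Cw.PntG
import Pool.Agent.Lib.MP_d3d358_ag.Cw.Kun
import Pool.Agent.Lib.MP_d3d358_ag.Cw.Tr

/-! Integration over the pull back of a cycle along a projection. -/

set_option autoImplicit false

namespace Pool.Agent.Lib.MP_d3d358_ag.Cw

open CategoryTheory AlgebraicGeometry MonoidalCategory CartesianMonoidalCategory Order Topology Set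
  Filter AS

section Top
variable {Z Z₁ Z₂ : Type} [MetricSpace Z] [MetricSpace Z₁] [MetricSpace Z₂]

theorem pul_chart {R : Z → (Z → ℂ) → Prop} {K : Set Z} {r : ℕ} {φ : HT ℚ K →ₗ[ℚ] ℚ}
    (h : Fund R K r φ) (hn : K.Nonempty) : ∃ p, ∃ y : Z → Fin r → ℂ, At R K p y := by
  obtain ⟨B, -, -, -, d, c⟩ := h.bad
  obtain ⟨p, hp⟩ := closure_nonempty_iff.1 (hn.mono d)
  exact ⟨p, c p hp⟩

theorem pul_append {r m : ℕ} (a c : Fin r → ℂ) (b d : Fin m → ℂ) :
    Fin.append a b - Fin.append c d = Fin.append (a - c) (b - d) := by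
  funext i
  refine Fin.addCases (fun i => ?_) (fun i => ?_) i <;> simp

/-- Fubini for fundamental functionals -/
theorem pul_top {R : Z → (Z → ℂ) → Prop} {R₁ : Z₁ → (Z₁ → ℂ) → Prop} {R₂ : Z₂ → (Z₂ → ℂ) → Prop}
    {M : Set Z} {K : Set Z₁} {L : Set Z₂} {n r m : ℕ} {Φ : HT ℚ M →ₗ[ℚ] ℚ} {φ : HT ℚ K →ₗ[ℚ] ℚ}
    {ψ : HT ℚ L →ₗ[ℚ] ℚ} (hM : Fund R M n Φ) (hK : Fund R₁ K r φ) (hL : Fund R₂ L m ψ)
    (nK : K.Nonempty) (nL : L.Nonempty) {a : Z → Z₁} {b : Z → Z₂}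
    (he : IsHomeomorph fun p => (a p, b p)) (e : M = a ⁻¹' K ∩ b ⁻¹' L)
    (hat : ∀ p (y : Z₁ → Fin r → ℂ) (y' : Z₂ → Fin m → ℂ), At R₁ K (a p) y → At R₂ L (b p) y' →
      At R M p fun u => Fin.append (y (a u)) (y' (b u)))
    (ha : ContinuousOn a M) (ma : MapsTo a M K) (hb : ContinuousOn b M) (mb : MapsTo b M L)
    {i j : ℤ} {x : HT ℚ K} {y : HT ℚ L} (hx : x ∈ Hk K i) (hy : y ∈ Hk L j) :
    Φ (pull a ha ma x * pull b hb mb y) = φ x * ψ y := by
  obtain rfl : r + m = n := by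
    obtain ⟨p₁, y₁, h₁⟩ := pul_chart hK nK
    obtain ⟨p₂, y₂, h₂⟩ := pul_chart hL nL
    obtain ⟨p, hp⟩ := he.surjective (p₁, p₂)
    obtain ⟨rfl, rfl⟩ := Prod.mk.inj hp
    exact hM.size (hat p y₁ y₂ h₁ h₂)
  have hm := mul_mem_Hk (pull_mem (hf := ha) (hm := ma) hx) (pull_mem (hf := hb) (hm := mb) hy)
  by_cases hij : i + j = 2 * ((r + m : ℕ) : ℤ)
  swap
  · rw [hM.deg _ hij _ hm]
    by_cases hi : i = 2 * r
    · rw [hL.deg j (fun hj => hij (by rw [hi, hj]; push_cast; ring)) y hy, mul_zero]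
    · rw [hK.deg i hi x hx, zero_mul]
  rw [hij] at hm
  obtain ⟨I, hI⟩ := exists_int1 hK.cpt hL.cpt φ
  let H := he.homeomorph
  have mH : MapsTo (fun p => (a p, b p)) M (K ×ˢ L) := fun p hp => ⟨ma hp, mb hp⟩
  have sa : ∀ q, a (H.symm q) = q.1 := fun q => congrArg Prod.fst (H.apply_symm_apply q)
  have sb : ∀ q, b (H.symm q) = q.2 := fun q => congrArg Prod.snd (H.apply_symm_apply q)
  have mS : MapsTo H.symm (K ×ˢ L) M := fun q hq => by
    rw [e]
    exact ⟨show a _ ∈ K from sa q ▸ hq.1, show b _ ∈ L from sb q ▸ hq.2⟩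
  let Ψ : HT ℚ M →ₗ[ℚ] ℚ := ψ ∘ₗ I ∘ₗ (pull H.symm H.symm.continuous.continuousOn mS).toLinearMap
  have hΨ : ∀ i j, ∀ x ∈ Hk K i, ∀ y ∈ Hk L j,
      Ψ (pull a ha ma x * pull b hb mb y) = φ x * ψ y := fun i j x hx y hy => by
    have e1 : pull H.symm H.symm.continuous.continuousOn mS (pull a ha ma x) = p1 K L x :=
      (pull_pull x).trans (pull_congr (fun q _ => sa q) x)
    have e2 : pull H.symm H.symm.continuous.continuousOn mS (pull b hb mb y) = p2 K L y :=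
      (pull_pull y).trans (pull_congr (fun q _ => sb q) y)
    change ψ (I (pull H.symm H.symm.continuous.continuousOn mS _)) = _
    rw [map_mul, e1, e2, hI i j x hx y hy, map_smul, smul_eq_mul]
  obtain ⟨B₁, c₁, s₁, t₁, -, a₁⟩ := hK.bad
  obtain ⟨B₂, c₂, s₂, t₂, -, a₂⟩ := hL.bad
  have inj : Function.Injective fun p => (b p, a p) := fun p q h =>
    he.injective (Prod.ext (Prod.mk.inj h).2 (Prod.mk.inj h).1)
  have T₁ := (t₁.prod hL.thin).preimage hM.cpt (ha.prodMk hb) fun z =>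
    ((finite_singleton z).preimage he.injective.injOn).subset inter_subset_right
  have T₂ := (t₂.prod hK.thin).preimage hM.cpt (hb.prodMk ha) fun z =>
    ((finite_singleton z).preimage inj.injOn).subset inter_subset_right
  rw [add_comm m r] at T₂
  have C₁ : IsCompact (M ∩ (fun p => (a p, b p)) ⁻¹' B₁ ×ˢ L) := hM.cpt.of_isClosed_subset
    ((ha.prodMk hb).preimage_isClosed_of_isClosed hM.cpt.isClosed (c₁.prod hL.cpt).isClosed)
    inter_subset_left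
  have C₂ : IsCompact (M ∩ (fun p => (b p, a p)) ⁻¹' B₂ ×ˢ K) := hM.cpt.of_isClosed_subset
    ((hb.prodMk ha).preimage_isClosed_of_isClosed hM.cpt.isClosed (c₂.prod hK.cpt).isClosed)
    inter_subset_left
  have key := hM.ext (C₁.union C₂) (T₁.union T₂) Ψ 1 (fun p hp => ?_) _ hm
  · rw [← hΨ i j x hx y hy, key, one_mul]
  obtain ⟨y₁, h₁⟩ := a₁ (a p) ⟨ma hp.1, fun h => hp.2 (Or.inl ⟨hp.1, h, mb hp.1⟩)⟩
  obtain ⟨y₂, h₂⟩ := a₂ (b p) ⟨mb hp.1, fun h => hp.2 (Or.inr ⟨hp.1, h, ma hp.1⟩)⟩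
  refine ⟨_, hat p y₁ y₂ h₁ h₂, fun u hu => ?_⟩
  obtain ⟨x₁, u₁⟩ := h₁.cht.exists_isPt
  obtain ⟨x₂, u₂⟩ := h₂.cht.exists_isPt
  have e3 := (Lc.prod u₁ u₂).pull (ha.prodMk hb) mH (S := {p}) (x := fun _ => u) (by
    ext q
    simp only [Finset.coe_singleton, mem_singleton_iff, mem_inter_iff, mem_preimage]
    exact ⟨fun h => by rw [h]; exact ⟨hp.1, rfl⟩, fun h => he.injective h.2⟩) fun q hq => by
      obtain rfl := Finset.mem_singleton.1 hq
      rw [map_mul, pullC_pullC, pullC_pullC, pullC_jc, pullC_jc, ← jc_append]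
      have hu' : Lc M q (jc fun z => Fin.append (y₁ (a z)) (y₂ (b z)) -
        Fin.append (y₁ (a q)) (y₂ (b q))) u := hu
      simp only [pul_append] at hu'
      exact hu'
  have e4 : pull _ (ha.prodMk hb) mH (p1 K L x₁) = pull a ha ma x₁ := pull_pull x₁
  have e5 : pull _ (ha.prodMk hb) mH (p2 K L x₂) = pull b hb mb x₂ := pull_pull x₂
  rw [Finset.sum_singleton, map_mul, e4, e5] at e3
  rw [← e3]
  refine (hΨ _ _ x₁ u₁.mem x₂ u₂.mem).trans ?_
  rw [hK.val _ _ _ h₁ u₁, hL.val _ _ _ h₂ u₂, one_mul]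

end Top

theorem pul_res {Z Z' : Type} [TopologicalSpace Z] [TopologicalSpace Z'] {K : Set Z} {M : Set Z'}
    {f : Z' → Z} (hf : Continuous f) (hm : MapsTo f M K) (x : HT ℚ (univ : Set Z)) :
    res (subset_univ M) (pull f hf.continuousOn (mapsTo_univ _ _) x) =
      pull f hf.continuousOn hm (res (subset_univ K) x) :=
  (pull_pull x).trans (pull_pull (f := id) x).symm

variable {V W F : Sch}

theorem pul_gen (W : Sch) [IsIntegral W.left] : ∃ η : W.left, ∀ x, η ⤳ x :=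
  ⟨genericPoint W.left, fun x => (genericPoint_spec W.left).specializes (mem_univ x)⟩

theorem pul_Kw {η : W.left} (h : ∀ x, η ⤳ x) (p : Pnt W) : p ∈ Kw η := h _

theorem pul_nonempty [Gd W] (w : W.left) : (Kw w).Nonempty :=
  (Kw_nonempty (U := ⊤) (w := w) trivial).mono inter_subset_left

theorem Sq.phi {f : V ⟶ W} {g : V ⟶ F} (h : Sq f g) [Gd V] [Gd W] [Gd F] [IsIntegral F.left]
    {w : W.left} {v : V.left} (hv : Kw v = Pnt.map f ⁻¹' Kw w) {i j : ℤ} {x : HW W} {y : HW F}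
    (hx : x ∈ Hd W i) (hy : y ∈ Hd F j) : Phi v (pb f x * pb g y) = Phi w x * tp F y := by
  obtain ⟨η, hη⟩ := pul_gen F
  have e : Kw v = Pnt.map f ⁻¹' Kw w ∩ Pnt.map g ⁻¹' Kw η :=
    hv.trans (inter_eq_left.2 fun p _ => pul_Kw hη (p.map g)).symm
  have m1 : MapsTo (Pnt.map f) (Kw v) (Kw w) := fun p hp => (e.le hp).1
  have m2 : MapsTo (Pnt.map g) (Kw v) (Kw η) := fun p hp => (e.le hp).2
  have hx' : res (subset_univ (Kw w)) x ∈ Hk (Kw w) i := pull_mem hx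
  have hy' : res (subset_univ (Kw η)) y ∈ Hk (Kw η) j := pull_mem hy
  have key : Cw.phi v (pull (Pnt.map f) (Pnt.cont f).continuousOn m1 (res (subset_univ _) x) *
      pull (Pnt.map g) (Pnt.cont g).continuousOn m2 (res (subset_univ _) y)) =
      Cw.phi w (res (subset_univ _) x) * Cw.phi η (res (subset_univ _) y) :=
    pul_top (fund v) (fund w) (fund η) (pul_nonempty w) (pul_nonempty η) h.homeo e
      (fun p y y' h1 h2 => by rw [e]; exact h.at h1 h2) _ m1 _ m2 hx' hy'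
  rw [← pul_res (Pnt.cont f), ← pul_res (Pnt.cont g), ← map_mul] at key
  rw [tp_eq hη]
  exact key

theorem Sq.tp {f : V ⟶ W} {g : V ⟶ F} (h : Sq f g) [Gd V] [Gd W] [Gd F] [IsIntegral W.left]
    [IsIntegral F.left] {i j : ℤ} {x : HW W} {y : HW F} (hx : x ∈ Hd W i) (hy : y ∈ Hd F j) :
    tp V (pb f x * pb g y) = tp W x * tp F y := by
  have := h.integral
  obtain ⟨v, hv⟩ := pul_gen V
  obtain ⟨w, hw⟩ := pul_gen W
  rw [tp_eq hv, tp_eq hw]
  exact h.phi (Set.ext fun p => ⟨fun _ => pul_Kw hw _, fun _ => pul_Kw hv _⟩) hx hy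

theorem Pull.ev {f : V ⟶ W} {g : V ⟶ F} (h : Sq f g) [Gd V] [Gd W] [Gd F] [IsIntegral F.left]
    {a : Cyc W.left} {b : Cyc V.left} (hp : Pull f.left a b) {i j : ℤ} {x : HW W} {y : HW F}
    (hx : x ∈ Hd W i) (hy : y ∈ Hd F j) : ev b (pb f x * pb g y) = ev a x * tp F y := by
  choose σ hσ hK using h.generic
  have h1 : ∀ w, f.left (σ w) = w := fun w => ((hσ w _).2 rfl).1
  have h2 : ∀ w, b (σ w) = a w := fun w => ((hp _).1 ((hσ w _).2 rfl).2).trans (by rw [h1])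
  have h3 : ∀ v, b v ≠ 0 → v ∈ range σ := fun v hv => by
    refine ⟨f.left v, ((hσ _ v).1 ⟨rfl, fun u e s => by_contra fun hne => ?_⟩).symm⟩
    exact hv ((hp v).2 ⟨u, e, s, hne⟩)
  rw [ev_apply, ev_apply, finsum_mul, ← finsum_mem_univ,
    finsum_mem_inter_support_eq' _ univ (range σ) fun v hv =>
      ⟨fun _ => h3 v (left_ne_zero_of_mul hv), fun _ => trivial⟩,
    finsum_mem_range (Function.LeftInverse.injective h1)]
  exact finsum_congr fun w => by rw [h2, h.phi (hK w) hx hy, mul_assoc]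

end Pool.Agent.Lib.MP_d3d358_ag.Cw
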