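import Pool.Agent.Lib.MP_d3d358_ag.Cw.PntK
import Pool.Agent.Lib.MP_d3d358_ag.Cw.Div
import Pool.Agent.Lib.MP_d3d358_ag.Cw.Pul
import Pool.Agent.Lib.MP_d3d358_ag.Cw.Int
import Pool.Agent.Lib.MP_d3d358_ag.Cw.PD
import Pool.Agent.Lib.MP_d3d358_ag.Cw.Comm

/-! Classes of cycles. -/

set_option autoImplicit false

namespace Pool.Agent.Lib.MP_d3d358_ag.Cw

open CategoryTheory AlgebraicGeometry MonoidalCategory CartesianMonoidalCategory Order Topology Set
  Filter AS

variable {V W F : Sch} {n : ℕ}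

theorem cls_evn {k : ℤ} {α : HW W} (h : α ∈ Hd W (2 * k)) : α ∈ Evn W :=
  Submodule.mem_iSup_of_mem k h

theorem cls_ind {p : HW W → Prop} {α : HW W} (h : α ∈ Evn W)
    (mem : ∀ k : ℤ, ∀ x ∈ Hd W (2 * k), p x) (zero : p 0) (add : ∀ x y, p x → p y → p (x + y)) :
    p α :=
  Submodule.iSup_induction (motive := p) (fun k : ℤ => Hd W (2 * k)) h mem zero add

theorem cls_sum_mul {ι : Type} (s : Finset ι) (f : ι → HW W) (u : HW W) :
    (∑ i ∈ s, f i) * u = ∑ i ∈ s, f i * u := Finset.sum_mul s f u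

theorem cls_mul_sum {ι : Type} (s : Finset ι) (f : ι → HW W) (u : HW W) :
    u * ∑ i ∈ s, f i = ∑ i ∈ s, u * f i := Finset.mul_sum s f u

theorem evn_comm {α : HW W} (h : α ∈ Evn W) {k : ℤ} {u : HW W} (hu : u ∈ Hd W k) :
    α * u = u * α :=
  cls_ind (p := fun α => α * u = u * α) h (fun j _ hx => comm_even (even_two_mul j) hx hu)
    (by rw [zero_mul, mul_zero]) fun x y hx hy => by rw [add_mul, mul_add, hx, hy]

theorem evn_mul {α β : HW W} (h : α ∈ Evn W) (h' : β ∈ Evn W) : α * β ∈ Evn W :=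
  cls_ind (p := fun α => α * β ∈ Evn W) h
    (fun i x hx => cls_ind (p := fun β => x * β ∈ Evn W) h'
      (fun j y hy => cls_evn (k := i + j) (by rw [mul_add]; exact mul_mem_Hk hx hy))
      (by rw [mul_zero]; exact zero_mem _) fun y z hy hz => by rw [mul_add]; exact add_mem hy hz)
    (by rw [zero_mul]; exact zero_mem _) fun x y hx hy => by rw [add_mul]; exact add_mem hx hy

theorem evn_pb (f : V ⟶ W) {α : HW W} (h : α ∈ Evn W) : pb f α ∈ Evn V :=
  cls_ind (p := fun α => pb f α ∈ Evn V) h (fun _ _ hx => cls_evn (pb_mem f hx))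
    (by rw [map_zero]; exact zero_mem _) fun x y hx hy => by rw [map_add]; exact add_mem hx hy

variable [Gd W]

theorem cls_tp (h : Mf W n) {k : ℤ} (hk : k ≠ 2 * n) {u : HW W} (hu : u ∈ Hd W k) : tp W u = 0 :=
  h.man.fund.deg k hk u hu

/-- the classes of the points -/
theorem cls_pt (h : Mf W n) : ∃ γ : W.left → HW W, ∀ w, γ w ∈ Hd W (2 * n - 2 * dm w) ∧
    ∀ k, ∀ u ∈ Hd W k, Phi w u = tp W (γ w * u) := by
  choose γ h1 h2 using fun w : W.left => pd_rep h.man (Phi w) (2 * dm w)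
  refine ⟨γ, fun w => ⟨h1 w, fun k u hu => ?_⟩⟩
  by_cases e : k = 2 * dm w
  · exact h2 w u (e ▸ hu)
  · rw [Phi_deg w e hu, cls_tp h (by omega) (mul_mem_Hk (h1 w) hu)]

theorem cls_rep {γ : W.left → HW W} (hγ : ∀ w, γ w ∈ Hd W (2 * n - 2 * dm w) ∧
    ∀ k, ∀ u ∈ Hd W k, Phi w u = tp W (γ w * u)) (c : Cyc W.left) :
    Rep c (∑ w ∈ (supp_fin c).toFinset, c w • γ w) := by
  refine ⟨Submodule.sum_mem _ fun w _ => Submodule.smul_mem _ _
    (cls_evn (k := n - dm w) (by rw [mul_sub]; exact (hγ w).1)), fun k u hu => ?_⟩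
  rw [ev_apply, finsum_eq_sum_of_support_subset (s := (supp_fin c).toFinset) _ fun w hw => by
    simpa using left_ne_zero_of_mul hw, cls_sum_mul, map_sum]
  refine Finset.sum_congr rfl fun w _ => ?_
  rw [smul_mul_assoc, map_smul, smul_eq_mul, (hγ w).2 k u hu]

theorem exists_rep (h : Mf W n) (c : Cyc W.left) : ∃ α, Rep c α :=
  let ⟨_, hγ⟩ := cls_pt h
  ⟨_, cls_rep hγ c⟩

theorem exists_rep_deg (h : Mf W n) {c : Cyc W.left} {d : ℕ} (hc : ∀ w, c w ≠ 0 → height w = d) :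
    ∃ α ∈ Hd W (2 * n - 2 * d), Rep c α := by
  obtain ⟨γ, hγ⟩ := cls_pt h
  refine ⟨_, Submodule.sum_mem _ fun w hw => Submodule.smul_mem _ _ ?_, cls_rep hγ c⟩
  have e : dm w = d := by rw [dm, hc w (by simpa using hw)]; rfl
  exact e ▸ (hγ w).1

theorem cls_zero (h : Mf W n) {δ : HW W} (hδ : δ ∈ Evn W)
    (h0 : ∀ k, ∀ u ∈ Hd W k, tp W (δ * u) = 0) : δ = 0 := by
  obtain ⟨f, hf, rfl⟩ := (Submodule.mem_iSup_iff_exists_finsupp _ _).1 hδ
  refine Finset.sum_eq_zero fun j hj => pd_zero h.man (hf j) fun y hy => ?_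
  have := h0 _ y hy
  rw [Finsupp.sum, cls_sum_mul, map_sum, Finset.sum_eq_single_of_mem j hj fun i _ hi =>
    cls_tp h (by omega) (mul_mem_Hk (hf i) hy)] at this
  rwa [← evn_comm (cls_evn (hf j)) hy]

theorem Rep.eq (h : Mf W n) {c : Cyc W.left} {α β : HW W} (h1 : Rep c α) (h2 : Rep c β) :
    α = β := by
  have e : α + (-1 : ℚ) • β = 0 :=
    cls_zero h (add_mem h1.1 (Submodule.smul_mem _ _ h2.1)) fun k u hu => by
      rw [add_mul, smul_mul_assoc, map_add, map_smul, ← h1.2 k u hu, ← h2.2 k u hu]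
      simp
  rwa [Algebra.smul_def, map_neg, map_one, neg_one_mul, add_neg_eq_zero] at e

theorem Rep.rat {a b : Cyc W.left} (h : Rat a b) {α : HW W} : Rep a α ↔ Rep b α :=
  and_congr_right fun _ => forall₃_congr fun _ _ hu => by rw [h.ev hu]

theorem Rep.pull {f : V ⟶ W} {g : V ⟶ F} (h : Sq f g) [Gd V] [Gd F] [IsIntegral W.left]
    [IsIntegral F.left] {a : Cyc W.left} {b : Cyc V.left} (hp : Pull f.left a b) {α : HW W}
    (ha : Rep a α) : Rep b (pb f α) := by
  refine ⟨evn_pb f ha.1, fun k u hu => ?_⟩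
  have hs := h.span k hu
  clear hu
  induction hs using Submodule.span_induction with
  | mem u hu =>
    obtain ⟨i, j, -, x, hx, y, hy, rfl⟩ := hu
    rw [Pull.ev h hp hx hy, ha.2 i x hx, ← mul_assoc, ← map_mul]
    exact cls_ind (p := fun α => tp W (α * x) * tp F y = tp V (pb f (α * x) * pb g y)) ha.1
      (fun _ _ hz => (h.tp (mul_mem_Hk hz hx) hy).symm) (by simp) fun z z' hz hz' => by
        simp only [add_mul, map_add, hz, hz']
  | zero => simp
  | add x y _ _ hx hy => rw [map_add, mul_add, map_add, hx, hy]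
  | smul c x _ hx => rw [map_smul, mul_smul_comm, map_smul, hx]

theorem cls_cap (h : Mf W n) {a b c : Cyc W.left} (hm : Cap a b c) {α β : HW W} (ha : Rep a α)
    (hb : Rep b β) : Rep c (α * β) := by
  classical
  obtain ⟨γ, hγ⟩ := cls_pt h
  refine ⟨evn_mul ha.1 hb.1, fun k u hu => ?_⟩
  rw [ha.eq h (cls_rep hγ a), hb.eq h (cls_rep hγ b)]
  set S := (supp_fin a).toFinset
  set T := (supp_fin b).toFinset
  have hS : ∀ x, x ∈ S ↔ a x ≠ 0 := fun x => by simp [S]
  have hT : ∀ x, x ∈ T ↔ b x ≠ 0 := fun x => by simp [T]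
  have key : ∀ x ∈ S, ∀ y ∈ T, {z | Meet x y z}.Finite ∧
      ∑ᶠ (z : W.left) (_ : Meet x y z), Phi z u = tp W (γ x * γ y * u) := fun x hx y hy =>
    cap_phi h (fun z => hm.1 x y z ((hS x).1 hx) ((hT y).1 hy)) (hγ x).1 (hγ y).1
      ((hγ x).2 _) ((hγ y).2 _) hu
  have hc : ∀ z, c z * Phi z u =
      ∑ x ∈ S, ∑ y ∈ T, a x * b y * if Meet x y z then Phi z u else 0 := fun z => by
    rw [hm.2 z, finsum_eq_sum_of_support_subset (s := S) _ fun x hx => ?_, Finset.sum_mul]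
    · refine Finset.sum_congr rfl fun x _ => ?_
      rw [finsum_eq_sum_of_support_subset (s := T) _ fun y hy => ?_, Finset.sum_mul]
      · exact Finset.sum_congr rfl fun y _ => by split_ifs <;> simp
      · exact (hT y).2 fun e => hy (by simp [e])
    · exact (hS x).2 fun e => hx (by simp [e])
  have fin : ∀ x ∈ S, ∀ y ∈ T, (Function.support fun z =>
      a x * b y * if Meet x y z then Phi z u else 0).Finite := fun x hx y hy =>
    (key x hx y hy).1.subset fun z hz => by_contra fun e => hz (by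
      simp only [if_neg (show ¬Meet x y z from e), mul_zero])
  rw [ev_apply, finsum_congr hc, finsum_sum_comm _ _ fun x hx => ?_, cls_sum_mul, cls_sum_mul,
    map_sum]
  · refine Finset.sum_congr rfl fun x hx => ?_
    rw [finsum_sum_comm _ _ (fin x hx), cls_mul_sum, cls_sum_mul, map_sum]
    refine Finset.sum_congr rfl fun y hy => ?_
    rw [smul_mul_smul_comm, smul_mul_assoc, map_smul, smul_eq_mul, ← (key x hx y hy).2,
      mul_finsum]
    exact finsum_congr fun z => by rw [finsum_eq_if]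
  · exact (T.finite_toSet.biUnion (fin x hx)).subset (Finset.support_sum _ _)

theorem Rep.mul (h : Mf W n) {a b c : Cyc W.left} (hm : Mul a b c) {α β : HW W} (ha : Rep a α)
    (hb : Rep b β) : Rep c (α * β) :=
  let ⟨_, _, _, h1, h2, h3, h4⟩ := hm
  (Rep.rat h4).2 (cls_cap h h3 ((Rep.rat h1).1 ha) ((Rep.rat h2).1 hb))

end Pool.Agent.Lib.MP_d3d358_ag.Cw
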