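import Pool.Agent.Lib.MP_d3d358_ag.Cw.LdD

/-! The finite model at a prime of height one (Zariski's main theorem). -/

set_option autoImplicit false

namespace Pool.Agent.Lib.MP_d3d358_ag.Cw

open Topology Set Filter TensorProduct

variable {A : Type} [CommRing A] [Algebra ℂ A] {r : ℕ}

theorem ldz_mk (P : Ideal A) (y : Fin r → A) (f : MvPolynomial (Fin r) ℂ) :
    MvPolynomial.aeval (Ideal.Quotient.mk P ∘ y) f =
      Ideal.Quotient.mk P (MvPolynomial.aeval y f) :=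
  (MvPolynomial.comp_aeval_apply y (Ideal.Quotient.mkₐ ℂ P) f).symm

/-- a non zero ideal meets the algebra generated by `y` if it has an algebraic element -/
theorem ldz_meet [IsDomain A] {y : Fin r → A} {I : Ideal A} {x : A} (hx : x ∈ I) (x0 : x ≠ 0)
    (h : IsAlgebraic (Algebra.adjoin ℂ (range y)) x) :
    ∃ f : MvPolynomial (Fin r) ℂ, MvPolynomial.aeval y f ≠ 0 ∧ MvPolynomial.aeval y f ∈ I := by
  obtain ⟨⟨c, hc⟩, h1, h2⟩ := Submodule.exists_mem_ne_zero_of_ne_bot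
    (Ideal.comap_ne_bot_of_algebraic_mem x0 hx h)
  have hc' := hc
  rw [Algebra.adjoin_range_eq_range_aeval] at hc'
  obtain ⟨f, rfl⟩ := hc'
  exact ⟨f, fun e => h2 (Subtype.ext e), h1⟩

theorem ldz_ind [IsDomain A] {P : Ideal A} {g : A} (hg : g ∈ P) (g0 : g ≠ 0) {y : Fin r → A}
    (hy : AlgebraicIndependent ℂ (Ideal.Quotient.mk P ∘ y)) :
    AlgebraicIndependent ℂ (Fin.snoc y g : Fin (r + 1) → A) := by
  have h1 : AlgebraicIndependent ℂ y := AlgebraicIndependent.of_comp (Ideal.Quotient.mkₐ ℂ P) hy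
  have h2 : Transcendental (Algebra.adjoin ℂ (range y)) g := fun h => by
    obtain ⟨f, f0, hf⟩ := ldz_meet hg g0 h
    have : f = 0 := hy.eq_zero_of_aeval_eq_zero f (by
      rw [ldz_mk]; exact Ideal.Quotient.eq_zero_iff_mem.2 hf)
    exact f0 (by rw [this, map_zero])
  refine (algebraicIndependent_equiv' finSuccEquivLast.symm ?_).1
    ((h1.option_iff_transcendental g).2 h2)
  funext o
  cases o <;> simp

theorem ldz_inc {P Q : Ideal A} [P.IsPrime] (h : P ≤ Q) {y : Fin r → A}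
    (hy : IsTranscendenceBasis ℂ (Ideal.Quotient.mk P ∘ y))
    (hQ : ∀ f, MvPolynomial.aeval (R := ℂ) y f ∈ Q → MvPolynomial.aeval y f ∈ P) : Q = P := by
  refine le_antisymm (fun x hx => by_contra fun hxP => ?_) h
  obtain ⟨f, f0, hf⟩ := ldz_meet (Ideal.mem_map_of_mem (Ideal.Quotient.mk P) hx)
    (mt Ideal.Quotient.eq_zero_iff_mem.1 hxP) (hy.isAlgebraic.isAlgebraic _)
  rw [ldz_mk] at f0 hf
  exact f0 (Ideal.Quotient.eq_zero_iff_mem.2 (hQ f ((Ideal.mem_quotient_iff_mem h).1 hf)))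

omit [Algebra ℂ A] in
theorem ldz_min [IsDomain A] {P Q : Ideal A} [P.IsPrime] [Q.IsPrime] (hP : P.height = 1) {g : A}
    (hg : g ∈ Q) (g0 : g ≠ 0) (h : Q ≤ P) : Q = P := by
  by_contra hne
  have h1 := Ideal.height_add_one_le_of_lt_of_isPrime (lt_of_le_of_ne h hne)
  have h2 := Ideal.height_add_one_le_of_lt_of_isPrime (I := ⊥) (J := Q)
    (bot_lt_iff_ne_bot.2 fun e => g0 (by simpa [e] using hg))
  have h3 : (1 : ℕ∞) ≤ Q.height := le_trans le_add_self h2
  have h4 : (1 : ℕ∞) + 1 ≤ 1 := hP ▸ (add_le_add_left h3 1).trans h1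
  exact absurd h4 (by decide)

omit [Algebra ℂ A] in
theorem ldz_sep [IsDomain A] [IsNoetherianRing A] {P : Ideal A} [P.IsPrime] (hP : P.height = 1)
    {g : A} (g0 : g ≠ 0) :
    ∃ s ∉ P, ∀ Q : Ideal A, Q.IsPrime → g ∈ Q → s ∉ Q → P ≤ Q := by
  classical
  have hf := Ideal.finite_minimalPrimes_of_isNoetherianRing A (Ideal.span {g})
  have key : ∀ T ∈ hf.toFinset.erase P, ∃ s ∈ T, s ∉ P := fun T hT => by
    obtain ⟨h1, h2⟩ := Finset.mem_erase.1 hT
    have h3 := hf.mem_toFinset.1 h2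
    have := h3.1.1
    by_contra! hc
    exact h1 (ldz_min hP (h3.1.2 (Ideal.mem_span_singleton_self g)) g0 hc)
  choose! s h1 h2 using key
  refine ⟨∏ T ∈ hf.toFinset.erase P, s T, fun h => ?_, fun Q hQ hg hs => ?_⟩
  · obtain ⟨T, hT, h⟩ := Ideal.IsPrime.prod_mem_iff.1 h
    exact h2 T hT h
  · obtain ⟨T, hT, hle⟩ := Ideal.exists_minimalPrimes_le (I := Ideal.span {g}) (J := Q)
      ((Ideal.span_singleton_le_iff_mem _).2 hg)
    by_cases e : T = P
    · exact e ▸ hle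
    · have hT' := Finset.mem_erase.2 ⟨e, hf.mem_toFinset.2 hT⟩
      exact absurd (Ideal.IsPrime.prod_mem_iff.2 ⟨T, hT', hle (h1 T hT')⟩) hs

theorem ld_model {A : Type} [CommRing A] [Algebra ℂ A] {r : ℕ} [Algebra.FiniteType ℂ A]
    [IsDomain A] (P : Ideal A) [P.IsPrime] (hP : P.height = 1) {g : A} (hg : g ∈ P) (g0 : g ≠ 0)
    {y : Fin r → A} (hy : IsTranscendenceBasis ℂ (Ideal.Quotient.mk P ∘ y)) :
    IsTranscendenceBasis ℂ (Fin.snoc y g : Fin (r + 1) → A) ∧
    ∃ (B : Subalgebra ℂ A) (hw : ∀ i, (Fin.snoc y g : Fin (r + 1) → A) i ∈ B),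
      (MvPolynomial.aeval (R := ℂ) fun i => (⟨_, hw i⟩ : B)).toRingHom.Finite ∧
      ∃ s ∈ B, s ∉ P ∧ ∀ a, ∃ N : ℕ, s ^ N * a ∈ B := by
  have ind := ldz_ind hg g0 hy.1
  generalize hw : (Fin.snoc y g : Fin (r + 1) → A) = w at ind ⊢
  have wl : w (Fin.last r) = g := by rw [← hw, Fin.snoc_last]
  have wc : ∀ i, w i.castSucc = y i := fun i => by rw [← hw, Fin.snoc_castSucc]
  let R := MvPolynomial (Fin (r + 1)) ℂ
  let _ : Algebra R A := (MvPolynomial.aeval (R := ℂ) w).toRingHom.toAlgebra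
  have am : ∀ f : R, algebraMap R A f = MvPolynomial.aeval w f := fun _ => rfl
  have : IsScalarTower ℂ R A := .of_algebraMap_eq fun c => by
    rw [am]; exact ((MvPolynomial.aeval (R := ℂ) w).commutes c).symm
  have : Algebra.FiniteType R A := .of_restrictScalars_finiteType ℂ R A
  have : IsNoetherianRing A := Algebra.FiniteType.isNoetherianRing ℂ A
  have qf : Algebra.QuasiFiniteAt R P := by
    refine Algebra.QuasiFiniteAt.of_isOpen_singleton_fiber ⟨P, inferInstance⟩ ?_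
    obtain ⟨s, hs, h⟩ := ldz_sep hP g0
    refine isOpen_induced_iff.2 ⟨PrimeSpectrum.basicOpen s, (PrimeSpectrum.basicOpen s).isOpen, ?_⟩
    ext ⟨Q, hQ⟩
    have e : ∀ f : R, algebraMap R A f ∈ Q.asIdeal ↔ algebraMap R A f ∈ P := fun f =>
      Ideal.ext_iff.1 (congrArg PrimeSpectrum.asIdeal (mem_singleton_iff.1 hQ)) f
    refine ⟨fun hsQ => Subtype.ext (PrimeSpectrum.ext (ldz_inc (h _ Q.isPrime ?_ hsQ) hy
      fun f hf => ?_)), fun hh => ?_⟩
    · have := e (MvPolynomial.X (Fin.last r))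
      rw [am, MvPolynomial.aeval_X, wl] at this
      exact this.2 hg
    · have := e (MvPolynomial.rename Fin.castSucc f)
      rw [am, MvPolynomial.aeval_rename, show w ∘ Fin.castSucc = y from funext wc] at this
      exact this.1 hf
    · obtain rfl : Q = ⟨P, inferInstance⟩ := congrArg Subtype.val (mem_singleton_iff.1 hh)
      exact hs
  obtain ⟨S, hS, s, hs, hb⟩ :=
    Algebra.QuasiFiniteAt.exists_fg_and_exists_notMem_and_awayMap_bijective (R := R) P
  have fin : Module.Finite R S := ⟨(Submodule.fg_top _).mpr hS⟩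
  have sat : ∀ a, ∃ N : ℕ, s.1 ^ N * a ∈ S := fun a => by
    obtain ⟨b, m, e⟩ := Localization.awayMap_surjective_iff.1 hb.2 a
    exact ⟨m, (show b.1 = s.1 ^ m * a from e) ▸ b.2⟩
  have hwS : ∀ i, w i ∈ S.restrictScalars ℂ := fun i => by
    have := S.algebraMap_mem (MvPolynomial.X i)
    rwa [am, MvPolynomial.aeval_X] at this
  refine ⟨ind.isTranscendenceBasis_iff_isAlgebraic.2 ⟨fun a => ?_⟩, S.restrictScalars ℂ, hwS, ?_,
    s.1, s.2, hs, sat⟩
  · have alg : ∀ b ∈ S, IsAlgebraic (Algebra.adjoin ℂ (range w)) b := fun b hb => by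
      have h1 : IsIntegral R b := (IsIntegral.of_finite R (⟨b, hb⟩ : S)).map S.val
      refine IsIntegral.isAlgebraic (h1.map_of_comp_eq ind.aevalEquiv.toRingHom (RingHom.id A) ?_)
      exact RingHom.ext fun f => ind.algebraMap_aevalEquiv f
    obtain ⟨N, hN⟩ := sat a
    exact IsAlgebraic.of_mul (mem_nonZeroDivisors_of_ne_zero
      (pow_ne_zero N fun e : s.1 = 0 => hs (e ▸ P.zero_mem))) (alg _ (pow_mem s.2 N)) (alg _ hN)
  · have e : (MvPolynomial.aeval (R := ℂ) fun i => (⟨_, hwS i⟩ : S.restrictScalars ℂ)).toRingHom =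
        algebraMap R S := by
      refine RingHom.ext fun f => Subtype.ext ?_
      exact MvPolynomial.comp_aeval_apply _ (S.restrictScalars ℂ).val f
    exact e ▸ (RingHom.finite_algebraMap (A := R) (B := S)).2 fin

end Pool.Agent.Lib.MP_d3d358_ag.Cw
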