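import Pool.Agent.Lib.MP_d3d358_ag.Cw.LdA
import Pool.Agent.Lib.MP_d3d358_ag.Cw.SpB
import Pool.Agent.Lib.MP_d3d358_ag.Cw.LdZ

/-! Local degree = length. -/

set_option autoImplicit false

namespace Pool.Agent.Lib.MP_d3d358_ag.Cw

open Topology Set Filter TensorProduct MvPolynomial

theorem ld_fin' {S R B L : Type} [CommRing S] [IsDomain S] [Algebra ℂ S] [Algebra.FiniteType ℂ S]
    [CommRing R] [IsDomain R] [Algebra ℂ R] [Algebra.FiniteType ℂ R] [CommRing B] [IsDomain B]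
    [Algebra ℂ B] (ι : S →ₐ[ℂ] R) (φ : R →ₐ[ℂ] B) (π : R →ₐ[ℂ] S) (hι : ∀ s, π (ι s) = s)
    (fin : φ.toRingHom.Finite) (inj : Function.Injective φ)
    (t : R) (h0 : π t = 0) (hπ : ∀ x, t ∣ x - ι (π x)) (t0 : t ≠ 0)
    (P : Ideal B) [hP : P.IsPrime] (hg : φ t ∈ P) (hS : ∀ s, φ (ι s) ∈ P → s = 0)
    [CommRing L] [Algebra B L] [IsLocalization.AtPrime L P] :
    ∃ h ∉ P, (∀ q : Sp B, q h ≠ 0 → q (φ t) = 0 → q ∈ Vz P) ∧ ∃ H₁ : R, H₁ ≠ 0 ∧
      ∀ p ∈ Vz P, p h ≠ 0 → ∃ W₀, IsOpen W₀ ∧ p ∈ W₀ ∧ ∀ W, IsOpen W → p ∈ W → W ⊆ W₀ →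
        ∀ᶠ z in 𝓝 (Sp.map φ p), z H₁ ≠ 0 → ∃ T : Finset (Sp B),
          T.card = (Ring.ord L (algebraMap B L (φ t))).toNat ∧
          (T : Set (Sp B)) = W ∩ Sp.map φ ⁻¹' {z} := by
  let _ : Algebra S R := ι.toRingHom.toAlgebra
  let _ : Algebra R B := φ.toRingHom.toAlgebra
  let _ : Algebra S B := (φ.comp ι).toRingHom.toAlgebra
  have : IsScalarTower S R B := IsScalarTower.of_algebraMap_eq fun _ => rfl
  have : IsScalarTower ℂ R B := IsScalarTower.of_algebraMap_eq fun c => (φ.commutes c).symm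
  have : IsScalarTower ℂ S B :=
    IsScalarTower.of_algebraMap_eq fun c => ((φ.comp ι).commutes c).symm
  have : Module.Finite R B := fin
  have : FaithfulSMul R B := (faithfulSMul_iff_algebraMap_injective R B).2 inj
  exact ld_fin (L := L) t { π.toRingHom with commutes' := hι } h0 hπ t0 P hg
    (eq_bot_iff.2 fun s hs => hS s hs)

theorem ld_freq {n : ℕ} {H : MvPolynomial (Fin n) ℂ} (h : H ≠ 0) (z₀ : Fin n → ℂ) :
    ∃ᶠ z in 𝓝 z₀, eval z H ≠ 0 := by
  intro hc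
  obtain ⟨ε, ε0, hε⟩ := Metric.eventually_nhds_iff_ball.1 hc
  refine h (MvPolynomial.funext_set (fun i => Metric.ball (z₀ i) ε)
    (fun i => infinite_of_mem_nhds _ (Metric.ball_mem_nhds _ ε0)) fun x hx => ?_)
  rw [← ball_pi _ ε0] at hx
  simpa using hε x hx

theorem ld_loc {A : Type} [CommRing A] [Algebra ℂ A] [IsDomain A] (B : Subalgebra ℂ A)
    (P : Ideal A) [hP : P.IsPrime] {s : A} (hs : s ∈ B) (sP : s ∉ P)
    (h : ∀ a, ∃ N : ℕ, s ^ N * a ∈ B) :
    IsLocalization.AtPrime (Localization.AtPrime P) (P.comap B.val) := by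
  have e : ∀ b : B, algebraMap B (Localization.AtPrime P) b = algebraMap A _ b.1 := fun _ => rfl
  refine (isLocalization_iff _ _).2 ⟨fun b => ?_, fun z => ?_, fun {x y} hxy => ⟨1, ?_⟩⟩
  · exact IsLocalization.map_units (M := P.primeCompl) _ ⟨b.1.1, b.2⟩
  · obtain ⟨⟨a, u⟩, hz⟩ := IsLocalization.surj P.primeCompl z
    obtain ⟨N, hN⟩ := h a
    obtain ⟨M, hM⟩ := h u
    refine ⟨⟨⟨s ^ M * (s ^ N * a), B.mul_mem (B.pow_mem hs M) hN⟩,
      ⟨⟨s ^ N * (s ^ M * u), B.mul_mem (B.pow_mem hs N) hM⟩, ?_⟩⟩, ?_⟩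
    · exact P.primeCompl.mul_mem (P.primeCompl.pow_mem sP N)
        (P.primeCompl.mul_mem (P.primeCompl.pow_mem sP M) u.2)
    · simp only [e, map_mul] at hz ⊢
      rw [← hz]
      ring
  · have := IsLocalization.injective (Localization.AtPrime P) P.primeCompl_le_nonZeroDivisors hxy
    rw [Subtype.ext this]

variable {A : Type} [CommRing A] [Algebra ℂ A] {r : ℕ}

theorem ld [Algebra.FiniteType ℂ A] [IsDomain A] (P : Ideal A) [P.IsPrime] (hP : P.height = 1)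
    {g : A} (hg : g ∈ P) (g0 : g ≠ 0) {y : Fin r → A}
    (hy : IsTranscendenceBasis ℂ (Ideal.Quotient.mk P ∘ y)) :
    ringKrullDim A = (r + 1 : ℕ) ∧ ∃ h ∉ P, (∀ q : Sp A, q h ≠ 0 → (q g = 0 ↔ q ∈ Vz P)) ∧
      ∀ p ∈ Vz P, p h ≠ 0 → ∀ V ∈ 𝓝 p, ∃ U, IsOpen U ∧ p ∈ U ∧ U ⊆ V ∧
        ∃ᶠ z in 𝓝 (co (Fin.snoc y g : Fin (r + 1) → A) p), ∃ S : Finset (Sp A),
          S.card = (Ring.ord (Localization.AtPrime P) (algebraMap A _ g)).toNat ∧
          (S : Set (Sp A)) = U ∩ co (Fin.snoc y g : Fin (r + 1) → A) ⁻¹' {z} ∧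
          ∀ q ∈ S, At RgA univ q (co (Fin.snoc y g : Fin (r + 1) → A)) := by
  classical
  obtain ⟨hw, B, hB, fin, s, hs, sP, hN⟩ := ld_model P hP hg g0 hy
  refine ⟨dim_eq hw, ?_⟩
  set w : Fin (r + 1) → A := Fin.snoc y g with hwd
  set φ : MvPolynomial (Fin (r + 1)) ℂ →ₐ[ℂ] B := aeval fun i => (⟨_, hB i⟩ : B) with hφ
  have vφ : B.val.comp φ = aeval w := MvPolynomial.algHom_ext fun i => by simp [hφ]
  have vφ' : ∀ x, (φ x).1 = aeval w x := fun x => DFunLike.congr_fun vφ x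
  have φt : (φ (X (Fin.last r))).1 = g := by simp [vφ', hwd]
  have := ld_loc B P hs sP hN
  let π : MvPolynomial (Fin (r + 1)) ℂ →ₐ[ℂ] MvPolynomial (Fin r) ℂ :=
    aeval (Fin.snoc X 0 : Fin (r + 1) → MvPolynomial (Fin r) ℂ)
  obtain ⟨h, hh, hz, H₁, hH₁, main⟩ := ld_fin' (L := Localization.AtPrime P)
    (rename Fin.castSucc) φ π
    (fun x => by
      have : π.comp (rename Fin.castSucc) = AlgHom.id ℂ _ :=
        MvPolynomial.algHom_ext fun i => by simp [π]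
      exact DFunLike.congr_fun this x) fin
    (fun a b hab => hw.1 ((vφ' a).symm.trans ((congrArg Subtype.val hab).trans (vφ' b))))
    (X (Fin.last r)) (by simp [π])
    (fun x => by
      induction x using MvPolynomial.induction_on with
      | C c => simp [π]
      | add a b ha hb => rw [map_add, map_add, add_sub_add_comm]; exact dvd_add ha hb
      | mul_X a i ha =>
        refine Fin.lastCases ?_ (fun i => ?_) i
        · simp [π]
        · have : π (X i.castSucc) = X i := by simp [π]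
          rw [map_mul, map_mul, this, rename_X, ← sub_mul]
          exact ha.mul_right _)
    (X_ne_zero _) (P.comap B.val) (by change (φ (X (Fin.last r))).1 ∈ P; rw [φt]; exact hg)
    (fun x hx => by
      have e : (Ideal.Quotient.mkₐ ℂ P).comp ((B.val.comp φ).comp (rename Fin.castSucc)) =
          aeval (Ideal.Quotient.mk P ∘ y) := MvPolynomial.algHom_ext fun i => by
        simp [vφ', hwd]
      apply hy.1
      rw [map_zero, ← e]
      exact Ideal.Quotient.eq_zero_iff_mem.2 hx)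
  obtain ⟨H₂, d, hH₂, -, chart⟩ := gen_chart hw
  obtain ⟨inj, opn⟩ := ld_res B hs hN
  have res : ∀ q ∈ Vz P, Sp.map B.val q ∈ Vz (P.comap B.val) := fun q hq a ha => hq a.1 ha
  refine ⟨s * h.1, fun hc => (Ideal.IsPrime.mem_or_mem inferInstance hc).elim sP hh,
    fun q hq => ⟨fun hqg a ha => ?_, fun hq => hq g hg⟩, fun p hp hph V hV => ?_⟩
  · rw [map_mul, mul_ne_zero_iff] at hq
    obtain ⟨N, hN⟩ := hN a
    have := hz (Sp.map B.val q) hq.2 (by rw [← hqg, ← φt]; rfl) ⟨_, hN⟩ (P.mul_mem_left _ ha)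
    have : q (s ^ N * a) = 0 := this
    rw [map_mul, map_pow, mul_eq_zero] at this
    exact this.resolve_left (pow_ne_zero _ hq.1)
  rw [map_mul, mul_ne_zero_iff] at hph
  obtain ⟨W₀, oW₀, pW₀, hW⟩ := main _ (res p hp) hph.2
  set U := interior V ∩ {q : Sp A | q s ≠ 0} ∩ Sp.map B.val ⁻¹' W₀ with hU
  have oU : IsOpen U := (isOpen_interior.inter
    (isOpen_ne_fun (Sp.cont_ev s) continuous_const)).inter (oW₀.preimage (Sp.cont_map _))
  have pU : p ∈ U := ⟨⟨mem_interior_iff_mem_nhds.2 hV, hph.1⟩, pW₀⟩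
  refine ⟨U, oU, pU, fun q hq => interior_subset hq.1.1, ?_⟩
  let ev : (Fin (r + 1) → ℂ) → Sp (MvPolynomial (Fin (r + 1)) ℂ) := fun z => aeval z
  have evx : ∀ z x, ev z x = eval z x := fun z x =>
    DFunLike.congr_fun (coe_aeval_eq_eval z) x
  have cev : Continuous ev := Sp.cont_iff.2 fun x => by
    simp only [evx]; exact MvPolynomial.continuous_eval x
  have key : ∀ q : Sp A, Sp.map φ (Sp.map B.val q) = ev (co w q) := fun q =>
    MvPolynomial.algHom_ext (f := (Sp.map φ (Sp.map B.val q)).hom) (g := (ev (co w q)).hom)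
      fun i => by
        change q (φ (X i)).1 = ev (co w q) (X i)
        rw [evx, vφ', aeval_X, eval_X]; rfl
  have evi : Function.Injective ev := fun z z' h => funext fun i => by
    have := DFunLike.congr_fun h (X i)
    rwa [evx, evx, eval_X, eval_X] at this
  have e1 := hW _ (opn U oU fun q hq => hq.1.2) (mem_image_of_mem _ pU)
    (by rintro _ ⟨q, hq, rfl⟩; exact hq.2)
  rw [key] at e1
  refine ((ld_freq (mul_ne_zero hH₁ hH₂) _).and_eventually (cev.continuousAt.eventually e1)).mono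
    fun z ⟨h1, h2⟩ => ?_
  rw [map_mul, mul_ne_zero_iff] at h1
  obtain ⟨T, hT, hTs⟩ := h2 (by rw [evx]; exact h1.1)
  have im : Sp.map B.val '' (U ∩ co w ⁻¹' {z}) = T := by
    rw [hTs]
    ext q
    constructor
    · rintro ⟨q, ⟨h1, h2⟩, rfl⟩
      exact ⟨mem_image_of_mem _ h1, (key q).trans (congrArg ev h2)⟩
    · rintro ⟨⟨q, h1, rfl⟩, h2⟩
      exact ⟨q, ⟨h1, evi ((key q).symm.trans h2)⟩, rfl⟩
  have inj' : InjOn (Sp.map B.val) (U ∩ co w ⁻¹' {z}) := inj.mono fun q hq => hq.1.1.2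
  have fn : (U ∩ co w ⁻¹' {z}).Finite := Finite.of_finite_image (im ▸ T.finite_toSet) inj'
  refine ⟨fn.toFinset, ?_, fn.coe_toFinset, fun q hq => ?_⟩
  · rw [← ncard_eq_toFinset_card _ fn, ← inj'.ncard_image, im, ncard_coe_finset, hT, ← φt]
    rfl
  · exact ((chart z h1.2).2 q (fn.mem_toFinset.1 hq).2).1

end Pool.Agent.Lib.MP_d3d358_ag.Cw
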