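import Pool.Agent.Lib.MP_d3d358_ag.Cw.Rat1
import Pool.Agent.Lib.MP_d3d358_ag.Cw.Gen

/-! The divisor of a function is homologous to zero. -/

set_option autoImplicit false

namespace Pool.Agent.Lib.MP_d3d358_ag.Cw

open Topology Set Filter AS

variable {Z : Type} {r : ℕ}

theorem rat [MetricSpace Z] {Rg : Z → (Z → ℂ) → Prop} {K P B : Set Z} {φ : HT ℚ K →ₗ[ℚ] ℚ}
    (h : Fund Rg K (r + 1) φ) (hP : IsCompact P) (hPK : P ⊆ K) (hT : Thin P (r + 1))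
    (hB : IsCompact B) (hBT : Thin B r) {f : Z → ℂ} (hf : ContinuousOn f (K \ P))
    (h0 : ∀ u ∈ K \ P, f u ≠ 0) (ψ : HT ℚ P →ₗ[ℚ] ℚ)
    (hl : ∀ p ∈ P \ B, ∃ U ∈ 𝓝 p, ∃ (y : Z → Fin r → ℂ) (g g' : Z → ℂ) (m m' : ℚ), Cht P p y ∧
      ContinuousOn y (U ∩ K) ∧ ContinuousOn g (U ∩ K) ∧ ContinuousOn g' (U ∩ K) ∧
      (∀ u ∈ U ∩ K, (g u = 0 ↔ u ∈ P) ∧ (g' u = 0 ↔ u ∈ P)) ∧
      (∀ u ∈ (U ∩ K) \ P, f u * g' u = g u) ∧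
      (∀ x, IsPt K p (fun u => (Fin.snoc (y u) (g u) : Fin (r + 1) → ℂ)) x → φ x = m) ∧
      (∀ x, IsPt K p (fun u => (Fin.snoc (y u) (g' u) : Fin (r + 1) → ℂ)) x → φ x = m') ∧
      ∀ x, IsPt P p y x → ψ x = m - m') :
    ∀ x ∈ Hk K (2 * (r : ℤ)), ψ (res hPK x) = 0 :=
  rat_of_gen h.cpt hP hPK (gen hP hT hB hBT) hf h0 ψ hl

end Pool.Agent.Lib.MP_d3d358_ag.Cw
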