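import Pool.Agent.Lib.MP_d3d358_ag.Cw.Fnd
import Pool.Agent.Lib.MP_d3d358_ag.Cw.Ld
import Pool.Agent.Lib.MP_d3d358_ag.Cw.Rat
import Pool.Agent.Lib.MP_d3d358_ag.Cw.Tr

/-! The divisor of a rational function integrates to zero. -/

set_option autoImplicit false

namespace Pool.Agent.Lib.MP_d3d358_ag.Cw

open CategoryTheory AlgebraicGeometry MonoidalCategory CartesianMonoidalCategory Order Topology Set
  Filter AS

variable {V W F X Y Z X' Y' : Sch} {r n m : ℕ}

theorem div_ord_equiv {R S : Type} [CommRing R] [CommRing S] (e : R ≃+* S) (x : R) :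
    Ring.ord S (e x) = Ring.ord R x := by
  have h : (Ideal.span {e x}).comap e.toRingHom = Ideal.span {x} := by
    ext a
    simp only [Ideal.mem_comap, Ideal.mem_span_singleton]
    exact map_dvd_iff e
  rw [Ring.ord, Ring.ord, Module.length_quotient, Module.length_quotient, ← h]
  exact (Ideal.coheight_comap_of_surjective e.toRingHom e.surjective _).symm

section
variable {U : W.left.Opens}

theorem div_height (hU : IsAffineOpen U) {z : W.left} (hz : z ∈ U) (h1 : coheight z = 1) :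
    (pri hU hz).height = 1 := by
  let := TopCat.Presheaf.algebra_section_stalk W.left.presheaf (⟨z, hz⟩ : U)
  have := hU.isLocalization_stalk ⟨z, hz⟩
  have e := IsLocalization.AtPrime.ringKrullDim_eq_height (pri hU hz) (W.left.presheaf.stalk z)
  rw [ringKrullDim_stalk_eq_coheight, h1] at e
  exact (WithBot.coe_injective e).symm

theorem div_mem {s : Γ(W.left, U)} {p : Pnt W} (h : val U s p ≠ 0) : p.pt ∈ U :=
  by_contra fun h' => h (val_of_not h' s)

theorem div_pri (hU : IsAffineOpen U) {z : W.left} (hz : z ∈ U) {s : Γ(W.left, U)}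
    (h : s ∉ pri hU hz) : z ∈ W.left.basicOpen s := by
  have e : hU.primeIdealOf ⟨z, hz⟩ ∈ hU.fromSpec ⁻¹ᵁ W.left.basicOpen s := by
    rw [hU.fromSpec_preimage_basicOpen]; exact h
  have e' : hU.fromSpec (hU.primeIdealOf ⟨z, hz⟩) ∈ W.left.basicOpen s := e
  rwa [hU.fromSpec_primeIdealOf] at e'

theorem div_cd {Z : Type} [TopologicalSpace Z] {K L O : Set Z} {p : Z} {y : Z → Fin r → ℂ}
    (h : Cht K p y) (hO : IsOpen O) (hp : p ∈ O) (e : ∀ u ∈ O, u ∈ K ↔ u ∈ L) : Cht L p y := by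
  obtain ⟨U, O', s, hc, hp'⟩ := h
  have c := hc.inter hO
  have e' : U ∩ O ∩ L = U ∩ O ∩ K := Set.ext fun u => and_congr_right fun h => (e u h.2).symm
  exact ⟨U ∩ O, _, s, ⟨c.oU, c.oO, e' ▸ c.cy, e' ▸ c.my, c.cs, e' ▸ c.ms, e' ▸ c.li, c.ri⟩,
    e' ▸ ⟨⟨hp'.1, hp⟩, hp'.2⟩⟩

variable [IsIntegral W.left]

theorem div_gen (x : W.left) : genericPoint W.left ⤳ x := (genericPoint_spec _).specializes trivial

theorem div_ord [IsLocallyNoetherian W.left] (hU : IsAffineOpen U) [Nonempty U] {z : W.left}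
    (hz : z ∈ U) (h1 : coheight z = 1) {g : Γ(W.left, U)} (g0 : g ≠ 0) :
    Scheme.ord (W.left.germToFunctionField U g) z =
      (Ring.ord (Localization.AtPrime (pri hU hz)) (algebraMap _ _ g)).toNat := by
  let := TopCat.Presheaf.algebra_section_stalk W.left.presheaf (⟨z, hz⟩ : U)
  have := hU.isLocalization_stalk ⟨z, hz⟩
  have : Ring.KrullDimLE 1 (W.left.presheaf.stalk z) := krullDimLE_of_coheight_le h1.le
  have g1 : W.left.presheaf.germ U z hz g ≠ 0 :=
    (map_ne_zero_iff _ (germ_injective_of_isIntegral _ z hz)).2 g0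
  have g2 := mem_nonZeroDivisors_of_ne_zero g1
  let e := IsLocalization.algEquiv (pri hU hz).primeCompl (W.left.presheaf.stalk z)
    (Localization.AtPrime (pri hU hz))
  have e1 : Ring.ord (Localization.AtPrime (pri hU hz)) (algebraMap _ _ g) =
      Ring.ord _ (W.left.presheaf.germ U z hz g) := by
    rw [← div_ord_equiv e.toRingEquiv, ← e.commutes]; rfl
  rw [Scheme.ord_eq_iff h1 ((map_ne_zero_iff _ (W.left.germToFunctionField_injective U)).2 g0), e1,
    ← Scheme.algebraMap_germ_eq_germToFunctionField _ hz]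
  refine (Ring.ordFrac_eq_ord _ g1).trans (Ring.ordMonoidWithZeroHom_eq_coe _ g2 ?_)
  exact (ENat.natCast_toNat (Ring.ord_ne_top g2)).symm

theorem div_pri_gen (hU : IsAffineOpen U) (h : genericPoint W.left ∈ U) : pri hU h = ⊥ := by
  have : Nonempty U := ⟨⟨_, h⟩⟩
  rw [pri, hU.primeIdealOf_genericPoint, genericPoint_eq_bot_of_affine]; rfl

variable [Gd W]

theorem div_dm {z : W.left} (h1 : coheight z = 1) :
    dm (genericPoint W.left) = dm z + 1 := by
  obtain ⟨U, hU, hz⟩ := exists_affine z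
  have : Nonempty U := ⟨⟨z, hz⟩⟩
  have := ft_sec hU
  have hP := div_height hU hz h1
  obtain ⟨g, hg, g0⟩ := Submodule.exists_mem_ne_zero_of_ne_bot (p := pri hU hz) fun h => by
    simp [h] at hP
  obtain ⟨y, hy⟩ := exists_tb hU hz
  have e := (ld _ hP hg g0 hy).1
  have hη : genericPoint W.left ∈ U := (div_gen z).mem_open U.isOpen hz
  have e' := dm_eq hU hη
  rw [ringKrullDim_eq_of_ringEquiv ((Ideal.quotEquivOfEq (div_pri_gen hU hη)).trans
    (RingEquiv.quotientBot _)), e] at e'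
  exact_mod_cast e'.symm

theorem div_deg (hU : IsAffineOpen U) {z : W.left} (hz : z ∈ U) (h1 : coheight z = 1)
    {y : Fin r → Γ(W.left, U)} (hy : IsTranscendenceBasis ℂ (Ideal.Quotient.mk (pri hU hz) ∘ y))
    {g : Γ(W.left, U)} (hg : g ∈ pri hU hz) (g0 : g ≠ 0) {K : Set (Pnt W)} (hK : ∀ p, p ∈ K)
    {φ : HT ℚ K →ₗ[ℚ] ℚ} (hφ : Fund (Rg W) K (r + 1) φ) : ∃ h ∉ pri hU hz,
      (∀ q, val U h q ≠ 0 → (val U g q = 0 ↔ q ∈ Kw z)) ∧ ∀ p ∈ Kw z, val U h p ≠ 0 →
        Cht (Kw z) p (fun p i => val U (y i) p) → ∀ x, IsPt K p (fun u =>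
          (Fin.snoc (fun i => val U (y i) u) (val U g u) : Fin (r + 1) → ℂ)) x →
          φ x = (Ring.ord (Localization.AtPrime (pri hU hz)) (algebraMap _ _ g)).toNat := by
  classical
  have : Nonempty U := ⟨⟨z, hz⟩⟩
  have := ft_sec hU
  obtain ⟨-, h, hh, h0, hl⟩ := ld _ (div_height hU hz h1) hg g0 hy
  obtain ⟨e, he⟩ := exists_emb hU
  have k0 : ∀ q, val U h q ≠ 0 → (val U g q = 0 ↔ q ∈ Kw z) := fun q hq => by
    obtain ⟨q, rfl⟩ : q ∈ range e := ⟨_, he.valA q (div_mem hq)⟩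
    rw [he.val_eq] at hq ⊢
    rw [he.spec z hz]; exact h0 _ hq
  refine ⟨h, hh, k0, fun p hp hph ⟨U₁, O, s, hc, hp1⟩ x hx => ?_⟩
  have eG : (fun u => (Fin.snoc (fun i => val U (y i) u) (val U g u) : Fin (r + 1) → ℂ)) =
      fun u i => val U ((Fin.snoc y g : Fin (r + 1) → _) i) u :=
    funext fun u => funext fun i => by induction i using Fin.lastCases <;> simp
  have eC : (fun u i => val U ((Fin.snoc y g : Fin (r + 1) → _) i) u) ∘ e =
      co (Fin.snoc y g : Fin (r + 1) → _) := funext fun q => funext fun i => he.val_eq _ _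
  rw [eG] at hx
  refine hφ.deg_eq (U := U₁ ∩ {q | val U h q ≠ 0}) (inter_mem (hc.oU.mem_nhds hp1.1)
    ((continuousAt_val (div_mem hph) h).eventually_ne hph)) (continuousOn_pi.2 fun i =>
      (cont_val U _).mono fun q hq => div_mem hq.1.2) (fun q hq eq => ?_) (fun V hV => ?_) hx
  · have e1 := congrFun eq (Fin.last r)
    simp only [Fin.snoc_last] at e1
    have hq' : q ∈ Kw z := (k0 q hq.1.2).1 (e1.trans ((k0 p hph).2 hp))
    rw [← hc.li q ⟨hq.1.1, hq'⟩, ← hc.li p hp1]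
    congr 1
    exact funext fun i => by simpa using congrFun eq i.castSucc
  obtain ⟨p, rfl⟩ : p ∈ range e := ⟨_, he.valA p (div_mem hph)⟩
  rw [he.val_eq] at hph
  obtain ⟨U₀, o0, p0, s0, hf⟩ := hl p ((he.spec z hz p).1 hp) hph _
    (he.opn.continuous.continuousAt.preimage_mem_nhds hV)
  refine ⟨e '' U₀, he.opn.isOpenMap _ o0, mem_image_of_mem e p0, image_subset_iff.2 s0, ?_⟩
  rw [← eC] at hf
  refine hf.mono fun t ⟨S, c, eS, hS⟩ => ⟨S.image e, ?_, ?_, fun q hq => ?_⟩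
  · rw [Finset.card_image_of_injective _ he.opn.injective, c]
  · rw [Finset.coe_image, eS, preimage_comp, image_inter_preimage, inter_eq_left.2 fun q _ => hK q]
  · obtain ⟨q, hq', rfl⟩ := Finset.mem_image.1 hq
    exact At.emb he.opn.isEmbedding (isOpen_Kc U)
      (he.rng.trans (inter_eq_left.2 fun q _ => hK q).symm) (hS q hq')
      (.of_forall fun q' i => rg_val _ (he.mem q')) fun q' f h => (he.rg q' f).1 h

/-- the local data at a point of codimension one -/
theorem div_at [IsLocallyNoetherian W.left] [Nonempty U] {s : Γ(W.left, U)} (s0 : s ≠ 0)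
    {z : W.left} (h1 : coheight z = 1) (hr : dm z = r) {K : Set (Pnt W)} (hK : ∀ p, p ∈ K)
    {φ : HT ℚ K →ₗ[ℚ] ℚ} (hφ : Fund (Rg W) K (r + 1) φ) : ∃ T : W.left.Opens, z ∈ T ∧
      ∃ (y : Pnt W → Fin r → ℂ) (g g' : Pnt W → ℂ) (m m' : ℚ), ContinuousOn y (Kc T) ∧
        ContinuousOn g (Kc T) ∧ ContinuousOn g' (Kc T) ∧
        (∀ u ∈ Kc T, (g u = 0 ↔ u ∈ Kw z) ∧ (g' u = 0 ↔ u ∈ Kw z)) ∧
        (∀ u ∈ Kc T, u.pt ∈ U → val U s u * g' u = g u) ∧
        (Scheme.ord (W.left.germToFunctionField U s) z : ℚ) = m - m' ∧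
        ∀ p ∈ Kw z, p.pt ∈ T → At (Rg W) (Kw z) p y ∧
          (∀ x, IsPt K p (fun u => (Fin.snoc (y u) (g u) : Fin (r + 1) → ℂ)) x → φ x = m) ∧
          ∀ x, IsPt K p (fun u => (Fin.snoc (y u) (g' u) : Fin (r + 1) → ℂ)) x → φ x = m' := by
  subst hr
  obtain ⟨T, hT, hz⟩ := exists_affine z
  have : Nonempty T := ⟨⟨z, hz⟩⟩
  have hP := div_height hT hz h1
  obtain ⟨t, ht, t0⟩ := Submodule.exists_mem_ne_zero_of_ne_bot (p := pri hT hz) fun h => by
    simp [h] at hP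
  obtain ⟨y, hy⟩ := exists_tb hT hz
  have := functionField_isFractionRing_of_isAffineOpen W.left T hT
  have f0 := (map_ne_zero_iff _ (W.left.germToFunctionField_injective U)).2 s0
  obtain ⟨a, b, hb, e⟩ := IsFractionRing.div_surjective (A := Γ(W.left, T))
    (W.left.germToFunctionField U s)
  have b0 := mul_ne_zero (nonZeroDivisors.ne_zero hb) t0
  have b1 := (map_ne_zero_iff _ (W.left.germToFunctionField_injective T)).2 b0
  have e1 : W.left.germToFunctionField U s * W.left.germToFunctionField T (b * t) =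
      W.left.germToFunctionField T (a * t) := by
    rw [← e, map_mul, map_mul, ← mul_assoc]
    exact congrArg (· * _)
      (div_mul_cancel₀ _ (IsFractionRing.to_map_ne_zero_of_mem_nonZeroDivisors hb))
  have a0 : a * t ≠ 0 := fun h => mul_ne_zero f0 b1 (by rw [e1, h, map_zero])
  obtain ⟨h, hh, k, l⟩ := div_deg hT hz h1 hy (Ideal.mul_mem_left _ a ht) a0 hK hφ
  obtain ⟨h', hh', k', l'⟩ := div_deg hT hz h1 hy (Ideal.mul_mem_left _ b ht) b0 hK hφ
  obtain ⟨h'', hh'', c⟩ := gen_at hT hz hy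
  have hm : ∀ u ∈ Kc (W := W) (W.left.basicOpen h ⊓ W.left.basicOpen h' ⊓ W.left.basicOpen h'' :
      W.left.Opens), u.pt ∈ T ∧ val T h u ≠ 0 ∧ val T h' u ≠ 0 ∧ val T h'' u ≠ 0 := fun u hu =>
    ⟨W.left.basicOpen_le h hu.1.1, (mem_basicOpen_iff _).1 hu.1.1, (mem_basicOpen_iff _).1 hu.1.2,
      (mem_basicOpen_iff _).1 hu.2⟩
  refine ⟨W.left.basicOpen h ⊓ W.left.basicOpen h' ⊓ W.left.basicOpen h'',
    ⟨⟨div_pri hT hz hh, div_pri hT hz hh'⟩, div_pri hT hz hh''⟩, fun p i => val T (y i) p,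
    val T (a * t), val T (b * t), _, _,
    continuousOn_pi.2 fun i => (cont_val T _).mono fun u hu => (hm u hu).1,
    (cont_val T _).mono fun u hu => (hm u hu).1, (cont_val T _).mono fun u hu => (hm u hu).1,
    fun u hu => ⟨k u (hm u hu).2.1, k' u (hm u hu).2.2.1⟩, fun u hu hU => ?_, ?_, fun p hp hu =>
      have c' := c p hp (hm p hu).1 (hm p hu).2.2.2
      ⟨c', l p hp (hm p hu).2.1 c'.cht, l' p hp (hm p hu).2.2.1 c'.cht⟩⟩
  · have hu' : u.pt ∈ U ⊓ T := ⟨hU, (hm u hu).1⟩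
    have hη := (div_gen u.pt).mem_open (U ⊓ T).isOpen hu'
    rw [← val_res inf_le_left s hu', ← val_res inf_le_right (b * t) hu',
      ← val_res inf_le_right (a * t) hu', ← val_mul hu']
    congr 1
    apply germ_injective_of_isIntegral _ _ hη
    rw [map_mul, TopCat.Presheaf.germ_res_apply, TopCat.Presheaf.germ_res_apply,
      TopCat.Presheaf.germ_res_apply]
    exact e1
  · have := Scheme.ord_mul (x := z) f0 b1
    rw [e1, div_ord hT hz h1 a0, div_ord hT hz h1 b0] at this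
    rw [eq_sub_iff_add_eq]
    exact_mod_cast this.symm

theorem div_low {z : W.left} (h0 : z ≠ genericPoint W.left) (h1 : coheight z ≠ 1) :
    dm z + 1 < dm (genericPoint W.left) := by
  have lt : ∀ {a b : W.left}, a < b → dm a < dm b := fun h => dm_lt h.le h.ne'
  have le : ∀ a : W.left, dm a ≤ dm (genericPoint W.left) := fun a => by
    by_cases h : genericPoint W.left = a
    · rw [h]
    · exact (dm_lt (div_gen a) h).le
  have h2 : ¬coheight z ≤ (1 : ℕ) := fun h => h1 (le_antisymm h (Order.one_le_iff_ne_zero.2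
    (coheight_ne_zero.2 fun hm => h0 (Specializes.antisymm (hm (div_gen z)) (div_gen z)).eq)))
  rw [coheight_le_coe_iff] at h2
  push Not at h2
  obtain ⟨a, ha, h3⟩ := h2
  obtain ⟨b, hb⟩ := not_isMax_iff.1 (coheight_ne_zero.1 (Order.one_le_iff_ne_zero.1 h3))
  have := lt ha
  have := lt hb
  have := le b
  omega

end

theorem div_ev [Gd W] [IsIntegral W.left] [IsLocallyNoetherian W.left] {f : W.left.functionField}
    (hf : f ≠ 0) {d : Cyc W.left} (hd : ∀ z, d z = Scheme.ord f z) {k : ℤ} {u : HW W}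
    (hu : u ∈ Hd W k) : ev d u = 0 := by
  classical
  obtain ⟨U, -, s₀, _, rfl, hs⟩ := exists_isUnit_germ_eq W.left f hf
  have hD : IsClosed (U : Set W.left)ᶜ := U.isOpen.isClosed_compl
  have hη : genericPoint W.left ∈ U := (div_gen (Classical.arbitrary U).1).mem_open U.isOpen
    (Classical.arbitrary U).2
  obtain ⟨s, h1, h2⟩ := exists_comp hD
  obtain ⟨s₁, hs₁⟩ : ∃ s₁ : Finset W.left, ∀ z, z ∈ s₁ ↔ z ∈ s ∧ coheight z = 1 :=
    ⟨s.filter fun z => coheight z = 1, fun z => Finset.mem_filter⟩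
  have e0 : ev d u = ∑ z : s₁, d z * Phi z.1 u := by
    rw [Finset.sum_coe_sort s₁ fun z => d z * Phi z u, ev_apply]
    refine finsum_eq_sum_of_support_subset _ fun z hz => ?_
    have hz' : Scheme.ord (W.left.germToFunctionField U s₀) z ≠ 0 := fun h => hz (by simp [hd, h])
    have c1 : coheight z = 1 := by_contra fun h => hz' (Scheme.ord_eq_zero_of_coheight_neq_one h _)
    refine (hs₁ z).2 ⟨(h1 z).2 ⟨fun h => hz' (Scheme.ord_of_isUnit hs h), fun z' m sp => ?_⟩, c1⟩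
    by_contra ne
    have := dm_lt sp ne
    have := dm_lt (div_gen z') fun h => m (h ▸ hη)
    have := div_dm c1
    omega
  rw [e0]
  rcases s₁.eq_empty_or_nonempty with h | ⟨z₀, hz₀⟩
  · subst h; simp
  obtain ⟨r, hr⟩ : ∃ r, dm (genericPoint W.left) = r + 1 := ⟨_, div_dm ((hs₁ z₀).1 hz₀).2⟩
  have hdm : ∀ z ∈ s₁, dm z = r := fun z hz => by have := div_dm ((hs₁ z).1 hz).2; omega
  by_cases hk : k = 2 * r
  swap
  · exact Finset.sum_eq_zero fun z _ => by rw [Phi_deg z.1 (by rwa [hdm z.1 z.2]) hu, mul_zero]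
  subst hk
  have hK : ∀ p, p ∈ Kw (genericPoint W.left) := fun p => div_gen _
  have hφ := hr ▸ fund (genericPoint W.left)
  choose T hT y g g' m m' cy cg cg' z0 fg om loc using
    fun z : s₁ => div_at hs.ne_zero ((hs₁ z).1 z.2).2 (hdm z z.2) hK hφ
  have sub : ∀ z : s₁, Kw z.1 ⊆ Kc (U : Set W.left)ᶜ := fun z p hp =>
    (h2 _).2 ⟨z, ((hs₁ z).1 z.2).1, hp⟩
  have lt : ∀ z ∈ (U : Set W.left)ᶜ, dm z < r + 1 := fun z hz =>
    hr ▸ dm_lt (div_gen z) fun h => hz (h ▸ hη)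
  let T' : s₁ → Set W.left := fun z => T z ∩ ⋂ z' ∈ s.erase z, (closure {z'})ᶜ
  have oT : ∀ z, IsOpen (T' z) := fun z => (T z).isOpen.inter
    (isOpen_biInter_finset fun _ _ => isClosed_closure.isOpen_compl)
  have nT : ∀ z, ∀ x ∈ T' z, ∀ z' ∈ s, z' ⤳ x → z' = z := fun z x hx z' hz' sp =>
    by_contra fun ne => mem_iInter₂.1 hx.2 z' (Finset.mem_erase.2 ⟨ne, hz'⟩)
      (specializes_iff_mem_closure.1 sp)
  have mT : ∀ z, z.1 ∈ T' z := fun z => ⟨hT z, mem_iInter₂.2 fun z' hz' h =>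
    (Finset.mem_erase.1 hz').1 (((h1 z).1 ((hs₁ z).1 z.2).1).2 z'
      ((h1 z').1 (Finset.mem_erase.1 hz').2).1 (specializes_iff_mem_closure.2 h))⟩
  have eT : ∀ z, ∀ u ∈ Kc (T' z), u ∈ Kw z.1 ↔ u ∈ Kc (U : Set W.left)ᶜ := fun z u hu =>
    ⟨fun h => sub z h, fun h => by
      obtain ⟨z', hz', sp⟩ := (h2 _).1 h
      exact nT z _ hu z' hz' sp ▸ sp⟩
  have hE : IsClosed ((U : Set W.left)ᶜ \ ⋃ z, T' z) := hD.sdiff (isOpen_iUnion oT)
  have key := rat hφ (isClosed_Kc hD).isCompact (fun p _ => hK p) (thin_Kc hD lt)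
    (isClosed_Kc hE).isCompact (thin_Kc hE fun x hx => ?_) (f := val U s₀)
    ((cont_val U s₀).mono fun p hp => not_not.1 hp.2) (fun p hp => ?_)
    (∑ z : s₁, d z • phi z.1 ∘ₗ (res (sub z)).toLinearMap) (fun p hp => ?_)
    (res (subset_univ _) u) (pull_mem hu)
  · rw [← key, LinearMap.sum_apply]
    refine Finset.sum_congr rfl fun z _ => congrArg (d z * phi z.1 ·) ?_
    obtain ⟨a, h, rfl⟩ := Ring_surj u
    simp only [AlgHom.toLinearMap_apply, res_mk]
  · obtain ⟨z, hz, sp⟩ := (h2 x).1 hx.1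
    have := lt z ((h1 z).1 hz).1
    by_cases e : z = x
    · subst e
      have := div_low (z := z) (fun h => hx.1 (h ▸ hη)) fun h =>
        hx.2 (mem_iUnion.2 ⟨⟨z, (hs₁ z).2 ⟨hz, h⟩⟩, mT _⟩)
      omega
    · have := dm_lt sp e
      omega
  · rw [← valA_apply p (not_not.1 hp.2)]
    exact (hs.map _).ne_zero
  obtain ⟨z, hz⟩ : ∃ z, p.pt ∈ T' z := mem_iUnion.1 (by_contra fun h => hp.2 ⟨hp.1, h⟩)
  have oK : IsOpen (Kc (T' z)) := (oT z).preimage Pnt.cont_pt
  have pz := (eT z p hz).2 hp.1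
  obtain ⟨c, l, l'⟩ := loc z p pz hz.1
  have ss : Kc (T' z) ∩ Kw (genericPoint W.left) ⊆ Kc (T z) := fun u hu => hu.1.1
  refine ⟨Kc (T' z), oK.mem_nhds hz, y z, g z, g' z, m z, m' z, div_cd c.cht oK hz (eT z),
    (cy z).mono ss, (cg z).mono ss, (cg' z).mono ss, fun u hu => ?_,
    fun u hu => fg z u (ss hu.1) (not_not.1 hu.2), l, l', fun x hx => ?_⟩
  · rw [← eT z u hu.1]; exact z0 z u (ss hu)
  rw [LinearMap.sum_apply, Finset.sum_eq_single z (fun z' _ ne => ?_) (by simp), ← om, ← hd]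
  · have := (hdm z z.2 ▸ fund z.1).val p _ _ c (Lc.res hx (sub z))
    simp [this]
  · have := (Lc.res hx (sub z')).zero fun h =>
      ne (Subtype.ext (nT z _ hz z' ((hs₁ z').1 z'.2).1 h))
    simp [this]

end Pool.Agent.Lib.MP_d3d358_ag.Cw
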