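import Pool.Agent.Lib.MP_d3d358_ag.Cw.Pnt

/-! Values of sections at complex points. -/

set_option autoImplicit false

namespace Pool.Agent.Lib.MP_d3d358_ag.Cw

open CategoryTheory AlgebraicGeometry MonoidalCategory Order Topology Set Filter AS

noncomputable section

variable {V W : Sch} {U U' : W.left.Opens}

/-- evaluation at a complex point as a morphism of rings -/
def valR (p : Pnt W) (h : p.pt ∈ U) : Γ(W.left, U) ⟶ CommRingCat.of ℂ :=
  p.mor.appLE U ⊤ (p.le_pre h) ≫ (Scheme.ΓSpecIso (.of ℂ)).hom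

theorem val_eq_valR (p : Pnt W) (h : p.pt ∈ U) (s : Γ(W.left, U)) : val U s p = valR p h s := by
  rw [val, dif_pos h]; rfl

theorem val_of_not {p : Pnt W} (h : p.pt ∉ U) (s : Γ(W.left, U)) : val U s p = 0 := dif_neg h

theorem Pnt.mor_hom (p : Pnt W) : p.mor ≫ W.hom = 𝟙 _ := Over.w p

theorem Pnt.ext_mor {p q : Pnt W} (h : p.mor = q.mor) : p = q := Over.OverMorphism.ext h

theorem algU_eq (W : Sch) (U : W.left.Opens) : algebraMap ℂ Γ(W.left, U) =
    ((Scheme.ΓSpecIso (.of ℂ)).inv ≫ W.hom.appLE ⊤ U le_top).hom := rfl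

theorem valR_alg (p : Pnt W) (h : p.pt ∈ U) (c : ℂ) :
    valR p h (algebraMap ℂ Γ(W.left, U) c) = c := by
  have e : ((Scheme.ΓSpecIso (.of ℂ)).inv ≫ W.hom.appLE ⊤ U le_top) ≫ valR p h = 𝟙 _ := by
    have e1 := Scheme.Hom.appLE_comp_appLE p.mor W.hom ⊤ U ⊤ le_top (p.le_pre h)
    have e2 : ∀ (f : Spec (.of ℂ) ⟶ Spec (.of ℂ)) (i), f = 𝟙 _ → f.appLE ⊤ ⊤ i = 𝟙 _ := by
      rintro _ i rfl
      exact (Scheme.Hom.appLE_eq_app _).trans (Scheme.Hom.id_app _)
    rw [e2 _ _ p.mor_hom] at e1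
    rw [valR, Category.assoc, ← Category.assoc (W.hom.appLE ⊤ U le_top), e1]
    simp
  exact congrArg (fun f : CommRingCat.of ℂ ⟶ CommRingCat.of ℂ => f c) e

/-- evaluation at a complex point as a point of the ring of sections -/
def valA (p : Pnt W) (h : p.pt ∈ U) : Sp Γ(W.left, U) :=
  show Γ(W.left, U) →ₐ[ℂ] ℂ from { (valR p h).hom with commutes' := valR_alg p h }

theorem valA_apply (p : Pnt W) (h : p.pt ∈ U) (s : Γ(W.left, U)) : valA p h s = val U s p :=
  (val_eq_valR p h s).symm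

theorem val_res' {p : Pnt W} (i : U' ≤ U) (h : p.pt ∈ U') (s : Γ(W.left, U)) :
    val U' (W.left.presheaf.map (homOfLE i).op s) p = val U s p := by
  rw [val_eq_valR p h, val_eq_valR p (i h), valR, valR, ← CommRingCat.comp_apply,
    Scheme.Hom.map_appLE_assoc]

theorem val_appLE (f : V ⟶ W) {U₀ : V.left.Opens} (i : U₀ ≤ f.left ⁻¹ᵁ U) (s : Γ(W.left, U))
    {p : Pnt V} (h : p.pt ∈ U₀) : val U₀ (f.left.appLE U U₀ i s) p = val U s (p.map f) := by
  rw [val_map, ← val_res' i h]; rfl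

theorem mem_basicOpen_iff {p : Pnt W} (s : Γ(W.left, U)) :
    p.pt ∈ W.left.basicOpen s ↔ val U s p ≠ 0 := by
  by_cases h : p.pt ∈ U
  swap
  · simp only [val_of_not h, ne_eq, not_true, iff_false]
    exact fun h' => h (W.left.basicOpen_le s h')
  constructor
  · intro h'
    rw [← val_res' (W.left.basicOpen_le s) h', val_eq_valR p h']
    exact ((W.left.toRingedSpace.isUnit_res_basicOpen s).map (valR p h').hom).ne_zero
  · intro h'
    rw [val_eq_valR p h] at h'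
    have u : IsUnit (p.mor.appLE U ⊤ (p.le_pre h) s) := by
      have := (isUnit_iff_ne_zero.2 h').map (Scheme.ΓSpecIso (.of ℂ)).inv.hom
      rwa [valR, ← CommRingCat.comp_apply, Category.assoc, Iso.hom_inv_id,
        Category.comp_id] at this
    have e := Scheme.basicOpen_appLE p.mor ⊤ U (p.le_pre h) s
    rw [Scheme.basicOpen_of_isUnit _ u] at e
    exact (e.le (show IsLocalRing.closedPoint ℂ ∈ (⊤ : (Spec (.of ℂ)).Opens) from trivial)).2

theorem isOpen_gen (U : W.left.Opens) (s : Γ(W.left, U)) {T : Set ℂ} (hT : IsOpen T) :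
    IsOpen {p : Pnt W | p.pt ∈ U ∧ val U s p ∈ T} :=
  TopologicalSpace.isOpen_generateFrom_of_mem ⟨U, s, T, hT, rfl⟩

theorem isOpen_Kc (U : W.left.Opens) : IsOpen (Kc (W := W) (U : Set W.left)) := by
  have := isOpen_gen U 0 isOpen_univ
  simpa [Kc] using this

theorem Pnt.cont_pt : Continuous (Pnt.pt : Pnt W → W.left) :=
  continuous_def.2 fun O hO => isOpen_Kc ⟨O, hO⟩

theorem Kc_mem_nhds {p : Pnt W} (h : p.pt ∈ U) : ∀ᶠ q in 𝓝 p, Pnt.pt q ∈ U :=
  (isOpen_Kc U).mem_nhds h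

theorem continuousAt_val {p : Pnt W} (h : p.pt ∈ U) (s : Γ(W.left, U)) :
    ContinuousAt (val U s) p := fun T hT => by
  obtain ⟨T', h1, h2, h3⟩ := mem_nhds_iff.1 hT
  exact mem_map.2 (mem_of_superset ((isOpen_gen U s h2).mem_nhds ⟨h, h3⟩) fun q hq => h1 hq.2)

theorem Pnt.tendsto_iff {T : Type*} {l : Filter T} {f : T → Pnt W} {p : Pnt W} :
    Tendsto f l (𝓝 p) ↔ ∀ (U : W.left.Opens), p.pt ∈ U → (∀ᶠ t in l, (f t).pt ∈ U) ∧
      ∀ s, Tendsto (fun t => val U s (f t)) l (𝓝 (val U s p)) := by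
  refine ⟨fun h U hU => ⟨h.eventually (Kc_mem_nhds hU), fun s =>
    (continuousAt_val hU s).tendsto.comp h⟩, fun h => ?_⟩
  refine TopologicalSpace.tendsto_nhds_generateFrom_iff.2 ?_
  rintro _ ⟨U, s, T, hT, rfl⟩ hp
  exact ((h U hp.1).1.and ((h U hp.1).2 s (hT.mem_nhds hp.2))).mono fun t ht => ht

/-- the complex point of a point of the ring of an affine open set -/
def ofSp (hU : IsAffineOpen U) (q : Sp Γ(W.left, U)) : Pnt W :=
  Over.homMk (Spec.map (CommRingCat.ofHom q.hom.toRingHom) ≫ hU.fromSpec) (by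
    have e := IsAffineOpen.SpecMap_appLE_fromSpec W.hom (isAffineOpen_top _) hU le_top
    rw [IsAffineOpen.fromSpec_top, Scheme.isoSpec_Spec_inv, ← Spec.map_comp] at e
    have e' : ((Scheme.ΓSpecIso (.of ℂ)).inv ≫ W.hom.appLE ⊤ U le_top) ≫
        CommRingCat.ofHom q.hom.toRingHom = 𝟙 _ := by
      ext c
      exact q.hom.commutes c
    change (_ ≫ _) ≫ W.hom = 𝟙 _
    rw [Category.assoc, ← e, ← Spec.map_comp, e', Spec.map_id])

theorem ofSp_mor (hU : IsAffineOpen U) (q : Sp Γ(W.left, U)) :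
    (ofSp hU q).mor = Spec.map (CommRingCat.ofHom q.hom.toRingHom) ≫ hU.fromSpec := rfl

/-- the kernel of a point -/
def Sp.prime {A : Type} [CommRing A] [Algebra ℂ A] (q : Sp A) : PrimeSpectrum A :=
  ⟨RingHom.ker q.hom.toRingHom, RingHom.ker_isPrime _⟩

theorem ofSp_pt (hU : IsAffineOpen U) (q : Sp Γ(W.left, U)) :
    (ofSp hU q).pt = hU.fromSpec q.prime := by
  change hU.fromSpec (Spec.map (CommRingCat.ofHom q.hom.toRingHom) (IsLocalRing.closedPoint ℂ)) = _
  congr 1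
  refine PrimeSpectrum.ext ?_
  change Ideal.comap q.hom.toRingHom (IsLocalRing.maximalIdeal ℂ) = RingHom.ker _
  rw [IsLocalRing.maximalIdeal_eq_bot, RingHom.ker_eq_comap_bot]

theorem ofSp_mem (hU : IsAffineOpen U) (q : Sp Γ(W.left, U)) : (ofSp hU q).pt ∈ U := by
  rw [ofSp_pt, ← SetLike.mem_coe, ← hU.range_fromSpec]
  exact mem_range_self _

theorem mor_eq (hU : IsAffineOpen U) (p : Pnt W) (h : p.pt ∈ U) :
    Spec.map (valR p h) ≫ hU.fromSpec = p.mor := by
  have e := IsAffineOpen.SpecMap_appLE_fromSpec p.mor hU (isAffineOpen_top _) (p.le_pre h)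
  rw [IsAffineOpen.fromSpec_top, Scheme.isoSpec_Spec_inv] at e
  rw [valR, Spec.map_comp, Category.assoc, e, ← Category.assoc, ← Spec.map_comp, Iso.inv_hom_id,
    Spec.map_id, Category.id_comp]

theorem ofSp_valA (hU : IsAffineOpen U) (p : Pnt W) (h : p.pt ∈ U) : ofSp hU (valA p h) = p :=
  Pnt.ext_mor (mor_eq hU p h)

theorem val_ofSp (hU : IsAffineOpen U) (q : Sp Γ(W.left, U)) (a : Γ(W.left, U)) :
    val U a (ofSp hU q) = q a := by
  have e := mor_eq hU _ (ofSp_mem hU q)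
  rw [ofSp_mor, cancel_mono] at e
  rw [val_eq_valR _ (ofSp_mem hU q), Spec.map_injective e]
  rfl

/-- a section near a point of an affine open set is a quotient -/
theorem exists_div (hU : IsAffineOpen U) {x : W.left} (h : x ∈ U) (h' : x ∈ U')
    (s : Γ(W.left, U')) : ∃ a b : Γ(W.left, U), x ∈ W.left.basicOpen b ∧
      W.left.basicOpen b ≤ U' ∧
      ∀ p : Pnt W, val U b p ≠ 0 → val U' s p = val U a p / val U b p := by
  obtain ⟨f, hf, hx⟩ := hU.exists_basicOpen_le ⟨x, h'⟩ h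
  have := hU.isLocalization_basicOpen f
  obtain ⟨⟨a, ⟨_, n, rfl⟩⟩, e⟩ := IsLocalization.surj (Submonoid.powers f)
    (W.left.presheaf.map (homOfLE hf).op s)
  have e0 : W.left.basicOpen (f ^ (n + 1)) = W.left.basicOpen f :=
    W.left.basicOpen_pow _ n.succ_pos
  refine ⟨a * f, f ^ (n + 1), e0.ge hx, e0.le.trans hf, fun p hp => ?_⟩
  have hp' : p.pt ∈ W.left.basicOpen f := e0.le ((mem_basicOpen_iff _).2 hp)
  have hU' := W.left.basicOpen_le f hp'
  have e1 := congrArg (valA p hp') e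
  rw [map_mul, valA_apply, valA_apply, valA_apply, val_res' hf hp'] at e1
  have e2 : ∀ t, val _ (algebraMap Γ(W.left, U) Γ(W.left, W.left.basicOpen f) t) p =
      valA p hU' t := fun t => by
    rw [valA_apply]; exact val_res' (W.left.basicOpen_le f) hp' t
  rw [e2, e2] at e1
  rw [eq_div_iff hp, ← valA_apply p hU', ← valA_apply p hU', map_mul, ← e1, pow_succ, map_mul,
    mul_assoc]

/-- a quotient is a section near a point -/
theorem exists_sec (a b : Γ(W.left, U)) : ∃ s : Γ(W.left, W.left.basicOpen b),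
    ∀ p : Pnt W, val U b p ≠ 0 → val _ s p = val U a p / val U b p := by
  have hb : IsUnit (W.left.presheaf.map (homOfLE (W.left.basicOpen_le b)).op b) :=
    W.left.toRingedSpace.isUnit_res_basicOpen b
  obtain ⟨u, hu⟩ := hb
  refine ⟨W.left.presheaf.map (homOfLE (W.left.basicOpen_le b)).op a * ↑u⁻¹, fun p hp => ?_⟩
  have hp' := (mem_basicOpen_iff _).2 hp
  rw [eq_div_iff hp, ← val_res' (W.left.basicOpen_le b) hp' b,
    ← val_res' (W.left.basicOpen_le b) hp' a, ← valA_apply p hp', ← valA_apply p hp',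
    ← valA_apply p hp', ← map_mul]
  rw [← hu, Units.inv_mul_cancel_right]

theorem Sp.tendsto_iff' {A : Type} [CommRing A] [Algebra ℂ A] {T : Type*} {l : Filter T}
    {f : T → Sp A} {p : Sp A} :
    Tendsto f l (𝓝 p) ↔ ∀ a, Tendsto (fun t => f t a) l (𝓝 (p a)) := by
  rw [nhds_induced, tendsto_comap_iff, tendsto_pi_nhds]; rfl

theorem ofSp_tendsto (hU : IsAffineOpen U) {T : Type*} {l : Filter T} {f : T → Sp Γ(W.left, U)}
    {q : Sp Γ(W.left, U)} : Tendsto (ofSp hU ∘ f) l (𝓝 (ofSp hU q)) ↔ Tendsto f l (𝓝 q) := by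
  rw [Sp.tendsto_iff', Pnt.tendsto_iff]
  refine ⟨fun h a => by simpa [val_ofSp] using (h U (ofSp_mem hU q)).2 a, fun h U' h' => ?_⟩
  have key : ∀ s : Γ(W.left, U'), ∃ a b : Γ(W.left, U), q b ≠ 0 ∧ ∀ q' : Sp Γ(W.left, U),
      q' b ≠ 0 → (ofSp hU q').pt ∈ U' ∧ val U' s (ofSp hU q') = q' a / q' b := fun s => by
    obtain ⟨a, b, h1, h2, h3⟩ := exists_div hU (ofSp_mem hU q) h' s
    refine ⟨a, b, by rwa [mem_basicOpen_iff, val_ofSp] at h1, fun q' hq => ?_⟩
    rw [← val_ofSp hU] at hq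
    exact ⟨h2 ((mem_basicOpen_iff _).2 hq), by rw [h3 _ hq, val_ofSp, val_ofSp]⟩
  constructor
  · obtain ⟨a, b, h1, h2⟩ := key 0
    exact ((h b).eventually_ne h1).mono fun t ht => (h2 _ ht).1
  · intro s
    obtain ⟨a, b, h1, h2⟩ := key s
    rw [(h2 q h1).2]
    exact ((h a).div (h b) h1).congr' (((h b).eventually_ne h1).mono fun t ht => (h2 _ ht).2.symm)

theorem range_ofSp (hU : IsAffineOpen U) : range (ofSp hU) = Kc (U : Set W.left) :=
  Subset.antisymm (range_subset_iff.2 (ofSp_mem hU)) fun p hp => ⟨valA p hp, ofSp_valA hU p hp⟩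

theorem isOpenEmbedding_ofSp (hU : IsAffineOpen U) : IsOpenEmbedding (ofSp hU) := by
  refine ⟨⟨isInducing_iff_nhds.2 fun q => le_antisymm ?_ ?_, fun q q' e => ?_⟩,
    range_ofSp hU ▸ isOpen_Kc U⟩
  · exact tendsto_iff_comap.1 ((ofSp_tendsto hU (f := id)).2 tendsto_id)
  · exact (ofSp_tendsto hU (f := id)).1 tendsto_comap
  · exact DFunLike.ext _ _ fun a => by rw [← val_ofSp hU, e, val_ofSp]

theorem specializes_iff_pri (hU : IsAffineOpen U) {w w' : W.left} (hw : w ∈ U) (hw' : w' ∈ U) :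
    w ⤳ w' ↔ pri hU hw ≤ pri hU hw' := by
  have e := hU.fromSpec.isOpenEmbedding.isInducing.specializes_iff
    (x := hU.primeIdealOf ⟨w, hw⟩) (y := hU.primeIdealOf ⟨w', hw'⟩)
  rw [hU.fromSpec_primeIdealOf, hU.fromSpec_primeIdealOf] at e
  exact e.trans (PrimeSpectrum.le_iff_specializes _ _).symm

theorem pri_ofSp (hU : IsAffineOpen U) (q : Sp Γ(W.left, U)) :
    pri hU (ofSp_mem hU q) = RingHom.ker q.hom.toRingHom := by
  have : hU.primeIdealOf ⟨_, ofSp_mem hU q⟩ = q.prime :=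
    hU.fromSpec.isOpenEmbedding.injective ((hU.fromSpec_primeIdealOf _).trans (ofSp_pt hU q))
  exact congrArg PrimeSpectrum.asIdeal this

theorem emb_ofSp (hU : IsAffineOpen U) : Emb hU (ofSp hU) where
  opn := isOpenEmbedding_ofSp hU
  rng := range_ofSp hU
  val_eq := val_ofSp hU
  spec w hw q := by
    change w ⤳ _ ↔ _
    rw [specializes_iff_pri hU hw (ofSp_mem hU q), pri_ofSp]
    rfl
  rg q f := by
    have hc : Tendsto (ofSp hU) (𝓝 q) (𝓝 (ofSp hU q)) :=
      (isOpenEmbedding_ofSp hU).continuous.continuousAt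
    constructor
    · rintro ⟨U', s, h', e⟩
      obtain ⟨a, b, h1, -, h3⟩ := exists_div hU (ofSp_mem hU q) h' s
      rw [mem_basicOpen_iff, val_ofSp] at h1
      refine ⟨a, b, h1, ((hc.eventually e).and
        ((Sp.tendsto_iff'.1 tendsto_id b).eventually_ne h1)).mono fun q' hq => ?_⟩
      rw [Function.comp_apply, hq.1, h3 _ (by rw [val_ofSp]; exact hq.2), val_ofSp, val_ofSp]
    · rintro ⟨a, b, h1, e⟩
      obtain ⟨s, hs⟩ := exists_sec a b
      refine ⟨_, s, (mem_basicOpen_iff _).2 (by rwa [val_ofSp]), ?_⟩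
      rw [← (isOpenEmbedding_ofSp hU).map_nhds_eq]
      refine eventually_map.2 ((e.and
        ((Sp.tendsto_iff'.1 tendsto_id b).eventually_ne h1)).mono fun q' hq => ?_)
      rw [hs _ (by rw [val_ofSp]; exact hq.2), val_ofSp, val_ofSp]
      exact hq.1

end

end Pool.Agent.Lib.MP_d3d358_ag.Cw
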