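import Pool.Agent.Lib.MP_d3d358_ag.Cw.Rep
import Pool.Agent.Lib.MP_d3d358_ag.Cw.SVal

/-! Basic facts on complex points. -/

set_option autoImplicit false

namespace Pool.Agent.Lib.MP_d3d358_ag.Cw

open CategoryTheory AlgebraicGeometry MonoidalCategory CartesianMonoidalCategory Order Topology Set
  Filter AS

variable {V W F : Sch} {U U' : W.left.Opens}

theorem isClosed_Kc {D : Set W.left} (h : IsClosed D) : IsClosed (Kc D) := h.preimage Pnt.cont_pt

theorem Kw_eq (w : W.left) : Kw w = Kc (closure {w}) :=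
  Set.ext fun _ => specializes_iff_mem_closure

theorem isClosed_Kw (w : W.left) : IsClosed (Kw w) := Kw_eq w ▸ isClosed_Kc isClosed_closure

theorem cont_val (U : W.left.Opens) (s : Γ(W.left, U)) : ContinuousOn (val U s) (Kc U) :=
  fun _ hp => (continuousAt_val hp s).continuousWithinAt

theorem exists_sp {p : Pnt W} (h : p.pt ∈ U) : ∃ q : Sp Γ(W.left, U), ∀ s, q s = val U s p :=
  ⟨valA p h, valA_apply p h⟩

theorem val_res (h : U' ≤ U) (s : Γ(W.left, U)) {p : Pnt W} (hp : p.pt ∈ U') :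
    val U' (W.left.presheaf.map (homOfLE h).op s) p = val U s p := val_res' h hp s

theorem val_ne_zero (s : Γ(W.left, U)) {p : Pnt W} (hp : p.pt ∈ U) :
    val U s p ≠ 0 ↔ p.pt ∈ W.left.basicOpen s := by
  have _ := hp
  exact (mem_basicOpen_iff s).symm

theorem val_add {p : Pnt W} (hp : p.pt ∈ U) (s t : Γ(W.left, U)) :
    val U (s + t) p = val U s p + val U t p := by
  simp only [← valA_apply p hp, map_add]

theorem val_sub {p : Pnt W} (hp : p.pt ∈ U) (s t : Γ(W.left, U)) :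
    val U (s - t) p = val U s p - val U t p := by
  simp only [← valA_apply p hp, map_sub]

theorem val_mul {p : Pnt W} (hp : p.pt ∈ U) (s t : Γ(W.left, U)) :
    val U (s * t) p = val U s p * val U t p := by
  simp only [← valA_apply p hp, map_mul]

theorem val_const {p : Pnt W} (hp : p.pt ∈ U) (c : ℂ) :
    val U (algebraMap ℂ Γ(W.left, U) c) p = c := by
  rw [← valA_apply p hp]; exact (valA p hp).hom.commutes c

theorem val_one {p : Pnt W} (hp : p.pt ∈ U) : val U 1 p = 1 := by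
  rw [← valA_apply p hp, map_one]

theorem val_zero (p : Pnt W) : val U 0 p = 0 := by
  by_cases hp : p.pt ∈ U
  · rw [← valA_apply p hp, map_zero]
  · exact val_of_not hp _

theorem Rg.common {p : Pnt W} {f g : Pnt W → ℂ} (hf : Rg W p f) (hg : Rg W p g) :
    ∃ (U : W.left.Opens) (s t : Γ(W.left, U)), p.pt ∈ U ∧
      ∀ᶠ q in 𝓝 p, Pnt.pt q ∈ U ∧ f q = val U s q ∧ g q = val U t q := by
  obtain ⟨U, s, hU, e⟩ := hf
  obtain ⟨U', t, hU', e'⟩ := hg
  have h : p.pt ∈ U ⊓ U' := ⟨hU, hU'⟩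
  exact ⟨U ⊓ U', _, _, h, ((Kc_mem_nhds h).and (e.and e')).mono fun q hq =>
    ⟨hq.1, hq.2.1.trans (val_res inf_le_left s hq.1).symm,
      hq.2.2.trans (val_res inf_le_right t hq.1).symm⟩⟩

theorem shf (W : Sch) : Shf (Rg W) where
  const p c := ⟨⊤, algebraMap ℂ _ c, trivial, Eventually.of_forall fun q =>
    (val_const (U := ⊤) trivial c).symm⟩
  add p f g hf hg := by
    obtain ⟨U, s, t, h, e⟩ := hf.common hg
    exact ⟨U, s + t, h, e.mono fun q hq => by rw [val_add hq.1, ← hq.2.1, ← hq.2.2]⟩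
  mul p f g hf hg := by
    obtain ⟨U, s, t, h, e⟩ := hf.common hg
    exact ⟨U, s * t, h, e.mono fun q hq => by rw [val_mul hq.1, ← hq.2.1, ← hq.2.2]⟩
  inv p f hf h0 := by
    obtain ⟨U, s, h, e⟩ := hf
    obtain ⟨t, ht⟩ := exists_sec 1 s
    have h1 : p.pt ∈ W.left.basicOpen s := (mem_basicOpen_iff s).2 (e.eq_of_nhds ▸ h0)
    exact ⟨_, t, h1, ((Kc_mem_nhds h1).and e).mono fun q hq => by
      rw [ht q ((mem_basicOpen_iff s).1 hq.1), val_one (W.left.basicOpen_le s hq.1), one_div,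
        ← hq.2]⟩
  congr p f g hf e := by
    obtain ⟨U, s, h, e'⟩ := hf
    exact ⟨U, s, h, e.symm.trans e'⟩
  near p f hf := by
    obtain ⟨U, s, h, e⟩ := hf
    exact ((Kc_mem_nhds h).and e.eventually_nhds).mono fun q hq => ⟨U, s, hq.1, hq.2⟩
  cont p f hf := by
    obtain ⟨U, s, h, e⟩ := hf
    exact (continuousAt_val h s).congr e.symm

theorem rg_val (s : Γ(W.left, U)) {p : Pnt W} (hp : p.pt ∈ U) : Rg W p (val U s) :=
  ⟨U, s, hp, EventuallyEq.rfl⟩

theorem Rg.comp (f : V ⟶ W) {p : Pnt V} {g : Pnt W → ℂ} (h : Rg W (p.map f) g) :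
    Rg V p (g ∘ Pnt.map f) := by
  obtain ⟨U, s, hU, e⟩ := h
  exact ⟨f.left ⁻¹ᵁ U, f.left.app U s, hU,
    ((Pnt.cont f).continuousAt.tendsto.eventually e).mono fun q hq =>
      hq.trans (val_map f U s q)⟩

theorem Pnt.pt_closed (p : Pnt W) : IsClosed {p.pt} := by
  have := isClosedImmersion_of_comp_eq_id _ _ p.mor_hom
  have := p.mor.isClosedEmbedding.isClosed_range
  rwa [Set.range_eq_singleton] at this
  exact fun x => congrArg p.mor (Subsingleton.elim (α := PrimeSpectrum ℂ) _ _)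

theorem Pnt.pt_inj [LocallyOfFiniteType W.hom] : Function.Injective (Pnt.pt : Pnt W → W.left) :=
  fun p q e => Pnt.ext_mor (ext_of_apply_closedPoint_eq W.hom p.mor_hom q.mor_hom e)

theorem exists_pnt [LocallyOfFiniteType W.hom] {x : W.left} (h : IsClosed {x}) :
    ∃ p : Pnt W, p.pt = x :=
  ⟨Over.homMk (pointOfClosedPoint W.hom x h) (pointOfClosedPoint_comp W.hom x h),
    pointOfClosedPoint_apply W.hom x h _⟩

theorem exists_emb (hU : IsAffineOpen U) : ∃ e, Emb hU e := ⟨_, emb_ofSp hU⟩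

theorem ft_sec [LocallyOfFiniteType W.hom] (hU : IsAffineOpen U) :
    Algebra.FiniteType ℂ Γ(W.left, U) := by
  have h := W.hom.finiteType_appLE (isAffineOpen_top _) hU (le_top : U ≤ W.hom ⁻¹ᵁ ⊤)
  exact RingHom.FiniteType.comp h (RingHom.FiniteType.of_surjective _
    (Scheme.ΓSpecIso (.of ℂ)).symm.commRingCatIsoToRingEquiv.surjective)

theorem exists_appA (f : V ⟶ W) {T : V.left.Opens} (h : T ≤ f.left ⁻¹ᵁ U) :
    ∃ φ : Γ(W.left, U) →ₐ[ℂ] Γ(V.left, T), ∀ s, φ s = f.left.appLE U T h s := by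
  refine ⟨{ (f.left.appLE U T h).hom with commutes' := fun c => ?_ }, fun _ => rfl⟩
  have e1 := Scheme.Hom.appLE_comp_appLE f.left W.hom ⊤ U T le_top h
  have e2 : ∀ (g : V.left ⟶ Spec (.of ℂ)) (i), g = V.hom →
      g.appLE ⊤ T i = V.hom.appLE ⊤ T le_top := by
    rintro _ i rfl; rfl
  rw [e2 _ _ (Over.w f)] at e1
  exact congrArg (fun g : Γ(Spec (.of ℂ), ⊤) ⟶ Γ(V.left, T) =>
    g ((Scheme.ΓSpecIso (.of ℂ)).inv c)) e1

theorem Pnt.ext_val (hU : IsAffineOpen U) {p q : Pnt W} (hp : p.pt ∈ U) (hq : q.pt ∈ U)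
    (h : ∀ s, val U s p = val U s q) : p = q := by
  rw [← ofSp_valA hU p hp, ← ofSp_valA hU q hq]
  congr 1
  exact DFunLike.ext _ _ fun s => by rw [valA_apply, valA_apply, h]

theorem Emb.mem {hU : IsAffineOpen U} {e : Sp Γ(W.left, U) → Pnt W} (he : Emb hU e)
    (q : Sp Γ(W.left, U)) : (e q).pt ∈ U := he.rng.le (mem_range_self q)

theorem Emb.valA {hU : IsAffineOpen U} {e : Sp Γ(W.left, U) → Pnt W} (he : Emb hU e) (p : Pnt W)
    (hp : p.pt ∈ U) : e (valA p hp) = p :=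
  Pnt.ext_val hU (he.mem _) hp fun s => by rw [he.val_eq, valA_apply]

theorem Emb.map (f : V ⟶ W) {T : V.left.Opens} (h : T ≤ f.left ⁻¹ᵁ U) {hU : IsAffineOpen U}
    {hT : IsAffineOpen T} {e : Sp Γ(W.left, U) → Pnt W} {e' : Sp Γ(V.left, T) → Pnt V}
    (he : Emb hU e) (he' : Emb hT e') {φ : Γ(W.left, U) →ₐ[ℂ] Γ(V.left, T)}
    (hφ : ∀ s, φ s = f.left.appLE U T h s) (q : Sp Γ(V.left, T)) :
    (e' q).map f = e (Sp.map φ q) :=
  Pnt.ext_val hU (h (he'.mem q)) (he.mem _) fun s => by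
    rw [← val_appLE f h s (he'.mem q), he'.val_eq, he.val_eq, Sp.map_apply, hφ]

theorem Pnt.map_comp (f : V ⟶ W) (g : W ⟶ F) (p : Pnt V) : p.map (f ≫ g) = (p.map f).map g :=
  (Category.assoc (obj := Sch) p f g).symm

theorem Pnt.map_id (p : Pnt V) : p.map (𝟙 V) = p := Category.comp_id (obj := Sch) p

theorem pb_pb (f : V ⟶ W) (g : W ⟶ F) (x : HW F) : pb f (pb g x) = pb (f ≫ g) x := by
  obtain ⟨a, ha, rfl⟩ := Ring_surj x
  have e : Pnt.map (f ≫ g) = Pnt.map g ∘ Pnt.map f := funext (Pnt.map_comp f g)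
  have h : dC (pullC (Pnt.map (f ≫ g)) a) ∈ N univ :=
    dC_pullC _ a ▸ N_pullC (Pnt.cont _).continuousOn (mapsTo_univ _ _) ha
  have h' : dC (pullC (Pnt.map f) (pullC (Pnt.map g) a)) ∈ N univ := by
    rwa [pullC_pullC, ← e]
  change AS.mk _ h' = AS.mk _ h
  congr 1
  rw [pullC_pullC, ← e]

theorem pb_id (x : HW V) : pb (𝟙 V) x = x := by
  obtain ⟨a, ha, rfl⟩ := Ring_surj x
  have e : Pnt.map (𝟙 V) = id := funext Pnt.map_id
  have h : dC (pullC (Pnt.map (𝟙 V)) a) ∈ N univ := by rwa [e, pullC_id]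
  change AS.mk _ h = AS.mk _ ha
  congr 1
  rw [e, pullC_id]

theorem pb_mem (f : V ⟶ W) {k : ℤ} {x : HW W} (h : x ∈ Hd W k) : pb f x ∈ Hd V k := pull_mem h

theorem Kw_map (f : V ⟶ W) (v : V.left) : MapsTo (Pnt.map f) (Kw v) (Kw (f.left v)) :=
  fun _ hp => Specializes.map hp f.left.continuous

/-- convergence can be tested in one affine chart -/
theorem Pnt.tendsto_of_affine (hU : IsAffineOpen U) {T : Type*} {l : Filter T} {f : T → Pnt W}
    {p : Pnt W} (hp : p.pt ∈ U) (h1 : ∀ᶠ t in l, (f t).pt ∈ U)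
    (h2 : ∀ s, Tendsto (fun t => val U s (f t)) l (𝓝 (val U s p))) : Tendsto f l (𝓝 p) := by
  have key : ∀ U', p.pt ∈ U' → ∀ s : Γ(W.left, U'), (∀ᶠ t in l, (f t).pt ∈ U') ∧
      Tendsto (fun t => val U' s (f t)) l (𝓝 (val U' s p)) := fun U' h' s => by
    obtain ⟨a, b, e1, e2, e3⟩ := exists_div hU hp h' s
    rw [mem_basicOpen_iff] at e1
    have := (h2 b).eventually_ne e1
    refine ⟨this.mono fun t ht => e2 ((mem_basicOpen_iff _).2 ht), ?_⟩
    rw [e3 p e1]
    exact ((h2 a).div (h2 b) e1).congr' (this.mono fun t ht => (e3 _ ht).symm)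
  have _ := h1
  exact Pnt.tendsto_iff.2 fun U' h' => ⟨(key U' h' 0).1, fun s => (key U' h' s).2⟩

theorem exists_affine (x : W.left) : ∃ U : W.left.Opens, IsAffineOpen U ∧ x ∈ U := by
  obtain ⟨_, ⟨U, hU, rfl⟩, hx, -⟩ :=
    W.left.isBasis_affineOpens.exists_subset_of_mem_open (mem_univ x) isOpen_univ
  exact ⟨U, hU, hx⟩

theorem exists_affine_le {x : W.left} (hx : x ∈ U') :
    ∃ U : W.left.Opens, IsAffineOpen U ∧ x ∈ U ∧ U ≤ U' := by
  obtain ⟨_, ⟨U, hU, rfl⟩, hx, h⟩ :=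
    W.left.isBasis_affineOpens.exists_subset_of_mem_open hx U'.isOpen
  exact ⟨U, hU, hx, h⟩

theorem ft_closed [LocallyOfFiniteType W.hom] (ι : V ⟶ W) [IsClosedImmersion ι.left] :
    LocallyOfFiniteType V.hom := by
  rw [← Over.w ι]; infer_instance

theorem range_map_closed [LocallyOfFiniteType W.hom] (ι : V ⟶ W) [IsClosedImmersion ι.left] :
    range (Pnt.map ι) = Kc (range ι.left) := by
  have := ft_closed ι
  refine Subset.antisymm (range_subset_iff.2 fun q => ⟨q.pt, rfl⟩) ?_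
  rintro p ⟨x, hx⟩
  have hc : IsClosed {x} := by
    have := p.pt_closed.preimage ι.left.continuous
    rwa [← hx, ← image_singleton, ι.left.isClosedEmbedding.injective.preimage_image] at this
  obtain ⟨q, rfl⟩ := exists_pnt hc
  exact ⟨q, Pnt.pt_inj hx⟩

theorem isClosedEmbedding_map [LocallyOfFiniteType W.hom] (ι : V ⟶ W) [IsClosedImmersion ι.left] :
    IsClosedEmbedding (Pnt.map ι) := by
  have := ft_closed ι
  refine ⟨⟨isInducing_iff_nhds.2 fun q => le_antisymm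
    (tendsto_iff_comap.1 (Pnt.cont ι).continuousAt) ?_, fun q q' e => Pnt.pt_inj
      (ι.left.isClosedEmbedding.injective (congrArg Pnt.pt e))⟩,
    range_map_closed ι ▸ isClosed_Kc ι.left.isClosedEmbedding.isClosed_range⟩
  obtain ⟨U, hU, hx⟩ := exists_affine (q.map ι).pt
  have h := Pnt.tendsto_iff.1 (tendsto_comap (f := Pnt.map ι) (x := 𝓝 (q.map ι))) U hx
  refine Pnt.tendsto_of_affine (f := id) (hU.preimage ι.left) hx h.1 fun s => ?_
  obtain ⟨t, rfl⟩ := ι.left.app_surjective U hU s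
  simpa only [val_map, id] using h.2 t

theorem gd_closed [Gd W] (ι : V ⟶ W) [IsClosedImmersion ι.left] : Gd V :=
  ⟨ft_closed ι, ι.left.isClosedEmbedding.compactSpace, (isClosedEmbedding_map ι).compactSpace,
    (isClosedEmbedding_map ι).isEmbedding.metrizableSpace⟩

end Pool.Agent.Lib.MP_d3d358_ag.Cw
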