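import Pool.Agent.Lib.MP_d3d358_ag.Cw.Et
import Pool.Agent.Lib.MP_d3d358_ag.Cw.PntA

/-! The degree of a dominant map of varieties of the same dimension counts general fibres. -/

set_option autoImplicit false

namespace Pool.Agent.Lib.MP_d3d358_ag.Cw

open CategoryTheory AlgebraicGeometry Order Topology Set Filter AS

theorem push_lift {R : Type} [CommRing R] [Algebra ℂ R] {P : Ideal R} {q : Sp R} (h : q ∈ Vz P) :
    ∃ q' : Sp (R ⧸ P), Sp.map (Ideal.Quotient.mkₐ ℂ P) q' = q :=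
  ⟨show (R ⧸ P) →ₐ[ℂ] ℂ from Ideal.Quotient.liftₐ P q.hom h, DFunLike.ext _ _ fun _ => rfl⟩

theorem push_inj {R : Type} [CommRing R] [Algebra ℂ R] (P : Ideal R) :
    Function.Injective (Sp.map (Ideal.Quotient.mkₐ ℂ P)) := fun p q h =>
  DFunLike.ext _ _ fun a => by
    obtain ⟨a, rfl⟩ := Ideal.Quotient.mk_surjective a
    exact DFunLike.congr_fun h a

theorem push_dom {A A' K K' : Type} [CommRing A] [Algebra ℂ A] [CommRing A'] [Algebra ℂ A']
    [IsDomain A] [IsDomain A'] [Algebra.FiniteType ℂ A] [Algebra.FiniteType ℂ A'] [Field K]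
    [Field K'] [Algebra K' K] (ι : A' →ₐ[ℂ] A) (e : A →+* K) (e' : A' →+* K')
    (k : Function.Injective e) (k' : Function.Injective e')
    (s : ∀ z : K, ∃ a b, z = e a / e b) (s' : ∀ z : K', ∃ a b, z = e' a / e' b)
    (c : ∀ a, algebraMap K' K (e' a) = e (ι a)) {r : ℕ} {y : Fin r → A'}
    (hy : IsTranscendenceBasis ℂ y) {y₀ : Fin r → A} (hy₀ : IsTranscendenceBasis ℂ y₀) :
    IsTranscendenceBasis ℂ (ι ∘ y) ∧ ∃ h ≠ 0, ∀ q : Sp A', q h ≠ 0 → ∃ S : Finset (Sp A),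
      S.card = Module.finrank K' K ∧ (S : Set (Sp A)) = Sp.map ι ⁻¹' {q} := by
  have inj : Function.Injective ι := fun a b h =>
    k' ((algebraMap K' K).injective (by rw [c, c, h]))
  have tb : IsTranscendenceBasis ℂ (ι ∘ y) :=
    AlgebraicIndependent.isTranscendenceBasis_of_trdeg_le_of_finite (hy.1.map' inj)
      hy₀.cardinalMk_eq_trdeg.ge
  refine ⟨tb, ?_⟩
  let _ : Algebra A' A := ι.toRingHom.toAlgebra
  have : IsScalarTower ℂ A' A := IsScalarTower.of_algHom ι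
  have : FaithfulSMul A' A := (faithfulSMul_iff_algebraMap_injective _ _).2 inj
  have : Algebra.IsAlgebraic A' A := by
    have h1 := tb.isAlgebraic
    have le : Algebra.adjoin ℂ (range (ι ∘ y)) ≤ ι.range :=
      Algebra.adjoin_le (range_subset_iff.2 fun i => ⟨y i, rfl⟩)
    refine ⟨fun a => ?_⟩
    have h2 : IsAlgebraic ι.range a := (h1.1 a).tower_top_of_subalgebra_le le
    exact (isAlgebraic_ringHom_iff_of_comp_eq (AlgEquiv.ofInjective ι inj).toRingEquiv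
      (RingHom.id _) Function.injective_id (RingHom.ext fun _ => rfl)).1 h2
  let _ : Algebra A K := e.toAlgebra
  let _ : Algebra A' K' := e'.toAlgebra
  let _ : Algebra A' K := ((algebraMap K' K).comp e').toAlgebra
  have : IsScalarTower A' K' K := IsScalarTower.of_algebraMap_eq fun _ => rfl
  have : IsScalarTower A' A K := IsScalarTower.of_algebraMap_eq c
  have : FaithfulSMul A K := (faithfulSMul_iff_algebraMap_injective _ _).2 k
  have : FaithfulSMul A' K' := (faithfulSMul_iff_algebraMap_injective _ _).2 k'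
  have := IsFractionRing.of_field A K s
  have := IsFractionRing.of_field A' K' s'
  obtain ⟨h, h0, H⟩ := gen_fib (A := A) (A' := A')
  refine ⟨h, h0, fun q hq => ?_⟩
  obtain ⟨⟨S, hS, eS⟩, -⟩ := H q hq
  exact ⟨S, by rw [hS, IsFractionRing.finrank_eq A' K' A K], eS⟩

theorem push_quot {R K : Type} [CommRing R] [Field K] {P : Ideal R} {e : R →+* K}
    (k : ∀ a, e a = 0 ↔ a ∈ P) (s : ∀ z : K, ∃ a b, z = e a / e b) : ∃ e₀ : R ⧸ P →+* K,
      (∀ a, e₀ (Ideal.Quotient.mk P a) = e a) ∧ Function.Injective e₀ ∧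
        ∀ z : K, ∃ a b, z = e₀ a / e₀ b := by
  refine ⟨Ideal.Quotient.lift P e fun a ha => (k a).2 ha, fun _ => rfl,
    (injective_iff_map_eq_zero _).2 fun a ha => ?_, fun z => ?_⟩
  · obtain ⟨a, rfl⟩ := Ideal.Quotient.mk_surjective a
    exact Ideal.Quotient.eq_zero_iff_mem.2 ((k a).1 ha)
  · obtain ⟨a, b, h⟩ := s z
    exact ⟨Ideal.Quotient.mk P a, Ideal.Quotient.mk P b, h⟩

theorem push_alg {R R' K K' : Type} [CommRing R] [Algebra ℂ R] [CommRing R'] [Algebra ℂ R']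
    [Algebra.FiniteType ℂ R] [Algebra.FiniteType ℂ R'] [Field K] [Field K'] [Algebra K' K]
    (φ : R' →ₐ[ℂ] R) (P : Ideal R) (P' : Ideal R') [P.IsPrime] [P'.IsPrime] (e : R →+* K)
    (e' : R' →+* K') (k : ∀ a, e a = 0 ↔ a ∈ P) (k' : ∀ a, e' a = 0 ↔ a ∈ P')
    (s : ∀ z : K, ∃ a b, z = e a / e b) (s' : ∀ z : K', ∃ a b, z = e' a / e' b)
    (c : ∀ a, algebraMap K' K (e' a) = e (φ a)) {r : ℕ} {y : Fin r → R'}
    (hy : IsTranscendenceBasis ℂ (Ideal.Quotient.mk P' ∘ y)) {y₀ : Fin r → R}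
    (hy₀ : IsTranscendenceBasis ℂ (Ideal.Quotient.mk P ∘ y₀)) :
    IsTranscendenceBasis ℂ (Ideal.Quotient.mk P ∘ fun i => φ (y i)) ∧
      ∃ h ∉ P', ∀ q ∈ Vz P', q h ≠ 0 → ∃ S : Finset (Sp R), S.card = Module.finrank K' K ∧
        (S : Set (Sp R)) = Vz P ∩ Sp.map φ ⁻¹' {q} := by
  classical
  have hP : ∀ a, φ a ∈ P ↔ a ∈ P' := fun a => by
    rw [← k, ← k', ← c, map_eq_zero]
  obtain ⟨ι, hι⟩ : ∃ ι : (R' ⧸ P') →ₐ[ℂ] R ⧸ P,
      ∀ a, ι (Ideal.Quotient.mk P' a) = Ideal.Quotient.mk P (φ a) :=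
    ⟨Ideal.quotientMapₐ P φ fun a ha => (hP a).2 ha, fun _ => rfl⟩
  obtain ⟨e₀, he, k₀, s₀⟩ := push_quot k s
  obtain ⟨e₁, he', k₁, s₁⟩ := push_quot k' s'
  obtain ⟨tb, h, h0, H⟩ := push_dom ι e₀ e₁ k₀ k₁ s₀ s₁ (fun a => by
    obtain ⟨a, rfl⟩ := Ideal.Quotient.mk_surjective a
    rw [he', hι, he, c]) hy hy₀
  have ey : ι ∘ Ideal.Quotient.mk P' ∘ y = Ideal.Quotient.mk P ∘ fun i => φ (y i) :=
    funext fun i => hι (y i)
  refine ⟨ey ▸ tb, ?_⟩
  obtain ⟨h, rfl⟩ := Ideal.Quotient.mk_surjective h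
  refine ⟨h, fun hh => h0 (Ideal.Quotient.eq_zero_iff_mem.2 hh), fun q hq hqh => ?_⟩
  obtain ⟨q, rfl⟩ := push_lift hq
  obtain ⟨S, hS, eS⟩ := H q hqh
  refine ⟨S.image (Sp.map (Ideal.Quotient.mkₐ ℂ P)), ?_, ?_⟩
  · rw [Finset.card_image_of_injective _ (push_inj P), hS]
  · rw [Finset.coe_image, eS]
    refine Subset.antisymm ?_ fun p hp => ?_
    · rintro _ ⟨p, hp, rfl⟩
      refine ⟨fun a ha => ?_, DFunLike.ext _ _ fun a => ?_⟩
      · exact (congrArg p (Ideal.Quotient.eq_zero_iff_mem.2 ha)).trans (map_zero p)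
      · exact (congrArg p (hι a)).symm.trans
          (DFunLike.congr_fun (show Sp.map ι p = q from hp) (Ideal.Quotient.mk P' a))
    · obtain ⟨p, rfl⟩ := push_lift hp.1
      refine ⟨p, DFunLike.ext _ _ fun a => ?_, rfl⟩
      obtain ⟨a, rfl⟩ := Ideal.Quotient.mk_surjective a
      exact (congrArg p (hι a)).trans (DFunLike.congr_fun (show Sp.map φ _ = _ from hp.2) a)

variable {V W : Sch} {U : W.left.Opens}

theorem push_mem_pri (hU : IsAffineOpen U) {w : W.left} (hw : w ∈ U) (a : Γ(W.left, U)) :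
    a ∈ pri hU hw ↔ w ∉ W.left.basicOpen a := by
  have e := hU.fromSpec_preimage_basicOpen a
  have e' : hU.fromSpec (hU.primeIdealOf ⟨w, hw⟩) ∈ W.left.basicOpen a ↔ a ∉ pri hU hw :=
    SetLike.ext_iff.1 e _
  rw [hU.fromSpec_primeIdealOf] at e'
  rw [e', not_not]

theorem push_ev_zero (hU : IsAffineOpen U) {w : W.left} (hw : w ∈ U) (a : Γ(W.left, U)) :
    (W.left.evaluation U w hw).hom a = 0 ↔ a ∈ pri hU hw := by
  rw [push_mem_pri]
  exact W.left.evaluation_eq_zero_iff_notMem_basicOpen w hw a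

theorem push_ev_surj (hU : IsAffineOpen U) {w : W.left} (hw : w ∈ U)
    (z : W.left.residueField w) : ∃ a b,
      z = (W.left.evaluation U w hw).hom a / (W.left.evaluation U w hw).hom b := by
  obtain ⟨z, rfl⟩ := W.left.residue_surjective w z
  let _ := W.left.presheaf.algebra_section_stalk ⟨w, hw⟩
  have := hU.isLocalization_stalk ⟨w, hw⟩
  obtain ⟨⟨a, b⟩, e⟩ := IsLocalization.surj (pri hU hw).primeCompl z
  refine ⟨a, b, (eq_div_iff fun h => b.2 ((push_ev_zero hU hw _).1 h)).2 ?_⟩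
  exact (map_mul (W.left.residue w).hom _ _).symm.trans (congrArg (W.left.residue w).hom e)

theorem push_ev_nat (f : V ⟶ W) {T : V.left.Opens} (h : T ≤ f.left ⁻¹ᵁ U) {v : V.left}
    (hv : v ∈ T) (a : Γ(W.left, U)) :
    (f.left.residueFieldMap v).hom ((W.left.evaluation U (f.left v) (h hv)).hom a) =
      (V.left.evaluation T v hv).hom (f.left.appLE U T h a) := by
  refine (Scheme.evaluation_naturality_apply f.left v (h hv) a).trans ?_
  change (V.left.residue v).hom _ = (V.left.residue v).hom _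
  congr 1
  exact (V.left.presheaf.germ_res_apply (homOfLE h) v hv _).symm

/-- general fibres over an affine open set -/
theorem push_fib [LocallyOfFiniteType V.hom] [LocallyOfFiniteType W.hom] (f : V ⟶ W)
    (hU : IsAffineOpen U) {T : V.left.Opens} (hT : IsAffineOpen T) (h : T ≤ f.left ⁻¹ᵁ U)
    {v : V.left} (hv : v ∈ T) {r : ℕ} {y : Fin r → Γ(W.left, U)}
    (hy : IsTranscendenceBasis ℂ (Ideal.Quotient.mk (pri hU (h hv)) ∘ y))
    {y₀ : Fin r → Γ(V.left, T)} (hy₀ : IsTranscendenceBasis ℂ (Ideal.Quotient.mk (pri hT hv) ∘ y₀)) :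
    IsTranscendenceBasis ℂ (Ideal.Quotient.mk (pri hT hv) ∘ fun i => f.left.appLE U T h (y i)) ∧
      ∃ g ∉ pri hU (h hv), ∀ p ∈ Kw (f.left v), val U g p ≠ 0 → ∃ S : Finset (Pnt V),
        S.card = f.left.residueDegree v ∧
        (S : Set (Pnt V)) = Kw v ∩ Kc (T : Set V.left) ∩ Pnt.map f ⁻¹' {p} := by
  classical
  have := ft_sec hU
  have := ft_sec hT
  obtain ⟨φ, hφ⟩ := exists_appA f h
  let _ := (f.left.residueFieldMap v).hom.toAlgebra
  obtain ⟨tb, g, hg, H⟩ := push_alg φ (pri hT hv) (pri hU (h hv)) (V.left.evaluation T v hv).hom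
    (W.left.evaluation U (f.left v) (h hv)).hom (push_ev_zero hT hv) (push_ev_zero hU (h hv))
    (push_ev_surj hT hv) (push_ev_surj hU (h hv))
    (fun a => by rw [hφ]; exact push_ev_nat f h hv a) hy hy₀
  refine ⟨by simpa only [hφ] using tb, g, hg, fun p hp hg' => ?_⟩
  have hpU : p.pt ∈ U := W.left.basicOpen_le g ((mem_basicOpen_iff g).2 hg')
  have he := emb_ofSp hU
  have he' := emb_ofSp hT
  obtain ⟨S, hS, eS⟩ := H (valA p hpU) ((he.spec _ _ _).1 (by rwa [he.valA]))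
    (by rwa [valA_apply])
  refine ⟨S.image (ofSp hT), by rw [Finset.card_image_of_injective _ he'.opn.injective, hS]; rfl, ?_⟩
  rw [Finset.coe_image, eS]
  refine Subset.antisymm ?_ fun u hu => ?_
  · rintro _ ⟨q, hq, rfl⟩
    refine ⟨⟨(he'.spec _ hv _).2 hq.1, he'.mem q⟩, ?_⟩
    change (ofSp hT q).map f = p
    rw [Emb.map f h he he' hφ, show Sp.map φ q = valA p hpU from hq.2, he.valA]
  · have e := he'.valA u hu.1.2
    refine ⟨valA u hu.1.2, ⟨(he'.spec _ hv _).1 (by rw [e]; exact hu.1.1), he.opn.injective ?_⟩, e⟩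
    rw [← Emb.map f h he he' hφ, e, he.valA]
    exact hu.2

end Pool.Agent.Lib.MP_d3d358_ag.Cw
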