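import Pool.Agent.Lib.MP_d3d358_ag.Cw.PntA

/-! Products: squares, boxes, the homeomorphism on complex points. -/

set_option autoImplicit false

namespace Pool.Agent.Lib.MP_d3d358_ag.Cw

open CategoryTheory AlgebraicGeometry MonoidalCategory CartesianMonoidalCategory Order Topology Set
  Filter AS

variable {V W F X Y Z X' Y' : Sch} {f : V ⟶ W} {g : V ⟶ F}

theorem sq_of (l : ∀ {T : Sch}, (T ⟶ W) → (T ⟶ F) → (T ⟶ V))
    (h1 : ∀ {T : Sch} (a : T ⟶ W) (b : T ⟶ F), l a b ≫ f = a)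
    (h2 : ∀ {T : Sch} (a : T ⟶ W) (b : T ⟶ F), l a b ≫ g = b)
    (h3 : ∀ {T : Sch} (c : T ⟶ V), l (c ≫ f) (c ≫ g) = c) : Sq f g :=
  Over.isPullback_of_binaryFan_isLimit (Limits.BinaryFan.mk f g)
    (Limits.BinaryFan.IsLimit.mk _ l h1 h2 fun a b m e1 e2 => by rw [← e1, ← e2]; exact (h3 m).symm)

theorem sq_prod (X Y : Sch) : Sq (fst X Y) (snd X Y) := IsPullback.of_hasPullback _ _

theorem Sq.symm (h : Sq f g) : Sq g f := h.flip

theorem sq_12 (X Y Z : Sch) : Sq (X ◁ fst Y Z) (snd X (Y ⊗ Z) ≫ snd Y Z) :=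
  sq_of (fun a b => lift (a ≫ fst X Y) (lift (a ≫ snd X Y) b))
    (fun a b => CartesianMonoidalCategory.hom_ext _ _ (by simp) (by simp)) (fun a b => by simp)
    fun c => CartesianMonoidalCategory.hom_ext _ _ (by simp)
      (CartesianMonoidalCategory.hom_ext _ _ (by simp) (by simp))

theorem sq_tens (X X' Y Y' : Sch) : Sq (fst X X' ⊗ₘ fst Y Y') (snd X X' ⊗ₘ snd Y Y') :=
  sq_of (fun a b => lift (lift (a ≫ fst X Y) (b ≫ fst X' Y')) (lift (a ≫ snd X Y) (b ≫ snd X' Y')))
    (fun a b => CartesianMonoidalCategory.hom_ext _ _ (by simp) (by simp))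
    (fun a b => CartesianMonoidalCategory.hom_ext _ _ (by simp) (by simp))
    fun c => CartesianMonoidalCategory.hom_ext _ _
      (CartesianMonoidalCategory.hom_ext _ _ (by simp) (by simp))
      (CartesianMonoidalCategory.hom_ext _ _ (by simp) (by simp))

variable {U : W.left.Opens} {U' : F.left.Opens}

theorem Sq.box_affine (h : Sq f g) (hU : IsAffineOpen U) (hU' : IsAffineOpen U') :
    IsAffineOpen (f.left ⁻¹ᵁ U ⊓ g.left ⁻¹ᵁ U') := by
  have : IsAffine _ := hU
  have : IsAffine _ := hU'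
  have : IsAffine _ := isAffineOpen_top (Spec (.of ℂ))
  exact .of_isIso (Scheme.Hom.isPullback_resLE h (US := ⊤) (UT := U') (UX := U) le_top le_top
    rfl).isoPullback.hom

theorem Sq.box_pushout (h : Sq f g) (hU : IsAffineOpen U) (hU' : IsAffineOpen U') :
    IsPushout (W.hom.appLE ⊤ U le_top) (F.hom.appLE ⊤ U' le_top)
      (f.left.appLE U (f.left ⁻¹ᵁ U ⊓ g.left ⁻¹ᵁ U') inf_le_left)
      (g.left.appLE U' (f.left ⁻¹ᵁ U ⊓ g.left ⁻¹ᵁ U') inf_le_right) :=
  (isIso_pushoutSection_iff h (US := ⊤) (UT := U') (UX := U) le_top le_top rfl).1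
    (isIso_pushoutSection_of_isAffineOpen h le_top le_top rfl (isAffineOpen_top _) hU' hU)

/-- every section over a box is a sum of products -/
theorem Sq.box (h : Sq f g) (hU : IsAffineOpen U) (hU' : IsAffineOpen U')
    (s : Γ(V.left, f.left ⁻¹ᵁ U ⊓ g.left ⁻¹ᵁ U')) :
    s ∈ AddSubmonoid.closure {x | ∃ a b, x = f.left.appLE U _ inf_le_left a *
      g.left.appLE U' _ inf_le_right b} := by
  have e := CommRingCat.closure_range_union_range_eq_top_of_isPushout (h.box_pushout hU hU')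
  have hs : s ∈ Subring.closure _ := e.ge (Subring.mem_top s)
  have hm : ∀ x ∈ AddSubmonoid.closure {x | ∃ a b, x = f.left.appLE U _ inf_le_left a *
      g.left.appLE U' (f.left ⁻¹ᵁ U ⊓ g.left ⁻¹ᵁ U') inf_le_right b},
      ∀ y ∈ AddSubmonoid.closure {x | ∃ a b, x = f.left.appLE U _ inf_le_left a *
      g.left.appLE U' (f.left ⁻¹ᵁ U ⊓ g.left ⁻¹ᵁ U') inf_le_right b},
      x * y ∈ AddSubmonoid.closure {x | ∃ a b, x = f.left.appLE U _ inf_le_left a *
      g.left.appLE U' (f.left ⁻¹ᵁ U ⊓ g.left ⁻¹ᵁ U') inf_le_right b} := fun x hx y hy => by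
    induction hx, hy using AddSubmonoid.closure_induction₂ with
    | mem x y hx hy =>
      obtain ⟨a, b, rfl⟩ := hx
      obtain ⟨a', b', rfl⟩ := hy
      exact AddSubmonoid.subset_closure ⟨a * a', b * b', by simp only [map_mul]; ring⟩
    | zero_left => rw [zero_mul]; exact zero_mem _
    | zero_right => rw [mul_zero]; exact zero_mem _
    | add_left _ _ _ _ _ _ h1 h2 => rw [add_mul]; exact add_mem h1 h2
    | add_right _ _ _ _ _ _ h1 h2 => rw [mul_add]; exact add_mem h1 h2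
  induction hs using Subring.closure_induction with
  | mem x hx =>
    rcases hx with ⟨a, rfl⟩ | ⟨b, rfl⟩
    · exact AddSubmonoid.subset_closure ⟨a, 1, by rw [map_one, mul_one]⟩
    · exact AddSubmonoid.subset_closure ⟨1, b, by rw [map_one, one_mul]⟩
  | zero => exact zero_mem _
  | one => exact AddSubmonoid.subset_closure ⟨1, 1, by rw [map_one, map_one, one_mul]⟩
  | add _ _ _ _ h1 h2 => exact add_mem h1 h2
  | neg x _ h1 =>
    rw [← neg_one_mul]
    exact hm _ (AddSubmonoid.subset_closure ⟨-1, 1, by rw [map_neg, map_one, map_one, mul_one]⟩) _ h1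
  | mul _ _ _ _ h1 h2 => exact hm _ h1 _ h2

/-- induction over the functions given by sections over a box -/
theorem Sq.box_ind (h : Sq f g) (hU : IsAffineOpen U) (hU' : IsAffineOpen U')
    {P : (Pnt V → ℂ) → Prop}
    (h0 : ∀ u v, P u → EqOn v u (Kc (f.left ⁻¹ᵁ U ⊓ g.left ⁻¹ᵁ U' : V.left.Opens)) → P v)
    (h1 : ∀ a b, P fun p => val U a (p.map f) * val U' b (p.map g))
    (h2 : ∀ u v, P u → P v → P fun p => u p + v p)
    (s : Γ(V.left, f.left ⁻¹ᵁ U ⊓ g.left ⁻¹ᵁ U')) : P (val _ s) := by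
  induction h.box hU hU' s using AddSubmonoid.closure_induction with
  | mem x hx =>
    obtain ⟨a, b, rfl⟩ := hx
    exact h0 _ _ (h1 a b) fun p hp => by rw [val_mul hp, val_appLE f _ _ hp, val_appLE g _ _ hp]
  | zero => exact h0 _ _ (h1 0 0) fun p _ => by simp only [val_zero, mul_zero]
  | add x y _ _ hx hy => exact h0 _ _ (h2 _ _ hx hy) fun p hp => val_add hp x y

theorem Sq.bij (h : Sq f g) : Function.Bijective fun p : Pnt V => (p.map f, p.map g) := by
  refine ⟨fun p q e => Pnt.ext_mor (h.hom_ext (congrArg (fun u => Pnt.mor u.1) e)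
    (congrArg (fun u => Pnt.mor u.2) e)), fun ⟨a, b⟩ => ?_⟩
  have w : a.mor ≫ W.hom = b.mor ≫ F.hom := a.mor_hom.trans b.mor_hom.symm
  refine ⟨Over.homMk (h.lift a.mor b.mor w) ?_, Prod.ext (Pnt.ext_mor (h.lift_fst _ _ w))
    (Pnt.ext_mor (h.lift_snd _ _ w))⟩
  rw [← Over.w f, h.lift_fst_assoc]
  exact a.mor_hom

theorem Sq.homeo (h : Sq f g) : IsHomeomorph fun p : Pnt V => (p.map f, p.map g) := by
  refine isHomeomorph_iff_isEmbedding_surjective.2 ⟨⟨isInducing_iff_nhds.2 fun q => le_antisymm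
    (tendsto_iff_comap.1 ((Pnt.cont f).prodMk (Pnt.cont g)).continuousAt) ?_, h.bij.1⟩, h.bij.2⟩
  obtain ⟨U, hU, hx⟩ := exists_affine (q.map f).pt
  obtain ⟨U', hU', hx'⟩ := exists_affine (q.map g).pt
  have t := tendsto_comap (f := fun p : Pnt V => (p.map f, p.map g)) (x := 𝓝 (q.map f, q.map g))
  have t1 := Pnt.tendsto_iff.1 (continuous_fst.continuousAt.tendsto.comp t) U hx
  have t2 := Pnt.tendsto_iff.1 (continuous_snd.continuousAt.tendsto.comp t) U' hx'
  have t3 := t1.1.and t2.1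
  refine Pnt.tendsto_of_affine (f := id) (h.box_affine hU hU') ⟨hx, hx'⟩ t3 fun s => ?_
  refine h.box_ind hU hU' (P := fun u => Tendsto u _ (𝓝 (u q))) (fun u v hu e => ?_)
    (fun a b => (t1.2 a).mul (t2.2 b)) (fun u v hu hv => hu.add hv) s
  rw [e (show q ∈ Kc (f.left ⁻¹ᵁ U ⊓ g.left ⁻¹ᵁ U' : V.left.Opens) from ⟨hx, hx'⟩)]
  exact hu.congr' (t3.mono fun p hp => (e hp).symm)

theorem Sq.gd (h : Sq f g) [Gd W] [Gd F] : Gd V := by
  have h1 : LocallyOfFiniteType f.left :=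
    MorphismProperty.of_isPullback (P := @LocallyOfFiniteType) h.flip inferInstance
  have h2 : QuasiCompact f.left :=
    MorphismProperty.of_isPullback (P := @QuasiCompact) h.flip inferInstance
  refine ⟨by rw [← Over.w f]; infer_instance, QuasiCompact.compactSpace_of_compactSpace f.left,
    h.homeo.isClosedEmbedding.compactSpace, h.homeo.isEmbedding.metrizableSpace⟩

instance gd_tensor [Gd X] [Gd Y] : Gd (X ⊗ Y) := (sq_prod X Y).gd

end Pool.Agent.Lib.MP_d3d358_ag.Cw
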