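import Pool.Agent.Lib.MP_d3d358_ag.Cw.PntXa
import Pool.Agent.Lib.MP_d3d358_ag.Var.CxC
import Pool.Agent.Lib.MP_d3d358_ag.Var.CxB

/-! The complex points of `Proj S` with their two descriptions. -/

set_option autoImplicit false

namespace Pool.Agent.Lib.MP_d3d358_ag.Cw

open CategoryTheory AlgebraicGeometry MonoidalCategory CartesianMonoidalCategory Order Topology Set
  Filter AS
open Pool.Agent.Lib.MP_9ff3e7_ag.F Pool.Agent.Lib.MP_cd184e_ag.B G Var
open HomogeneousLocalization (Away awayMap fromZeroRingHom)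

noncomputable section

variable {n : ℕ} {S : Type} [CommRing S] [Algebra ℂ S] {𝒜 : ℕ → Submodule ℂ S} [GradedAlgebra 𝒜]

namespace PX

variable {m : ℕ} {f : S}

/-- the complex point of a point of the cone -/
def thP (p : Pt 𝒜) : Pnt (PW 𝒜) := th p.2.choose_spec.1 one_pos p.1 p.2.choose_spec.2

theorem thP_eq (hf : f ∈ 𝒜 m) (hm : 0 < m) (p : Pt 𝒜) (h : p.1 f ≠ 0) : thP p = th hf hm p.1 h :=
  th_eq _ _ _ _ _ _ _

theorem thP_mem (hf : f ∈ 𝒜 m) (hm : 0 < m) (p : Pt 𝒜) : (thP p).pt ∈ UU 𝒜 f ↔ p.1 f ≠ 0 :=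
  th_mem_iff _ _ _ _ hf hm

theorem val_thP (hf : f ∈ 𝒜 m) (hm : 0 < m) (p : Pt 𝒜) (h : p.1 f ≠ 0) (k : ℕ) (a : S)
    (ha : a ∈ 𝒜 (k • m)) : val (UU 𝒜 f) (sec (HomogeneousLocalization.Away.mk 𝒜 hf k a ha))
      (thP p) = p.1 a / p.1 f ^ k := by
  rw [thP_eq hf hm p h, val_th, evA_mk]

theorem thP_scl (c : ℂˣ) (p : Pt 𝒜) : thP (scl c p) = thP p := by
  obtain ⟨l, hl, h0⟩ := p.2
  have h1 : (scl c p).1 l ≠ 0 := by simp [scl_apply c p hl, h0]
  refine Pnt.ext_val (aff_UU hl one_pos) ((thP_mem hl one_pos _).2 h1)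
    ((thP_mem hl one_pos _).2 h0) fun s => ?_
  obtain ⟨k, a, ha, rfl⟩ := sec_surj hl one_pos s
  rw [val_thP hl one_pos _ h1, val_thP hl one_pos _ h0, scl_apply c p ha, scl_apply c p hl]
  simp [mul_pow, mul_div_mul_left]

/-- the map on complex points -/
def thX (x : Cx 𝒜) : Pnt (PW 𝒜) := thP (rep x)

theorem thX_cx (h : Gen1 𝒜) (p : Pt 𝒜) : thX (cx p) = thP p := by
  obtain ⟨c, e⟩ := exists_scl h (cx_rep (cx p)).symm
  rw [thX, e, thP_scl]

theorem adjoin_zero {s : Set S} (hs : Algebra.adjoin ℂ s = ⊤) : Algebra.adjoin (𝒜 0) s = ⊤ := by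
  refine top_unique fun a _ => ?_
  have ha : a ∈ Algebra.adjoin ℂ s := hs ▸ Algebra.mem_top
  induction ha using Algebra.adjoin_induction with
  | mem a ha => exact Algebra.subset_adjoin ha
  | algebraMap r => exact Subalgebra.algebraMap_mem _ (algebraMap ℂ (𝒜 0) r)
  | add a b _ _ ha hb => exact add_mem (ha trivial) (hb trivial)
  | mul a b _ _ ha hb => exact mul_mem (ha trivial) (hb trivial)

theorem cover (h : Gen1 𝒜) (x : (PW 𝒜).left) : ∃ l ∈ 𝒜 1, x ∈ UU 𝒜 l := by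
  obtain ⟨s, h1, hs⟩ := h
  have e := Proj.iSup_basicOpen_eq_top' 𝒜 (fun a : s => (a : S)) (fun a => ⟨1, h1 a a.2⟩)
    (adjoin_zero (by simpa using hs))
  obtain ⟨a, ha⟩ := TopologicalSpace.Opens.mem_iSup.1 (e.ge (mem_univ x))
  exact ⟨a, h1 a a.2, ha⟩

theorem thX_surj (h : Gen1 𝒜) : Function.Surjective (thX : Cx 𝒜 → Pnt (PW 𝒜)) := fun P => by
  obtain ⟨l, hl, hP⟩ := cover h P.pt
  obtain ⟨p, h', e⟩ := exists_th hl P hP
  exact ⟨cx ⟨p, l, hl, h'⟩, (thX_cx h _).trans ((thP_eq hl one_pos _ h').trans e)⟩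

theorem val_one' {l : S} (hl : l ∈ 𝒜 1) {a : S} (ha : a ∈ 𝒜 1) :
    ∃ s, ∀ p : Pt 𝒜, p.1 l ≠ 0 → val (UU 𝒜 l) s (thP p) = p.1 a / p.1 l :=
  ⟨_, fun p h => (val_thP hl one_pos p h 1 a ha).trans (by rw [pow_one])⟩

theorem thX_inj : Function.Injective (thX : Cx 𝒜 → Pnt (PW 𝒜)) := fun x y e => by
  obtain ⟨l, hl, h0⟩ := (rep x).2
  have h1 : (rep y).1 l ≠ 0 :=
    (thP_mem hl one_pos _).1 (by rw [← thX, ← e]; exact (thP_mem hl one_pos _).2 h0)
  have key : ∀ a ∈ 𝒜 1, (rep x).1 a / (rep x).1 l = (rep y).1 a / (rep y).1 l := fun a ha => by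
    obtain ⟨s, hs⟩ := val_one' hl ha
    rw [← hs _ h0, ← hs _ h1]
    exact congrArg _ e
  rw [← cx_rep x, ← cx_rep y, cx_eq_iff]
  intro a ha b hb
  have e1 := key a ha
  have e2 := key b hb
  rw [div_eq_div_iff h0 h1] at e1 e2
  apply mul_left_cancel₀ h1
  linear_combination (rep y).1 b * e1 - (rep y).1 a * e2

theorem continuous_thP : Continuous (thP : Pt 𝒜 → Pnt (PW 𝒜)) := by
  refine continuous_iff_continuousAt.2 fun p => ?_
  obtain ⟨l, hl, h0⟩ := p.2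
  have hn := (continuous_pt l).continuousAt.eventually_ne h0
  refine Pnt.tendsto_of_affine (aff_UU hl one_pos) ((thP_mem hl one_pos _).2 h0)
    (hn.mono fun q hq => (thP_mem hl one_pos _).2 hq) fun s => ?_
  obtain ⟨k, a, ha, rfl⟩ := sec_surj hl one_pos s
  rw [val_thP hl one_pos _ h0]
  exact (((continuous_pt a).tendsto p).div (((continuous_pt l).tendsto p).pow k)
    (pow_ne_zero _ h0)).congr' (hn.mono fun q hq => (val_thP hl one_pos _ hq k a ha).symm)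

theorem continuous_thX (h : Gen1 𝒜) : Continuous (thX : Cx 𝒜 → Pnt (PW 𝒜)) :=
  isQuotientMap_cx.continuous_iff.2 (continuous_thP.congr fun p => (thX_cx h p).symm)

theorem tendsto_of_thX (h : Gen1 𝒜) {T : Type*} {F : Filter T} {φ : T → Cx 𝒜} {x : Cx 𝒜}
    (H : Tendsto (thX ∘ φ) F (𝓝 (thX x))) : Tendsto φ F (𝓝 x) := by
  classical
  obtain ⟨s, h1, hs⟩ := h
  obtain ⟨l, hl, h0⟩ := (rep x).2
  obtain ⟨e1, e2⟩ := Pnt.tendsto_iff.1 H (UU 𝒜 l) ((thP_mem hl one_pos _).2 h0)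
  have e3 : ∀ᶠ t in F, (rep (φ t)).1 l ≠ 0 := e1.mono fun t ht => (thP_mem hl one_pos _).1 ht
  let ψ : T → Pt 𝒜 := fun t => if h : (rep (φ t)).1 l ≠ 0 then
    scl (Units.mk0 _ (div_ne_zero h0 h)) (rep (φ t)) else rep (φ t)
  have e4 : φ = Var.cx ∘ ψ := funext fun t => by
    simp only [ψ, Function.comp_apply]
    split_ifs <;> simp
  rw [e4, ← cx_rep x]
  refine (continuous_cx.tendsto _).comp (tendsto_pt_of_gen hs fun a ha => ?_)
  obtain ⟨u, hu⟩ := val_one' hl (h1 a ha)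
  have e5 := (e2 u).const_mul ((rep x).1 l)
  rw [thX, hu _ h0, mul_div_cancel₀ _ h0] at e5
  refine e5.congr' (e3.mono fun t ht => ?_)
  simp only [ψ, dif_pos ht, Function.comp_apply, thX]
  rw [hu _ ht, scl_apply _ _ (h1 a ha), pow_one, Units.val_mk0]
  ring

/-- the homeomorphism -/
def theta (h : Gen1 𝒜) : Cx 𝒜 ≃ₜ Pnt (PW 𝒜) :=
  (Equiv.ofBijective thX ⟨thX_inj, thX_surj h⟩).toHomeomorphOfIsInducing
    (isInducing_iff_nhds.2 fun x => le_antisymm
      (tendsto_iff_comap.1 ((continuous_thX h).tendsto x)) (tendsto_of_thX h tendsto_comap))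

theorem zero_surj (h : Gen1 𝒜) : Function.Surjective (algebraMap ℂ (𝒜 0)) := by
  obtain ⟨s, h1, hs⟩ := h
  have key : ∀ a : S, ∃ r : ℂ, GradedRing.projZeroRingHom 𝒜 a = algebraMap ℂ S r := fun a => by
    have ha : a ∈ Algebra.adjoin ℂ (s : Set S) := hs ▸ Algebra.mem_top
    induction ha using Algebra.adjoin_induction with
    | mem a ha => exact ⟨0, by simp [DirectSum.decompose_of_mem_ne 𝒜 (h1 a ha) one_ne_zero]⟩
    | algebraMap r =>
      exact ⟨r, DirectSum.decompose_of_mem_same 𝒜 (SetLike.algebraMap_mem_graded 𝒜 r)⟩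
    | add a b _ _ ha hb =>
      obtain ⟨r, hr⟩ := ha
      obtain ⟨t, ht⟩ := hb
      exact ⟨r + t, by rw [map_add, map_add, hr, ht]⟩
    | mul a b _ _ ha hb =>
      obtain ⟨r, hr⟩ := ha
      obtain ⟨t, ht⟩ := hb
      exact ⟨r * t, by rw [map_mul, map_mul, hr, ht]⟩
  intro a
  obtain ⟨r, hr⟩ := key a
  exact ⟨r, Subtype.ext (hr.symm.trans (DirectSum.decompose_of_mem_same 𝒜 a.2))⟩

variable [IsDomain S]

theorem integral (hne : Nonempty (Pt 𝒜)) : IsIntegral (Proj 𝒜) := by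
  obtain ⟨p, l, hl, h0⟩ := hne
  have l0 : l ≠ 0 := fun e => h0 (by simp [e])
  let η : ProjectiveSpectrum 𝒜 := ⟨⊥, Ideal.isPrime_bot, fun hle => l0 (hle (show
    l ∈ HomogeneousIdeal.irrelevant 𝒜 from (HomogeneousIdeal.mem_irrelevant_iff _ _).2
      (DirectSum.decompose_of_mem_ne 𝒜 hl one_ne_zero)))⟩
  have e : closure {η} = univ :=
    eq_univ_of_forall fun y => (ProjectiveSpectrum.le_iff_mem_closure 𝒜 η y).1
      (show (⊥ : HomogeneousIdeal 𝒜) ≤ y.asHomogeneousIdeal from bot_le)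
  have : IrreducibleSpace (ProjectiveSpectrum 𝒜) :=
    (irreducibleSpace_def _).2 (show IsIrreducible univ from e ▸ isIrreducible_singleton.closure)
  have : IrreducibleSpace (Proj 𝒜) := this
  have : ∀ x : Proj 𝒜, _root_.IsReduced ((Proj 𝒜).presheaf.stalk x) := fun x => by
    have := x.isPrime
    have : IsDomain (Localization x.asHomogeneousIdeal.toIdeal.primeCompl) := inferInstance
    exact isReduced_of_injective ((algebraMap _
      (Localization x.asHomogeneousIdeal.toIdeal.primeCompl)).comp (Proj.stalkIso 𝒜 x).hom.hom)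
      ((HomogeneousLocalization.val_injective _).comp
        (Proj.stalkIso 𝒜 x).commRingCatIsoToRingEquiv.injective)
  have := isReduced_of_isReduced_stalk (Proj 𝒜)
  exact isIntegral_of_irreducibleSpace_of_isReduced _

theorem rg_theta (h : Gen1 𝒜) (x : Cx 𝒜) (φ : Pnt (PW 𝒜) → ℂ) :
    Rg _ (theta h x) φ ↔ ∃ y ∈ locX x, φ ∘ theta h =ᶠ[𝓝 x] valX y := by
  obtain ⟨l, hl, h0⟩ := (rep x).2
  have hv : ∀ (z : Cx 𝒜) {y : Fn 𝒜} {j : ℕ} {a b : S}, a ∈ 𝒜 j → b ∈ 𝒜 j → (rep z).1 b ≠ 0 →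
      (y : FractionRing S) = algebraMap S (FractionRing S) a / algebraMap S (FractionRing S) b →
      valX y z = (rep z).1 a / (rep z).1 b := fun z y j a b ha hb hz e => by
    rw [← valX_div h _ ha hb hz e, cx_rep]
  have hl' := (isOpen_ne h hl).mem_nhds h0
  constructor
  · rintro ⟨U, s, hU, e⟩
    obtain ⟨a, b, e1, -, e3⟩ := exists_div (aff_UU hl one_pos) ((thP_mem hl one_pos _).2 h0) hU s
    obtain ⟨i, a, ha, rfl⟩ := sec_surj hl one_pos a
    obtain ⟨j, b, hb, rfl⟩ := sec_surj hl one_pos b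
    rw [mem_basicOpen_iff, val_thP hl one_pos _ h0] at e1
    have b0 : (rep x).1 b ≠ 0 := fun e => e1 (by simp [e])
    have m1 : a * l ^ j ∈ 𝒜 (i + j) := by
      simpa using SetLike.mul_mem_graded ha (SetLike.pow_mem_graded j hl)
    have m2 : b * l ^ i ∈ 𝒜 (i + j) := by
      simpa [add_comm] using SetLike.mul_mem_graded hb (SetLike.pow_mem_graded i hl)
    refine ⟨⟨_, div_mem_Fn m1 m2⟩, mem_loc.2 ⟨_, _, m1, _, m2, by simp [b0, h0], rfl⟩, ?_⟩
    filter_upwards [((theta h).continuous.tendsto x).eventually e, hl',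
      (isOpen_ne h hb).mem_nhds b0] with z z1 z2 z3
    have z2 : (rep z).1 l ≠ 0 := z2
    have z3 : (rep z).1 b ≠ 0 := z3
    rw [Function.comp_apply, z1, hv z m1 m2 (by simp [z2, z3]) rfl]
    change val U s (thP (rep z)) = _
    rw [e3 _ (by rw [val_thP hl one_pos _ z2]; simp [z2, z3]), val_thP hl one_pos _ z2,
      val_thP hl one_pos _ z2]
    simp only [map_mul, map_pow]
    field_simp
  · rintro ⟨y, hy, e⟩
    obtain ⟨j, a, ha, b, hb, b0, ey⟩ := mem_loc.1 hy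
    have m1 : a * l ∈ 𝒜 (1 • (j + 1)) := by simpa using SetLike.mul_mem_graded ha hl
    have m2 := SetLike.mul_mem_graded hb hl
    refine ⟨UU 𝒜 (b * l), sec (HomogeneousLocalization.Away.mk 𝒜 m2 1 _ m1),
      (thP_mem m2 j.succ_pos _).2 (by simp [b0, h0]), ?_⟩
    rw [← (theta h).map_nhds_eq]
    refine eventually_map.2 ?_
    filter_upwards [e, hl', (isOpen_ne h hb).mem_nhds b0] with z z1 z2 z3
    have z2 : (rep z).1 l ≠ 0 := z2
    have z3 : (rep z).1 b ≠ 0 := z3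
    refine z1.trans ((hv z ha hb z3 ey).trans ?_)
    refine Eq.trans ?_ (val_thP m2 j.succ_pos (rep z) (by simp [z2, z3]) 1 _ m1).symm
    simp only [map_mul, pow_one]
    field_simp

end PX

variable [IsDomain S]

theorem exists_theta (h : Gen1 𝒜) : ∃ Θ : Cx 𝒜 ≃ₜ Pnt (Over.mk (strMap 𝒜)),
    ∀ x φ, Rg _ (Θ x) φ ↔ ∃ y ∈ locX x, φ ∘ Θ =ᶠ[𝓝 x] valX y := ⟨PX.theta h, PX.rg_theta h⟩

theorem gd_proj (h : Gen1 𝒜) : Gd (Over.mk (strMap 𝒜)) := by
  have := compactSpace_cx h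
  have := metrizable_cx h
  have : Algebra.FiniteType (𝒜 0) S := by
    obtain ⟨s, -, hs⟩ := h
    exact ⟨s, PX.adjoin_zero hs⟩
  have : LocallyOfFiniteType (Spec.map (CommRingCat.ofHom (algebraMap ℂ (𝒜 0)))) :=
    HasRingHomProperty.Spec_iff.2 (RingHom.FiniteType.of_surjective _ (PX.zero_surj h))
  exact ⟨show LocallyOfFiniteType (Proj.toSpecZero 𝒜 ≫ _) from inferInstance,
    QuasiCompact.compactSpace_of_compactSpace (Proj.toSpecZero 𝒜),
    (PX.theta h).compactSpace, (PX.theta h).symm.isEmbedding.metrizableSpace⟩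

theorem mf_proj (h : Gen1 𝒜) (hn : 0 < n) (hc : ∀ p : Pt 𝒜, ∃ c : Chart 𝒜 n, c.In p)
    (hne : Nonempty (Pt 𝒜)) : Mf (Over.mk (strMap 𝒜)) n := by
  refine ⟨PX.integral hne, hn, fun P => ?_⟩
  obtain ⟨Θ, hΘ⟩ := exists_theta h
  obtain ⟨c, hp⟩ := hc (rep (Θ.symm P))
  obtain ⟨e, φ, H, hx⟩ := exists_holChart h c hp
  rw [cx_rep] at hx
  refine ⟨e ∘ Θ.symm, Θ.symm ⁻¹' e.source, e.target, Θ ∘ e.symm,
    ⟨e.open_source.preimage Θ.symm.continuous, e.open_target,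
      e.continuousOn.comp Θ.symm.continuous.continuousOn fun z hz => hz.1,
      fun z hz => e.map_source hz.1, Θ.continuous.comp_continuousOn e.continuousOn_symm,
      fun t ht => ⟨by simpa using e.map_target ht, trivial⟩,
      fun z hz => by simp [e.left_inv hz.1], fun t ht => by simp [e.right_inv ht]⟩,
    ⟨hx, trivial⟩, fun q hq => ?_⟩
  obtain ⟨x, rfl⟩ := Θ.surjective q
  have hx : x ∈ e.source := by simpa using hq.1
  refine ⟨fun i => (hΘ x _).2 ⟨(c.z i).1, c.le_loc (H.sub x hx) (c.z i).2,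
    Eventually.of_forall fun z => by simp [H.coe]⟩, fun f hf => ?_⟩
  obtain ⟨y, hy, ey⟩ := (hΘ x f).1 hf
  rw [← e.left_inv hx] at hy ey
  have ht := e.map_source hx
  have := (H.analyticAt_valX h ht hy).congr (ey.comp_tendsto (e.continuousAt_symm ht)).symm
  rw [Function.comp_apply, Θ.symm_apply_apply]
  exact this.contDiffAt

end

end Pool.Agent.Lib.MP_d3d358_ag.Cw
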