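import Mathlib

/-! Cycles modulo rational equivalence, correspondences, Frobenius isomorphisms of Chow motives. -/

set_option autoImplicit false

namespace Pool.Agent.Lib.MP_d3d358_ag.Cw

open CategoryTheory AlgebraicGeometry MonoidalCategory CartesianMonoidalCategory Order

noncomputable section

/-- cycles with rational coefficients; a point stands for its closure -/
abbrev Cyc (W : Scheme.{0}) : Type := AlgebraicCycle W ℚ

variable {V W : Scheme.{0}}

/-- `b` is the push forward of `a` -/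
def Push (f : V ⟶ W) (a : Cyc V) (b : Cyc W) : Prop :=
  ∃ _ : QuasiCompact f, b = AlgebraicCycle.map f height height a

/-- `b` is the pull back of `a` along a smooth map: a point goes to the generic points of its fibre -/
def Pull (f : V ⟶ W) (a : Cyc W) (b : Cyc V) : Prop :=
  ∀ v, ((∀ v', f v' = f v → v' ⤳ v → v' = v) → b v = a (f v)) ∧
    ((∃ v', f v' = f v ∧ v' ⤳ v ∧ v' ≠ v) → b v = 0)

/-- `a` is the divisor of a rational function on a subvariety -/
def Prin (a : Cyc W) : Prop :=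
  ∃ (Z : Scheme.{0}) (_ : IsIntegral Z) (_ : IsLocallyNoetherian Z) (ι : Z ⟶ W)
    (_ : IsClosedImmersion ι) (f : Z.functionField) (d : Cyc Z),
    f ≠ 0 ∧ (∀ z, d z = Scheme.ord f z) ∧ Push ι d a

/-- rational equivalence of cycles with rational coefficients -/
def Rat (a b : Cyc W) : Prop := ∃ n : ℕ, n ≠ 0 ∧ n • (a - b) ∈ AddSubgroup.closure {c | Prin c}

/-- `z` is a component of the intersection of `x` and `y` -/
def Meet (x y z : W) : Prop := x ⤳ z ∧ y ⤳ z ∧ ∀ z', x ⤳ z' → y ⤳ z' → z' ⤳ z → z' = z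

/-- the ideal of `x` in the local ring at `z` -/
def idl {x z : W} (h : x ⤳ z) : Ideal (W.presheaf.stalk z) :=
  (IsLocalRing.maximalIdeal _).comap (W.presheaf.stalkSpecializes h).hom

/-- `x` and `y` are cut out at `z` by complementary parts of a regular system of parameters -/
def Transv {x y z : W} (hx : x ⤳ z) (hy : y ⤳ z) : Prop :=
  ∃ s t : Finset (W.presheaf.stalk z), idl hx = Ideal.span s ∧ idl hy = Ideal.span t ∧
    IsLocalRing.maximalIdeal _ = idl hx ⊔ idl hy ∧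
    ringKrullDim (W.presheaf.stalk z) = (s.card + t.card : ℕ)

open Classical in
/-- `a` and `b` are generically transverse and `c` is their intersection -/
def Cap (a b c : Cyc W) : Prop :=
  (∀ x y z, a x ≠ 0 → b y ≠ 0 → ∀ h : Meet x y z, Transv h.1 h.2.1) ∧
    ∀ z, c z = ∑ᶠ x, ∑ᶠ y, if Meet x y z then a x * b y else 0

/-- the class of `c` is the product of the classes of `a` and `b` -/
def Mul (a b c : Cyc W) : Prop := ∃ a' b' c', Rat a a' ∧ Rat b b' ∧ Cap a' b' c' ∧ Rat c c'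

/-- schemes over the complex numbers -/
abbrev Sch : Type 1 := Over (Spec (.of ℂ))

variable {X Y Z X' Y' : Sch}

/-- the class of `c` is the composition of the correspondences `a` and `b` -/
def Comp (a : Cyc (X ⊗ Y).left) (b : Cyc (Y ⊗ Z).left) (c : Cyc (X ⊗ Z).left) : Prop :=
  ∃ (a' b' m : Cyc (X ⊗ Y ⊗ Z).left) (c' : Cyc (X ⊗ Z).left), Pull (X ◁ fst Y Z).left a a' ∧
    Pull (snd X (Y ⊗ Z)).left b b' ∧ Mul a' b' m ∧ Push (X ◁ snd Y Z).left m c' ∧ Rat c c'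

/-- the class of `c` is the tensor product of the correspondences `a` and `b` -/
def Tens (a : Cyc (X ⊗ Y).left) (b : Cyc (X' ⊗ Y').left) (c : Cyc ((X ⊗ X') ⊗ Y ⊗ Y').left) :
    Prop :=
  ∃ a' b' : Cyc ((X ⊗ X') ⊗ Y ⊗ Y').left, Pull (fst X X' ⊗ₘ fst Y Y').left a a' ∧
    Pull (snd X X' ⊗ₘ snd Y Y').left b b' ∧ Mul a' b' c

/-- `c` is the image of the fundamental cycle of the reduced scheme `V` -/
def Img (f : V ⟶ W) (c : Cyc W) : Prop :=
  ∃ a : Cyc V, (∀ v, (IsMax v → a v = 1) ∧ (¬IsMax v → a v = 0)) ∧ Push f a c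

/-- `Γ` of dimension `d` is an isomorphism of Frobenius algebra objects -/
def FrobIso (d : ℕ) (Γ : Cyc (X ⊗ Y).left) : Prop :=
  (∀ w, Γ w ≠ 0 → height w = d) ∧
  ∃ (Γt : Cyc (Y ⊗ X).left) (ΔX : Cyc (X ⊗ X).left) (ΔY : Cyc (Y ⊗ Y).left)
    (δX : Cyc ((X ⊗ X) ⊗ X).left) (δY : Cyc ((Y ⊗ Y) ⊗ Y).left)
    (T : Cyc ((X ⊗ X) ⊗ Y ⊗ Y).left) (L : Cyc ((X ⊗ X) ⊗ Y).left),
    Push (lift (snd X Y) (fst X Y)).left Γ Γt ∧
    Img (lift (𝟙 X) (𝟙 X)).left ΔX ∧ Img (lift (𝟙 Y) (𝟙 Y)).left ΔY ∧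
    Img (lift (lift (𝟙 X) (𝟙 X)) (𝟙 X)).left δX ∧ Img (lift (lift (𝟙 Y) (𝟙 Y)) (𝟙 Y)).left δY ∧
    Comp Γ Γt ΔX ∧ Comp Γt Γ ΔY ∧ Tens Γ Γ T ∧ Comp δX Γ L ∧ Comp T δY L

end

end Pool.Agent.Lib.MP_d3d358_ag.Cw
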