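import Pool.Agent.Lib.MP_d3d358_ag.Cw.HDef
import Pool.Agent.Lib.MP_d3d358_ag.Cw.PntA

/-! Monomials, minors, products of covers. -/

set_option autoImplicit false

namespace Pool.Agent.Lib.MP_d3d358_ag.Cw

open CategoryTheory Topology Set Filter AS

variable {ι ι' κ κ' Z : Type} [Fintype ι] [Fintype ι'] [Fintype κ] [Fintype κ']

theorem lm_mono [DecidableEq ι] [TopologicalSpace Z] {K : Set Z} {ν : Z → Tor ι}
    (hν : ContinuousOn ν K) {N : ℕ} (J : Fin N → ι) :
    lm ν hν (ExteriorAlgebra.ιMulti ℚ N fun k => Pi.single (J k) 1) = mono ν hν J := by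
  rw [ExteriorAlgebra.ιMulti_apply, map_list_prod, List.map_ofFn, mono]
  congr 2
  funext k
  rw [Function.comp_apply, lm, lam_ι, Finset.sum_eq_single (J k)]
  · rw [Pi.single_eq_same, one_smul]
  · intro j _ hj
    rw [Pi.single_eq_of_ne hj, zero_smul]
  · exact fun h => (h (Finset.mem_univ _)).elim

theorem cp_span [DecidableEq ι] {N : ℕ} {ω : ExteriorAlgebra ℚ (ι → ℚ)}
    (hω : ω ∈ ⋀[ℚ]^N (ι → ℚ)) : ∃ a : (Fin N → ι) → ℚ,
      ω = ∑ J, a J • ExteriorAlgebra.ιMulti ℚ N fun k => Pi.single (J k) 1 := by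
  rw [← ExteriorAlgebra.ιMulti_span_fixedDegree] at hω
  have : ω ∈ Submodule.span ℚ (range fun J : Fin N → ι =>
      ExteriorAlgebra.ιMulti ℚ N fun k => (Pi.single (J k) 1 : ι → ℚ)) := by
    refine Submodule.span_le.2 ?_ hω
    rintro _ ⟨v, rfl⟩
    have e : v = fun k => ∑ j, v k j • (Pi.single j 1 : ι → ℚ) :=
      funext fun k => pi_eq_sum_univ' (v k)
    rw [e]
    change (ExteriorAlgebra.ιMulti ℚ N).toMultilinearMap _ ∈ _
    rw [MultilinearMap.map_sum]
    refine Submodule.sum_mem _ fun J _ => ?_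
    rw [MultilinearMap.map_smul_univ]
    exact Submodule.smul_mem _ _ (Submodule.subset_span ⟨J, rfl⟩)
  obtain ⟨a, ha⟩ := (Submodule.mem_span_range_iff_exists_fun ℚ).1 this
  exact ⟨a, ha.symm⟩

theorem cp_pbM [DecidableEq ι] {N : ℕ} (M : Matrix ι (Fin N) ℝ) (J : Fin N → ι) :
    pbM M (ExteriorAlgebra.ιMulti ℚ N fun k => Pi.single (J k) 1) =
      ExteriorAlgebra.ιMulti ℂ N fun k l => (M (J k) l : ℂ) := by
  rw [ExteriorAlgebra.ιMulti_apply, ExteriorAlgebra.ιMulti_apply, map_list_prod, List.map_ofFn]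
  congr 2
  funext k
  rw [Function.comp_apply, pbM, ExteriorAlgebra.lift_ι_apply]
  refine congrArg (ExteriorAlgebra.ι ℂ) (funext fun l => ?_)
  change ∑ i, (((Pi.single (J k) 1 : ι → ℚ) i : ℚ) : ℂ) * M i l = _
  rw [Finset.sum_eq_single (J k)]
  · rw [Pi.single_eq_same, Rat.cast_one, one_mul]
  · intro j _ hj
    rw [Pi.single_eq_of_ne hj, Rat.cast_zero, zero_mul]
  · exact fun h => (h (Finset.mem_univ _)).elim

/-- from forms to minors -/
theorem of_minors [DecidableEq ι] {I : Type} [Fintype I] {N : ℕ} (ω : I → ExteriorAlgebra ℚ (ι → ℚ))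
    (hω : ∀ i, ω i ∈ ⋀[ℚ]^N (ι → ℚ)) : ∃ a : I → (Fin N → ι) → ℚ,
      (∀ i, ω i = ∑ J, a i J • ExteriorAlgebra.ιMulti ℚ N fun k => Pi.single (J k) 1) ∧
      ∀ (c : I → ℂ) (M : Matrix ι (Fin N) ℝ), ∑ i, c i • pbM M (ω i) = 0 →
        ∑ J, (∑ i, c i * a i J) * ((M.submatrix J id).det : ℝ) = 0 := by
  choose a ha using fun i => cp_span (hω i)
  refine ⟨a, ha, fun c M h => ?_⟩
  let φ : ExteriorAlgebra ℂ (Fin N → ℂ) →ₗ[ℂ] ℂ :=
    ExteriorAlgebra.liftAlternating (Function.update 0 N Matrix.detRowAlternating)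
  have e : ∀ J : Fin N → ι, φ (pbM M (ExteriorAlgebra.ιMulti ℚ N fun k => Pi.single (J k) 1)) =
      ((M.submatrix J id).det : ℝ) := fun J => by
    rw [cp_pbM, ExteriorAlgebra.liftAlternating_apply_ιMulti, Function.update_self]
    exact (Complex.ofRealHom.map_det (M.submatrix J id)).symm
  have h1 := congrArg φ h
  simp only [map_sum, map_smul, map_zero, ha, LinearMap.map_smul_of_tower, e, smul_eq_mul,
    Rat.smul_def, Finset.mul_sum] at h1
  rw [Finset.sum_comm] at h1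
  simp only [Finset.sum_mul, mul_assoc]
  exact h1

variable {V W F : Sch} {e : (ι → ℝ) ≃L[ℝ] κ → ℂ} {G G' : Type} [Group G] [Group G']
  {σ : G → Tor ι → Tor ι} {Kt : Set (Tor ι × Pnt W)}

omit [Fintype ι] [Fintype ι'] in
theorem cp_cont {A : Type} [TopologicalSpace A] (j : ι → ι') (f : V ⟶ W) :
    Continuous fun z : (ι' → A) × Pnt V => ((fun i => z.1 (j i), z.2.map f) : (ι → A) × Pnt W) :=
  (continuous_pi fun i => (continuous_apply (j i)).comp continuous_fst).prodMk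
    ((Pnt.cont f).comp continuous_snd)

theorem cp_inj {u : (κ → ℂ) → κ → ℂ} {U : (κ' → ℂ) → κ' → ℂ} (j : κ → κ') {x : κ' → ℂ}
    (hu : DifferentiableAt ℂ u fun k => x (j k)) (hU : DifferentiableAt ℂ U x)
    (hi : Function.Injective (fderiv ℂ u fun k => x (j k)))
    (h : ∀ w k, U w (j k) = u (fun k => w (j k)) k) {v v' : κ' → ℂ}
    (hv : fderiv ℂ U x v = fderiv ℂ U x v') (k : κ) : v (j k) = v' (j k) := by
  let R : (κ' → ℂ) →L[ℂ] κ → ℂ := ContinuousLinearMap.pi fun k => ContinuousLinearMap.proj (j k)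
  have e : R ∘ U = u ∘ R := funext fun w => funext (h w)
  have e1 := R.hasFDerivAt.comp x hU.hasFDerivAt
  rw [e] at e1
  have e2 := e1.unique (HasFDerivAt.comp x hu.hasFDerivAt R.hasFDerivAt)
  have e3 : ∀ w, R (fderiv ℂ U x w) = fderiv ℂ u (fun k => x (j k)) (R w) := fun w =>
    DFunLike.congr_fun e2 w
  exact congrFun (hi ((e3 v).symm.trans ((congrArg R hv).trans (e3 v')))) k

theorem Cov.prod [Gd V] [Gd W] [Gd F] (f : V ⟶ W) (g : V ⟶ F) {e' : (ι' → ℝ) ≃L[ℝ] κ' → ℂ}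
    {σ' : G' → Tor ι' → Tor ι'} {Kt' : Set (Tor ι' × Pnt F)} (h : Cov W e σ Kt)
    (h' : Cov F e' σ' Kt') : Cov V (sumL e e') (σP σ σ') (KP f g Kt Kt') where
  one n := funext fun i => by
    rcases i with i | i
    exacts [congrFun (h.one _) i, congrFun (h'.one _) i]
  mul s t n := funext fun i => by
    rcases i with i | i
    exacts [congrFun (h.mul _ _ _) i, congrFun (h'.mul _ _ _) i]
  cont s := continuous_pi fun i => by
    rcases i with i | i
    · exact (continuous_apply i).comp ((h.cont s.1).comp (by fun_prop))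
    · exact (continuous_apply i).comp ((h'.cont s.2).comp (by fun_prop))
  cpt := ((h.cpt.isClosed.preimage (cp_cont Sum.inl f)).inter
    (h'.cpt.isClosed.preimage (cp_cont Sum.inr g))).isCompact
  onto x := by
    obtain ⟨n, hn⟩ := h.onto (x.map f)
    obtain ⟨n', hn'⟩ := h'.onto (x.map g)
    exact ⟨Sum.elim n n', hn, hn'⟩
  orb n x hn m := by
    refine (and_congr (h.orb _ _ hn.1 _) (h'.orb _ _ hn.2 _)).trans ⟨?_, ?_⟩
    · rintro ⟨⟨s, hs⟩, s', hs'⟩
      refine ⟨(s, s'), funext fun i => ?_⟩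
      rcases i with i | i
      exacts [congrFun hs i, congrFun hs' i]
    · rintro ⟨s, rfl⟩
      exact ⟨⟨s.1, rfl⟩, s.2, rfl⟩
  crd t x ht := by
    obtain ⟨u, c, i1, a⟩ := h.crd (fun i => t (.inl i)) _ ht.1
    obtain ⟨u', c', i2, a'⟩ := h'.crd (fun i => t (.inr i)) _ ht.2
    have C : ContDiffAt ℂ 1 (fun w : κ ⊕ κ' → ℂ =>
        Sum.elim (u fun k => w (.inl k)) (u' fun k => w (.inr k))) (sumL e e' t) := by
      refine contDiffAt_pi.2 fun k => ?_
      rcases k with k | k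
      · exact contDiffAt_pi.1 (ContDiffAt.comp (f := fun (w : κ ⊕ κ' → ℂ) k => w (.inl k))
          (sumL e e' t) c (by fun_prop)) k
      · exact contDiffAt_pi.1 (ContDiffAt.comp (f := fun (w : κ ⊕ κ' → ℂ) k => w (.inr k))
          (sumL e e' t) c' (by fun_prop)) k
    have D := C.differentiableAt one_ne_zero
    refine ⟨_, C, fun v v' hv => funext fun k => ?_, fun k => ?_⟩
    · rcases k with k | k
      · exact cp_inj Sum.inl (c.differentiableAt one_ne_zero) D i1 (fun _ _ => rfl) hv k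
      · exact cp_inj Sum.inr (c'.differentiableAt one_ne_zero) D i2 (fun _ _ => rfl) hv k
    · rcases k with k | k
      · obtain ⟨d, b, hb, ev⟩ := a k
        exact ⟨d, fun l => b l ∘ Pnt.map f, fun l => (hb l).comp f,
          ((cp_cont Sum.inl f).continuousAt.eventually ev).mono fun s hs hs' => hs hs'.1⟩
      · obtain ⟨d, b, hb, ev⟩ := a' k
        exact ⟨d, fun l => b l ∘ Pnt.map g, fun l => (hb l).comp g,
          ((cp_cont Sum.inr g).continuousAt.eventually ev).mono fun s hs hs' => hs hs'.2⟩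

theorem cp_pull (f : V ⟶ W) (j : ι → ι') {K : Set (Tor ι' × Pnt V)}
    (hm : MapsTo (fun z : Tor ι' × Pnt V => ((fun i => z.1 (j i), z.2.map f) : Tor ι × Pnt W)) K Kt)
    (J : (ι → ℚ) →ₗ[ℚ] ι' → ℚ) (hJ : ∀ m (c : ι' → HT ℚ K), ∑ i, J m i • c i = ∑ i, m i • c (j i))
    {a : HW W} {u : ExteriorAlgebra ℚ (ι → ℚ)} (ha : jK Kt a = bK Kt u) :
    jK K (pb f a) = bK K (ExteriorAlgebra.map J u) := by
  have e := congrArg (pull _ (cp_cont j f).continuousOn hm) ha
  rw [jK, pull_pull, bK, lm, pull_lam] at e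
  rw [jK, pb, pull_pull, bK, lm, lam_map _ _ _ _ J fun m => hJ m _]
  exact e

theorem jK_prod (f : V ⟶ W) (g : V ⟶ F) {Kt' : Set (Tor ι' × Pnt F)} {a : HW W} {b : HW F}
    {u : ExteriorAlgebra ℚ (ι → ℚ)} {v : ExteriorAlgebra ℚ (ι' → ℚ)} (ha : jK Kt a = bK Kt u)
    (hb : jK Kt' b = bK Kt' v) : jK (KP f g Kt Kt') (pb f a * pb g b) =
      bK _ (ExteriorAlgebra.map (el ι ι') u * ExteriorAlgebra.map (er ι ι') v) := by
  rw [map_mul, map_mul,
    cp_pull f Sum.inl (fun _ h => h.1) (el ι ι') (fun m c => by simp [el]) ha,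
    cp_pull g Sum.inr (fun _ h => h.2) (er ι ι') (fun m c => by simp [er]) hb]

end Pool.Agent.Lib.MP_d3d358_ag.Cw
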