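import Pool.Agent.Lib.MP_d3d358_ag.Var.Loc4
import Pool.Agent.Lib.MP_d3d358_ag.Var.GeoT

/-! Local coordinates of the torus are integral over the local rings of the fourfold. -/

set_option autoImplicit false

namespace Pool.Agent.Lib.MP_d3d358_ag.Cw

open Topology Set Filter
open Pool.Agent.Lib.MP_9ff3e7_ag.F Pool.Agent.Lib.MP_cd184e_ag.B G Var

variable {A : Sf}

theorem crdx_Ot {b : Var.V} {y : Var.M} (hy : y ∈ Ot A b) : ∀ᶠ z in 𝓝 b, y ∈ Ot A z := by
  obtain ⟨j, F, hF, E, hE, h0, k, rfl⟩ := hy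
  have : ∀ g : Var.G, ∀ᶠ z in 𝓝 b, E.1 (gv g z) ≠ 0 := fun g =>
    (E.cont.comp (differentiable_gv g).continuous).continuousAt.eventually_ne (k _ ⟨g, rfl⟩)
  filter_upwards [eventually_all.2 this] with z hz
  exact ⟨j, F, hF, E, hE, h0, by rintro _ ⟨g, rfl⟩; exact hz g, rfl⟩

theorem crdx_deriv {b : Var.V} {t : Fin 4 → Var.M} (hm : ∀ i, t i ∈ Loc b)
    (hj : ∀ i j, Var.val (pd i (t j)) b = if i = j then 1 else 0) :
    HasFDerivAt (fun z i => Var.val (t i) z) (ContinuousLinearMap.id ℂ Var.V) b := by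
  refine hasFDerivAt_pi'.2 fun j => ?_
  convert (LiouM.analyticAt_val (hm j)).differentiableAt.hasFDerivAt using 1
  refine ContinuousLinearMap.ext fun v => ?_
  conv_rhs => rw [← TwoF.sum_ee v, map_sum]
  simp only [map_smul]
  simp only [GeoT.fderiv_val (hm j), TwoF.dv_ee, hj]
  simp

/-- an element of the semilocal ring is integral over the invariants -/
theorem crdx_int {b : Var.V} {y : Var.M} (hy : y ∈ Ot A b) : ∃ (d : ℕ) (c : Fin d → Var.M),
    (∀ k, c k ∈ Ow A b) ∧ y ^ d + ∑ k, c k * y ^ (k : ℕ) = 0 := by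
  let P := prodXSubSMul Var.G (Ot A b) ⟨y, hy⟩
  refine ⟨P.natDegree, fun k => (P.coeff k).1, fun k => ⟨(P.coeff k).2, fun g =>
    congrArg Subtype.val (prodXSubSMul.coeff Var.G (Ot A b) ⟨y, hy⟩ g k)⟩, ?_⟩
  have e := prodXSubSMul.eval Var.G (Ot A b) ⟨y, hy⟩
  rw [Polynomial.eval_eq_sum_range, Finset.sum_range_succ, Finset.sum_range,
    (prodXSubSMul.monic Var.G (Ot A b) ⟨y, hy⟩).coeff_natDegree, one_mul, add_comm] at e
  have e' := congrArg (Ot A b).val e
  rw [map_add, map_pow, map_sum, map_zero] at e'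
  simp only [map_mul, map_pow] at e'
  exact e'

theorem kum_crd (hA : Good A) {x : Cx (grade (Var.X hA))} {b : Var.V} (h : (seg hA).Over x b) :
    ∃ u : Var.V → Var.V, ContDiffAt ℂ 1 u b ∧ Function.Injective (fderiv ℂ u b) ∧
      ∀ i, ∃ (d : ℕ) (a : Fin d → Fn (grade (Var.X hA))), (∀ k, a k ∈ locX x) ∧
        ∀ᶠ s in 𝓝 (b, x), (seg hA).Over s.2 s.1 →
          u s.1 i ^ d + ∑ k, valX (a k) s.2 * u s.1 i ^ (k : ℕ) = 0 := by
  obtain ⟨t, ht⟩ := exists_crd hA.bpf b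
  have hm : ∀ i, t i ∈ Loc b := fun i => Ot_le_Loc' b (ht.mem i)
  refine ⟨fun z i => Var.val (t i) z,
    contDiffAt_pi.2 fun i => (LiouM.analyticAt_val (hm i)).contDiffAt, ?_, fun i => ?_⟩
  · rw [(crdx_deriv hm ht.jac).fderiv]
    exact Function.injective_id
  obtain ⟨d, c, hc, e⟩ := crdx_int (ht.mem i)
  choose a ha ea using fun k => (Ow_le_Ox hA (p := rep x) h (hc k)).1
  refine ⟨d, a, ha, ?_⟩
  filter_upwards [continuous_fst.continuousAt.eventually
    ((crdx_Ot (ht.mem i)).and (eventually_all.2 fun k => crdx_Ot (hc k).1))] with s hs ho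
  have key : ∀ k, valX (a k) s.2 = Var.val (c k) s.1 := fun k => by
    obtain ⟨h1, h2⟩ := Ow_le_Ox hA (p := rep s.2) ho ⟨hs.2 k, (hc k).2⟩
    have e1 : iota (Var.X hA) (a k) = c k := ea k
    rw [← e1] at h1
    rw [← h2, ← e1]
    exact (vx_iota ⟨a k, iota_mem_Ox.1 h1⟩).symm
  have e2 : (⟨t i, hs.1⟩ : Ot A s.1) ^ d + ∑ k, (⟨c k, hs.2 k⟩ : Ot A s.1) * ⟨t i, hs.1⟩ ^ (k : ℕ)
      = 0 := by
    refine (show Function.Injective (Ot A s.1).val from Subtype.val_injective) ?_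
    rw [map_add, map_pow, map_sum, map_zero]
    simp only [map_mul, map_pow]
    exact e
  have e3 := congrArg (evO A s.1) e2
  rw [map_add, map_pow, map_sum, map_zero] at e3
  simp only [map_mul, map_pow, evO_apply] at e3
  simp only [key]
  exact e3

end Pool.Agent.Lib.MP_d3d358_ag.Cw
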