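import Pool.Agent.Lib.MP_d3d358_ag.Cw.Top

/-! Calculus of holomorphic charts. -/

set_option autoImplicit false

namespace Pool.Agent.Lib.MP_d3d358_ag.Cw

open Topology Set Filter AS

variable {Z Z' : Type} {r n : ℕ}

section Gen
variable [TopologicalSpace Z] {K : Set Z} {p : Z} {Rg : Z → (Z → ℂ) → Prop}

theorem Cd.inter {y : Z → Fin r → ℂ} {U : Set Z} {O : Set (Fin r → ℂ)} {s : (Fin r → ℂ) → Z}
    (h : Cd K y U O s) {V : Set Z} (hV : IsOpen V) : Cd K y (U ∩ V) (O ∩ s ⁻¹' V) s where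
  oU := h.oU.inter hV
  oO := h.cs.isOpen_inter_preimage h.oO hV
  cy := h.cy.mono fun _ hz => ⟨hz.1.1, hz.2⟩
  my := fun z hz => ⟨h.my ⟨hz.1.1, hz.2⟩, by
    show s (y z) ∈ V
    rw [h.li z ⟨hz.1.1, hz.2⟩]; exact hz.1.2⟩
  cs := h.cs.mono inter_subset_left
  ms := fun _ ht => ⟨⟨(h.ms ht.1).1, ht.2⟩, (h.ms ht.1).2⟩
  li := fun z hz => h.li z ⟨hz.1.1, hz.2⟩
  ri := fun t ht => h.ri t ht.1

/-- a chart with its domain inside a given relative neighbourhood -/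
theorem At.small {y : Z → Fin r → ℂ} (h : At Rg K p y) {W : Set Z} (hW : W ∈ 𝓝[K] p) :
    ∃ U O s, Cd K y U O s ∧ p ∈ U ∩ K ∧ U ∩ K ⊆ W ∧ ∀ q ∈ U ∩ K, (∀ i, Rg q fun z => y z i) ∧
      ∀ f, Rg q f → ContDiffAt ℂ 1 (f ∘ s) (y q) := by
  obtain ⟨U, O, s, hc, hp, hq⟩ := h
  obtain ⟨V, hV, hpV, hVW⟩ := mem_nhdsWithin.1 hW
  exact ⟨U ∩ V, _, s, hc.inter hV, ⟨⟨hp.1, hpV⟩, hp.2⟩, fun z hz => hVW ⟨hz.1.2, hz.2⟩,
    fun q hz => hq q ⟨hz.1.1, hz.2⟩⟩

theorem Cd.tendsto {y : Z → Fin r → ℂ} {U : Set Z} {O : Set (Fin r → ℂ)} {s : (Fin r → ℂ) → Z}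
    (h : Cd K y U O s) (hp : p ∈ U ∩ K) : Tendsto s (𝓝 (y p)) (𝓝[K] p) := by
  have hO : O ∈ 𝓝 (y p) := h.oO.mem_nhds (h.my hp)
  refine tendsto_nhdsWithin_iff.2 ⟨?_, mem_of_superset hO fun t ht => (h.ms ht).2⟩
  have := (h.cs.continuousAt hO).tendsto
  rwa [h.li p hp] at this

theorem Cd.mem_nhdsWithin {y : Z → Fin r → ℂ} {U : Set Z} {O : Set (Fin r → ℂ)}
    {s : (Fin r → ℂ) → Z} (h : Cd K y U O s) (hp : p ∈ U ∩ K) : U ∩ K ∈ 𝓝[K] p :=
  inter_mem (mem_nhdsWithin_of_mem_nhds (h.oU.mem_nhds hp.1)) self_mem_nhdsWithin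

theorem Cd.tendsto_y {y : Z → Fin r → ℂ} {U : Set Z} {O : Set (Fin r → ℂ)}
    {s : (Fin r → ℂ) → Z} (h : Cd K y U O s) (hp : p ∈ U ∩ K) :
    Tendsto y (𝓝[K] p) (𝓝 (y p)) :=
  (h.cy p hp).mono_of_mem_nhdsWithin (h.mem_nhdsWithin hp)

/-- the transition map between two charts -/
theorem At.trans {y : Z → Fin r → ℂ} {y' : Z → Fin n → ℂ} (h : At Rg K p y) (h' : At Rg K p y') :
    ∃ F : (Fin r → ℂ) → Fin n → ℂ, ContDiffAt ℂ 1 F (y p) ∧
      Function.Injective (fderiv ℂ F (y p)) ∧ y' =ᶠ[𝓝[K] p] F ∘ y := by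
  obtain ⟨U, O, s, hc, hp, hq⟩ := h
  obtain ⟨U', O', s', hc', hp', hq'⟩ := h'
  have hF : ContDiffAt ℂ 1 (y' ∘ s) (y p) :=
    contDiffAt_pi.2 fun i => (hq p hp).2 _ ((hq' p hp').1 i)
  have hG : ContDiffAt ℂ 1 (y ∘ s') (y' p) :=
    contDiffAt_pi.2 fun i => (hq' p hp').2 _ ((hq p hp).1 i)
  have e0 : (y' ∘ s) (y p) = y' p := by simp [hc.li p hp]
  have e : (y ∘ s') ∘ (y' ∘ s) =ᶠ[𝓝 (y p)] id := by
    filter_upwards [hc.oO.mem_nhds (hc.my hp), (hc.tendsto hp) (hc'.mem_nhdsWithin hp')]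
      with t ht ht'
    simp only [Function.comp, id]
    rw [hc'.li _ ht', hc.ri t ht]
  refine ⟨y' ∘ s, hF, ?_, ?_⟩
  · have d1 := (hF.differentiableAt one_ne_zero).hasFDerivAt
    have d2 : HasFDerivAt (y ∘ s') (fderiv ℂ (y ∘ s') (y' p)) ((y' ∘ s) (y p)) := by
      rw [e0]; exact (hG.differentiableAt one_ne_zero).hasFDerivAt
    have d3 := ((d2.comp (y p) d1).congr_of_eventuallyEq e.symm).unique (hasFDerivAt_id (y p))
    intro v w hvw
    have a := congrArg (fun L => L v) d3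
    have b := congrArg (fun L => L w) d3
    simp only [ContinuousLinearMap.comp_apply, ContinuousLinearMap.id_apply] at a b
    rw [← a, ← b, hvw]
  · filter_upwards [hc.mem_nhdsWithin hp] with z hz
    simp [hc.li z hz]

theorem At.le_of_inj {L : (Fin r → ℂ) →L[ℂ] Fin n → ℂ} (h : Function.Injective L) : r ≤ n := by
  simpa using LinearMap.finrank_le_finrank_of_injective (f := L.toLinearMap) h

theorem At.deriv_dot {E : Type} [NormedAddCommGroup E] [NormedSpace ℂ E] {a : E}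
    {γ F : E → Fin r → ℂ} {L : E →L[ℂ] Fin r → ℂ} (hγ : ContinuousAt γ a)
    (hF : HasFDerivAt F L a) : HasFDerivAt (fun t => γ t ⬝ᵥ (F t - F a))
      (∑ i, γ a i • (ContinuousLinearMap.proj i).comp L) a := by
  have key : ∀ i, HasFDerivAt (fun t => γ t i * (F t i - F a i))
      (γ a i • (ContinuousLinearMap.proj (R := ℂ) (φ := fun _ : Fin r => ℂ) i).comp L) a := by
    intro i
    have hi : HasFDerivAt (fun t => F t i - F a i)
        ((ContinuousLinearMap.proj (R := ℂ) (φ := fun _ : Fin r => ℂ) i).comp L) a :=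
      (hasFDerivAt_pi'.1 hF i).sub_const _
    have h1 : HasFDerivAt (fun t => (γ t i - γ a i) * (F t i - F a i)) (0 : E →L[ℂ] ℂ) a := by
      rw [hasFDerivAt_iff_isLittleO_nhds_zero]
      have o1 : (fun t => γ (a + t) i - γ a i) =o[𝓝 0] fun _ => (1 : ℝ) := by
        rw [Asymptotics.isLittleO_one_iff]
        have c : ContinuousAt (fun t : E => γ (a + t) i - γ a i) 0 := by
          refine ContinuousAt.sub ?_ continuousAt_const
          have c1 : ContinuousAt (fun t : E => a + t) 0 := by fun_prop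
          have c2 : ContinuousAt (fun t => γ t i) (a + 0) := by
            rw [add_zero]; exact (continuous_apply i).continuousAt.comp hγ
          exact ContinuousAt.comp (f := fun t : E => a + t) c2 c1
        simpa using c.tendsto
      have o2 : (fun t => F (a + t) i - F a i) =O[𝓝 0] fun t => ‖t‖ := by
        have b := (hasFDerivAt_pi'.1 hF i).isBigO_sub
        have c : Tendsto (fun t : E => a + t) (𝓝 0) (𝓝 a) := by
          have c1 : ContinuousAt (fun t : E => a + t) 0 := by fun_prop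
          simpa using c1.tendsto
        have := (b.comp_tendsto c).norm_right
        simpa [Function.comp_def] using this
      have o3 := o1.mul_isBigO o2
      refine Asymptotics.IsLittleO.of_norm_right ?_
      simpa using o3
    have h2 := h1.add (hi.const_mul (γ a i))
    rw [zero_add] at h2
    refine h2.congr_of_eventuallyEq (Eventually.of_forall fun t => ?_)
    simp only [Pi.add_apply]; ring
  have := HasFDerivAt.fun_sum (u := Finset.univ) fun i _ => key i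
  simpa [dotProduct] using this

end Gen

section Chg
variable [MetricSpace Z] {K : Set Z} {p : Z} {Rg : Z → (Z → ℂ) → Prop}

theorem At.cht {y : Z → Fin r → ℂ} (h : At Rg K p y) : Cht K p y := by
  obtain ⟨U, O, s, hc, hp, -⟩ := h
  exact ⟨U, O, s, hc, hp⟩

theorem At.near {y : Z → Fin r → ℂ} (h : At Rg K p y) : ∀ᶠ q in 𝓝[K] p, At Rg K q y := by
  obtain ⟨U, O, s, hc, hp, hq⟩ := h
  filter_upwards [hc.mem_nhdsWithin hp] with q hq'
  exact ⟨U, O, s, hc, hq', hq⟩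

theorem At.size {y : Z → Fin r → ℂ} {y' : Z → Fin n → ℂ} (h : At Rg K p y) (h' : At Rg K p y') :
    r = n := by
  obtain ⟨_, -, h1, -⟩ := h.trans h'
  obtain ⟨_, -, h2, -⟩ := h'.trans h
  exact le_antisymm (At.le_of_inj h1) (At.le_of_inj h2)

/-- regular functions that generate the maximal ideal on `K` form a chart -/
theorem At.of_gen (hR : Shf Rg) {y : Z → Fin n → ℂ} (h : At Rg K p y) {w : Z → Fin r → ℂ}
    (hr : r ≤ n) (hw : ∀ i, Rg p fun z => w z i)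
    (hg : ∀ f, Rg p f → ∃ γ : Z → Fin r → ℂ, ContinuousWithinAt γ K p ∧
      ∀ᶠ u in 𝓝[K] p, f u - f p = γ u ⬝ᵥ (w u - w p)) : r = n ∧ At Rg K p w := by
  have hW : {q | ∀ i, Rg q fun z => w z i} ∈ 𝓝[K] p :=
    mem_nhdsWithin_of_mem_nhds (eventually_all.2 fun i => hR.near p _ (hw i))
  obtain ⟨U, O, s, hc, hp, hUW, hq⟩ := h.small hW
  have hFq : ∀ q ∈ U ∩ K, ContDiffAt ℂ 1 (w ∘ s) (y q) := fun q hq' =>
    contDiffAt_pi.2 fun i => (hq q hq').2 _ (hUW hq' i)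
  have hF := hFq p hp
  have d1 := (hF.differentiableAt one_ne_zero).hasFDerivAt
  have e0 : (w ∘ s) (y p) = w p := by simp [hc.li p hp]
  have inj : Function.Injective (fderiv ℂ (w ∘ s) (y p)) := by
    refine (injective_iff_map_eq_zero _).2 fun v hv => funext fun i => ?_
    obtain ⟨γ, hγ, e⟩ := hg _ ((hq p hp).1 i)
    have c : ContinuousAt (γ ∘ s) (y p) := by
      have := hγ.tendsto.comp (hc.tendsto hp)
      simpa [ContinuousAt, hc.li p hp] using this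
    have d2 := At.deriv_dot c d1
    have e1 : (fun t : Fin n → ℂ => t i - y p i) =ᶠ[𝓝 (y p)]
        fun t => (γ ∘ s) t ⬝ᵥ ((w ∘ s) t - (w ∘ s) (y p)) := by
      filter_upwards [hc.oO.mem_nhds (hc.my hp), (hc.tendsto hp) e] with t ht ht'
      rw [e0]
      have ht2 : y (s t) i - y p i = γ (s t) ⬝ᵥ (w (s t) - w p) := ht'
      rw [hc.ri t ht] at ht2
      exact ht2
    have d3 : HasFDerivAt (fun t : Fin n → ℂ => t i - y p i)
        (ContinuousLinearMap.proj (R := ℂ) (φ := fun _ : Fin n => ℂ) i) (y p) :=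
      (hasFDerivAt_apply i (y p)).sub_const _
    have d4 := congrArg (fun L => L v) ((d2.congr_of_eventuallyEq e1).unique d3)
    simpa [hv] using d4.symm
  have hn : r = n := le_antisymm hr (At.le_of_inj inj)
  subst hn
  refine ⟨rfl, ?_⟩
  have sur : Function.Surjective (fderiv ℂ (w ∘ s) (y p)) :=
    (LinearMap.injective_iff_surjective (f := (fderiv ℂ (w ∘ s) (y p)).toLinearMap)).1 inj
  let L : (Fin r → ℂ) ≃L[ℂ] (Fin r → ℂ) := LinearEquiv.toContinuousLinearEquiv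
    (LinearEquiv.ofBijective (fderiv ℂ (w ∘ s) (y p)).toLinearMap ⟨inj, sur⟩)
  have d5 : HasFDerivAt (w ∘ s) (L : (Fin r → ℂ) →L[ℂ] Fin r → ℂ) (y p) := d1
  let e := hF.toOpenPartialHomeomorph (w ∘ s) d5 one_ne_zero
  have he : ∀ t, e t = w (s t) := fun _ => rfl
  have hs : y p ∈ e.source := hF.mem_toOpenPartialHomeomorph_source d5 one_ne_zero
  have hi : ContDiffAt ℂ 1 e.symm (e (y p)) := hF.to_localInverse d5 one_ne_zero
  obtain ⟨T, hT, oT, pT⟩ := eventually_nhds_iff.1 (hi.eventually (by simp))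
  have oS : IsOpen (e.source ∩ e ⁻¹' T) := e.isOpen_inter_preimage oT
  obtain ⟨V, oV, hV⟩ := (continuousOn_iff'.1 hc.cy) _ oS
  have mV : ∀ z ∈ U ∩ K, z ∈ V ↔ y z ∈ e.source ∩ e ⁻¹' T := fun z hz =>
    ⟨fun a => (hV.symm.subset ⟨a, hz⟩).1, fun a => (hV.subset ⟨a, hz⟩).1⟩
  have ew : ∀ z ∈ U ∩ K, e (y z) = w z := fun z hz => by rw [he, hc.li z hz]
  refine ⟨U ∩ V, (e.target ∩ e.symm ⁻¹' O) ∩ T, s ∘ e.symm, ⟨hc.oU.inter oV,
    (e.isOpen_inter_preimage_symm hc.oO).inter oT, ?_, ?_, ?_, ?_, ?_, ?_⟩,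
    ⟨⟨hp.1, (mV p hp).2 ⟨hs, pT⟩⟩, hp.2⟩, ?_⟩
  · intro z hz
    exact (continuousAt_pi.2 fun i => hR.cont z _ (hUW ⟨hz.1.1, hz.2⟩ i)).continuousWithinAt
  · intro z hz
    have hz' : z ∈ U ∩ K := ⟨hz.1.1, hz.2⟩
    have a := (mV z hz').1 hz.1.2
    rw [← ew z hz']
    refine ⟨⟨e.map_source a.1, ?_⟩, a.2⟩
    show e.symm (e (y z)) ∈ O
    rw [e.left_inv a.1]; exact hc.my hz'
  · exact hc.cs.comp (e.continuousOn_symm.mono fun _ ht => ht.1.1) fun _ ht => ht.1.2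
  · intro t ht
    have a := hc.ms ht.1.2
    refine ⟨⟨a.1, (mV _ a).2 ?_⟩, a.2⟩
    rw [hc.ri _ ht.1.2]
    refine ⟨e.map_target ht.1.1, ?_⟩
    show e (e.symm t) ∈ T
    rw [e.right_inv ht.1.1]; exact ht.2
  · intro z hz
    have hz' : z ∈ U ∩ K := ⟨hz.1.1, hz.2⟩
    show s (e.symm (w z)) = z
    rw [← ew z hz', e.left_inv ((mV z hz').1 hz.1.2).1, hc.li z hz']
  · intro t ht
    exact e.right_inv ht.1.1
  · intro q hq1
    have hq' : q ∈ U ∩ K := ⟨hq1.1.1, hq1.2⟩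
    have a := (mV q hq').1 hq1.1.2
    refine ⟨hUW hq', fun f hf => ?_⟩
    have b : ContDiffAt ℂ 1 (f ∘ s) (e.symm (w q)) := by
      rw [← ew q hq', e.left_inv a.1]; exact (hq q hq').2 f hf
    have c : ContDiffAt ℂ 1 e.symm (w q) := hT _ (by rw [← ew q hq']; exact a.2)
    exact b.comp (w q) c

/-- a slice of a chart -/
theorem At.slice (hR : Shf Rg) {k : ℕ} {s : Z → Fin k → ℂ} {y : Z → Fin r → ℂ}
    (h : At Rg K p fun z => Fin.append (s z) (y z)) {A : Set Z} (hA : A ⊆ K) (hp : p ∈ A)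
    (e : ∀ᶠ u in 𝓝[K] p, u ∈ A ↔ s u = 0) : At Rg A p y := by
  have _ := hR
  obtain ⟨U, O, σ, hc, hpU, hUW, hq⟩ := h.small e
  have ca : ContDiff ℂ 1 fun t : Fin r → ℂ => (Fin.append (0 : Fin k → ℂ) t : Fin (k + r) → ℂ) := by
    refine contDiff_pi.2 fun i => ?_
    refine Fin.addCases (fun j => ?_) (fun j => ?_) i
    · simpa using contDiff_const
    · simpa using contDiff_apply ℂ ℂ j
  have z0 : ∀ z ∈ U ∩ A, Fin.append (0 : Fin k → ℂ) (y z) = Fin.append (s z) (y z) := fun z hz => by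
    rw [(hUW ⟨hz.1, hA hz.2⟩).1 hz.2]
  refine ⟨U, (fun t => Fin.append (0 : Fin k → ℂ) t) ⁻¹' O, fun t => σ (Fin.append 0 t),
    ⟨hc.oU, hc.oO.preimage ca.continuous, ?_, ?_, ?_, ?_, ?_, ?_⟩, ⟨hpU.1, hp⟩, ?_⟩
  · refine continuousOn_pi.2 fun i => ?_
    have := (continuousOn_pi.1 hc.cy (Fin.natAdd k i)).mono
      (inter_subset_inter_right U hA)
    simpa using this
  · intro z hz
    show Fin.append (0 : Fin k → ℂ) (y z) ∈ O
    rw [z0 z hz]; exact hc.my ⟨hz.1, hA hz.2⟩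
  · exact hc.cs.comp ca.continuous.continuousOn fun _ ht => ht
  · intro t ht
    have a := hc.ms ht
    refine ⟨a.1, (hUW a).2 (funext fun i => ?_)⟩
    have := congrFun (hc.ri _ ht) (Fin.castAdd r i)
    simpa using this
  · intro z hz
    show σ (Fin.append 0 (y z)) = z
    rw [z0 z hz]; exact hc.li z ⟨hz.1, hA hz.2⟩
  · intro t ht
    funext i
    have := congrFun (hc.ri _ ht) (Fin.natAdd k i)
    simpa using this
  · intro q hq1
    have a := hq q ⟨hq1.1, hA hq1.2⟩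
    refine ⟨fun i => by simpa using a.1 (Fin.natAdd k i), fun f hf => ?_⟩
    have b : ContDiffAt ℂ 1 (f ∘ σ) (Fin.append (0 : Fin k → ℂ) (y q)) := by
      rw [z0 q hq1]; exact a.2 f hf
    exact b.comp (y q) ca.contDiffAt

/-- transport along an embedding onto a relatively open part of `K` -/
theorem At.emb [TopologicalSpace Z'] {Rg' : Z' → (Z' → ℂ) → Prop} {e : Z' → Z}
    (he : IsEmbedding e) {V : Set Z} (hV : IsOpen V) (hr : range e = V ∩ K) {q : Z'}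
    {y : Z → Fin r → ℂ} (h : At Rg' univ q (y ∘ e))
    (hy : ∀ᶠ q' in 𝓝 q, ∀ i, Rg (e q') fun z => y z i)
    (hR : ∀ q' f, Rg (e q') f → Rg' q' (f ∘ e)) : At Rg K (e q) y := by
  obtain ⟨U, O, s, hc, hq, hUW, hg⟩ := h.small (mem_nhdsWithin_of_mem_nhds hy)
  obtain ⟨U0, oU0, hU0⟩ := he.isInducing.isOpen_iff.1 hc.oU
  have im : (U0 ∩ V) ∩ K = e '' (U ∩ univ) := by
    rw [inter_univ, ← hU0, image_preimage_eq_inter_range, hr, inter_assoc]
  refine ⟨U0 ∩ V, O, e ∘ s, ⟨oU0.inter hV, hc.oO, ?_, ?_, ?_, ?_, ?_, ?_⟩, ?_, ?_⟩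
  · rw [im]; exact he.isInducing.continuousOn_image_iff.2 hc.cy
  · rw [im]; rintro _ ⟨z, hz, rfl⟩; exact hc.my hz
  · exact he.continuous.comp_continuousOn hc.cs
  · rw [im]; exact fun t ht => ⟨s t, hc.ms ht, rfl⟩
  · rw [im]; rintro _ ⟨z, hz, rfl⟩; exact congrArg e (hc.li z hz)
  · exact hc.ri
  · rw [im]; exact ⟨q, hq, rfl⟩
  · rw [im]; rintro _ ⟨z, hz, rfl⟩
    exact ⟨hUW hz, fun f hf => (hg z hz).2 _ (hR z f hf)⟩

theorem Fund.size {φ : HT ℚ K →ₗ[ℚ] ℚ} (h : Fund Rg K r φ) {y : Z → Fin n → ℂ}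
    (hy : At Rg K p y) : n = r := by
  obtain ⟨B, -, -, -, hd, hB⟩ := h.bad
  have hp : p ∈ K := by obtain ⟨_, _, _, -, hp, -⟩ := hy; exact hp.2
  obtain ⟨V, oV, pV, hV⟩ := mem_nhdsWithin.1 hy.near
  obtain ⟨q, hqV, hq⟩ := mem_closure_iff.1 (hd hp) V oV pV
  obtain ⟨y', hy'⟩ := hB q hq
  exact At.size (hV ⟨hqV, hq.1⟩) hy'

end Chg

end Pool.Agent.Lib.MP_d3d358_ag.Cw
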