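import Pool.Agent.Lib.MP_d3d358_ag.Cw.HDef
import Pool.Agent.Lib.MP_d3d358_ag.Cw.Chg
import Pool.Agent.Lib.MP_d3d358_ag.Cw.At

/-! A top monomial class is the signed sum of the point classes of a regular fibre. -/

set_option autoImplicit false

namespace Pool.Agent.Lib.MP_d3d358_ag.Cw

open Topology Set Filter AS

variable {ι Z : Type} [Fintype ι] {r n : ℕ} [MetricSpace Z] {K : Set Z} {ν : Z → Tor ι}

/-- near zero the generator of the circle is the jump of the small lift -/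
theorem deg_jp {V : Set Z} {c : Z → UnitAddCircle} {t : Z → ℝ} (ht : ContinuousOn t V)
    (h : ∀ x ∈ V, c x = (t x : UnitAddCircle)) (hs : ∀ x ∈ V, |t x| < 1) :
    pullC c (thetaC ℚ) - jp t ∈ N V := by
  have a := thetaC_lift ℚ ht h
  have b : dC (fnC ((fun x => if 0 ≤ t x then (1 : ℚ) else 0) - fun x => ((⌊t x⌋ : ℤ) : ℚ))) ∈
      N V := pt_const (c := 1) fun w hw => by
    have h := abs_lt.1 (hs w hw)
    change ite _ _ _ - ((⌊t w⌋ : ℤ) : ℚ) = 1
    split_ifs with h0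
    · rw [Int.floor_eq_zero_iff.2 ⟨h0, h.2⟩]; simp
    · rw [(Int.floor_eq_iff (z := -1)).2 ⟨by push_cast; linarith [h.1],
        by push_cast; linarith [not_le.1 h0]⟩]; simp
  rw [Circle_fn_sub, map_sub] at b
  have := sub_mem a b
  rwa [sub_sub_sub_cancel_right] at this

theorem deg_det (F : (Fin r → ℂ) → ι → ℝ) (w : Fin r → ℂ) (J : Fin (r * 2) → ι)
    (hF : DifferentiableAt ℝ F w) :
    ((fderiv ℝ (fun v k => F v (J k)) w).comp (rl r).symm.toContinuousLinearMap).det =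
      mnr F w J := by
  have e : fderiv ℝ (fun v k => F v (J k)) w =
      (ContinuousLinearMap.pi fun k => ContinuousLinearMap.proj (J k)).comp (fderiv ℝ F w) :=
    ((ContinuousLinearMap.pi fun k => (ContinuousLinearMap.proj (J k) :
      (ι → ℝ) →L[ℝ] ℝ)).hasFDerivAt.comp w hF.hasFDerivAt).fderiv
  rw [e, mnr, ContinuousLinearMap.det, ← LinearMap.det_toMatrix']
  congr 1

theorem area_deg (hK : IsCompact K) (hν : ContinuousOn ν K) (J : Fin (r * 2) → ι)
    (θ : Tor (Fin (r * 2))) {S : Finset Z} (hS : (S : Set Z) = {q | q ∈ K ∧ ∀ k, ν q (J k) = θ k})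
    (y : Z → Z → Fin r → ℂ) (F : Z → (Fin r → ℂ) → ι → ℝ) (x : Z → HT ℚ K)
    (h : ∀ q ∈ S, Cht K q (y q) ∧ ContDiffAt ℝ 1 (F q) (y q q) ∧
      (∀ᶠ u in 𝓝[K] q, ν u = mkT (F q (y q u))) ∧ IsPt K q (y q) (x q) ∧ mnr (F q) (y q q) J ≠ 0) :
    mono ν hν J = ∑ q ∈ S, ((SignType.sign (mnr (F q) (y q q) J) : ℤ) : ℚ) • x q := by
  have mS : ∀ q, q ∈ S ↔ q ∈ K ∧ ∀ k, ν q (J k) = θ k := fun q => by
    rw [← Finset.mem_coe, hS]; rfl
  let c : Fin (r * 2) → Z → UnitAddCircle := fun k u => ν u (J k) - θ k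
  have hc0 : ∀ k, ContinuousOn (fun u => ν u (J k)) K := fun k =>
    (continuous_apply (J k)).comp_continuousOn hν
  have hc : ∀ k, ContinuousOn (c k) K := fun k => (hc0 k).sub continuousOn_const
  obtain ⟨hj, ej⟩ := pt_prod_mk (List.finRange (r * 2)) fun k => Circle_coc (R := ℚ) (hc k)
  set j := ((List.finRange (r * 2)).map fun k => pullC (c k) (thetaC ℚ)).prod with hjd
  have e0 : mono ν hν J = AS.mk j hj := by
    rw [ej, mono, List.ofFn_eq_map]
    exact congrArg List.prod (List.map_congr_left fun k _ =>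
      (pt_cls_sub (hc0 k) (θ k)).symm.trans (Circle_cls (hc k)))
  have off : ∀ u ∈ K, u ∉ S → j ∈ ptN (𝓝[K] u) := fun u hu hn => by
    obtain ⟨k, hk⟩ : ∃ k, ν u (J k) ≠ θ k := not_forall.1 fun e => hn ((mS u).2 ⟨hu, e⟩)
    refine ⟨K ∩ c k ⁻¹' {0}ᶜ, inter_mem self_mem_nhdsWithin
      (hc k u hu (isOpen_compl_singleton.mem_nhds (sub_ne_zero.2 hk))), ?_⟩
    exact pt_prod_N (List.mem_finRange k)
      (N_pullC ((hc k).mono inter_subset_left) (fun _ h => h.2) pt_theta)
  have lc : ∀ q ∈ S, Lc K q j (((SignType.sign (mnr (F q) (y q q) J) : ℤ) : ℚ) • x q) := by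
    intro q hq
    obtain ⟨h1, h2, h3, h4, h5⟩ := h q hq
    obtain ⟨qK, qθ⟩ := (mS q).1 hq
    have fin : ((S : Set Z) \ {q}).Finite := S.finite_toSet.subset sdiff_subset
    have hU : ((S : Set Z) \ {q})ᶜ ∈ 𝓝 q := fin.isClosed.isOpen_compl.mem_nhds fun e => e.2 rfl
    obtain ⟨x', hx'⟩ : ∃ x', Lc K q j x' := exists_lc hU (N_mono inter_subset_right hj)
      (Circle_local fun u hu => by
        obtain ⟨V, hV, e⟩ := off u hu.1.2 fun e => hu.1.1 ⟨e, hu.2⟩
        exact ⟨V, nhdsWithin_mono u (fun _ h => h.1.2) hV, e⟩)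
    have hG : ContDiffAt ℝ 1 (fun v k => F q v (J k)) (y q q) :=
      contDiffAt_pi.2 fun k => contDiffAt_pi.1 h2 (J k)
    have hd := deg_det (F q) (y q q) J (h2.differentiableAt one_ne_zero)
    obtain ⟨U, O, s, cd, hp⟩ := id h1
    have ty := cd.tendsto_y hp
    have ev : ∀ᶠ u in 𝓝[K] q, ContinuousAt (fun v k => F q v (J k)) (y q u) ∧
        ‖(fun k => F q (y q u) (J k)) - fun k => F q (y q q) (J k)‖ < 1 :=
      ty.eventually (((hG.eventually (by simp)).mono fun _ h => h.continuousAt).and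
        (((hG.continuousAt.sub continuousAt_const).norm).eventually_lt_const (by simp)))
    obtain ⟨W, hW, hw⟩ := mem_nhdsWithin_iff_exists_mem_nhds_inter.1
      ((ev.and h3).and (cd.mem_nhdsWithin hp))
    have e1 : j - jr (fun u => (fun k => F q (y q u) (J k)) - fun k => F q (y q q) (J k)) ∈
        N (W ∩ K) := by
      rw [loc_jr]
      refine pt_prod_sub _ fun k => deg_jp (fun u hu => ?_) (fun u hu => ?_) fun u hu => ?_
      · exact ((continuous_apply k).continuousAt.comp_continuousWithinAt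
          ((hw hu).1.1.1.comp_continuousWithinAt
            ((cd.cy u (hw hu).2).mono fun v hv => (hw hv).2))).sub continuousWithinAt_const
      · change ν u (J k) - θ k = ((F q (y q u) (J k) - F q (y q q) (J k) : ℝ) : UnitAddCircle)
        rw [← qθ k, (hw hu).1.2, h3.self_of_nhdsWithin qK, AddCircle.coe_sub]
        rfl
      · exact (norm_le_pi_norm _ k).trans_lt (hw hu).1.1.2
    have := chg_real hK h1 hG (hd ▸ h5) (g := fun u k => F q (y q u) (J k)) EventuallyEq.rfl h4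
      (hx'.congr hW e1)
    rw [hd] at this
    exact this ▸ hx'
  choose! b b1 b2 b3 using fun q hq => lc_iff.1 (lc q hq)
  obtain ⟨hb, e⟩ := loc_sum S b1
  rw [e, e0]
  exact (loc_mk_eq hb hj (Circle_local fun u hu =>
    loc_near (fun q hq => ⟨b2 q hq, b3 q hq⟩) (off u hu))).symm

end Pool.Agent.Lib.MP_d3d358_ag.Cw
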