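import Pool.Agent.Lib.MP_d3d358_ag.Cw.HDef

/-! Null sets and minors. -/

set_option autoImplicit false

namespace Pool.Agent.Lib.MP_d3d358_ag.Cw

open Topology Set Filter MeasureTheory AS

variable {ι κ : Type} [Fintype ι] [Fintype κ] {r : ℕ}

theorem mnr_null (n : ℕ) : ∀ H : MvPolynomial (Fin n) ℂ, H ≠ 0 →
    ∀ᵐ z : Fin n → ℂ, MvPolynomial.eval z H ≠ 0 := by
  induction n with
  | zero =>
    intro H hH
    refine ae_of_all _ fun z h => hH (MvPolynomial.funext fun w => ?_)
    rw [Subsingleton.elim w z, h, map_zero]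
  | succ n ih =>
    intro H hH
    let Q := MvPolynomial.finSuccEquiv ℂ n H
    have hQ : Q ≠ 0 := (map_ne_zero_iff _ (MvPolynomial.finSuccEquiv ℂ n).injective).2 hH
    have c : Continuous fun u : (Fin n → ℂ) × ℂ =>
        MvPolynomial.eval (Fin.cons u.2 u.1 : Fin (n + 1) → ℂ) H :=
      H.continuous_eval.comp (by fun_prop)
    have h1 : ∀ᵐ u ∂(volume : Measure (Fin n → ℂ)).prod (volume : Measure ℂ),
        MvPolynomial.eval (Fin.cons u.2 u.1 : Fin (n + 1) → ℂ) H ≠ 0 := by
      refine (Measure.ae_prod_iff_ae_ae (isOpen_ne_fun c continuous_const).measurableSet).2 ?_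
      filter_upwards [ih _ (Polynomial.leadingCoeff_ne_zero.2 hQ)] with s hs
      have h0 : Q.map (MvPolynomial.eval s) ≠ 0 := fun e => hs (by
        have := congrArg (fun p => Polynomial.coeff p Q.natDegree) e
        rwa [Polynomial.coeff_map, Polynomial.coeff_zero] at this)
      have := (Polynomial.finite_setOfPred_isRoot h0).measure_zero (volume : Measure ℂ)
      filter_upwards [measure_eq_zero_iff_ae_notMem.1 this] with y hy
      rw [MvPolynomial.eval_eq_eval_mv_eval']
      exact hy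
    have h2 := (Measure.measurePreserving_swap.comp
      (volume_preserving_piFinSuccAbove (fun _ : Fin (n + 1) => ℂ) 0)).quasiMeasurePreserving.ae h1
    filter_upwards [h2] with z hz
    have e : (Fin.cons (z 0) (fun i => z (Fin.succ i)) : Fin (n + 1) → ℂ) = z :=
      Fin.cons_self_tail z
    rw [← e]
    exact hz

theorem null_poly {H : MvPolynomial (Fin r) ℂ} (hH : H ≠ 0) :
    ∀ᵐ t : Fin (r * 2) → ℝ, MvPolynomial.eval ((rl r).symm t) H ≠ 0 :=
  ae_of_ae_map (p := fun z => MvPolynomial.eval z H ≠ 0) (rl r).symm.continuous.aemeasurable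
    ((Measure.absolutelyContinuous_isAddHaarMeasure (volume.map (rl r).symm) volume).ae_le
      (mnr_null r H hH))

theorem mnr_det (T : (Fin r → ℂ) →ₗ[ℂ] Fin r → ℂ) :
    LinearMap.det ((rl r).toLinearEquiv.toLinearMap ∘ₗ T.restrictScalars ℝ ∘ₗ
      (rl r).toLinearEquiv.symm.toLinearMap) = ‖LinearMap.det T‖ ^ 2 := by
  rw [LinearMap.det_conj, LinearMap.det_restrictScalars, Algebra.norm_complex_apply,
    Complex.normSq_eq_norm_sq]

theorem mnr_mat {R : Type} [Field R] {n : ℕ} (f : (Fin n → R) →ₗ[R] Fin n → R) :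
    (Matrix.of fun k l => f (Pi.single l 1) k).det = LinearMap.det f := by
  rw [← LinearMap.det_toMatrix']
  congr 1

theorem det_rl (T : (Fin r → ℂ) →L[ℂ] Fin r → ℂ) :
    (Matrix.of fun k l => rl r (T ((rl r).symm (Pi.single l 1))) k).det =
      ‖(Matrix.of fun i k => T (Pi.single k 1) i).det‖ ^ 2 :=
  (mnr_mat _).trans ((mnr_det T.toLinearMap).trans (by rw [← mnr_mat]; rfl))

omit [Fintype ι] in
theorem mnr_exists {M : Matrix κ (Fin r) ℂ} (h : Function.Injective M.mulVec) :
    ∃ I : Fin r → κ, (M.submatrix I id).det ≠ 0 := by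
  obtain ⟨κ', a, ha, hs, hl⟩ := exists_linearIndependent' ℂ M.row
  have _ : Finite κ' := Finite.of_injective a ha
  let _ := Fintype.ofFinite κ'
  have e : Fintype.card κ' = r := by
    rw [← finrank_span_eq_card hl, hs, ← Matrix.rank_eq_finrank_span_row, Matrix.rank,
      LinearMap.finrank_range_of_inj h, Module.finrank_fin_fun]
  let b := (Fintype.equivFinOfCardEq e).symm
  exact ⟨a ∘ b, ((Matrix.isUnit_iff_isUnit_det _).1
    (Matrix.linearIndependent_rows_iff_isUnit.1 (hl.comp b b.injective))).ne_zero⟩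

theorem minor_le (r : ℕ) (c : ℝ) : ∃ C : ℝ, ∀ L : (κ → ℂ) →L[ℝ] ι → ℝ, ‖L‖ ≤ c →
    ∀ (T : (Fin r → ℂ) →L[ℂ] κ → ℂ) (J : Fin (r * 2) → ι),
      |(Matrix.of fun k l => L (T ((rl r).symm (Pi.single l 1))) (J k)).det| ≤
        C * ∑ I : Fin r → κ, ‖(Matrix.of fun i k => T (Pi.single k 1) (I i)).det‖ ^ 2 := by
  classical
  let x : ℝ := c * (r * ‖(rl r).symm.toContinuousLinearMap‖)
  refine ⟨|(Fintype.card (Fin (r * 2))).factorial • x ^ Fintype.card (Fin (r * 2))|,
    fun L hL T J => ?_⟩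
  let M : Matrix κ (Fin r) ℂ := LinearMap.toMatrix' T.toLinearMap
  have hM : ∀ v, M.mulVec v = T v := fun v => LinearMap.toMatrix'_mulVec _ v
  change _ ≤ _ * ∑ I : Fin r → κ, ‖(M.submatrix I id).det‖ ^ 2
  let π : (κ → ℂ) →ₗ[ℝ] Fin (r * 2) → ℝ := LinearMap.funLeft ℝ ℝ J ∘ₗ L.toLinearMap
  let ρ := (rl r).toLinearEquiv
  rw [show (Matrix.of fun k l => L (T ((rl r).symm (Pi.single l 1))) (J k)).det =
    LinearMap.det (π ∘ₗ T.toLinearMap.restrictScalars ℝ ∘ₗ ρ.symm.toLinearMap) from by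
      rw [← mnr_mat]; rfl]
  by_cases inj : Function.Injective M.mulVec
  · obtain ⟨I₀, h₀⟩ := mnr_exists inj
    obtain ⟨I, -, hI⟩ := Finset.exists_max_image Finset.univ
      (fun I : Fin r → κ => ‖(M.submatrix I id).det‖) ⟨I₀, Finset.mem_univ _⟩
    let A := M.submatrix I id
    have d0 : A.det ≠ 0 := norm_pos_iff.1 ((norm_pos_iff.2 h₀).trans_le (hI _ (Finset.mem_univ _)))
    let S : Matrix κ (Fin r) ℂ := Matrix.of fun i j => A.det⁻¹ * A.transpose.cramer (M i) j
    have s1 : ∀ i j, ‖S i j‖ ≤ 1 := fun i j => by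
      have e : A.updateRow j (M i) = M.submatrix (Function.update I j i) id := by
        ext k l
        by_cases hk : k = j <;> simp [A, hk, Matrix.updateRow_apply]
      change ‖A.det⁻¹ * A.transpose.cramer (M i) j‖ ≤ 1
      rw [Matrix.cramer_transpose_apply, e, norm_mul, norm_inv,
        inv_mul_le_one₀ (norm_pos_iff.2 d0)]
      exact hI _ (Finset.mem_univ _)
    have s2 : S * A = M := by
      ext i l
      have := congrFun (Matrix.mulVec_cramer A.transpose (M i)) l
      rw [Matrix.det_transpose, Matrix.mulVec_transpose] at this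
      simp only [Matrix.mul_apply, S, Matrix.of_apply, mul_assoc, ← Finset.mul_sum]
      rw [inv_mul_eq_iff_eq_mul₀ d0]
      exact this
    let Φ := π ∘ₗ (Matrix.toLin' S).restrictScalars ℝ ∘ₗ ρ.symm.toLinearMap
    have e : π ∘ₗ T.toLinearMap.restrictScalars ℝ ∘ₗ ρ.symm.toLinearMap =
        Φ ∘ₗ (ρ.toLinearMap ∘ₗ (Matrix.toLin' A).restrictScalars ℝ ∘ₗ ρ.symm.toLinearMap) := by
      refine LinearMap.ext fun t => ?_
      change π (T (ρ.symm t)) = π (S.mulVec (ρ.symm (ρ (A.mulVec (ρ.symm t)))))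
      rw [ρ.symm_apply_apply, Matrix.mulVec_mulVec, s2, hM]
    rw [e, LinearMap.det_comp, mnr_det, LinearMap.det_toLin', abs_mul, abs_pow, abs_norm]
    refine mul_le_mul (le_trans ?_ (le_abs_self _)) (Finset.single_le_sum
      (f := fun I : Fin r → κ => ‖(M.submatrix I id).det‖ ^ 2) (fun _ _ => sq_nonneg _)
      (Finset.mem_univ I)) (sq_nonneg _) (abs_nonneg _)
    rw [← mnr_mat]
    refine Matrix.det_le (abv := AbsoluteValue.abs) fun k l => ?_
    have v1 : ‖(rl r).symm (Pi.single l 1)‖ ≤ ‖(rl r).symm.toContinuousLinearMap‖ :=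
      (rl r).symm.toContinuousLinearMap.unit_le_opNorm _ (by rw [Pi.norm_single, norm_one])
    have v2 : ‖S.mulVec ((rl r).symm (Pi.single l 1))‖ ≤
        r * ‖(rl r).symm.toContinuousLinearMap‖ := by
      refine (pi_norm_le_iff_of_nonneg (by positivity)).2 fun i =>
        (norm_sum_le Finset.univ fun j => S i j * (rl r).symm (Pi.single l 1) j).trans ?_
      refine (Finset.sum_le_card_nsmul _ _ _ fun j _ => ?_).trans
        (by rw [Finset.card_fin, nsmul_eq_mul])
      rw [norm_mul]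
      exact (mul_le_of_le_one_left (norm_nonneg _) (s1 i j)).trans
        ((norm_le_pi_norm _ j).trans v1)
    exact (norm_le_pi_norm (L (S.mulVec ((rl r).symm (Pi.single l 1)))) (J k)).trans
      ((L.le_opNorm _).trans (mul_le_mul hL v2 (norm_nonneg _) ((norm_nonneg _).trans hL)))
  · have : LinearMap.det (π ∘ₗ T.toLinearMap.restrictScalars ℝ ∘ₗ ρ.symm.toLinearMap) = 0 := by
      refine LinearMap.det_eq_zero_iff_ker_ne_bot.2 fun h => inj fun v w e => ρ.injective
        (LinearMap.ker_eq_bot.1 h ?_)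
      change π (T (ρ.symm (ρ v))) = π (T (ρ.symm (ρ w)))
      rw [ρ.symm_apply_apply, ρ.symm_apply_apply, ← hM, ← hM, e]
    rw [this, abs_zero]
    positivity

theorem mnr_anti {N : ℕ} (x : Fin N → ℝ) :
    AntilipschitzWith 1 fun t : Metric.ball x (1 / 4) => mkT t.1 := by
  refine AntilipschitzWith.of_le_mul_dist fun s t => ?_
  rw [NNReal.coe_one, one_mul, Subtype.dist_eq, dist_pi_le_iff dist_nonneg]
  intro k
  refine le_trans (le_of_eq ?_) (dist_le_pi_dist _ _ k)
  have h : dist (s.1 k) (t.1 k) ≤ 1 / 2 := by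
    have h1 := dist_triangle_right s.1 t.1 x
    have h2 : dist s.1 x < 1 / 4 := s.2
    have h3 : dist t.1 x < 1 / 4 := t.2
    linarith [dist_le_pi_dist s.1 t.1 k]
  rw [Real.dist_eq] at h ⊢
  rw [dist_eq_norm, mkT, mkT, ← AddCircle.coe_sub]
  exact ((AddCircle.norm_coe_eq_abs_iff 1 one_ne_zero).2 (by rwa [abs_one])).symm

theorem null_dimH {B : Set (Tor ι)} {N : ℕ} (h : dimH B < N) (J : Fin N → ι) :
    ∀ᵐ θ : Fin N → ℝ, ∀ n ∈ B, (fun k => n (J k)) ≠ mkT θ := by
  have l : LipschitzWith 1 fun (n : Tor ι) (k : Fin N) => n (J k) :=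
    LipschitzWith.of_dist_le_mul fun a b => by
      rw [NNReal.coe_one, one_mul, dist_pi_le_iff dist_nonneg]
      exact fun k => dist_le_pi_dist a b (J k)
  have key : volume (mkT ⁻¹' ((fun (n : Tor ι) (k : Fin N) => n (J k)) '' B)) = 0 := by
    refine measure_null_of_locally_null _ fun x _ => ⟨_, inter_mem_nhdsWithin _
      (Metric.ball_mem_nhds x (show (0 : ℝ) < 1 / 4 by norm_num)), ?_⟩
    refine measure_zero_of_dimH_lt (d := N) ?_ ?_
    · rw [← hausdorffMeasure_pi_real, Fintype.card_fin, NNReal.coe_natCast]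
    · have := ((mnr_anti x).dimH_preimage_le _).trans (l.dimH_image_le B)
      rw [← isometry_subtype_coe.dimH_image] at this
      refine lt_of_le_of_lt ((dimH_mono ?_).trans this) (by simpa using h)
      exact fun t ht => ⟨⟨t, ht.2⟩, ht.1, rfl⟩
  filter_upwards [measure_eq_zero_iff_ae_notMem.1 key] with θ hθ n hn e
  exact hθ ⟨n, hn, e⟩

end Pool.Agent.Lib.MP_d3d358_ag.Cw
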