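import Pool.Agent.Lib.MP_d3d358_ag.Cw.MsrA
import Pool.Agent.Lib.MP_d3d358_ag.AS.Kum

/-! The signed area formula for maps to a torus. -/

set_option autoImplicit false

namespace Pool.Agent.Lib.MP_d3d358_ag.Cw

open Topology Set Filter MeasureTheory AS

variable {N : ℕ} {A : ℕ → Set (Fin N → ℝ)} {f : ℕ → (Fin N → ℝ) → Fin N → ℝ}

theorem msr_mk {x θ : Fin N → ℝ} :
    mkT x = mkT θ ↔ ∃ z : Fin N → ℤ, x = θ + fun i => (z i : ℝ) := by
  have h (i : Fin N) : mkT x i = mkT θ i ↔ ∃ n : ℤ, x i = θ i + n := by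
    simp only [mkT]
    rw [← sub_eq_zero, ← AddCircle.coe_sub, AddCircle.coe_eq_zero_iff]
    simp only [zsmul_eq_mul, mul_one]
    exact exists_congr fun n => ⟨fun e => by linarith, fun e => by linarith⟩
  rw [funext_iff]
  simp only [h]
  constructor
  · intro h
    choose z hz using h
    exact ⟨z, funext hz⟩
  · rintro ⟨z, rfl⟩ i
    exact ⟨z i, rfl⟩

/-- almost every point of the torus is a regular value -/
theorem msr_sard (hf : ∀ n, ∀ x ∈ A n, ContDiffAt ℝ 1 (f n) x) : ∀ᵐ θ : Fin N → ℝ,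
    ∀ n, ∀ x ∈ A n, mkT (f n x) = mkT θ → (fderiv ℝ (f n) x).det ≠ 0 := by
  have h1 (n : ℕ) : volume (f n '' {x | x ∈ A n ∧ (fderiv ℝ (f n) x).det = 0}) = 0 :=
    addHaar_image_eq_zero_of_det_fderivWithin_eq_zero volume (f' := fderiv ℝ (f n))
      (fun x hx => ((hf n x hx.1).differentiableAt one_ne_zero).hasFDerivAt.hasFDerivWithinAt)
      fun x hx => hx.2
  have h2 : ∀ᵐ θ : Fin N → ℝ, ∀ (n : ℕ) (z : Fin N → ℤ),
      θ + (fun i => (z i : ℝ)) ∉ f n '' {x | x ∈ A n ∧ (fderiv ℝ (f n) x).det = 0} := by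
    refine ae_all_iff.2 fun n => ae_all_iff.2 fun z => ?_
    have := measure_preimage_add_right volume (fun i => (z i : ℝ))
      (f n '' {x | x ∈ A n ∧ (fderiv ℝ (f n) x).det = 0})
    rw [h1] at this
    exact measure_eq_zero_iff_ae_notMem.1 this
  filter_upwards [h2] with θ h n x hx e h0
  obtain ⟨z, hz⟩ := msr_mk.1 e
  exact h n z ⟨x, ⟨hx, h0⟩, hz⟩

/-- the unit cube -/
theorem msr_cube : MeasurableSet {θ : Fin N → ℝ | ∀ i, ⌊θ i⌋ = 0} ∧
    volume {θ : Fin N → ℝ | ∀ i, ⌊θ i⌋ = 0} = 1 := by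
  have e : {θ : Fin N → ℝ | ∀ i, ⌊θ i⌋ = 0} = Set.pi univ fun _ => Ico (0 : ℝ) 1 := by
    ext θ
    simp [Int.floor_eq_zero_iff]
  rw [e]
  exact ⟨MeasurableSet.univ_pi fun _ => measurableSet_Ico, by simp [volume_pi_pi]⟩

theorem signed_area (hA : ∀ n, MeasurableSet (A n)) (hf : ∀ n, ∀ x ∈ A n, ContDiffAt ℝ 1 (f n) x)
    {m : ℕ → ℝ} (hm : ∀ n, |m n| ≤ 1)
    (fin : ∑' n, ∫⁻ x in A n, ENNReal.ofReal |(fderiv ℝ (f n) x).det| ≠ ⊤) {a : ℝ}
    (h : ∀ᵐ θ : Fin N → ℝ,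
      (∀ n, ∀ x ∈ A n, mkT (f n x) = mkT θ → (fderiv ℝ (f n) x).det ≠ 0) →
      ∃ S : Finset (ℕ × (Fin N → ℝ)), (S : Set (ℕ × (Fin N → ℝ))) =
        {p | p.2 ∈ A p.1 ∧ mkT (f p.1 p.2) = mkT θ} ∧
        a = ∑ p ∈ S, m p.1 * (SignType.sign (fderiv ℝ (f p.1) p.2).det : ℝ)) :
    a = ∑' n, m n * ∫ x in A n, (fderiv ℝ (f n) x).det := by
  classical
  choose P mP dP uP iP hz hs using fun n => msr_cut (hA n) (hf n)
  choose z hz using hz
  choose s hs using hs
  have sP (n k) : P n k ⊆ {x | x ∈ A n ∧ (fderiv ℝ (f n) x).det ≠ 0} :=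
    uP n ▸ subset_iUnion (P n) k
  have dP' (n k) : ∀ x ∈ P n k, HasFDerivWithinAt (f n) (fderiv ℝ (f n) x) (P n k) x :=
    fun x hx => ((hf n x (sP n k hx).1).differentiableAt one_ne_zero).hasFDerivAt.hasFDerivWithinAt
  let T : ℕ × ℕ → Set (Fin N → ℝ) := fun j =>
    (fun θ => θ + fun i => (z j.1 j.2 i : ℝ)) ⁻¹' (f j.1 '' P j.1 j.2)
  have mT (j) : MeasurableSet (T j) :=
    (measurable_add_const _) (measurable_image_of_fderivWithin (mP _ _) (dP' _ _) (iP _ _))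
  have vT (j) : volume (T j) = volume (f j.1 '' P j.1 j.2) := measure_preimage_add_right _ _ _
  have sT : ∑' j, volume (T j) ≠ ⊤ := by
    refine ne_top_of_le_ne_top fin ?_
    rw [ENNReal.tsum_prod']
    refine ENNReal.tsum_le_tsum fun n => ?_
    simp only [vT]
    calc ∑' k, volume (f n '' P n k)
        = ∑' k, ∫⁻ x in P n k, ENNReal.ofReal |(fderiv ℝ (f n) x).det| :=
          tsum_congr fun k => (lintegral_abs_det_fderiv_eq_addHaar_image volume (mP n k) (dP' n k)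
            (iP n k)).symm
      _ = ∫⁻ x in ⋃ k, P n k, ENNReal.ofReal |(fderiv ℝ (f n) x).det| :=
          (lintegral_iUnion (mP n) (dP n) _).symm
      _ ≤ _ := lintegral_mono_set (iUnion_subset fun k x hx => (sP n k hx).1)
  let c : ℕ × ℕ → ℝ := fun j => m j.1 * s j.1 j.2
  have hc (j) : |c j| ≤ 1 := by
    have : |(s j.1 j.2 : ℝ)| ≤ 1 := by cases s j.1 j.2 <;> simp
    simpa only [c, abs_mul] using mul_le_one₀ (hm _) (abs_nonneg _) this
  let F : ℕ × ℕ → (Fin N → ℝ) → ℝ := fun j => (T j).indicator fun _ => c j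
  have iF (j) : Integrable (F j) :=
    (integrableOn_const (ENNReal.ne_top_of_tsum_ne_top sT j)).integrable_indicator (mT j)
  have nF : Summable fun j => ∫ θ, ‖F j θ‖ := by
    refine (ENNReal.summable_toReal sT).of_nonneg_of_le
      (fun j => integral_nonneg fun _ => norm_nonneg _) fun j => ?_
    simp only [F, norm_indicator_eq_indicator_norm]
    rw [integral_indicator_const _ (mT j), smul_eq_mul]
    exact mul_le_of_le_one_right measureReal_nonneg (hc j)
  have eF : ∀ᵐ θ, ∑' j, F j θ = {θ : Fin N → ℝ | ∀ i, ⌊θ i⌋ = 0}.indicator (fun _ => a) θ := by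
    filter_upwards [h, msr_sard hf] with θ h hr
    by_cases hθ : θ ∈ {θ : Fin N → ℝ | ∀ i, ⌊θ i⌋ = 0}
    · obtain ⟨S, hS, ha⟩ := h hr
      have hS' (p) : p ∈ S ↔ p.2 ∈ A p.1 ∧ mkT (f p.1 p.2) = mkT θ := Set.ext_iff.1 hS p
      have h1 (p : ℕ × (Fin N → ℝ)) : ∃ k, p ∈ S → p.2 ∈ P p.1 k := by
        by_cases hp : p ∈ S
        · obtain ⟨h1, h2⟩ := (hS' p).1 hp
          have : p.2 ∈ ⋃ k, P p.1 k := uP p.1 ▸ ⟨h1, hr _ _ h1 h2⟩
          obtain ⟨k, hk⟩ := mem_iUnion.1 this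
          exact ⟨k, fun _ => hk⟩
        · exact ⟨0, fun h => (hp h).elim⟩
      choose κ hκ using h1
      have h2 (p) (hp : p ∈ S) : f p.1 p.2 = θ + fun i => (z p.1 (κ p) i : ℝ) := by
        obtain ⟨w, hw⟩ := msr_mk.1 ((hS' p).1 hp).2
        have : w = z p.1 (κ p) := funext fun i => by
          rw [← hz _ _ _ (hκ p hp) i, hw, Pi.add_apply, Int.floor_add_intCast, hθ i, zero_add]
        rw [hw, this]
      rw [indicator_of_mem hθ, tsum_eq_sum (s := S.image fun p => (p.1, κ p)), Finset.sum_image, ha]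
      · refine Finset.sum_congr rfl fun p hp => ?_
        simp only [F]
        rw [indicator_of_mem (show θ ∈ T (p.1, κ p) from ⟨p.2, hκ p hp, h2 p hp⟩), hs _ _ _ (hκ p hp)]
      · rintro ⟨n, x⟩ hp ⟨n', x'⟩ hq e
        obtain ⟨rfl, e⟩ := Prod.mk.inj e
        have h3 := hκ _ hq
        have h4 := h2 _ hq
        rw [← e] at h3 h4
        exact Prod.ext rfl (iP _ _ (hκ _ hp) h3 ((h2 _ hp).trans h4.symm))
      · rintro ⟨n, k⟩ hj
        refine indicator_of_notMem (s := T (n, k)) (fun h => hj ?_) _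
        obtain ⟨x, hx, e⟩ := h
        have hp : (n, x) ∈ S := (hS' _).2 ⟨(sP _ _ hx).1, msr_mk.2 ⟨_, e⟩⟩
        refine Finset.mem_image.2 ⟨(n, x), hp, Prod.ext rfl ?_⟩
        by_contra hk
        exact Set.disjoint_left.1 (dP n hk) (hκ _ hp) hx
    · rw [indicator_of_notMem hθ]
      refine (tsum_congr fun j => indicator_of_notMem (s := T j) (fun h => hθ fun i => ?_) _).trans
        tsum_zero
      obtain ⟨x, hx, e⟩ := h
      have := hz _ _ _ hx i
      simp only [e, Pi.add_apply, Int.floor_add_intCast] at this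
      omega
  have H := hasSum_integral_of_summable_integral_norm iF nF
  rw [integral_congr_ae eF, integral_indicator_const _ msr_cube.1, measureReal_def, msr_cube.2,
    ENNReal.toReal_one, one_smul] at H
  refine (H.prod_fiberwise fun n => ?_).tsum_eq.symm
  have i1 : IntegrableOn (fun x => (fderiv ℝ (f n) x).det) (A n) :=
    ⟨msr_det.aestronglyMeasurable, hasFiniteIntegral_iff_norm _ |>.2
      (ENNReal.ne_top_of_tsum_ne_top fin n).lt_top⟩
  have s1 : ⋃ k, P n k ⊆ A n := iUnion_subset fun k x hx => (sP n k hx).1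
  rw [setIntegral_eq_of_subset_of_forall_sdiff_eq_zero (hA n) s1 fun x hx => by
    by_contra h0
    exact hx.2 (uP n ▸ ⟨hx.1, h0⟩)]
  refine ((hasSum_integral_iUnion (mP n) (dP n) (i1.mono_set s1)).mul_left (m n)).congr_fun
    fun k => ?_
  have e1 := integral_image_eq_integral_abs_det_fderiv_smul volume (mP n k) (dP' n k) (iP n k)
    fun _ => (1 : ℝ)
  simp only [F]
  rw [integral_indicator_const _ (mT _), measureReal_def, vT, ← measureReal_def,
    setIntegral_congr_fun (mP n k) (g := fun x => (s n k : ℝ) * (|(fderiv ℝ (f n) x).det| • (1 : ℝ)))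
      fun x hx => by simp only [← hs n k x hx, smul_eq_mul, mul_one, sign_mul_abs],
    integral_const_mul, ← e1, setIntegral_const]
  simp only [c, smul_eq_mul]
  ring

end Pool.Agent.Lib.MP_d3d358_ag.Cw
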