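import Pool.Agent.Lib.MP_d3d358_ag.Cw.AreaA
import Pool.Agent.Lib.MP_d3d358_ag.Cw.Msr
import Pool.Agent.Lib.MP_d3d358_ag.Cw.Mnr
import Pool.Agent.Lib.MP_d3d358_ag.Cw.Deg

/-! The area formula: classes of forms that vanish on complex planes integrate to zero. -/

set_option autoImplicit false

namespace Pool.Agent.Lib.MP_d3d358_ag.Cw

open Topology Set Filter MeasureTheory AS

variable {ι κ Z : Type} [Fintype ι] [Fintype κ] {r : ℕ} [MetricSpace Z] {K B : Set Z}
  {ν : Z → Tor ι}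

/-- the disjoint pieces of the atlas, in real coordinates -/
def arA (U : ℕ → Set Z) (O : ℕ → Set (Fin r → ℂ)) (s : ℕ → (Fin r → ℂ) → Z) (n : ℕ) :
    Set (Fin (r * 2) → ℝ) := {x | (rl r).symm x ∈ O n ∧ ∀ k < n, s n ((rl r).symm x) ∉ U k}

section
variable {y : ℕ → Z → Fin r → ℂ} {U : ℕ → Set Z} {O : ℕ → Set (Fin r → ℂ)}
  {s : ℕ → (Fin r → ℂ) → Z}

theorem arA_meas (cd : ∀ n, Cd K (y n) (U n) (O n) (s n)) (n : ℕ) :
    MeasurableSet (arA U O s n) := by
  have : arA U O s n = (rl r).symm ⁻¹' (O n \ ⋃ k ∈ Iio n, O n ∩ s n ⁻¹' U k) := by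
    ext x
    simp only [arA, mem_setOf_eq, mem_preimage, mem_diff, mem_iUnion, mem_Iio, mem_inter_iff,
      not_exists, not_and]
    exact ⟨fun h => ⟨h.1, fun k hk _ => h.2 k hk⟩, fun h => ⟨h.1, fun k hk => h.2 k hk h.1⟩⟩
  rw [this]
  exact (rl r).symm.continuous.measurable ((cd n).oO.measurableSet.diff
    (isOpen_biUnion fun k _ => ((cd n).inter (cd k).oU).oO).measurableSet)

theorem arA_inj (cd : ∀ n, Cd K (y n) (U n) (O n) (s n)) :
    InjOn (fun p : ℕ × (Fin (r * 2) → ℝ) => s p.1 ((rl r).symm p.2))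
      {p | p.2 ∈ arA U O s p.1} := by
  rintro ⟨n, x⟩ h ⟨n', x'⟩ h' e
  have e : s n ((rl r).symm x) = s n' ((rl r).symm x') := e
  have a := ((cd n).ms h.1).1
  have a' := ((cd n').ms h'.1).1
  obtain rfl : n = n' := by
    rcases lt_trichotomy n n' with l | l | l
    · exact absurd (e ▸ a) (h'.2 n l)
    · exact l
    · exact absurd (e ▸ a') (h.2 n' l)
  have := congrArg (y n) e
  rw [(cd n).ri _ h.1, (cd n).ri _ h'.1] at this
  exact Prod.ext rfl ((rl r).symm.injective this)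

theorem arA_onto (cd : ∀ n, Cd K (y n) (U n) (O n) (s n)) {q : Z} (hq : q ∈ K)
    (h : q ∈ ⋃ n, U n) : ∃ n, q ∈ U n ∧ rl r (y n q) ∈ arA U O s n := by
  classical
  have h := mem_iUnion.1 h
  have a : q ∈ U (Nat.find h) ∩ K := ⟨Nat.find_spec h, hq⟩
  refine ⟨Nat.find h, a.1, ?_, fun k hk => ?_⟩
  · rw [(rl r).symm_apply_apply]; exact (cd _).my a
  · rw [(rl r).symm_apply_apply, (cd _).li q a]; exact Nat.find_min h hk
end

theorem area_empty (hK : IsCompact K) (hν : ContinuousOn ν K) (h : K ⊆ B)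
    (h0 : dimH (ν '' (K ∩ B)) < (r * 2 : ℕ)) (J : Fin (r * 2) → ι) : mono ν hν J = 0 := by
  obtain ⟨θ, hθ⟩ := (null_dimH h0 J).exists
  have := area_deg hK hν J (mkT θ) (S := ∅) (by
    rw [Finset.coe_empty]
    refine (eq_empty_iff_forall_notMem.2 fun q hq => ?_).symm
    exact hθ _ ⟨q, ⟨hq.1, h hq.1⟩, rfl⟩ (funext hq.2)) (fun _ _ => 0) (fun _ _ => 0) (fun _ => 0)
    (by simp)
  simpa using this

theorem area (hK : IsCompact K) (hB : IsCompact B) (hν : ContinuousOn ν K)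
    (e : (ι → ℝ) ≃L[ℝ] κ → ℂ) (ψ : HT ℚ K →ₗ[ℚ] ℚ)
    (hc : ∀ p ∈ K \ B, ∃ y : Z → Fin r → ℂ, HolAt e K ν p y ∧ ∀ x, IsPt K p y x → |ψ x| ≤ 1)
    (h0 : dimH (ν '' (K ∩ B)) < (r * 2 : ℕ)) (hb : ∀ p ∈ K, Bdd e K ν p r)
    (c : (Fin (r * 2) → ι) → ℂ)
    (hc0 : ∀ M, CLin r e M → ∑ J, c J * ((M.submatrix J id).det : ℝ) = 0) :
    ∑ J, c J * (ψ (mono ν hν J) : ℂ) = 0 := by
  classical
  rcases (K \ B).eq_empty_or_nonempty with hne | hne
  · simp [area_empty hK hν (diff_eq_empty.1 hne) h0]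
  obtain ⟨T, V, t, hT, j, y, U, O, s, F, m, hA, cov⟩ := ara_atlas hK hB hne hc hb
  have cd := fun n => (hA n).2.cd
  set A := arA U O s with hAd
  have mA : ∀ n, MeasurableSet (A n) := arA_meas cd
  have hol : ∀ n, ∀ x ∈ A n, ContDiffAt ℂ 1 (F n) ((rl r).symm x) :=
    fun n x hx => (hA n).2.hol _ hx.1
  have loc : ∀ n, ∀ q ∈ U n ∩ K, ν q = mkT (e.symm (F n (y n q))) := fun n q hq => by
    rw [(hA n).2.val q hq, e.symm_apply_apply]
    exact (hT _ (hA n).1).1 q ⟨((hA n).2.sub q hq).1, hq.2⟩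
  have locJ : ∀ (J : Fin (r * 2) → ι) n, ∀ q ∈ U n ∩ K,
      mkT (fJ e (F n) J (rl r (y n q))) = fun k => ν q (J k) := fun J n q hq => by
    rw [loc n q hq]
    funext k
    simp only [mkT, fJ, (rl r).symm_apply_apply]
  have fin : ∀ J, ∑' n, ∫⁻ x in A n, ENNReal.ofReal |(fderiv ℝ (fJ e (F n) J) x).det| ≠ ⊤ := by
    intro J
    have h1 : ∀ a ∈ T, ∑' n, ∫⁻ x in {x | x ∈ A n ∧ j n = a},
        ENNReal.ofReal |(fderiv ℝ (fJ e (F n) J) x).det| ≠ ⊤ := fun a ha =>
      area_mass (hT a ha).2 (A := fun n => {x | x ∈ A n ∧ j n = a})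
        (fun n => (mA n).inter (MeasurableSet.const _))
        (σ := fun p => s p.1 ((rl r).symm p.2)) ((arA_inj cd).mono fun p hp => hp.1)
        (fun n x hx => by
          have a1 := (cd n).ms hx.1.1
          refine ⟨⟨hx.2 ▸ ((hA n).2.sub _ a1).1, a1.2⟩, hol n x hx.1, ?_⟩
          have := (hA n).2.val _ a1
          rwa [(cd n).ri _ hx.1.1, hx.2] at this) J
    refine ne_top_of_le_ne_top (ENNReal.sum_ne_top.2 h1) ?_
    rw [← Summable.tsum_finsetSum fun _ _ => ENNReal.summable]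
    refine ENNReal.tsum_le_tsum fun n => le_trans (le_of_eq ?_) (Finset.single_le_sum
      (f := fun a => ∫⁻ x in {x | x ∈ A n ∧ j n = a},
        ENNReal.ofReal |(fderiv ℝ (fJ e (F n) J) x).det|) (fun _ _ => zero_le) (hA n).1)
    simp
  have val : ∀ J, (ψ (mono ν hν J) : ℝ) =
      ∑' n, m n * ∫ x in A n, (fderiv ℝ (fJ e (F n) J) x).det := by
    intro J
    refine signed_area mA (fun n x hx => fJ_smooth (hol n x hx) J) (fun n => (hA n).2.le) (fin J) ?_
    filter_upwards [null_dimH h0 J] with θ hθ reg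
    set Φ : Set Z := {q | q ∈ K ∧ ∀ k, ν q (J k) = mkT θ k} with hΦ
    have ex : ∀ q ∈ Φ, ∃ n, q ∈ U n ∧ rl r (y n q) ∈ A n := fun q hq =>
      arA_onto cd hq.1 (cov ⟨hq.1, fun hb => hθ _ ⟨q, ⟨hq.1, hb⟩, rfl⟩ (funext hq.2)⟩)
    choose! nq qU qA using ex
    have fq : ∀ q ∈ Φ, mkT (fJ e (F (nq q)) J (rl r (y (nq q) q))) = mkT θ := fun q hq =>
      (locJ J _ q ⟨qU q hq, hq.1⟩).trans (funext hq.2)
    have dq := fun q hq => reg (nq q) _ (qA q hq) (fq q hq)
    have cpt : IsCompact Φ := by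
      have : IsClosed (K ∩ (fun q k => ν q (J k)) ⁻¹' {mkT θ}) :=
        (continuousOn_pi.2 fun k => (continuous_apply (J k)).comp_continuousOn
          hν).preimage_isClosed_of_isClosed hK.isClosed isClosed_singleton
      refine hK.of_isClosed_subset ?_ fun q hq => hq.1
      convert this using 1
      ext q
      simp [hΦ, funext_iff]
    have fn : Φ.Finite := cpt.finite (IsDiscrete.of_nhdsWithin fun q hq => by
      rw [le_pure_iff]
      have a1 : q ∈ U (nq q) ∩ K := ⟨qU q hq, hq.1⟩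
      filter_upwards [nhdsWithin_mono q (fun u (hu : u ∈ Φ) => hu.1)
        (((hA _).2.isolated a1 J (dq q hq)).and ((cd _).mem_nhdsWithin a1)),
        self_mem_nhdsWithin] with u h1 h2
      exact h1.1 (((locJ J _ u h1.2).trans (funext h2.2)).trans (fq q hq).symm))
    have ch : ∀ q ∈ Φ, Cht K q (y (nq q)) := fun q hq => ⟨_, _, _, cd _, qU q hq, hq.1⟩
    choose! xq hxq using fun q hq => (ch q hq).exists_isPt
    have dm : ∀ q ∈ Φ, (fderiv ℝ (fJ e (F (nq q)) J) (rl r (y (nq q) q))).det =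
        mnr (e.symm ∘ F (nq q)) (y (nq q) q) J := fun q hq => by
      rw [fJ_det (hol _ _ (qA q hq)), (rl r).symm_apply_apply]
    have deg := area_deg hK hν J (mkT θ) fn.coe_toFinset (fun q => y (nq q))
      (fun q => e.symm ∘ F (nq q)) xq fun q hq => by
        have hq := fn.mem_toFinset.1 hq
        have a1 : q ∈ U (nq q) ∩ K := ⟨qU q hq, hq.1⟩
        exact ⟨ch q hq, fJ_real ((hA _).2.hol _ ((cd _).my a1)),
          Eventually.mono ((cd _).mem_nhdsWithin a1) (loc _), hxq q hq, dm q hq ▸ dq q hq⟩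
    have back : ∀ q ∈ Φ, s (nq q) ((rl r).symm (rl r (y (nq q) q))) = q := fun q hq => by
      rw [(rl r).symm_apply_apply, (cd _).li q ⟨qU q hq, hq.1⟩]
    refine ⟨fn.toFinset.image fun q => (nq q, rl r (y (nq q) q)), ?_, ?_⟩
    · rw [Finset.coe_image, fn.coe_toFinset]
      ext ⟨n, x⟩
      constructor
      · rintro ⟨q, hq, h⟩
        rw [← h]
        exact ⟨qA q hq, fq q hq⟩
      · rintro ⟨h1, h2⟩
        have a1 := (cd n).ms h1.1
        have a2 : s n ((rl r).symm x) ∈ Φ := ⟨a1.2, fun k => by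
          have := locJ J n _ a1
          rw [(cd n).ri _ h1.1, (rl r).apply_symm_apply, h2] at this
          exact (congrFun this k).symm⟩
        exact ⟨_, a2, arA_inj cd (qA _ a2) h1 (back _ a2)⟩
    · rw [Finset.sum_image, deg, map_sum, Rat.cast_sum]
      · refine Finset.sum_congr rfl fun q hq => ?_
        have hq := fn.mem_toFinset.1 hq
        rw [map_smul, smul_eq_mul, Rat.cast_mul, (hA _).2.pt q ⟨qU q hq, hq.1⟩ _ (hxq q hq),
          dm q hq, mul_comm]
        generalize SignType.sign (mnr (e.symm ∘ F (nq q)) (y (nq q) q) J) = a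
        cases a <;> simp
      · intro q hq q' hq' h
        have hq := fn.mem_toFinset.1 hq
        have hq' := fn.mem_toFinset.1 hq'
        rw [← back q hq, ← back q' hq']
        exact congrArg (fun p : ℕ × (Fin (r * 2) → ℝ) => s p.1 ((rl r).symm p.2)) h
  have int : ∀ J n, IntegrableOn (fun x => (fderiv ℝ (fJ e (F n) J) x).det) (A n) := fun J n =>
    ⟨(ContinuousLinearMap.continuous_det.measurable.comp
      (measurable_fderiv ℝ _)).aestronglyMeasurable, by
        rw [hasFiniteIntegral_iff_norm]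
        exact (ENNReal.ne_top_of_tsum_ne_top (fin J) n).lt_top⟩
  have sm : ∀ J, Summable fun n => m n * ∫ x in A n, (fderiv ℝ (fJ e (F n) J) x).det := fun J =>
    (ENNReal.summable_toReal (fin J)).of_norm_bounded fun n => by
      rw [norm_mul]
      exact (mul_le_of_le_one_left (norm_nonneg _) (hA n).2.le).trans
        (norm_integral_le_lintegral_norm _)
  have e1 : ∀ J, c J * (ψ (mono ν hν J) : ℂ) =
      ∑' n, c J * ((m n * ∫ x in A n, (fderiv ℝ (fJ e (F n) J) x).det : ℝ) : ℂ) := fun J => by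
    rw [tsum_mul_left, ← Complex.ofReal_tsum, ← val J, Complex.ofReal_ratCast]
  rw [Finset.sum_congr rfl fun J _ => e1 J, ← Summable.tsum_finsetSum fun J _ =>
    (Complex.summable_ofReal.2 (sm J)).mul_left (c J)]
  refine (tsum_congr fun n => ?_).trans tsum_zero
  have e2 : ∀ J, c J * ((m n * ∫ x in A n, (fderiv ℝ (fJ e (F n) J) x).det : ℝ) : ℂ) =
      m n * ∫ x in A n, c J * ((fderiv ℝ (fJ e (F n) J) x).det : ℂ) := fun J => by
    rw [integral_const_mul, integral_complex_ofReal, Complex.ofReal_mul]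
    ring
  have e3 := integral_finset_sum (μ := volume.restrict (A n)) Finset.univ
    (f := fun J x => c J * ((fderiv ℝ (fJ e (F n) J) x).det : ℂ))
    fun J _ => (int J n).ofReal.const_mul (c J)
  rw [Finset.sum_congr rfl fun J _ => e2 J, ← Finset.mul_sum, ← e3,
    setIntegral_eq_zero_of_forall_eq_zero, mul_zero]
  intro x hx
  have := hc0 (Matrix.of fun i l => fderiv ℝ (e.symm ∘ F n) ((rl r).symm x)
    ((rl r).symm (Pi.single l 1)) i) ⟨fderiv ℂ (F n) ((rl r).symm x), fun l => by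
      rw [← e.apply_symm_apply (fderiv ℂ (F n) _ _), ← fJ_fderiv (hol n x hx)]
      rfl⟩
  simp only [fJ_det (hol n x hx)]
  exact this

end Pool.Agent.Lib.MP_d3d358_ag.Cw
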