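import Pool.Agent.Lib.MP_d3d358_ag.Cw.HDef
import Pool.Agent.Lib.MP_d3d358_ag.Cw.Fnd

/-! Holomorphic charts of a finite cover over a general point of a subvariety. -/

set_option autoImplicit false

namespace Pool.Agent.Lib.MP_d3d358_ag.Cw

open CategoryTheory AlgebraicGeometry Topology Set Filter AS

variable {ι κ : Type} {r : ℕ}

theorem cova_oq : IsOpenQuotientMap (mkT : (ι → ℝ) → Tor ι) :=
  IsOpenQuotientMap.piMap fun _ => QuotientAddGroup.isOpenQuotientMap_mk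

/-- a chart of the base gives a chart of a subset of a product that is locally a graph -/
theorem cova_cht {T Z : Type} [TopologicalSpace T] [TopologicalSpace Z] {K : Set (T × Z)}
    {L : Set Z} (hm : MapsTo Prod.snd K L) {z : T × Z} (hz : z ∈ K) {y : Z → Fin r → ℂ}
    (h : Cht L z.2 y) {g : (Fin r → ℂ) → T} (hg : ∀ᶠ t in 𝓝 (y z.2), ContinuousAt g t)
    (e : ∀ᶠ q in 𝓝[K] z, q.1 = g (y q.2)) (ho : ∀ V ∈ 𝓝[K] z, Prod.snd '' V ∈ 𝓝[L] z.2) :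
    Cht K z (y ∘ Prod.snd) := by
  obtain ⟨U, O, s, hc, hp⟩ := h
  have hU : ∀ᶠ q : T × Z in 𝓝[K] z, q.2 ∈ U :=
    mem_nhdsWithin_of_mem_nhds (continuous_snd.continuousAt (hc.oU.mem_nhds hp.1))
  obtain ⟨V, oV, zV, hV⟩ := mem_nhdsWithin.1 (e.and hU)
  have h1 : ∀ᶠ t in 𝓝 (y z.2), s t ∈ Prod.snd '' (V ∩ K) :=
    hc.tendsto hp (ho _ (inter_mem (mem_nhdsWithin_of_mem_nhds (oV.mem_nhds zV))
      self_mem_nhdsWithin))
  obtain ⟨O', hO', oO', pO'⟩ := eventually_nhds_iff.1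
    ((h1.and hg).and (hc.oO.mem_nhds (hc.my hp)))
  have mU : ∀ q ∈ V ∩ K, q.2 ∈ U ∩ L := fun q hq => ⟨(hV hq).2, hm hq.2⟩
  have cy : ContinuousOn (y ∘ Prod.snd) (V ∩ K) := hc.cy.comp continuous_snd.continuousOn mU
  obtain ⟨V', oV', hV'⟩ := (continuousOn_iff'.1 cy) _ oO'
  have mV : ∀ q ∈ V ∩ K, q ∈ V' ↔ y q.2 ∈ O' := fun q hq =>
    ⟨fun a => (hV'.symm.subset ⟨a, hq⟩).1, fun a => (hV'.subset ⟨a, hq⟩).1⟩
  have mg : ∀ t ∈ O', (g t, s t) ∈ V ∩ K := fun t ht => by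
    obtain ⟨⟨⟨q, hq, e1⟩, -⟩, h3⟩ := hO' t ht
    have e2 : q = (g t, s t) := Prod.ext (by rw [(hV hq).1, e1, hc.ri t h3]) e1
    exact e2 ▸ hq
  refine ⟨V ∩ V', O', fun t => (g t, s t), ⟨oV.inter oV', oO', cy.mono fun q hq => ⟨hq.1.1, hq.2⟩,
    fun q hq => (mV q ⟨hq.1.1, hq.2⟩).1 hq.1.2, ?_, fun t ht => ?_, fun q hq => ?_,
    fun t ht => hc.ri t (hO' t ht).2⟩, ⟨zV, (mV z ⟨zV, hz⟩).2 pO'⟩, hz⟩
  · exact ContinuousOn.prodMk (fun t ht => (hO' t ht).1.2.continuousWithinAt)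
      (hc.cs.mono fun t ht => (hO' t ht).2)
  · refine ⟨⟨(mg t ht).1, (mV _ (mg t ht)).2 ?_⟩, (mg t ht).2⟩
    rwa [hc.ri t (hO' t ht).2]
  · exact Prod.ext (hV ⟨hq.1.1, hq.2⟩).1.symm (hc.li _ (mU q ⟨hq.1.1, hq.2⟩))

/-- square free part modulo a prime -/
theorem cova_sq {A : Type} [CommRing A] [Algebra ℂ A] (P : Ideal A) [P.IsPrime] {Q : Polynomial A}
    (hQ : Q.Monic) : ∃ h ∉ P, ∃ Q' : Polynomial A, ∀ p ∈ Vz P, p h ≠ 0 → ∀ ζ,
      Q.eval₂ p.hom.toRingHom ζ = 0 →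
        Q'.eval₂ p.hom.toRingHom ζ = 0 ∧ Q'.derivative.eval₂ p.hom.toRingHom ζ ≠ 0 := by
  obtain ⟨h, h0, Q', hQ'⟩ := sqfree (Q.map (Ideal.Quotient.mk P)) (hQ.map _).ne_zero
  obtain ⟨h, rfl⟩ := Ideal.Quotient.mk_surjective h
  obtain ⟨Q', rfl⟩ := Polynomial.map_surjective _ (Ideal.Quotient.mk_surjective (I := P)) Q'
  refine ⟨h, fun a => h0 (Ideal.Quotient.eq_zero_iff_mem.2 a), Q', fun p hp hh ζ e => ?_⟩
  have hs := (Sp.emb_of_surj (Ideal.Quotient.mkₐ_surjective ℂ P)).2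
  have hk : RingHom.ker (Ideal.Quotient.mkₐ ℂ P) = P := Ideal.mk_ker
  rw [hk] at hs
  obtain ⟨q, rfl⟩ := hs.symm.subset hp
  have := hQ' q hh ζ (by rw [Polynomial.eval₂_map]; exact e)
  rwa [Polynomial.derivative_map, Polynomial.eval₂_map, Polynomial.eval₂_map] at this

variable {W : Sch}

/-- finitely many regular functions are sections over one affine open set -/
theorem cova_sec {J : Type} [Finite J] {x : Pnt W} {a : J → Pnt W → ℂ} (h : ∀ j, Rg W x (a j)) :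
    ∃ U : W.left.Opens, IsAffineOpen U ∧ x.pt ∈ U ∧ ∃ b : J → Γ(W.left, U),
      ∀ᶠ p in 𝓝 x, ∀ j, a j p = val U (b j) p := by
  choose V s h1 h2 using h
  have oV : IsOpen (⋂ j, (V j : Set W.left)) := isOpen_iInter_of_finite fun j => (V j).2
  obtain ⟨U, hU, hx, le⟩ := exists_affine_le (x := x.pt) (U' := ⟨_, oV⟩) (mem_iInter.2 h1)
  have le' : ∀ j, U ≤ V j := fun j p hp => mem_iInter.1 (le hp) j
  refine ⟨U, hU, hx, fun j => W.left.presheaf.map (homOfLE (le' j)).op (s j),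
    eventually_all.2 fun j => ?_⟩
  filter_upwards [h2 j, Kc_mem_nhds hx] with p e hp
  rw [val_res _ _ hp, e]

/-- a simple root of a polynomial with regular coefficients is holomorphic in a chart -/
theorem cova_root {U : W.left.Opens} {L : Set (Pnt W)} {x : Pnt W} (hx : x.pt ∈ U)
    {y : Pnt W → Fin r → ℂ} (h : At (Rg W) L x y) (Q : Polynomial Γ(W.left, U)) {T : Type}
    [TopologicalSpace T] {l : Filter T} {π : T → Pnt W} (hπ : Tendsto π l (𝓝[L] x)) {u : T → ℂ}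
    {u₀ : ℂ} (hu : Tendsto u l (𝓝 u₀)) (h0 : Q.eval₂ (valA x hx).hom.toRingHom u₀ = 0)
    (h1 : Q.derivative.eval₂ (valA x hx).hom.toRingHom u₀ ≠ 0)
    (h2 : ∀ᶠ t in l, ∀ hp : (π t).pt ∈ U, Q.eval₂ (valA _ hp).hom.toRingHom (u t) = 0) :
    ∃ ρ : (Fin r → ℂ) → ℂ, ContDiffAt ℂ 1 ρ (y x) ∧ ρ (y x) = u₀ ∧
      ∀ᶠ t in l, u t = ρ (y (π t)) := by
  obtain ⟨U', O, s, hc, hp, hq⟩ := h
  let Φ : (Fin r → ℂ) × ℂ → ℂ := fun v =>
    ∑ k ∈ Finset.range (Q.natDegree + 1), val U (Q.coeff k) (s v.1) * v.2 ^ k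
  have eΦ : ∀ p ∈ U' ∩ L, ∀ (hpU : p.pt ∈ U) ζ,
      Φ (y p, ζ) = Q.eval₂ (valA p hpU).hom.toRingHom ζ := fun p hp' hpU ζ => by
    rw [Polynomial.eval₂_eq_sum_range]
    refine Finset.sum_congr rfl fun k _ => ?_
    simp only [hc.li p hp', ← valA_apply p hpU]
    rfl
  have hΦ : ContDiffAt ℂ 1 Φ (y x, u₀) := ContDiffAt.sum fun k _ =>
    (((hq x hp).2 _ (rg_val (Q.coeff k) hx)).comp (y x, u₀) contDiffAt_fst).mul
      (contDiffAt_snd.pow k)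
  have hd : fderiv ℂ Φ (y x, u₀) (0, 1) ≠ 0 := by
    have d1 := (hΦ.differentiableAt one_ne_zero).hasFDerivAt.comp_hasDerivAt u₀
      ((hasDerivAt_const u₀ (y x)).prodMk (hasDerivAt_id u₀))
    have d2 := (Q.map (valA x hx).hom.toRingHom).hasDerivAt u₀
    have e : (Φ ∘ Prod.mk (y x)) =
        fun ζ => (Q.map (valA x hx).hom.toRingHom).eval ζ := funext fun ζ => by
      rw [Polynomial.eval_map]; exact eΦ x hp hx ζ
    rw [e] at d1
    rwa [d1.unique d2, Polynomial.derivative_map, Polynomial.eval_map]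
  obtain ⟨ρ, a, b, -, c⟩ := root_smooth ((hc.tendsto_y hp).comp hπ) hu hΦ
    ((eΦ x hp hx u₀).trans h0) hd (by
      filter_upwards [h2, hπ (hc.mem_nhdsWithin hp),
        hπ (mem_nhdsWithin_of_mem_nhds (Kc_mem_nhds hx))] with t e1 e2 e3
      exact (eΦ _ e2 e3 _).trans (e1 e3))
  exact ⟨ρ, a, b, c⟩

/-- a local left inverse -/
theorem cova_inv [Fintype κ] {u : (κ → ℂ) → κ → ℂ} {b : κ → ℂ} (hu : ContDiffAt ℂ 1 u b)
    (inj : Function.Injective (fderiv ℂ u b)) : ∃ v : (κ → ℂ) → κ → ℂ, ContDiffAt ℂ 1 v (u b) ∧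
      (∀ᶠ b' in 𝓝 b, v (u b') = b') ∧
      ∀ᶠ b' in 𝓝 b, ContDiffAt ℂ 1 u b' ∧ ContDiffAt ℂ 1 v (u b') ∧ ∀ᶠ c in 𝓝 b', v (u c) = c := by
  have sur : Function.Surjective (fderiv ℂ u b) :=
    (LinearMap.injective_iff_surjective (f := (fderiv ℂ u b).toLinearMap)).1 inj
  let L : (κ → ℂ) ≃L[ℂ] (κ → ℂ) := LinearEquiv.toContinuousLinearEquiv
    (LinearEquiv.ofBijective (fderiv ℂ u b).toLinearMap ⟨inj, sur⟩)
  have d : HasFDerivAt u (L : (κ → ℂ) →L[ℂ] κ → ℂ) b :=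
    (hu.differentiableAt one_ne_zero).hasFDerivAt
  let e := hu.toOpenPartialHomeomorph u d one_ne_zero
  have hi : ContDiffAt ℂ 1 e.symm (u b) := hu.to_localInverse d one_ne_zero
  have li : ∀ᶠ b' in 𝓝 b, e.symm (u b') = b' :=
    e.eventually_left_inverse (hu.mem_toOpenPartialHomeomorph_source d one_ne_zero)
  exact ⟨e.symm, hi, li, (hu.eventually (by simp)).and
    ((hu.continuousAt.eventually (hi.eventually (by simp))).and li.eventually_nhds)⟩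

variable [Fintype ι] [Fintype κ] {e : (ι → ℝ) ≃L[ℝ] κ → ℂ} {G : Type} [Group G]
  {σ : G → Tor ι → Tor ι} {Kt : Set (Tor ι × Pnt W)}

/-- the projection from the cover is open -/
theorem Cov.cova_open [Gd W] (h : Cov W e σ Kt) {w : W.left} {z : Tor ι × Pnt W}
    (hz : z ∈ ovr Kt w) : ∀ V ∈ 𝓝[ovr Kt w] z, Prod.snd '' V ∈ 𝓝[Kw w] z.2 := by
  intro V hV
  obtain ⟨V₀, oV, zV, hV⟩ := mem_nhdsWithin.1 hV
  have o1 : IsOpen (⋃ s : G, (fun q : Tor ι × Pnt W => (σ s q.1, q.2)) ⁻¹' V₀) :=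
    isOpen_iUnion fun s => oV.preimage (((h.cont s).comp continuous_fst).prodMk continuous_snd)
  have c1 := ((h.cpt.diff o1).image continuous_snd).isClosed
  refine mem_nhdsWithin.2 ⟨_, c1.isOpen_compl, ?_, fun x hx => ?_⟩
  · rintro ⟨q, hq, e1⟩
    obtain ⟨s, hs⟩ := (h.orb q.1 q.2 hq.1 z.1).1 (by rw [e1]; exact hz.1)
    exact hq.2 (mem_iUnion.2 ⟨s, by
      show (σ s q.1, q.2) ∈ V₀
      rw [← hs, e1]; exact zV⟩)
  · obtain ⟨n, hn⟩ := h.onto x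
    obtain ⟨s, hs⟩ := mem_iUnion.1 (not_not.1 fun a => hx.1 ⟨(n, x), ⟨hn, a⟩, rfl⟩)
    exact ⟨(σ s n, x), hV ⟨hs, (h.orb n x hn _).2 ⟨s, rfl⟩, hx.2⟩, rfl⟩

theorem Cov.cova_loc [Gd W] (h : Cov W e σ Kt) {w : W.left} {z₀ : Tor ι × Pnt W}
    (hz₀ : z₀ ∈ ovr Kt w) : ∃ N ∈ 𝓝 z₀, ∃ O : W.left.Opens, w ∈ O ∧ ∀ z ∈ ovr Kt w, z ∈ N →
      z.2.pt ∈ O → ∃ y : Pnt W → Fin (dm w) → ℂ,
        At (Rg W) (Kw w) z.2 y ∧ HolAt e (ovr Kt w) Prod.fst z (y ∘ Prod.snd) := by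
  classical
  have oq := (cova_oq (ι := ι)).prodMap (IsOpenQuotientMap.id (X := Pnt W))
  obtain ⟨⟨t₀, x₀⟩, rfl⟩ := oq.surjective z₀
  obtain ⟨u, hu, inj, hi⟩ := h.crd t₀ x₀ hz₀.1
  choose d a ha hrel using hi
  obtain ⟨U, hU, hx₀, b, hb⟩ := cova_sec (J := Σ i, Fin (d i)) (a := fun j => a j.1 j.2)
    fun j => ha j.1 j.2
  have hw : w ∈ U := Specializes.mem_open hz₀.2 U.2 hx₀
  obtain ⟨y, hy⟩ := exists_tb hU hw
  obtain ⟨h₀, h1, h2⟩ := gen_at hU hw hy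
  let Q : κ → Polynomial Γ(W.left, U) := fun i =>
    Polynomial.X ^ d i + ∑ k : Fin (d i), Polynomial.C (b ⟨i, k⟩) * Polynomial.X ^ (k : ℕ)
  have hQ : ∀ i, (Q i).Monic := fun i =>
    Polynomial.monic_X_pow_add (Polynomial.degree_sum_fin_lt _)
  choose g hg Q' hQ' using fun i => cova_sq (pri hU hw) (hQ i)
  obtain ⟨v, -, -, hv⟩ := cova_inv hu inj
  have c1 : Continuous fun s : (ι → ℝ) × Pnt W => e s.1 := e.continuous.comp continuous_fst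
  have hN := (((eventually_all.2 hrel).and (continuous_snd.continuousAt (x := (t₀, x₀))
    (hb.and (Kc_mem_nhds hx₀)))).eventually_nhds).and (c1.continuousAt (x := (t₀, x₀)) hv)
  obtain ⟨em, hem⟩ := exists_emb hU
  refine ⟨_, oq.isOpenMap.image_mem_nhds hN, W.left.basicOpen (h₀ * ∏ i, g i),
    (fnd_basic hU hw _).2 fun m => (Ideal.IsPrime.mem_or_mem inferInstance m).elim h1 fun m' => ?_,
    ?_⟩
  · obtain ⟨i, -, hi⟩ := (Ideal.IsPrime.prod_mem_iff (p := pri hU hw)).1 m'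
    exact hg i hi
  rintro _ hz ⟨⟨t₁, x⟩, ⟨n1, n2, n3, n4⟩, rfl⟩ hO
  have hx : x.pt ∈ U := W.left.basicOpen_le _ hO
  have hO' : valA x hx (h₀ * ∏ i, g i) ≠ 0 := by
    rw [valA_apply]; exact (mem_basicOpen_iff _).1 hO
  rw [map_mul, map_prod] at hO'
  have hAt := h2 x hz.2 hx (by rw [← valA_apply x hx]; exact left_ne_zero_of_mul hO')
  have vz : ∀ (p : Pnt W) (hp : p.pt ∈ U), p ∈ Kw w → valA p hp ∈ Vz (pri hU hw) :=
    fun p hp m => (hem.spec w hw _).1 (by rwa [hem.valA])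
  let l : Filter ((ι → ℝ) × Pnt W) := 𝓝[{s | (mkT s.1, s.2) ∈ ovr Kt w}] (t₁, x)
  have hπ : Tendsto Prod.snd l (𝓝[Kw w] x) :=
    continuous_snd.continuousWithinAt.tendsto_nhdsWithin fun s hs => hs.2
  have hul : Tendsto (fun s : (ι → ℝ) × Pnt W => u (e s.1)) l (𝓝 (u (e t₁))) :=
    (ContinuousAt.comp (f := fun s : (ι → ℝ) × Pnt W => e s.1) (x := (t₁, x)) n2.continuousAt
      c1.continuousAt).tendsto.mono_left nhdsWithin_le_nhds
  have eQ : ∀ᶠ s in 𝓝 (t₁, x), (mkT s.1, s.2) ∈ Kt → ∀ i (hp : s.2.pt ∈ U),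
      (Q i).eval₂ (valA _ hp).hom.toRingHom (u (e s.1) i) = 0 := by
    filter_upwards [n1] with s hs m i hp
    rw [← hs.1 i m]
    simp only [Q, Polynomial.eval₂_add, Polynomial.eval₂_X_pow, Polynomial.eval₂_finsetSum,
      Polynomial.eval₂_mul, Polynomial.eval₂_C]
    congr 1
    refine Finset.sum_congr rfl fun k _ => ?_
    rw [hs.2.1 ⟨i, k⟩, ← valA_apply _ hp]
    rfl
  have gx : ∀ i, valA x hx (g i) ≠ 0 := fun i =>
    Finset.prod_ne_zero_iff.1 (right_ne_zero_of_mul hO') i (Finset.mem_univ i)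
  have hρ := fun i => cova_root hx hAt (Q' i) hπ (tendsto_pi_nhds.1 hul i)
    (hQ' i _ (vz x hx hz.2) (gx i) _ (eQ.self_of_nhds hz.1 i hx)).1
    (hQ' i _ (vz x hx hz.2) (gx i) _ (eQ.self_of_nhds hz.1 i hx)).2 (by
      have e1 : ∀ᶠ p in 𝓝 x, val U (g i) p ≠ 0 := (continuousAt_val hx (g i)).eventually_ne
        (by rw [← valA_apply x hx]; exact gx i)
      filter_upwards [mem_nhdsWithin_of_mem_nhds eQ, self_mem_nhdsWithin,
        hπ (mem_nhdsWithin_of_mem_nhds e1)] with s s1 s2 s3 hp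
      exact (hQ' i _ (vz _ hp s2.2) (by rw [valA_apply]; exact s3) _ (s1 s2.1 i hp)).1)
  choose ρ r1 r2 r3 using hρ
  have hF : ContDiffAt ℂ 1 (v ∘ fun t i => ρ i t) fun i => val U (y i) x := by
    refine ContDiffAt.comp _ ?_ (contDiffAt_pi.2 r1)
    rwa [show (fun i => ρ i fun i => val U (y i) x) = u (e t₁) from funext r2]
  have key : ∀ᶠ q in 𝓝[ovr Kt w] (Prod.map mkT id (t₁, x)),
      q.1 = mkT (e.symm ((v ∘ fun t i => ρ i t) fun i => val U (y i) q.2)) := by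
    have k1 : ∀ᶠ s in l, mkT s.1 =
        mkT (e.symm ((v ∘ fun t i => ρ i t) fun i => val U (y i) s.2)) := by
      filter_upwards [eventually_all.2 r3,
        mem_nhdsWithin_of_mem_nhds (c1.continuousAt (x := (t₁, x)) n4)] with s s1 s2
      have : (fun i => ρ i fun i => val U (y i) s.2) = u (e s.1) := funext fun i => (s1 i).symm
      rw [Function.comp_apply, this, show v (u (e s.1)) = e s.1 from s2, e.symm_apply_apply]
    rw [eventually_nhdsWithin_iff] at k1 ⊢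
    rw [← oq.isOpenMap.map_nhds_eq oq.continuous.continuousAt, eventually_map]
    exact k1
  refine ⟨_, hAt, cova_cht (fun q hq => hq.2) hz hAt.cht
    (g := fun t => mkT (e.symm ((v ∘ fun t i => ρ i t) t))) ?_ key (h.cova_open hz), _, hF, key⟩
  filter_upwards [hF.eventually (by simp)] with t ht
  exact cova_oq.continuous.continuousAt.comp (e.symm.continuous.continuousAt.comp ht.continuousAt)

theorem cov_chart [Fintype G] [Gd W] (h : Cov W e σ Kt) (w : W.left) : ∃ D : Set W.left,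
    IsClosed D ∧
    (∀ x ∈ D, w ⤳ x) ∧ w ∉ D ∧ ∀ z ∈ ovr Kt w, z.2 ∉ Kc D → ∃ y : Pnt W → Fin (dm w) → ℂ,
      At (Rg W) (Kw w) z.2 y ∧ HolAt e (ovr Kt w) Prod.fst z (y ∘ Prod.snd) := by
  have hK : IsCompact (ovr Kt w) := h.cpt.inter_right ((isClosed_Kw w).preimage continuous_snd)
  choose N hN O hO hh using fun z : ovr Kt w => h.cova_loc z.2
  obtain ⟨s, hs⟩ := hK.elim_nhds_subcover' (fun z hz => N ⟨z, hz⟩) fun z hz => hN ⟨z, hz⟩
  refine ⟨closure {w} \ ⋂ z ∈ s, (O z : Set W.left),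
    isClosed_closure.sdiff (isOpen_biInter_finset fun z _ => (O z).2),
    fun x hx => specializes_iff_mem_closure.2 hx.1,
    fun m => m.2 (mem_iInter₂.2 fun z _ => hO z), fun z hz hD => ?_⟩
  obtain ⟨z', hz', m⟩ := mem_iUnion₂.1 (hs hz)
  exact hh z' z hz m (mem_iInter₂.1
    (not_not.1 fun a => hD ⟨specializes_iff_mem_closure.1 hz.2, a⟩) z' hz')

end Pool.Agent.Lib.MP_d3d358_ag.Cw
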