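import Pool.Agent.Lib.MP_d3d358_ag.Cw.SpB

/-! Integral functions over an affine variety have bounded general fibres. -/

set_option autoImplicit false

namespace Pool.Agent.Lib.MP_d3d358_ag.Cw

open Topology Set Filter

variable {A : Type} [CommRing A] [Algebra ℂ A] {r : ℕ}

theorem bdd_dep (hr : Algebra.trdeg ℂ A ≤ r) {C : Type} [CommRing C] [Algebra ℂ C] [Algebra A C]
    [IsScalarTower ℂ A C] {f : Fin (r + 1) → C} (hf : ∀ i, IsIntegral A (f i)) :
    ¬AlgebraicIndependent ℂ f := fun hI => by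
  let g : Fin (r + 1) → integralClosure A C := fun i => ⟨f i, hf i⟩
  have hg : AlgebraicIndependent ℂ g :=
    AlgebraicIndependent.of_comp ((integralClosure A C).val.restrictScalars ℂ) hI
  obtain ⟨p, hp, -, hd⟩ := Ideal.exists_le_prime_disjoint (⊥ : Ideal (integralClosure A C))
    ((nonZeroDivisors (MvPolynomial (Fin (r + 1)) ℂ)).map (MvPolynomial.aeval g)) (by
      rw [Set.disjoint_left]
      rintro x hx ⟨P, hP, rfl⟩
      exact nonZeroDivisors.ne_zero hP ((injective_iff_map_eq_zero _).1 hg P hx))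
  have h1 : AlgebraicIndependent ℂ (Ideal.Quotient.mkₐ ℂ p ∘ g) := by
    refine (injective_iff_map_eq_zero _).2 fun P hP => ?_
    by_contra h0
    refine Set.disjoint_left.1 hd ?_ ⟨P, mem_nonZeroDivisors_of_ne_zero h0, rfl⟩
    rw [Function.comp_def, ← MvPolynomial.comp_aeval, AlgHom.comp_apply] at hP
    exact Ideal.Quotient.eq_zero_iff_mem.1 hP
  have h2 := h1.cardinalMk_le_trdeg
  let S := (IsScalarTower.toAlgHom ℂ A (integralClosure A C ⧸ p)).range
  have i1 : Algebra.IsIntegral S (integralClosure A C ⧸ p) := ⟨fun x => by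
    obtain ⟨Q, hQ, e⟩ := Algebra.IsIntegral.isIntegral (R := A) x
    refine ⟨Q.map (IsScalarTower.toAlgHom ℂ A _).rangeRestrict.toRingHom, hQ.map _, ?_⟩
    rw [Polynomial.eval₂_map]
    exact e⟩
  have h3 := trdeg_add_eq ℂ S (A := integralClosure A C ⧸ p)
  rw [trdeg_eq_zero (R := S), add_zero] at h3
  have h4 := trdeg_le_of_surjective _
    (IsScalarTower.toAlgHom ℂ A (integralClosure A C ⧸ p)).rangeRestrict_surjective
  have h5 := h2.trans (h3.symm.le.trans (h4.trans hr))
  rw [Cardinal.mk_fin, Nat.cast_le] at h5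
  omega

theorem bdd_rel (hr : Algebra.trdeg ℂ A ≤ r) {T : Type} (π : T → Sp A) {u : Fin r → T → ℂ}
    (hu : ∀ i, Intg π (u i)) {w : T → ℂ} (hw : Intg π w) :
    ∃ F : Polynomial (MvPolynomial (Fin r) ℂ), F ≠ 0 ∧
      ∀ t, (F.map (MvPolynomial.eval fun i => u i t)).eval (w t) = 0 := by
  let _ : Algebra A (T → ℂ) := (RingHom.pi fun t => (π t).hom.toRingHom).toAlgebra
  have : IsScalarTower ℂ A (T → ℂ) :=
    .of_algebraMap_eq fun c => funext fun t => ((π t).hom.commutes c).symm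
  have hi : ∀ x : T → ℂ, Intg π x → IsIntegral A x := fun x ⟨Q, hQ, e⟩ => ⟨Q, hQ, funext fun t =>
    (Polynomial.hom_eval₂ Q _ (Pi.evalRingHom (fun _ => ℂ) t) x).trans (e t)⟩
  have h1 := bdd_dep hr (f := (Fin.cons w u : Fin (r + 1) → T → ℂ))
    (Fin.cases (hi w hw) fun i => hi _ (hu i))
  rw [algebraicIndependent_iff] at h1
  push Not at h1
  obtain ⟨P, h2, h3⟩ := h1
  refine ⟨MvPolynomial.finSuccEquiv ℂ r P, by simpa using h3, fun t => ?_⟩
  rw [← MvPolynomial.eval_eq_eval_mv_eval']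
  have h4 := congrArg (Pi.evalAlgHom ℂ (fun _ => ℂ) t) h2
  rw [map_zero, ← AlgHom.comp_apply, MvPolynomial.comp_aeval, MvPolynomial.aeval_eq_eval] at h4
  convert h4 using 3
  funext i
  refine Fin.cases rfl (fun _ => rfl) i

theorem bdd_fib [Algebra.FiniteType ℂ A] [IsDomain A] (hr : ringKrullDim A ≤ r) {T : Type}
    (π : T → Sp A) {m : ℕ} (v : Fin m → T → ℂ) (hv : ∀ j, Intg π (v j))
    (inj : ∀ t t', π t = π t' → (∀ j, v j t = v j t') → t = t') (u : Fin r → T → ℂ)
    (hu : ∀ i, Intg π (u i)) : ∃ (H : MvPolynomial (Fin r) ℂ) (D : ℕ), H ≠ 0 ∧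
      ∀ z, MvPolynomial.eval z H ≠ 0 → {t | ∀ i, u i t = z i}.encard ≤ D := by
  classical
  obtain ⟨n, y, hy, -⟩ := exists_noether (A := A)
  have h1 : Algebra.trdeg ℂ A ≤ r := by
    rw [dim_eq hy] at hr
    rw [← hy.cardinalMk_eq_trdeg, Cardinal.mk_fin, Nat.cast_le]
    exact_mod_cast hr
  obtain ⟨s, hs⟩ := Algebra.FiniteType.out (R := ℂ) (A := A)
  let w : s ⊕ Fin m → T → ℂ := Sum.elim (fun a t => π t a) v
  have hw : ∀ k, Intg π (w k) := by
    rintro (a | j)
    · exact ⟨Polynomial.X - Polynomial.C a.1, Polynomial.monic_X_sub_C _, fun t => by simp [w]⟩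
    · exact hv j
  choose F F0 hF using fun k => bdd_rel h1 π hu (hw k)
  refine ⟨∏ k, (F k).leadingCoeff, ∏ k, (F k).natDegree,
    Finset.prod_ne_zero_iff.2 fun k _ => Polynomial.leadingCoeff_ne_zero.2 (F0 k), fun z hz => ?_⟩
  rw [map_prod, Finset.prod_ne_zero_iff] at hz
  have h2 : Function.Injective fun t k => w k t := fun t t' e =>
    inj t t' (AlgHom.ext_of_adjoin_eq_top hs fun a ha => congrFun e (.inl ⟨a, ha⟩))
      fun j => congrFun e (.inr j)
  rw [← h2.encard_image]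
  refine (encard_le_encard (t := Fintype.piFinset fun k =>
    ((F k).map (MvPolynomial.eval z)).roots.toFinset) ?_).trans ?_
  · rintro _ ⟨t, ht, rfl⟩
    refine Fintype.mem_piFinset.2 fun k => Multiset.mem_toFinset.2 ((Polynomial.mem_roots
      fun h => hz k (Finset.mem_univ k) ?_).2 ?_)
    · rw [← Polynomial.coeff_natDegree, ← Polynomial.coeff_map, h, Polynomial.coeff_zero]
    · rw [← funext ht]
      exact hF k t
  · rw [encard_coe_eq_coe_finsetCard, Nat.cast_le, Fintype.card_piFinset]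
    exact Finset.prod_le_prod' fun k _ => (Multiset.toFinset_card_le _).trans
      ((Polynomial.card_roots' _).trans Polynomial.natDegree_map_le)

end Pool.Agent.Lib.MP_d3d358_ag.Cw
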