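import Pool.Agent.Lib.MP_d3d358_ag.Cw.HDef
import Pool.Agent.Lib.MP_d3d358_ag.Cw.Bdd
import Pool.Agent.Lib.MP_d3d358_ag.Cw.DmB

/-! Bounded fibres of holomorphic coordinates on a finite cover. -/

set_option autoImplicit false

namespace Pool.Agent.Lib.MP_d3d358_ag.Cw

open CategoryTheory AlgebraicGeometry MonoidalCategory Topology Set Filter AS

variable {ι κ : Type} [Fintype ι] [Fintype κ]

/-- a local section of `mkT` -/
theorem cvb_sec (n : Tor ι) : ∃ t : Tor ι → ι → ℝ,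
    ∀ᶠ n' in 𝓝 n, ContinuousAt t n' ∧ mkT (t n') = n' := by
  have key : ∀ i, ∃ s : UnitAddCircle → ℝ,
      ∀ᶠ c in 𝓝 (n i), ContinuousAt s c ∧ (s c : UnitAddCircle) = c := fun i => by
    obtain ⟨a, ha⟩ := QuotientAddGroup.mk_surjective (n i)
    obtain ⟨E, h1, h2⟩ := AddCircle.isLocalHomeomorph_coe (1 : ℝ) a
    have h3 : n i ∈ E.target := by
      rw [← ha]
      exact (congrFun h2 a).symm ▸ E.map_source h1
    refine ⟨E.symm, mem_of_superset (E.open_target.mem_nhds h3) fun c hc =>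
      ⟨E.continuousAt_symm hc, (congrFun h2 _).trans (E.right_inv hc)⟩⟩
  choose s hs using key
  refine ⟨fun n' i => s i (n' i), (eventually_all.2 fun i =>
    (continuous_apply i).continuousAt.eventually (hs i)).mono fun n' h => ⟨?_, ?_⟩⟩
  · exact continuousAt_pi.2 fun i => (h i).1.comp (f := fun n' : Tor ι => n' i)
      (continuous_apply i).continuousAt
  · exact funext fun i => (h i).2

theorem cvb_inj {u : (κ → ℂ) → κ → ℂ} {b : κ → ℂ} (hu : ContDiffAt ℂ 1 u b)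
    (hi : Function.Injective (fderiv ℂ u b)) : ∃ O ∈ 𝓝 b, InjOn u O := by
  let L : (κ → ℂ) ≃L[ℂ] κ → ℂ :=
    (LinearEquiv.ofInjectiveEndo (fderiv ℂ u b).toLinearMap hi).toContinuousLinearEquiv
  have hd : HasFDerivAt u (L : (κ → ℂ) →L[ℂ] κ → ℂ) b :=
    (hu.differentiableAt one_ne_zero).hasFDerivAt
  exact ⟨_, (hu.toOpenPartialHomeomorph u hd one_ne_zero).open_source.mem_nhds
    (hu.mem_toOpenPartialHomeomorph_source hd one_ne_zero),
    (hu.toOpenPartialHomeomorph u hd one_ne_zero).injOn⟩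

variable {W : Sch}

/-- finitely many regular functions are sections over one affine open set -/
theorem cvb_aff {J : Type} [Finite J] {x : Pnt W} {a : J → Pnt W → ℂ} (h : ∀ j, Rg W x (a j)) :
    ∃ (U : W.left.Opens) (_ : IsAffineOpen U) (s : J → Γ(W.left, U)), x.pt ∈ U ∧
      ∀ᶠ q in 𝓝 x, q.pt ∈ U ∧ ∀ j, a j q = val U (s j) q := by
  choose T s hT hs using h
  obtain ⟨U, hU, hx, hle⟩ := exists_affine_le (x := x.pt)
    (U' := ⟨⋂ j, (T j : Set W.left), isOpen_iInter_of_finite fun j => (T j).isOpen⟩)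
    (mem_iInter.2 hT)
  have le : ∀ j, U ≤ T j := fun j y hy => mem_iInter.1 (hle hy) j
  refine ⟨U, hU, fun j => W.left.presheaf.map (homOfLE (le j)).op (s j), hx,
    ((Kc_mem_nhds hx).and (eventually_all.2 hs)).mono fun q hq => ⟨hq.1, fun j => ?_⟩⟩
  rw [val_res (le j) (s j) hq.1]
  exact hq.2 j

variable {e : (ι → ℝ) ≃L[ℝ] κ → ℂ} {G : Type} [Group G] [Fintype G] {σ : G → Tor ι → Tor ι}
  {Kt : Set (Tor ι × Pnt W)}

omit [Fintype G] in
theorem cov_bdd [Gd W] (h : Cov W e σ Kt) (w : W.left) {z : Tor ι × Pnt W}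
    (hz : z ∈ ovr Kt w) : Bdd e (ovr Kt w) Prod.fst z (dm w) := by
  obtain ⟨n, x⟩ := z
  obtain ⟨t, ht⟩ := cvb_sec n
  obtain ⟨u, hu, hi, hp⟩ := h.crd (t n) x (ht.self_of_nhds.2.symm ▸ hz.1)
  choose d a ha hp using hp
  obtain ⟨U, hU, s, hx, hs⟩ := cvb_aff (J := Σ i, Fin (d i)) (a := fun j => a j.1 j.2)
    fun j => ha j.1 j.2
  obtain ⟨O, hO, inj⟩ := cvb_inj hu hi
  have hw : w ∈ U := Specializes.mem_open hz.2 U.isOpen hx
  have c1 : Tendsto (fun q : Tor ι × Pnt W => t q.1) (𝓝 (n, x)) (𝓝 (t n)) :=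
    ht.self_of_nhds.1.tendsto.comp continuousAt_fst
  have ev : ∀ᶠ q : Tor ι × Pnt W in 𝓝 (n, x), (ContinuousAt t q.1 ∧ mkT (t q.1) = q.1) ∧
      (q.2.pt ∈ U ∧ ∀ j : Σ i, Fin (d i), a j.1 j.2 q.2 = val U (s j) q.2) ∧ e (t q.1) ∈ O ∧
      ∀ i, (mkT (t q.1), q.2) ∈ Kt →
        u (e (t q.1)) i ^ d i + ∑ k, a i k q.2 * u (e (t q.1)) i ^ (k : ℕ) = 0 :=
    (continuousAt_fst.eventually ht).and ((continuousAt_snd.eventually hs).and
      (((e.continuous.tendsto _).comp c1).eventually (p := (· ∈ O)) hO |>.and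
        (eventually_all.2 fun i => (c1.prodMk_nhds continuousAt_snd).eventually (hp i))))
  obtain ⟨N, hN, hq⟩ := ev.exists_mem
  refine ⟨N, hN, fun q => t q.1, u, fun q hq' =>
    ((hq q hq'.1).1.1.comp continuousAt_fst).continuousWithinAt,
    fun q hq' => (hq q hq'.1).1.2.symm, hu, hi, fun I => ?_⟩
  have := ft_sec hU
  have vz : ∀ q : ↥(N ∩ ovr Kt w), valA q.1.2 (hq q.1 q.2.1).2.1.1 ∈ Vz (pri hU hw) := fun q =>
    ((emb_ofSp hU).spec w hw _).1 (by rw [ofSp_valA]; exact q.2.2.2)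
  let π : ↥(N ∩ ovr Kt w) → Sp (Γ(W.left, U) ⧸ pri hU hw) := fun q =>
    Ideal.Quotient.liftₐ (pri hU hw) (valA q.1.2 (hq q.1 q.2.1).2.1.1).hom (vz q)
  have hπ : ∀ q b, π q (Ideal.Quotient.mk _ b) = val U b q.1.2 := fun q b =>
    valA_apply q.1.2 (hq q.1 q.2.1).2.1.1 b
  have ig : ∀ i, Intg π fun q => u (e (t q.1.1)) i := fun i => by
    refine ⟨Polynomial.X ^ d i + ∑ k : Fin (d i),
      Polynomial.C (Ideal.Quotient.mk _ (s ⟨i, k⟩)) * Polynomial.X ^ (k : ℕ),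
      Polynomial.monic_X_pow_add (Polynomial.degree_sum_fin_lt _), fun q => ?_⟩
    obtain ⟨h1, h2, -, h4⟩ := hq q.1 q.2.1
    rw [← h4 i (h1.2.symm ▸ q.2.2.1), Polynomial.eval₂_add, Polynomial.eval₂_X_pow,
      Polynomial.eval₂_finsetSum]
    congr 1
    refine Finset.sum_congr rfl fun k _ => ?_
    rw [Polynomial.eval₂_mul, Polynomial.eval₂_X_pow, Polynomial.eval₂_C, h2.2 ⟨i, k⟩, ← hπ]
    rfl
  obtain ⟨H, D, h0, hD⟩ := bdd_fib (dm_eq hU hw).le π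
    (fun j q => u (e (t q.1.1)) ((Fintype.equivFin κ).symm j)) (fun j => ig _)
    (fun q q' e1 e2 => by
      obtain ⟨h1, h2, h3, -⟩ := hq q.1 q.2.1
      obtain ⟨h1', h2', h3', -⟩ := hq q'.1 q'.2.1
      have e3 : t q.1.1 = t q'.1.1 := e.injective (inj h3 h3' (funext fun i => by
        simpa using e2 (Fintype.equivFin κ i)))
      refine Subtype.ext (Prod.ext ?_ (Pnt.ext_val hU h2.1 h2'.1 fun b => ?_))
      · rw [← h1.2, e3, h1'.2]
      · rw [← hπ, ← hπ, e1])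
    (fun i q => u (e (t q.1.1)) (I i)) fun i => ig _
  refine ⟨H, D, h0, fun y hy => le_trans (le_of_eq ?_) (hD y hy)⟩
  rw [← Subtype.val_injective.encard_image]
  congr 1
  ext q
  exact ⟨fun hh => ⟨⟨q, hh.1⟩, hh.2, rfl⟩, by rintro ⟨q, hh, rfl⟩; exact ⟨q.2, hh⟩⟩

end Pool.Agent.Lib.MP_d3d358_ag.Cw
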