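import Pool.Agent.Lib.MP_d3d358_ag.Cw.CovA
import Pool.Agent.Lib.MP_d3d358_ag.Cw.At
import Pool.Agent.Lib.MP_d3d358_ag.Cw.DmB

/-! The Hausdorff dimension of the image in the torus of the part of a cover over a subvariety. -/

set_option autoImplicit false

namespace Pool.Agent.Lib.MP_d3d358_ag.Cw

open CategoryTheory Topology Set Filter AS

variable {ι κ : Type} [Fintype ι] [Fintype κ] {r : ℕ} {W : Sch} {e : (ι → ℝ) ≃L[ℝ] κ → ℂ}
  {G : Type} [Group G] [Fintype G] {σ : G → Tor ι → Tor ι} {Kt : Set (Tor ι × Pnt W)}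

theorem cvd_lip : LipschitzWith 1 (mkT : (ι → ℝ) → Tor ι) :=
  LipschitzWith.mk_one fun s t => (dist_pi_le_iff dist_nonneg).2 fun i => by
    refine le_trans ?_ (dist_le_pi_dist s t i)
    rw [dist_eq_norm, dist_eq_norm]
    exact QuotientAddGroup.norm_mk_le_norm (m := s i - t i)

theorem cvd_loc {Z : Type} [TopologicalSpace Z] {K : Set Z} {ν : Z → Tor ι} {p : Z}
    {y : Z → Fin r → ℂ} (h : HolAt e K ν p y) : ∃ N ∈ 𝓝[K] p, dimH (ν '' N) ≤ (r * 2 : ℕ) := by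
  obtain ⟨⟨U, O, s, hc, hp⟩, F, hF, h1⟩ := h
  obtain ⟨c, B, hB, hl⟩ := (e.symm.contDiff.contDiffAt.comp _
    (hF.restrict_scalars ℝ)).exists_lipschitzOnWith
  refine ⟨_, h1.and (hc.tendsto_y hp hB), le_trans (dimH_mono (t := mkT '' ((e.symm ∘ F) '' B)) ?_)
    ((cvd_lip.dimH_image_le _).trans (hl.dimH_image_le.trans ((dimH_mono (subset_univ _)).trans ?_)))⟩
  · rintro _ ⟨q, ⟨h2, h3⟩, rfl⟩
    exact ⟨_, ⟨_, h3, rfl⟩, h2.symm⟩
  · rw [(rl r).dimH_univ, Real.dimH_univ_pi_fin]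

theorem cov_dim [Gd W] (h : Cov W e σ Kt) (w : W.left) :
    dimH (Prod.fst '' ovr Kt w) ≤ (dm w * 2 : ℕ) := by
  induction hn : dm w using Nat.strong_induction_on generalizing w with
  | _ n ih =>
    subst hn
    obtain ⟨D, hD, h1, h2, h3⟩ := cov_chart h w
    obtain ⟨s, hs, hs'⟩ := exists_comp hD
    have h4 : ∀ z ∈ ovr Kt w \ Prod.snd ⁻¹' Kc D, ∃ N ∈ 𝓝[ovr Kt w \ Prod.snd ⁻¹' Kc D] z,
        dimH (Prod.fst '' N) ≤ (dm w * 2 : ℕ) := fun z hz => by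
      obtain ⟨y, -, hy⟩ := h3 z hz.1 hz.2
      obtain ⟨N, hN, h5⟩ := cvd_loc hy
      exact ⟨N, nhdsWithin_mono _ diff_subset hN, h5⟩
    choose! N hN hN' using h4
    obtain ⟨t, ht, tc, h5⟩ := TopologicalSpace.countable_cover_nhdsWithin hN
    refine le_trans (dimH_mono (t := (⋃ z ∈ t, Prod.fst '' N z) ∪
      ⋃ v ∈ (s : Set W.left), Prod.fst '' ovr Kt v) ?_) ?_
    · rintro _ ⟨z, hz, rfl⟩
      by_cases hd : z.2 ∈ Kc D
      · obtain ⟨v, hv, h6⟩ := (hs' _).1 hd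
        exact Or.inr (mem_biUnion hv ⟨z, ⟨hz.1, h6⟩, rfl⟩)
      · obtain ⟨q, hq, h6⟩ := mem_iUnion₂.1 (h5 ⟨hz, hd⟩)
        exact Or.inl (mem_biUnion hq ⟨z, h6, rfl⟩)
    · rw [dimH_union, dimH_bUnion tc, dimH_bUnion s.countable_toSet]
      refine max_le (iSup₂_le fun z hz => hN' z (ht hz)) (iSup₂_le fun v hv => ?_)
      have hv' := ((hs v).1 hv).1
      have h6 := dm_lt (h1 v hv') fun e => h2 (e ▸ hv')
      exact (ih _ h6 v rfl).trans (Nat.cast_le.2 (by omega))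

end Pool.Agent.Lib.MP_d3d358_ag.Cw
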