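import Pool.Agent.Lib.MP_d3d358_ag.Cw.LocA

/-! The class of a point is the sum of the classes of the points of a close fibre. -/

set_option autoImplicit false

namespace Pool.Agent.Lib.MP_d3d358_ag.Cw

open Topology Set Filter AS

variable {Z : Type} {r n : ℕ} [MetricSpace Z] {K : Set Z} {p : Z}

theorem loc_tele {ι : Type} (L : List ι) {a a' e : ι → Ch Z ℚ} (h : ∀ i, a i - a' i = dC (e i))
    (ha : ∀ i, dC (a i) = 0) (ha' : ∀ i, dC (a' i) = 0) :
    ∃ b, (L.map a).prod - (L.map a').prod = dC b ∧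
      ∀ V, ∀ i ∈ L, a i ∈ N V → a' i ∈ N V → e i ∈ N V → b ∈ N V := by
  induction L with
  | nil => exact ⟨0, by simp, fun _ _ h => by simp at h⟩
  | cons j L ih =>
    obtain ⟨b, e1, e2⟩ := ih
    refine ⟨e j * (L.map a).prod + sg (a' j) * b, ?_, fun V i hi h1 h2 h3 => ?_⟩
    · rw [map_add, dC_mul, dC_mul, loc_dC_prod L ha, dC_sg, ha', map_zero, neg_zero, zero_mul,
        mul_zero, add_zero, zero_add, sg_sg, ← h, ← e1, List.map_cons, List.map_cons,
        List.prod_cons, List.prod_cons, sub_mul, mul_sub, sub_add_sub_cancel]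
    · rcases List.mem_cons.1 hi with rfl | hi
      · exact add_mem (N_mul_right h3 _) (N_mul_right (N_sg h2) _)
      · exact add_mem (N_mul_left _ (pt_prod_N hi h1)) (N_mul_left _ (e2 V i hi h1 h2 h3))

/-- moving the level of the jumps -/
theorem loc_level (G : Z → Fin n → ℝ) (v z : Fin n → ℝ) :
    ∃ b, jr (fun u => G u - v) - jr (fun u => G u - z) = dC b ∧
      ∀ (K : Set Z) u, ContinuousWithinAt G K u → dist z v < dist (G u) v → b ∈ ptN (𝓝[K] u) := by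
  obtain ⟨b, e1, e2⟩ := loc_tele (List.finRange n) (a := fun i => jp fun x => (G x - v) i)
    (a' := fun i => jp fun x => (G x - z) i)
    (e := fun i => fnC ((fun x => if 0 ≤ (G x - v) i then 1 else 0) -
      fun x => if 0 ≤ (G x - z) i then 1 else 0))
    (fun i => by rw [Circle_fn_sub, map_sub]; rfl) (fun _ => dC_jp _) fun _ => dC_jp _
  refine ⟨b, by rw [loc_jr, loc_jr]; exact e1, fun K u hc hd => ?_⟩
  obtain ⟨i, hi⟩ : ∃ i, dist z v < dist (G u i) (v i) := by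
    by_contra hn
    exact hd.not_ge ((dist_pi_le_iff dist_nonneg).2 fun i => not_lt.1 fun h => hn ⟨i, h⟩)
  have hz := dist_le_pi_dist z v i
  have ci : ContinuousWithinAt (fun x => G x i) K u :=
    (continuous_apply i).continuousAt.comp_continuousWithinAt hc
  have key : ∀ (V : Set Z) (c : ℚ), (∀ x ∈ V, (if 0 ≤ (G x - v) i then (1 : ℚ) else 0) = c) →
      (∀ x ∈ V, (if 0 ≤ (G x - z) i then (1 : ℚ) else 0) = c) → b ∈ N V := fun V c h1 h2 =>
    e2 V i (List.mem_finRange i) (pt_const h1) (pt_const h2) (Null_of_zero fun l hl => by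
      rcases l with _ | ⟨x, _ | ⟨y, l⟩⟩
      · exact Alg_nil _
      · rw [Alg_fnC, Alg_fn_one, Pi.sub_apply, h1 x (hl x (by simp)), h2 x (hl x (by simp)),
          sub_self]
      · rw [Alg_fnC, Alg_fn_two])
  rw [Real.dist_eq, abs_le] at hz
  rw [Real.dist_eq, lt_abs] at hi
  rcases hi with hi | hi
  · refine ⟨_, ci.eventually_const_lt (show v i + dist z v < G u i by linarith),
      key _ 1 (fun x hx => if_pos ?_) fun x hx => if_pos ?_⟩ <;>
    · have : v i + dist z v < G x i := hx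
      rw [Pi.sub_apply]; linarith [hz.1, hz.2]
  · refine ⟨_, ci.eventually_lt_const (show G u i < v i - dist z v by linarith),
      key _ 0 (fun x hx => if_neg (not_le.2 ?_)) fun x hx => if_neg (not_le.2 ?_)⟩ <;>
    · have : G x i < v i - dist z v := hx
      rw [Pi.sub_apply]; linarith [hz.1, hz.2]

theorem level (hK : IsCompact K) {G : Z → Fin n → ℝ} {U : Set Z} (hU : U ∈ 𝓝 p)
    (hc : ContinuousOn G (U ∩ K)) (hi : ∀ q ∈ U ∩ K, G q = G p → q = p) :
    ∃ U₀ ∈ 𝓝 p, ∀ U', IsOpen U' → p ∈ U' → U' ⊆ U₀ → ∀ᶠ z in 𝓝 (G p), ∀ S : Finset Z,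
      (S : Set Z) = U' ∩ K ∩ G ⁻¹' {z} → ∀ (x : HT ℚ K) (xs : Z → HT ℚ K),
      Lc K p (jr fun u => G u - G p) x → (∀ q ∈ S, Lc K q (jr fun u => G u - G q) (xs q)) →
      x = ∑ q ∈ S, xs q := by
  obtain ⟨C, hC, cl, hs⟩ := exists_mem_nhds_isClosed_subset (interior_mem_nhds.2 hU)
  have cw : ∀ u ∈ C, u ∈ K → ContinuousWithinAt G K u := fun u h1 h2 =>
    (hc u ⟨interior_subset (hs h1), h2⟩).mono_of_mem_nhdsWithin
      (inter_mem (mem_nhdsWithin_of_mem_nhds (mem_interior_iff_mem_nhds.1 (hs h1)))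
        self_mem_nhdsWithin)
  refine ⟨C, hC, fun U' oU pU sU => ?_⟩
  have cp : IsCompact (G '' ((K ∩ C) \ U')) :=
    ((hK.inter_right cl).diff oU).image_of_continuousOn
      (hc.mono fun u hu => ⟨interior_subset (hs hu.1.2), hu.1.1⟩)
  obtain ⟨δ, hδ, far⟩ := Metric.isOpen_iff.1 cp.isClosed.isOpen_compl (G p) (by
    rintro ⟨q, hq, e⟩
    exact hq.2 (hi q ⟨interior_subset (hs hq.1.2), hq.1.1⟩ e ▸ pU))
  filter_upwards [Metric.ball_mem_nhds (G p) hδ] with z hz S hS x xs hx hxs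
  obtain ⟨b, e1, e2⟩ := loc_level G (G p) z
  obtain ⟨a, ⟨ha, rfl⟩, a1, a2⟩ := lc_iff.1 hx
  choose! w w1 w2 w3 using fun q hq => lc_iff.1 (hxs q hq)
  obtain ⟨hw, e⟩ := loc_sum S w1
  have mS : ∀ q, q ∈ S ↔ (q ∈ U' ∧ q ∈ K) ∧ G q = z := fun q => by
    rw [← Finset.mem_coe, hS]; rfl
  rw [e]
  refine (mk_eq_iff ha hw).2 ⟨ptCut U' b, Circle_local fun u hu => ?_⟩
  change _ ∈ ptN (𝓝[K] u)
  by_cases hU' : u ∈ U'
  · have c := cw u (sU hU') hu
    have h1 : a - jr (fun u => G u - G p) ∈ ptN (𝓝[K] u) := by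
      by_cases e : u = p
      · exact e ▸ a2
      · exact sub_mem (loc_off a1 e) (loc_jr_null (c.sub continuousWithinAt_const) fun e' =>
          e (hi u ⟨interior_subset (hs (sU hU')), hu⟩ (sub_eq_zero.1 e')))
    have h2 : ∑ q ∈ S, w q - jr (fun u => G u - z) ∈ ptN (𝓝[K] u) :=
      loc_near (fun q hq => ⟨w2 q hq, ((mS q).1 hq).2 ▸ w3 q hq⟩) fun e =>
        loc_jr_null (c.sub continuousWithinAt_const) fun e' =>
          e ((mS u).2 ⟨⟨hU', hu⟩, sub_eq_zero.1 e'⟩)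
    have h3 : dC (ptCut U' b - b) ∈ ptN (𝓝[K] u) :=
      loc_dC ⟨U', mem_nhdsWithin_of_mem_nhds (oU.mem_nhds hU'), pt_cut_in b⟩
    have := sub_mem (sub_mem h1 h2) h3
    rw [map_sub, ← e1] at this
    convert this using 1
    abel
  · refine sub_mem (sub_mem (loc_off a1 fun e => hU' (e ▸ pU)) (Submodule.sum_mem _ fun q hq =>
      loc_off (w2 q hq) fun e => hU' (e ▸ ((mS q).1 hq).1.1))) (loc_dC ?_)
    by_cases hC' : u ∈ C
    · obtain ⟨V, hV, e⟩ := e2 K u (cw u hC' hu) ((Metric.mem_ball.1 hz).trans_le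
        (not_lt.1 fun h => far (Metric.mem_ball.2 h) ⟨u, ⟨⟨hu, hC'⟩, hU'⟩, rfl⟩))
      exact ⟨V, hV, pt_cut_N e⟩
    · exact ⟨Cᶜ, mem_nhdsWithin_of_mem_nhds (cl.isOpen_compl.mem_nhds hC'),
        N_mono (compl_subset_compl.2 sU) (pt_cut_out b)⟩

theorem isPt_iff {y : Z → Fin r → ℂ} {x : HT ℚ K} :
    IsPt K p y x ↔ Lc K p (jr fun u => rl r (y u) - rl r (y p)) x := by
  rw [IsPt, jc_eq]
  simp only [map_sub]

theorem Cht.move (hK : IsCompact K) {y : Z → Fin r → ℂ} (h : Cht K p y) : ∀ᶠ q in 𝓝[K] p,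
    ∀ x x', IsPt K p y x → IsPt K q y x' → x = x' := by
  obtain ⟨U, O, s, c, hp⟩ := h
  have hU := c.oU.mem_nhds hp.1
  have inj : ∀ q ∈ U ∩ K, ∀ q' ∈ U ∩ K, rl r (y q) = rl r (y q') → q = q' := fun q hq q' hq' e => by
    rw [← c.li q hq, (rl r).injective e, c.li q' hq']
  have cG : ContinuousOn (fun u => rl r (y u)) (U ∩ K) := (rl r).continuous.comp_continuousOn c.cy
  obtain ⟨U₀, h0, H⟩ := level hK hU cG fun q hq => inj q hq p hp
  have o : IsOpen (interior U₀ ∩ U) := isOpen_interior.inter c.oU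
  have m : p ∈ interior U₀ ∩ U := ⟨mem_interior_iff_mem_nhds.2 h0, hp.1⟩
  have t : ContinuousWithinAt (fun u => rl r (y u)) K p := (cG p hp).mono_of_mem_nhdsWithin
    (inter_mem (mem_nhdsWithin_of_mem_nhds hU) self_mem_nhdsWithin)
  filter_upwards [t.eventually (H _ o m fun u hu => interior_subset hu.1),
    mem_nhdsWithin_of_mem_nhds (o.mem_nhds m), self_mem_nhdsWithin] with q h1 h2 h3 x x' hx hx'
  refine (h1 {q} ?_ x (fun _ => x') (isPt_iff.1 hx) fun q' hq' => ?_).trans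
    (Finset.sum_singleton _ _)
  · rw [Finset.coe_singleton]
    exact Subset.antisymm (singleton_subset_iff.2 ⟨⟨h2, h3⟩, rfl⟩) fun u hu =>
      inj u ⟨hu.1.1.2, hu.1.2⟩ q ⟨h2.2, h3⟩ hu.2
  · rw [Finset.mem_singleton.1 hq']
    exact isPt_iff.1 hx'

end Pool.Agent.Lib.MP_d3d358_ag.Cw
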