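import Pool.Agent.Lib.MP_d3d358_ag.Cw.AreaD
import Pool.Agent.Lib.MP_d3d358_ag.Cw.Deg
import Pool.Agent.Lib.MP_d3d358_ag.Cw.Mnr
import Pool.Agent.Lib.MP_d3d358_ag.Cw.Loc

/-! A map which is one to one over an open set has degree `± 1`. -/

set_option autoImplicit false

namespace Pool.Agent.Lib.MP_d3d358_ag.Cw

open CategoryTheory MonoidalCategory Topology Set Filter MeasureTheory AS

variable {ι κ Z : Type} [Fintype ι] [Fintype κ] {r : ℕ}

theorem dego_sard {N : ℕ} {A : Set (Fin N → ℝ)} {f : (Fin N → ℝ) → Fin N → ℝ}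
    (hf : ∀ x ∈ A, DifferentiableAt ℝ f x) :
    ∀ᵐ θ : Fin N → ℝ, ∀ x ∈ A, mkT (f x) = mkT θ → (fderiv ℝ f x).det ≠ 0 := by
  have h : ∀ m : Fin N → ℤ, ∀ᵐ θ : Fin N → ℝ,
      θ ∉ (fun x => f x + fun k => (m k : ℝ)) '' {x ∈ A | (fderiv ℝ f x).det = 0} := fun m =>
    measure_eq_zero_iff_ae_notMem.1 (addHaar_image_eq_zero_of_det_fderivWithin_eq_zero volume
      (f' := fderiv ℝ f) (fun x hx => ((hf x hx.1).hasFDerivAt.add_const _).hasFDerivWithinAt)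
      fun x hx => hx.2)
  filter_upwards [ae_all_iff.2 h] with θ hθ x hx e h0
  have : ∀ k, ∃ m : ℤ, f x k + m = θ k := fun k => by
    obtain ⟨m, hm⟩ := AddSubgroup.mem_zmultiples_iff.1 (QuotientAddGroup.eq.1 (congrFun e k))
    exact ⟨m, by rw [zsmul_eq_mul, mul_one] at hm; rw [hm]; ring⟩
  choose m hm using this
  exact hθ m ⟨x, ⟨hx, h0⟩, funext hm⟩

omit [Fintype ι] in
theorem dego_ex {N : ℕ} (J : Fin N ≃ ι) {O : Set (Tor ι)} (hO : IsOpen O) (hne : O.Nonempty)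
    {P : (Fin N → ℝ) → Prop} (h : ∀ᵐ θ, P θ) :
    ∃ n ∈ O, ∃ θ, P θ ∧ (fun k => n (J k)) = mkT θ := by
  have c : Continuous fun (θ : Fin N → ℝ) (i : ι) => mkT θ (J.symm i) :=
    continuous_pi fun i => (AddCircle.continuous_mk' 1).comp (continuous_apply _)
  obtain ⟨n, hn⟩ := hne
  choose t ht using fun k => QuotientAddGroup.mk_surjective (n (J k))
  obtain ⟨θ, h1, h2⟩ := Measure.exists_mem_of_measure_ne_zero_of_ae
    ((hO.preimage c).measure_ne_zero volume ⟨t, by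
      rwa [mem_preimage, show (fun i => mkT t (J.symm i)) = n from
        funext fun i => (ht _).trans (by rw [J.apply_symm_apply])]⟩) (ae_restrict_of_ae h)
  exact ⟨_, h1, θ, h2, funext fun k => congrArg (mkT θ) (J.symm_apply_apply k)⟩

section Area
variable [MetricSpace Z] {K B : Set Z} {ν : Z → Tor ι}

/-- `ν` is one to one over an open set: Sard in one chart gives a regular point near
`p`, `area_deg` there, `Cht.move` -/
theorem area_one (hK : IsCompact K) (hB : IsCompact B) (hν : ContinuousOn ν K)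
    (e : (ι → ℝ) ≃L[ℝ] κ → ℂ) (J : Fin (r * 2) ≃ ι) {O : Set (Tor ι)} (hO : IsOpen O)
    (hne : O.Nonempty) (h1 : ∀ n ∈ O, ∃! q, q ∈ K ∧ ν q = n) (Y : Z → Z → Fin r → ℂ)
    (hc : ∀ p ∈ K \ B, HolAt e K ν p (Y p)) (h0 : dimH (ν '' (K ∩ B)) < (r * 2 : ℕ)) :
    ∃ p ∈ K \ B, ν p ∈ O ∧
      ∀ x, IsPt K p (Y p) x → mono ν hν J = x ∨ mono ν hν J = -x := by
  have _ := hB
  obtain ⟨n, hn, θ₀, g1, g2⟩ := dego_ex J hO hne (null_dimH h0 J)
  obtain ⟨p, ⟨pK, rfl⟩, hp⟩ := h1 n hn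
  have pB : p ∉ B := fun h => g1 _ ⟨p, ⟨pK, h⟩, rfl⟩ g2
  refine ⟨p, ⟨pK, pB⟩, hn, fun x hx => ?_⟩
  obtain ⟨ch, F, hF, hνF⟩ := hc p ⟨pK, pB⟩
  have mv := ch.move hK
  obtain ⟨U, O', s, c, hU⟩ := ch
  have t : ContinuousWithinAt (Y p) K p := (c.cy p hU).mono_of_mem_nhdsWithin
    (inter_mem (mem_nhdsWithin_of_mem_nhds (c.oU.mem_nhds hU.1)) self_mem_nhdsWithin)
  obtain ⟨W, oW, pW, hW⟩ := mem_nhdsWithin.1 (((mv.and (t.eventually (hF.eventually (by simp)))).and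
    (eventually_eventually_nhdsWithin.2 hνF)).and
    (mem_nhdsWithin_of_mem_nhds (c.oU.mem_nhds hU.1)))
  have cl := ((hK.diff oW).image_of_continuousOn (hν.mono sdiff_subset)).isClosed
  obtain ⟨n, hn', θ, g3, g4⟩ := dego_ex J (hO.sdiff cl) ⟨ν p, hn, fun ⟨q, hq, e⟩ =>
      hq.2 (hp q ⟨hq.1, e⟩ ▸ pW)⟩
    (dego_sard (A := {a | ContDiffAt ℂ 1 F ((rl r).symm a)}) (f := fJ e F J)
      fun a ha => (fJ_smooth ha J).differentiableAt one_ne_zero)
  obtain ⟨q, ⟨qK, rfl⟩, hq⟩ := h1 n hn'.1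
  have qW : q ∈ W := by_contra fun h => hn'.2 ⟨q, ⟨qK, h⟩, rfl⟩
  obtain ⟨⟨⟨m1, m2⟩, m3⟩, m4⟩ := hW ⟨qW, qK⟩
  have cq : Cht K q (Y p) := ⟨U, O', s, c, m4, qK⟩
  obtain ⟨x', hx'⟩ := cq.exists_isPt
  have m2' : ContDiffAt ℂ 1 F ((rl r).symm (rl r (Y p q))) := by rwa [(rl r).symm_apply_apply]
  have nz := g3 _ m2' (by
    rw [← g4, m3.self_of_nhdsWithin qK]
    exact funext fun k => by simp only [mkT, fJ, ContinuousLinearEquiv.symm_apply_apply])
  rw [fJ_det m2', (rl r).symm_apply_apply] at nz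
  have := area_deg hK hν J (fun k => ν q (J k)) (S := {q}) (by
    rw [Finset.coe_singleton]
    exact Subset.antisymm (singleton_subset_iff.2 ⟨qK, fun _ => rfl⟩) fun u hu =>
      hq u ⟨hu.1, funext fun i => by simpa using hu.2 (J.symm i)⟩) (fun _ => Y p)
    (fun _ => e.symm ∘ F) (fun _ => x') fun u hu => by
      rw [Finset.mem_singleton.1 hu]
      exact ⟨cq, fJ_real m2, m3, hx', nz⟩
  rw [Finset.sum_singleton, ← m1 x x' hx hx'] at this
  rcases lt_or_gt_of_ne nz with h | h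
  · exact Or.inr (by rw [this, sign_neg h, Algebra.smul_def]; simp)
  · exact Or.inl (by rw [this, sign_pos h]; simp)

end Area

end Pool.Agent.Lib.MP_d3d358_ag.Cw
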