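import Pool.Agent.Lib.MP_d3d358_ag.Cw.LocA
import Pool.Agent.Lib.MP_d3d358_ag.AS.Transfer

/-! A functional on the quotient by a finite group lifts to the cover. -/

set_option autoImplicit false

namespace Pool.Agent.Lib.MP_d3d358_ag.Cw

open Topology Set Filter AS

variable {Z Z' : Type} {r : ℕ} [MetricSpace Z] [MetricSpace Z'] {K : Set Z} {K' : Set Z'}

/-- pull back of a localised class when the fibre is one point -/
theorem psi_lc {p : Z} {j : Ch Z ℚ} {u : HT ℚ K} (h : Lc K p j u) {f : Z' → Z}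
    (hf : ContinuousOn f K') (hm : MapsTo f K' K) {q : Z'} (hq : q ∈ K') (e : f q = p)
    (h1 : ∀ w ∈ K', f w = p → w = q) : Lc K' q (pullC f j) (pull f hf hm u) := by
  obtain ⟨a, ⟨ha, rfl⟩, h2, h3⟩ := lc_iff.1 h
  have hd : dC (pullC f a) ∈ N K' := by rw [dC_pullC]; exact N_pullC hf hm ha
  refine lc_iff.2 ⟨pullC f a, ⟨hd, pull_mk f hf hm ha hd⟩,
    N_pullC (hf.mono sdiff_subset)
      (fun w hw => mem_sdiff_of_mem (hm hw.1) fun e' => hw.2 (h1 w hw.1 e')) h2, ?_⟩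
  rw [← map_sub]
  exact loc_pull hf hm hq (e.symm ▸ h3)

/-- transfer for a right action -/
theorem psi_transfer {G : Type} [Group G] [Fintype G] (σ : G → Z' → Z') (h1 : ∀ x, σ 1 x = x)
    (h2 : ∀ s t x, σ s (σ t x) = σ (t * s) x) (hK' : IsCompact K')
    (hc : ∀ s, ContinuousOn (σ s) K') (hG : ∀ s, MapsTo (σ s) K' K') {f : Z' → Z}
    (hf : ContinuousOn f K') (hm : MapsTo f K' K) (hs : SurjOn f K' K)
    (hfib : ∀ x ∈ K', ∀ y ∈ K', f x = f y ↔ ∃ s, σ s x = y) :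
    (∀ k, ∀ u ∈ Hk (R := ℚ) K k, pull f hf hm u = 0 → u = 0) ∧
    ∀ k, ∀ y ∈ Hk (R := ℚ) K' k, (∀ s, pull _ (hc s) (hG s) y = y) →
      ∃ u ∈ Hk K k, pull f hf hm u = y := by
  let _ : Fintype Gᵐᵒᵖ := Fintype.ofEquiv _ MulOpposite.opEquiv
  let _ : MulAction Gᵐᵒᵖ Z' :=
    { smul g x := σ g.unop x
      one_smul := h1
      mul_smul := fun g g' x => (h2 _ _ x).symm }
  obtain ⟨a, b⟩ := transfer (R := ℚ) (G := Gᵐᵒᵖ) hK' (fun g => hc g.unop)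
    (fun g => hG g.unop) hf hm hs fun x hx y hy => (hfib x hx y hy).trans
      ⟨fun ⟨s, e⟩ => ⟨MulOpposite.op s, e⟩, fun ⟨s, e⟩ => ⟨s.unop, e⟩⟩
  exact ⟨a, fun k y hy h => b k y hy fun g => h g.unop⟩

theorem psi_ext {M M' : Type} [AddCommGroup M] [Module ℚ M] [AddCommGroup M'] [Module ℚ M']
    (P : Submodule ℚ M) (f : M →ₗ[ℚ] M') (h : ∀ u ∈ P, f u = 0 → u = 0) (φ : M →ₗ[ℚ] ℚ) :
    ∃ L : M' →ₗ[ℚ] ℚ, ∀ u ∈ P, L (f u) = φ u := by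
  obtain ⟨L, hL⟩ := LinearMap.exists_leftInverse_of_injective (f ∘ₗ P.subtype)
    (LinearMap.ker_eq_bot'.2 fun u e => Subtype.ext (h u.1 u.2 e))
  exact ⟨φ ∘ₗ P.subtype ∘ₗ L, fun u hu =>
    congrArg (fun v : P => φ v.1) (LinearMap.congr_fun hL ⟨u, hu⟩)⟩

theorem exists_psi {G : Type} [Group G]
    [Fintype G] (σ : G → Z' → Z') (h1 : ∀ x, σ 1 x = x) (h2 : ∀ s t x, σ s (σ t x) = σ (t * s) x)
    (hK' : IsCompact K') (hc : ∀ s, ContinuousOn (σ s) K') (hG : ∀ s, MapsTo (σ s) K' K')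
    {f : Z' → Z} (hf : ContinuousOn f K') (hm : MapsTo f K' K) (hs : SurjOn f K' K)
    (hfib : ∀ x ∈ K', ∀ y ∈ K', f x = f y ↔ ∃ s, σ s x = y) (φ : HT ℚ K →ₗ[ℚ] ℚ) :
    ∃ ψ : HT ℚ K' →ₗ[ℚ] ℚ, (∀ x ∈ Hk K (2 * (r : ℤ)), ψ (pull f hf hm x) = φ x) ∧
      ∀ z ∈ K', ∀ (y : Z → Fin r → ℂ) x x', IsPt K (f z) y x → IsPt K' z (y ∘ f) x' →
        ∀ S : Finset Z', (S : Set Z') = K' ∩ f ⁻¹' {f z} → S.card * ψ x' = φ x := by
  have hfg : ∀ s, ∀ x ∈ K', f (σ s x) = f x := fun s x hx =>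
    ((hfib x hx _ (hG s hx)).2 ⟨s, rfl⟩).symm
  obtain ⟨L, hL⟩ := @psi_ext (HT ℚ K) (HT ℚ K') _ Algebra.toModule _ Algebra.toModule
    (Hk (R := ℚ) K (2 * (r : ℤ))) (pull f hf hm).toLinearMap
    ((psi_transfer σ h1 h2 hK' hc hG hf hm hs hfib).1 _) φ
  obtain ⟨ψ, hψ⟩ : ∃ ψ : HT ℚ K' →ₗ[ℚ] ℚ, ∀ x, ψ x =
      (Fintype.card G : ℚ)⁻¹ * ∑ s, L (pull (σ s) (hc s) (hG s) x) :=
    ⟨(Fintype.card G : ℚ)⁻¹ • ∑ s, L ∘ₗ (pull (σ s) (hc s) (hG s)).toLinearMap, fun x => by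
      rw [LinearMap.smul_apply, LinearMap.sum_apply]; rfl⟩
  have a1 : ∀ x ∈ Hk K (2 * (r : ℤ)), ψ (pull f hf hm x) = φ x := fun x hx => by
    have e : ∀ s, L (pull (σ s) (hc s) (hG s) (pull f hf hm x)) = φ x := fun s =>
      (congrArg L ((pull_pull x).trans
        (pull_congr (hg := hf) (hn := hm) (fun w hw => hfg s w hw) x))).trans (hL x hx)
    rw [hψ, Finset.sum_congr rfl fun s _ => e s, Finset.sum_const, Finset.card_univ, nsmul_eq_mul,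
      inv_mul_cancel_left₀ (Nat.cast_ne_zero.2 Fintype.card_ne_zero)]
  have a2 : ∀ t x, ψ (pull (σ t) (hc t) (hG t) x) = ψ x := fun t x => by
    rw [hψ, hψ]
    exact congrArg _ (Fintype.sum_equiv (Equiv.mulRight t) _ _ fun s =>
      congrArg L ((pull_pull x).trans (pull_congr (fun w _ => h2 t s w) x)))
  refine ⟨ψ, a1, fun z hz y x x' hx hx' S hS => ?_⟩
  have key : ∀ q ∈ S, ∃ u, Lc K' q (pullC f (jc fun w => y w - y (f z))) u ∧ ψ u = ψ x' := by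
    intro q hq
    have hq' : q ∈ K' ∩ f ⁻¹' {f z} := hS ▸ Finset.mem_coe.2 hq
    obtain ⟨t, e⟩ := (hfib q hq'.1 z hz).1 hq'.2
    refine ⟨_, (psi_lc hx' (hc t) (hG t) hq'.1 e fun w _ e' => ?_).congr univ_mem ?_, a2 t x'⟩
    · rw [← h1 w, ← h1 q, ← mul_inv_cancel t, ← h2, ← h2, e, e']
    · have : (jc fun w => (y ∘ f) w - (y ∘ f) z) = pullC f (jc fun w => y w - y (f z)) := by
        rw [pullC_jc]; rfl
      rw [this, pullC_pullC, univ_inter]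
      exact pullC_congr (fun w hw => hfg t w hw) _
  choose! u u1 u2 using key
  rw [← a1 x hx.mem, Lc.pull hx hf hm hS u1, map_sum, Finset.sum_congr rfl u2, Finset.sum_const,
    nsmul_eq_mul]

end Pool.Agent.Lib.MP_d3d358_ag.Cw
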