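import Pool.Agent.Lib.MP_d3d358_ag.Cw.Fnd
import Pool.Agent.Lib.MP_d3d358_ag.Cw.CovA
import Pool.Agent.Lib.MP_d3d358_ag.Cw.CovB
import Pool.Agent.Lib.MP_d3d358_ag.Cw.CovD
import Pool.Agent.Lib.MP_d3d358_ag.Cw.CovP
import Pool.Agent.Lib.MP_d3d358_ag.Cw.Psi
import Pool.Agent.Lib.MP_d3d358_ag.Cw.Area
import Pool.Agent.Lib.MP_d3d358_ag.Cw.DegO

/-! Integrals of constant forms over cycles. -/

set_option autoImplicit false

namespace Pool.Agent.Lib.MP_d3d358_ag.Cw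

open CategoryTheory MonoidalCategory Topology Set Filter MeasureTheory AS

variable {ι κ : Type} [Fintype ι] [Fintype κ] {r : ℕ} {W : Sch} {e : (ι → ℝ) ≃L[ℝ] κ → ℂ}
  {G : Type} [Group G] [Fintype G] {σ : G → Tor ι → Tor ι} {Kt : Set (Tor ι × Pnt W)}

omit [Fintype G] [Fintype ι] in
theorem hdg_cpt (h : Cov W e σ Kt) (w : W.left) : IsCompact (ovr Kt w) :=
  h.cpt.inter_right ((isClosed_Kw w).preimage continuous_snd)

theorem hdg_dim [Gd W] (h : Cov W e σ Kt) {w : W.left} (hw : 0 < dm w) {D : Set W.left}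
    (hD : IsClosed D) (h1 : ∀ x ∈ D, w ⤳ x) (h2 : w ∉ D) :
    dimH (Prod.fst '' (ovr Kt w ∩ (ovr Kt w ∩ Prod.snd ⁻¹' Kc D))) < (dm w * 2 : ℕ) := by
  obtain ⟨s, hs, hs'⟩ := exists_comp hD
  have e1 : Prod.fst '' (ovr Kt w ∩ (ovr Kt w ∩ Prod.snd ⁻¹' Kc D)) ⊆
      ⋃ z ∈ (s : Set W.left), Prod.fst '' ovr Kt z := by
    rintro _ ⟨q, ⟨hq, -, hq'⟩, rfl⟩
    obtain ⟨z, hz, hz'⟩ := (hs' _).1 hq'
    exact mem_biUnion hz ⟨q, ⟨hq.1, hz'⟩, rfl⟩
  refine ((dimH_mono e1).trans ?_).trans_lt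
    (Nat.cast_lt.2 (show (dm w - 1) * 2 < dm w * 2 by omega))
  rw [dimH_bUnion s.countable_toSet]
  refine iSup₂_le fun z hz => (cov_dim h z).trans (Nat.cast_le.2 ?_)
  have hz' := ((hs z).1 hz).1
  have := dm_lt (h1 z hz') fun e => h2 (e ▸ hz')
  omega

/-- integration on the part of the cover over the closure of `w` -/
theorem hdg_data [Gd W] (h : Cov W e σ Kt) {w : W.left} (hw : 0 < dm w) :
    ∃ (ψ : HT ℚ (ovr Kt w) →ₗ[ℚ] ℚ) (B : Set (Tor ι × Pnt W)), IsCompact B ∧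
      dimH (Prod.fst '' (ovr Kt w ∩ B)) < (dm w * 2 : ℕ) ∧
      (∀ x ∈ Hd W (2 * (dm w : ℤ)), ∀ ω, jK Kt x = bK Kt ω →
        Phi w x = ψ (lm Prod.fst continuous_fst.continuousOn ω)) ∧
      ∀ p ∈ ovr Kt w \ B, ∃ y : Tor ι × Pnt W → Fin (dm w) → ℂ,
        HolAt e (ovr Kt w) Prod.fst p y ∧ ∀ x, IsPt (ovr Kt w) p y x →
          ((range fun s => (σ s p.1, p.2)).ncard : ℚ) * ψ x = 1 := by
  classical
  have mp : MapsTo Prod.snd (ovr Kt w) (Kw w) := fun _ hq => hq.2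
  obtain ⟨ψ, p1, p2⟩ := exists_psi (r := dm w) (K := Kw w) (K' := ovr Kt w)
    (fun (s : G) (z : Tor ι × Pnt W) => (σ s z.1, z.2)) (fun z => by rw [h.one])
    (fun s t z => by simp only [h.mul]) (hdg_cpt h w)
    (fun s => (((h.cont s).comp continuous_fst).prodMk continuous_snd).continuousOn)
    (fun s z hz => ⟨(h.orb z.1 z.2 hz.1 _).2 ⟨s, rfl⟩, hz.2⟩) continuous_snd.continuousOn mp
    (fun x hx => by
      obtain ⟨n, hn⟩ := h.onto x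
      exact ⟨(n, x), ⟨hn, hx⟩, rfl⟩)
    (fun x hx y hy => ⟨fun e => by
      obtain ⟨s, hs⟩ := (h.orb x.1 x.2 hx.1 y.1).1 (by rw [e]; exact hy.1)
      exact ⟨s, Prod.ext hs.symm e⟩, fun ⟨s, hs⟩ => by rw [← hs]⟩) (phi w)
  obtain ⟨D, d1, d2, d3, d4⟩ := cov_chart h w
  refine ⟨ψ, ovr Kt w ∩ Prod.snd ⁻¹' Kc D,
    (hdg_cpt h w).inter_right ((isClosed_Kc d1).preimage continuous_snd), hdg_dim h hw d1 d2 d3,
    fun x hx ω e1 => ?_, fun p hp => ?_⟩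
  · have hx' : res (subset_univ (Kw w)) x ∈ Hk (Kw w) (2 * (dm w : ℤ)) := pull_mem hx
    have e2 : pull Prod.snd continuous_snd.continuousOn mp (res (subset_univ (Kw w)) x) =
        res (inter_subset_left : ovr Kt w ⊆ Kt) (jK Kt x) :=
      (pull_pull (f := id) x).trans (pull_pull (g := id) x).symm
    have e3 : res (inter_subset_left : ovr Kt w ⊆ Kt) (bK Kt ω) =
        lm Prod.fst continuous_fst.continuousOn ω := pull_lam _ _ _ _ ω
    have e4 : ψ (pull Prod.snd continuous_snd.continuousOn mp (res (subset_univ (Kw w)) x)) =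
        phi w (res (subset_univ (Kw w)) x) := p1 _ hx'
    rw [e2, e1, e3] at e4
    exact e4.symm
  · obtain ⟨y, hy, hy'⟩ := d4 p hp.1 fun hD => hp.2 ⟨hp.1, hD⟩
    refine ⟨_, hy', fun x' hx' => ?_⟩
    obtain ⟨x, hx⟩ := hy.cht.exists_isPt
    rw [← image_univ, ← Finset.coe_univ, ← Finset.coe_image, ncard_coe_finset]
    refine (p2 p hp.1 y x x' hx hx' _ ?_).trans ((fund w).val _ y x hy hx)
    ext q
    simp only [Finset.coe_image, Finset.coe_univ, image_univ, mem_range, mem_inter_iff,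
      mem_preimage, mem_singleton_iff]
    constructor
    · rintro ⟨s, rfl⟩
      exact ⟨⟨(h.orb p.1 p.2 hp.1.1 _).2 ⟨s, rfl⟩, hp.1.2⟩, rfl⟩
    · rintro ⟨hq, e⟩
      obtain ⟨s, hs⟩ := (h.orb p.1 p.2 hp.1.1 q.1).1 (by rw [← e]; exact hq.1)
      exact ⟨s, Prod.ext hs.symm e.symm⟩

theorem hdg_abs {n : ℕ} {a : ℚ} (h : n * a = 1) : |a| ≤ 1 := by
  have h0 : n ≠ 0 := by rintro rfl; simp at h
  have h1 : (1 : ℚ) ≤ n := Nat.one_le_cast.2 (Nat.pos_of_ne_zero h0)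
  have h2 : (n : ℚ) * |a| = 1 := by rw [← abs_of_nonneg (n.cast_nonneg (α := ℚ)), ← abs_mul, h, abs_one]
  nlinarith [abs_nonneg a]

theorem hdg_pt [Gd W] (h : Cov W e σ Kt) (hr : 0 < r) {I : Type} [Fintype I] (c : I → ℂ)
    {x : I → HW W} {ω : I → ExteriorAlgebra ℚ (ι → ℚ)} (hx : ∀ i, x i ∈ Hd W (2 * (r : ℤ)))
    (hω : ∀ i, ω i ∈ ⋀[ℚ]^(r * 2) (ι → ℚ)) (e1 : ∀ i, jK Kt (x i) = bK Kt (ω i))
    (h0 : ∀ M, CLin r e M → ∑ i, c i • pbM M (ω i) = 0) (w : W.left) :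
    ∑ i, c i * (Phi w (x i) : ℂ) = 0 := by
  classical
  by_cases hw : dm w = r
  swap
  · refine Finset.sum_eq_zero fun i _ => ?_
    rw [Phi_deg w (by omega) (hx i), Rat.cast_zero, mul_zero]
  subst hw
  obtain ⟨ψ, B, b1, b2, b3, b4⟩ := hdg_data h hr
  obtain ⟨a, a1, a2⟩ := of_minors ω hω
  have key := area (hdg_cpt h w) b1 continuous_fst.continuousOn e ψ
    (fun p hp => (b4 p hp).imp fun y hy => ⟨hy.1, fun x hx => hdg_abs (hy.2 x hx)⟩) b2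
    (fun p hp => cov_bdd h w hp) (fun J => ∑ i, c i * a i J) fun M hM => a2 c M (h0 M hM)
  rw [← key]
  simp only [Finset.sum_mul]
  rw [Finset.sum_comm]
  refine Finset.sum_congr rfl fun i _ => ?_
  rw [b3 _ (hx i) _ (e1 i), a1 i]
  simp only [map_sum, map_smul, lm_mono, smul_eq_mul, Rat.cast_sum, Rat.cast_mul, Finset.mul_sum,
    mul_assoc]

theorem hodge [Gd W] (h : Cov W e σ Kt) (hr : 0 < r) {I : Type} [Fintype I] (c : I → ℂ)
    {x : I → HW W} {ω : I → ExteriorAlgebra ℚ (ι → ℚ)} (hx : ∀ i, x i ∈ Hd W (2 * (r : ℤ)))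
    (hω : ∀ i, ω i ∈ ⋀[ℚ]^(r * 2) (ι → ℚ)) (e1 : ∀ i, jK Kt (x i) = bK Kt (ω i))
    (h0 : ∀ M, CLin r e M → ∑ i, c i • pbM M (ω i) = 0) (Γ : Cyc W.left) :
    ∑ i, c i * (ev Γ (x i) : ℂ) = 0 := by
  have e2 : ∀ i, ev Γ (x i) = ∑ w ∈ (supp_fin Γ).toFinset, Γ w * Phi w (x i) := fun i => by
    rw [ev_apply]
    exact finsum_eq_sum_of_support_subset _ fun w hw =>
      (supp_fin Γ).mem_toFinset.2 (left_ne_zero_of_mul hw)
  simp only [e2, Rat.cast_sum, Rat.cast_mul, Finset.mul_sum]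
  rw [Finset.sum_comm]
  refine Finset.sum_eq_zero fun w _ => ?_
  have := congrArg ((Γ w : ℂ) * ·) (hdg_pt h hr c hx hω e1 h0 w)
  simp only [Finset.mul_sum, mul_zero] at this
  simpa only [mul_left_comm] using this

theorem hodge_top [DecidableEq ι] [Gd W] (h : Cov W e σ Kt) (hW : Mf W r) (J : Fin (r * 2) ≃ ι)
    {O : Set (Tor ι)} (hO : IsOpen O) (hne : O.Nonempty)
    (h1 : ∀ n ∈ O, (∃! x, (n, x) ∈ Kt) ∧ ∀ s, σ s n = n → s = 1) {a : HW W}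
    (ha : a ∈ Hd W (2 * (r : ℤ)))
    (e1 : jK Kt a = bK Kt (ExteriorAlgebra.ιMulti ℚ (r * 2) fun k => Pi.single (J k) 1)) :
    |tp W a| * Fintype.card G = 1 := by
  have := hW.int
  have hη : ∀ x, genericPoint W.left ⤳ x := fun x => genericPoint_specializes x
  have hr := hW.pos
  rw [tp_eq hη]
  obtain rfl := hW.dm hη
  obtain ⟨ψ, B, b1, b2, b3, b4⟩ := hdg_data h hr
  choose! Y y1 y2 using b4
  obtain ⟨p, hp, hpO, hx⟩ := area_one (hdg_cpt h _) b1 continuous_fst.continuousOn e J hO hne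
    (fun n hn => by
      obtain ⟨x, hx, hx'⟩ := (h1 n hn).1
      refine ⟨(n, x), ⟨⟨hx, hη _⟩, rfl⟩, ?_⟩
      rintro ⟨_, x'⟩ ⟨hq, rfl⟩
      exact Prod.ext rfl (hx' x' hq.1)) Y y1 b2
  obtain ⟨x, hx'⟩ := (y1 p hp).1.exists_isPt
  have e2 := y2 p hp x hx'
  rw [← image_univ, ncard_image_of_injective, ncard_univ, Nat.card_eq_fintype_card] at e2
  · have e3 : |ψ x| * Fintype.card G = 1 := by
      rw [← abs_of_nonneg ((Fintype.card G).cast_nonneg (α := ℚ)), ← abs_mul, mul_comm, e2, abs_one]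
    rw [b3 a ha _ e1, lm_mono]
    rcases hx x hx' with e4 | e4 <;> rw [e4]
    · exact e3
    · rw [map_neg, abs_neg]; exact e3
  · intro s t hst
    have e4 := congrArg (σ t⁻¹) (Prod.mk.inj hst).1
    rw [h.mul, h.mul, mul_inv_cancel, h.one] at e4
    exact mul_inv_eq_one.1 ((h1 _ hpO).2 _ e4)

end Pool.Agent.Lib.MP_d3d358_ag.Cw
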