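import Pool.Agent.Lib.MP_d3d358_ag.Cw.HDef
import Pool.Agent.Lib.MP_d3d358_ag.Orb.Chk

/-! Two computations in exterior algebras. -/

set_option autoImplicit false

namespace Pool.Agent.Lib.MP_d3d358_ag.Cw

open AS ExteriorAlgebra Orb

variable {Q : Matrix (Fin 2) (Fin 4) ℂ}

/-- `tl (e_i ∧ e_j)` -/
noncomputable abbrev t2 (i j : Fin 4) : EN :=
  tl (ExteriorAlgebra.ι ℚ (Pi.single i 1) * ExteriorAlgebra.ι ℚ (Pi.single j 1))
/-- `push (e_i ∧ e_j)` -/
noncomputable abbrev q2 (i j : Fin 4) : EN :=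
  push (ExteriorAlgebra.ι ℚ (Pi.single i 1) * ExteriorAlgebra.ι ℚ (Pi.single j 1))

theorem kalg_mon (i j : Fin 4) : ExteriorAlgebra.ι ℚ (Pi.single i 1 : Orb.V) *
    ExteriorAlgebra.ι ℚ (Pi.single j 1) = mon eA [i.val, j.val] := by
  simp [mon, eA_single]

theorem kalg_act_tl (s : Equiv.Perm (Fin 3)) (x : EA) : act s (tl x) = tl x := by
  rw [tl_apply]; exact mem_R.1 (til x).2 s

theorem kalg_act_top (s : Equiv.Perm (Fin 3)) : act s (mon eN FN) = mon eN FN := by
  have h := act_push s vol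
  rw [push_vol, map_smul] at h
  exact smul_right_injective _ (by norm_num : (3 : ℚ) ≠ 0) h

/-- the product of `t2 a b` with one term of `q2 l k` -/
def kalgP (a b l k : Fin 4) : Pol :=
  pm (col (tilP [(1, [a.val, b.val])])) (pm (subL (pa 0) [l.val, k.val]) (subL (pd 0 1) FA))

theorem kalg_chk : ∀ a b l k : Fin 4,
    (okF FN (kalgP a b l k) && cf (kalgP a b l k) == 6 * Orb.sg a b l k) = true := by
  decide +kernel

theorem alg_tq (a b l k : Fin 4) : t2 a b * q2 l k = (18 * sg a b l k : ℚ) • mon eN FN := by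
  have h1 : lt4 [(1, [a.val, b.val])] = true := by simp [lt4]
  have e : t2 a b * (map (p 0) (mon eA [l.val, k.val]) * map (p 0 - p 1) vol) =
      ((6 * Orb.sg a b l k : ℤ) : ℚ) • mon eN FN := by
    rw [t2, kalg_mon, ← ev_one, tl_apply, til_ev _ h1, ← ev_col, vol_eq,
      map_mon _ _ (pa_ok 0) _ (by simp), map_mon _ _ (pd_ok 0 1) _ (by decide), ← ev_pm, ← ev_pm]
    exact ev_chk eN FN _ _ (kalg_chk a b l k)
  have e' : ∀ s, t2 a b * act s (map (p 0) (mon eA [l.val, k.val]) * map (p 0 - p 1) vol) =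
      ((6 * Orb.sg a b l k : ℤ) : ℚ) • mon eN FN := fun s => by
    rw [← kalg_act_top s, ← map_smul, ← e, map_mul (act s) (t2 a b), kalg_act_tl]
  rw [q2, kalg_mon l k, push, mul_smul_comm, Finset.mul_sum]
  simp only [e', Finset.sum_const, Finset.card_univ, Fintype.card_perm, Fintype.card_fin]
  rw [← Nat.cast_smul_eq_nsmul ℚ, smul_smul, smul_smul]
  congr 1
  norm_num [Nat.factorial]
  ring

theorem kalg_row (r : Fin 4 → ℂ) : ∃ t : Fin 4 → ℝ, t ≠ 0 ∧ r ⬝ᵥ (fun i => (t i : ℂ)) = 0 := by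
  let L : (Fin 4 → ℝ) →ₗ[ℝ] ℂ :=
    { toFun := fun t => r ⬝ᵥ fun i => (t i : ℂ)
      map_add' := fun s t => by simp [dotProduct, mul_add, Finset.sum_add_distrib]
      map_smul' := fun c t => by simp [dotProduct, Finset.mul_sum, mul_left_comm] }
  obtain ⟨t, ht, h0⟩ := Submodule.exists_mem_ne_zero_of_ne_bot
    (LinearMap.ker_ne_bot_of_finrank_lt (f := L) (by simp))
  exact ⟨t, h0, ht⟩

/-- the two rows of a period matrix are independent -/
theorem kalg_minor (hQ : ∀ t, cx Q t = 0 → t = 0) :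
    ∃ a b, Q 0 a * Q 1 b - Q 0 b * Q 1 a ≠ 0 := by
  by_contra! h
  by_cases h0 : ∃ a, Q 0 a ≠ 0
  · obtain ⟨a, ha⟩ := h0
    obtain ⟨t, ht, e⟩ := kalg_row (Q 0)
    refine ht (hQ t (funext fun c => ?_))
    fin_cases c
    · exact e
    · refine mul_left_cancel₀ ha ?_
      simp only [dotProduct, Fin.sum_univ_four] at e
      simp only [cx, Matrix.mulVec, dotProduct, Fin.sum_univ_four, Fin.mk_one, Pi.zero_apply]
      linear_combination Q 1 a * e + t 0 * h a 0 + t 1 * h a 1 + t 2 * h a 2 + t 3 * h a 3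
  · push Not at h0
    obtain ⟨t, ht, e⟩ := kalg_row (Q 1)
    refine ht (hQ t (funext fun c => ?_))
    fin_cases c
    · simp [cx, Matrix.mulVec, dotProduct, h0]
    · exact e

theorem kalg_cyc {Γ : Fin 4 → Fin 4 → ℂ} {x : Fin 4 → ℂ}
    (h : ∀ k, ∑ a, ∑ b, ∑ l, Γ a b * x l * (Orb.sg a b l k : ℂ) = 0) (i j m : Fin 4) :
    (Γ i j - Γ j i) * x m - (Γ i m - Γ m i) * x j + (Γ j m - Γ m j) * x i = 0 := by
  have e0 := h 0
  have e1 := h 1
  have e2 := h 2
  have e3 := h 3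
  simp [Fin.sum_univ_four, Orb.sg, nf, ins] at e0 e1 e2 e3
  fin_cases i <;> fin_cases j <;> fin_cases m <;>
    simp only [Fin.zero_eta, Fin.mk_one, Fin.reduceFinMk] <;>
    first
      | ring1
      | linear_combination e0
      | linear_combination -e0
      | linear_combination e1
      | linear_combination -e1
      | linear_combination e2
      | linear_combination -e2
      | linear_combination e3
      | linear_combination -e3

theorem alg_line (hQ : ∀ t, cx Q t = 0 → t = 0) {Γ : Fin 4 → Fin 4 → ℂ}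
    (h : ∀ c k, ∑ a, ∑ b, ∑ l, Γ a b * Q c l * (sg a b l k : ℂ) = 0) :
    ∃ t : ℂ, ∀ a b, Γ a b - Γ b a = t * (Q 0 a * Q 1 b - Q 0 b * Q 1 a) := by
  obtain ⟨c, d, hcd⟩ := kalg_minor hQ
  refine ⟨(Γ c d - Γ d c) / (Q 0 c * Q 1 d - Q 0 d * Q 1 c), fun a b => ?_⟩
  have x := kalg_cyc (h 0)
  have y := kalg_cyc (h 1)
  rw [div_mul_eq_mul_div, eq_div_iff hcd]
  linear_combination (1 / 2) * ((x a b c * Q 1 d - y a b c * Q 0 d)
    - (x a c d * Q 1 b - y a c d * Q 0 b) - (x a b d * Q 1 c - y a b d * Q 0 c)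
    + (x b c d * Q 1 a - y b c d * Q 0 a))

end Pool.Agent.Lib.MP_d3d358_ag.Cw
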