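import Pool.Agent.Lib.MP_d3d358_ag.AS.Bound

/-! Degree six classes of the exceptional divisor of the generalized Kummer fourfold. -/

set_option autoImplicit false

namespace Pool.Agent.Lib.MP_d3d358_ag.Cw

open Topology Set AS

section
variable {Z B : Type} [MetricSpace Z] [MetricSpace B] {E : Set Z} {f : Z → B} {η : Ch Z ℚ}

omit [MetricSpace Z] [MetricSpace B] in
theorem six_maps (A : Set B) : MapsTo f (E ∩ f ⁻¹' A) A := fun _ h => h.2

theorem six_res_pull (hf : ContinuousOn f E) {F : Set Z} (h : F ⊆ E) {K : Set B}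
    (hm : MapsTo f F K) (z : HT ℚ (univ : Set B)) :
    res h (pull f hf (mapsTo_univ _ _) z) = pull f (hf.mono h) hm (res (subset_univ K) z) :=
  (pull_pull (f := f) (g := id) z).trans (pull_pull (f := id) (g := f) z).symm

/-- a class that dies over `K` and over `L` is a connecting class; if the classes over `K ∩ L` are
multiples of `η`, so is the connecting class -/
theorem six_mv (hE : IsCompact E) (hf : ContinuousOn f E) (hη : η ∈ DZ 2) (hd : dC η ∈ N E)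
    {K L : Set B} (hK : IsCompact K) (hL : IsCompact L) (hKL : ∀ x, x ∈ K ∪ L)
    (hs : ∀ c ∈ Hk (R := ℚ) (E ∩ f ⁻¹' (K ∩ L)) 5, ∃ s ∈ Hk (K ∩ L) 3,
      c = pull f (hf.mono inter_subset_left) (six_maps _) s * mk η (N_mono inter_subset_left hd))
    {u : HT ℚ E} (hu : u ∈ Hk E 6) (h1 : res (inter_subset_left : E ∩ f ⁻¹' K ⊆ E) u = 0)
    (h2 : res (inter_subset_left : E ∩ f ⁻¹' L ⊆ E) u = 0) :
    ∃ a ∈ Hk univ 4, u = pull f hf (mapsTo_univ _ _) a * mk η hd := by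
  obtain ⟨w, hw, wk, rfl⟩ := hu
  rw [res_mk] at h1 h2
  obtain ⟨p, pk, ep⟩ := (mk_eq_zero_iff wk _).1 h1
  obtain ⟨q, qk, eq⟩ := (mk_eq_zero_iff wk _).1 h2
  have e : E ∩ f ⁻¹' K ∩ (E ∩ f ⁻¹' L) = E ∩ f ⁻¹' (K ∩ L) :=
    Subset.antisymm (fun x hx => ⟨hx.1.1, hx.1.2, hx.2.2⟩)
      fun x hx => ⟨⟨hx.1, hx.2.1⟩, hx.1, hx.2.2⟩
  have hc : dC (p - q) ∈ N (E ∩ f ⁻¹' (K ∩ L)) := by
    have : dC (p - q) = w - dC q - (w - dC p) := by rw [map_sub]; abel
    rw [this, ← e]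
    exact sub_mem (N_mono inter_subset_right eq) (N_mono inter_subset_left ep)
  obtain ⟨_, ⟨s, ds, sk, rfl⟩, es⟩ := hs (mk _ hc) ⟨_, _, sub_mem pk qk, rfl⟩
  obtain ⟨-, d2, d3, -⟩ := Leray_coc (F := E ∩ f ⁻¹' (K ∩ L)) (hf.mono inter_subset_left)
    (six_maps _) (N_mono inter_subset_left hd) ds ds
  have sk' : pullC f s * η ∈ DZ (6 - 1) := mul_mem_DZ (pullC_mem f sk) hη
  have d4 : dC (p - q - pullC f s * η) ∈ N (E ∩ f ⁻¹' (K ∩ L)) := by
    rw [map_sub]; exact sub_mem hc d3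
  rw [pull_mk _ _ _ ds d2, ← mk_mul d2 _ d3, ← sub_eq_zero, ← MV_mk_sub _ _ d4] at es
  obtain ⟨r, rk, er⟩ := (mk_eq_zero_iff (sub_mem (sub_mem pk qk) sk') d4).1 es
  obtain ⟨α, αk, α1, α2⟩ := N_split hL.isClosed (dC_mem sk) ds
  have e2 : dC α = -dC (dC s - α) := by rw [map_sub, dC_dC, zero_sub, neg_neg]
  obtain ⟨g, gk, g1, g2, eg⟩ := MV_union_d hK hL αk (N_dC α1) (e2 ▸ neg_mem (N_dC α2))
  have hv : dC (g - α) ∈ N (univ : Set B) := by
    rw [← neg_sub, map_neg]; exact neg_mem (N_mono (fun x _ => hKL x) eg)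
  have vk : g - α ∈ DZ 4 := sub_mem gk αk
  obtain ⟨-, c2, c3, -⟩ := Leray_coc hf (mapsTo_univ f E) hd hv hv
  refine ⟨mk _ hv, ⟨_, _, vk, rfl⟩, ?_⟩
  rw [pull_mk _ _ _ hv c2, ← mk_mul c2 _ c3]
  have wk' : pullC f (g - α) * η ∈ DZ 6 := mul_mem_DZ (pullC_mem f vk) hη
  have hE' : E ⊆ E ∩ f ⁻¹' K ∪ E ∩ f ⁻¹' L := fun x hx =>
    (hKL (f x)).imp (fun h => ⟨hx, h⟩) fun h => ⟨hx, h⟩
  obtain ⟨γ, eγ⟩ := MV_fun (Blow_compact hE hf hK) (Blow_compact hE hf hL)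
    (w := w - pullC f (g - α) * η) (p := p) (q := q + pullC f s * η) (r := r) (sub_mem wk wk')
    (by
      rw [map_sub]
      exact N_mono (union_subset inter_subset_left inter_subset_left) (sub_mem hw c3))
    pk (add_mem qk sk') rk
    (by
      rw [sub_right_comm]
      exact sub_mem ep (N_mul_right (N_pullC (hf.mono inter_subset_left) (six_maps _)
        (sub_mem g1 α1)) η))
    (by
      have : w - pullC f (g - α) * η - dC (q + pullC f s * η) =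
          w - dC q - pullC f (dC s - α + g) * η - sg (pullC f s) * dC η := by
        rw [map_add, dC_mul, dC_pullC]
        simp only [map_add, map_sub, add_mul, sub_mul]
        abel
      rw [this]
      exact sub_mem (sub_mem eq (N_mul_right (N_pullC (hf.mono inter_subset_left) (six_maps _)
        (add_mem α2 g2)) η)) (N_mul_left _ (N_mono inter_subset_left hd)))
    (by rw [e, ← sub_sub]; exact er)
  exact (mk_eq_iff _ _).2 ⟨γ, N_mono hE' eγ⟩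

theorem six_over (hE : IsCompact E) (hf : ContinuousOn f E) (hη : η ∈ DZ 2) (hd : dC η ∈ N E)
    {A : Set B} (hA : IsCompact A) {k : ℤ} (h : ∀ a ∈ A, FibOK (E ∩ f ⁻¹' {a}) 2 k η)
    (h1 : Van ℚ A k) {c : HT ℚ (E ∩ f ⁻¹' A)} (hc : c ∈ Hk (E ∩ f ⁻¹' A) k) :
    ∃ s ∈ Hk A (k - 2), c = pull f (hf.mono inter_subset_left) (six_maps _) s *
      mk η (N_mono inter_subset_left hd) := by
  obtain ⟨a, ha, b, hb, rfl⟩ := (leray_cls (Blow_compact hE hf hA) hA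
    (hf.mono inter_subset_left) (six_maps _) two_pos hη (N_mono inter_subset_left hd)
    (n := k) fun w hw => by
      have : E ∩ f ⁻¹' A ∩ f ⁻¹' {w} = E ∩ f ⁻¹' {w} :=
        Subset.antisymm (fun x hx => ⟨hx.1.1, hx.2⟩)
          fun x hx => ⟨⟨hx.1, mem_preimage.2 ((show f x = w from hx.2) ▸ hw)⟩, hx.2⟩
      rw [this]
      exact h w hw).2 k le_rfl c hc
  exact ⟨b, hb, by rw [h1 a ha, map_zero, zero_add]⟩
end

section
variable {Z : Type} [MetricSpace Z] {E : Set Z} {f : Z → Tor (Fin 4)} {η : Ch Z ℚ}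

/-- small balls round the points of order three, and their complement -/
theorem six_balls (hE : IsCompact E) (hf : ContinuousOn f E) {V : Set Z}
    (hV : V ∈ 𝓝ˢ (E ∩ f ⁻¹' {a | 3 • a = 0})) : ∃ D B : Set (Tor (Fin 4)), IsCompact D ∧
      IsCompact B ∧ (∀ x, x ∈ D ∪ B) ∧ (∀ k : ℤ, 3 < k → Van ℚ (D ∩ B) k) ∧
      (∀ a ∈ D, 3 • a ≠ 0) ∧ E ∩ f ⁻¹' B ⊆ V ∩ E := by
  set T : Set (Tor (Fin 4)) := {a | 3 • a = 0}
  have hT : T.Finite := bound_finite
  have : Finite T := hT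
  have hI : IsCompact (f '' (E \ interior V)) :=
    (hE.diff isOpen_interior).image_of_continuousOn (hf.mono sdiff_subset)
  obtain ⟨δ, δ0, hδ⟩ := hT.isCompact.exists_cthickening_subset_open hI.isClosed.isOpen_compl
    (fun a ha ⟨x, hx, e⟩ =>
      hx.2 (subset_interior_iff_mem_nhdsSet.2 hV ⟨hx.1, mem_preimage.2 (e ▸ ha)⟩))
  obtain ⟨C, C0, hC⟩ : ∃ C : ℝ, 0 < C ∧ ∀ x ∈ T, ∀ y ∈ T, x ≠ y → C ≤ dist x y := by
    obtain ⟨C, C0, hC⟩ := hT.relatively_discrete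
    obtain ⟨c, c0, hc⟩ := ENNReal.lt_iff_exists_real_btwn.1 C0
    refine ⟨c, ENNReal.ofReal_pos.1 hc.1, fun x hx y hy h => ?_⟩
    have := hc.2.le.trans (hC x hx y hy h)
    rwa [edist_dist, ENNReal.ofReal_le_ofReal_iff dist_nonneg] at this
  obtain ⟨ε, ε0, ε1, ε2, ε3⟩ : ∃ ε : ℝ, 0 < ε ∧ ε ≤ δ ∧ ε < 1 / 2 ∧ 2 * ε < C :=
    ⟨min δ (min (1 / 4) (C / 4)), by positivity, min_le_left _ _,
      ((min_le_right _ _).trans (min_le_left _ _)).trans_lt (by norm_num), by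
      have := (min_le_right δ _).trans (min_le_right (1 / 4) (C / 4)); linarith⟩
  have far : ∀ a ∈ T, ∀ b ∈ T, ∀ x, dist x a ≤ ε → dist x b ≤ ε → a = b :=
    fun a ha b hb x xa xb => by
      by_contra h
      have := (hC a ha b hb h).trans (dist_triangle_left a b x)
      linarith
  refine ⟨(⋃ a ∈ T, Metric.ball a ε)ᶜ, ⋃ a ∈ T, Metric.closedBall a ε,
    (isOpen_biUnion fun a _ => Metric.isOpen_ball).isClosed_compl.isCompact,
    hT.isCompact_biUnion fun a _ => isCompact_closedBall a ε, fun x => ?_, fun k hk x hx => ?_,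
    fun a ha h => ha (mem_iUnion₂.2 ⟨a, h, Metric.mem_ball_self ε0⟩), fun x hx => ?_⟩
  · by_cases h : x ∈ ⋃ a ∈ T, Metric.ball a ε
    · obtain ⟨a, ha, hx⟩ := mem_iUnion₂.1 h
      exact Or.inr (mem_iUnion₂.2 ⟨a, ha, Metric.ball_subset_closedBall hx⟩)
    · exact Or.inl h
  · exact zero_of_disjoint (P := fun a : T => Metric.sphere a.1 ε) (fun a => isCompact_sphere _ _)
      (fun a b hab => disjoint_left.2 fun x hx hy =>
        hab (Subtype.ext (far _ a.2 _ b.2 x (le_of_eq hx) (le_of_eq hy))))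
      (fun a x hx => And.intro (fun h => by
        obtain ⟨b, hb, hx'⟩ := mem_iUnion₂.1 h
        have e := far _ a.2 b hb x (le_of_eq hx) (le_of_lt hx')
        exact (e ▸ hx' : dist x a.1 < ε).ne hx)
        (mem_iUnion₂.2 ⟨a.1, a.2, Metric.sphere_subset_closedBall hx⟩))
      (fun x hx => by
        obtain ⟨a, ha, hx'⟩ := mem_iUnion₂.1 hx.2
        exact mem_iUnion.2 ⟨⟨a, ha⟩, le_antisymm hx'
          (not_lt.1 fun h => hx.1 (mem_iUnion₂.2 ⟨a, ha, h⟩))⟩) hx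
      fun a => bound_van_sphere a.1 ε0 ε2 hk _ (MV_res_mem _ hx)
  · obtain ⟨a, ha, hx'⟩ := mem_iUnion₂.1 hx.2
    refine ⟨interior_subset (not_not.1 fun h => ?_), hx.1⟩
    exact hδ (Metric.mem_cthickening_of_dist_le _ a δ T ha (le_trans hx' ε1)) ⟨x, ⟨hx.1, h⟩, rfl⟩

theorem six_span (hE : IsCompact E) (hf : ContinuousOn f E) (hη : η ∈ DZ 2)
    (hd : dC η ∈ N E) (h1 : ∀ a, 3 • a ≠ 0 → ∀ n, FibOK (E ∩ f ⁻¹' {a}) 2 n η)
    (h2 : ∀ a, 3 • a = 0 → Van ℚ (E ∩ f ⁻¹' {a}) 6) {u : HT ℚ E} (hu : u ∈ Hk E 6) :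
    ∃ a ∈ Hk univ 4, u = pull f hf (mapsTo_univ _ _) a * mk η hd := by
  have hT : {a : Tor (Fin 4) | 3 • a = 0}.Finite := bound_finite
  have : Finite {a : Tor (Fin 4) | 3 • a = 0} := hT
  have hF : IsCompact (E ∩ f ⁻¹' {a | 3 • a = 0}) := Blow_compact hE hf hT.isCompact
  have u0 : res (inter_subset_left : E ∩ f ⁻¹' {a | 3 • a = 0} ⊆ E) u = 0 :=
    zero_of_disjoint (P := fun a : {a : Tor (Fin 4) | 3 • a = 0} => E ∩ f ⁻¹' {a.1})
      (fun a => Blow_compact hE hf isCompact_singleton)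
      (fun a b hab => disjoint_left.2 fun x hx hy =>
        hab (Subtype.ext ((show f x = a.1 from hx.2).symm.trans hy.2)))
      (fun a x hx => And.intro hx.1 (mem_preimage.2 ((show f x = a.1 from hx.2) ▸ a.2)))
      (fun x hx => mem_iUnion.2 ⟨⟨f x, hx.2⟩, hx.1, rfl⟩) (MV_res_mem _ hu)
      fun a => h2 a.1 a.2 _ (MV_res_mem _ (MV_res_mem _ hu))
  obtain ⟨V, hV, uV⟩ := taut_zero hF hE inter_subset_left hu u0
  obtain ⟨D, B, hD, hB, hDB, vS, nT, hBV⟩ := six_balls hE hf hV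
  have gl : ∀ k : ℤ, 3 < k → ∀ x ∈ Hk (R := ℚ) D k, ∃ z ∈ Hk univ k,
      res (subset_univ D) z = x ∧ res (subset_univ B) z = 0 := fun k hk x hx =>
    glue hD hB (subset_univ _) (subset_univ _) (fun x _ => hDB x) hx
      (Submodule.zero_mem _) (by rw [map_zero]; exact vS k hk _ (MV_res_mem _ hx))
  have vD : Van ℚ D 6 := fun x hx => by
    obtain ⟨z, hz, rfl, -⟩ := gl 6 (by norm_num) x hx
    rw [bound_van_tor (by norm_num) z hz, map_zero]
  obtain ⟨b, hb, eb⟩ := six_over hE hf hη hd hD (fun a ha => h1 a (nT a ha) 6) vD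
    (MV_res_mem inter_subset_left hu)
  obtain ⟨z, hz, z1, z2⟩ := gl 4 (by norm_num) b hb
  have hzη : pull f hf (mapsTo_univ _ _) z * mk η hd ∈ Hk E 6 :=
    mul_mem_Hk (pull_mem hz) ⟨η, hd, hη, rfl⟩
  obtain ⟨a, ha, e⟩ := six_mv hE hf hη hd hD hB hDB
    (fun c hc => six_over hE hf hη hd (hD.inter hB) (fun a ha => h1 a (nT a ha.1) 5)
      (vS 5 (by norm_num)) hc) (Submodule.sub_mem _ hu hzη)
    (by rw [map_sub, map_mul, six_res_pull hf _ (six_maps D), z1, res_mk, eb, sub_self])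
    (by
      rw [map_sub, map_mul, six_res_pull hf _ (six_maps B), z2, map_zero, zero_mul,
        sub_zero, ← MV_res_res hBV inter_subset_right u, uV, map_zero])
  exact ⟨a + z, Submodule.add_mem _ ha hz, by rw [map_add, add_mul, ← e, sub_add_cancel]⟩
end

variable {P₁ : Matrix (Fin 2) (Fin 4) ℂ} {X : Type} [MetricSpace X] [CompactSpace X] {m : ℕ}
  {S : Set (EuclideanSpace ℂ (Fin m))} {pr : EuclideanSpace ℂ (Fin m) → X}

theorem bound_six (T : KumTop P₁ S pr) {θ : Ch (EuclideanSpace ℂ (Fin m)) ℚ} {η : Ch X ℚ}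
    (hθ : θ ∈ DZ 1) (hη : η ∈ DZ 2) (hdη : dC η ∈ N univ) (hdθ : dC θ - pullC pr η ∈ N S)
    (hF : ∀ n, ∀ w, FibOK (S ∩ pr ⁻¹' {w}) 1 n θ) {u : HT ℚ T.boundE} (hu : u ∈ Hk T.boundE 6) :
    ∃ a ∈ Hk univ 4, u = pull T.boundF T.bound_cF (mapsTo_univ _ _) a *
      res (subset_univ T.boundE) (AS.mk η hdη) := by
  rw [res_mk]
  refine six_span T.bound_cE T.bound_cF hη (N_mono (subset_univ _) hdη) (fun a h n => ?_)
    (fun a h => ?_) hu
  · rw [T.bound_fib]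
    obtain ⟨⟨h1, h2, h3, h4⟩, h5⟩ := T.bound_wp hθ hη hdη hdθ hF le_rfl (T.fib₁ a h)
    refine ⟨h1, h2, fun k k0 _ k2 => ?_, h4⟩
    by_cases k3 : k ≤ 3
    · exact h3 k k0 k3 k2
    · exact h5 k (by push_cast; omega)
  · rw [T.bound_fib]
    exact (T.bound_wp hθ hη hdη hdθ hF one_le_two (T.fib₂ a h)).2 6 (by norm_num)

end Pool.Agent.Lib.MP_d3d358_ag.Cw
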