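import Pool.Agent.Lib.MP_d3d358_ag.Cw.ExcA
import Pool.Agent.Lib.MP_d3d358_ag.Cw.KAlg
import Pool.Agent.Lib.MP_d3d358_ag.Cw.Six

/-! The exceptional class in the second cohomology. -/

set_option autoImplicit false

namespace Pool.Agent.Lib.MP_d3d358_ag.Cw

open Topology Set AS

variable {P₁ : Matrix (Fin 2) (Fin 4) ℂ} {X : Type} [MetricSpace X] [CompactSpace X] {m : ℕ}
  {S : Set (EuclideanSpace ℂ (Fin m))} {pr : EuclideanSpace ℂ (Fin m) → X}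

theorem exists_exc (T : KumTop P₁ S pr) (φ : HT ℚ (univ : Set X) →ₗ[ℚ] ℚ)
    (pd : ∀ x ∈ Hk univ 2, (∀ y ∈ Hk univ 6, φ (y * x) = 0) → x = 0)
    (hφ : ∀ a ∈ Hk univ 8, T.j ℚ a = T.β (Orb.mon Orb.eN Orb.FN) → φ a ≠ 0) :
    ∃ e ∈ Hk (R := ℚ) (univ : Set X) 2,
      (∀ x ∈ Hk univ 2, ∃ (γ : Fin 4 → Fin 4 → ℚ) (c : ℚ),
        T.j ℚ x = ∑ a, ∑ b, γ a b • T.β (t2 a b) + c • T.j ℚ e) ∧
      (∀ y ∈ Hk univ 6, ∀ v ∈ ⋀[ℚ]^6 (Orb.V × Orb.V), (∀ s, Orb.act s v = v) →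
        T.j ℚ y = T.β v → φ (e * y) = 0) ∧
      (e = 0 ∨ ∀ w ∈ Hk univ 4, T.j ℚ w = T.β (Orb.tl Orb.vol) → φ (e * e * w) ≠ 0) := by
  obtain ⟨θ, η, hθ, hη, hdη, hdθ, hF⟩ := T.cb.exists_eta
  rw [T.onto] at hdη hF
  have e : coef (algebraMap ℚ ℚ : ℚ →+ ℚ) θ = θ := Alg_ext fun _ => rfl
  have hF' : ∀ n, ∀ w, FibOK (S ∩ pr ⁻¹' {w}) 1 n θ := fun n w => e ▸ hF ℚ n w (mem_univ w)
  exact exc_main T φ pd hφ (η := AS.mk η hdη) ⟨η, hdη, hη, rfl⟩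
    (fun _ hx => T.bound_two hθ hη hdη hdθ hF' hx) fun _ hu => bound_six T hθ hη hdη hdθ hF' hu

end Pool.Agent.Lib.MP_d3d358_ag.Cw
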