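import Pool.Agent.Lib.MP_d3d358_ag.Cw.KAlgB
import Pool.Agent.Lib.MP_d3d358_ag.Cw.Exc
import Pool.Agent.Lib.MP_d3d358_ag.Cw.Comm
import Pool.Agent.Lib.MP_d3d358_ag.AS.Betti

/-! A multiplicative isomorphism that kills the Hodge tests cannot exist. -/

set_option autoImplicit false

namespace Pool.Agent.Lib.MP_d3d358_ag.Cw

open Topology Set AS

section Abs
open ExteriorAlgebra Orb

theorem kill_t2_mem (i j : Fin 4) : t2 i j ∈ ⋀[ℚ]^2 (Orb.V × Orb.V) :=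
  absA_tl_mem 2 (by rw [absA_single]; exact absA_m2_mem _ _)

theorem kill_t2_swap (i j : Fin 4) : t2 j i = -t2 i j := by
  rw [t2, t2, absA_single, absA_single, absA_m2_swap, map_neg]

theorem kill_vol_mem : tl vol ∈ ⋀[ℚ]^4 (Orb.V × Orb.V) :=
  absA_tl_mem 4 (vol_multi ▸ ιMulti_range ℚ 4 ⟨_, rfl⟩)

theorem kill_F_mem : mon eN FN ∈ ⋀[ℚ]^8 (Orb.V × Orb.V) := by
  have e : mon eN FN = ιMulti ℚ 8 (fun i : Fin 8 => eN i) := by
    rw [ιMulti_apply]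
    simp [List.ofFn_succ, mon, FN]
  rw [e]
  exact ιMulti_range ℚ 8 ⟨_, rfl⟩

theorem kill_sum (f : Fin 4 → Fin 4 → Fin 4 → Fin 4 → ℂ) :
    ∑ a, ∑ b, ∑ i, ∑ j, f a b i j = ∑ i, ∑ j, ∑ a, ∑ b, f a b i j := by
  simpa only [Fintype.sum_prod_type] using Finset.sum_comm (s := Finset.univ) (t := Finset.univ)
    (f := fun p q : Fin 4 × Fin 4 => f p.1 p.2 q.1 q.2)

theorem kill_congr {f g : Fin 4 → Fin 4 → Fin 4 → Fin 4 → ℂ} (h : ∀ a b i j, f a b i j = g a b i j) :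
    ∑ a, ∑ b, ∑ i, ∑ j, f a b i j = ∑ i, ∑ j, ∑ a, ∑ b, g a b i j := by
  simp only [h]
  exact kill_sum g

theorem kill_psi {A B : Type} [Ring A] [Algebra ℚ A] [Ring B] [Algebra ℚ B] (j : A →ₐ[ℚ] B)
    {p : Submodule ℚ A} (h : ∀ a ∈ p, j a = 0 → a = 0) (φ : A →ₗ[ℚ] ℚ) :
    ∃ ψ : B →ₗ[ℚ] ℚ, ∀ a ∈ p, ψ (j a) = φ a := by
  obtain ⟨l, hl⟩ := (j.toLinearMap ∘ₗ p.subtype).exists_leftInverse_of_injective
    (LinearMap.ker_eq_bot'.2 fun a ha => Subtype.ext (h _ a.2 ha))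
  exact ⟨φ ∘ₗ p.subtype ∘ₗ l, fun a ha =>
    congrArg (fun b : p => φ b.1) (LinearMap.congr_fun hl ⟨a, ha⟩)⟩

/-- the algebra: the image of the holomorphic class is a multiple of the holomorphic class -/
theorem kill_abs {A : Type} [Ring A] [Algebra ℚ A] {P Q : Matrix (Fin 2) (Fin 4) ℂ}
    (hQ : ∀ t, cx Q t = 0 → t = 0) (β : EN →ₐ[ℚ] A) (E : A) (ψ : A →ₗ[ℚ] ℚ)
    (x : Fin 4 → Fin 4 → A) (γ : Fin 4 → Fin 4 → Fin 4 → Fin 4 → ℚ) (c : Fin 4 → Fin 4 → ℚ)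
    (hx : ∀ a b, x a b = ∑ i, ∑ j, γ a b i j • β (t2 i j) + c a b • E)
    (h0 : ψ (β (mon eN FN)) ≠ 0) (e1 : ∀ l k, ψ (E * β (q2 l k)) = 0)
    (e2 : ∀ i j, ψ (E * β (t2 i j * tl vol)) = 0) (e3 : ∀ i j, β (t2 i j) * E = E * β (t2 i j))
    (e4 : E = 0 ∨ ψ (E * E * β (tl vol)) ≠ 0)
    (h1 : ∀ (d : Fin 2) k, ∑ s : Fin 4 × Fin 4 × Fin 4,
      P 0 s.1 * P 1 s.2.1 * Q d s.2.2 * (ψ (x s.1 s.2.1 * β (q2 s.2.2 k)) : ℂ) = 0)
    (h2 : ∑ s : (Fin 4 × Fin 4) × Fin 4 × Fin 4, P 0 s.1.1 * P 1 s.1.2 * (P 0 s.2.1 * P 1 s.2.2) *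
      (ψ (x s.1.1 s.1.2 * x s.2.1 s.2.2 * β (tl vol)) : ℂ) = 0) :
    ∃ t : ℂ, ∀ L : A →ₗ[ℚ] ℚ, ∑ a, ∑ b, P 0 a * P 1 b * (L (x a b) : ℂ) =
      t * ∑ i, ∑ j, Q 0 i * Q 1 j * (L (β (t2 i j)) : ℂ) := by
  obtain ⟨Γ, hΓ⟩ : ∃ Γ : Fin 4 → Fin 4 → ℂ,
    ∀ i j, Γ i j = ∑ a, ∑ b, P 0 a * P 1 b * (γ a b i j : ℂ) := ⟨_, fun _ _ => rfl⟩
  obtain ⟨C, hC⟩ : ∃ C : ℂ, C = ∑ a, ∑ b, P 0 a * P 1 b * (c a b : ℂ) := ⟨_, rfl⟩
  have k0 : ∀ L : A →ₗ[ℚ] ℚ, ∑ a, ∑ b, P 0 a * P 1 b * (L (x a b) : ℂ) =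
      ∑ i, ∑ j, Γ i j * (L (β (t2 i j)) : ℂ) + C * L E := fun L => by
    simp only [hx, hΓ, hC, map_add, map_sum, map_smul, smul_eq_mul, Rat.cast_add, Rat.cast_sum,
      Rat.cast_mul, mul_add, Finset.sum_add_distrib, Finset.mul_sum, Finset.sum_mul, mul_assoc]
    exact congrArg (· + _) (kill_sum _)
  obtain ⟨t, ht⟩ := alg_line hQ (Γ := Γ) fun d k => by
    have h := h1 d k
    have e : ∀ l, ∑ a, ∑ b, P 0 a * P 1 b * (ψ (x a b * β (q2 l k)) : ℂ) =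
        (18 * ψ (β (mon eN FN)) : ℂ) * ∑ i, ∑ j, Γ i j * (sg i j l k : ℂ) := fun l => by
      refine (k0 (ψ ∘ₗ LinearMap.mulRight ℚ (β (q2 l k)))).trans ?_
      simp only [LinearMap.comp_apply, LinearMap.mulRight_apply, e1, ← map_mul, alg_tq, map_smul,
        smul_eq_mul, Finset.mul_sum]
      push_cast
      rw [mul_zero, add_zero]
      exact Finset.sum_congr rfl fun i _ => Finset.sum_congr rfl fun j _ => by ring
    have e' : ∑ l, Q d l * ∑ a, ∑ b, P 0 a * P 1 b * (ψ (x a b * β (q2 l k)) : ℂ) = 0 := by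
      rw [← h]
      simp only [Fintype.sum_prod_type, Finset.mul_sum]
      rw [Finset.sum_comm]
      refine Finset.sum_congr rfl fun a _ => Finset.sum_comm.trans ?_
      exact Finset.sum_congr rfl fun b _ => Finset.sum_congr rfl fun l _ => by ring
    have n0 : (18 * ψ (β (mon eN FN)) : ℂ) ≠ 0 := mul_ne_zero (by norm_num) (Rat.cast_ne_zero.2 h0)
    refine (mul_eq_zero.1 (Eq.trans ?_ e')).resolve_left n0
    simp only [e, Finset.mul_sum]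
    symm
    rw [Finset.sum_comm]
    refine Finset.sum_congr rfl fun a _ => Finset.sum_comm.trans ?_
    exact Finset.sum_congr rfl fun b _ => Finset.sum_congr rfl fun l _ => by ring
  have k1 : ∀ L : A →ₗ[ℚ] ℚ, ∑ a, ∑ b, P 0 a * P 1 b * (L (x a b) : ℂ) =
      t * ∑ i, ∑ j, Q 0 i * Q 1 j * (L (β (t2 i j)) : ℂ) + C * L E := fun L => by
    rw [k0, period_sum (Q := fun i j => Q 0 i * Q 1 j) (t := t)
      (fun a b => by rw [kill_t2_swap a b, map_neg, map_neg, Rat.cast_neg]) ht]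
  have k2 : ∀ y : A, ∑ a, ∑ b, P 0 a * P 1 b * (ψ (y * x a b * β (tl vol)) : ℂ) =
      t * ∑ i, ∑ j, Q 0 i * Q 1 j * (ψ (y * β (t2 i j) * β (tl vol)) : ℂ) +
        C * ψ (y * E * β (tl vol)) := fun y =>
    k1 (ψ ∘ₗ LinearMap.mulRight ℚ (β (tl vol)) ∘ₗ LinearMap.mulLeft ℚ y)
  have k3 : ∀ y : A, ∑ a, ∑ b, P 0 a * P 1 b * (ψ (x a b * y * β (tl vol)) : ℂ) =
      t * ∑ i, ∑ j, Q 0 i * Q 1 j * (ψ (β (t2 i j) * y * β (tl vol)) : ℂ) +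
        C * ψ (E * y * β (tl vol)) := fun y =>
    k1 (ψ ∘ₗ LinearMap.mulRight ℚ (β (tl vol)) ∘ₗ LinearMap.mulRight ℚ y)
  have e2' : ∀ i j, ψ (E * β (t2 i j) * β (tl vol)) = 0 := fun i j => by
    rw [mul_assoc, ← map_mul, e2]
  have z := alg_zero hQ (ψ ∘ₗ β.toLinearMap)
  simp only [LinearMap.comp_apply, AlgHom.toLinearMap_apply, map_mul] at z
  have k4 : C * (C * ψ (E * E * β (tl vol))) = 0 := by
    have a1 : ∑ a, ∑ b, P 0 a * P 1 b *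
        ∑ a', ∑ b', P 0 a' * P 1 b' * (ψ (x a b * x a' b' * β (tl vol)) : ℂ) = 0 := by
      rw [← h2]
      simp only [Fintype.sum_prod_type, Finset.mul_sum, mul_assoc]
    have a2 : ∑ i, ∑ j, Q 0 i * Q 1 j *
        ∑ a, ∑ b, P 0 a * P 1 b * (ψ (x a b * β (t2 i j) * β (tl vol)) : ℂ) = 0 := by
      simp only [k3, e2', Rat.cast_zero, mul_zero, add_zero]
      rw [← mul_zero t, ← z]
      simp only [Finset.mul_sum]
      exact kill_congr fun _ _ _ _ => by ring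
    have a3 := k3 E
    simp only [e3, e2', Rat.cast_zero, mul_zero, Finset.sum_const_zero, zero_add] at a3
    rw [← a3, ← a1, ← add_zero (C * _), add_comm, ← mul_zero t, ← a2]
    simp only [k2, mul_add, Finset.sum_add_distrib, Finset.mul_sum]
    congr 1
    · exact kill_congr fun _ _ _ _ => by ring
    · exact Finset.sum_congr rfl fun _ _ => Finset.sum_congr rfl fun _ _ => by ring
  refine ⟨t, fun L => (k1 L).trans (add_eq_left.2 ?_)⟩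
  rcases e4 with rfl | e4
  · simp
  · rcases mul_eq_zero.1 k4 with h | h
    · rw [h, zero_mul]
    · rw [(mul_eq_zero.1 h).resolve_right (Rat.cast_ne_zero.2 e4), zero_mul]

end Abs

section Kill
variable {P₁ P₂ : Matrix (Fin 2) (Fin 4) ℂ} {X Y : Type} [MetricSpace X] [MetricSpace Y]
  [CompactSpace X] [CompactSpace Y] {m m' : ℕ}
  {S : Set (EuclideanSpace ℂ (Fin m))} {pr : EuclideanSpace ℂ (Fin m) → X}
  {S' : Set (EuclideanSpace ℂ (Fin m'))} {pr' : EuclideanSpace ℂ (Fin m') → Y}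

theorem kill_lift (T : KumTop P₁ S pr) (k : ℕ) {u : Orb.EN} (hu : u ∈ ⋀[ℚ]^k (Orb.V × Orb.V))
    (hs : ∀ s, Orb.act s u = u) : ∃ a ∈ Hk (R := ℚ) (univ : Set X) k, T.j ℚ a = T.β u :=
  T.mem_Sk.2 ⟨bet_mem _ k hu, fun s => by rw [T.sx_β, hs]⟩

theorem kill_equiv (T : KumTop P₁ S pr) (k : ℤ) : ∃ E : Hk (R := ℚ) (univ : Set X) k ≃ₗ[ℚ]
    (Hk (R := ℚ) (univ : Set X) k).map (T.j ℚ).toLinearMap, ∀ a, (E a).1 = T.j ℚ a.1 :=
  ⟨LinearEquiv.ofBijective ((T.j ℚ).toLinearMap.submoduleMap _)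
    ⟨(injective_iff_map_eq_zero _).2 fun a ha => Subtype.ext (T.j_inj a.2 (congrArg Subtype.val ha)),
      LinearMap.submoduleMap_surjective _ _⟩, fun _ => rfl⟩

theorem kill [PreconnectedSpace Y] {z : Fin 3 → ℂ} (hz : AlgebraicIndependent ℚ z)
    {Q : Matrix (Fin 2) (Fin 4) ℂ}
    (hQ : Q * (!![1, z 0, 0, z 1; 0, z 1, 5, z 2] : Matrix (Fin 2) (Fin 4) ℂ).transpose = 0)
    (hQ' : ∀ t, cx Q t = 0 → t = 0) (T : KumTop P₁ S pr) (T' : KumTop P₂ S' pr') (h₁ : Conv P₁)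
    (h₂ : Conv P₂) (φ : HT ℚ (univ : Set X) →ₗ[ℚ] ℚ) (φ' : HT ℚ (univ : Set Y) →ₗ[ℚ] ℚ)
    (pd : ∀ k, ∀ x ∈ Hk univ k, (∀ y ∈ Hk univ (8 - k), φ' (y * x) = 0) → x = 0)
    (hφ : ∀ a ∈ Hk univ 8, T.j ℚ a = T.β (Orb.mon Orb.eN Orb.FN) → |φ a| * 6 = 1)
    (hφ' : ∀ a ∈ Hk univ 8, T'.j ℚ a = T'.β (Orb.mon Orb.eN Orb.FN) → |φ' a| * 6 = 1)
    (g : ∀ k : ℤ, Hk (R := ℚ) (univ : Set X) k ≃ₗ[ℚ] Hk (R := ℚ) (univ : Set Y) k)
    (hm : ∀ p q (a : Hk univ p) (b : Hk univ q) (h : a.1 * b.1 ∈ Hk univ (p + q)),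
      (g (p + q) ⟨a.1 * b.1, h⟩).1 = (g p a).1 * (g q b).1)
    (ht : ∀ k (a : Hk univ k), φ' (g k a).1 = φ a.1)
    {B : HT ℚ (univ : Set X) → HT ℚ (univ : Set Y) → ℚ}
    (hB : ∀ i j (a : Hk univ i), ∀ b ∈ Hk univ j, φ' ((g i a).1 * b) = B a.1 b)
    (hH : HV T T' !![1, z 0, 0, z 1; 0, z 1, 5, z 2] Q B) : False := by
  obtain ⟨D, hD⟩ := betti_data T h₁
  obtain ⟨D', hD'⟩ := betti_data T' h₂
  choose E hE using kill_equiv T
  choose E' hE' using kill_equiv T'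
  obtain ⟨G, hG⟩ : ∃ G : ∀ k : ℤ, (Hk (R := ℚ) (univ : Set X) k).map (T.j ℚ).toLinearMap ≃ₗ[ℚ]
      (Hk (R := ℚ) (univ : Set Y) k).map (T'.j ℚ).toLinearMap,
      ∀ k a, (G k (E k a)).1 = T'.j ℚ (g k a).1 :=
    ⟨fun k => (E k).symm ≪≫ₗ g k ≪≫ₗ E' k, fun k a => by
      rw [LinearEquiv.trans_apply, LinearEquiv.trans_apply, LinearEquiv.symm_apply_apply, hE']⟩
  obtain ⟨a, ha, ea⟩ := kill_lift T 8 kill_F_mem absA_act_F
  obtain ⟨a', ha', ea'⟩ := kill_lift T' 8 kill_F_mem absA_act_F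
  have n' : ∀ a ∈ Hk univ 8, T'.j ℚ a = T'.β (Orb.mon Orb.eN Orb.FN) → φ' a ≠ 0 := fun a h e h0 => by
    have := hφ' a h e
    rw [h0] at this
    norm_num at this
  obtain ⟨e, he, e0, e1, e4⟩ := exists_exc T' φ' (pd 2) n'
  obtain ⟨ψ, hψ⟩ := kill_psi (T'.j ℚ) (p := Hk univ 8) (fun _ h => T'.j_inj h) φ'
  choose x hx ex using fun i j => kill_lift T 2 (kill_t2_mem i j) (absA_tl_inv _)
  choose r hr er using fun l k : Fin 4 => kill_lift T' 6 (u := q2 l k) (tw_push_mem _ _)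
    fun s => Orb.act_push s _
  obtain ⟨w, hw, ew⟩ := kill_lift T' 4 kill_vol_mem (absA_tl_inv _)
  choose γ c hγ using fun i j => e0 _ (g 2 ⟨x i j, hx i j⟩).2
  have e6 : ∀ v ∈ ⋀[ℚ]^6 (Orb.V × Orb.V), (∀ s, Orb.act s v = v) →
      ψ (T'.j ℚ e * T'.β v) = 0 := fun v hv hs => by
    obtain ⟨y, hy, ey⟩ := kill_lift T' 6 hv hs
    rw [← ey, ← map_mul, hψ _ (mul_mem_Hk he hy), e1 y hy v hv hs ey]
  obtain ⟨t, k⟩ := kill_abs (P := !![1, z 0, 0, z 1; 0, z 1, 5, z 2]) hQ' T'.β (T'.j ℚ e) ψ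
    (fun i j => T'.j ℚ (g 2 ⟨x i j, hx i j⟩).1) γ c hγ
    (by rw [← ea', hψ _ ha']; exact n' _ ha' ea')
    (fun l k => e6 _ (tw_push_mem _ _) fun s => Orb.act_push s _)
    (fun i j => e6 _ (tw_mul_mem (kill_t2_mem i j) kill_vol_mem) fun s => by
      rw [map_mul, absA_tl_inv, absA_tl_inv])
    (fun i j => by
      refine (comm (bet_mem _ 2 (kill_t2_mem i j)) (T'.j_mem he)).trans ?_
      rw [Int.negOnePow_even _ (by decide), Units.val_one, one_smul]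
      rfl)
    (e4.imp (fun h => by rw [h, map_zero]) fun h => by
      rw [← ew, ← map_mul, ← map_mul, hψ _ (mul_mem_Hk (mul_mem_Hk he he) hw)]
      exact h w hw ew)
    (fun d k => by
      refine Eq.trans (Finset.sum_congr rfl fun s _ => ?_)
        (hH (Fin 4 × Fin 4 × Fin 4) _ 2 6 rfl (fun s => x s.1 s.2.1) (fun s => r s.2.2 k)
          (fun s => t2 s.1 s.2.1) (fun s => q2 s.2.2 k)
          (fun s => ⟨hx _ _, kill_t2_mem _ _, ex _ _⟩)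
          (fun s => ⟨hr _ _, tw_push_mem _ _, er _ _⟩) fun M hM => alg_push hQ' hM d k)
      rw [← er, ← map_mul, hψ _ (mul_mem_Hk (g 2 _).2 (hr _ _)), hB 2 6 _ _ (hr _ _)])
    (by
      refine Eq.trans (Finset.sum_congr rfl fun s _ => ?_)
        (hH ((Fin 4 × Fin 4) × Fin 4 × Fin 4) _ 4 4 rfl (fun s => x s.1.1 s.1.2 * x s.2.1 s.2.2)
          (fun _ => w) (fun s => t2 s.1.1 s.1.2 * t2 s.2.1 s.2.2) (fun _ => Orb.tl Orb.vol)
          (fun s => ⟨mul_mem_Hk (hx _ _) (hx _ _), tw_mul_mem (kill_t2_mem _ _) (kill_t2_mem _ _),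
            by rw [map_mul, map_mul, ex, ex]⟩)
          (fun _ => ⟨hw, kill_vol_mem, ew⟩) fun M hM => alg_sq hQ' hM)
      rw [← ew, ← map_mul, ← map_mul, hψ _ (mul_mem_Hk (mul_mem_Hk (g 2 _).2 (g 2 _).2) hw),
        ← hm 2 2 _ _ (mul_mem_Hk (hx _ _) (hx _ _)), hB _ 4 _ _ hw])
  refine abs_no_iso D D' G ?_ ?_ hz Q hQ t (fun i j => E 2 ⟨x i j, hx i j⟩)
    (fun i j => by rw [hE, hD]; exact ex i j) fun L => ?_
  · intro p q u v h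
    obtain ⟨u, rfl⟩ := (E p).surjective u
    obtain ⟨v, rfl⟩ := (E q).surjective v
    have e : (⟨(E p u).1 * (E q v).1, h⟩ : (Hk (R := ℚ) (univ : Set X) (p + q)).map
        (T.j ℚ).toLinearMap) = E (p + q) ⟨u.1 * v.1, mul_mem_Hk u.2 v.2⟩ :=
      Subtype.ext (by simp only [hE, map_mul])
    rw [e, hG, hG, hG, hm, map_mul]
  · intro h
    have e : (⟨D.β (Orb.mon Orb.eN Orb.FN), h⟩ : (Hk (R := ℚ) (univ : Set X) 8).map
        (T.j ℚ).toLinearMap) = E 8 ⟨a, ha⟩ := Subtype.ext (by simp only [hE, hD, ea])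
    have det : ∀ y ∈ Hk (R := ℚ) (univ : Set Y) 8, φ' y = 0 → y = 0 := fun y hy h0 =>
      pd 8 y hy fun u hu => by
        obtain ⟨d, rfl⟩ := Hk_zero isPreconnected_univ (x := u) hu
        rw [smul_mul_assoc, one_mul, map_smul, h0, smul_zero]
    have q1 := hφ a ha ea
    have q2 := hφ' a' ha' ea'
    rw [e, hG, hD', ← ea', ← map_neg]
    rcases abs_eq_abs.1 (show |φ a| = |φ' a'| by linarith) with h | h
    · refine Or.inl (congrArg _ (sub_eq_zero.1 (det _ (Submodule.sub_mem _ (g 8 _).2 ha') ?_)))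
      rw [map_sub, ht, h, sub_self]
    · refine Or.inr (congrArg _ (eq_neg_of_add_eq_zero_left (det _ (Submodule.add_mem _ (g 8 _).2 ha') ?_)))
      rw [map_add, ht, h, neg_add_cancel]
  · simp only [hG, hD']
    exact k L

end Kill

end Pool.Agent.Lib.MP_d3d358_ag.Cw
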