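import Pool.Agent.Lib.MP_d3d358_ag.G.NoFrob

/-! The topological interface of the fourfold, with the isospectral space described by `Over`. -/

set_option autoImplicit false

namespace Pool.Agent.Lib.MP_d3d358_ag.Cw

open Topology Set Filter AS
open Pool.Agent.Lib.MP_9ff3e7_ag.F Pool.Agent.Lib.MP_cd184e_ag.B G Var

theorem kx_of {A : Sf} {S : Type} [CommRing S] [IsDomain S] [Algebra ℂ S] {𝒜 : ℕ → Submodule ℂ S}
    [GradedAlgebra 𝒜] {m₁ m₂ m : ℕ} (D : Seg 𝒜 (Lam A) (Fin m₁) (Fin m₂))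
    (e : Fin m ≃ Fin m₁ × Fin m₂) (x₀ : Cx 𝒜) (hne : (Var.Free (Lam A)).Nonempty)
    {N : Var.V → (Fin 2 → ℂ) →L[ℂ] Fin m₁ → ℂ} (cN : Continuous N)
    (hN : ∀ z, (fun i => (D.f i).1 z) = N z (crd 0 z - crd 1 z))
    (iN : ∀ z, crd 0 z = crd 1 z → crd 0 z - crd 2 z ∉ A.toLat.L → Function.Injective (N z))
    (h3 : ∀ b, crd 0 b = crd 1 b → crd 0 b - crd 2 b ∈ A.toLat.L →
      ∃ (τ : Var.V → Fin 4 → ℂ) (E : Var.V → (Fin 5 → ℂ) →L[ℂ] Fin m₁ → ℂ),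
        map τ (𝓝 b) = 𝓝 0 ∧ ContinuousAt E b ∧ Function.Injective (E b) ∧
        ∀ᶠ z in 𝓝 b, (fun i => (D.f i).1 z) = E z (alt5 (τ z)))
    {c : ℂ} (hc : c ≠ 0) {Z : Type} [MetricSpace Z] (Θ : Cx 𝒜 ≃ₜ Z) :
    ∃ Γ : Geo (c • per A.toLat) Z fun _ => False, ∀ t, AS.Free (mkT t) → ∀ a : ℂ, a ≠ 0 →
      D.Over (Θ.symm (Γ.pr (a • tens Γ.e (Γ.f t) (Γ.g t)))) (zt A.toLat t) := by
  have hcl := D.closure_tv e hne (zt_surj A.toLat)
  have cz := continuous_zt A.toLat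
  obtain ⟨g1, g2, g3, g4⟩ := D.geo_fields (orbit_iff A.toLat) (free_iff A.toLat)
  obtain ⟨q, hq⟩ := D.exists_isQ hne
  refine ⟨Geo.mk m₁ m₂ m e (fun t i => (D.f i).1 (zt A.toLat t))
    (fun t j => (D.g j).1 (zt A.toLat t))
    (continuous_pi fun i => (D.f i).cont.comp cz) (continuous_pi fun j => (D.g j).cont.comp cz)
    (fun s t t' hs => g1 t t' ⟨s, hs⟩) g2 g3 g4 (Θ ∘ prj (D.se e) x₀) ?_ ?_
    (fun t => c⁻¹ • N (zt A.toLat t)) (by fun_prop) (fun t => ?_)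
    (fun t h1 h2 _ _ e => iN _ ((pa_eq_iff' A.toLat t 0 1).1 h1) (fun h' =>
      h2 ((pa_eq_iff A.toLat t 0 2).2 h')) (smul_right_injective _ (inv_ne_zero hc) e))
    (fun t h1 h2 => ?_) (fun _ h => h.elim), fun t ht a ha => ?_⟩
  · exact (congrArg (fun T => CB T (Θ ∘ prj (D.se e) x₀)) hcl).mpr
      ⟨isCompact_sph (D.se_mem e) (D.adjoin_se e), fun _ hv => hv.1,
        fun _ hv _ hc => smul_mem_sph (D.se_mem e) hv hc, Θ.continuous.comp_continuousOn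
          ((continuousOn_prj (D.adjoin_se e) x₀).mono fun _ hv => hv.2),
        fun _ hv _ hw => Θ.injective.eq_iff.trans
          (prj_eq_iff (D.se_mem e) (D.adjoin_se e) x₀ hv hw)⟩
  · refine (congrArg (fun T => (Θ ∘ prj (D.se e) x₀) '' T) hcl).trans ?_
    rw [image_comp, Var.prj_image_sph (D.se_mem e) (D.adjoin_se e) x₀, image_univ,
      Θ.surjective.range_eq]
  · rw [cx_smul_mat, smul_apply, map_smul, smul_smul, inv_mul_cancel₀ hc,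
      one_smul]
    exact (hN _).trans (congrArg _ ((congrArg₂ (· - ·) (crd_zt A.toLat 0 t)
      (crd_zt A.toLat 1 t)).trans (cx_sub A.toLat _ _).symm))
  · obtain ⟨τ, E, a1, a2, a3, a4⟩ := h3 _ ((pa_eq_iff' A.toLat t 0 1).1 h1)
      ((pa_eq_iff A.toLat t 0 2).1 h2)
    exact ⟨τ ∘ zt A.toLat, E ∘ zt A.toLat, by rw [← map_map, map_zt_nhds, a1],
      a2.comp cz.continuousAt, a3, cz.continuousAt.eventually a4⟩
  · have hz := (free_iff A.toLat t).1 ht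
    change D.Over (Θ.symm (Θ (prj (D.se e) x₀ (a • D.tv e (zt A.toLat t))))) _
    rw [Θ.symm_apply_apply, D.prj_tv e hq x₀ hz ha]
    exact hq.over hz

/-- a closed relation that holds over the free points holds at some point of every fibre -/
theorem kx_dense {P : Matrix (Fin 2) (Fin 4) ℂ} {Z : Type} [MetricSpace Z] [CompactSpace Z]
    {Per : (List Z → ℂ) → Prop} (Γ : Geo P Z Per) (T : KumTop P Γ.S Γ.pr)
    (hT : ∀ t, AS.Free (mkT t) → T.sec (mkT t) = Γ.pr (nrm (tens Γ.e (Γ.f t) (Γ.g t))))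
    {R : Set (Tor I8 × Z)} (hR : IsClosed R) (h : ∀ t, AS.Free (mkT t) → ∀ a : ℂ, a ≠ 0 →
      (mkT t, Γ.pr (a • tens Γ.e (Γ.f t) (Γ.g t))) ∈ R) (x : Z) :
    ∃ n, (n, x) ∈ T.Xt ∧ (n, x) ∈ R := by
  have c1 : IsClosed T.Xt :=
    isClosed_eq (T.cq.comp continuous_fst) (T.cπ.comp continuous_snd)
  have c2 : IsClosed (Prod.snd '' (T.Xt ∩ R)) :=
    ((c1.inter hR).isCompact.image continuous_snd).isClosed
  have hx : x ∈ Γ.pr '' Γ.S := Γ.onto.symm ▸ mem_univ x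
  suffices hs : Γ.pr '' {v | ‖v‖ = 1 ∧ ∃ (c : ℂ) (t : I8 → ℝ), v = c • tens Γ.e (Γ.f t) (Γ.g t)} ⊆
      Prod.snd '' (T.Xt ∩ R) by
    obtain ⟨p, hp, rfl⟩ := c2.closure_subset_iff.2 hs (Γ.cb.cont.image_closure hx)
    exact ⟨p.1, hp⟩
  rintro _ ⟨v, ⟨hv, a, t, rfl⟩, rfl⟩
  have ha : a ≠ 0 := fun e => by simp [e] at hv
  have ht : AS.Free (mkT t) := by
    by_contra hn
    simp [(Γ.f_zero t).2 hn, GeoTri_tens_zero] at hv
  refine ⟨(mkT t, _), ⟨?_, h t ht a ha⟩, rfl⟩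
  change T.q (mkT t) = T.π (Γ.pr _)
  rw [Γ.cb.gt_eq (subset_closure ⟨hv, a, t, rfl⟩) (Γ.gt_free_mem ht) rfl, ← hT t ht, T.π_sec]

variable {A : Sf}

theorem kum_top (hA : Good A) {c : ℂ} (hc : c ≠ 0) {Z : Type} [MetricSpace Z] [CompactSpace Z]
    (Θ : Cx (grade (Var.X hA)) ≃ₜ Z) : ∃ (m : ℕ) (S : Set (EuclideanSpace ℂ (Fin m)))
      (pr : EuclideanSpace ℂ (Fin m) → Z) (T : KumTop (c • per A.toLat) S pr),
      ∀ t x, (mkT t, Θ x) ∈ T.Xt ↔ (seg hA).Over x (zt A.toLat t) := by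
  obtain ⟨N, c1, c2, c3, -⟩ := Var.exists_hadamard hA
  obtain ⟨q, -⟩ := (seg hA).exists_isQ (free_nonempty hA)
  obtain ⟨Γ, hΓ⟩ := kx_of (seg hA) finProdFinEquiv.symm (q 0) (free_nonempty hA) c1 c2 c3
    (Var.GeoT.exists_triple hA (Var.trdeg_KN A)) hc Θ
  obtain ⟨T, hT, -⟩ := Γ.exists_top fun t h => cx_inj A.toLat t (by
    rw [cx_smul_mat] at h
    exact (smul_eq_zero.1 h).resolve_left hc)
  have mv : ∀ t t' x, (∃ s, mkT t' = sm s (mkT t)) → (seg hA).Over x (zt A.toLat t) →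
      (seg hA).Over x (zt A.toLat t') := fun t t' x h h' => by
    obtain ⟨γ, l, hl, e⟩ := (orbit_iff A.toLat t t').1 h
    rw [e]
    exact (seg hA).over_act h' γ hl
  have iff : ∀ t x, (seg hA).Over x (zt A.toLat (gtL (mkT t))) ↔ (seg hA).Over x (zt A.toLat t) :=
    fun t x => ⟨mv _ _ x ⟨1, by rw [gtL_mk, sm_one]⟩, mv _ _ x ⟨1, by rw [gtL_mk, sm_one]⟩⟩
  have cl : IsClosed {p : Tor I8 × Z | (seg hA).Over (Θ.symm p.2) (zt A.toLat (gtL p.1))} := by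
    rw [← (gt_oq.prodMap IsOpenQuotientMap.id).isQuotientMap.isClosed_preimage]
    have : Prod.map mkT id ⁻¹'
        {p : Tor I8 × Z | (seg hA).Over (Θ.symm p.2) (zt A.toLat (gtL p.1))} =
        (fun p : (I8 → ℝ) × Z => (Θ.symm p.2, zt A.toLat p.1)) ⁻¹'
          {y | (seg hA).Over y.1 y.2} := Set.ext fun p => iff p.1 _
    rw [this]
    exact (seg hA).isClosed_over.preimage ((Θ.symm.continuous.comp continuous_snd).prodMk
      ((continuous_zt A.toLat).comp continuous_fst))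
  refine ⟨_, _, _, T, fun t x => ?_⟩
  obtain ⟨n, h1, h2⟩ := kx_dense Γ T hT cl (fun t ht a ha => (iff t _).2 (hΓ t ht a ha)) (Θ x)
  change T.q n = T.π (Θ x) at h1
  change (seg hA).Over (Θ.symm (Θ x)) (zt A.toLat (gtL n)) at h2
  rw [Θ.symm_apply_apply] at h2
  change T.q (mkT t) = T.π (Θ x) ↔ _
  rw [← h1, eq_comm, T.q_iff]
  refine ⟨fun h => mv _ _ x (by rwa [gtL_mk]) h2, fun h => ?_⟩
  have := (orbit_iff A.toLat _ _).2 ((seg hA).over_unique h h2)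
  rwa [gtL_mk] at this

end Pool.Agent.Lib.MP_d3d358_ag.Cw
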