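import Pool.Agent.Lib.MP_d3d358_ag.Cw.Cor
import Pool.Agent.Lib.MP_d3d358_ag.Cw.PntX
import Pool.Agent.Lib.MP_d3d358_ag.Cw.Hodge
import Pool.Agent.Lib.MP_d3d358_ag.Cw.Kill
import Pool.Agent.Lib.MP_d3d358_ag.Cw.KumX
import Pool.Agent.Lib.MP_d3d358_ag.Cw.CrdX
import Pool.Agent.Lib.MP_d3d358_ag.Cw.CovP
import Pool.Agent.Lib.MP_d3d358_ag.Var.HKX

/-! No isomorphism of the Chow motives of the two fourfolds as Frobenius algebra objects. -/

set_option autoImplicit false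

namespace Pool.Agent.Lib.MP_d3d358_ag.Cw

open CategoryTheory MonoidalCategory CartesianMonoidalCategory Topology Set Filter AS
open Pool.Agent.Lib.MP_9ff3e7_ag.F Pool.Agent.Lib.MP_cd184e_ag.B G Var

variable {A B : Sf}

/-- the fourfold as a scheme over `ℂ` -/
noncomputable abbrev XS (hA : Good A) : Sch := Over.mk (strMap (grade (Var.X hA)))

theorem cov_X (hA : Good A) {c : ℂ} (hc : c ≠ 0) [Gd (XS hA)] :
    ∃ (m : ℕ) (S : Set (EuclideanSpace ℂ (Fin m))) (pr : EuclideanSpace ℂ (Fin m) → Pnt (XS hA))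
      (T : KumTop (c • per A.toLat) S pr), Cov (XS hA) (ztL A.toLat) sm T.Xt := by
  obtain ⟨Θ, hΘ⟩ := exists_theta (gen1 (Var.X hA))
  obtain ⟨m, S, pr, T, hT⟩ := kum_top hA hc Θ
  refine ⟨m, S, pr, T, sm_one, sm_sm, continuous_sm, T.Xt_compact, fun x => ?_,
    fun n x h n' => ?_, fun t₀ x h => ?_⟩
  · exact (T.rng ▸ mem_range_self x : T.π x ∈ range T.q)
  · rw [← T.q_iff]
    exact ⟨fun h' => Eq.trans h (Eq.symm h'), fun h' => h'.symm.trans h⟩
  · obtain ⟨x, rfl⟩ := Θ.surjective x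
    obtain ⟨u, u1, u2, u3⟩ := kum_crd hA ((hT _ _).1 h)
    refine ⟨u, by rwa [ztL_apply], by rwa [ztL_apply], fun i => ?_⟩
    obtain ⟨d, a, a1, a2⟩ := u3 i
    refine ⟨d, fun k p => valX (a k) (Θ.symm p), fun k => (hΘ _ _).2 ⟨a k, a1 k,
      Eventually.of_forall fun y => congrArg (valX (a k)) (Θ.symm_apply_apply y)⟩, ?_⟩
    have cf : Continuous fun s : (I8 → ℝ) × Pnt (XS hA) => (zt A.toLat s.1, Θ.symm s.2) :=
      ((continuous_zt _).comp continuous_fst).prodMk (Θ.symm.continuous.comp continuous_snd)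
    have := cf.tendsto (t₀, Θ x)
    rw [Θ.symm_apply_apply] at this
    filter_upwards [this.eventually a2] with s hs h'
    rw [ztL_apply]
    exact hs ((hT _ _).1 (by rwa [Θ.apply_symm_apply]))

theorem main_vol : ExteriorAlgebra.map (e8 ℚ) (Orb.mon Orb.eN Orb.FN) =
    ExteriorAlgebra.ιMulti ℚ (4 * 2) fun k =>
      (Pi.single ((finSumFinEquiv (m := 4) (n := 4)).symm k) 1 : I8 → ℚ) := by
  have e : Orb.mon Orb.eN Orb.FN = ExteriorAlgebra.ιMulti ℚ 8 fun i : Fin 8 => Orb.eN i := by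
    rw [ExteriorAlgebra.ιMulti_apply]
    simp [List.ofFn_succ, Orb.mon, Orb.FN]
  rw [e, ExteriorAlgebra.map_apply_ιMulti]
  refine congrArg (ExteriorAlgebra.ιMulti ℚ 8) (funext fun k => funext fun i => ?_)
  revert k i
  decide +kernel

theorem main_top {P : Matrix (Fin 2) (Fin 4) ℂ} {W : Sch} [Gd W] (hW : Mf W 4) {m : ℕ}
    {S : Set (EuclideanSpace ℂ (Fin m))} {pr : EuclideanSpace ℂ (Fin m) → Pnt W}
    (T : KumTop P S pr) {e : (I8 → ℝ) ≃L[ℝ] Fin 4 → ℂ} (h : Cov W e sm T.Xt) :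
    ∀ a ∈ Hk univ 8, T.j ℚ a = T.β (Orb.mon Orb.eN Orb.FN) → |tp W a| * 6 = 1 := fun a ha e1 => by
  have := hodge_top h hW (finSumFinEquiv (m := 4) (n := 4)).symm AS.isOpen_free
    ⟨_, free_aff (i := 0) (j := 0) (k := 1) (by decide) (by decide) 0⟩
    (fun n hn => ⟨⟨T.sec n, (T.π_sec n).symm, fun x hx => T.uniq n x hn (Eq.symm hx)⟩,
      fun s hs => Equiv.ext fun i => by_contra fun hi => hn _ _ hi (by rw [← pa_sm, hs]; rfl)⟩)
    (a := a) ha (e1.trans (congrArg (bK T.Xt) main_vol))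
  rw [Fintype.card_perm, Fintype.card_fin] at this
  exact_mod_cast this

theorem main_lin {M : Matrix (I8 ⊕ I8) (Fin (4 * 2)) ℝ}
    (h : CLin 4 (sumL (ztL A.toLat) (ztL B.toLat)) M) :
    CLin 4 (eP (per A.toLat) (Complex.I • per B.toLat)) M := by
  obtain ⟨T, hT⟩ := h
  let L : (Fin 4 ⊕ Fin 4 → ℂ) →ₗ[ℂ] Fin 4 × Fin 2 → ℂ := LinearMap.pi fun k =>
    LinearMap.proj k.2 ∘ₗ ![crd 0 ∘ₗ LinearMap.funLeft ℂ ℂ Sum.inl,
      crd 1 ∘ₗ LinearMap.funLeft ℂ ℂ Sum.inl, Complex.I • crd 0 ∘ₗ LinearMap.funLeft ℂ ℂ Sum.inr,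
      Complex.I • crd 1 ∘ₗ LinearMap.funLeft ℂ ℂ Sum.inr] k.1
  refine ⟨L.toContinuousLinearMap.comp T, fun l => funext fun k => ?_⟩
  rw [ContinuousLinearMap.comp_apply, ← hT, sumL_apply, ztL_apply, ztL_apply]
  obtain ⟨a, b⟩ := k
  fin_cases a
  · exact (congrFun (crd_zt A.toLat 0 fun i => M (.inl i) l) b).symm
  · exact (congrFun (crd_zt A.toLat 1 fun i => M (.inl i) l) b).symm
  · exact (congrFun (cx_smul_mat _ _ _) b).trans
      (congrArg (Complex.I * ·)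
        (congrFun (crd_zt B.toLat 0 fun i => M (.inr i) l) b).symm)
  · exact (congrFun (cx_smul_mat _ _ _) b).trans
      (congrArg (Complex.I * ·)
        (congrFun (crd_zt B.toLat 1 fun i => M (.inr i) l) b).symm)

theorem no_chow (hA : Good A) (hB : Good B) {z : Fin 3 → ℂ} (hz : AlgebraicIndependent ℚ z)
    (hD : Dual A.toLat B.toLat) (hP : per A.toLat = !![1, z 0, 0, z 1; 0, z 1, 5, z 2])
    (hQ : per B.toLat * (per A.toLat).transpose = 0) :
    ¬∃ Γ : Cyc (XS hA ⊗ XS hB).left, FrobIso 4 Γ := by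
  rintro ⟨Γ, hΓ⟩
  have : Gd (XS hA) := gd_proj (gen1 _)
  have : Gd (XS hB) := gd_proj (gen1 _)
  have sA := simplyConnected_X hA (charts_X hA)
  have sB := simplyConnected_X hB (charts_X hB)
  have mA : Mf (XS hA) 4 := mf_proj (gen1 _) four_pos (charts_X hA) ⟨rep (Classical.arbitrary _)⟩
  have mB : Mf (XS hB) 4 := mf_proj (gen1 _) four_pos (charts_X hB) ⟨rep (Classical.arbitrary _)⟩
  have : PreconnectedSpace (Pnt (XS hB)) := by
    obtain ⟨Θ, -⟩ := exists_theta (gen1 (Var.X hB))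
    exact (Θ.surjective.connectedSpace Θ.continuous).toPreconnectedSpace
  obtain ⟨m, S, pr, T, cA⟩ := cov_X hA one_ne_zero
  obtain ⟨m', S', pr', T', cB⟩ := cov_X hB Complex.I_ne_zero
  obtain ⟨g, g1, g2, g3⟩ := exists_g mA mB hΓ
  refine kill hz (Q := Complex.I • per B.toLat) (by rw [← hP, Matrix.smul_mul, hQ, smul_zero])
    (betti_conv (conv_right hD hP)) T T' (by rw [one_smul]; exact conv_left hD hP)
    (conv_right hD hP) (tp _) (tp _) (fun k x hx h => pd_zero mB.man hx h) (main_top mA T cA)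
    (main_top mB T' cB) g g1 g2 (B := fun a b => ev Γ (pb (fst _ _) a * pb (snd _ _) b)) g3
    fun I _ c p q hpq a b u v ha hb h0 => ?_
  refine hodge (cA.prod (fst _ _) (snd _ _) cB) four_pos c (ω := fun i => uv (u i) (v i))
    (fun i => ?_) (fun i => ?_) (fun i => ?_) (fun M hM => h0 M (hP ▸ main_lin hM)) Γ
  · have := mul_mem_Hk (pb_mem (fst _ _) (ha i).1) (pb_mem (snd (XS hA) _) (hb i).1)
    rwa [show (p : ℤ) + q = 2 * (4 : ℕ) by omega] at this
  · rw [show 4 * 2 = p + q from hpq.symm, ExteriorAlgebra.exteriorPower, pow_add]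
    exact Submodule.mul_mem_mul (torus_map_mem _ _ (ha i).2.1) (torus_map_mem _ _ (hb i).2.1)
  · rw [uv, ← ExteriorAlgebra.map_comp_map, ← ExteriorAlgebra.map_comp_map]
    exact jK_prod _ _ (ha i).2.2 (hb i).2.2

end Pool.Agent.Lib.MP_d3d358_ag.Cw
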