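import Pool.Agent.Lib.MP_d3d358_ag.Cw.AreaM
import Pool.Agent.Lib.MP_d3d358_ag.Cw.At
import Pool.Agent.Lib.MP_d3d358_ag.Cw.Loc

/-! A countable atlas for the area formula. -/

set_option autoImplicit false

namespace Pool.Agent.Lib.MP_d3d358_ag.Cw

open Topology Set Filter MeasureTheory AS

variable {ι κ Z : Type} [Fintype ι] [Fintype κ] {r : ℕ}

theorem ara_small {a b : ι → ℝ} (h : mkT a = mkT b) (hn : ‖a - b‖ < 1) : a = b := by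
  funext i
  have h1 : ((a i - b i : ℝ) : UnitAddCircle) = 0 := by
    rw [AddCircle.coe_sub]; exact sub_eq_zero.2 (congrFun h i)
  obtain ⟨n, hn'⟩ := (AddCircle.coe_eq_zero_iff _).1 h1
  have h2 : |a i - b i| < 1 := lt_of_le_of_lt (norm_le_pi_norm (a - b) i) hn
  rw [← hn', zsmul_eq_mul, mul_one, ← Int.cast_abs] at h2
  have h3 : n = 0 := Int.abs_lt_one_iff.1 (by exact_mod_cast h2)
  rw [h3, zero_smul] at hn'
  exact sub_eq_zero.1 hn'.symm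

variable [MetricSpace Z] {K B : Set Z} {ν : Z → Tor ι} {e : (ι → ℝ) ≃L[ℝ] κ → ℂ}
  {ψ : HT ℚ K →ₗ[ℚ] ℚ}

/-- one chart of the atlas -/
structure Ara (e : (ι → ℝ) ≃L[ℝ] κ → ℂ) (B : Set Z) (ψ : HT ℚ K →ₗ[ℚ] ℚ) (V : Set Z)
    (t : Z → ι → ℝ) (y : Z → Fin r → ℂ) (U : Set Z) (O : Set (Fin r → ℂ)) (s : (Fin r → ℂ) → Z)
    (F : (Fin r → ℂ) → κ → ℂ) (m : ℝ) : Prop where
  cd : Cd K y U O s
  sub : ∀ q ∈ U ∩ K, q ∈ V ∧ q ∉ B
  val : ∀ q ∈ U ∩ K, F (y q) = e (t q)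
  pt : ∀ q ∈ U ∩ K, ∀ x, IsPt K q y x → (ψ x : ℝ) = m
  hol : ∀ w ∈ O, ContDiffAt ℂ 1 F w
  le : |m| ≤ 1

theorem ara_loc (hK : IsCompact K) (hB : IsCompact B) {p : Z} (hp : p ∈ K \ B) {y : Z → Fin r → ℂ}
    (h : HolAt e K ν p y) (hψ : ∀ x, IsPt K p y x → |ψ x| ≤ 1) {V : Set Z} {t : Z → ι → ℝ}
    (hV : IsOpen V) (pV : p ∈ V) (ht : ContinuousOn t (V ∩ K))
    (hν : ∀ q ∈ V ∩ K, ν q = mkT (t q)) :
    ∃ U O s F m, p ∈ U ∧ Ara e B ψ V t y U O s F m := by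
  obtain ⟨ch, F, hF, ev⟩ := h
  obtain ⟨x₀, hx₀⟩ := ch.exists_isPt
  have mv := ch.move hK
  obtain ⟨U, O, s, cd, pU⟩ := ch
  have eV : ∀ᶠ q in 𝓝[K] p, q ∈ V ∩ K :=
    inter_mem (mem_nhdsWithin_of_mem_nhds (hV.mem_nhds pV)) self_mem_nhdsWithin
  have ct : Tendsto t (𝓝[K] p) (𝓝 (t p)) :=
    (ht p ⟨pV, hp.1⟩).mono_of_mem_nhdsWithin eV
  have cF : Tendsto (fun q => e.symm (F (y q))) (𝓝[K] p) (𝓝 (e.symm (F (y p)))) :=
    (e.symm.continuous.tendsto _).comp (hF.continuousAt.tendsto.comp (cd.tendsto_y pU))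
  set d := t p - e.symm (F (y p)) with hd
  have e1 : ∀ᶠ q in 𝓝[K] p, ‖t q - (e.symm (F (y q)) + d)‖ < 1 := by
    have := (ct.sub (cF.add_const d)).norm
    refine this.eventually_lt_const ?_
    simp [hd]
  have d0 : ∀ i, ((d i : ℝ) : UnitAddCircle) = 0 := fun i => by
    have := congrFun ((hν p ⟨pV, hp.1⟩).symm.trans (ev.self_of_nhdsWithin hp.1)) i
    rw [hd, Pi.sub_apply, AddCircle.coe_sub]
    exact sub_eq_zero.2 this
  have e2 : ∀ᶠ q in 𝓝[K] p, F (y q) + e d = e (t q) := by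
    filter_upwards [e1, ev, eV] with q h1 h2 h3
    rw [ara_small (funext fun i => ?_) h1, map_add, e.apply_symm_apply]
    have := congrFun ((hν q h3).symm.trans h2) i
    change ((t q i : ℝ) : UnitAddCircle) = ((e.symm (F (y q)) i + d i : ℝ) : UnitAddCircle)
    rw [AddCircle.coe_add, d0, add_zero]
    exact this
  have e3 : ∀ᶠ q in 𝓝[K] p, ContDiffAt ℂ 1 F (y q) :=
    (cd.tendsto_y pU).eventually (hF.eventually (by simp))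
  have e4 : ∀ᶠ q in 𝓝[K] p, q ∉ B :=
    mem_nhdsWithin_of_mem_nhds (hB.isClosed.isOpen_compl.mem_nhds hp.2)
  obtain ⟨V', oV', pV', hV'⟩ := mem_nhdsWithin.1 ((eV.and e4).and (e2.and (mv.and e3)))
  have cd' := cd.inter oV'
  refine ⟨U ∩ V', _, s, fun w => F w + e d, ψ x₀, ⟨pU.1, pV'⟩, cd', fun q hq => ?_, fun q hq => ?_,
    fun q hq x hx => ?_, fun w hw => ?_, by exact_mod_cast hψ x₀ hx₀⟩
  · exact ⟨(hV' ⟨hq.1.2, hq.2⟩).1.1.1, (hV' ⟨hq.1.2, hq.2⟩).1.2⟩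
  · exact (hV' ⟨hq.1.2, hq.2⟩).2.1
  · rw [(hV' ⟨hq.1.2, hq.2⟩).2.2.1 x₀ x hx₀ hx]
  · have := (hV' ⟨hw.2, (cd.ms hw.1).2⟩).2.2.2
    rw [cd.ri w hw.1] at this
    exact this.add contDiffAt_const

theorem ara_atlas (hK : IsCompact K) (hB : IsCompact B) (hne : (K \ B).Nonempty)
    (hc : ∀ p ∈ K \ B, ∃ y : Z → Fin r → ℂ, HolAt e K ν p y ∧ ∀ x, IsPt K p y x → |ψ x| ≤ 1)
    (hb : ∀ p ∈ K, Bdd e K ν p r) : ∃ (T : Finset Z) (V : Z → Set Z) (t : Z → Z → ι → ℝ),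
      (∀ j ∈ T, (∀ q ∈ V j ∩ K, ν q = mkT (t j q)) ∧ BdU e K (V j) (t j) r) ∧
      ∃ (j : ℕ → Z) (y : ℕ → Z → Fin r → ℂ) (U : ℕ → Set Z) (O : ℕ → Set (Fin r → ℂ))
        (s : ℕ → (Fin r → ℂ) → Z) (F : ℕ → (Fin r → ℂ) → κ → ℂ) (m : ℕ → ℝ),
        (∀ n, j n ∈ T ∧ Ara e B ψ (V (j n)) (t (j n)) (y n) (U n) (O n) (s n) (F n) (m n)) ∧
        K \ B ⊆ ⋃ n, U n := by
  have : Nonempty Z := ⟨hne.some⟩
  choose! V t oV pV ct hν hU using fun p (hp : p ∈ K) => (hb p hp).unif hp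
  obtain ⟨T, TK, cov⟩ := hK.elim_nhds_subcover V fun p hp => (oV p hp).mem_nhds (pV p hp)
  refine ⟨T, V, t, fun j hj => ⟨hν j (TK j hj), hU j (TK j hj)⟩, ?_⟩
  have key : ∀ p ∈ K \ B, ∃ j y U O s F m, p ∈ U ∧ j ∈ T ∧
      Ara (r := r) e B ψ (V j) (t j) y U O s F m := by
    intro p hp
    obtain ⟨j, hj, pj⟩ := mem_iUnion₂.1 (cov hp.1)
    obtain ⟨y, h1, h2⟩ := hc p hp
    obtain ⟨U, O, s, F, m, h3, h4⟩ := ara_loc hK hB hp h1 h2 (oV j (TK j hj)) pj (ct j (TK j hj))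
      (hν j (TK j hj))
    exact ⟨j, y, U, O, s, F, m, h3, hj, h4⟩
  choose! j y U O s F m pU hj hA using key
  have lin : IsLindelof (K \ B) := by
    have : CompactSpace K := isCompact_iff_compactSpace.1 hK
    have h := (HereditarilyLindelofSpace.isLindelof (Subtype.val ⁻¹' (K \ B) : Set K)).image
      continuous_subtype_val
    rwa [Subtype.image_preimage_coe, inter_eq_right.2 diff_subset] at h
  obtain ⟨C, cC, CK, cov'⟩ := lin.elim_nhds_subcover U fun p hp => (hA p hp).cd.oU.mem_nhds (pU p hp)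
  obtain ⟨g, hg⟩ := cC.exists_eq_range (by
    obtain ⟨c, hc, -⟩ := mem_iUnion₂.1 (cov' hne.some_mem)
    exact ⟨c, hc⟩)
  have gK : ∀ n, g n ∈ K \ B := fun n => CK _ (hg ▸ mem_range_self n)
  refine ⟨j ∘ g, y ∘ g, U ∘ g, O ∘ g, s ∘ g, F ∘ g, m ∘ g, fun n => ⟨hj _ (gK n), hA _ (gK n)⟩,
    fun p hp => ?_⟩
  obtain ⟨c, hc, h⟩ := mem_iUnion₂.1 (cov' hp)
  obtain ⟨n, rfl⟩ : c ∈ range g := hg ▸ hc
  exact mem_iUnion.2 ⟨n, h⟩

/-- a regular point of a fibre is isolated -/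
theorem Ara.isolated {V U : Set Z} {t : Z → ι → ℝ} {y : Z → Fin r → ℂ} {O : Set (Fin r → ℂ)}
    {s : (Fin r → ℂ) → Z} {F : (Fin r → ℂ) → κ → ℂ} {m : ℝ} (h : Ara e B ψ V t y U O s F m)
    {q : Z} (hq : q ∈ U ∩ K) (J : Fin (r * 2) → ι)
    (hd : (fderiv ℝ (fJ e F J) (rl r (y q))).det ≠ 0) : ∀ᶠ u in 𝓝[K] q,
      mkT (fJ e F J (rl r (y u))) = mkT (fJ e F J (rl r (y q))) → u = q := by
  have sm : ContDiffAt ℝ 1 (fJ e F J) (rl r (y q)) :=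
    fJ_smooth (by rw [(rl r).symm_apply_apply]; exact h.hol _ (h.cd.my hq)) J
  have st : HasStrictFDerivAt (fJ e F J)
      ((fderiv ℝ (fJ e F J) (rl r (y q))).toContinuousLinearEquivOfDetNeZero hd :
        (Fin (r * 2) → ℝ) →L[ℝ] Fin (r * 2) → ℝ) (rl r (y q)) :=
    sm.hasStrictFDerivAt one_ne_zero
  have ty : Tendsto (fun u => rl r (y u)) (𝓝[K] q) (𝓝 (rl r (y q))) :=
    ((rl r).continuous.tendsto _).comp (h.cd.tendsto_y hq)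
  have e1 : ∀ᶠ u in 𝓝[K] q, ‖fJ e F J (rl r (y u)) - fJ e F J (rl r (y q))‖ < 1 := by
    refine ((sm.continuousAt.tendsto.comp ty).sub_const _).norm.eventually_lt_const ?_
    simp
  filter_upwards [e1, ty.eventually st.eventually_left_inverse, h.cd.mem_nhdsWithin hq] with
    u h1 h2 h3 h4
  rw [ara_small h4 h1, st.eventually_left_inverse.self_of_nhds] at h2
  rw [← h.cd.li u h3, ← (rl r).injective h2, h.cd.li q hq]

end Pool.Agent.Lib.MP_d3d358_ag.Cw
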