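import Pool.Agent.Lib.MP_d3d358_ag.Cw.HDef

/-! Definitions for the area formula. -/

set_option autoImplicit false

namespace Pool.Agent.Lib.MP_d3d358_ag.Cw

open Topology Set Filter MeasureTheory AS

variable {ι κ Z : Type} [Fintype ι] [Fintype κ] {r : ℕ}

/-- the components `J` of `F` in real coordinates -/
noncomputable def fJ (e : (ι → ℝ) ≃L[ℝ] κ → ℂ) (F : (Fin r → ℂ) → κ → ℂ) (J : Fin (r * 2) → ι)
    (x : Fin (r * 2) → ℝ) : Fin (r * 2) → ℝ := fun k => e.symm (F ((rl r).symm x)) (J k)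

/-- uniform form of `Bdd` on `V ∩ K` -/
def BdU (e : (ι → ℝ) ≃L[ℝ] κ → ℂ) (K V : Set Z) (t : Z → ι → ℝ) (r : ℕ) : Prop :=
  ∃ (u : (κ → ℂ) → κ → ℂ) (c : ℝ), (∀ q ∈ V ∩ K, ContDiffAt ℂ 1 u (e (t q)) ∧ ‖u (e (t q))‖ ≤ c ∧
    ∃ L : (κ → ℂ) →L[ℂ] κ → ℂ, ‖L‖ ≤ c ∧ ∀ v, L (fderiv ℂ u (e (t q)) v) = v) ∧
    ∀ I : Fin r → κ, ∃ (H : MvPolynomial (Fin r) ℂ) (D : ℕ), H ≠ 0 ∧
      ∀ z, MvPolynomial.eval z H ≠ 0 →
        {q | q ∈ V ∩ K ∧ ∀ i, u (e (t q)) (I i) = z i}.encard ≤ D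

variable {e : (ι → ℝ) ≃L[ℝ] κ → ℂ} {F : (Fin r → ℂ) → κ → ℂ} {x : Fin (r * 2) → ℝ}

theorem fJ_real {w : Fin r → ℂ} (h : ContDiffAt ℂ 1 F w) : ContDiffAt ℝ 1 (e.symm ∘ F) w :=
  e.symm.contDiff.contDiffAt.comp w (h.restrict_scalars ℝ)

theorem fJ_smooth (h : ContDiffAt ℂ 1 F ((rl r).symm x)) (J : Fin (r * 2) → ι) :
    ContDiffAt ℝ 1 (fJ e F J) x :=
  contDiffAt_pi.2 fun k => contDiffAt_pi.1
    ((fJ_real (e := e) h).comp x (rl r).symm.contDiff.contDiffAt) (J k)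

theorem fJ_fderiv {w : Fin r → ℂ} (h : ContDiffAt ℂ 1 F w) (v : Fin r → ℂ) :
    fderiv ℝ (e.symm ∘ F) w v = e.symm (fderiv ℂ F w v) := by
  have h1 := (h.differentiableAt one_ne_zero).hasFDerivAt.restrictScalars ℝ
  rw [(e.symm.hasFDerivAt.comp w h1).fderiv]
  rfl

theorem fJ_det (h : ContDiffAt ℂ 1 F ((rl r).symm x)) (J : Fin (r * 2) → ι) :
    (fderiv ℝ (fJ e F J) x).det = mnr (e.symm ∘ F) ((rl r).symm x) J := by
  have h1 := ((fJ_real (e := e) h).differentiableAt one_ne_zero).hasFDerivAt.comp x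
    (rl r).symm.hasFDerivAt
  have h2 : HasFDerivAt (fJ e F J) (ContinuousLinearMap.pi fun k =>
      (ContinuousLinearMap.proj (J k)).comp ((fderiv ℝ (e.symm ∘ F) ((rl r).symm x)).comp
        ((rl r).symm : (Fin (r * 2) → ℝ) →L[ℝ] Fin r → ℂ))) x :=
    hasFDerivAt_pi.2 fun k => hasFDerivAt_pi'.1 h1 (J k)
  rw [h2.fderiv, ContinuousLinearMap.det, ← LinearMap.det_toMatrix', mnr]
  congr 1

end Pool.Agent.Lib.MP_d3d358_ag.Cw
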