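import Mathlib

/-! Maps of bounded multiplicity have bounded mass. -/

set_option autoImplicit false

namespace Pool.Agent.Lib.MP_d3d358_ag.Cw

open Topology Set Filter MeasureTheory

/-- cutting a measurable set into pieces on which a locally injective map is injective -/
theorem msb_cut {E F : Type} [TopologicalSpace E] [SecondCountableTopology E] [MeasurableSpace E]
    [OpensMeasurableSpace E] {s : Set E} (hs : MeasurableSet s) {g : E → F}
    (h : ∀ x ∈ s, ∃ U ∈ 𝓝 x, InjOn g U) : ∃ t : ℕ → Set E, (∀ i, MeasurableSet (t i)) ∧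
      Pairwise (Function.onFun Disjoint t) ∧ ⋃ i, t i = s ∧ ∀ i, InjOn g (t i) := by
  obtain ⟨T, hc, hT, e⟩ := TopologicalSpace.isOpen_sUnion_countable
    {U : Set E | IsOpen U ∧ InjOn g U} fun _ h => h.1
  obtain ⟨u, hu⟩ := (hc.insert ∅).exists_eq_range (insert_nonempty _ _)
  have h1 : ∀ i, IsOpen (u i) ∧ InjOn g (u i) := fun i => by
    rcases (show u i ∈ insert ∅ T from hu ▸ mem_range_self i) with h | h
    · rw [h]; exact ⟨isOpen_empty, injOn_empty g⟩
    · exact hT h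
  refine ⟨fun i => s ∩ disjointed u i, fun i =>
    hs.inter (MeasurableSet.disjointed (fun i => (h1 i).1.measurableSet) i),
    (disjoint_disjointed u).mono fun i j h => h.mono inter_subset_right inter_subset_right, ?_,
    fun i => (h1 i).2.mono (inter_subset_right.trans (disjointed_subset u i))⟩
  rw [← inter_iUnion, iUnion_disjointed, inter_eq_left]
  intro x hx
  obtain ⟨U, hU, hi⟩ := h x hx
  have : x ∈ ⋃₀ T := e ▸ ⟨interior U, ⟨isOpen_interior, hi.mono interior_subset⟩,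
    mem_interior_iff_mem_nhds.2 hU⟩
  obtain ⟨V, hV, hx⟩ := this
  obtain ⟨i, rfl⟩ : V ∈ range u := hu ▸ mem_insert_of_mem _ hV
  exact mem_iUnion.2 ⟨i, hx⟩

variable {N : ℕ} {A : ℕ → Set (Fin N → ℝ)} {f : ℕ → (Fin N → ℝ) → Fin N → ℝ}

theorem msb_inj {g : (Fin N → ℝ) → Fin N → ℝ} {x : Fin N → ℝ} (h : ContDiffAt ℝ 1 g x)
    (hd : (fderiv ℝ g x).det ≠ 0) : ∃ U ∈ 𝓝 x, InjOn g U := by
  have h1 : HasStrictFDerivAt g (((fderiv ℝ g x).toContinuousLinearEquivOfDetNeZero hd :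
      (Fin N → ℝ) ≃L[ℝ] Fin N → ℝ) : (Fin N → ℝ) →L[ℝ] Fin N → ℝ) x := by
    rw [ContinuousLinearMap.coe_toContinuousLinearEquivOfDetNeZero]
    exact h.hasStrictFDerivAt one_ne_zero
  exact ⟨_, h1.eventually_left_inverse, fun a ha b hb e => by
    rw [← (show _ = a from ha), e]; exact hb⟩

theorem mass_le (hA : ∀ n, MeasurableSet (A n)) (hf : ∀ n, ∀ x ∈ A n, ContDiffAt ℝ 1 (f n) x)
    {R : Set (Fin N → ℝ)} (hR : MeasurableSet R) (hm : ∀ n, MapsTo (f n) (A n) R) {D : ℕ}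
    (h : ∀ᵐ z : Fin N → ℝ, {p : ℕ × (Fin N → ℝ) | p.2 ∈ A p.1 ∧ f p.1 p.2 = z}.encard ≤ D) :
    ∑' n, ∫⁻ x in A n, ENNReal.ofReal |(fderiv ℝ (f n) x).det| ≤ D * volume R := by
  have m0 : ∀ n, MeasurableSet {x | (fderiv ℝ (f n) x).det ≠ 0} := fun n =>
    (ContinuousLinearMap.continuous_det.measurable.comp (measurable_fderiv ℝ (f n)))
      (measurableSet_singleton (0 : ℝ)).compl
  choose t t1 t2 t3 t4 using fun n => msb_cut ((hA n).inter (m0 n)) (g := f n)
    fun x hx => msb_inj (hf n x hx.1) hx.2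
  have sA : ∀ n i, t n i ⊆ A n := fun n i =>
    ((subset_iUnion (t n) i).trans (t3 n).subset).trans inter_subset_left
  have d : ∀ n i, ∀ x ∈ t n i, HasFDerivWithinAt (f n) (fderiv ℝ (f n) x) (t n i) x :=
    fun n i x hx => ((hf n x (sA n i hx)).differentiableAt one_ne_zero).hasFDerivAt.hasFDerivWithinAt
  have mi : ∀ p : ℕ × ℕ, MeasurableSet (f p.1 '' t p.1 p.2) := fun p =>
    measurable_image_of_fderivWithin (t1 _ _) (d _ _) (t4 _ _)
  have e1 : ∀ n, ∫⁻ x in A n, ENNReal.ofReal |(fderiv ℝ (f n) x).det| =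
      ∑' i, volume (f n '' t n i) := fun n => by
    rw [← lintegral_inter_add_sdiff _ (A n) (m0 n), ← t3 n, lintegral_iUnion (t1 n) (t2 n),
      setLIntegral_eq_zero ((hA n).diff (m0 n)) fun x hx => by
        simp [show (fderiv ℝ (f n) x).det = 0 from not_not.1 hx.2], add_zero]
    exact tsum_congr fun i =>
      lintegral_abs_det_fderiv_eq_addHaar_image volume (t1 n i) (d n i) (t4 n i)
  simp only [e1]
  rw [← ENNReal.tsum_prod (f := fun n i => volume (f n '' t n i)),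
    tsum_congr fun p => (lintegral_indicator_one (mi p)).symm,
    ← lintegral_tsum fun p => (measurable_one.indicator (mi p)).aemeasurable,
    ← lintegral_indicator_const hR]
  refine lintegral_mono_ae (h.mono fun z hz => ?_)
  by_cases hzR : z ∈ R
  · have e2 : ∑' p : ℕ × ℕ, (f p.1 '' t p.1 p.2).indicator (1 : (Fin N → ℝ) → ENNReal) z =
        ∑' _ : {p : ℕ × ℕ | z ∈ f p.1 '' t p.1 p.2}, (1 : ENNReal) := by
      rw [tsum_subtype _ fun _ => (1 : ENNReal)]
      exact tsum_congr fun p => rfl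
    rw [e2, ENNReal.tsum_set_one, indicator_of_mem hzR]
    choose! x x1 x2 using fun (p : ℕ × ℕ) (hp : z ∈ f p.1 '' t p.1 p.2) => hp
    have := (encard_le_encard_of_injOn (s := {p : ℕ × ℕ | z ∈ f p.1 '' t p.1 p.2})
      (f := fun p => (p.1, x p)) (fun p hp => And.intro (sA _ _ (x1 p hp)) (x2 p hp)) ?_).trans hz
    · exact_mod_cast this
    · rintro ⟨n, i⟩ hp ⟨n', j⟩ hq e
      obtain ⟨rfl, e⟩ := Prod.mk.inj e
      by_contra hn
      exact disjoint_left.1 (t2 n fun e' : i = j => hn (by rw [e'])) (x1 _ hp) (e ▸ x1 _ hq)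
  · rw [indicator_of_notMem hzR, nonpos_iff_eq_zero, ENNReal.tsum_eq_zero]
    refine fun p => indicator_of_notMem ?_ _
    rintro ⟨x, hx, e⟩
    exact hzR (e ▸ hm _ (sA _ _ hx))

end Pool.Agent.Lib.MP_d3d358_ag.Cw
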