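import Pool.Agent.Lib.MP_d3d358_ag.Cw.AreaD
import Pool.Agent.Lib.MP_d3d358_ag.Cw.Mnr
import Pool.Agent.Lib.MP_d3d358_ag.Cw.MsrB

/-! Finite mass on a neighbourhood with bounded fibres. -/

set_option autoImplicit false

namespace Pool.Agent.Lib.MP_d3d358_ag.Cw

open Topology Set Filter MeasureTheory AS

variable {ι κ Z : Type} [Fintype ι] [Fintype κ] {r : ℕ} {e : (ι → ℝ) ≃L[ℝ] κ → ℂ}

theorem Bdd.unif [MetricSpace Z] {K : Set Z} {ν : Z → Tor ι} {p : Z} (h : Bdd e K ν p r)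
    (hp : p ∈ K) : ∃ (V : Set Z) (t : Z → ι → ℝ), IsOpen V ∧ p ∈ V ∧ ContinuousOn t (V ∩ K) ∧
      (∀ q ∈ V ∩ K, ν q = mkT (t q)) ∧ BdU e K V t r := by
  obtain ⟨U, hU, t, u, ct, hν, h1, h2, h3⟩ := h
  have hb : Function.Bijective (fderiv ℂ u (e (t p))) :=
    ⟨h2, (LinearMap.injective_iff_surjective (f := (fderiv ℂ u (e (t p))).toLinearMap)).1 h2⟩
  obtain ⟨D, hD⟩ := ContinuousLinearMap.isUnit_iff_bijective.2 hb
  have c1 : ContinuousAt (fderiv ℂ u) (e (t p)) := h1.continuousAt_fderiv one_ne_zero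
  have c2 : ContinuousAt (fun w => Ring.inverse (fderiv ℂ u w)) (e (t p)) :=
    ContinuousAt.comp (g := Ring.inverse) (hD ▸ NormedRing.inverse_continuousAt D) c1
  set c := max (‖u (e (t p))‖ + 1) (‖Ring.inverse (fderiv ℂ u (e (t p)))‖ + 1)
  have g : ∀ᶠ w in 𝓝 (e (t p)), ContDiffAt ℂ 1 u w ∧ ‖u w‖ ≤ c ∧
      ∃ L : (κ → ℂ) →L[ℂ] κ → ℂ, ‖L‖ ≤ c ∧ ∀ v, L (fderiv ℂ u w v) = v := by
    filter_upwards [h1.eventually (by simp),
      h1.continuousAt.norm.eventually_lt_const (lt_add_one _),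
      c2.norm.eventually_lt_const (lt_add_one _), c1.tendsto (hD ▸ D.nhds)] with w a1 a2 a3 a4
    exact ⟨a1, a2.le.trans (le_max_left _ _), _, a3.le.trans (le_max_right _ _), fun v =>
      congrArg (fun L : (κ → ℂ) →L[ℂ] κ → ℂ => L v) (Ring.inverse_mul_cancel _ a4)⟩
  have hp' : p ∈ U ∩ K := ⟨mem_of_mem_nhds hU, hp⟩
  obtain ⟨V, oV, pV, hV⟩ := mem_nhdsWithin.1
    ((e.continuous.continuousAt.comp_continuousWithinAt (ct p hp')).tendsto g)
  have s : V ∩ interior U ∩ K ⊆ U ∩ K := fun q hq => ⟨interior_subset hq.1.2, hq.2⟩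
  refine ⟨V ∩ interior U, t, oV.inter isOpen_interior, ⟨pV, mem_interior_iff_mem_nhds.2 hU⟩,
    ct.mono s, fun q hq => hν q (s hq), u, c, fun q hq => hV ⟨hq.1.1, s hq⟩, fun I => ?_⟩
  obtain ⟨H, D, h4, h5⟩ := h3 I
  exact ⟨H, D, h4, fun z hz => (encard_mono fun q hq => And.intro (s hq.1) hq.2).trans (h5 z hz)⟩

omit [Fintype ι] in
theorem arm_det {G : (Fin r → ℂ) → κ → ℂ} {x : Fin (r * 2) → ℝ}
    (h : ContDiffAt ℂ 1 G ((rl r).symm x)) (I : Fin r → κ) :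
    (fderiv ℝ (fJ (rl r).symm (fun w i => G w (I i)) id) x).det =
      ‖(Matrix.of fun i k => fderiv ℂ G ((rl r).symm x) (Pi.single k 1) (I i)).det‖ ^ 2 := by
  have h1 : ContDiffAt ℂ 1 (fun w i => G w (I i)) ((rl r).symm x) :=
    contDiffAt_pi.2 fun i => contDiffAt_pi.1 h (I i)
  have h2 : HasFDerivAt (fun w i => G w (I i)) (ContinuousLinearMap.pi fun i =>
      (ContinuousLinearMap.proj (I i)).comp (fderiv ℂ G ((rl r).symm x))) ((rl r).symm x) :=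
    hasFDerivAt_pi.2 fun i => hasFDerivAt_pi'.1 (h.differentiableAt one_ne_zero).hasFDerivAt (I i)
  rw [fJ_det h1, mnr]
  simp only [fJ_fderiv h1, h2.fderiv]
  exact det_rl _

theorem area_mass {K V : Set Z} {t : Z → ι → ℝ} (h : BdU e K V t r)
    {A : ℕ → Set (Fin (r * 2) → ℝ)} (hA : ∀ n, MeasurableSet (A n))
    {F : ℕ → (Fin r → ℂ) → κ → ℂ} {σ : ℕ × (Fin (r * 2) → ℝ) → Z}
    (inj : InjOn σ {p | p.2 ∈ A p.1})
    (hF : ∀ n, ∀ x ∈ A n, σ (n, x) ∈ V ∩ K ∧ ContDiffAt ℂ 1 (F n) ((rl r).symm x) ∧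
      F n ((rl r).symm x) = e (t (σ (n, x)))) (J : Fin (r * 2) → ι) :
    ∑' n, ∫⁻ x in A n, ENNReal.ofReal |(fderiv ℝ (fJ e (F n) J) x).det| ≠ ⊤ := by
  obtain ⟨u, c, h1, h2⟩ := h
  choose H D hH hD using h2
  obtain ⟨C, hC⟩ := minor_le (ι := ι) (κ := κ) r (‖(e.symm : (κ → ℂ) →L[ℝ] ι → ℝ)‖ * c)
  have hu : ∀ n, ∀ x ∈ A n, ContDiffAt ℂ 1 u (F n ((rl r).symm x)) := fun n x hx =>
    (hF n x hx).2.2 ▸ (h1 _ (hF n x hx).1).1
  have hG : ∀ n, ∀ x ∈ A n, ContDiffAt ℂ 1 (u ∘ F n) ((rl r).symm x) := fun n x hx =>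
    (hu n x hx).comp _ (hF n x hx).2.1
  let g : (Fin r → κ) → ℕ → (Fin (r * 2) → ℝ) → Fin (r * 2) → ℝ := fun I n =>
    fJ (rl r).symm (fun w i => (u ∘ F n) w (I i)) id
  have eg : ∀ I n, ∀ x ∈ A n, g I n x = rl r fun i => u (e (t (σ (n, x)))) (I i) :=
    fun I n x hx => by rw [← (hF n x hx).2.2]; rfl
  have hR : IsCompact (rl r '' Metric.closedBall 0 c) :=
    (isCompact_closedBall _ _).image (rl r).continuous
  have m : ∀ I, ∑' n, ∫⁻ x in A n, ENNReal.ofReal |(fderiv ℝ (g I n) x).det| ≠ ⊤ := fun I => by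
    refine ne_top_of_le_ne_top (ENNReal.mul_ne_top (ENNReal.natCast_ne_top (D I))
      hR.measure_lt_top.ne) (mass_le (f := g I) hA (fun n x hx => fJ_smooth (contDiffAt_pi.2 fun i =>
        contDiffAt_pi.1 (hG n x hx) (I i)) _) hR.measurableSet (fun n x hx => ?_) ?_)
    · have a := (h1 _ (hF n x hx).1).2.1
      rw [eg I n x hx]
      exact mem_image_of_mem _ (mem_closedBall_zero_iff.2 ((pi_norm_le_iff_of_nonneg
        ((norm_nonneg _).trans a)).2 fun i => (norm_le_pi_norm _ _).trans a))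
    · filter_upwards [null_poly (hH I)] with z hz
      refine (encard_le_encard_of_injOn (f := σ) (fun p hp => ?_) (inj.mono fun p hp => hp.1)).trans
        (hD I _ hz)
      refine ⟨(hF p.1 p.2 hp.1).1, fun i => ?_⟩
      rw [← hp.2, eg I p.1 p.2 hp.1, (rl r).symm_apply_apply]
  have key : ∀ n, ∀ x ∈ A n, ENNReal.ofReal |(fderiv ℝ (fJ e (F n) J) x).det| ≤
      ENNReal.ofReal C * ∑ I, ENNReal.ofReal |(fderiv ℝ (g I n) x).det| := fun n x hx => by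
    obtain ⟨a1, a2, a3⟩ := hF n x hx
    obtain ⟨-, -, L, b1, b2⟩ := h1 _ a1
    have d := ((hu n x hx).differentiableAt one_ne_zero).hasFDerivAt.comp _
      (a2.differentiableAt one_ne_zero).hasFDerivAt
    have b3 := hC ((e.symm : (κ → ℂ) →L[ℝ] ι → ℝ).comp (L.restrictScalars ℝ))
      ((ContinuousLinearMap.opNorm_comp_le _ _).trans (by
        rw [ContinuousLinearMap.norm_restrictScalars]; gcongr))
      (fderiv ℂ (u ∘ F n) ((rl r).symm x)) J
    rw [← ENNReal.ofReal_sum_of_nonneg fun _ _ => abs_nonneg _,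
      ← ENNReal.ofReal_mul' (Finset.sum_nonneg fun _ _ => abs_nonneg _)]
    refine ENNReal.ofReal_le_ofReal (Eq.trans_le ?_ (b3.trans_eq ?_))
    · rw [fJ_det a2, mnr, d.fderiv, a3]
      simp only [fJ_fderiv a2]
      congr 2
      ext k l
      simp [b2]
    · simp only [g, arm_det (hG n x hx), abs_pow, abs_norm]
  refine ne_top_of_le_ne_top (ENNReal.mul_ne_top (ENNReal.ofReal_ne_top (r := C))
    (ENNReal.sum_ne_top.2 fun I (_ : I ∈ Finset.univ) => m I)) ?_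
  rw [← Summable.tsum_finsetSum fun _ _ => ENNReal.summable, ← ENNReal.tsum_mul_left]
  refine ENNReal.tsum_le_tsum fun n => ?_
  rw [← lintegral_finsetSum (f := fun I x => ENNReal.ofReal |(fderiv ℝ (g I n) x).det|) _
    fun I _ => ENNReal.measurable_ofReal.comp
      (ContinuousLinearMap.continuous_det.measurable.comp (measurable_fderiv ℝ (g I n))).abs,
    ← lintegral_const_mul' _ _ ENNReal.ofReal_ne_top]
  exact setLIntegral_mono' (hA n) (key n)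

end Pool.Agent.Lib.MP_d3d358_ag.Cw
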