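import Pool.Agent.Lib.MP_d3d358_ag.Cw.BallA

/-! The top cohomology of a ball relative to its boundary. -/

set_option autoImplicit false

namespace Pool.Agent.Lib.MP_d3d358_ag.Cw

open Topology Set Filter AS Metric

variable {r : ℕ}

theorem bl_ne_ball {ρ : ℝ} (hρ : 0 < ρ) {b : Ch (Fin r → ℂ) ℚ} (hb : b ∈ N (sphere 0 ρ)) :
    jc id - dC b ∉ N (closedBall (0 : Fin r → ℂ) ρ) := fun h => by
  rcases r.eq_zero_or_pos with rfl | hr
  · have d1 : dC (1 : Ch (Fin 0 → ℂ) ℚ) ∈ N (closedBall 0 ρ) := (Zs ℚ _).one_mem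
    have e : AS.mk 1 d1 = 0 := MV_mk_zero_of (c := b) d1 h
    exact one_ne_zero (smul_one_ne (R := ℚ) (c := 1) ⟨0, mem_closedBall_self hρ.le⟩
      ((one_smul _ _).trans e))
  obtain ⟨θ, hθ, dθ, F⟩ := fib_sphere hr
  obtain ⟨-, -, -, hd, ne, -⟩ := F ρ hρ 0
  have h := N_prj (2 * (r : ℤ) - 1 + 1) h
  rw [map_sub, ← dC_prj, prj_of_mem (by rw [sub_add_cancel]; exact jc_mem _), ← dθ, ← map_sub] at h
  obtain ⟨c, g, -, e, hc⟩ := bl_ball hρ.le (sub_mem hθ (prj_mem _ b)) h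
  rw [hc (by omega), zero_smul, sub_zero] at e
  refine ne (MV_mk_zero_of (c := g) hd ?_)
  have := add_mem (N_mono sphere_subset_closedBall e) (N_prj (2 * (r : ℤ) - 1) hb)
  convert this using 1
  abel

theorem bl_rel {ρ : ℝ} (hρ : 0 < ρ) {a : Ch (Fin r → ℂ) ℚ} (ha : a ∈ DZ (2 * (r : ℤ)))
    (hd : dC a ∈ N (closedBall 0 ρ)) (h0 : a ∈ N (sphere 0 ρ)) :
    ∃ c : ℚ, ∃ G ∈ DZ (2 * (r : ℤ) - 1), G ∈ N (sphere 0 ρ) ∧
      a - c • jc id - dC G ∈ N (closedBall (0 : Fin r → ℂ) ρ) := by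
  obtain ⟨c₀, g, hg, e, hc⟩ := bl_ball hρ.le ha hd
  rcases r.eq_zero_or_pos with rfl | hr
  · exact ⟨c₀, g, hg, by rw [DZ_neg (by simp) hg]; exact zero_mem _, e⟩
  rw [hc (by omega), zero_smul, sub_zero] at e
  obtain ⟨θ, hθ, dθ, F⟩ := fib_sphere hr
  obtain ⟨-, -, -, hd, -, sp⟩ := F ρ hρ 0
  have dg : dC g ∈ N (sphere (0 : Fin r → ℂ) ρ) := by
    simpa using sub_mem h0 (N_mono sphere_subset_closedBall e)
  obtain ⟨c, e'⟩ := sp _ ⟨g, dg, hg, rfl⟩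
  rw [← mk_smul _ _ ((Zs ℚ _).smul_mem hd _), ← sub_eq_zero, ← MV_mk_sub _ _ ((Zs ℚ _).sub_mem dg
    ((Zs ℚ _).smul_mem hd _))] at e'
  have gk := sub_mem hg (Submodule.smul_mem _ c hθ)
  obtain ⟨u, hu, e'⟩ := (mk_eq_zero_iff gk _).1 e'
  refine ⟨c, _, sub_mem gk (MV_dC_mem hu), e', ?_⟩
  rw [map_sub, map_sub, map_smul, dC_dC, dθ]
  convert e using 1
  abel

theorem exists_lam (r : ℕ) : ∃ l : Ch (Fin r → ℂ) ℚ →ₗ[ℚ] ℚ, (∀ v, l (jc fun t => t - v) = 1) ∧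
    ∀ a b (ρ : ℝ), b ∈ N (Metric.ball (0 : Fin r → ℂ) ρ)ᶜ → a - dC b ∈ N univ → l a = 0 := by
  let W : Submodule ℚ (Ch (Fin r → ℂ) ℚ) :=
    { carrier := {a | ∀ᶠ ρ : ℝ in atTop, ∃ b : Ch (Fin r → ℂ) ℚ, b ∈ N (sphere 0 ρ) ∧
        a - dC b ∈ N (closedBall 0 ρ)}
      zero_mem' := Eventually.of_forall fun ρ => ⟨0, zero_mem _, by simp⟩
      add_mem' := fun {a a'} h h' => (h.and h').mono fun ρ ⟨⟨b, h1, h2⟩, b', h3, h4⟩ =>
        ⟨b + b', add_mem h1 h3, by rw [map_add, add_sub_add_comm]; exact add_mem h2 h4⟩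
      smul_mem' := fun c a h => h.mono fun ρ ⟨b, h1, h2⟩ => ⟨c • b, Submodule.smul_mem _ c h1, by
        rw [map_smul, ← smul_sub]; exact Submodule.smul_mem _ c h2⟩ }
  have hW : jc id ∉ W := fun h => by
    obtain ⟨ρ, ⟨b, h1, h2⟩, hρ⟩ := (Eventually.and h (eventually_gt_atTop 0)).exists
    exact bl_ne_ball hρ h1 h2
  have hv : ∀ v : Fin r → ℂ, (jc fun t => t - v) - jc id ∈ W := fun v => by
    rcases r.eq_zero_or_pos with rfl | hr
    · rw [show (fun t : Fin 0 → ℂ => t - v) = id from Subsingleton.elim _ _, sub_self]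
      exact zero_mem _
    obtain ⟨θ, hθ, dθ, -⟩ := fib_sphere hr
    refine (eventually_gt_atTop ‖v‖).mono fun ρ hρ => ?_
    have hc : Continuous fun u : ℝ × (Fin r → ℂ) => u.2 - u.1 • v := by fun_prop
    obtain ⟨b, -, e⟩ := N_homotopy (isCompact_sphere (0 : Fin r → ℂ) ρ)
      ((isCompact_Icc.prod (isCompact_sphere (0 : Fin r → ℂ) ρ)).image hc) hc.continuousOn
      (mapsTo_image _ _) hθ (dθ ▸ jc_null continuousOn_id (by
        rintro _ ⟨⟨s, x⟩, ⟨hs, hx⟩, rfl⟩ h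
        have h1 : x = s • v := sub_eq_zero.1 h
        have h2 : ‖x‖ = ρ := mem_sphere_zero_iff_norm.1 hx
        rw [h1, norm_smul, Real.norm_eq_abs, abs_of_nonneg hs.1] at h2
        nlinarith [hs.2, norm_nonneg v]))
    refine ⟨_, e, ?_⟩
    rw [map_sub, map_sub, dC_dC, dC_pullC, dC_pullC, dθ, pullC_jc, pullC_jc]
    simp only [one_smul, zero_smul, sub_zero, Function.id_comp]
    change _ - (_ - jc id) ∈ _
    rw [sub_self]
    exact zero_mem _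
  obtain ⟨f, f0, hf⟩ := Submodule.exists_le_ker_of_notMem hW
  refine ⟨(f (jc id))⁻¹ • f, fun v => ?_, fun a b ρ h1 h2 => ?_⟩
  · have := hf (hv v)
    rw [LinearMap.mem_ker, map_sub, sub_eq_zero] at this
    rw [LinearMap.smul_apply, this, smul_eq_mul, inv_mul_cancel₀ f0]
  · have : a ∈ W := (eventually_ge_atTop ρ).mono fun R hR => ⟨b, N_mono (fun x hx h => by
      rw [mem_sphere_zero_iff_norm] at hx
      rw [mem_ball_zero_iff] at h
      linarith) h1, N_mono (subset_univ _) h2⟩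
    rw [LinearMap.smul_apply, LinearMap.mem_ker.1 (hf this), smul_zero]

variable {Z : Type} [MetricSpace Z] {K B : Set Z} {p : Z}

/-- a closed ball in a chart -/
theorem Cht.bl_data {y : Z → Fin r → ℂ} (h : Cht K p y) {W : Set Z} (hW : W ∈ 𝓝 p) :
    ∃ ρ > 0, ∃ (σ : (Fin r → ℂ) → Z) (U : Set Z), IsOpen U ∧ σ 0 = p ∧
      ContinuousOn σ (closedBall 0 ρ) ∧ MapsTo σ (closedBall 0 ρ) (W ∩ K) ∧
      (∀ t ∈ closedBall 0 ρ, y (σ t) - y p = t) ∧ ContinuousOn y (σ '' closedBall 0 ρ) ∧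
      U ∩ K = σ '' ball 0 ρ := by
  obtain ⟨U, O, s, c, hp⟩ := h
  have hO := c.oO.mem_nhds (c.my hp)
  have h1 : s ⁻¹' W ∈ 𝓝 (y p) := (c.cs.continuousAt hO).preimage_mem_nhds (by rwa [c.li p hp])
  obtain ⟨ρ, hρ, hs⟩ := nhds_basis_closedBall.mem_iff.1 (inter_mem hO h1)
  have tr : ∀ t ∈ closedBall (0 : Fin r → ℂ) ρ, t + y p ∈ O ∩ s ⁻¹' W := fun t ht =>
    hs (by simpa [dist_eq_norm] using ht)
  obtain ⟨V, hV, eV⟩ := (_root_.continuousOn_iff'.1 c.cy) _ (isOpen_ball (x := y p) (ε := ρ))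
  refine ⟨ρ, hρ, fun t => s (t + y p), V ∩ U, hV.inter c.oU, by simpa using c.li p hp,
    c.cs.comp (by fun_prop) fun t ht => (tr t ht).1,
    fun t ht => ⟨(tr t ht).2, (c.ms (tr t ht).1).2⟩, fun t ht => by simp [c.ri _ (tr t ht).1],
    c.cy.mono ?_, ?_⟩
  · rintro _ ⟨t, ht, rfl⟩
    exact c.ms (tr t ht).1
  · rw [inter_assoc, ← eV]
    ext z
    constructor
    · rintro ⟨h1, h2⟩
      exact ⟨y z - y p, by simpa [dist_eq_norm] using h1, by simpa using c.li z h2⟩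
    · rintro ⟨t, ht, rfl⟩
      have := (tr t (ball_subset_closedBall ht)).1
      exact ⟨by simpa [c.ri _ this, dist_eq_norm] using ht, c.ms this⟩

/-- a homogeneous representative -/
theorem Lc.bl_rep {j : Ch Z ℚ} {k : ℤ} (hj : j ∈ DZ k) {x : HT ℚ K} (h : Lc K p j x) :
    ∃ a ∈ DZ k, (∃ ha : dC a ∈ N K, x = AS.mk a ha) ∧ a ∈ N (K \ {p}) ∧ a - j ∈ ptN (𝓝[K] p) := by
  obtain ⟨a, ⟨ha, rfl⟩, h1, V, hV, h2⟩ := lc_iff.1 h
  have hd : dC (prj k a) ∈ N K := by rw [dC_prj]; exact N_prj _ ha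
  have h3 := N_prj k h2
  rw [map_sub, prj_of_mem hj] at h3
  refine ⟨prj k a, prj_mem _ _, ⟨hd, loc_mk_eq ha hd (loc_glue (sub_mem h1 (N_prj k h1))
    ⟨V, hV, ?_⟩)⟩, N_prj k h1, V, hV, h3⟩
  simpa using sub_mem h2 h3

theorem ball_gen (hK : IsCompact K) {y : Z → Fin r → ℂ} (h : Cht K p y) : ∃ U, IsOpen U ∧ p ∈ U ∧
    ∀ (a : Ch Z ℚ) (ha : dC a ∈ N K), a ∈ DZ (2 * (r : ℤ)) → a ∈ N (K \ U) →
      ∀ x, IsPt K p y x → ∃ c : ℚ, AS.mk a ha = c • x := by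
  obtain ⟨ρ, hρ, σ, U, hU, s0, cs, ms, ri, cy, eU⟩ := h.bl_data univ_mem
  have pU : p ∈ U ∩ K := eU ▸ ⟨0, mem_ball_self hρ, s0⟩
  refine ⟨U, hU, pU.1, fun a ha ak a0 x hx => ?_⟩
  obtain ⟨a₀, k0, ⟨h0, rfl⟩, h1, V, hV, h2⟩ := Lc.bl_rep (jc_mem _) hx
  have mk' : MapsTo σ (closedBall 0 ρ) K := fun t ht => (ms ht).2
  have DK : σ '' closedBall 0 ρ ⊆ K := mk'.image_subset
  have cη : ContinuousOn (fun z => y z - y p) (σ '' closedBall 0 ρ) := cy.sub continuousOn_const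
  obtain ⟨c, G, Gk, G0, e⟩ := bl_rel hρ (pullC_mem σ ak) (dC_pullC σ a ▸ N_pullC cs mk' ha)
    (N_pullC (cs.mono sphere_subset_closedBall) (fun t ht => by
      refine ⟨mk' (sphere_subset_closedBall ht), fun h => ?_⟩
      obtain ⟨t', ht', e⟩ : σ t ∈ σ '' ball 0 ρ := eU ▸ ⟨h, mk' (sphere_subset_closedBall ht)⟩
      have := ri t' (ball_subset_closedBall ht')
      rw [e, ri t (sphere_subset_closedBall ht)] at this
      exact (mem_ball_zero_iff.1 ht').ne (this ▸ mem_sphere_zero_iff_norm.1 ht)) a0)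
  have e1 := N_pullC cη (by rintro _ ⟨t, ht, rfl⟩; simpa only [ri t ht] using ht) e
  rw [map_sub, map_sub, map_smul, pullC_pullC, pullC_jc, ← dC_pullC] at e1
  have e2 := pullC_congr (K' := σ '' closedBall 0 ρ) (f := σ ∘ fun z => y z - y p) (g := id)
    (by rintro _ ⟨t, ht, rfl⟩; simp only [Function.comp, ri t ht, id]) a
  rw [pullC_id] at e2
  have e3 : a₀ - jc (fun z => y z - y p) ∈ N (σ '' closedBall 0 ρ) := loc_glue (p := p)
    (sub_mem (N_mono (sdiff_subset_sdiff_left DK) h1) (jc_null (cη.mono sdiff_subset) (by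
      rintro _ ⟨⟨t, ht, rfl⟩, h⟩ e
      exact h (by rw [← ri t ht, e]; exact s0))))
    ⟨V, nhdsWithin_mono _ DK hV, h2⟩
  have dw : dC (a - c • a₀) ∈ N K := (Zs ℚ _).sub_mem ha ((Zs ℚ _).smul_mem h0 _)
  obtain ⟨g, eg⟩ := MV_fun ((isCompact_closedBall _ _).image_of_continuousOn cs) (hK.diff hU)
    (sub_mem ak (Submodule.smul_mem _ c k0)) (N_mono (union_subset DK sdiff_subset) dw)
    (pullC_mem (fun z => y z - y p) Gk) (zero_mem _) (zero_mem _)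
    (by
      convert sub_mem (sub_mem e1 e2) (Submodule.smul_mem _ c e3) using 1
      rw [smul_sub]
      change _ = _ - c • jc (fun z => y z - y p) - _ - _ - _
      abel)
    (by
      rw [map_zero, sub_zero]
      exact sub_mem a0 (Submodule.smul_mem _ c (N_mono (sdiff_subset_sdiff_right
        (singleton_subset_iff.2 pU.1)) h1)))
    (by
      rw [map_zero, sub_zero, sub_zero]
      refine N_pullC (cη.mono inter_subset_left) ?_ G0
      rintro _ ⟨⟨t, ht, rfl⟩, h⟩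
      simp only [ri t ht]
      refine mem_sphere_zero_iff_norm.2 ((mem_closedBall_zero_iff.1 ht).eq_of_not_lt fun h' => ?_)
      have : σ t ∈ U ∩ K := eU ▸ ⟨t, mem_ball_zero_iff.2 h', rfl⟩
      exact h.2 this.1)
  refine ⟨c, ?_⟩
  rw [← mk_smul _ _ ((Zs ℚ _).smul_mem h0 _), mk_eq_iff]
  refine ⟨g, N_mono (fun z hz => ?_) eg⟩
  by_cases hz' : z ∈ U
  · exact Or.inl (image_mono ball_subset_closedBall (eU ▸ ⟨hz', hz⟩))
  · exact Or.inr ⟨hz, hz'⟩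

end Pool.Agent.Lib.MP_d3d358_ag.Cw
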