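import Pool.Agent.Lib.MP_d3d358_ag.Cw.LocA
import Pool.Agent.Lib.MP_d3d358_ag.AS.Sphere

/-! The top cohomology of a sphere. -/

set_option autoImplicit false

namespace Pool.Agent.Lib.MP_d3d358_ag.Cw

open Topology Set Filter AS

section
variable {Z Z' : Type} [MetricSpace Z] [MetricSpace Z'] {K : Set Z} {K' : Set Z'}

/-- the reduced cohomology in degree `n` has dimension at most one -/
def BlSp (K : Set Z) (n : ℤ) : Prop := ∃ x₀ ∈ Hk (R := ℚ) K n, ∀ x ∈ Hk (R := ℚ) K n,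
  ∃ a b : ℚ, x = a • x₀ + b • 1 ∧ (n ≠ 0 → b = 0)

theorem bl_sp_iff (hK' : IsCompact K') {f : Z' → Z} (hf : ContinuousOn f K') (hb : BijOn f K' K)
    (n : ℤ) : BlSp K' n ↔ BlSp K n := by
  obtain ⟨hi, hs⟩ := pull_bij (R := ℚ) hK' hf hb
  constructor
  · rintro ⟨y₀, hy, h⟩
    obtain ⟨x₀, hx, rfl⟩ := hs n y₀ hy
    refine ⟨x₀, hx, fun x hx => ?_⟩
    obtain ⟨a, b, e, hb⟩ := h _ (pull_mem (f := f) (hf := hf) (hm := hb.mapsTo) hx)
    exact ⟨a, b, hi (by rw [e, map_add, map_smul, map_smul, map_one]), hb⟩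
  · rintro ⟨x₀, hx, h⟩
    refine ⟨pull f hf hb.mapsTo x₀, pull_mem hx, fun y hy => ?_⟩
    obtain ⟨x, hx, rfl⟩ := hs n y hy
    obtain ⟨a, b, e, hb⟩ := h x hx
    exact ⟨a, b, by rw [e, map_add, map_smul, map_smul, map_one], hb⟩

theorem bl_fn (f g : Z → ℚ) (h : ∀ x ∈ K, f x = g x) : fnC f - fnC g ∈ N K :=
  Null_of_zero fun l hl => by
    change fn f l - fn g l = 0
    unfold fn
    split_ifs with e
    · obtain ⟨y, rfl⟩ := List.length_eq_one_iff.1 e
      simp [h y (hl y (by simp))]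
    · simp

omit [MetricSpace Z] in
theorem bl_fn_lin (a b : ℚ) (f : Z → ℚ) :
    a • fnC f + b • (1 : Ch Z ℚ) = fnC fun x => a * f x + b := Alg_ext fun l => by
  change a * fn f l + b * fn 1 l = fn _ l
  unfold fn
  split_ifs with e
  · obtain ⟨y, rfl⟩ := List.length_eq_one_iff.1 e
    simp
  · simp

omit [MetricSpace Z] in
theorem bl_fn_zero : fnC (0 : Z → ℚ) = 0 := by
  have := bl_fn_lin 0 0 (0 : Z → ℚ)
  simp only [zero_smul, add_zero, zero_mul] at this
  exact this.symm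

theorem bl_sp_two {p q : Z} (h : K ⊆ {p, q}) : BlSp K 0 := by
  classical
  have fin : K.Finite := (toFinite _).subset h
  have lc : ∀ f : Z → ℚ, dC (fnC f) ∈ N K := fun f => dC_fnC_mem_N.2 fun x _ => by
    filter_upwards [self_mem_nhdsWithin, mem_nhdsWithin_of_mem_nhds
      ((fin.subset (sdiff_subset (t := {x}))).isClosed.isOpen_compl.mem_nhds
        fun h => h.2 rfl)] with y h1 h2
    rw [show y = x from by_contra fun h => h2 ⟨h1, h⟩]
  let χ : Z → ℚ := fun x => if x = q then 0 else 1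
  refine ⟨AS.mk _ (lc χ), ⟨_, _, fnC_mem _, rfl⟩, ?_⟩
  rintro _ ⟨a, da, ha, rfl⟩
  obtain ⟨f, rfl⟩ : ∃ f, a = fnC f := ⟨_, eq_fnC ha⟩
  refine ⟨f p - f q, f q, ?_, fun h => (h rfl).elim⟩
  have d1 : dC (1 : Ch Z ℚ) ∈ N K := lc 1
  change _ = _ • AS.mk _ (lc χ) + f q • AS.mk 1 d1
  rw [← mk_smul _ _ ((Zs ℚ K).smul_mem (lc χ) _), ← mk_smul _ _ ((Zs ℚ K).smul_mem d1 _),
    ← mk_add _ _ (by rw [bl_fn_lin]; exact lc _)]
  refine MV_mk_congr _ _ ?_
  rw [bl_fn_lin]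
  refine bl_fn _ _ fun x hx => ?_
  by_cases e : x = q
  · simp [χ, e]
  · rcases h hx with rfl | rfl
    · simp [χ, e]
    · exact (e rfl).elim
end

theorem bl_sp_susp {E : Type} [NormedAddCommGroup E] [NormedSpace ℝ E] [FiniteDimensional ℝ E]
    {k : ℤ} (hk : 0 < k) (h : BlSp (Metric.sphere (0 : E) 1) (k - 1)) : BlSp (sphereSusp E) k := by
  have hc : ∀ s : ℝ, Continuous fun x : E => (x, s * (1 - ‖x‖)) := fun s => by fun_prop
  have hB : IsCompact (Metric.closedBall (0 : E) 1) := isCompact_closedBall _ _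
  have hK : ∀ s : ℝ, s = 1 ∨ s = -1 → IsCompact (sphereSusp E ∩ {p | 0 ≤ s * p.2}) :=
    fun s hs => (sphere_bij_half (E := E) s hs).image_eq ▸ hB.image (hc s)
  have hV : ∀ s : ℝ, s = 1 ∨ s = -1 → Van ℚ (sphereSusp E ∩ {p | 0 ≤ s * p.2}) k := fun s hs =>
    (sphere_van_iff hB (hc s).continuousOn (sphere_bij_half s hs) k).1
      (van_starConvex (c := (0 : E)) hB ((convex_closedBall (0 : E) 1).starConvex
        (Metric.mem_closedBall_self zero_le_one)) hk)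
  have hS : sphereSusp E ⊆
      (sphereSusp E ∩ {p | 0 ≤ 1 * p.2}) ∪ (sphereSusp E ∩ {p | 0 ≤ -1 * p.2}) := fun p hp => by
    rcases le_total 0 p.2 with h | h
    · exact Or.inl ⟨hp, by simpa using h⟩
    · exact Or.inr ⟨hp, by simpa using h⟩
  have hq : Continuous fun x : E => (x, (0 : ℝ)) := by fun_prop
  obtain ⟨x₀, hx₀, h⟩ := (bl_sp_iff (isCompact_sphere _ _) hq.continuousOn sphere_bij_equator _).1 h
  obtain ⟨b, hb1, hb2⟩ := exists_bd (R := ℚ) (hK 1 (Or.inl rfl)) (hK (-1) (Or.inr rfl))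
    inter_subset_left inter_subset_left hS k
  refine ⟨(b ⟨x₀, hx₀⟩).1, (b ⟨x₀, hx₀⟩).2, fun u hu => ?_⟩
  obtain ⟨c, hc'⟩ := (hb1 ⟨u, hu⟩).1 ⟨hV 1 (Or.inl rfl) _ (pull_mem hu),
    hV (-1) (Or.inr rfl) _ (pull_mem hu)⟩
  obtain ⟨α, β, e, hβ⟩ := h c.1 c.2
  have z : b (c - α • ⟨x₀, hx₀⟩) = 0 := (hb2 _).2 ⟨β • 1, by
    by_cases e0 : k - 1 = 0
    · rw [e0]; exact Submodule.smul_mem _ β one_mem_Hk
    · rw [hβ e0, zero_smul]; exact zero_mem _, 0, zero_mem _, by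
    rw [map_zero, sub_zero, map_smul, map_one, Submodule.coe_sub, e]
    exact add_sub_cancel_left _ _⟩
  rw [map_sub, map_smul, hc', sub_eq_zero] at z
  exact ⟨α, 0, by rw [zero_smul, add_zero]; exact congrArg Subtype.val z, fun _ => rfl⟩

theorem bl_sp_sphere (n : ℕ) : ∀ {E : Type} [NormedAddCommGroup E] [NormedSpace ℝ E]
    [FiniteDimensional ℝ E] (c : E) {r : ℝ}, 0 < r → Module.finrank ℝ E = n + 1 →
    BlSp (Metric.sphere c r) n := by
  induction n with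
  | zero =>
    intro E _ _ _ c r hr hE
    let e : E ≃L[ℝ] (Fin 0 → ℝ) × ℝ := ContinuousLinearEquiv.ofFinrankEq (by simp [hE])
    obtain ⟨hc, hb⟩ := sphere_bij_radial e c hr
    refine (bl_sp_iff (isCompact_sphere _ _) hc hb _).2
      (bl_sp_two (p := (0, 1)) (q := (0, -1)) fun p hp => ?_)
    have e1 : ‖p.1‖ + |p.2| = 1 := hp
    have e2 : p.1 = 0 := Subsingleton.elim _ _
    rw [e2, norm_zero, zero_add] at e1
    rcases (abs_eq zero_le_one).1 e1 with h | h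
    · exact Or.inl (Prod.ext e2 h)
    · exact Or.inr (Prod.ext e2 h)
  | succ n ih =>
    intro E _ _ _ c r hr hE
    let e : E ≃L[ℝ] (Fin (n + 1) → ℝ) × ℝ := ContinuousLinearEquiv.ofFinrankEq (by simp [hE])
    obtain ⟨hc, hb⟩ := sphere_bij_radial e c hr
    refine (bl_sp_iff (isCompact_sphere _ _) hc hb _).2 (bl_sp_susp (by omega) ?_)
    have := ih (0 : Fin (n + 1) → ℝ) one_pos (by simp)
    rwa [show ((n + 1 : ℕ) : ℤ) - 1 = n by omega]

section
variable {Z : Type} {n : ℕ}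

/-- a primitive of the product of the jumps -/
noncomputable def blTh (h : Z → Fin (n + 1) → ℝ) : Ch Z ℚ :=
  fnC (fun x => if 0 ≤ h x 0 then 1 else 0) * jr fun x => Fin.tail (h x)

variable [MetricSpace Z]

theorem blTh_mem (h : Z → Fin (n + 1) → ℝ) : blTh h ∈ DZ (n : ℤ) := by
  have := mul_mem_DZ (fnC_mem fun x => if 0 ≤ h x 0 then (1 : ℚ) else 0)
    (jr_mem fun x => Fin.tail (h x))
  rwa [zero_add] at this

theorem dC_blTh (h : Z → Fin (n + 1) → ℝ) : dC (blTh h) = jr h := by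
  rw [blTh, dC_mul, dC_jr, mul_zero, add_zero]
  conv_rhs => rw [jr, List.ofFn_succ, List.prod_cons]
  rfl

theorem pullC_blTh {Z' : Type} [MetricSpace Z'] (f : Z' → Z) (h : Z → Fin (n + 1) → ℝ) :
    pullC f (blTh h) = blTh (h ∘ f) := by
  rw [blTh, map_mul, pullC_fnC, pullC_jr]
  rfl

omit [MetricSpace Z] in
theorem bl_scale {m : ℕ} (h : Z → Fin m → ℝ) {t : Z → ℝ} (ht : ∀ x, 0 < t x) :
    jr (fun x => t x • h x) = jr h := by
  unfold jr jp
  simp only [Pi.smul_apply, smul_eq_mul, mul_nonneg_iff_of_pos_left (ht _)]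

omit [MetricSpace Z] in
theorem blTh_scale (h : Z → Fin (n + 1) → ℝ) {t : Z → ℝ} (ht : ∀ x, 0 < t x) :
    blTh (fun x => t x • h x) = blTh h := by
  unfold blTh
  rw [← bl_scale (fun x => Fin.tail (h x)) ht]
  simp only [Pi.smul_apply, smul_eq_mul, mul_nonneg_iff_of_pos_left (ht _)]
  rfl
end

/-- cocycles on a ball -/
theorem bl_ball {E : Type} [NormedAddCommGroup E] [NormedSpace ℝ E] [FiniteDimensional ℝ E]
    {ρ : ℝ} (hρ : 0 ≤ ρ) {k : ℤ} {a : Ch E ℚ} (ha : a ∈ DZ k)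
    (hd : dC a ∈ N (Metric.closedBall (0 : E) ρ)) : ∃ c : ℚ, ∃ g ∈ DZ (k - 1),
      a - c • 1 - dC g ∈ N (Metric.closedBall (0 : E) ρ) ∧ (k ≠ 0 → c = 0) := by
  rcases lt_trichotomy k 0 with h | rfl | h
  · exact ⟨0, 0, zero_mem _, by simp [DZ_neg h ha], fun _ => rfl⟩
  · obtain ⟨c, e⟩ := Hk_zero (convex_closedBall (0 : E) ρ).isPreconnected ⟨a, hd, ha, rfl⟩
    have d1 : dC (1 : Ch E ℚ) ∈ N (Metric.closedBall (0 : E) ρ) := (Zs ℚ _).one_mem
    change _ = c • AS.mk 1 d1 at e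
    rw [← mk_smul _ _ ((Zs ℚ _).smul_mem d1 _), ← sub_eq_zero, ← MV_mk_sub _ _ ((Zs ℚ _).sub_mem hd
      ((Zs ℚ _).smul_mem d1 _))] at e
    obtain ⟨g, hg, e⟩ := (mk_eq_zero_iff (sub_mem ha (Submodule.smul_mem _ c (fnC_mem 1))) _).1 e
    exact ⟨c, g, hg, e, fun h => (h rfl).elim⟩
  · obtain ⟨g, hg, e⟩ := (mk_eq_zero_iff ha hd).1 (van_starConvex (isCompact_closedBall _ _)
      ((convex_closedBall (0 : E) ρ).starConvex (Metric.mem_closedBall_self hρ)) h _
      ⟨a, hd, ha, rfl⟩)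
    exact ⟨0, g, hg, by rwa [zero_smul, sub_zero], fun _ => rfl⟩

/-- from a sphere to the punctured space -/
theorem bl_rad {E : Type} [NormedAddCommGroup E] [NormedSpace ℝ E] {n : ℕ}
    (e : E ≃L[ℝ] (Fin (n + 1) → ℝ)) {ρ : ℝ} (hρ : 0 < ρ) {c : ℚ} {g : Ch E ℚ}
    (h : blTh e - c • 1 - dC g ∈ N (Metric.sphere (0 : E) ρ)) :
    ∃ g', blTh id - c • 1 - dC g' ∈ N ({0}ᶜ : Set (Fin (n + 1) → ℝ)) := by
  classical
  let t : (Fin (n + 1) → ℝ) → ℝ := fun x => if x = 0 then 1 else ρ / ‖e.symm x‖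
  have h0 : ∀ x : Fin (n + 1) → ℝ, x ≠ 0 → 0 < ‖e.symm x‖ := fun x hx => by simpa using hx
  have ht : ∀ x, 0 < t x := fun x => by
    by_cases hx : x = 0
    · simp [t, hx]
    · simp only [t, hx, if_false]; exact div_pos hρ (h0 x hx)
  have hc : ContinuousOn (fun x => t x • e.symm x) {0}ᶜ :=
    ContinuousOn.congr (f := fun x => (ρ / ‖e.symm x‖) • e.symm x)
      ((continuousOn_const.div (by fun_prop) fun x hx => (h0 x hx).ne').smul (by fun_prop))
      fun x hx => by simp only [t, if_neg (show ¬x = 0 from hx)]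
  have := N_pullC hc (fun x hx => by
    simp only [t, if_neg (show ¬x = 0 from hx), mem_sphere_zero_iff_norm, norm_smul,
      Real.norm_eq_abs, abs_of_pos (div_pos hρ (h0 x hx))]
    exact div_mul_cancel₀ _ (h0 x hx).ne') h
  rw [map_sub, map_sub, map_smul, map_one, ← dC_pullC, pullC_blTh] at this
  rw [show (e ∘ fun x => t x • e.symm x) = fun x => t x • id x from funext fun x => by simp,
    blTh_scale id ht] at this
  exact ⟨_, this⟩

theorem bl_ne (n : ℕ) : ∀ (c : ℚ) (g : Ch (Fin (n + 1) → ℝ) ℚ),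
    blTh id - c • 1 - dC g ∉ N ({0}ᶜ : Set (Fin (n + 1) → ℝ)) := by
  induction n with
  | zero =>
    intro c g h
    have h := N_prj 0 h
    have k0 : (blTh id - c • 1 : Ch (Fin (0 + 1) → ℝ) ℚ) ∈ DZ 0 :=
      sub_mem (blTh_mem _) (Submodule.smul_mem _ c (fnC_mem 1))
    rw [map_sub, prj_of_mem k0, show (0 : ℤ) = -1 + 1 from rfl, ← dC_prj, DZ_neg (by omega) (prj_mem _ g), map_zero,
      sub_zero] at h
    have v : ∀ x : Fin 1 → ℝ, x ≠ 0 → (if 0 ≤ x 0 then 1 else 0 : ℚ) = c := fun x hx => by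
      obtain ⟨U, hU, e⟩ := h x hx
      have := e [x] fun y hy => by
        rw [List.mem_singleton.1 hy]; exact ⟨mem_of_mem_nhds hU, hx⟩
      simpa [blTh, jr, Alg_sub, Alg_smul, Alg_one, Alg_fnC, fn, sub_eq_zero] using this
    have a := v 1 one_ne_zero
    have b := v (-1) (neg_ne_zero.2 one_ne_zero)
    simp at a b
    simp [← a] at b
  | succ n ih =>
    intro c g h
    have h := N_prj ((n : ℤ) + 1) h
    have p1 : prj ((n : ℤ) + 1) (1 : Ch (Fin (n + 2) → ℝ) ℚ) = 0 := Alg_ext fun l => by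
      rw [Alg_prj]
      split_ifs with e
      · exact fnC_mem 1 l (by omega)
      · rfl
    rw [map_sub, map_sub, prj_of_mem (k := (n : ℤ) + 1) (blTh_mem id), map_smul, p1, smul_zero,
      sub_zero, ← dC_prj] at h
    have gk := prj_mem (n : ℤ) g
    generalize prj (n : ℤ) g = g at h gk
    let f : ℝ → (Fin (n + 1) → ℝ) → Fin (n + 2) → ℝ := fun s y => Fin.cons (s * (1 - ‖y‖)) y
    have hf : ∀ s, Continuous (f s) := fun s => by
      refine continuous_pi fun i => ?_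
      refine Fin.cases ?_ (fun i => ?_) i
      · simp only [f, Fin.cons_zero]; fun_prop
      · simp only [f, Fin.cons_succ]; fun_prop
    have pl : ∀ s, s ≠ 0 → fnC (fun y => if 0 ≤ s * (1 - ‖y‖) then 1 else 0) * jr id -
        dC (pullC (f s) g) ∈ N (Metric.closedBall (0 : Fin (n + 1) → ℝ) 1) := fun s hs => by
      have := N_pullC (K' := Metric.closedBall 0 1) (K := {0}ᶜ) (hf s).continuousOn
        (fun y _ (hy : f s y = 0) => by
          have h1 : y = 0 := congrArg Fin.tail hy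
          have h2 : s * (1 - ‖y‖) = 0 := congrFun hy 0
          simp [h1, hs] at h2) h
      rwa [map_sub, ← dC_pullC, pullC_blTh] at this
    have q1 : dC (blTh id - pullC (f 1) g) ∈ N (Metric.closedBall (0 : Fin (n + 1) → ℝ) 1) := by
      have := N_mul_right (bl_fn (K := Metric.closedBall (0 : Fin (n + 1) → ℝ) 1)
        (fun y => if 0 ≤ 1 * (1 - ‖y‖) then 1 else 0) 1 fun y hy => if_pos (by
          simpa using hy)) (jr id)
      have := sub_mem (pl 1 one_ne_zero) this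
      rw [sub_mul, show fnC (1 : (Fin (n + 1) → ℝ) → ℚ) = 1 from rfl, one_mul] at this
      rw [map_sub, dC_blTh]
      convert this using 1
      abel
    have q2 : dC (pullC (f (-1)) g) ∈ N (Metric.closedBall (0 : Fin (n + 1) → ℝ) 1) := by
      have : fnC (fun y : Fin (n + 1) → ℝ => if 0 ≤ -1 * (1 - ‖y‖) then (1 : ℚ) else 0) * jr id ∈
          N (Metric.closedBall (0 : Fin (n + 1) → ℝ) 1) := Circle_local fun y _ => by
        by_cases e : y = 0
        · refine ⟨Metric.ball 0 1, mem_nhdsWithin_of_mem_nhds (e ▸ Metric.ball_mem_nhds _ one_pos),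
            N_mul_right ?_ _⟩
          have := bl_fn (K := Metric.ball (0 : Fin (n + 1) → ℝ) 1)
            (fun y => if 0 ≤ -1 * (1 - ‖y‖) then 1 else 0) 0 fun y hy => if_neg (by
              simpa using hy)
          rwa [bl_fn_zero, sub_zero] at this
        · exact ⟨{0}ᶜ, mem_nhdsWithin_of_mem_nhds (isOpen_compl_singleton.mem_nhds e),
            N_mul_left _ (jr_null continuousOn_id fun _ h => h)⟩
      simpa using sub_mem this (pl (-1) (by norm_num))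
    obtain ⟨c1, g1, -, e1, -⟩ := bl_ball zero_le_one (sub_mem (blTh_mem id) (pullC_mem _ gk)) q1
    obtain ⟨c2, g2, -, e2, -⟩ := bl_ball zero_le_one (pullC_mem _ gk) q2
    have e3 := pullC_congr (K' := Metric.sphere (0 : Fin (n + 1) → ℝ) 1) (f := f 1) (g := f (-1))
      (fun y hy => by simp [f, mem_sphere_zero_iff_norm.1 hy]) g
    obtain ⟨g', e⟩ := bl_rad (ContinuousLinearEquiv.refl ℝ _) one_pos (c := c1 + c2) (g := g1 + g2)
      (by
        have := add_mem (add_mem (N_mono Metric.sphere_subset_closedBall e1)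
          (N_mono Metric.sphere_subset_closedBall e2)) e3
        convert this using 1
        rw [map_add, add_smul]
        change blTh id - _ - _ = _
        abel)
    exact ih _ _ e

theorem bl_fib {E : Type} [NormedAddCommGroup E] [NormedSpace ℝ E] [FiniteDimensional ℝ E] {n : ℕ}
    (e : E ≃L[ℝ] (Fin n → ℝ)) (hn : 1 < n) : ∃ θ : Ch E ℚ, θ ∈ DZ ((n : ℤ) - 1) ∧ dC θ = jr e ∧
      ∀ ρ > 0, ∀ m, FibOK (Metric.sphere (0 : E) ρ) (n - 1) m θ := by
  obtain ⟨s, rfl⟩ : ∃ s, n = s + 1 := ⟨n - 1, by omega⟩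
  have fr : Module.finrank ℝ E = s + 1 := by rw [e.toLinearEquiv.finrank_eq]; simp
  have : Nontrivial E := Module.nontrivial_of_finrank_pos (R := ℝ) (by omega)
  rw [show ((s + 1 : ℕ) : ℤ) - 1 = s by omega]
  refine ⟨blTh e, blTh_mem _, dC_blTh _, fun ρ hρ m => ⟨isPreconnected_sphere (by
    rw [← Module.finrank_eq_rank, fr]; exact_mod_cast hn) _ _,
    NormedSpace.sphere_nonempty.2 hρ.le,
    fun k h0 _ h1 => van_sphere ℚ _ hρ h0 (by rw [fr]; omega), ?_⟩⟩
  have hd : dC (blTh e) ∈ N (Metric.sphere (0 : E) ρ) := by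
    rw [dC_blTh]
    exact jr_null e.continuous.continuousOn fun z hz h => by
      rw [map_eq_zero_iff _ e.injective] at h
      simp [h, hρ.ne] at hz
  have ne : AS.mk _ hd ≠ 0 := fun h => by
    obtain ⟨g, -, h⟩ := (mk_eq_zero_iff (blTh_mem _) hd).1 h
    obtain ⟨g', h⟩ := bl_rad e hρ (c := 0) (g := g) (by rwa [zero_smul, sub_zero])
    exact bl_ne _ _ _ h
  refine ⟨hd, ne, fun x hx => ?_⟩
  obtain ⟨x₀, -, h⟩ := bl_sp_sphere s (0 : E) hρ fr
  obtain ⟨a, b, e1, hb⟩ := h _ ⟨_, hd, blTh_mem _, rfl⟩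
  obtain ⟨a', b', e2, hb'⟩ := h x hx
  rw [hb (by omega), zero_smul, add_zero] at e1
  rw [hb' (by omega), zero_smul, add_zero] at e2
  have a0 : a ≠ 0 := fun h => ne (by rw [e1, h, zero_smul])
  exact ⟨a' * a⁻¹, by rw [e1, e2, mul_smul, inv_smul_smul₀ a0]⟩

theorem fib_sphere {r : ℕ} (hr : 0 < r) : ∃ θ : Ch (Fin r → ℂ) ℚ, θ ∈ DZ (2 * (r : ℤ) - 1) ∧
    dC θ = jc id ∧ ∀ ρ > 0, ∀ m, FibOK (Metric.sphere (0 : Fin r → ℂ) ρ) (2 * r - 1) m θ := by
  have := bl_fib (rl r) (by omega)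
  rw [show ((r * 2 : ℕ) : ℤ) = 2 * r by push_cast; ring] at this
  rw [jc_eq]
  exact this

end Pool.Agent.Lib.MP_d3d358_ag.Cw
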