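import Pool.Agent.Lib.MP_d3d358_ag.Cw.Top

/-! Jumps and localised classes: the cochain algebra. -/

set_option autoImplicit false

namespace Pool.Agent.Lib.MP_d3d358_ag.Cw

open Topology Set Filter AS

variable {Z Z' : Type} {r n : ℕ}

theorem jp_mem (t : Z → ℝ) : jp t ∈ DZ 1 := dC_mem (fnC_mem _)

theorem dC_jp (t : Z → ℝ) : dC (jp t) = 0 := dC_dC _

theorem pullC_jp (f : Z' → Z) (t : Z → ℝ) : pullC f (jp t) = jp (t ∘ f) := by
  rw [jp, ← dC_pullC, pullC_fnC]; rfl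

theorem loc_jr (h : Z → Fin n → ℝ) :
    jr h = ((List.finRange n).map fun i => jp fun x => h x i).prod := by
  rw [jr, List.ofFn_eq_map]

theorem jr_mem (h : Z → Fin n → ℝ) : jr h ∈ DZ (n : ℤ) := by
  have := pt_deg (List.finRange n) (a := fun i => jp fun x => h x i) fun i => jp_mem _
  rwa [List.length_finRange, ← loc_jr] at this

theorem jc_eq (y : Z → Fin r → ℂ) : jc y = jr fun z => rl r (y z) := by
  rw [jr, List.ofFn_mul, List.prod_flatten, List.map_ofFn, jc]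
  refine congrArg List.prod (congrArg List.ofFn (funext fun i => ?_))
  have e : ∀ (j : Fin 2) (h), (⟨i * 2 + j, h⟩ : Fin (r * 2)).divNat = i ∧
      (⟨i * 2 + j, h⟩ : Fin (r * 2)).modNat = j := fun j h =>
    ⟨Fin.ext (show (i * 2 + j : ℕ) / 2 = i by omega), Fin.ext (show (i * 2 + j : ℕ) % 2 = j by omega)⟩
  have e2 : ∀ (v : Fin r → ℂ) k, rl r v k =
      if k.modNat = 0 then (v k.divNat).re else (v k.divNat).im := fun _ _ => rfl
  simp only [Function.comp, List.ofFn_succ, List.ofFn_zero, List.prod_cons, List.prod_nil, mul_one,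
    e2, e]
  simp

theorem jc_mem (y : Z → Fin r → ℂ) : jc y ∈ DZ (2 * (r : ℤ)) := by
  have := jr_mem fun z => rl r (y z)
  rwa [← jc_eq, Nat.cast_mul, mul_comm] at this

theorem loc_dC_prod {ι : Type} (L : List ι) {a : ι → Ch Z ℚ} (h : ∀ i, dC (a i) = 0) :
    dC (L.map a).prod = 0 := by
  induction L with
  | nil => exact dC_one
  | cons i L ih => rw [List.map_cons, List.prod_cons, dC_mul, h, ih, zero_mul, mul_zero, add_zero]

theorem dC_jr (h : Z → Fin n → ℝ) : dC (jr h) = 0 := by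
  rw [loc_jr]; exact loc_dC_prod _ fun _ => dC_jp _

theorem dC_jc (y : Z → Fin r → ℂ) : dC (jc y) = 0 := by rw [jc_eq, dC_jr]

theorem pullC_jr (f : Z' → Z) (h : Z → Fin n → ℝ) : pullC f (jr h) = jr (h ∘ f) := by
  rw [loc_jr, loc_jr, map_list_prod, List.map_map]
  exact congrArg List.prod (List.map_congr_left fun i _ => pullC_jp f _)

theorem pullC_jc (f : Z' → Z) (y : Z → Fin r → ℂ) : pullC f (jc y) = jc (y ∘ f) := by
  rw [jc_eq, jc_eq, pullC_jr]; rfl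

theorem jc_append (y : Z → Fin r → ℂ) (y' : Z → Fin n → ℂ) :
    jc (fun z => Fin.append (y z) (y' z)) = jc y * jc y' := by
  have e : ∀ f : Fin (r + n) → Ch Z ℚ, List.ofFn f =
      List.ofFn (fun i => f (Fin.castAdd n i)) ++ List.ofFn fun j => f (Fin.natAdd r j) :=
    fun f => List.ofFn_add
  rw [jc, e, List.prod_append]
  simp only [Fin.append_left, Fin.append_right]
  rfl

theorem jc_snoc (y : Z → Fin r → ℂ) (g : Z → ℂ) : jc (fun z => (Fin.snoc (y z) (g z) :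
    Fin (r + 1) → ℂ)) = jc y * (jp (fun x => (g x).re) * jp fun x => (g x).im) := by
  rw [jc, List.ofFn_succ_last, List.prod_append]
  simp only [Fin.snoc_castSucc, Fin.snoc_last, List.prod_cons, List.prod_nil, mul_one]
  rfl

variable [MetricSpace Z] [MetricSpace Z'] {K : Set Z} {K' : Set Z'} {p : Z}

theorem loc_jp_null {t : Z → ℝ} (hc : ContinuousWithinAt t K p) (h0 : t p ≠ 0) :
    jp t ∈ ptN (𝓝[K] p) := by
  rcases lt_or_gt_of_ne h0 with h | h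
  · exact ⟨_, hc.eventually_lt_const h, pt_const (c := 0) fun x hx => if_neg (not_le.2 hx)⟩
  · exact ⟨_, hc.eventually_const_lt h, pt_const (c := 1) fun x hx => if_pos (le_of_lt hx)⟩

theorem loc_jr_null {h : Z → Fin n → ℝ} (hc : ContinuousWithinAt h K p) (h0 : h p ≠ 0) :
    jr h ∈ ptN (𝓝[K] p) := by
  obtain ⟨i, hi⟩ := Function.ne_iff.1 h0
  obtain ⟨V, hV, e⟩ := loc_jp_null (t := fun x => h x i)
    ((continuous_apply i).continuousAt.comp_continuousWithinAt hc) hi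
  exact ⟨V, hV, loc_jr h ▸ pt_prod_N (List.mem_finRange i) e⟩

theorem jr_null {h : Z → Fin n → ℝ} (hc : ContinuousOn h K) (h0 : ∀ z ∈ K, h z ≠ 0) :
    jr h ∈ N K := Circle_local fun x hx => loc_jr_null (hc x hx) (h0 x hx)

theorem jc_null {y : Z → Fin r → ℂ} (hc : ContinuousOn y K) (h0 : ∀ z ∈ K, y z ≠ 0) :
    jc y ∈ N K := by
  rw [jc_eq]
  exact jr_null ((rl r).continuous.comp_continuousOn hc) fun z hz e =>
    h0 z hz ((map_eq_zero_iff _ (rl r).injective).1 e)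

theorem jp_congr {t t' : Z → ℝ} (e : EqOn t t' K) : jp t - jp t' ∈ N K := by
  rw [jp, jp, ← map_sub, ← Circle_fn_sub]
  exact pt_const (c := 0) fun x hx => by rw [Pi.sub_apply, e hx, sub_self]

theorem jr_congr {h h' : Z → Fin n → ℝ} (e : EqOn h h' K) : jr h - jr h' ∈ N K := by
  rw [loc_jr, loc_jr]
  exact pt_prod_sub _ fun i => jp_congr fun x hx => congrFun (e hx) i

theorem jc_congr {y y' : Z → Fin r → ℂ} (e : EqOn y y' K) : jc y - jc y' ∈ N K := by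
  rw [jc_eq, jc_eq]
  exact jr_congr fun x hx => congrArg (rl r) (e hx)

theorem loc_off {a : Ch Z ℚ} (h : a ∈ N (K \ {p})) {u : Z} (hu : u ≠ p) : a ∈ ptN (𝓝[K] u) :=
  ⟨_, inter_mem_nhdsWithin K (isOpen_compl_singleton.mem_nhds hu), h⟩

theorem loc_at {a : Ch Z ℚ} {U : Set Z} (hU : U ∈ 𝓝 p) (h : a ∈ N (U ∩ K)) : a ∈ ptN (𝓝[K] p) :=
  ⟨_, inter_mem (mem_nhdsWithin_of_mem_nhds hU) self_mem_nhdsWithin, h⟩

theorem loc_at' {a : Ch Z ℚ} (h : a ∈ ptN (𝓝[K] p)) : ∃ U ∈ 𝓝 p, a ∈ N (U ∩ K) := by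
  obtain ⟨V, hV, e⟩ := h
  obtain ⟨U, hU, hs⟩ := mem_nhdsWithin_iff_exists_mem_nhds_inter.1 hV
  exact ⟨U, hU, N_mono hs e⟩

theorem loc_glue {a : Ch Z ℚ} (h : a ∈ N (K \ {p})) (h' : a ∈ ptN (𝓝[K] p)) : a ∈ N K :=
  Circle_local fun x _ => by
    by_cases hx : x = p
    · exact hx ▸ h'
    · exact loc_off h hx

theorem loc_dC {F : Filter Z} {a : Ch Z ℚ} (h : a ∈ ptN F) : dC a ∈ ptN F := by
  obtain ⟨V, hV, e⟩ := h
  exact ⟨V, hV, N_dC e⟩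

theorem loc_cut {b : Ch Z ℚ} {U : Set Z} (hU : U ∈ 𝓝 p) (hb : b ∈ N ((U ∩ K) \ {p})) :
    ∃ c, c ∈ N (K \ {p}) ∧ c - b ∈ ptN (𝓝[K] p) := by
  obtain ⟨C, hC, cl, hs⟩ := exists_mem_nhds_isClosed_subset (interior_mem_nhds.2 hU)
  refine ⟨ptCut C b, Circle_local fun x _ => ?_,
    C, mem_nhdsWithin_of_mem_nhds hC, pt_cut_in b⟩
  by_cases hx : x ∈ C
  · refine ⟨_, inter_mem_nhdsWithin _ (mem_interior_iff_mem_nhds.1 (hs hx)), pt_cut_N (N_mono ?_ hb)⟩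
    exact fun y hy => ⟨⟨hy.2, hy.1.1⟩, hy.1.2⟩
  · exact ⟨_, mem_nhdsWithin_of_mem_nhds (cl.isOpen_compl.mem_nhds hx), pt_cut_out b⟩

theorem loc_mk_eq {a b : Ch Z ℚ} (ha : dC a ∈ N K) (hb : dC b ∈ N K) (h : a - b ∈ N K) :
    AS.mk a ha = AS.mk b hb := (mk_eq_iff ha hb).2 ⟨0, by rwa [map_zero, sub_zero]⟩

theorem loc_mk_zero {a : Ch Z ℚ} (ha : dC a ∈ N K) (h : a ∈ N K) : AS.mk a ha = 0 :=
  (Ideal.Quotient.eq_zero_iff_mem (I := Bs ℚ K)).2 ⟨0, by rwa [map_zero, sub_zero]⟩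

theorem lc_iff {j : Ch Z ℚ} {x : HT ℚ K} : Lc K p j x ↔ ∃ a : Ch Z ℚ,
    (∃ ha : dC a ∈ N K, x = AS.mk a ha) ∧ a ∈ N (K \ {p}) ∧ a - j ∈ ptN (𝓝[K] p) :=
  ⟨fun ⟨a, ha, e, h, _, hU, h'⟩ => ⟨a, ⟨ha, e⟩, h, loc_at hU h'⟩,
    fun ⟨a, ⟨ha, e⟩, h, h'⟩ => ⟨a, ha, e, h, loc_at' h'⟩⟩

theorem Lc.mem {j : Ch Z ℚ} {k : ℤ} (hj : j ∈ DZ k) {x : HT ℚ K} (h : Lc K p j x) :
    x ∈ Hk K k := by
  obtain ⟨a, ⟨ha, rfl⟩, h1, V, hV, h2⟩ := lc_iff.1 h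
  have hd : dC (prj k a) ∈ N K := by rw [dC_prj]; exact N_prj _ ha
  refine ⟨prj k a, hd, prj_mem _ _, loc_mk_eq ha hd (loc_glue (sub_mem h1 (N_prj k h1))
    ⟨V, hV, ?_⟩)⟩
  have := sub_mem h2 (N_prj k h2)
  rwa [map_sub, prj_of_mem hj, sub_sub_sub_cancel_right] at this

theorem IsPt.mem {y : Z → Fin r → ℂ} {x : HT ℚ K} (h : IsPt K p y x) : x ∈ Hk K (2 * (r : ℤ)) :=
  Lc.mem (jc_mem _) h

theorem exists_lc {j : Ch Z ℚ} {U : Set Z} (hU : U ∈ 𝓝 p) (hd : dC j ∈ N (U ∩ K))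
    (h0 : j ∈ N ((U ∩ K) \ {p})) : ∃ x, Lc K p j x := by
  obtain ⟨c, h1, h2⟩ := loc_cut hU h0
  have hc : dC c ∈ N K := loc_glue (N_dC h1) (by
    have := add_mem (loc_dC h2) (loc_at hU hd)
    rwa [map_sub, sub_add_cancel] at this)
  exact ⟨_, lc_iff.2 ⟨c, ⟨hc, rfl⟩, h1, h2⟩⟩

theorem exists_isPt {G : Z → Fin n → ℂ} {U : Set Z} (hU : U ∈ 𝓝 p) (hc : ContinuousOn G (U ∩ K))
    (hi : ∀ q ∈ U ∩ K, G q = G p → q = p) : ∃ x, IsPt K p G x :=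
  exists_lc hU (by rw [dC_jc]; exact zero_mem _)
    (jc_null ((hc.mono sdiff_subset).sub continuousOn_const) fun z hz e =>
      hz.2 (hi z hz.1 (sub_eq_zero.1 e)))

theorem Cht.exists_isPt {y : Z → Fin r → ℂ} (h : Cht K p y) : ∃ x, IsPt K p y x := by
  obtain ⟨U, O, s, c, hp⟩ := h
  exact Cw.exists_isPt (c.oU.mem_nhds hp.1) c.cy fun q hq e => by
    rw [← c.li q hq, e, c.li p hp]

theorem Lc.eq {j j' b : Ch Z ℚ} {U : Set Z} (hU : U ∈ 𝓝 p) (e : j - j' - dC b ∈ N (U ∩ K))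
    (hb : b ∈ N ((U ∩ K) \ {p})) {x x' : HT ℚ K} (h : Lc K p j x) (h' : Lc K p j' x') :
    x = x' := by
  obtain ⟨a, ⟨ha, rfl⟩, h1, h2⟩ := lc_iff.1 h
  obtain ⟨a', ⟨ha', rfl⟩, h1', h2'⟩ := lc_iff.1 h'
  obtain ⟨c, c1, c2⟩ := loc_cut hU hb
  refine (mk_eq_iff ha ha').2 ⟨c, loc_glue (sub_mem (sub_mem h1 h1') (N_dC c1)) ?_⟩
  have := sub_mem (add_mem (sub_mem h2 h2') (loc_at hU e)) (loc_dC c2)
  rw [map_sub] at this
  convert this using 1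
  abel

theorem Lc.unique {j : Ch Z ℚ} {x x' : HT ℚ K} (h : Lc K p j x) (h' : Lc K p j x') : x = x' :=
  Lc.eq (b := 0) univ_mem (by rw [map_zero, sub_zero, sub_self]; exact zero_mem _) (zero_mem _) h h'

theorem Lc.congr {j j' : Ch Z ℚ} {U : Set Z} (hU : U ∈ 𝓝 p) (e : j - j' ∈ N (U ∩ K))
    {x : HT ℚ K} (h : Lc K p j x) : Lc K p j' x := by
  obtain ⟨a, ha, h1, h2⟩ := lc_iff.1 h
  refine lc_iff.2 ⟨a, ha, h1, ?_⟩
  have := add_mem h2 (loc_at hU e)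
  rwa [sub_add_sub_cancel] at this

theorem Lc.smul {j : Ch Z ℚ} {x : HT ℚ K} (h : Lc K p j x) (c : ℚ) : Lc K p (c • j) (c • x) := by
  obtain ⟨a, ha, rfl, h1, U, hU, h2⟩ := h
  have hd : dC (c • a) ∈ N K := by rw [map_smul]; exact Submodule.smul_mem _ c ha
  refine ⟨c • a, hd, (mk_smul c ha hd).symm, Submodule.smul_mem _ c h1, U, hU, ?_⟩
  rw [← smul_sub]; exact Submodule.smul_mem _ c h2

theorem Lc.add {j j' : Ch Z ℚ} {x x' : HT ℚ K} (h : Lc K p j x) (h' : Lc K p j' x') :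
    Lc K p (j + j') (x + x') := by
  obtain ⟨a, ⟨ha, rfl⟩, h1, h2⟩ := lc_iff.1 h
  obtain ⟨a', ⟨ha', rfl⟩, h1', h2'⟩ := lc_iff.1 h'
  have hd : dC (a + a') ∈ N K := by rw [map_add]; exact add_mem ha ha'
  refine lc_iff.2 ⟨a + a', ⟨hd, (mk_add ha ha' hd).symm⟩, add_mem h1 h1', ?_⟩
  rw [add_sub_add_comm]; exact add_mem h2 h2'

theorem Lc.res {j : Ch Z ℚ} {x : HT ℚ K} (h : Lc K p j x) {L : Set Z} (hL : L ⊆ K) :
    Lc L p j (res hL x) := by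
  obtain ⟨a, ha, rfl, h1, U, hU, h2⟩ := h
  exact ⟨a, N_mono hL ha, res_mk hL ha, N_mono (sdiff_subset_sdiff_left hL) h1, U, hU,
    N_mono (inter_subset_inter_right _ hL) h2⟩

theorem Lc.zero {j : Ch Z ℚ} {x : HT ℚ K} (h : Lc K p j x) (hp : p ∉ K) : x = 0 := by
  obtain ⟨a, ha, rfl, h1, -⟩ := h
  rw [sdiff_singleton_eq_self hp] at h1
  exact loc_mk_zero ha h1

theorem loc_sum {ι : Type} (S : Finset ι) {x : ι → HT ℚ K} {a : ι → Ch Z ℚ}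
    (h : ∀ q ∈ S, ∃ ha : dC (a q) ∈ N K, x q = AS.mk (a q) ha) :
    ∃ ha : dC (∑ q ∈ S, a q) ∈ N K, ∑ q ∈ S, x q = AS.mk (∑ q ∈ S, a q) ha := by
  choose ha e using h
  obtain ⟨h', e'⟩ := pt_sum_mk (Finset.univ : Finset S) (a := fun q => a q) fun q => ha q q.2
  have e1 : ∑ q : S, a q = ∑ q ∈ S, a q := Finset.sum_coe_sort S a
  refine ⟨e1 ▸ h', ?_⟩
  rw [← Finset.sum_coe_sort S x, Finset.sum_congr rfl fun (q : S) _ => e q q.2, ← e']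
  exact loc_mk_eq _ _ (by rw [e1, sub_self]; exact zero_mem _)

theorem loc_near {S : Finset Z} {a : Z → Ch Z ℚ} {j : Ch Z ℚ}
    (h : ∀ q ∈ S, a q ∈ N (K \ {q}) ∧ a q - j ∈ ptN (𝓝[K] q)) {u : Z}
    (hu : u ∉ S → j ∈ ptN (𝓝[K] u)) : ∑ q ∈ S, a q - j ∈ ptN (𝓝[K] u) := by
  classical
  by_cases e : u ∈ S
  · rw [← Finset.add_sum_erase _ _ e, add_sub_right_comm]
    exact add_mem (h u e).2 (Submodule.sum_mem _ fun q hq =>
      loc_off (h q (Finset.mem_of_mem_erase hq)).1 (Finset.ne_of_mem_erase hq).symm)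
  · exact sub_mem (Submodule.sum_mem _ fun q hq => loc_off (h q hq).1 fun e' => e (e' ▸ hq)) (hu e)

theorem loc_pull {f : Z' → Z} (hf : ContinuousOn f K') (hm : MapsTo f K' K) {z : Z'} (hz : z ∈ K')
    {a : Ch Z ℚ} (h : a ∈ ptN (𝓝[K] (f z))) : pullC f a ∈ ptN (𝓝[K'] z) := by
  obtain ⟨V, hV, e⟩ := h
  exact ⟨K' ∩ f ⁻¹' V, inter_mem self_mem_nhdsWithin
    ((hf z hz).tendsto_nhdsWithin hm hV),
    N_pullC (hf.mono inter_subset_left) (fun _ h => h.2) e⟩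

theorem Lc.pull {j : Ch Z ℚ} {u : HT ℚ K} (h : Lc K p j u) {f : Z' → Z} (hf : ContinuousOn f K')
    (hm : MapsTo f K' K) {S : Finset Z'} (hS : (S : Set Z') = K' ∩ f ⁻¹' {p}) {x : Z' → HT ℚ K'}
    (hx : ∀ q ∈ S, Lc K' q (pullC f j) (x q)) : pull f hf hm u = ∑ q ∈ S, x q := by
  obtain ⟨a, ⟨ha, rfl⟩, h1, h2⟩ := lc_iff.1 h
  choose! b b1 b2 b3 using fun q hq => lc_iff.1 (hx q hq)
  obtain ⟨hb, e⟩ := loc_sum S b1
  have hd : dC (pullC f a) ∈ N K' := by rw [dC_pullC]; exact N_pullC hf hm ha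
  rw [e, pull_mk f hf hm ha hd]
  symm
  refine loc_mk_eq hb hd (Circle_local fun z hz => loc_near (fun q hq => ⟨b2 q hq, ?_⟩) fun e => ?_)
  · have hq' : q ∈ K' ∩ f ⁻¹' {p} := hS ▸ Finset.mem_coe.2 hq
    have := sub_mem (b3 q hq) (loc_pull hf hm hq'.1 ((show f q = p from hq'.2).symm ▸ h2))
    rwa [map_sub, sub_sub_sub_cancel_right] at this
  · exact loc_pull hf hm hz (loc_off h1 fun e' => e (Finset.mem_coe.1 (hS ▸ ⟨hz, e'⟩)))

theorem Lc.prod {j : Ch Z ℚ} {x : HT ℚ K} (h : Lc K p j x) {q : Z'} {j' : Ch Z' ℚ} {x' : HT ℚ K'}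
    (h' : Lc K' q j' x') : Lc (K ×ˢ K') (p, q) (pullC Prod.fst j * pullC Prod.snd j')
      (p1 K K' x * p2 K K' x') := by
  obtain ⟨a, ha, rfl, h1, U, hU, h2⟩ := h
  obtain ⟨b, hb, rfl, h1', V, hV, h2'⟩ := h'
  have cf : ∀ s : Set (Z × Z'), ContinuousOn Prod.fst s := fun _ => continuous_fst.continuousOn
  have cs : ∀ s : Set (Z × Z'), ContinuousOn Prod.snd s := fun _ => continuous_snd.continuousOn
  have da : dC (pullC Prod.fst a) ∈ N (K ×ˢ K') := by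
    rw [dC_pullC]; exact N_pullC (cf _) (fun _ h => h.1) ha
  have db : dC (pullC Prod.snd b) ∈ N (K ×ˢ K') := by
    rw [dC_pullC]; exact N_pullC (cs _) (fun _ h => h.2) hb
  have hd : dC (pullC Prod.fst a * pullC Prod.snd b) ∈ N (K ×ˢ K') :=
    (Zs ℚ (K ×ˢ K')).mul_mem da db
  refine ⟨_, hd, (mk_mul da db hd).symm, Circle_local fun z hz => ?_, U ×ˢ V,
    prod_mem_nhds hU hV, ?_⟩
  · by_cases e : z.1 = p
    · obtain ⟨W, hW, e'⟩ := loc_pull (cs _) (K' := K ×ˢ K' \ {(p, q)}) (fun _ h => h.1.2) hz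
        (loc_off h1' fun e' => hz.2 (Prod.ext e e'))
      exact ⟨W, hW, N_mul_left _ e'⟩
    · obtain ⟨W, hW, e'⟩ := loc_pull (cf _) (K' := K ×ˢ K' \ {(p, q)}) (fun _ h => h.1.1) hz
        (loc_off h1 e)
      exact ⟨W, hW, N_mul_right e' _⟩
  · have e1 := N_pullC (cf (U ×ˢ V ∩ K ×ˢ K')) (fun _ h => mem_inter h.1.1 h.2.1) h2
    have e2 := N_pullC (cs (U ×ˢ V ∩ K ×ˢ K')) (fun _ h => mem_inter h.1.2 h.2.2) h2'
    have := add_mem (N_mul_right e1 (pullC Prod.snd b)) (N_mul_left (pullC Prod.fst j) e2)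
    rwa [map_sub, map_sub, sub_mul, mul_sub, sub_add_sub_cancel] at this

end Pool.Agent.Lib.MP_d3d358_ag.Cw
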