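import Pool.Agent.Lib.MP_d3d358_ag.Cw.At
import Pool.Agent.Lib.MP_d3d358_ag.Cw.LocA

/-! Charts at a transversal point and the cochains that localise the class of the diagonal. -/

set_option autoImplicit false

namespace Pool.Agent.Lib.MP_d3d358_ag.Cw

open Topology Set Filter AS

/-- `Fin.append` as a continuous linear equivalence -/
noncomputable def capT (k l : ℕ) : ((Fin k → ℂ) × (Fin l → ℂ)) ≃L[ℂ] (Fin (k + l) → ℂ) :=
  LinearEquiv.toContinuousLinearEquiv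
    { Fin.appendEquiv k l with
      map_add' := fun v w => funext fun i => by
        refine Fin.addCases (fun j => ?_) (fun j => ?_) i <;> simp [Fin.appendEquiv]
      map_smul' := fun c v => funext fun i => by
        refine Fin.addCases (fun j => ?_) (fun j => ?_) i <;> simp [Fin.appendEquiv] }

variable {k l c n : ℕ}

theorem capT_apply (v : Fin k → ℂ) (w : Fin l → ℂ) : capT k l (v, w) = Fin.append v w := rfl

theorem capT_symm (v : Fin k → ℂ) (w : Fin l → ℂ) : (capT k l).symm (Fin.append v w) = (v, w) :=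
  (capT k l).symm_apply_apply (v, w)

theorem cap_sub (v v' : Fin k → ℂ) (w w' : Fin l → ℂ) :
    Fin.append v w - Fin.append v' w' = Fin.append (v - v') (w - w') :=
  (map_sub (capT k l) (v, w) (v', w')).symm

theorem cap_dot (v v' : Fin k → ℂ) (w w' : Fin l → ℂ) :
    Fin.append v w ⬝ᵥ Fin.append v' w' = v ⬝ᵥ v' + w ⬝ᵥ w' := by
  simp [dotProduct, Fin.sum_univ_add]

variable {Z Z' : Type} [MetricSpace Z] [MetricSpace Z'] {Rg : Z → (Z → ℂ) → Prop}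
  {φ : HT ℚ (univ : Set Z) →ₗ[ℚ] ℚ} {A B : Set Z} {p : Z}

omit [MetricSpace Z] in
theorem cap_rg {s : Z → Fin k → ℂ} {t : Z → Fin l → ℂ} (hs : ∀ i, Rg p fun z => s z i)
    (ht : ∀ i, Rg p fun z => t z i) (i : Fin (k + l)) :
    Rg p fun z => Fin.append (s z) (t z) i := by
  refine Fin.addCases (fun j => ?_) (fun j => ?_) i
  · simpa using hs j
  · simpa using ht j

theorem cap_chart (h : Man Rg n φ) {s : Z → Fin k → ℂ} {t : Z → Fin l → ℂ} {y : Z → Fin c → ℂ}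
    (hle : k + (l + c) ≤ n) (hs : ∀ i, Rg p fun z => s z i) (ht : ∀ i, Rg p fun z => t z i)
    (hy : ∀ i, Rg p fun z => y z i) (s0 : s p = 0) (t0 : t p = 0)
    (hg : ∀ f, Rg p f → ∃ (α : Z → Fin k → ℂ) (β : Z → Fin l → ℂ) (γ : Z → Fin c → ℂ),
      ContinuousAt α p ∧ ContinuousAt β p ∧ ContinuousAt γ p ∧ ∀ᶠ u in 𝓝 p,
        f u - f p = α u ⬝ᵥ s u + β u ⬝ᵥ t u + γ u ⬝ᵥ (y u - y p)) :
    k + (l + c) = n ∧ At Rg univ p fun z => Fin.append (s z) (Fin.append (t z) (y z)) := by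
  obtain ⟨Y, hY⟩ := h.cht p
  refine hY.of_gen h.shf hle (cap_rg hs (cap_rg ht hy)) fun f hf => ?_
  obtain ⟨α, β, γ, hα, hβ, hγ, e⟩ := hg f hf
  refine ⟨fun u => capT _ _ (α u, capT _ _ (β u, γ u)), ContinuousAt.continuousWithinAt
    ((capT _ _).continuous.continuousAt.comp (hα.prodMk
      ((capT _ _).continuous.continuousAt.comp (hβ.prodMk hγ)))), ?_⟩
  filter_upwards [mem_nhdsWithin_of_mem_nhds e] with u hu
  rw [hu, capT_apply, capT_apply, cap_sub, cap_sub, cap_dot, cap_dot, s0, t0, sub_zero, sub_zero,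
    add_assoc]

theorem cap_data (h : Man Rg n φ) (hp : p ∈ A ∩ B) {y : Z → Fin c → ℂ} (ht : TrAt Rg n A B p y) :
    ∃ (k l : ℕ) (s : Z → Fin k → ℂ) (t : Z → Fin l → ℂ), k + (l + c) = n ∧
      At Rg univ p (fun z => Fin.append (s z) (Fin.append (t z) (y z))) ∧
      At Rg A p (fun z => Fin.append (t z) (y z)) ∧ At Rg B p (fun z => Fin.append (s z) (y z)) ∧
      At Rg (A ∩ B) p y ∧ ∀ᶠ u in 𝓝 p, (u ∈ A ↔ s u = 0) ∧ (u ∈ B ↔ t u = 0) := by
  obtain ⟨k, l, s, t, hle, hs, ht, hy, e, hg⟩ := ht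
  have s0 := e.self_of_nhds.1.1 hp.1
  have t0 := e.self_of_nhds.2.1 hp.2
  obtain ⟨e1, h1⟩ := cap_chart h (by omega) hs ht hy s0 t0 hg
  obtain ⟨-, h2⟩ := cap_chart h (by omega) ht hs hy t0 s0 fun f hf => by
    obtain ⟨α, β, γ, hα, hβ, hγ, e⟩ := hg f hf
    exact ⟨β, α, γ, hβ, hα, hγ, e.mono fun u hu => by rw [hu, add_comm (α u ⬝ᵥ s u)]⟩
  have hA := h1.slice h.shf (subset_univ A) hp.1 (mem_nhdsWithin_of_mem_nhds (e.mono fun _ => And.left))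
  have hB := h2.slice h.shf (subset_univ B) hp.2
    (mem_nhdsWithin_of_mem_nhds (e.mono fun _ => And.right))
  refine ⟨k, l, s, t, e1, h1, hA, hB, hA.slice h.shf inter_subset_left hp ?_, e⟩
  filter_upwards [mem_nhdsWithin_of_mem_nhds e, self_mem_nhdsWithin] with u hu hA
  rw [← hu.2]
  exact and_iff_right hA

theorem cap_dim (h : Man Rg n φ) {A B : Set Z} {a b c : ℕ} {φA : HT ℚ A →ₗ[ℚ] ℚ}
    {φB : HT ℚ B →ₗ[ℚ] ℚ} (hA : Fund Rg A a φA) (hB : Fund Rg B b φB) {p : Z} (hp : p ∈ A ∩ B)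
    {y : Z → Fin c → ℂ} (ht : TrAt Rg n A B p y) : a + b = c + n ∧ At Rg (A ∩ B) p y := by
  obtain ⟨k, l, s, t, e, -, h1, h2, h3, -⟩ := cap_data h hp ht
  have := hA.size h1
  have := hB.size h2
  exact ⟨by omega, h3⟩

/-- the product of two charts -/
theorem cap_cht {L : Set Z'} {q : Z'} {y : Z → Fin k → ℂ} {y' : Z' → Fin l → ℂ} (h : Cht A p y)
    (h' : Cht L q y') : Cht (A ×ˢ L) (p, q) fun u => Fin.append (y u.1) (y' u.2) := by
  obtain ⟨U, O, s, c, hp⟩ := h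
  obtain ⟨U', O', s', c', hq⟩ := h'
  have cT := (capT k l).symm.continuous
  refine ⟨U ×ˢ U', (capT k l).symm ⁻¹' (O ×ˢ O'),
    fun v => (s ((capT k l).symm v).1, s' ((capT k l).symm v).2), ⟨c.oU.prod c'.oU,
      (c.oO.prod c'.oO).preimage cT, ?_, ?_, ?_, ?_, ?_, ?_⟩, ⟨hp.1, hq.1⟩, hp.2, hq.2⟩
  · exact (capT k l).continuous.comp_continuousOn (ContinuousOn.prodMk
      (c.cy.comp continuousOn_fst fun _ h => ⟨h.1.1, h.2.1⟩)
      (c'.cy.comp continuousOn_snd fun _ h => ⟨h.1.2, h.2.2⟩))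
  · intro u h
    rw [mem_preimage, capT_symm]
    exact ⟨c.my ⟨h.1.1, h.2.1⟩, c'.my ⟨h.1.2, h.2.2⟩⟩
  · exact (c.cs.comp cT.fst.continuousOn fun _ h => h.1).prodMk
      (c'.cs.comp cT.snd.continuousOn fun _ h => h.2)
  · exact fun v h => ⟨⟨(c.ms h.1).1, (c'.ms h.2).1⟩, (c.ms h.1).2, (c'.ms h.2).2⟩
  · intro u h
    rw [capT_symm]
    exact Prod.ext (c.li _ ⟨h.1.1, h.2.1⟩) (c'.li _ ⟨h.1.2, h.2.2⟩)
  · intro v h
    rw [c.ri _ h.1, c'.ri _ h.2, ← capT_apply]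
    exact (capT k l).apply_symm_apply v

/-- the product of two point classes -/
theorem cap_pt {L : Set Z'} {q : Z'} {y : Z → Fin k → ℂ} {y' : Z' → Fin l → ℂ} {x : HT ℚ A}
    {x' : HT ℚ L} (h : IsPt A p y x) (h' : IsPt L q y' x') :
    IsPt (A ×ˢ L) (p, q) (fun u => Fin.append (y u.1) (y' u.2)) (p1 A L x * p2 A L x') := by
  have := Lc.prod h h'
  rw [pullC_jc, pullC_jc, ← jc_append] at this
  simp only [IsPt, cap_sub]
  exact this

/-- the equations of the diagonal and the coordinates of `A ∩ B` in the product chart -/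
theorem cap_loc (h : Man Rg n φ) (hp : p ∈ A ∩ B) {y : Z → Fin c → ℂ} (ht : TrAt Rg n A B p y)
    {Y : Z → Fin n → ℂ} (hY : At Rg univ p Y) :
    ∃ (a b : ℕ) (yA : Z → Fin a → ℂ) (yB : Z → Fin b → ℂ)
      (F : (Fin (a + b) → ℂ) → Fin (n + c) → ℂ), a + b = n + c ∧ At Rg A p yA ∧ At Rg B p yB ∧
      ContDiffAt ℂ 1 F (Fin.append (yA p) (yB p)) ∧
      Function.Injective (fderiv ℂ F (Fin.append (yA p) (yB p))) ∧
      (fun u : Z × Z => Fin.append (Y u.2 - Y u.1) (y u.2)) =ᶠ[𝓝[A ×ˢ B] (p, p)]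
        F ∘ fun u => Fin.append (yA u.1) (yB u.2) := by
  obtain ⟨k, l, s, t, e, h0, h1, h2, -, h4⟩ := cap_data h hp ht
  have s0 := h4.self_of_nhds.1.1 hp.1
  have t0 := h4.self_of_nhds.2.1 hp.2
  obtain ⟨Θ, c1, c2, c3⟩ := h0.trans hY
  rw [nhdsWithin_univ] at c3
  let P := (capT (l + c) (k + c)).symm.toContinuousLinearMap
  let P1 := (ContinuousLinearMap.fst ℂ _ _).comp P
  let P2 := (capT k c).symm.toContinuousLinearMap.comp ((ContinuousLinearMap.snd ℂ _ _).comp P)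
  let π := (ContinuousLinearMap.snd ℂ _ _).comp P2
  let iA := (capT k (l + c)).toContinuousLinearMap.comp (ContinuousLinearMap.prod 0 P1)
  let iB := (capT k (l + c)).toContinuousLinearMap.comp (ContinuousLinearMap.prod
    ((ContinuousLinearMap.fst ℂ _ _).comp P2)
    ((capT l c).toContinuousLinearMap.comp (ContinuousLinearMap.prod 0 π)))
  have eπ : ∀ v s' y', π (Fin.append v (Fin.append s' y')) = y' := fun v s' y' => by
    simp [π, P2, P, capT_symm]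
  have eA : ∀ v w, iA (Fin.append v w) = Fin.append 0 v := fun v w => by
    simp [iA, P1, P, capT_symm, capT_apply]
  have eB : ∀ v s' y', iB (Fin.append v (Fin.append s' y')) = Fin.append s' (Fin.append 0 y') :=
    fun v s' y' => by simp [iB, eπ, P2, P, capT_symm, capT_apply]
  set w := Fin.append (Fin.append (t p) (y p)) (Fin.append (s p) (y p)) with hw
  have wA : iA w = Fin.append (s p) (Fin.append (t p) (y p)) := by rw [hw, eA, s0]
  have wB : iB w = Fin.append (s p) (Fin.append (t p) (y p)) := by rw [hw, eB, t0]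
  have dA : ContDiffAt ℂ 1 (Θ ∘ iA) w := ContDiffAt.comp w (wA ▸ c1) iA.contDiff.contDiffAt
  have dB : ContDiffAt ℂ 1 (Θ ∘ iB) w := ContDiffAt.comp w (wB ▸ c1) iB.contDiff.contDiffAt
  have d0 := (c1.differentiableAt one_ne_zero).hasFDerivAt
  set L := fderiv ℂ Θ (Fin.append (s p) (Fin.append (t p) (y p)))
  have d1 : HasFDerivAt (Θ ∘ iA) (L.comp iA) w := HasFDerivAt.comp w (wA ▸ d0) iA.hasFDerivAt
  have d2 : HasFDerivAt (Θ ∘ iB) (L.comp iB) w := HasFDerivAt.comp w (wB ▸ d0) iB.hasFDerivAt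
  refine ⟨l + c, k + c, _, _, capT n c ∘ fun v => ((Θ ∘ iB) v - (Θ ∘ iA) v, π v), by omega, h1, h2,
    (capT n c).contDiff.contDiffAt.comp w ((dB.sub dA).prodMk π.contDiff.contDiffAt), ?_, ?_⟩
  · have d3 : HasFDerivAt (capT n c ∘ fun v => ((Θ ∘ iB) v - (Θ ∘ iA) v, π v)) _ w :=
      (capT n c).hasFDerivAt.comp w ((d2.sub d1).prodMk π.hasFDerivAt)
    rw [← hw, d3.fderiv]
    refine (injective_iff_map_eq_zero _).2 fun v hv => ?_
    obtain ⟨⟨v1, v2⟩, rfl⟩ := (capT (l + c) (k + c)).surjective v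
    obtain ⟨⟨s', y'⟩, rfl⟩ := (capT k c).surjective v2
    rw [capT_apply, capT_apply] at hv ⊢
    have hv' := (map_eq_zero_iff (capT n c) (capT n c).injective).1 hv
    have e1 : y' = 0 := (eπ v1 s' y').symm.trans (congrArg Prod.snd hv')
    have e2 : L (iB _) - L (iA _) = 0 := congrArg Prod.fst hv'
    have e3 := c2 (sub_eq_zero.1 e2)
    rw [eA, eB, e1] at e3
    have e6 := congrArg (capT k (l + c)).symm e3
    rw [capT_symm, capT_symm] at e6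
    obtain ⟨e4, e5⟩ := Prod.mk.inj e6
    rw [e1, e4, ← e5]
    simp only [← capT_apply, Prod.mk_zero_zero, map_zero]
  · have t1 : Tendsto Prod.fst (𝓝[A ×ˢ B] (p, p)) (𝓝 p) :=
      continuous_fst.continuousWithinAt.tendsto
    have t2 : Tendsto Prod.snd (𝓝[A ×ˢ B] (p, p)) (𝓝 p) :=
      continuous_snd.continuousWithinAt.tendsto
    filter_upwards [t1 c3, t2 c3, t1 h4, t2 h4, self_mem_nhdsWithin] with u a1 a2 a3 a4 a5
    change Y u.1 = Θ (Fin.append (s u.1) (Fin.append (t u.1) (y u.1))) at a1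
    change Y u.2 = Θ (Fin.append (s u.2) (Fin.append (t u.2) (y u.2))) at a2
    simp only [Function.comp_apply, eA, eB, eπ, capT_apply]
    rw [a1, a2, a3.1.1 a5.1, a4.2.1 a5.2]

/-! ### cochains -/

theorem cap_l {F : Filter Z} (a : Ch Z ℚ) {b : Ch Z ℚ} (h : b ∈ ptN F) : a * b ∈ ptN F := by
  obtain ⟨V, hV, e⟩ := h
  exact ⟨V, hV, N_mul_left a e⟩

theorem cap_r {F : Filter Z} {a : Ch Z ℚ} (h : a ∈ ptN F) (b : Ch Z ℚ) : a * b ∈ ptN F := by
  obtain ⟨V, hV, e⟩ := h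
  exact ⟨V, hV, N_mul_right e b⟩

theorem cap_sg {F : Filter Z} {a : Ch Z ℚ} (h : a ∈ ptN F) : sg a ∈ ptN F := by
  obtain ⟨V, hV, e⟩ := h
  exact ⟨V, hV, N_sg e⟩

theorem cap_open (a : Ch Z ℚ) : IsOpen {z | a ∈ ptN (𝓝 z)} :=
  isOpen_iff_mem_nhds.2 fun _ ⟨V, hV, e⟩ =>
    mem_of_superset (eventually_mem_nhds_iff.2 hV) fun _ h => ⟨V, h, e⟩

theorem cap_null (a : Ch Z ℚ) : a ∈ N {z | a ∈ ptN (𝓝 z)} :=
  Circle_local fun _ ⟨V, hV, e⟩ => ⟨V, mem_nhdsWithin_of_mem_nhds hV, e⟩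

/-- a cochain on an open set with closed support extends by zero -/
theorem cap_cut {G F W : Set Z} (hG : IsOpen G) (hF : IsClosed F) (hFG : F ⊆ G) {a : Ch Z ℚ}
    (h : ∀ u ∈ G, u ∉ F → a ∈ ptN (𝓝[W] u)) : ∃ g : Ch Z ℚ,
      (∀ u ∈ G, g - a ∈ ptN (𝓝[W] u)) ∧ ∀ u, u ∉ F → g ∈ ptN (𝓝[W] u) := by
  obtain ⟨E, oE, h1, h2⟩ := normal_exists_closure_subset hF hG hFG
  have key : ∀ u ∈ G, u ∉ F → ptCut (closure E) a ∈ ptN (𝓝[W] u) := fun u hu hn => by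
    obtain ⟨V, hV, e⟩ := h u hu hn
    exact ⟨V, hV, pt_cut_N e⟩
  refine ⟨ptCut (closure E) a, fun u hu => ?_, fun u hu => ?_⟩
  · by_cases e : u ∈ F
    · exact ⟨_, mem_nhdsWithin_of_mem_nhds (mem_of_superset (oE.mem_nhds (h1 e)) subset_closure),
        pt_cut_in a⟩
    · exact sub_mem (key u hu e) (h u hu e)
  · by_cases e : u ∈ G
    · exact key u e hu
    · exact ⟨_, mem_nhdsWithin_of_mem_nhds (isClosed_closure.isOpen_compl.mem_nhds fun h =>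
        e (h2 h)), pt_cut_out a⟩

theorem cap_far {ε : ℝ} {u : Z × Z} (h : ε < dist u.1 u.2) :
    {u : Z × Z | ε ≤ dist u.1 u.2} ∈ 𝓝 u :=
  mem_of_superset ((isOpen_lt continuous_const continuous_dist).mem_nhds h) fun _ h => show ε ≤ _ from le_of_lt h

theorem cap_near (hA : IsCompact A) (hB : IsCompact B) {O : Set Z} (hO : IsOpen O)
    (h : A ∩ B ⊆ O) : ∀ᶠ ε in 𝓝[>] (0 : ℝ), ∀ u ∈ A ×ˢ B, dist u.1 u.2 ≤ ε → u.2 ∈ O := by
  obtain ⟨δ, hδ, e⟩ := (hA.prod (hB.diff hO)).exists_forall_le' (f := fun u => dist u.1 u.2)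
    (a := 0) continuous_dist.continuousOn fun u hu =>
      dist_pos.2 fun e => hu.2.2 (h ⟨e ▸ hu.1, hu.2.1⟩)
  filter_upwards [mem_nhdsWithin_of_mem_nhds (Iio_mem_nhds hδ)] with ε hε u hu hd
  by_contra hn
  exact absurd ((e u ⟨hu.1, hu.2, hn⟩).trans hd) (not_le.2 hε)

theorem cap_mul {W : Set (Z × Z)} {ε : ℝ} {t : Ch (Z × Z) ℚ} {a : Ch Z ℚ} {u : Z × Z}
    (ht : ε < dist u.1 u.2 → t ∈ ptN (𝓝[W] u)) (ha : dist u.1 u.2 ≤ ε → a ∈ ptN (𝓝 u.2)) :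
    t * pullC Prod.snd a ∈ ptN (𝓝[W] u) := by
  rcases le_or_gt (dist u.1 u.2) ε with h | h
  · exact cap_l _ (ptN_pull continuous_snd W (ha h))
  · exact cap_r (ht h) _

theorem cap_coc {W : Set (Z × Z)} {ε : ℝ} {t : Ch (Z × Z) ℚ} {a : Ch Z ℚ} (dt : dC t ∈ N W)
    (ht : t ∈ N {u : Z × Z | ε ≤ dist u.1 u.2})
    (ha : ∀ u ∈ W, dist u.1 u.2 ≤ ε → dC a ∈ ptN (𝓝 u.2)) : dC (t * pullC Prod.snd a) ∈ N W := by
  rw [dC_mul, dC_pullC]
  exact add_mem (N_mul_right dt _) (Circle_local fun u hu => cap_mul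
    (fun h => ⟨_, mem_nhdsWithin_of_mem_nhds (cap_far h), N_sg ht⟩) (ha u hu))

/-- the product of the class of the diagonal with a class localised on `A ∩ B` -/
theorem cap_one {W : Set (Z × Z)} {U C : Set Z} {ε : ℝ} {t b J : Ch (Z × Z) ℚ} {a j : Ch Z ℚ}
    (hC : IsClosed C) (hU : IsOpen U) (hp : p ∈ U)
    (hCU : ∀ u : Z × Z, u.2 ∈ C → dist u.1 u.2 ≤ ε → u ∈ U ×ˢ U)
    (ht : t ∈ N {u : Z × Z | ε ≤ dist u.1 u.2})
    (hb : b ∈ N ((U ×ˢ U) ∩ {u : Z × Z | ε ≤ dist u.1 u.2})) (e : t - J - dC b ∈ N (U ×ˢ U))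
    (hJ : ∀ u ∈ U ×ˢ U, u.1 ≠ u.2 → J ∈ ptN (𝓝 u)) (a1 : a ∈ N Cᶜ) (a2 : a - j ∈ ptN (𝓝 p))
    (a3 : ∀ u ∈ W, dist u.1 u.2 ≤ ε → dC a ∈ ptN (𝓝 u.2))
    (a4 : ∀ z, (z, z) ∈ W → z ≠ p → a ∈ ptN (𝓝 z)) {η : HT ℚ W}
    (hη : Lc W (p, p) (J * pullC Prod.snd j) η) (hd : dC (t * pullC Prod.snd a) ∈ N W) :
    AS.mk (t * pullC Prod.snd a) hd = η := by
  obtain ⟨m, ⟨hm, rfl⟩, m1, m2⟩ := lc_iff.1 hη
  have hG := hU.prod hU
  have a5 : ∀ u : Z × Z, ¬(u.2 ∈ C ∧ dist u.1 u.2 ≤ ε) → dist u.1 u.2 ≤ ε → a ∈ ptN (𝓝 u.2) :=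
    fun u hn h => ⟨_, hC.isOpen_compl.mem_nhds fun hc => hn ⟨hc, h⟩, a1⟩
  have b1 : ∀ u ∈ U ×ˢ U, ε < dist u.1 u.2 → b ∈ ptN (𝓝[W] u) := fun u hu h =>
    ⟨_, mem_nhdsWithin_of_mem_nhds (inter_mem (hG.mem_nhds hu) (cap_far h)), hb⟩
  obtain ⟨g, g1, g2⟩ := cap_cut (W := W) (F := {u : Z × Z | u.2 ∈ C ∧ dist u.1 u.2 ≤ ε}) hG
    ((hC.preimage continuous_snd).inter (isClosed_le continuous_dist continuous_const))
    (fun u hu => hCU u hu.1 hu.2) (a := b * pullC Prod.snd a)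
    fun u hu hn => cap_mul (b1 u hu) (a5 u hn)
  refine (mk_eq_iff hd hm).2 ⟨g, Circle_local fun u hu => ?_⟩
  change _ ∈ ptN (𝓝[W] u)
  by_cases hu' : u ∈ U ×ˢ U
  · have c1 : J * pullC Prod.snd a - m ∈ ptN (𝓝[W] u) := by
      by_cases h : u = (p, p)
      · subst h
        have := sub_mem (cap_l J (ptN_pull continuous_snd W (z := (p, p)) a2)) m2
        rwa [map_sub, mul_sub, sub_sub_sub_cancel_right] at this
      · refine sub_mem ?_ (loc_off m1 h)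
        by_cases h' : u.1 = u.2
        · refine cap_l J (ptN_pull continuous_snd W (a4 u.2 ?_ fun h2 => h ?_))
          · rwa [show (u.2, u.2) = u from Prod.ext h'.symm rfl]
          · exact Prod.ext (h'.trans h2) h2
        · obtain ⟨V, hV, e⟩ := hJ u hu' h'
          exact cap_r ⟨V, mem_nhdsWithin_of_mem_nhds hV, e⟩ _
    have c2 : (t - J - dC b) * pullC Prod.snd a ∈ ptN (𝓝[W] u) :=
      cap_r ⟨_, mem_nhdsWithin_of_mem_nhds (hG.mem_nhds hu'), e⟩ _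
    have c3 : sg b * pullC Prod.snd (dC a) ∈ ptN (𝓝[W] u) :=
      cap_mul (fun h => cap_sg (b1 u hu' h)) (a3 u hu)
    have := sub_mem (sub_mem (add_mem c1 c2) c3) (loc_dC (g1 u hu'))
    rw [map_sub, dC_mul, dC_pullC, sub_mul, sub_mul] at this
    convert this using 1
    abel
  · have hn : ¬(u.2 ∈ C ∧ dist u.1 u.2 ≤ ε) := fun h => hu' (hCU u h.1 h.2)
    exact sub_mem (sub_mem (cap_mul (fun h => ⟨_, mem_nhdsWithin_of_mem_nhds (cap_far h), ht⟩)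
      (a5 u hn)) (loc_off m1 fun h => hu' (h ▸ ⟨hp, hp⟩))) (loc_dC (g2 u hn))

end Pool.Agent.Lib.MP_d3d358_ag.Cw
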