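import Pool.Agent.Lib.MP_d3d358_ag.Cw.Cls
import Pool.Agent.Lib.MP_d3d358_ag.Cw.Push
import Pool.Agent.Lib.MP_d3d358_ag.Cw.PntQ

/-! Correspondences act on cohomology; a Frobenius isomorphism gives a graded ring isomorphism. -/

set_option autoImplicit false

namespace Pool.Agent.Lib.MP_d3d358_ag.Cw

open CategoryTheory AlgebraicGeometry MonoidalCategory CartesianMonoidalCategory Order Topology Set
  Filter AS

variable {V W F X Y Z X' Y' : Sch} {r n m l : ℕ}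

/-- finite sums of homogeneous classes -/
noncomputable def Fn (W : Sch) : Submodule ℚ (HW W) := ⨆ k : ℤ, Hd W k

/-- left multiplication -/
noncomputable def fnL (x : HW W) : HW W →ₗ[ℚ] HW W where
  toFun y := x * y
  map_add' := mul_add x
  map_smul' c y := mul_smul_comm c x y

/-- right multiplication -/
noncomputable def fnR (y : HW W) : HW W →ₗ[ℚ] HW W where
  toFun x := x * y
  map_add' x x' := add_mul x x' y
  map_smul' c x := smul_mul_assoc c x y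

theorem fn_of {k : ℤ} {x : HW W} (h : x ∈ Hd W k) : x ∈ Fn W := Submodule.mem_iSup_of_mem k h

theorem fn_evn {x : HW W} (h : x ∈ Evn W) : x ∈ Fn W :=
  (iSup_le fun k => le_iSup (Hd W) (2 * k) : Evn W ≤ Fn W) h

theorem fn_ext {M : Type} [AddCommMonoid M] [Module ℚ M] {φ ψ : HW W →ₗ[ℚ] M}
    (h : ∀ k, ∀ x ∈ Hd W k, φ x = ψ x) {x : HW W} (hx : x ∈ Fn W) : φ x = ψ x :=
  (iSup_le fun k x hx => h k x hx : Fn W ≤ LinearMap.eqLocus φ ψ) hx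

theorem fn_map {T : HW W →ₗ[ℚ] HW V} (h : ∀ k, ∀ x ∈ Hd W k, T x ∈ Fn V) {x : HW W}
    (hx : x ∈ Fn W) : T x ∈ Fn V :=
  (iSup_le fun k x hx => h k x hx : Fn W ≤ (Fn V).comap T) hx

theorem fn_mul {x y : HW W} (hx : x ∈ Fn W) (hy : y ∈ Fn W) : x * y ∈ Fn W :=
  fn_map (T := fnR y) (fun _ x hx =>
    fn_map (T := fnL x) (fun _ _ hy => fn_of (mul_mem_Hk hx hy)) hy) hx

theorem fn_pb (f : V ⟶ W) {x : HW W} (hx : x ∈ Fn W) : pb f x ∈ Fn V :=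
  fn_map (T := (pb f).toLinearMap) (fun _ _ hx => fn_of (pb_mem f hx)) hx

theorem fn_comm [Gd W] {α x : HW W} (h : α ∈ Evn W) (hx : x ∈ Fn W) : α * x = x * α :=
  fn_ext (φ := fnL α) (ψ := fnR α) (fun _ _ hx => evn_comm h hx) hx

theorem Rep.fn {c : Cyc W.left} {α u : HW W} (h : Rep c α) (hu : u ∈ Fn W) :
    ev c u = tp W (α * u) :=
  fn_ext (ψ := tp W ∘ₗ fnL α) h.2 hu

/-- linear maps on a product are determined by their values on cross products -/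
theorem Sq.fn_ext {f : V ⟶ W} {g : V ⟶ F} (h : Sq f g) [Gd W] [Gd F] {M : Type} [AddCommMonoid M]
    [Module ℚ M] {φ ψ : HW V →ₗ[ℚ] M}
    (e : ∀ i j, ∀ x ∈ Hd W i, ∀ y ∈ Hd F j, φ (pb f x * pb g y) = ψ (pb f x * pb g y))
    {u : HW V} (hu : u ∈ Fn V) : φ u = ψ u :=
  Cw.fn_ext (fun k u hu => (Submodule.span_le.2 (by
    rintro _ ⟨i, j, -, x, hx, y, hy, rfl⟩
    exact e i j x hx y hy) : _ ≤ LinearMap.eqLocus φ ψ) (h.span k hu)) hu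

theorem Sq.fn_tp {f : V ⟶ W} {g : V ⟶ F} (h : Sq f g) [Gd V] [Gd W] [Gd F] [IsIntegral W.left]
    [IsIntegral F.left] {x : HW W} {y : HW F} (hx : x ∈ Fn W) (hy : y ∈ Fn F) :
    Cw.tp V (pb f x * pb g y) = Cw.tp W x * Cw.tp F y :=
  Cw.fn_ext (φ := Cw.tp V ∘ₗ fnR (pb g y) ∘ₗ (pb f).toLinearMap)
    (ψ := LinearMap.mulRight ℚ (Cw.tp F y) ∘ₗ Cw.tp W) (fun _ x hx =>
      Cw.fn_ext (φ := Cw.tp V ∘ₗ fnL (pb f x) ∘ₗ (pb g).toLinearMap)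
        (ψ := LinearMap.mulLeft ℚ (Cw.tp W x) ∘ₗ Cw.tp F) (fun _ _ hy => h.tp hx hy) hy) hx

/-- a class that pairs with one degree only is homogeneous -/
theorem fn_deg [Gd W] (h : Mf W n) {w : HW W} (hw : w ∈ Fn W) (s : Set ℤ)
    (h0 : ∀ k ∉ s, ∀ y ∈ Hd W (2 * n - k), tp W (w * y) = 0) : w ∈ ⨆ k ∈ s, Hd W k := by
  classical
  obtain ⟨f, hf, rfl⟩ := (Submodule.mem_iSup_iff_exists_finsupp _ _).1 hw
  refine Submodule.sum_mem _ fun k hk => ?_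
  by_cases hs : k ∈ s
  · exact (le_iSup₂ (f := fun k (_ : k ∈ s) => Hd W k) k hs) (hf k)
  · refine absurd (pd_zero h.man (hf k) fun y hy => ?_) (Finsupp.mem_support_iff.1 hk)
    have e := h0 k hs y hy
    change (tp W ∘ₗ fnR y) _ = 0 at e
    rw [Finsupp.sum, map_sum] at e
    have e' : tp W (f k * y) = 0 := (Finset.sum_eq_single_of_mem k hk
      fun j _ hj => h.man.fund.deg _ (by omega) _ (mul_mem_Hk (hf j) hy)).symm.trans e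
    rw [comm hy (hf k), map_zsmul, e', smul_zero]

theorem fn_eq [Gd W] (h : Mf W n) {w w' : HW W} (hw : w ∈ Fn W) (hw' : w' ∈ Fn W)
    (e : ∀ k, ∀ y ∈ Hd W k, tp W (w * y) = tp W (w' * y)) : w = w' := by
  have := fn_deg h (Submodule.sub_mem _ hw hw') ∅ fun k _ y hy => by rw [sub_mul, map_sub, e _ y hy, sub_self]
  simpa [sub_eq_zero] using this

/-- `T` is the action of the correspondence `a` -/
structure IsOp (a : Cyc (X ⊗ Y).left) (T : HW X →ₗ[ℚ] HW Y) : Prop where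
  mem : ∀ x ∈ Fn X, T x ∈ Fn Y
  pair : ∀ x ∈ Fn X, ∀ y ∈ Fn Y, tp Y (T x * y) = ev a (pb (fst X Y) x * pb (snd X Y) y)

theorem IsOp.eq [Gd Y] (hY : Mf Y m) {a : Cyc (X ⊗ Y).left} {T : HW X →ₗ[ℚ] HW Y} (h : IsOp a T)
    {x : HW X} (hx : x ∈ Fn X) {w : HW Y} (hw : w ∈ Fn Y)
    (e : ∀ k, ∀ y ∈ Hd Y k, ev a (pb (fst X Y) x * pb (snd X Y) y) = tp Y (w * y)) : T x = w :=
  fn_eq hY (h.mem x hx) hw fun k y hy => (h.pair x hx y (fn_of hy)).trans (e k y hy)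

/-- integration along the first factor -/
theorem exists_I [Gd X] [Gd Y] (hX : Mf X n) : ∃ I : HW (X ⊗ Y) →ₗ[ℚ] HW Y,
    (∀ u ∈ Fn (X ⊗ Y), I u ∈ Fn Y) ∧ ∀ (V Q : Sch) [Gd V] [Gd Q] [IsIntegral Q.left]
      (f : V ⟶ X ⊗ Y) (g : V ⟶ Q) (k : Q ⟶ Y), Sq (f ≫ fst X Y) g → f ≫ snd X Y = g ≫ k →
      ∀ u ∈ Fn (X ⊗ Y), ∀ v ∈ Fn Q, tp V (pb f u * pb g v) = tp Q (pb k (I u) * v) := by
  obtain ⟨I, hI⟩ := (sq_prod X Y).int (tp X)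
  have := hX.int
  refine ⟨I, fun u hu => fn_map (fun k u hu => (Submodule.span_le.2 ?_ : _ ≤ (Fn Y).comap I)
    ((sq_prod X Y).span k hu)) hu, fun V Q _ _ _ f g k hs e u hu v hv => ?_⟩
  · rintro _ ⟨i, j, -, x, hx, y, hy, rfl⟩
    change I _ ∈ Fn Y
    rw [hI i j x hx y hy]
    exact Submodule.smul_mem _ _ (fn_of hy)
  · refine (sq_prod X Y).fn_ext (φ := tp V ∘ₗ fnR (pb g v) ∘ₗ (pb f).toLinearMap)
      (ψ := tp Q ∘ₗ fnR v ∘ₗ (pb k).toLinearMap ∘ₗ I)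
      (fun i j x hx y hy => ?_) hu
    change tp V (pb f _ * pb g v) = tp Q (pb k (I _) * v)
    rw [hI i j x hx y hy, map_mul (pb f), pb_pb, pb_pb, e, ← pb_pb g k, mul_assoc,
      ← map_mul (pb g),
      hs.fn_tp (fn_of hx) (fn_mul (fn_pb _ (fn_of hy)) hv), map_smul, smul_mul_assoc, map_smul,
      smul_eq_mul]

/-- the action exists, and it can be computed on a triple product -/
theorem exists_op [Gd X] [Gd Y] (hX : Mf X n) (hY : Mf Y m) {a : Cyc (X ⊗ Y).left}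
    {α : HW (X ⊗ Y)} (ha : Rep a α) : ∃ T, IsOp a T ∧ ∀ (V Q : Sch) [Gd V] [Gd Q]
      [IsIntegral Q.left] (f : V ⟶ X ⊗ Y) (g : V ⟶ Q) (k : Q ⟶ Y), Sq (f ≫ fst X Y) g →
      f ≫ snd X Y = g ≫ k → ∀ x ∈ Fn X, ∀ v ∈ Fn Q,
        tp V (pb f (α * pb (fst X Y) x) * pb g v) = tp Q (pb k (T x) * v) := by
  obtain ⟨I, h1, h2⟩ := exists_I (Y := Y) hX
  have := hY.int
  have hm : ∀ x ∈ Fn X, α * pb (fst X Y) x ∈ Fn (X ⊗ Y) := fun x hx =>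
    fn_mul (fn_evn ha.1) (fn_pb _ hx)
  refine ⟨I ∘ₗ fnL α ∘ₗ (pb (fst X Y)).toLinearMap,
    ⟨fun x hx => h1 _ (hm x hx), fun x hx y hy => ?_⟩,
    fun V Q _ _ _ f g k hs e x hx v hv => h2 V Q f g k hs e _ (hm x hx) v hv⟩
  have := h2 (X ⊗ Y) Y (𝟙 _) (snd X Y) (𝟙 _) (by simpa using sq_prod X Y) (by simp) _ (hm x hx)
    y hy
  rw [pb_id, pb_id] at this
  rw [ha.fn (fn_mul (fn_pb _ hx) (fn_pb _ hy)), ← mul_assoc, this]
  rfl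

theorem Comp.op [Gd X] [Gd Y] [Gd Z] (hX : Mf X n) (hY : Mf Y m) (hZ : Mf Z l)
    {a : Cyc (X ⊗ Y).left} {b : Cyc (Y ⊗ Z).left} {c : Cyc (X ⊗ Z).left} (h : Comp a b c)
    {A : HW X →ₗ[ℚ] HW Y} {B : HW Y →ₗ[ℚ] HW Z} {C : HW X →ₗ[ℚ] HW Z} (hA : IsOp a A)
    (hB : IsOp b B) (hC : IsOp c C) {x : HW X} (hx : x ∈ Fn X) : C x = B (A x) := by
  obtain ⟨a', b', q, c', h1, h2, h3, h4, h5⟩ := h
  have hXY := (sq_prod X Y).mf hX hY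
  have hYZ := (sq_prod Y Z).mf hY hZ
  have := hX.int
  have := hZ.int
  have := hXY.int
  have := hYZ.int
  obtain ⟨α, hα⟩ := exists_rep hXY a
  obtain ⟨β, hβ⟩ := exists_rep hYZ b
  have hq := Rep.mul ((sq_prod X (Y ⊗ Z)).mf hX hYZ) h3 (Rep.pull (sq_12 X Y Z) h1 hα)
    (Rep.pull (sq_prod X (Y ⊗ Z)).symm h2 hβ)
  obtain ⟨T, t1, t2⟩ := exists_op hX hY hα
  have eA : A x = T x := hA.eq hY hx (t1.mem x hx) fun k y hy => (t1.pair x hx y (fn_of hy)).symm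
  refine hC.eq hZ hx (hB.mem _ (hA.mem x hx)) fun k z hz => ?_
  have hu := fn_mul (fn_pb (fst X Z) hx) (fn_pb (snd X Z) (fn_of hz))
  have e1 : ev c (pb (fst X Z) x * pb (snd X Z) z) =
      ev q (pb (X ◁ snd Y Z) (pb (fst X Z) x * pb (snd X Z) z)) :=
    fn_ext (ψ := ev q ∘ₗ (pb (X ◁ snd Y Z)).toLinearMap)
      (fun _ u hu => (h5.ev hu).trans (h4.ev hu)) hu
  have e2 := t2 (X ⊗ Y ⊗ Z) (Y ⊗ Z) (X ◁ fst Y Z) (snd X (Y ⊗ Z)) (fst Y Z)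
    (by simpa using sq_prod X (Y ⊗ Z)) (by simp) x hx (β * pb (snd Y Z) z)
    (fn_mul (fn_evn hβ.1) (fn_pb _ (fn_of hz)))
  rw [e1, hq.fn (fn_pb _ hu), hB.pair _ (hA.mem x hx) z (fn_of hz),
    hβ.fn (fn_mul (fn_pb _ (hA.mem x hx)) (fn_pb _ (fn_of hz))), ← mul_assoc β,
    fn_comm hβ.1 (fn_pb _ (hA.mem x hx)), mul_assoc _ β, eA, ← e2]
  simp only [map_mul, pb_pb, whiskerLeft_fst, whiskerLeft_snd, mul_assoc]
  rw [← mul_assoc (pb _ β), fn_comm (evn_pb _ hβ.1) (fn_pb _ hx), mul_assoc]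

theorem Tens.op [Gd X] [Gd Y] (hX : Mf X n) (hY : Mf Y m) {a : Cyc (X ⊗ Y).left}
    {c : Cyc ((X ⊗ X) ⊗ Y ⊗ Y).left} (h : Tens a a c) {A : HW X →ₗ[ℚ] HW Y}
    {C : HW (X ⊗ X) →ₗ[ℚ] HW (Y ⊗ Y)} (hA : IsOp a A) (hC : IsOp c C) {p q : ℤ} {x x' : HW X}
    (hx : x ∈ Hd X p) (hx' : x' ∈ Hd X q) (hq : A x' ∈ Hd Y q) :
    C (pb (fst X X) x * pb (snd X X) x') = pb (fst Y Y) (A x) * pb (snd Y Y) (A x') := by
  obtain ⟨a', b', h1, h2, h3⟩ := h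
  have hXY := (sq_prod X Y).mf hX hY
  have hYY := (sq_prod Y Y).mf hY hY
  have := hY.int
  have := hXY.int
  obtain ⟨α, hα⟩ := exists_rep hXY a
  have hs := sq_tens X X Y Y
  have hc := Rep.mul (hs.mf hXY hXY) h3 (Rep.pull hs h1 hα) (Rep.pull hs.symm h2 hα)
  have hu := fn_mul (fn_pb (fst X X) (fn_of hx)) (fn_pb (snd X X) (fn_of hx'))
  have hA1 := hA.mem x (fn_of hx)
  refine hC.eq hYY hu (fn_mul (fn_pb _ hA1) (fn_pb _ (fn_of hq))) fun k u hk => ?_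
  refine (sq_prod Y Y).fn_ext
    (φ := ev c ∘ₗ fnL _ ∘ₗ (pb (snd (X ⊗ X) (Y ⊗ Y))).toLinearMap)
    (ψ := tp _ ∘ₗ fnL _) (fun i j y hy y' hy' => ?_) (fn_of hk)
  change ev c (_ * pb _ _) = tp _ (_ * _)
  have m1 := fn_mul (fn_pb (fst X Y) (fn_of hx)) (fn_pb (snd X Y) (fn_of hy))
  have m2 := fn_mul (fn_pb (fst X Y) (fn_of hx')) (fn_pb (snd X Y) (fn_of hy'))
  have e1 : tp ((X ⊗ X) ⊗ Y ⊗ Y) (pb (fst X X ⊗ₘ fst Y Y) (α * (pb (fst X Y) x * pb (snd X Y) y)) *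
      pb (snd X X ⊗ₘ snd Y Y) (α * (pb (fst X Y) x' * pb (snd X Y) y'))) =
      tp (Y ⊗ Y) (pb (fst Y Y) (A x * y) * pb (snd Y Y) (A x' * y')) := by
    rw [hs.fn_tp (fn_mul (fn_evn hα.1) m1) (fn_mul (fn_evn hα.1) m2), ← hα.fn m1, ← hα.fn m2,
      (sq_prod Y Y).fn_tp (fn_mul hA1 (fn_of hy)) (fn_mul (fn_of hq) (fn_of hy')),
      hA.pair x (fn_of hx) y (fn_of hy), hA.pair x' (fn_of hx') y' (fn_of hy')]
  rw [hc.fn (fn_mul (fn_pb _ hu) (fn_pb _ (fn_mul (fn_pb _ (fn_of hy)) (fn_pb _ (fn_of hy')))))]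
  simp only [map_mul, pb_pb, tensorHom_fst, tensorHom_snd, mul_assoc] at e1 ⊢
  rw [← mul_assoc (pb (snd Y Y) (A x')), comm (pb_mem _ hq) (pb_mem _ hy),
    ← mul_assoc (pb (_ ≫ snd X X) x'), comm (pb_mem _ hx') (pb_mem _ hy)]
  simp only [smul_mul_assoc, mul_smul_comm, map_zsmul, mul_assoc]
  rw [← e1, ← mul_assoc (pb (snd X X ⊗ₘ snd Y Y) α),
    fn_comm (evn_pb _ hα.1) (fn_pb _ (fn_of hx)), mul_assoc,
    ← mul_assoc (pb (snd X X ⊗ₘ snd Y Y) α), fn_comm (evn_pb _ hα.1) (fn_pb _ (fn_of hy)),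
    mul_assoc]

/-- the graph of a map acts by pull back -/
theorem Img.op [Gd X] [Gd Y] (hY : Mf Y m) {f : Y ⟶ X} {a : Cyc (X ⊗ Y).left}
    (h : Img (lift f (𝟙 Y)).left a) {A : HW X →ₗ[ℚ] HW Y} (hA : IsOp a A) {x : HW X}
    (hx : x ∈ Fn X) : A x = pb f x := by
  refine hA.eq hY hx (fn_pb _ hx) fun k y hy => ?_
  rw [fn_ext (ψ := tp Y ∘ₗ (pb (lift f (𝟙 Y))).toLinearMap) (fun _ u hu => h.ev hu)
    (fn_mul (fn_pb _ hx) (fn_pb _ (fn_of hy)))]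
  change tp Y (pb _ _) = _
  rw [map_mul, pb_pb, pb_pb, lift_fst, lift_snd, pb_id]

theorem IsOp.deg [Gd Y] (hY : Mf Y n) {a : Cyc (X ⊗ Y).left} {A : HW X →ₗ[ℚ] HW Y}
    (hA : IsOp a A) (h : ∀ k : ℤ, k ≠ 2 * n → ∀ u ∈ Hd (X ⊗ Y) k, ev a u = 0) {k : ℤ} {x : HW X}
    (hx : x ∈ Hd X k) : A x ∈ Hd Y k := by
  have := fn_deg hY (hA.mem x (fn_of hx)) {k} fun j hj y hy => by
    rw [hA.pair x (fn_of hx) y (fn_of hy)]
    exact h _ (fun e => hj (by rw [mem_singleton_iff]; omega)) _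
      (mul_mem_Hk (pb_mem _ hx) (pb_mem _ hy))
  simpa using this

theorem exists_g [Gd X] [Gd Y] (hX : Mf X n) (hY : Mf Y n) {Γ : Cyc (X ⊗ Y).left}
    (h : FrobIso n Γ) : ∃ g : ∀ k : ℤ, Hd X k ≃ₗ[ℚ] Hd Y k,
      (∀ p q (a : Hd X p) (b : Hd X q) (h : a.1 * b.1 ∈ Hd X (p + q)),
        (g (p + q) ⟨a.1 * b.1, h⟩).1 = (g p a).1 * (g q b).1) ∧
      (∀ k (a : Hd X k), tp Y (g k a).1 = tp X a.1) ∧
      ∀ i j (a : Hd X i), ∀ b ∈ Hd Y j,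
        tp Y ((g i a).1 * b) = ev Γ (pb (fst X Y) a.1 * pb (snd X Y) b) := by
  obtain ⟨hd, Γt, ΔX, ΔY, δX, δY, T, L, ht, dX, dY, eX, eY, c1, c2, hT, c3, c4⟩ := h
  have op : ∀ {X Y : Sch} [Gd X] [Gd Y] {n m : ℕ}, Mf X n → Mf Y m →
      ∀ a : Cyc (X ⊗ Y).left, ∃ A, IsOp a A := fun hX hY a =>
    (exists_rep ((sq_prod _ _).mf hX hY) a).elim fun _ hα =>
      (exists_op hX hY hα).imp fun _ h => h.1
  have hXY := (sq_prod X Y).mf hX hY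
  have hXX := (sq_prod X X).mf hX hX
  have hYY := (sq_prod Y Y).mf hY hY
  obtain ⟨G, hG⟩ := op hX hY Γ
  obtain ⟨G', hG'⟩ := op hY hX Γt
  obtain ⟨γ, γ1, γ2⟩ := exists_rep_deg hXY hd
  have z1 : ∀ k : ℤ, k ≠ 2 * n → ∀ u ∈ Hd (X ⊗ Y) k, ev Γ u = 0 := fun k hk u hu => by
    rw [γ2.2 k u hu]
    exact hXY.man.fund.deg _ (by push_cast; omega) _ (mul_mem_Hk γ1 hu)
  have z2 : ∀ k : ℤ, k ≠ 2 * n → ∀ u ∈ Hd (Y ⊗ X) k, ev Γt u = 0 := fun k hk u hu => by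
    rw [ht.ev hu]
    exact z1 k hk _ (pb_mem _ hu)
  have m1 : ∀ k, ∀ x ∈ Hd X k, G x ∈ Hd Y k := fun k x hx => hG.deg hY z1 hx
  have m2 : ∀ k, ∀ y ∈ Hd Y k, G' y ∈ Hd X k := fun k y hy => hG'.deg hX z2 hy
  have i1 : ∀ x ∈ Fn X, G' (G x) = x := fun x hx => by
    obtain ⟨D, hD⟩ := op hX hX ΔX
    rw [← c1.op hX hY hX hG hG' hD hx, dX.op hX hD hx, pb_id]
  have i2 : ∀ y ∈ Fn Y, G (G' y) = y := fun y hy => by
    obtain ⟨D, hD⟩ := op hY hY ΔY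
    rw [← c2.op hY hX hY hG' hG hD hy, dY.op hY hD hy, pb_id]
  have mul : ∀ p q, ∀ x ∈ Hd X p, ∀ x' ∈ Hd X q, G (x * x') = G x * G x' :=
    fun p q x hx x' hx' => by
      obtain ⟨DX, hDX⟩ := op hXX hX δX
      obtain ⟨DY, hDY⟩ := op hYY hY δY
      obtain ⟨A, hA⟩ := op hXX hYY T
      obtain ⟨B, hB⟩ := op hXX hY L
      have hu := fn_mul (fn_pb (fst X X) (fn_of hx)) (fn_pb (snd X X) (fn_of hx'))
      have e := (c3.op hXX hX hY hDX hG hB hu).symm.trans (c4.op hXX hYY hY hA hDY hB hu)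
      rw [eX.op hX hDX hu, eY.op hY hDY (hA.mem _ hu), hT.op hX hY hG hA hx hx' (m1 q x' hx')] at e
      simpa only [map_mul, pb_pb, lift_fst, lift_snd, pb_id] using e
  have adj : ∀ i j, ∀ x ∈ Hd X i, ∀ y ∈ Hd Y j, tp Y (G x * y) = tp X (x * G' y) :=
    fun i j x hx y hy => by
      rw [hG.pair x (fn_of hx) y (fn_of hy), comm hx (m2 j y hy), map_zsmul,
        hG'.pair y (fn_of hy) x (fn_of hx), ht.ev (mul_mem_Hk (pb_mem _ hy) (pb_mem _ hx)),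
        comm (pb_mem _ hx) (pb_mem _ hy), map_zsmul, map_mul (pb _), pb_pb, pb_pb, lift_fst,
        lift_snd]
  refine ⟨fun k => LinearEquiv.ofLinearMap (G.restrict (m1 k)) (G'.restrict (m2 k))
    (LinearMap.ext fun y => Subtype.ext (i2 y.1 (fn_of y.2)))
    (LinearMap.ext fun x => Subtype.ext (i1 x.1 (fn_of x.2))),
    fun p q a b _ => mul p q a.1 a.2 b.1 b.2, fun k a => ?_,
    fun i j a b hb => hG.pair a.1 (fn_of a.2) b (fn_of hb)⟩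
  have e := adj k 0 a.1 a.2 (G 1) (m1 0 1 one_mem_Hk)
  rwa [← mul k 0 a.1 a.2 1 one_mem_Hk, i1 1 (fn_of one_mem_Hk), mul_one] at e

end Pool.Agent.Lib.MP_d3d358_ag.Cw
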