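import Pool.Agent.Lib.MP_d3d358_ag.Cw.Sp

/-! The generic structure of an algebraic extension of domains in characteristic zero. -/

set_option autoImplicit false

namespace Pool.Agent.Lib.MP_d3d358_ag.Cw

open Polynomial IntermediateField
open scoped nonZeroDivisors

theorem et_prim {K L : Type} [Field K] [Field L] [Algebra K L] {x y : L} (h : K⟮x⟯ = ⊤) {c : K}
    (hc : c ≠ 0) (e : y = algebraMap K L c * x) : K⟮y⟯ = ⊤ := by
  rw [eq_top_iff, ← h, adjoin_simple_le_iff]
  have : x = algebraMap K L c⁻¹ * y := by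
    rw [e, ← mul_assoc, ← map_mul, inv_mul_cancel₀ hc, map_one, one_mul]
  rw [this]
  exact mul_mem (IntermediateField.algebraMap_mem _ _) (mem_adjoin_simple_self K y)

theorem et_clear {R K : Type} [CommRing R] [IsDomain R] [Field K] [Algebra R K]
    [IsFractionRing R K] (p : K[X]) :
    ∃ (b : R) (q : R[X]), b ≠ 0 ∧ q.map (algebraMap R K) = C (algebraMap R K b) * p := by
  obtain ⟨b, hb, e⟩ := IsLocalization.integerNormalization_spec R⁰ p
  refine ⟨b, _, nonZeroDivisors.ne_zero hb, e.trans ?_⟩
  rw [← IsScalarTower.algebraMap_smul K b p, smul_eq_C_mul]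

attribute [local instance] FractionRing.liftAlgebra in
theorem et_str {R A : Type} [CommRing R] [CommRing A] [IsDomain R] [IsDomain A] [CharZero R]
    [Algebra R A] [FaithfulSMul R A] [Algebra.IsAlgebraic R A] [Algebra.FiniteType R A] :
    ∃ (u : A) (F : R[X]) (h : R), F.Monic ∧ F.natDegree = Module.finrank R A ∧
      0 < F.natDegree ∧ h ≠ 0 ∧ aeval u F = 0 ∧ (∀ G : R[X], aeval u G = 0 → F ∣ G) ∧
      (∀ a : A, ∃ (n : ℕ) (G : R[X]), algebraMap R A h ^ n * a = aeval u G) ∧
      ∃ P Q : R[X], P * F + Q * derivative F = C h := by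
  classical
  let K := FractionRing R
  let L := FractionRing A
  have iRK : Function.Injective (algebraMap R K) := IsFractionRing.injective R K
  have iAL : Function.Injective (algebraMap A L) := IsFractionRing.injective A L
  have neK : ∀ {b : R}, b ≠ 0 → algebraMap R K b ≠ 0 := fun hb h =>
    hb (iRK (h.trans (map_zero _).symm))
  haveI : CharZero K := charZero_of_injective_algebraMap iRK
  haveI : Algebra.EssFiniteType A L := Algebra.EssFiniteType.of_isLocalization L A⁰
  haveI : Algebra.EssFiniteType R L := Algebra.EssFiniteType.comp R A L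
  haveI : Algebra.EssFiniteType K L := Algebra.EssFiniteType.of_comp R K L
  haveI : Algebra.IsAlgebraic K L := IsFractionRing.isAlgebraic_iff' R A L |>.1 inferInstance
    |>.extendScalars iRK
  haveI : Module.Finite K L := Algebra.finite_of_essFiniteType_of_isAlgebraic
  have tw : ∀ b : R, algebraMap A L (algebraMap R A b) = algebraMap K L (algebraMap R K b) :=
    fun b => by rw [← IsScalarTower.algebraMap_apply, ← IsScalarTower.algebraMap_apply]
  have ae : ∀ (a : A) (G : R[X]), algebraMap A L (aeval a G) =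
      aeval (algebraMap A L a) (G.map (algebraMap R K)) := fun a G => by
    rw [aeval_map_algebraMap, aeval_algebraMap_apply]
  obtain ⟨θ, hθ⟩ := Field.exists_primitive_element K L
  obtain ⟨⟨a, _, r, hr, rfl⟩, ea⟩ :=
    IsLocalization.surj (Algebra.algebraMapSubmonoid A R⁰) θ
  have ha : K⟮algebraMap A L a⟯ = ⊤ :=
    et_prim hθ (neK (nonZeroDivisors.ne_zero hr)) (by rw [← ea, ← tw, mul_comm])
  obtain ⟨b, F0, hb, e0⟩ := et_clear (R := R) (minpoly K (algebraMap A L a))
  have m0 : minpoly K (algebraMap A L a) ≠ 0 := minpoly.ne_zero_of_finite K _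
  have F0ne : F0 ≠ 0 := by
    rintro rfl
    rw [Polynomial.map_zero] at e0
    exact mul_ne_zero (C_ne_zero.2 (neK hb)) m0 e0.symm
  have dF0 : F0.natDegree = Module.finrank K L := by
    rw [← natDegree_map_eq_of_injective iRK, e0, natDegree_C_mul (neK hb)]
    exact (Field.primitive_element_iff_minpoly_natDegree_eq K _).1 ha
  have zF0 : aeval a F0 = 0 := iAL (by
    rw [ae, e0, map_mul, minpoly.aeval, mul_zero, map_zero])
  set u : A := algebraMap R A F0.leadingCoeff * a with hu
  set F : R[X] := integralNormalization F0 with hF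
  have mF : F.Monic := monic_integralNormalization F0ne
  have dF : F.natDegree = Module.finrank K L := by rw [hF, natDegree_integralNormalization, dF0]
  have zF : aeval u F = 0 := integralNormalization_aeval_eq_zero zF0 fun x hx =>
    FaithfulSMul.algebraMap_injective R A (hx.trans (map_zero _).symm)
  have hu' : K⟮algebraMap A L u⟯ = ⊤ :=
    et_prim ha (neK (leadingCoeff_ne_zero.2 F0ne)) (by rw [hu, map_mul, tw])
  have iu : IsIntegral K (algebraMap A L u) := IsIntegral.of_finite K _
  have mp : F.map (algebraMap R K) = minpoly K (algebraMap A L u) := by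
    refine eq_of_monic_of_dvd_of_natDegree_le (minpoly.monic iu) (mF.map _)
      (minpoly.dvd _ _ (by rw [← ae, zF, map_zero])) ?_
    rw [natDegree_map_eq_of_injective iRK, dF,
      (Field.primitive_element_iff_minpoly_natDegree_eq K _).1 hu']
  have one : ∀ a : A, ∃ (c : R) (G : R[X]), c ≠ 0 ∧ algebraMap R A c * a = aeval u G := by
    intro a
    have : algebraMap A L a ∈ (K⟮algebraMap A L u⟯).toSubalgebra := by rw [hu']; trivial
    rw [adjoin_simple_toSubalgebra_of_isAlgebraic iu.isAlgebraic,
      Algebra.adjoin_singleton_eq_range_aeval] at this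
    obtain ⟨W, hW⟩ := this
    obtain ⟨c, G, hc, e⟩ := et_clear (R := R) W
    refine ⟨c, G, hc, iAL ?_⟩
    rw [ae, e, map_mul, map_mul, aeval_C, tw]
    exact congrArg _ hW.symm
  choose c G hc hG using one
  obtain ⟨s, hs⟩ := (inferInstance : Algebra.FiniteType R A).out
  have sep : (F.map (algebraMap R K)).Separable := by
    rw [mp]; exact Algebra.IsSeparable.isSeparable K _
  obtain ⟨P, Q, hPQ⟩ := sep
  obtain ⟨b1, P0, hb1, e1⟩ := et_clear (R := R) P
  obtain ⟨b2, Q0, hb2, e2⟩ := et_clear (R := R) Q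
  refine ⟨u, F, (∏ x ∈ s, c x) * (b1 * b2), mF,
    dF.trans (IsFractionRing.finrank_eq R K A L), dF ▸ Module.finrank_pos,
    mul_ne_zero (Finset.prod_ne_zero_iff.2 fun x _ => hc x) (mul_ne_zero hb1 hb2), zF,
    fun W hW => ?_, fun a => ?_, C ((∏ x ∈ s, c x) * b2) * P0, C ((∏ x ∈ s, c x) * b1) * Q0, ?_⟩
  · rw [← modByMonic_eq_zero_iff_dvd mF]
    have z : aeval u (W %ₘ F) = 0 := by rw [aeval_modByMonic_eq_self_of_root zF, hW]
    by_contra ne
    have d1 := minpoly.degree_le_of_ne_zero K (algebraMap A L u)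
      ((Polynomial.map_ne_zero_iff iRK).2 ne) (by rw [← ae, z, map_zero])
    rw [← mp, degree_map_eq_of_injective iRK, degree_map_eq_of_injective iRK] at d1
    exact absurd (degree_modByMonic_lt W mF) (not_lt.2 d1)
  · have ha : a ∈ Algebra.adjoin R (s : Set A) := by rw [hs]; trivial
    induction ha using Algebra.adjoin_induction with
    | mem x hx =>
      refine ⟨1, C ((∏ y ∈ s.erase x, c y) * (b1 * b2)) * G x, ?_⟩
      rw [← Finset.mul_prod_erase s c hx, map_mul (aeval u), aeval_C, ← hG]
      simp only [map_mul]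
      ring
    | algebraMap r => exact ⟨0, C r, by simp⟩
    | add x y _ _ hx hy =>
      obtain ⟨n, V, hV⟩ := hx
      obtain ⟨m, W, hW⟩ := hy
      refine ⟨n + m, C ((∏ x ∈ s, c x) * (b1 * b2)) ^ m * V +
        C ((∏ x ∈ s, c x) * (b1 * b2)) ^ n * W, ?_⟩
      rw [map_add, map_mul (aeval u), map_mul (aeval u), map_pow, map_pow, aeval_C, ← hV, ← hW]
      ring
    | mul x y _ _ hx hy =>
      obtain ⟨n, V, hV⟩ := hx
      obtain ⟨m, W, hW⟩ := hy
      refine ⟨n + m, V * W, ?_⟩
      rw [map_mul (aeval u), ← hV, ← hW]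
      ring
  · apply map_injective _ iRK
    rw [derivative_map] at hPQ
    simp only [Polynomial.map_add, Polynomial.map_mul, map_C, e1, e2, map_mul]
    linear_combination (C (algebraMap R K (∏ x ∈ s, c x)) * C (algebraMap R K b1) *
      C (algebraMap R K b2)) * hPQ

/-- a point of a subring extends when the ring is inside a localisation -/
theorem et_ext {A B : Type} [CommRing A] [CommRing B] [Algebra ℂ A] [Algebra ℂ B]
    (φ : B →ₐ[ℂ] A) (ψ : B →ₐ[ℂ] ℂ) (e : B) (he : ψ e ≠ 0)
    (hs : ∀ a : A, ∃ (n : ℕ) (G : B), φ e ^ n * a = φ G) (hk : ∀ G, φ G = 0 → ψ G = 0) :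
    ∃ p : Sp A, ∀ G, p (φ G) = ψ G := by
  choose n G hG using hs
  let f : A → ℂ := fun a => ψ (G a) / ψ e ^ n a
  have key : ∀ (a : A) (m : ℕ) (W : B), φ e ^ m * a = φ W → f a = ψ W / ψ e ^ m := by
    intro a m W h
    have := hk (e ^ m * G a - e ^ n a * W) (by
      simp only [map_sub, map_mul, map_pow]; rw [← hG, ← h]; ring)
    simp only [map_sub, map_mul, map_pow] at this
    show ψ (G a) / ψ e ^ n a = _
    field_simp
    linear_combination this
  have k0 : ∀ W, f (φ W) = ψ W := fun W => by simpa using key (φ W) 0 W (by simp)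
  let p : A →ₐ[ℂ] ℂ :=
    { toFun := f
      map_one' := by simpa using k0 1
      map_zero' := by simpa using k0 0
      map_mul' := fun a b => by
        rw [key (a * b) (n a + n b) (G a * G b) (by rw [map_mul, ← hG, ← hG]; ring)]
        show _ = ψ (G a) / ψ e ^ n a * (ψ (G b) / ψ e ^ n b)
        rw [map_mul, pow_add, div_mul_div_comm]
      map_add' := fun a b => by
        rw [key (a + b) (n a + n b) (e ^ n b * G a + e ^ n a * G b) (by
          simp only [map_add, map_mul, map_pow]; rw [← hG, ← hG]; ring)]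
        show _ = ψ (G a) / ψ e ^ n a + ψ (G b) / ψ e ^ n b
        simp only [map_add, map_mul, map_pow]
        field_simp
        ring
      commutes' := fun c => by simpa using k0 (algebraMap ℂ B c) }
  exact ⟨p, k0⟩

end Pool.Agent.Lib.MP_d3d358_ag.Cw
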