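import Pool.Agent.Lib.MP_d3d358_ag.AS.Betti
import Pool.Agent.Lib.MP_d3d358_ag.Cw.Comm

/-! The exceptional class: exterior algebra and restriction to the exceptional divisor. -/

set_option autoImplicit false

namespace Pool.Agent.Lib.MP_d3d358_ag.Cw

open Topology Set AS ExteriorAlgebra

section Alg
variable {W : Type} [AddCommGroup W] [Module ℚ W] {n : ℕ} (b : Module.Basis (Fin n) ℚ W)

theorem exc_euler {k : ℕ} {v : ExteriorAlgebra ℚ W} (hv : v ∈ ⋀[ℚ]^k W) :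
    ∑ i, ι ℚ (b i) * CliffordAlgebra.contractLeft (Q := 0) (b.coord i) v = (k : ℚ) • v := by
  refine Submodule.pow_induction_on_left' _ (C := fun k v _ =>
    ∑ i, ι ℚ (b i) * CliffordAlgebra.contractLeft (Q := 0) (b.coord i) v = (k : ℚ) • v)
    (fun r => ?_) (fun x y i _ _ hx hy => ?_) (fun x hx i y _ hy => ?_) hv
  · simp [CliffordAlgebra.contractLeft_algebraMap]
  · simp only [map_add, mul_add, Finset.sum_add_distrib, hx, hy, smul_add]
  · obtain ⟨x, rfl⟩ := hx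
    have e : ∀ j, ι ℚ (b j) * CliffordAlgebra.contractLeft (Q := 0) (b.coord j) (ι ℚ x * y) =
        ι ℚ (b.coord j x • b j) * y +
          ι ℚ x * (ι ℚ (b j) * CliffordAlgebra.contractLeft (Q := 0) (b.coord j) y) := fun j => by
      have hs : ι ℚ (b j) * ι ℚ x = -(ι ℚ x * ι ℚ (b j)) :=
        eq_neg_of_add_eq_zero_left (ι_add_mul_swap _ _)
      have h := CliffordAlgebra.contractLeft_ι_mul (Q := (0 : QuadraticForm ℚ W)) (b.coord j) x y
      change CliffordAlgebra.contractLeft (Q := 0) (b.coord j) (ι ℚ x * y) =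
        b.coord j x • y - ι ℚ x * CliffordAlgebra.contractLeft (Q := 0) (b.coord j) y at h
      rw [h, mul_sub, ← mul_assoc, hs, map_smul, mul_smul_comm, smul_mul_assoc, neg_mul,
        sub_neg_eq_add, mul_assoc]
    simp only [e, Finset.sum_add_distrib, ← Finset.mul_sum, ← Finset.sum_mul, hy, ← map_sum]
    simp only [Module.Basis.coord_apply, Module.Basis.sum_repr]
    rw [mul_smul_comm, Nat.cast_succ, add_smul, one_smul, add_comm]

include b in
theorem exc_kill {k : ℕ} (hk : k ≠ n) {v : ExteriorAlgebra ℚ W} (hv : v ∈ ⋀[ℚ]^k W)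
    (h : ∀ x, ι ℚ x * v = 0) : v = 0 := by
  have e : ∀ j, ι ℚ (b j) * CliffordAlgebra.contractLeft (Q := 0) (b.coord j) v = v := fun j => by
    have h1 := CliffordAlgebra.contractLeft_ι_mul (Q := (0 : QuadraticForm ℚ W)) (b.coord j) (b j) v
    change CliffordAlgebra.contractLeft (Q := 0) (b.coord j) (ι ℚ (b j) * v) =
      b.coord j (b j) • v - ι ℚ (b j) * CliffordAlgebra.contractLeft (Q := 0) (b.coord j) v at h1
    rw [h, map_zero, Module.Basis.coord_apply, Module.Basis.repr_self, Finsupp.single_eq_same,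
      one_smul] at h1
    exact (sub_eq_zero.1 h1.symm).symm
  have h2 := exc_euler b hv
  simp only [e, Finset.sum_const, Finset.card_univ, Fintype.card_fin] at h2
  rw [← Nat.cast_smul_eq_nsmul ℚ, ← sub_eq_zero, ← sub_smul] at h2
  exact (smul_eq_zero.1 h2).resolve_left (sub_ne_zero.2 (by exact_mod_cast hk.symm))

end Alg

theorem exc_dual {A I : Type} [Ring A] [Algebra ℚ A] [Fintype I] (φ : A →ₗ[ℚ] ℚ) (x : I → A)
    (B : Submodule ℚ A) (h : ∀ y ∈ B, (∀ i, φ (x i * y) = 0) → y = 0) (η : A) :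
    ∃ γ : I → ℚ, ∀ y ∈ B, φ ((∑ i, γ i • x i) * y) = φ (η * y) := by
  classical
  let M : A →ₗ[ℚ] B →ₗ[ℚ] ℚ := ((LinearMap.mul ℚ A).compr₂ φ).compl₂ B.subtype
  let L : (I → ℚ) →ₗ[ℚ] B →ₗ[ℚ] ℚ := M ∘ₗ Fintype.linearCombination ℚ x
  have inj : Function.Injective L.flip := (injective_iff_map_eq_zero _).2 fun y hy =>
    Subtype.ext (h y.1 y.2 fun i => by
      have := LinearMap.congr_fun hy (Pi.single i 1)
      simpa [L, M, Fintype.linearCombination_apply_single] using this)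
  obtain ⟨γ, hγ⟩ := LinearMap.flip_injective_iff₁.1 inj (M η)
  exact ⟨γ, fun y hy => LinearMap.congr_fun hγ ⟨y, hy⟩⟩

open Orb

theorem exc_rank : Module.finrank ℚ (V × V) = 8 := by simp

theorem exc_F_mem : mon eN FN ∈ ⋀[ℚ]^8 (V × V) := by
  have : ∀ l : List ℕ, mon eN l ∈ ⋀[ℚ]^l.length (V × V) := fun l => by
    induction l with
    | nil => exact Submodule.one_le.1 (le_of_eq (pow_zero _).symm)
    | cons a l ih =>
      rw [mon_cons, List.length_cons, ExteriorAlgebra.exteriorPower, pow_succ']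
      exact Submodule.mul_mem_mul (LinearMap.mem_range_self _ _) ih
  exact this FN

theorem exc_top {u : EN} (hu : u ∈ ⋀[ℚ]^8 (V × V)) : ∃ c : ℚ, u = c • mon eN FN := by
  have h1 : Module.finrank ℚ (⋀[ℚ]^8 (V × V)) = 1 := by
    rw [exteriorPower.finrank_eq, exc_rank]; rfl
  have hn : (⟨mon eN FN, exc_F_mem⟩ : ⋀[ℚ]^8 (V × V)) ≠ 0 := fun h => by
    obtain ⟨L, hL⟩ := ex_topN
    rw [show mon eN FN = 0 from congrArg Subtype.val h, map_zero] at hL
    exact zero_ne_one hL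
  obtain ⟨c, hc⟩ := (finrank_eq_one_iff_of_nonzero' _ hn).1 h1 ⟨u, hu⟩
  exact ⟨c, (congrArg Subtype.val hc).symm⟩

/-- an invariant form of degree six is determined by its products with invariant two forms -/
theorem exc_six {v : EN} (hv : v ∈ ⋀[ℚ]^6 (V × V)) (hi : ∀ s, act s v = v)
    (h : ∀ a b : Fin 4, tl (ι ℚ (Pi.single a 1) * ι ℚ (Pi.single b 1)) * v = 0) : v = 0 := by
  have b := Module.finBasisOfFinrankEq ℚ (V × V) exc_rank
  refine exc_kill b (by norm_num) hv fun y => exc_kill b (k := 1 + 6) (by norm_num)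
    (tw_mul_mem (tw_ι_mem y) hv) fun x => ?_
  have h2 : ι ℚ x * ι ℚ y ∈ ⋀[ℚ]^2 (V × V) := tw_mul_mem (tw_ι_mem x) (tw_ι_mem y)
  obtain ⟨c, hc⟩ := exc_top (tw_mul_mem h2 hv)
  obtain ⟨γ, hγ⟩ := avg_two h2
  have e : ∀ s, act s (ι ℚ x * ι ℚ y) * v = c • mon eN FN := fun s => by
    rw [← hi s, ← map_mul, hc, map_smul, absA_act_F]
  have e2 : (∑ s, act s (ι ℚ x * ι ℚ y)) * v = 0 := by
    simp only [hγ, Finset.sum_mul, smul_mul_assoc, h, smul_zero, Finset.sum_const_zero]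
  simp only [Finset.sum_mul, e, Finset.sum_const, Finset.card_univ, Fintype.card_perm,
    Fintype.card_fin] at e2
  rw [← mul_assoc, hc]
  rw [← Nat.cast_smul_eq_nsmul ℚ] at e2
  exact (smul_eq_zero.1 e2).resolve_left (by norm_num [Nat.factorial])

theorem exc_scale (c : ℚ) : map (c • LinearMap.id) vol = c ^ 4 • vol := by
  rw [vol_multi, map_apply_ιMulti]
  have := (ιMulti ℚ 4 (M := V)).toMultilinearMap.map_smul_univ (fun _ => c)
    (Pi.basisFun ℚ (Fin 4))
  rw [Finset.prod_const, Finset.card_univ, Fintype.card_fin] at this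
  exact this

theorem exc_res_vol : Orb.res (tl vol) = (18 : ℚ) • vol := by
  have e : ∀ (a : Fin 3) (c : ℚ), LinearMap.id.coprod LinearMap.id ∘ₗ p a = c • LinearMap.id →
      Orb.res (map (p a) vol) = c ^ 4 • vol := fun a c h => by
    rw [Orb.res, ← AlgHom.comp_apply, map_comp_map, h, exc_scale]
  have e0 := e 0 1 (by ext v i; simp [p])
  have e1 := e 1 1 (by ext v i; simp [p])
  have e2 := e 2 (-2) (by ext v i; simp [p]; ring)
  simp only [tl, LinearMap.add_apply, Fin.sum_univ_three, AlgHom.toLinearMap_apply, map_add]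
  rw [e0, e1, e2, ← add_smul, ← add_smul]
  norm_num

variable {P : Matrix (Fin 2) (Fin 4) ℂ} {X : Type} [MetricSpace X] [CompactSpace X] {m : ℕ}
  {S : Set (EuclideanSpace ℂ (Fin m))} {pr : EuclideanSpace ℂ (Fin m) → X}

theorem exc_cdg : Continuous dg := continuous_pi fun i => by cases i <;> exact continuous_apply _

theorem exc_bet_dg (u : EN) :
    bet (K := univ) dg exc_cdg.continuousOn u = torLam ℚ (Fin 4) (Orb.res u) := by
  refine AlgHom.congr_fun (φ₂ := (torLam ℚ (Fin 4)).comp Orb.res)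
    (ExteriorAlgebra.hom_ext (LinearMap.ext fun v => ?_)) u
  change bet dg exc_cdg.continuousOn (ι ℚ v) = torLam ℚ (Fin 4) (Orb.res (ι ℚ v))
  rw [KumB_bet_ι, Orb.res, map_apply_ι, LinearMap.coprod_apply, map_add, map_add, lam_ι, lam_ι]
  rfl

/-- a class that comes from `N`, restricted to the exceptional divisor -/
theorem exc_res (T : KumTop P S pr) {x : HT ℚ (univ : Set X)} {u : EN} (h : T.j ℚ x = T.β u) :
    AS.res (subset_univ T.boundE) x =
      pull T.boundF T.bound_cF (mapsTo_univ _ _) (torLam ℚ (Fin 4) (Orb.res u)) := by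
  have hc : ContinuousOn (fun x => (dg (T.boundF x), x)) T.boundE :=
    (exc_cdg.comp_continuousOn T.bound_cF).prodMk continuousOn_id
  have hm : MapsTo (fun x => (dg (T.boundF x), x)) T.boundE T.Xt := fun x hx => T.bound_GF hx
  have := congrArg (pull _ hc hm) h
  rw [KumTop.j, pull_pull, KumTop.β, pull_bet] at this
  rw [← exc_bet_dg, pull_bet]
  exact this

theorem exc_lift (T : KumTop P S pr) (k : ℕ) {u : EN} (hu : u ∈ ⋀[ℚ]^k (V × V))
    (hi : ∀ s, act s u = u) : ∃ x ∈ Hk (univ : Set X) (k : ℤ), T.j ℚ x = T.β u :=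
  T.mem_Sk.2 ⟨bet_mem _ k hu, fun s => by rw [T.sx_β, hi]⟩

/-- the classes of degree six that come from `N` -/
def excB (T : KumTop P S pr) : Submodule ℚ (HT ℚ (univ : Set X)) where
  carrier := {y | y ∈ Hk univ 6 ∧ ∃ v ∈ ⋀[ℚ]^6 (V × V), (∀ s, act s v = v) ∧ T.j ℚ y = T.β v}
  zero_mem' := ⟨zero_mem _, 0, zero_mem _, fun s => map_zero _, by rw [map_zero, map_zero]⟩
  add_mem' := by
    rintro y y' ⟨h, v, hv, hi, e⟩ ⟨h', v', hv', hi', e'⟩
    exact ⟨add_mem h h', v + v', add_mem hv hv', fun s => by rw [map_add, hi, hi'],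
      by rw [map_add, map_add, e, e']⟩
  smul_mem' := by
    rintro c y ⟨h, v, hv, hi, e⟩
    exact ⟨Submodule.smul_mem _ c h, c • v, Submodule.smul_mem _ c hv,
      fun s => by rw [map_smul, hi], by rw [map_smul, map_smul, e]⟩

theorem exc_t_mem (a b : Fin 4) :
    tl (ι ℚ (Pi.single a 1) * ι ℚ (Pi.single b 1)) ∈ ⋀[ℚ]^2 (V × V) :=
  absA_tl_mem 2 (absA_single a b ▸ absA_m2_mem a b)

/-- every functional on `excB` is the pairing with a class from `N` -/
theorem exc_orth (T : KumTop P S pr) (φ : HT ℚ (univ : Set X) →ₗ[ℚ] ℚ)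
    (hφ : ∀ a ∈ Hk univ 8, T.j ℚ a = T.β (mon eN FN) → φ a ≠ 0) (η : HT ℚ (univ : Set X)) :
    ∃ b ∈ Hk (univ : Set X) 2, ∃ γ : Fin 4 → Fin 4 → ℚ,
      T.j ℚ b = T.β (∑ i, ∑ k, γ i k • tl (ι ℚ (Pi.single i 1) * ι ℚ (Pi.single k 1))) ∧
      ∀ y ∈ excB T, φ (b * y) = φ (η * y) := by
  choose x hx ex using fun s : Fin 4 × Fin 4 =>
    exc_lift T 2 (exc_t_mem s.1 s.2) (absA_tl_inv _)
  obtain ⟨a, ha, ea⟩ := exc_lift T 8 exc_F_mem absA_act_F
  obtain ⟨γ, hγ⟩ := exc_dual φ x (excB T) (fun y ⟨h6, v, hv, hi, e⟩ hy => by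
    refine T.j_inj h6 (e.trans ?_)
    rw [exc_six hv hi fun i k => ?_, map_zero]
    obtain ⟨c, hc⟩ := exc_top (tw_mul_mem (exc_t_mem i k) hv)
    have h1 := hy (i, k)
    have h2 : x (i, k) * y - c • a = 0 :=
      T.j_inj (k := 8) (Submodule.sub_mem _ (mul_mem_Hk (hx (i, k)) h6)
        (Submodule.smul_mem _ _ ha)) (by
        rw [map_sub, map_mul, ex, e, ← map_mul, hc, map_smul, map_smul, ea, sub_self])
    rw [sub_eq_zero.1 h2, map_smul, smul_eq_mul] at h1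
    rw [hc, (mul_eq_zero.1 h1).resolve_right (hφ a ha ea), zero_smul]) η
  refine ⟨_, Submodule.sum_mem _ fun s _ => Submodule.smul_mem _ _ (hx s), fun i k => γ (i, k), ?_,
    hγ⟩
  simp only [map_sum, map_smul, ex, Fintype.sum_prod_type]

/-- the exceptional class, given the shape of the sixth cohomology of the divisor -/
theorem exc_main (T : KumTop P S pr) (φ : HT ℚ (univ : Set X) →ₗ[ℚ] ℚ)
    (pd : ∀ x ∈ Hk univ 2, (∀ y ∈ Hk univ 6, φ (y * x) = 0) → x = 0)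
    (hφ : ∀ a ∈ Hk univ 8, T.j ℚ a = T.β (mon eN FN) → φ a ≠ 0) {η : HT ℚ (univ : Set X)}
    (hη : η ∈ Hk univ 2)
    (two : ∀ x ∈ Hk univ 2, ∃ u ∈ ⋀[ℚ]^2 (V × V), (∀ s, act s u = u) ∧ ∃ c : ℚ,
      T.j ℚ x = T.β u + c • T.j ℚ η)
    (six : ∀ u ∈ Hk T.boundE 6, ∃ a ∈ Hk univ 4,
      u = pull T.boundF T.bound_cF (mapsTo_univ _ _) a * AS.res (subset_univ T.boundE) η) :
    ∃ e ∈ Hk (R := ℚ) (univ : Set X) 2,
      (∀ x ∈ Hk univ 2, ∃ (γ : Fin 4 → Fin 4 → ℚ) (c : ℚ), T.j ℚ x =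
        ∑ a, ∑ b, γ a b • T.β (tl (ι ℚ (Pi.single a 1) * ι ℚ (Pi.single b 1))) + c • T.j ℚ e) ∧
      (∀ y ∈ Hk univ 6, ∀ v ∈ ⋀[ℚ]^6 (V × V), (∀ s, act s v = v) →
        T.j ℚ y = T.β v → φ (e * y) = 0) ∧
      (e = 0 ∨ ∀ w ∈ Hk univ 4, T.j ℚ w = T.β (tl vol) → φ (e * e * w) ≠ 0) := by
  obtain ⟨b, hb, γ, eb, hγ⟩ := exc_orth T φ hφ η
  have he : η - b ∈ Hk univ 2 := Submodule.sub_mem _ hη hb
  have orth : ∀ y ∈ excB T, φ ((η - b) * y) = 0 := fun y hy => by
    rw [sub_mul, map_sub, hγ y hy, sub_self]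
  refine ⟨η - b, he, fun x hx => ?_, fun y hy v hv hi e => orth y ⟨hy, v, hv, hi, e⟩,
    or_iff_not_imp_right.2 fun h => pd _ he fun y hy => ?_⟩
  · obtain ⟨u, hu, hi, c, e⟩ := two x hx
    obtain ⟨δ, rfl⟩ := period_avg hu hi
    refine ⟨fun i k => δ i k + c * γ i k, c, ?_⟩
    rw [e, map_sub, eb]
    simp only [map_sum, map_smul, add_smul, mul_smul, Finset.sum_add_distrib, ← Finset.smul_sum,
      smul_sub]
    abel
  · push Not at h
    obtain ⟨w, hw, ew, h0⟩ := h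
    obtain ⟨a, ha, ea⟩ := six _ (MV_res_mem (subset_univ T.boundE) hy)
    obtain ⟨z, hz, rfl⟩ := (torus ℚ (Fin 4)).2 4 a ha
    obtain ⟨c, rfl⟩ := tw_top_four hz
    have h6 : w * (η - b) ∈ Hk univ 6 := mul_mem_Hk hw he
    have hv : torLam ℚ (Fin 4) vol ∈ Hk univ 4 := lam_mem _ _ 4 (vol_eq ▸ absA_mon_mem FA)
    have hb2 : torLam ℚ (Fin 4) (Orb.res
        (∑ i, ∑ k, γ i k • tl (ι ℚ (Pi.single i 1) * ι ℚ (Pi.single k 1)))) ∈ Hk univ 2 :=
      lam_mem _ _ 2 (tw_res_mem (Submodule.sum_mem _ fun i _ => Submodule.sum_mem _ fun k _ =>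
        Submodule.smul_mem _ _ (exc_t_mem i k)))
    have r : AS.res (subset_univ T.boundE) (y - (c / 18) • (w * (η - b))) =
        pull T.boundF T.bound_cF (mapsTo_univ _ _) (0 : HT ℚ (univ : Set (Tor (Fin 4)))) := by
      rw [map_sub, map_smul, map_mul, map_sub, ea, exc_res T ew, exc_res T eb, exc_res_vol, mul_sub,
        ← map_mul, map_smul (torLam ℚ (Fin 4)), map_smul (torLam ℚ (Fin 4)), smul_mul_assoc,
        bound_van_tor (k := 4 + 2) (by norm_num) _ (mul_mem_Hk hv hb2), smul_zero, map_zero,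
        sub_zero, map_smul, map_smul, smul_mul_assoc, smul_mul_assoc, smul_smul,
        div_mul_cancel₀ c (by norm_num), sub_self]
    have m6 : y - (c / 18) • (w * (η - b)) ∈ Hk univ 6 :=
      Submodule.sub_mem _ hy (Submodule.smul_mem _ _ h6)
    have h1 := orth _ ⟨m6, T.bound_desc 6 m6 (zero_mem _) r⟩
    rw [mul_sub, mul_smul_comm, map_sub, map_smul, comm_even (by decide) hw he, ← mul_assoc, h0,
      smul_zero, sub_zero] at h1
    rw [← comm_even (by decide) he hy, h1]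

end Pool.Agent.Lib.MP_d3d358_ag.Cw
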