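import Pool.Agent.Lib.MP_d3d358_ag.Cw.Rep
import Pool.Agent.Lib.MP_d3d358_ag.AS.KumB

/-! Constant forms on tori, holomorphic charts, finite covers by subsets of a torus. -/

set_option autoImplicit false

namespace Pool.Agent.Lib.MP_d3d358_ag.Cw

open CategoryTheory Topology Set Filter AS

noncomputable section

variable {ι ι' κ κ' Z : Type} {r n : ℕ}

/-- the rows of `M`, extended linearly -/
def rowL [Fintype ι] (M : Matrix ι (Fin n) ℝ) : (ι → ℚ) →ₗ[ℚ] Fin n → ℂ where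
  toFun v l := ∑ i, (v i : ℂ) * M i l
  map_add' v w := funext fun l => by simp [add_mul, Finset.sum_add_distrib]
  map_smul' c v := funext fun l => by simp [Finset.mul_sum, mul_assoc, Rat.smul_def]

/-- pull back of constant forms along the real linear map with matrix `M` -/
def pbM [Fintype ι] (M : Matrix ι (Fin n) ℝ) :
    ExteriorAlgebra ℚ (ι → ℚ) →ₐ[ℚ] ExteriorAlgebra ℂ (Fin n → ℂ) :=
  ExteriorAlgebra.lift ℚ ⟨(ExteriorAlgebra.ι ℂ).restrictScalars ℚ ∘ₗ rowL M,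
    fun _ => ExteriorAlgebra.ι_sq_zero _⟩

/-- `M` is the matrix of a complex linear map, for the complex coordinates `e` -/
def CLin (r : ℕ) (e : (ι → ℝ) → κ → ℂ) (M : Matrix ι (Fin (r * 2)) ℝ) : Prop :=
  ∃ T : (Fin r → ℂ) →L[ℂ] κ → ℂ, ∀ l, e (fun i => M i l) = T ((rl r).symm (Pi.single l 1))

/-- extension by zero -/
def el (ι ι' : Type) : (ι → ℚ) →ₗ[ℚ] ι ⊕ ι' → ℚ :=
  (LinearEquiv.sumArrowLequivProdArrow ι ι' ℚ ℚ).symm.toLinearMap ∘ₗ LinearMap.inl ℚ _ _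

/-- extension by zero -/
def er (ι ι' : Type) : (ι' → ℚ) →ₗ[ℚ] ι ⊕ ι' → ℚ :=
  (LinearEquiv.sumArrowLequivProdArrow ι ι' ℚ ℚ).symm.toLinearMap ∘ₗ LinearMap.inr ℚ _ _

/-- the cross product of constant forms on `N` and on `N'` -/
def uv (u v : Orb.EN) : ExteriorAlgebra ℚ (I8 ⊕ I8 → ℚ) :=
  ExteriorAlgebra.map (el I8 I8 ∘ₗ e8 ℚ) u * ExteriorAlgebra.map (er I8 I8 ∘ₗ e8 ℚ) v

/-- complex coordinates on the universal cover of `N × N'` -/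
def eP (P Q : Matrix (Fin 2) (Fin 4) ℂ) (t : I8 ⊕ I8 → ℝ) (k : Fin 4 × Fin 2) : ℂ :=
  ![cx P fun i => t (.inl (.inl i)), cx P fun i => t (.inl (.inr i)),
    cx Q fun i => t (.inr (.inl i)), cx Q fun i => t (.inr (.inr i))] k.1 k.2

variable [Fintype ι] [Fintype ι'] [Fintype κ] [Fintype κ']

/-- complex coordinates on a product -/
def sumL (e : (ι → ℝ) ≃L[ℝ] κ → ℂ) (e' : (ι' → ℝ) ≃L[ℝ] κ' → ℂ) :
    (ι ⊕ ι' → ℝ) ≃L[ℝ] κ ⊕ κ' → ℂ :=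
  ((LinearEquiv.sumArrowLequivProdArrow ι ι' ℝ ℝ).trans
    ((e.toLinearEquiv.prodCongr e'.toLinearEquiv).trans
      (LinearEquiv.sumArrowLequivProdArrow κ κ' ℝ ℂ).symm)).toContinuousLinearEquiv

omit [Fintype κ] [Fintype κ'] in
theorem sumL_apply (e : (ι → ℝ) ≃L[ℝ] κ → ℂ) (e' : (ι' → ℝ) ≃L[ℝ] κ' → ℂ) (t : ι ⊕ ι' → ℝ) :
    sumL e e' t = Sum.elim (e fun i => t (.inl i)) (e' fun i => t (.inr i)) :=
  funext fun k => by cases k <;> rfl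

section
variable [TopologicalSpace Z] {K : Set Z}

/-- the classes of constant forms along `ν` -/
def lm (ν : Z → Tor ι) (h : ContinuousOn ν K) : ExteriorAlgebra ℚ (ι → ℚ) →ₐ[ℚ] HT ℚ K :=
  lam ℚ (fun i z => ν z i) fun i => (continuous_apply i).comp_continuousOn h

/-- the class of a monomial -/
def mono (ν : Z → Tor ι) (h : ContinuousOn ν K) (J : Fin n → ι) : HT ℚ K :=
  (List.ofFn fun k => cls ℚ (fun z => ν z (J k)) ((continuous_apply (J k)).comp_continuousOn h)).prod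

/-- a minor of the real derivative of `F` -/
def mnr (F : (Fin r → ℂ) → ι → ℝ) (w : Fin r → ℂ) (J : Fin (r * 2) → ι) : ℝ :=
  (Matrix.of fun k l => fderiv ℝ F w ((rl r).symm (Pi.single l 1)) (J k)).det

/-- `y` is a chart of `K` at `p` in which `ν` is holomorphic -/
def HolAt (e : (ι → ℝ) ≃L[ℝ] κ → ℂ) (K : Set Z) (ν : Z → Tor ι) (p : Z) (y : Z → Fin r → ℂ) :
    Prop :=
  Cht K p y ∧ ∃ F : (Fin r → ℂ) → κ → ℂ, ContDiffAt ℂ 1 F (y p) ∧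
    ∀ᶠ q in 𝓝[K] p, ν q = mkT (e.symm (F (y q)))

/-- near `p` any `r` of some holomorphic coordinates have bounded fibres off a hypersurface -/
def Bdd (e : (ι → ℝ) ≃L[ℝ] κ → ℂ) (K : Set Z) (ν : Z → Tor ι) (p : Z) (r : ℕ) : Prop :=
  ∃ U ∈ 𝓝 p, ∃ (t : Z → ι → ℝ) (u : (κ → ℂ) → κ → ℂ), ContinuousOn t (U ∩ K) ∧
    (∀ q ∈ U ∩ K, ν q = mkT (t q)) ∧ ContDiffAt ℂ 1 u (e (t p)) ∧
    Function.Injective (fderiv ℂ u (e (t p))) ∧ ∀ I : Fin r → κ,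
      ∃ (H : MvPolynomial (Fin r) ℂ) (D : ℕ), H ≠ 0 ∧ ∀ z, MvPolynomial.eval z H ≠ 0 →
        {q | q ∈ U ∩ K ∧ ∀ i, u (e (t q)) (I i) = z i}.encard ≤ D

end

/-- `Kt` is a finite cover of the complex points of `W` inside a complex torus bundle: the fibres
are the orbits of `σ`, and local coordinates of the torus are integral over the local rings -/
structure Cov (W : Sch) (e : (ι → ℝ) ≃L[ℝ] κ → ℂ) {G : Type} [Group G] (σ : G → Tor ι → Tor ι)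
    (Kt : Set (Tor ι × Pnt W)) : Prop where
  one : ∀ n, σ 1 n = n
  mul : ∀ s t n, σ s (σ t n) = σ (t * s) n
  cont : ∀ s, Continuous (σ s)
  cpt : IsCompact Kt
  onto : ∀ x, ∃ n, (n, x) ∈ Kt
  orb : ∀ n x, (n, x) ∈ Kt → ∀ n', (n', x) ∈ Kt ↔ ∃ s, n' = σ s n
  crd : ∀ (t₀ : ι → ℝ) x, (mkT t₀, x) ∈ Kt → ∃ u : (κ → ℂ) → κ → ℂ, ContDiffAt ℂ 1 u (e t₀) ∧
    Function.Injective (fderiv ℂ u (e t₀)) ∧ ∀ i, ∃ (d : ℕ) (a : Fin d → Pnt W → ℂ),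
      (∀ k, Rg W x (a k)) ∧ ∀ᶠ s in 𝓝 (t₀, x), (mkT s.1, s.2) ∈ Kt →
        u (e s.1) i ^ d + ∑ k, a k s.2 * u (e s.1) i ^ (k : ℕ) = 0

variable {V W F : Sch}

/-- pull back to the cover -/
def jK (Kt : Set (Tor ι × Pnt W)) : HW W →ₐ[ℚ] HT ℚ Kt :=
  pull Prod.snd continuous_snd.continuousOn (mapsTo_univ _ _)

/-- constant forms on the cover -/
def bK (Kt : Set (Tor ι × Pnt W)) : ExteriorAlgebra ℚ (ι → ℚ) →ₐ[ℚ] HT ℚ Kt :=
  lm Prod.fst continuous_fst.continuousOn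

/-- the part of the cover over the closure of `w` -/
def ovr (Kt : Set (Tor ι × Pnt W)) (w : W.left) : Set (Tor ι × Pnt W) :=
  Kt ∩ Prod.snd ⁻¹' Kw w

/-- the fibre product of two covers -/
def KP (f : V ⟶ W) (g : V ⟶ F) (Kt : Set (Tor ι × Pnt W)) (Kt' : Set (Tor ι' × Pnt F)) :
    Set (Tor (ι ⊕ ι') × Pnt V) :=
  {z | (fun i => z.1 (.inl i), z.2.map f) ∈ Kt ∧ (fun i => z.1 (.inr i), z.2.map g) ∈ Kt'}

/-- the product action -/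
def σP {G G' : Type} (σ : G → Tor ι → Tor ι) (σ' : G' → Tor ι' → Tor ι') (s : G × G')
    (n : Tor (ι ⊕ ι')) : Tor (ι ⊕ ι') :=
  Sum.elim (σ s.1 fun i => n (.inl i)) (σ' s.2 fun i => n (.inr i))

/-- the pairing `B` kills the classes of constant forms that vanish on all complex four planes -/
def HV {P₁ P₂ : Matrix (Fin 2) (Fin 4) ℂ} {X Y : Type} [MetricSpace X] [MetricSpace Y] {m m' : ℕ}
    {S : Set (EuclideanSpace ℂ (Fin m))} {pr : EuclideanSpace ℂ (Fin m) → X}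
    {S' : Set (EuclideanSpace ℂ (Fin m'))} {pr' : EuclideanSpace ℂ (Fin m') → Y}
    (T : KumTop P₁ S pr) (T' : KumTop P₂ S' pr') (P Q : Matrix (Fin 2) (Fin 4) ℂ)
    (B : HT ℚ (univ : Set X) → HT ℚ (univ : Set Y) → ℚ) : Prop :=
  ∀ (I : Type) [Fintype I] (c : I → ℂ) (p q : ℕ), p + q = 8 →
    ∀ (a : I → HT ℚ (univ : Set X)) (b : I → HT ℚ (univ : Set Y)) (u v : I → Orb.EN),
      (∀ i, a i ∈ Hk univ (p : ℤ) ∧ u i ∈ ⋀[ℚ]^p (Orb.V × Orb.V) ∧ T.j ℚ (a i) = T.β (u i)) →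
      (∀ i, b i ∈ Hk univ (q : ℤ) ∧ v i ∈ ⋀[ℚ]^q (Orb.V × Orb.V) ∧ T'.j ℚ (b i) = T'.β (v i)) →
      (∀ M, CLin 4 (eP P Q) M → ∑ i, c i • pbM M (uv (u i) (v i)) = 0) →
      ∑ i, c i * (B (a i) (b i) : ℂ) = 0

end

end Pool.Agent.Lib.MP_d3d358_ag.Cw
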