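import Pool.Agent.Lib.MP_d3d358_ag.Cw.KAlg

/-! Five holomorphic one forms on a complex four space multiply to zero. -/

set_option autoImplicit false

namespace Pool.Agent.Lib.MP_d3d358_ag.Cw

open ExteriorAlgebra

section Gen
variable {A : Type} [Ring A] [Algebra ℂ A]

/-- the elements of `O` anticommute -/
def KbAC (O : Submodule ℂ A) : Prop := ∀ x ∈ O, ∀ y ∈ O, x * y = -(y * x)

theorem kb_span {S : Set A} (h : ∀ x ∈ S, ∀ y ∈ S, x * y = -(y * x)) :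
    KbAC (Submodule.span ℂ S) := by
  intro x hx y hy
  induction hx, hy using Submodule.span_induction₂ with
  | mem_mem x y hx hy => exact h x hx y hy
  | zero_left y _ => simp
  | zero_right x _ => simp
  | add_left x y z _ _ _ h1 h2 => rw [add_mul, mul_add, h1, h2, neg_add]
  | add_right x y z _ _ _ h1 h2 => rw [add_mul, mul_add, h1, h2, neg_add]
  | smul_left r x y _ _ h1 => rw [smul_mul_assoc, mul_smul_comm, h1, smul_neg]
  | smul_right r x y _ _ h1 => rw [smul_mul_assoc, mul_smul_comm, h1, smul_neg]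

variable {O : Submodule ℂ A}

theorem KbAC.sq (hO : KbAC O) {x : A} (hx : x ∈ O) : x * x = 0 := by
  have h := hO x hx x hx
  have h2 : (2 : ℂ) • (x * x) = 0 := by
    rw [two_smul]; nth_rewrite 1 [h]; exact neg_add_cancel _
  have h3 : x * x = (2 : ℂ)⁻¹ • ((2 : ℂ) • (x * x)) := by
    rw [smul_smul, inv_mul_cancel₀ two_ne_zero, one_smul]
  rw [h3, h2, smul_zero]

theorem KbAC.two (hO : KbAC O) {x y z : A} (hx : x ∈ O) (hy : y ∈ O) (hz : z ∈ O) :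
    x * (y * z) = y * z * x := by
  rw [← mul_assoc, hO x hx y hy, neg_mul, mul_assoc, hO x hx z hz, mul_neg, neg_neg, mul_assoc]

theorem kb_lc_mem {n : ℕ} {z : Fin n → A} {H : Submodule ℂ A} (hz : ∀ i, z i ∈ H)
    (c : Fin n → ℂ) : Fintype.linearCombination ℂ z c ∈ H := by
  rw [Fintype.linearCombination_apply]
  exact H.sum_mem fun i _ => H.smul_mem _ (hz i)

/-- the algebra map with `e_i ↦ z i` -/
noncomputable def KbAC.lift (hO : KbAC O) {n : ℕ} {z : Fin n → A} (hz : ∀ i, z i ∈ O) :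
    ExteriorAlgebra ℂ (Fin n → ℂ) →ₐ[ℂ] A :=
  ExteriorAlgebra.lift ℂ ⟨Fintype.linearCombination ℂ z, fun c => hO.sq (kb_lc_mem hz c)⟩

theorem KbAC.lift_ι (hO : KbAC O) {n : ℕ} {z : Fin n → A} (hz : ∀ i, z i ∈ O) (c : Fin n → ℂ) :
    hO.lift hz (ι ℂ c) = Fintype.linearCombination ℂ z c := by
  simp [KbAC.lift]

theorem KbAC.five (hO : KbAC O) {z : Fin 4 → A} (hz : ∀ i, z i ∈ O) {a b c d e : A}
    (ha : a ∈ Submodule.span ℂ (Set.range z)) (hb : b ∈ Submodule.span ℂ (Set.range z))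
    (hc : c ∈ Submodule.span ℂ (Set.range z)) (hd : d ∈ Submodule.span ℂ (Set.range z))
    (he : e ∈ Submodule.span ℂ (Set.range z)) : a * (b * (c * (d * e))) = 0 := by
  rw [← Fintype.range_linearCombination] at ha hb hc hd he
  obtain ⟨a, rfl⟩ := ha
  obtain ⟨b, rfl⟩ := hb
  obtain ⟨c, rfl⟩ := hc
  obtain ⟨d, rfl⟩ := hd
  obtain ⟨e, rfl⟩ := he
  have h0 : ιMulti ℂ 5 ![a, b, c, d, e] = 0 := by
    refine AlternatingMap.map_linearDependent _ _ fun h => ?_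
    have := h.fintype_card_le_finrank
    simp at this
  have h1 := congrArg (hO.lift hz) h0
  rw [ιMulti_apply] at h1
  simpa [List.ofFn_succ, hO.lift_ι hz] using h1

theorem kb_multi (B : Fin 4 → Fin 4 → ℂ) :
    ιMulti ℂ 4 B = (Matrix.of B).det • ιMulti ℂ 4 (Pi.basisFun ℂ (Fin 4)) := by
  have h : ιMulti ℂ 4 = (Pi.basisFun ℂ (Fin 4)).det.smulRight
      (ιMulti ℂ 4 (Pi.basisFun ℂ (Fin 4))) := by
    refine (Pi.basisFun ℂ (Fin 4)).ext_alternating fun i hi => ?_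
    let σ : Equiv.Perm (Fin 4) := Equiv.ofBijective i (Finite.injective_iff_bijective.1 hi)
    change ιMulti ℂ 4 (Pi.basisFun ℂ (Fin 4) ∘ σ) = (_ : AlternatingMap _ _ _ _) (Pi.basisFun ℂ (Fin 4) ∘ σ)
    rw [AlternatingMap.map_perm, AlternatingMap.map_perm, AlternatingMap.smulRight_apply,
      Module.Basis.det_self, one_smul]
  have h2 := DFunLike.congr_fun h B
  rw [h2, AlternatingMap.smulRight_apply, Pi.basisFun_det_apply]

theorem KbAC.top (hO : KbAC O) {y : Fin 4 → A} (hy : ∀ i, y i ∈ O) {B : Fin 4 → Fin 4 → ℂ}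
    (hB : (Matrix.of B).det ≠ 0) : y 0 * y 1 * y 2 * y 3 = (Matrix.of B).det⁻¹ •
      (Fintype.linearCombination ℂ y (B 0) * (Fintype.linearCombination ℂ y (B 1) *
        (Fintype.linearCombination ℂ y (B 2) * Fintype.linearCombination ℂ y (B 3)))) := by
  have h1 := congrArg (hO.lift hy) (kb_multi B)
  rw [map_smul, ιMulti_apply, ιMulti_apply] at h1
  simp only [List.ofFn_succ, List.ofFn_zero, List.prod_cons, List.prod_nil, map_mul, hO.lift_ι hy,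
    mul_one, Pi.basisFun_apply, Fintype.linearCombination_apply_single, one_smul] at h1
  have h2 : Fintype.linearCombination ℂ y (B 0) * (Fintype.linearCombination ℂ y (B 1) *
        (Fintype.linearCombination ℂ y (B 2) * Fintype.linearCombination ℂ y (B 3))) =
      (Matrix.of B).det • (y 0 * (y 1 * (y 2 * y 3))) := h1
  rw [h2, smul_smul, inv_mul_cancel₀ hB, one_smul, mul_assoc, mul_assoc]

open Orb

theorem kb_det {Q : Matrix (Fin 2) (Fin 4) ℂ} (hQ : ∀ t, AS.cx Q t = 0 → t = 0) :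
    (Matrix.of ![Q 0, Q 1, star (Q 0), star (Q 1)]).det ≠ 0 := by
  intro h
  obtain ⟨v, hv, h0⟩ := Matrix.exists_mulVec_eq_zero_iff.2 h
  have a : ∀ c : Fin 2, ∑ i, Q c i * v i = 0 ∧ ∑ i, star (Q c i) * v i = 0 := by
    intro c
    fin_cases c
    · exact ⟨congrFun h0 0, congrFun h0 2⟩
    · exact ⟨congrFun h0 1, congrFun h0 3⟩
  have b : ∀ c : Fin 2, ∑ i, Q c i * star (v i) = 0 := fun c => by
    have := congrArg star (a c).2
    simpa [star_sum] using this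
  have h1 : (fun i => (v i).re) = 0 := hQ _ (funext fun c => by
    have e : ∀ i, Q c i * ((v i).re : ℂ) = (1 / 2) * (Q c i * v i + Q c i * star (v i)) := fun i => by
      rw [Complex.re_eq_add_conj]; simp only [RCLike.star_def]; ring
    change ∑ i, Q c i * ((v i).re : ℂ) = 0
    simp only [e, ← Finset.mul_sum, Finset.sum_add_distrib, (a c).1, b c, add_zero, mul_zero])
  have h2 : (fun i => (v i).im) = 0 := hQ _ (funext fun c => by
    have e : ∀ i, Q c i * ((v i).im : ℂ) =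
        (2 * Complex.I)⁻¹ * (Q c i * v i - Q c i * star (v i)) := fun i => by
      rw [Complex.im_eq_sub_conj]; simp only [RCLike.star_def]; ring
    change ∑ i, Q c i * ((v i).im : ℂ) = 0
    simp only [e, ← Finset.mul_sum, Finset.sum_sub_distrib, (a c).1, b c, sub_zero, mul_zero])
  exact hv (funext fun i => Complex.ext (congrFun h1 i) (congrFun h2 i))

variable [Algebra ℚ A]

/-- the complex one form with coefficients `c` along `φ` -/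
noncomputable def kbW (Φ : EN →ₐ[ℚ] A) (φ : V →ₗ[ℚ] V × V) (c : Fin 4 → ℂ) : A :=
  Fintype.linearCombination ℂ (fun i => Φ (ι ℚ (φ (Pi.single i 1)))) c

theorem kbW_eq (Φ : EN →ₐ[ℚ] A) (φ : V →ₗ[ℚ] V × V) (c : Fin 4 → ℂ) :
    kbW Φ φ c = ∑ i, c i • Φ (ι ℚ (φ (Pi.single i 1))) := Fintype.linearCombination_apply _ _ _

theorem kbW_sub (Φ : EN →ₐ[ℚ] A) (φ ψ : V →ₗ[ℚ] V × V) (c : Fin 4 → ℂ) :
    kbW Φ (φ - ψ) c = kbW Φ φ c - kbW Φ ψ c := by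
  simp [kbW_eq, smul_sub, Finset.sum_sub_distrib]

theorem kbW_neg (Φ : EN →ₐ[ℚ] A) (φ : V →ₗ[ℚ] V × V) (c : Fin 4 → ℂ) :
    kbW Φ (-φ) c = -kbW Φ φ c := by
  simp [kbW_eq]

theorem kbW_p {H : Submodule ℂ A} (Φ : EN →ₐ[ℚ] A) {c : Fin 4 → ℂ}
    (h0 : kbW Φ (LinearMap.inl ℚ V V) c ∈ H) (h1 : kbW Φ (LinearMap.inr ℚ V V) c ∈ H) (a : Fin 3) :
    kbW Φ (p a) c ∈ H := by
  fin_cases a
  · exact h0
  · exact h1
  · change kbW Φ (-LinearMap.inl ℚ V V - LinearMap.inr ℚ V V) c ∈ H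
    rw [kbW_sub, kbW_neg]
    exact H.sub_mem (H.neg_mem h0) h1

theorem kb_t2 (Φ : EN →ₐ[ℚ] A) (a b : Fin 4 → ℂ) : ∑ i, ∑ j, (a i * b j) • Φ (t2 i j) =
    ∑ α, kbW Φ (p α) a * kbW Φ (p α) b := by
  simp only [kbW_eq, Finset.sum_mul_sum, smul_mul_smul_comm, t2, tl, LinearMap.sum_apply,
    AlgHom.toLinearMap_apply, map_sum, map_mul, map_apply_ι, Finset.smul_sum]
  symm
  rw [Finset.sum_comm]
  exact Finset.sum_congr rfl fun i _ => Finset.sum_comm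

theorem kb_vol (hO : KbAC O) (Φ : EN →ₐ[ℚ] A) (hΦ : ∀ x, Φ (ι ℚ x) ∈ O)
    {Q : Matrix (Fin 2) (Fin 4) ℂ} (hQ : ∀ t, AS.cx Q t = 0 → t = 0) (φ : V →ₗ[ℚ] V × V) :
    ∃ (d : ℂ) (r : A), Φ (map φ vol) = d • (kbW Φ φ (Q 0) * (kbW Φ φ (Q 1) * r)) := by
  have h : vol = ι ℚ (Pi.single 0 1 : V) * ι ℚ (Pi.single 1 1 : V) * ι ℚ (Pi.single 2 1 : V)
      * ι ℚ (Pi.single 3 1 : V) := rfl
  refine ⟨_, _, Eq.trans ?_ (hO.top (y := fun i => Φ (ι ℚ (φ (Pi.single i 1)))) (fun i => hΦ _)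
    (kb_det hQ))⟩
  simp only [h, map_mul, map_apply_ι]

variable {z : Fin 4 → A} {P Q : Matrix (Fin 2) (Fin 4) ℂ} {Φ Ψ : EN →ₐ[ℚ] A}

theorem kb_sq (hO : KbAC O) (hz : ∀ i, z i ∈ O) (hΨ : ∀ x, Ψ (ι ℚ x) ∈ O)
    (hQ : ∀ t, AS.cx Q t = 0 → t = 0)
    (hL : ∀ α c, kbW Φ (p α) (P c) ∈ Submodule.span ℂ (Set.range z))
    (hR : ∀ α c, kbW Ψ (p α) (Q c) ∈ Submodule.span ℂ (Set.range z)) :
    ∑ i, ∑ j, ∑ k, ∑ l, (P 0 i * P 1 j * (P 0 k * P 1 l)) •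
      (Φ (t2 i j * t2 k l) * Ψ (tl vol)) = 0 := by
  have e : ∑ i, ∑ j, ∑ k, ∑ l, (P 0 i * P 1 j * (P 0 k * P 1 l)) •
      (Φ (t2 i j * t2 k l) * Ψ (tl vol)) = (∑ i, ∑ j, (P 0 i * P 1 j) • Φ (t2 i j)) *
        ((∑ i, ∑ j, (P 0 i * P 1 j) • Φ (t2 i j)) * Ψ (tl vol)) := by
    rw [Finset.sum_mul]
    refine Finset.sum_congr rfl fun i _ => ?_
    rw [Finset.sum_mul]
    refine Finset.sum_congr rfl fun j _ => ?_
    rw [Finset.sum_mul, Finset.mul_sum]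
    refine Finset.sum_congr rfl fun k _ => ?_
    rw [Finset.sum_mul, Finset.mul_sum]
    refine Finset.sum_congr rfl fun l _ => ?_
    rw [map_mul, smul_mul_assoc, smul_mul_assoc, mul_smul_comm, smul_smul, mul_assoc (Φ _)]
  rw [e, kb_t2, Finset.sum_mul]
  refine Finset.sum_eq_zero fun α _ => ?_
  rw [Finset.sum_mul, Finset.mul_sum]
  refine Finset.sum_eq_zero fun β _ => ?_
  rw [tl, LinearMap.sum_apply, map_sum, Finset.mul_sum, Finset.mul_sum]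
  refine Finset.sum_eq_zero fun γ _ => ?_
  obtain ⟨d, r, h⟩ := kb_vol hO Ψ hΨ hQ (p γ)
  have h5 := hO.five hz (hL α 0) (hL α 1) (hL β 0) (hL β 1) (hR γ 0)
  have h6 := congrArg (· * (kbW Ψ (p γ) (Q 1) * r)) h5
  simp only [mul_assoc, zero_mul] at h6
  rw [AlgHom.toLinearMap_apply, h]
  simp only [mul_smul_comm, mul_assoc, h6, smul_zero]

theorem kb_q2 (Ψ : EN →ₐ[ℚ] A) (a : Fin 4 → ℂ) (k : Fin 4) : ∑ l, a l • Ψ (q2 l k) =
    (1 / 2 : ℚ) • ∑ s : Equiv.Perm (Fin 3), kbW Ψ (p (s 0)) a *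
      (Ψ (ι ℚ (p (s 0) (Pi.single k 1))) * Ψ (map (p (s 0) - p (s 1)) vol)) := by
  have e : ∀ s : Equiv.Perm (Fin 3), act s (map (p 0 - p 1) vol) = map (p (s 0) - p (s 1)) vol :=
    fun s => by
      rw [act, ← AlgHom.comp_apply, map_comp_map, LinearMap.comp_sub, coprod_p, coprod_p]
  have e' : ∀ l, Ψ (q2 l k) = (1 / 2 : ℚ) • ∑ s : Equiv.Perm (Fin 3),
      Ψ (ι ℚ (p (s 0) (Pi.single l 1))) *
        (Ψ (ι ℚ (p (s 0) (Pi.single k 1))) * Ψ (map (p (s 0) - p (s 1)) vol)) := fun l => by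
    rw [q2, push, map_smul, map_sum]
    congr 1
    refine Finset.sum_congr rfl fun s _ => ?_
    rw [map_mul (act s), act_map, e, map_mul, map_mul, map_mul, map_apply_ι, map_apply_ι, mul_assoc]
  simp only [e', kbW_eq, Finset.sum_mul, smul_mul_assoc]
  rw [Finset.sum_comm, Finset.smul_sum]
  refine Finset.sum_congr rfl fun l _ => ?_
  rw [smul_comm, Finset.smul_sum]

theorem kb_push (hO : KbAC O) (hz : ∀ i, z i ∈ O) (hΨ : ∀ x, Ψ (ι ℚ x) ∈ O)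
    (hQ : ∀ t, AS.cx Q t = 0 → t = 0)
    (hL : ∀ α c, kbW Φ (p α) (P c) ∈ Submodule.span ℂ (Set.range z))
    (hR : ∀ α c, kbW Ψ (p α) (Q c) ∈ Submodule.span ℂ (Set.range z)) (c : Fin 2) (k : Fin 4) :
    ∑ i, ∑ j, ∑ l, (P 0 i * P 1 j * Q c l) • (Φ (t2 i j) * Ψ (q2 l k)) = 0 := by
  have e : ∑ i, ∑ j, ∑ l, (P 0 i * P 1 j * Q c l) • (Φ (t2 i j) * Ψ (q2 l k)) =
      (∑ i, ∑ j, (P 0 i * P 1 j) • Φ (t2 i j)) * ∑ l, Q c l • Ψ (q2 l k) := by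
    rw [Finset.sum_mul]
    refine Finset.sum_congr rfl fun i _ => ?_
    rw [Finset.sum_mul]
    refine Finset.sum_congr rfl fun j _ => ?_
    rw [Finset.mul_sum]
    refine Finset.sum_congr rfl fun l _ => ?_
    rw [smul_mul_assoc, mul_smul_comm, smul_smul]
  have hs : Submodule.span ℂ (Set.range z) ≤ O :=
    Submodule.span_le.2 (Set.range_subset_iff.2 hz)
  rw [e, kb_t2, kb_q2, mul_smul_comm, Finset.sum_mul, Finset.sum_eq_zero, smul_zero]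
  intro α _
  rw [Finset.mul_sum]
  refine Finset.sum_eq_zero fun s _ => ?_
  obtain ⟨d, r, h⟩ := kb_vol hO Ψ hΨ hQ (p (s 0) - p (s 1))
  have hv : ∀ c, kbW Ψ (p (s 0) - p (s 1)) (Q c) ∈ Submodule.span ℂ (Set.range z) := fun c => by
    rw [kbW_sub]; exact Submodule.sub_mem _ (hR _ c) (hR _ c)
  have h5 := hO.five hz (hL α 0) (hL α 1) (hR (s 0) c) (hv 0) (hv 1)
  have h6 := congrArg (· * (Ψ (ι ℚ (p (s 0) (Pi.single k 1))) * r)) h5
  have h7 := congrArg (· * r) (hO.two (hΨ (p (s 0) (Pi.single k 1))) (hs (hv 0)) (hs (hv 1)))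
  simp only [mul_assoc, zero_mul] at h6 h7
  rw [h]
  simp only [mul_smul_comm, mul_assoc, h7, h6, smul_zero]

end Gen

section Use
open Orb AS TensorProduct
variable {P Q : Matrix (Fin 2) (Fin 4) ℂ}

/-- the holomorphic coordinates of `ℂ⁴` as one forms -/
noncomputable def kbZ (j : Fin 4) : ExteriorAlgebra ℂ (Fin (4 * 2) → ℂ) :=
  ι ℂ fun l => (rl 4).symm (Pi.single l 1) j

theorem kb_ac : KbAC (LinearMap.range (ι ℂ : (Fin (4 * 2) → ℂ) →ₗ[ℂ] _)) := by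
  rintro _ ⟨x, rfl⟩ _ ⟨y, rfl⟩
  exact eq_neg_of_add_eq_zero_left (ι_add_mul_swap x y)

theorem kb_pbM (M : Matrix (I8 ⊕ I8) (Fin (4 * 2)) ℝ) (x : I8 ⊕ I8 → ℚ) :
    pbM M (ι ℚ x) = ι ℂ (rowL M x) := lift_ι_apply ℚ _ _ x

theorem kb_hol {M : Matrix (I8 ⊕ I8) (Fin (4 * 2)) ℝ} (hM : CLin 4 (eP P Q) M)
    (g : (I8 → ℚ) →ₗ[ℚ] I8 ⊕ I8 → ℚ) (φ : V →ₗ[ℚ] V × V) (a : Fin 4 → ℂ) (n : Fin 4 → I8 ⊕ I8)
    (hn : ∀ i, g (e8 ℚ (φ (Pi.single i 1))) = Pi.single (n i) 1) (k : Fin 4 × Fin 2)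
    (hk : ∀ t, eP P Q t k = ∑ i, a i * t (n i)) :
    kbW ((pbM M).comp (map (g ∘ₗ e8 ℚ))) φ a ∈ Submodule.span ℂ (Set.range kbZ) := by
  obtain ⟨T, hT⟩ := hM
  have e1 : ∀ i, (pbM M).comp (map (g ∘ₗ e8 ℚ)) (ι ℚ (φ (Pi.single i 1))) =
      ι ℂ fun l => (M (n i) l : ℂ) := fun i => by
    rw [AlgHom.comp_apply, map_apply_ι, LinearMap.comp_apply, hn, kb_pbM]
    congr 1
    funext l
    change ∑ j, (((Pi.single (n i) 1 : I8 ⊕ I8 → ℚ) j : ℚ) : ℂ) * M j l = _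
    rw [Finset.sum_eq_single (n i)]
    · simp
    · intro j _ hj; simp [hj]
    · simp
  have e2 : ∑ i, a i • (fun l => (M (n i) l : ℂ)) =
      ∑ j, T (Pi.single j 1) k • fun l => (rl 4).symm (Pi.single l 1) j := by
    funext l
    have h := congrFun (hT l) k
    rw [hk, pi_eq_sum_univ' ((rl 4).symm (Pi.single l 1)), map_sum] at h
    simp only [Finset.sum_apply, Pi.smul_apply, smul_eq_mul, map_smul] at h ⊢
    rw [h]
    exact Finset.sum_congr rfl fun j _ => mul_comm _ _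
  simp only [kbW_eq, e1, ← map_smul]
  rw [← map_sum, e2, map_sum]
  exact Submodule.sum_mem _ fun j _ => by
    rw [map_smul]; exact Submodule.smul_mem _ _ (Submodule.subset_span ⟨j, rfl⟩)

theorem kb_left {M : Matrix (I8 ⊕ I8) (Fin (4 * 2)) ℝ} (hM : CLin 4 (eP P Q) M) (α : Fin 3)
    (c : Fin 2) : kbW ((pbM M).comp (map (el I8 I8 ∘ₗ e8 ℚ))) (p α) (P c) ∈
      Submodule.span ℂ (Set.range kbZ) := by
  refine kbW_p _ (kb_hol hM _ _ _ (fun i => .inl (.inl i)) (fun i => ?_) (0, c) fun t => rfl)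
    (kb_hol hM _ _ _ (fun i => .inl (.inr i)) (fun i => ?_) (1, c) fun t => rfl) α
  · funext j
    rcases j with (j | j) | j <;> simp [el, e8, Pi.single_apply]
  · funext j
    rcases j with (j | j) | j <;> simp [el, e8, Pi.single_apply]

theorem kb_right {M : Matrix (I8 ⊕ I8) (Fin (4 * 2)) ℝ} (hM : CLin 4 (eP P Q) M) (α : Fin 3)
    (c : Fin 2) : kbW ((pbM M).comp (map (er I8 I8 ∘ₗ e8 ℚ))) (p α) (Q c) ∈
      Submodule.span ℂ (Set.range kbZ) := by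
  refine kbW_p _ (kb_hol hM _ _ _ (fun i => .inr (.inl i)) (fun i => ?_) (2, c) fun t => rfl)
    (kb_hol hM _ _ _ (fun i => .inr (.inr i)) (fun i => ?_) (3, c) fun t => rfl) α
  · funext j
    rcases j with j | j | j <;> simp [er, e8, Pi.single_apply]
  · funext j
    rcases j with j | j | j <;> simp [er, e8, Pi.single_apply]

theorem kb_one (M : Matrix (I8 ⊕ I8) (Fin (4 * 2)) ℝ) (g : (V × V) →ₗ[ℚ] I8 ⊕ I8 → ℚ) (x : V × V) :
    (pbM M).comp (map g) (ι ℚ x) ∈ LinearMap.range (ι ℂ : (Fin (4 * 2) → ℂ) →ₗ[ℂ] _) := by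
  rw [AlgHom.comp_apply, map_apply_ι, kb_pbM]
  exact ⟨_, rfl⟩

theorem alg_push (hQ : ∀ t, cx Q t = 0 → t = 0) {M : Matrix (I8 ⊕ I8) (Fin (4 * 2)) ℝ}
    (hM : CLin 4 (eP P Q) M) (c : Fin 2) (k : Fin 4) : ∑ s : Fin 4 × Fin 4 × Fin 4,
      (P 0 s.1 * P 1 s.2.1 * Q c s.2.2) • pbM M (uv (t2 s.1 s.2.1) (q2 s.2.2 k)) = 0 := by
  have h := kb_push kb_ac (fun _ => ⟨_, rfl⟩) (kb_one M _) hQ (kb_left hM) (kb_right hM) c k
  simp only [Fintype.sum_prod_type, uv, map_mul (pbM M)]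
  exact h

theorem alg_sq (hQ : ∀ t, cx Q t = 0 → t = 0) {M : Matrix (I8 ⊕ I8) (Fin (4 * 2)) ℝ}
    (hM : CLin 4 (eP P Q) M) : ∑ s : (Fin 4 × Fin 4) × Fin 4 × Fin 4,
      (P 0 s.1.1 * P 1 s.1.2 * (P 0 s.2.1 * P 1 s.2.2)) •
        pbM M (uv (t2 s.1.1 s.1.2 * t2 s.2.1 s.2.2) (tl vol)) = 0 := by
  have h := kb_sq kb_ac (fun _ => ⟨_, rfl⟩) (kb_one M _) hQ (kb_left hM) (kb_right hM)
  simp only [Fintype.sum_prod_type, uv, map_mul (pbM M)]
  exact h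

theorem alg_zero (hQ : ∀ t, cx Q t = 0 → t = 0) (L : EN →ₗ[ℚ] ℚ) :
    ∑ i, ∑ j, ∑ k, ∑ l, Q 0 i * Q 1 j * (Q 0 k * Q 1 l) *
      (L (t2 i j * t2 k l * tl vol) : ℂ) = 0 := by
  let Φ : EN →ₐ[ℚ] ℂ ⊗[ℚ] EN := Algebra.TensorProduct.includeRight
  have hO : KbAC (Submodule.span ℂ (Set.range fun x => Φ (ι ℚ x))) := kb_span (by
    rintro _ ⟨x, rfl⟩ _ ⟨y, rfl⟩
    change Φ _ * Φ _ = -(Φ _ * Φ _)
    rw [← map_mul Φ, ← map_mul Φ, ← map_neg Φ, eq_neg_of_add_eq_zero_left (ι_add_mul_swap x y)])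
  have hΦ : ∀ x, Φ (ι ℚ x) ∈ Submodule.span ℂ (Set.range fun x => Φ (ι ℚ x)) := fun x =>
    Submodule.subset_span ⟨x, rfl⟩
  let z : Fin 4 → ℂ ⊗[ℚ] EN := ![kbW Φ (LinearMap.inl ℚ V V) (Q 0), kbW Φ (LinearMap.inl ℚ V V) (Q 1),
    kbW Φ (LinearMap.inr ℚ V V) (Q 0), kbW Φ (LinearMap.inr ℚ V V) (Q 1)]
  have hz : ∀ i, z i ∈ Submodule.span ℂ (Set.range fun x => Φ (ι ℚ x)) := fun i => by
    fin_cases i <;> exact kb_lc_mem (fun _ => hΦ _) _
  have hm : ∀ i, z i ∈ Submodule.span ℂ (Set.range z) := fun i =>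
    Submodule.subset_span (Set.mem_range_self i)
  have hL : ∀ α c, kbW Φ (p α) (Q c) ∈ Submodule.span ℂ (Set.range z) := fun α c => by
    fin_cases c
    · exact kbW_p _ (hm 0) (hm 2) α
    · exact kbW_p _ (hm 1) (hm 3) α
  have h := congrArg (fun x => TensorProduct.rid ℚ ℂ (L.lTensor ℂ x)) (kb_sq hO hz hΦ hQ hL hL)
  have e : ∀ (a : ℂ) (u v : EN), TensorProduct.rid ℚ ℂ (L.lTensor ℂ (a • (Φ u * Φ v))) =
      a * (L (u * v) : ℂ) := fun a u v => by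
    rw [← map_mul]
    change TensorProduct.rid ℚ ℂ (L.lTensor ℂ (a • ((1 : ℂ) ⊗ₜ[ℚ] (u * v)))) = _
    rw [smul_tmul', LinearMap.lTensor_tmul, TensorProduct.rid_tmul, smul_eq_mul, mul_one,
      Rat.smul_def, mul_comm]
  simpa only [map_sum, e, map_zero] using h

end Use

end Pool.Agent.Lib.MP_d3d358_ag.Cw
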