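import Pool.Agent.Lib.MP_d3d358_ag.Cw.Top
import Pool.Agent.Lib.MP_d3d358_ag.AS.Leray

/-! Direct sums of theories; homogeneous bases of cohomology. -/

set_option autoImplicit false

namespace Pool.Agent.Lib.MP_d3d358_ag.Cw

open Topology Set Filter AS

section Sum
variable {R B I M : Type} [CommRing R] [MetricSpace B]

theorem kun_choose {M' : Type} [Zero M] [Zero M'] (a : I →₀ M') {P : I → M → Prop}
    (h0 : ∀ i, a i = 0 → P i 0) (h : ∀ i, ∃ b, P i b) :
    ∃ b : I →₀ M, b.support ⊆ a.support ∧ ∀ i, P i (b i) := by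
  classical
  choose f hf using h
  refine ⟨Finsupp.onFinset a.support (fun i => if a i = 0 then 0 else f i)
    fun i hi => Finsupp.mem_support_iff.2 fun e => hi (if_pos e),
    Finsupp.support_onFinset_subset, fun i => ?_⟩
  rw [Finsupp.onFinset_apply]
  split_ifs with e
  exacts [h0 i e, hf i]

/-- finitely supported families with values in given submodules -/
def kunPi [AddCommGroup M] [Module R M] (P : I → Submodule R M) : Submodule R (I →₀ M) where
  carrier := {m | ∀ i, m i ∈ P i}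
  zero_mem' := fun _ => zero_mem _
  add_mem' := fun h h' i => add_mem (h i) (h' i)
  smul_mem' := fun c _ h i => (P i).smul_mem c (h i)

/-- direct sum of shifted copies of a theory -/
noncomputable def kunTh (T : Th R B) (dg : I → ℤ) (h0 : ∀ i, 0 ≤ dg i) : Th R B where
  M := I →₀ T.M
  d := Finsupp.mapRange.linearMap T.d
  D k := kunPi fun i => T.D (k - dg i)
  N S := kunPi fun _ => T.N S
  low := by
    obtain ⟨k₀, h⟩ := T.low
    exact ⟨k₀, fun k hk m hm => Finsupp.ext fun i => h _ (by have := h0 i; omega) _ (hm i)⟩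
  d_deg := fun k m hm i => by
    have := T.d_deg _ _ (hm i)
    rwa [sub_add_eq_add_sub] at this
  d_N := fun K m hm i => T.d_N _ _ (hm i)
  dd := fun m i => T.dd (m i)
  mono := fun K L h m hm i => T.mono _ _ h (hm i)
  empty := fun m i => T.empty _
  split := fun K L k hL a ha h => by
    obtain ⟨b, -, hb⟩ := kun_choose a
      (P := fun i b => b ∈ T.D (k - dg i) ∧ b ∈ T.N K ∧ a i - b ∈ T.N L)
      (fun i e => ⟨zero_mem _, zero_mem _, by rw [e, sub_zero]; exact zero_mem _⟩)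
      fun i => T.split K L _ hL _ (ha i) (h i)
    exact ⟨b, fun i => (hb i).1, fun i => (hb i).2.1, fun i => (hb i).2.2⟩
  union := fun K L k hK hL a ha h1 h2 h => by
    obtain ⟨b, -, hb⟩ := kun_choose a
      (P := fun i b => b ∈ T.D (k - dg i - 1) ∧ b ∈ T.N K ∧ b ∈ T.N L ∧
        a i - T.d b ∈ T.N (K ∪ L))
      (fun i e => ⟨zero_mem _, zero_mem _, zero_mem _, by
        rw [e, map_zero, sub_zero]; exact zero_mem _⟩)
      fun i => T.union K L _ hK hL _ (ha i) (h1 i) (h2 i) (h i)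
    exact ⟨b, fun i => by beta_reduce; rw [sub_right_comm]; exact (hb i).1, fun i => (hb i).2.1,
      fun i => (hb i).2.2.1, fun i => (hb i).2.2.2⟩
  nhds := fun K L k hK hL hKL a ha h1 V hV h => by
    obtain ⟨b, hs, hb⟩ := kun_choose a
      (P := fun i b => b ∈ T.D (k - dg i - 1) ∧ b ∈ T.N K ∧ ∃ V' ∈ 𝓝ˢ K,
        a i - T.d b ∈ T.N (V' ∩ L))
      (fun i e => ⟨zero_mem _, zero_mem _, univ, univ_mem, by
        rw [e, map_zero, sub_zero]; exact zero_mem _⟩)
      fun i => T.nhds K L _ hK hL hKL _ (ha i) (h1 i) V hV (h i)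
    choose b1 b2 W hW e using hb
    refine ⟨b, fun i => by beta_reduce; rw [sub_right_comm]; exact b1 i, b2, ⋂ i ∈ a.support, W i,
      (biInter_finset_mem _).2 fun i _ => hW i, fun i => ?_⟩
    change a i - T.d (b i) ∈ T.N _
    by_cases hi : i ∈ a.support
    · exact T.mono _ _ (inter_subset_inter_left _ (biInter_subset_of_mem hi)) (e i)
    · rw [Finsupp.notMem_support_iff.1 hi, Finsupp.notMem_support_iff.1 fun h => hi (hs h),
        map_zero, sub_zero]
      exact zero_mem _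

variable {ι V W : Type} [AddCommMonoid V] [Module ℚ V] [AddCommMonoid W] [Module ℚ W]

theorem kun_li {v : ι → V} (h : ∀ (s : Finset ι) (g : ι → ℚ), ∑ i ∈ s, g i • v i = 0 →
    ∀ i ∈ s, g i = 0) : LinearIndependent ℚ v := by
  let _ : AddCommGroup V := Module.addCommMonoidToAddCommGroup ℚ
  exact linearIndependent_iff'.2 h

theorem kun_lin (t : Set V) : ∃ b ⊆ t, Submodule.span ℚ b = Submodule.span ℚ t ∧
    LinearIndependent ℚ ((↑) : b → V) := by
  let _ : AddCommGroup V := Module.addCommMonoidToAddCommGroup ℚ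
  exact exists_linearIndependent ℚ t

theorem kun_rinv (f : V →ₗ[ℚ] W) (hf : Function.Surjective f) :
    ∃ g : W →ₗ[ℚ] V, ∀ w, f (g w) = w := by
  let _ : AddCommGroup V := Module.addCommMonoidToAddCommGroup ℚ
  let _ : AddCommGroup W := Module.addCommMonoidToAddCommGroup ℚ
  obtain ⟨g, hg⟩ := f.exists_rightInverse_of_surjective (LinearMap.range_eq_top.2 hf)
  exact ⟨g, LinearMap.congr_fun hg⟩

theorem kun_ext {v : ι → V} (hv : LinearIndependent ℚ v) (w : ι → W) :
    ∃ f : V →ₗ[ℚ] W, ∀ i, f (v i) = w i := by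
  let _ : AddCommGroup V := Module.addCommMonoidToAddCommGroup ℚ
  obtain ⟨σ, hσ⟩ := (Finsupp.linearCombination ℚ v).exists_leftInverse_of_injective
    (LinearMap.ker_eq_bot.2 hv)
  refine ⟨Finsupp.linearCombination ℚ w ∘ₗ σ, fun i => ?_⟩
  have := LinearMap.congr_fun hσ (Finsupp.single i 1)
  simp only [LinearMap.comp_apply, Finsupp.linearCombination_single, one_smul,
    LinearMap.id_apply] at this
  rw [LinearMap.comp_apply, this, Finsupp.linearCombination_single, one_smul]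

end Sum

variable {Z Z' I : Type}

section Basis
variable [TopologicalSpace Z] {K : Set Z}

theorem kun_eq {k : ℤ} {a b : Ch Z ℚ} (ha : a ∈ DZ k) (hb : b ∈ DZ k) {da : dC a ∈ N K}
    {db : dC b ∈ N K} (e : AS.mk a da = AS.mk b db) : ∃ c ∈ DZ (k - 1), a - b - dC c ∈ N K := by
  obtain ⟨c, hc⟩ := (mk_eq_iff _ _).1 e
  refine ⟨prj (k - 1) c, prj_mem _ _, ?_⟩
  have := N_prj k hc
  rw [map_sub, prj_of_mem (sub_mem ha hb)] at this
  rwa [dC_prj, sub_add_cancel]

/-- the projection to one degree -/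
theorem kun_prj (K : Set Z) (k : ℤ) : ∃ π : HT ℚ K →ₗ[ℚ] HT ℚ K, (∀ x ∈ Hk K k, π x = x) ∧
    ∀ j, j ≠ k → ∀ x ∈ Hk K j, π x = 0 := by
  have dp : ∀ a : Zs ℚ K, dC (prj k a.1) ∈ N K := fun a => by
    rw [dC_prj]; exact N_prj _ a.2
  let q : Zs ℚ K →ₗ[ℚ] Zs ℚ K :=
    { toFun := fun a => ⟨prj k a.1, dp a⟩
      map_add' := fun a b => Subtype.ext (map_add (prj k) a.1 b.1)
      map_smul' := fun c a => Subtype.ext (map_smul (prj k) c a.1) }
  obtain ⟨σ, hσ⟩ := kun_rinv (Ring_mk (R := ℚ) K).toLinearMap fun x => by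
    obtain ⟨a, h, rfl⟩ := Ring_surj x
    exact ⟨⟨a, h⟩, rfl⟩
  have key : ∀ a h, Ring_mk K (q (σ (AS.mk a h))) = AS.mk (prj k a) (dp ⟨a, h⟩) := fun a h => by
    have e : AS.mk (σ (AS.mk a h)).1 (σ (AS.mk a h)).2 = AS.mk a h := hσ _
    obtain ⟨c, hc⟩ := (mk_eq_iff _ _).1 e
    refine (mk_eq_iff (dp _) _).2 ⟨prj (k - 1) c, ?_⟩
    have := N_prj k hc
    rw [map_sub, map_sub] at this
    rwa [dC_prj, sub_add_cancel]
  refine ⟨(Ring_mk K).toLinearMap ∘ₗ q ∘ₗ σ, ?_, ?_⟩
  · rintro _ ⟨a, h, ha, rfl⟩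
    exact (key a h).trans (congrArg (Ring_mk K) (Subtype.ext (prj_of_mem ha)))
  · rintro j hj _ ⟨a, h, ha, rfl⟩
    refine (key a h).trans ((congrArg (Ring_mk K) (Subtype.ext ?_)).trans (map_zero _))
    refine Alg_ext fun l => ?_
    change (prj k a).1 l = 0
    rw [Alg_prj]
    split_ifs with e
    exacts [ha l (by omega), rfl]

/-- a homogeneous basis of the cohomology, with its dual functionals -/
structure KunB (K : Set Z) (dg : I → ℤ) (e : I → HT ℚ K) : Prop where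
  pos : ∀ i, 0 ≤ dg i
  mem : ∀ i, e i ∈ Hk K (dg i)
  dual : ∀ i, ∃ γ : HT ℚ K →ₗ[ℚ] ℚ, γ (e i) = 1 ∧ ∀ j, j ≠ i → γ (e j) = 0
  span : ∀ k, Hk K k ≤ Submodule.span ℚ (e '' {i | dg i = k})

theorem kun_basis (K : Set Z) : ∃ (I : Type) (dg : I → ℤ) (e : I → HT ℚ K), KunB K dg e := by
  classical
  choose b h1 h2 h3 using fun k : ℤ => kun_lin (Hk (R := ℚ) K k : Set (HT ℚ K))
  refine ⟨Σ k, b k, fun i => i.1, fun i => i.2, fun i => ?_, fun i => h1 _ i.2.2, ?_,
    fun k => ?_⟩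
  · by_contra h
    exact (h3 i.1).ne_zero i.2 (Hk_neg (not_le.1 h) (h1 _ i.2.2))
  · rintro ⟨k, u⟩
    obtain ⟨π, p, p'⟩ := kun_prj K k
    obtain ⟨γ, hγ⟩ := kun_ext (h3 k) fun v => if v = u then (1 : ℚ) else 0
    refine ⟨γ ∘ₗ π, ?_, ?_⟩
    · rw [LinearMap.comp_apply, p _ (h1 _ u.2), hγ, if_pos rfl]
    · rintro ⟨j, v⟩ hv
      by_cases hj : j = k
      · subst hj
        rw [LinearMap.comp_apply, p _ (h1 _ v.2), hγ, if_neg fun h => hv (by rw [h])]
      · rw [LinearMap.comp_apply, p' j hj _ (h1 _ v.2), map_zero]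
  · rw [← (Hk K k).span_eq, ← h2]
    exact Submodule.span_mono fun u hu => ⟨⟨k, u, hu⟩, rfl, rfl⟩

end Basis

end Pool.Agent.Lib.MP_d3d358_ag.Cw
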