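import Pool.Agent.Lib.MP_d3d358_ag.Cw.LdM

/-! Lifting a lattice modulo a parameter. -/

set_option autoImplicit false

namespace Pool.Agent.Lib.MP_d3d358_ag.Cw

open Set

theorem ld_lift {S R B : Type} [CommRing S] [IsDomain S] [CommRing R] [IsDomain R]
    [IsNoetherianRing R] [CommRing B] [IsDomain B] [Algebra S R] [Algebra R B] [Algebra S B]
    [IsScalarTower S R B] [Module.Finite R B] (t : R) (π : R →ₐ[S] S) (h0 : π t = 0)
    (hπ : ∀ x, t ∣ x - algebraMap S R (π x)) (g0 : algebraMap R B t ≠ 0) :
    Module.Finite S (B ⧸ Ideal.span {algebraMap R B t}) ∧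
    ∃ (n : ℕ) (b : Fin n → B) (H : R), π H ≠ 0 ∧ Lat R b H ∧
      Lat S (Ideal.Quotient.mk (Ideal.span {algebraMap R B t}) ∘ b) (π H) := by
  set I := Ideal.span {algebraMap R B t} with hI
  let q := Ideal.Quotient.mkₐ S I
  have key : ∀ (r : R) (x : B), q (r • x) = π r • q x := fun r x => by
    obtain ⟨c, hc⟩ := hπ r
    rw [← map_smul, ← algebraMap_smul R (π r) x]
    refine Ideal.Quotient.eq.2 (Ideal.mem_span_singleton.2 ⟨c • x, ?_⟩)
    rw [← sub_smul, hc, mul_smul, Algebra.smul_def]
  have sp : ∀ (s : Set B), ∀ x ∈ Submodule.span R s, q x ∈ Submodule.span S (q '' s) := by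
    intro s x hx
    induction hx using Submodule.span_induction with
    | mem x hx => exact Submodule.subset_span ⟨x, hx, rfl⟩
    | zero => rw [map_zero]; exact zero_mem _
    | add x y _ _ a b => rw [map_add]; exact add_mem a b
    | smul r x _ a => rw [key]; exact Submodule.smul_mem _ _ a
  have fin : Module.Finite S (B ⧸ I) := by
    obtain ⟨s, hs, e⟩ := Submodule.fg_def.1 (Module.Finite.fg_top (R := R) (M := B))
    refine ⟨Submodule.fg_def.2 ⟨q '' s, hs.image _, eq_top_iff.2 fun y _ => ?_⟩⟩
    obtain ⟨x, rfl⟩ := Ideal.Quotient.mk_surjective y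
    exact sp s x (e ▸ Submodule.mem_top)
  obtain ⟨n, b', H₀, hH, L⟩ := exists_lat (S := S) (M := B ⧸ I)
  choose b hb using fun i => Ideal.Quotient.mk_surjective (b' i)
  obtain rfl : b' = q ∘ b := funext fun i => (hb i).symm
  let N := Submodule.span R (range b)
  obtain ⟨p, p1, -, p2, p3⟩ :=
    LinearMap.exists_monic_and_natDegree_eq_and_coeff_mem_pow_and_aeval_eq_zero R
    (algebraMap R (Module.End R (B ⧸ N)) (algebraMap S R H₀)) (Ideal.span {t}) (by
      rintro _ ⟨y, rfl⟩
      obtain ⟨x, rfl⟩ := N.mkQ_surjective y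
      obtain ⟨c, hc⟩ := (Submodule.mem_span_range_iff_exists_fun S).1 (L.sp (q x))
      simp only [Function.comp_apply, ← map_smul, ← map_sum] at hc
      obtain ⟨z, hz⟩ := Ideal.mem_span_singleton.1 (Ideal.Quotient.eq.1 hc.symm)
      have e : N.mkQ (∑ i, c i • b i) = 0 := (Submodule.Quotient.mk_eq_zero N).2
        (Submodule.sum_mem _ fun i _ => N.smul_of_tower_mem _ (Submodule.subset_span ⟨i, rfl⟩))
      rw [Module.algebraMap_end_apply, ← map_smul, algebraMap_smul, sub_eq_iff_eq_add.1 hz, map_add,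
        e, add_zero, ← Algebra.smul_def, map_smul]
      exact Submodule.smul_mem_smul (Ideal.mem_span_singleton_self t) Submodule.mem_top)
  have hN : ∀ x, p.eval (algebraMap S R H₀) • x ∈ N := fun x => by
    rw [Polynomial.aeval_algebraMap_apply_eq_algebraMap_eval] at p3
    have := LinearMap.congr_fun p3 (N.mkQ x)
    rw [Module.algebraMap_end_apply, ← map_smul] at this
    exact (Submodule.Quotient.mk_eq_zero N).1 this
  refine ⟨fin, n, b, _, ?_, ⟨Fintype.linearIndependent_iff.2 fun c hc i => ?_, hN⟩, L.ind,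
    fun y => ?_⟩
  · rw [p1.as_sum, Polynomial.eval_add, Polynomial.eval_finsetSum, map_add, map_sum,
      Finset.sum_eq_zero, add_zero, Polynomial.eval_pow, Polynomial.eval_X, map_pow, π.commutes]
    · exact pow_ne_zero _ hH
    · intro i hi
      obtain ⟨z, hz⟩ := Ideal.mem_span_singleton.1 (Ideal.pow_le_self
        (Nat.sub_ne_zero_of_lt (Finset.mem_range.1 hi)) (p2 i))
      rw [Polynomial.eval_mul, Polynomial.eval_C, hz, map_mul, map_mul, h0, zero_mul, zero_mul]
  · have all : ∀ (k : ℕ) (c : Fin n → R), ∑ i, c i • b i = 0 → ∀ i, t ^ k ∣ c i := by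
      intro k
      induction k with
      | zero => exact fun c _ i => by simp
      | succ k ih =>
        intro c hc
        have h1 := congrArg q hc
        simp only [map_sum, key, map_zero] at h1
        have h2 : ∀ i, t ∣ c i := fun i => by
          simpa [Fintype.linearIndependent_iff.1 L.ind _ h1 i] using hπ (c i)
        choose c' hc' using h2
        simp only [hc', mul_smul, ← Finset.smul_sum] at hc
        rw [Algebra.smul_def] at hc
        intro i
        rw [hc', pow_succ']
        exact mul_dvd_mul_left t (ih c' ((mul_eq_zero.1 hc).resolve_left g0) i)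
    have ne : Ideal.span {t} ≠ ⊤ := fun e =>
      ((Ideal.span_singleton_eq_top.1 e).map π).ne_zero h0
    rw [← Ideal.mem_bot, ← Ideal.iInf_pow_eq_bot_of_isDomain _ ne]
    exact Ideal.mem_iInf.2 fun k => by
      rw [Ideal.span_singleton_pow]; exact Ideal.mem_span_singleton.2 (all k c hc i)
  · obtain ⟨x, rfl⟩ := Ideal.Quotient.mk_surjective y
    have := sp _ _ (hN x)
    rwa [key, ← range_comp] at this

end Pool.Agent.Lib.MP_d3d358_ag.Cw
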