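import Pool.Agent.Lib.MP_d3d358_ag.Cw.LdD

/-! Lattices, matrices and traces. -/

set_option autoImplicit false

namespace Pool.Agent.Lib.MP_d3d358_ag.Cw

open Topology Set Filter TensorProduct

section
variable {S K M : Type} [CommRing S] [IsDomain S] [AddCommGroup M] [Module S M] {n : ℕ}
  {b : Fin n → M} {H : S}

theorem exists_lat [Module.Finite S M] :
    ∃ (n : ℕ) (b : Fin n → M) (H : S), H ≠ 0 ∧ Lat S b H := by
  classical
  obtain ⟨k, v, hv⟩ := Module.Finite.exists_fin (R := S) (M := M)
  obtain ⟨s, hs, h⟩ := exists_maximal_linearIndepOn S v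
  have h' : ∀ i, ∃ a : S, a ≠ 0 ∧ a • v i ∈ Submodule.span S (v '' s) := fun i => by
    by_cases hi : i ∈ s
    · exact ⟨1, one_ne_zero, by rw [one_smul]; exact Submodule.subset_span ⟨i, hi, rfl⟩⟩
    · exact h i hi
  choose a a0 ha using h'
  let e := (Fintype.equivFin s).symm
  refine ⟨_, fun i => v (e i), ∏ i, a i, Finset.prod_ne_zero_iff.2 fun i _ => a0 i,
    hs.linearIndependent.comp e e.injective, fun x => ?_⟩
  have r : (range fun i => v (e i)) = v '' s := by
    rw [image_eq_range]
    exact e.surjective.range_comp fun i : s => v i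
  rw [r]
  have hx : x ∈ Submodule.span S (range v) := hv ▸ Submodule.mem_top
  obtain ⟨c, rfl⟩ := (Submodule.mem_span_range_iff_exists_fun S).1 hx
  rw [Finset.smul_sum]
  refine sum_mem fun i _ => ?_
  rw [smul_comm, ← Finset.prod_erase_mul _ _ (Finset.mem_univ i), mul_smul]
  exact Submodule.smul_mem _ _ (Submodule.smul_mem _ _ (ha i))

theorem Lat.finrank (h : Lat S b H) (h0 : H ≠ 0) (tf : ∀ x : M, H • x = 0 → x = 0) :
    Module.finrank S M = n := by
  have _ := h0
  have e : Module.rank S M = Module.rank S (Submodule.span S (range b)) :=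
    le_antisymm (LinearMap.rank_le_of_injective
      ((LinearMap.lsmul S M H).codRestrict _ h.sp) fun x y e => by
        have e' : H • x = H • y := congrArg Subtype.val e
        exact sub_eq_zero.1 (tf _ (by rw [smul_sub, e', sub_self])))
      (Submodule.rank_le _)
  have := finrank_span_eq_card h.ind
  rwa [Fintype.card_fin, Module.finrank, ← e] at this

omit [IsDomain S] in
theorem Lat.exists_mat (h : Lat S b H) (f : M →ₗ[S] M) :
    ∃ m : Matrix (Fin n) (Fin n) S, ∀ j, H • f (b j) = ∑ i, m i j • b i := by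
  choose c hc using fun j => (Submodule.mem_span_range_iff_exists_fun S).1 (h.sp (f (b j)))
  exact ⟨Matrix.of fun i j => c j i, fun j => (hc j).symm⟩

omit [IsDomain S] in
theorem Lat.trace [Field K] [Algebra S K] [IsFractionRing S K] (h : Lat S b H) (h0 : H ≠ 0)
    (f : M →ₗ[S] M) {m : Matrix (Fin n) (Fin n) S} (hm : ∀ j, H • f (b j) = ∑ i, m i j • b i) :
    algebraMap S K m.trace = algebraMap S K H * trK S K f := by
  have k0 : algebraMap S K H ≠ 0 := fun e => h0 (IsFractionRing.injective S K (by rw [e, map_zero]))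
  have li : LinearIndependent K (TensorProduct.mk S K M 1 ∘ b) :=
    h.ind.of_isLocalizedModule K (nonZeroDivisors S) _
  have sm : ∀ (s : S) (x : M), (1 : K) ⊗ₜ[S] (s • x) = algebraMap S K s • (1 : K) ⊗ₜ[S] x :=
    fun s x => by rw [tmul_smul, algebraMap_smul]
  have sp : ⊤ ≤ Submodule.span K (range (TensorProduct.mk S K M 1 ∘ b)) := by
    rintro x -
    induction x with
    | zero => exact zero_mem _
    | add x y hx hy => exact add_mem hx hy
    | tmul k x =>
      obtain ⟨c, hc⟩ := (Submodule.mem_span_range_iff_exists_fun S).1 (h.sp x)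
      have : k ⊗ₜ[S] x = (k * (algebraMap S K H)⁻¹) • (1 : K) ⊗ₜ[S] (H • x) := by
        rw [sm, smul_smul, inv_mul_cancel_right₀ k0, smul_tmul', smul_eq_mul, mul_one]
      rw [this, ← hc, tmul_sum]
      refine Submodule.smul_mem _ _ (sum_mem fun i _ => ?_)
      rw [sm]
      exact Submodule.smul_mem _ _ (Submodule.subset_span ⟨i, rfl⟩)
  let B := Module.Basis.mk li sp
  have hB : ∀ i, B i = (1 : K) ⊗ₜ[S] b i := fun i => Module.Basis.mk_apply li sp i
  rw [trK, ← smul_eq_mul, ← map_smul, LinearMap.trace_eq_matrix_trace K B, Matrix.trace,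
    Matrix.trace, map_sum]
  refine Finset.sum_congr rfl fun j _ => ?_
  rw [Matrix.diag_apply, Matrix.diag_apply, LinearMap.toMatrix_apply, LinearMap.smul_apply, hB,
    LinearMap.baseChange_tmul, ← sm, hm, tmul_sum]
  simp only [sm, ← hB]
  rw [B.repr_sum_self]
end

end Pool.Agent.Lib.MP_d3d358_ag.Cw
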