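import Pool.Agent.Lib.MP_d3d358_ag.Cw.LdD

/-! The trace at a point is the sum over the fibre. -/

set_option autoImplicit false

namespace Pool.Agent.Lib.MP_d3d358_ag.Cw

open Set Matrix

theorem ld_pt_trace {S D ι : Type} [CommRing S] [CommRing D] [Algebra S D] [Fintype ι] {n : ℕ}
    {b : Fin n → D} {H : S} (sp : ∀ x, H • x ∈ Submodule.span S (range b)) (z : S →+* ℂ)
    (hz : z H ≠ 0) (χ : ι → D →+* ℂ) (inj : Function.Injective χ)
    (ov : ∀ q s, χ q (algebraMap S D s) = z s) (hn : Fintype.card ι = n) (F : D)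
    {m : Matrix (Fin n) (Fin n) S} (hm : ∀ j, H • (F * b j) = ∑ i, m i j • b i) :
    z m.trace = z H * ∑ q, χ q F := by
  classical
  let e : Fin n ≃ ι := (Fintype.equivFinOfCardEq hn).symm
  let V : Matrix (Fin n) (Fin n) ℂ := fun q i => χ (e q) (b i)
  have sm : ∀ q s x, χ q (s • x) = z s * χ q x := fun q s x => by
    rw [Algebra.smul_def, map_mul, ov]
  have li : LinearIndependent ℂ fun q : Fin n => (χ (e q) : D → ℂ) :=
    (linearIndependent_monoidHom D ℂ).comp (fun q : Fin n => (χ (e q) : D →* ℂ)) fun q q' h =>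
      e.injective (inj (RingHom.ext fun x => DFunLike.congr_fun h x))
  have hV : V.det ≠ 0 := fun h => by
    obtain ⟨c, c0, hc⟩ := exists_vecMul_eq_zero_iff.2 h
    refine c0 (funext (Fintype.linearIndependent_iff.1 li c (funext fun x => ?_)))
    obtain ⟨a, ha⟩ := (Submodule.mem_span_range_iff_exists_fun S).1 (sp x)
    refine mul_left_cancel₀ hz ?_
    have h1 : ∀ q, z H * χ q x = ∑ i, z (a i) * χ q (b i) := fun q => by
      rw [← sm, ← ha, map_sum]
      simp only [sm]
    have h2 : ∀ i, ∑ q, c q * χ (e q) (b i) = 0 := fun i => congrFun hc i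
    simp only [Finset.sum_apply, Pi.smul_apply, smul_eq_mul, Pi.zero_apply, mul_zero,
      Finset.mul_sum]
    simp only [mul_left_comm (z H), h1, Finset.mul_sum]
    rw [Finset.sum_comm]
    exact Finset.sum_eq_zero fun i _ => by
      simp only [mul_left_comm _ (z (a i))]
      rw [← Finset.mul_sum, h2, mul_zero]
  have key : V * m.map z = diagonal (fun q => z H * χ (e q) F) * V := by
    ext q j
    have := congrArg (χ (e q)) (hm j)
    rw [sm, map_mul, map_sum] at this
    simp only [sm] at this
    rw [diagonal_mul, mul_apply, mul_assoc]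
    exact (Finset.sum_congr rfl fun i _ => mul_comm _ _).trans this.symm
  have u : IsUnit V.det := hV.isUnit
  have t : (m.map z).trace = (diagonal fun q => z H * χ (e q) F).trace := by
    rw [← nonsing_inv_mul_cancel_left V (m.map z) u, key, trace_mul_comm, Matrix.mul_assoc,
      mul_nonsing_inv V u, Matrix.mul_one]
  rw [trace_diagonal, ← Finset.mul_sum, e.sum_comp fun q => χ q F] at t
  rw [← t, trace, trace, map_sum]
  rfl

end Pool.Agent.Lib.MP_d3d358_ag.Cw
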