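import Pool.Agent.Lib.MP_d3d358_ag.Cw.SpA

/-! Topological lemmas for the local degree. -/

set_option autoImplicit false

namespace Pool.Agent.Lib.MP_d3d358_ag.Cw

open Topology Set Filter

variable {A B R : Type} [CommRing A] [Algebra ℂ A] [CommRing B] [Algebra ℂ B] [CommRing R]
  [Algebra ℂ R]

theorem ldp_bound {Q : Polynomial ℂ} (hQ : Q.Monic) {x : ℂ} (hx : Q.IsRoot x) :
    ‖x‖ ≤ ∑ i ∈ Finset.range Q.natDegree, ‖Q.coeff i‖ + 1 := by
  have h := (hx.norm_lt_cauchyBound hQ.ne_zero).le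
  rw [Polynomial.cauchyBound, hQ.leadingCoeff, nnnorm_one, div_one] at h
  have h2 : (Finset.range Q.natDegree).sup (fun i => ‖Q.coeff i‖₊) ≤
      ∑ i ∈ Finset.range Q.natDegree, ‖Q.coeff i‖₊ := Finset.sup_le fun i hi =>
    Finset.single_le_sum (f := fun i => ‖Q.coeff i‖₊) (fun _ _ => zero_le) hi
  simpa using NNReal.coe_le_coe.2 (h.trans (add_le_add_left h2 1))

/-- an ultrafilter of points over a convergent family of points converges -/
theorem ldp_lim (φ : R →ₐ[ℂ] B) (hφ : φ.toRingHom.IsIntegral) {z₀ : Sp R} (u : Ultrafilter (Sp B))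
    (hu : Tendsto (Sp.map φ) u (𝓝 z₀)) : ∃ q, Sp.map φ q = z₀ ∧ (u : Filter (Sp B)) ≤ 𝓝 q := by
  have h1 : ∀ b : B, ∃ c : ℂ, Tendsto (fun q : Sp B => q b) u (𝓝 c) := fun b => by
    obtain ⟨Q, hQ, e⟩ := hφ b
    have hc : Continuous fun z : Sp R => ∑ i ∈ Finset.range Q.natDegree, ‖z (Q.coeff i)‖ + 1 :=
      (continuous_finsetSum _ fun i _ => (Sp.cont_ev _).norm).add continuous_const
    obtain ⟨c, -, h⟩ := (isCompact_closedBall (0 : ℂ)
      (∑ i ∈ Finset.range Q.natDegree, ‖z₀ (Q.coeff i)‖ + 1 + 1)).ultrafilter_le_nhds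
        (u.map fun q : Sp B => q b) (le_principal_iff.2 (mem_map.2 <| by
      filter_upwards [hu.eventually ((hc.tendsto z₀).eventually (gt_mem_nhds (lt_add_one _)))]
        with q hq
      have h2 : (Q.map (Sp.map φ q).hom.toRingHom).IsRoot (q b) := by
        rw [Polynomial.IsRoot, Polynomial.eval_map]
        exact (Polynomial.hom_eval₂ Q φ.toRingHom q.hom.toRingHom b).symm.trans
          (by rw [e, map_zero])
      have h3 := ldp_bound (hQ.map _) h2
      rw [hQ.natDegree_map] at h3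
      simp only [Polynomial.coeff_map] at h3
      exact mem_closedBall_zero_iff.2 (h3.trans hq.le)))
    exact ⟨c, h⟩
  choose L hL using h1
  let q : B →ₐ[ℂ] ℂ :=
    { toFun := L
      map_one' := tendsto_nhds_unique (hL 1) (by simp)
      map_mul' := fun a b => tendsto_nhds_unique (hL _) (by simpa using (hL a).mul (hL b))
      map_zero' := tendsto_nhds_unique (hL 0) (by simp)
      map_add' := fun a b => tendsto_nhds_unique (hL _) (by simpa using (hL a).add (hL b))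
      commutes' := fun c => tendsto_nhds_unique (hL _) (by simp [Sp.alg]) }
  have h2 : Tendsto id (u : Filter (Sp B)) (𝓝 (show Sp B from q)) := Sp.tendsto_iff.2 hL
  exact ⟨q, tendsto_nhds_unique (((Sp.cont_map φ).tendsto _).comp h2) hu, h2⟩

theorem ld_fib_near (φ : R →ₐ[ℂ] B) (hφ : φ.toRingHom.IsIntegral) (z₀ : Sp R) {W : Set (Sp B)}
    (hW : IsOpen W) (h : ∀ q, Sp.map φ q = z₀ → q ∈ W) :
    ∀ᶠ z in 𝓝 z₀, ∀ q, Sp.map φ q = z → q ∈ W := by
  suffices H : W ∈ comap (Sp.map φ) (𝓝 z₀) from mem_comap'.1 H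
  refine mem_iff_ultrafilter.2 fun u hu => ?_
  obtain ⟨q, h1, h2⟩ := ldp_lim φ hφ u (tendsto_iff_comap.2 hu)
  exact h2 (hW.mem_nhds (h q h1))

theorem ld_res [IsDomain A] (B : Subalgebra ℂ A) {s : A} (hs : s ∈ B)
    (h : ∀ a, ∃ N : ℕ, s ^ N * a ∈ B) : InjOn (Sp.map B.val) {p | p s ≠ 0} ∧
      ∀ U : Set (Sp A), IsOpen U → (∀ p ∈ U, p s ≠ 0) → IsOpen (Sp.map B.val '' U) := by
  have e0 : ∀ x : B, algebraMap B (Localization.Away s) x = algebraMap A _ x.1 := fun _ => rfl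
  have : IsLocalization.Away (⟨s, hs⟩ : B) (Localization.Away s) := by
    refine .mk _ (IsLocalization.Away.algebraMap_isUnit s) (fun z => ?_) fun x y e => ?_
    · obtain ⟨n, a, e⟩ := IsLocalization.Away.surj s z
      obtain ⟨N, hN⟩ := h a
      refine ⟨n + N, ⟨_, hN⟩, ?_⟩
      rw [e0, e0, pow_add, ← mul_assoc, e, map_mul, map_pow, mul_comm]
    · obtain ⟨n, e⟩ := IsLocalization.Away.exists_of_eq (S := Localization.Away s) s e
      exact ⟨n, Subtype.ext e⟩
  obtain ⟨h1, h2⟩ := Sp.emb_away (A := Localization.Away s) s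
  obtain ⟨h3, -⟩ := Sp.emb_away (A := Localization.Away s) (⟨s, hs⟩ : B)
  have e1 : ∀ q, Sp.map B.val (Sp.map (IsScalarTower.toAlgHom ℂ A (Localization.Away s)) q) =
      Sp.map (IsScalarTower.toAlgHom ℂ B (Localization.Away s)) q := fun _ => rfl
  refine ⟨fun p hp q hq e => ?_, fun U hU h4 => ?_⟩
  · rw [← h2] at hp hq
    obtain ⟨p, rfl⟩ := hp
    obtain ⟨q, rfl⟩ := hq
    rw [h3.injective e]
  · have h5 : U ⊆ range (Sp.map (IsScalarTower.toAlgHom ℂ A (Localization.Away s))) := h2 ▸ h4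
    rw [← image_preimage_eq_of_subset h5, image_image]
    exact h3.isOpenMap _ (hU.preimage h1.continuous)

theorem ld_count {ι : Type} (T : Finset ι) (F : ι → ℂ) (U : Set ι) [DecidablePred (· ∈ U)] (e : ℕ)
    {ε : ℝ} (hε : (T.card + 1) * ε < 1) (h1 : ∀ q ∈ T, q ∈ U → ‖F q - 1‖ < ε)
    (h0 : ∀ q ∈ T, q ∉ U → ‖F q‖ < ε) (hs : ‖∑ q ∈ T, F q - e‖ < ε) :
    (T.filter (· ∈ U)).card = e := by
  have h2 : ‖∑ q ∈ T, (F q - if q ∈ U then 1 else 0)‖ ≤ T.card * ε := by
    rw [← nsmul_eq_mul]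
    refine (norm_sum_le _ _).trans (Finset.sum_le_card_nsmul _ _ _ fun q hq => ?_)
    split_ifs with h
    · exact (h1 q hq h).le
    · rw [sub_zero]; exact (h0 q hq h).le
  rw [Finset.sum_sub_distrib, Finset.sum_boole] at h2
  have h3 : ‖(((T.filter (· ∈ U)).card - e : ℤ) : ℂ)‖ < 1 := by
    have := norm_sub_le (∑ q ∈ T, F q - e) (∑ q ∈ T, F q - (T.filter (· ∈ U)).card)
    rw [sub_sub_sub_cancel_left] at this
    push_cast
    linarith
  rw [Complex.norm_intCast, ← Int.cast_abs, ← Int.cast_one, Int.cast_lt, Int.abs_lt_one_iff] at h3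
  omega

end Pool.Agent.Lib.MP_d3d358_ag.Cw
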