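import Pool.Agent.Lib.MP_d3d358_ag.Cw.LdT
import Pool.Agent.Lib.MP_d3d358_ag.Cw.LdM
import Pool.Agent.Lib.MP_d3d358_ag.Cw.LdN
import Pool.Agent.Lib.MP_d3d358_ag.Cw.LdL
import Pool.Agent.Lib.MP_d3d358_ag.Cw.LdP
import Pool.Agent.Lib.MP_d3d358_ag.Cw.Et

/-! Local degree = length, for an algebra finite over the base. -/

set_option autoImplicit false

namespace Pool.Agent.Lib.MP_d3d358_ag.Cw

open Topology Set Filter TensorProduct

theorem lda_sep {E : Type} [CommRing E] [Algebra ℂ E] (p : Sp E) (T : Finset (Sp E)) :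
    ∃ F : E, p F = 1 ∧ ∀ q ∈ T, q ≠ p → q F = 0 := by
  classical
  induction T using Finset.induction_on with
  | empty => exact ⟨1, map_one p, by simp⟩
  | insert q T _ ih =>
    obtain ⟨F, h1, h0⟩ := ih
    by_cases h : q = p
    · exact ⟨F, h1, fun q' hq' ne => h0 q' ((Finset.mem_insert.1 hq').resolve_left (h ▸ ne)) ne⟩
    · obtain ⟨a, ha⟩ : ∃ a, q a ≠ p a := by
        by_contra hc
        push Not at hc
        exact h (Sp.ext hc)
      have hne : p a - q a ≠ 0 := sub_ne_zero.2 ha.symm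
      refine ⟨F * (algebraMap ℂ E (p a - q a)⁻¹ * (a - algebraMap ℂ E (q a))), ?_, ?_⟩
      · rw [map_mul, map_mul, map_sub, Sp.alg, Sp.alg, h1, one_mul, inv_mul_cancel₀ hne]
      · intro q' hq' ne
        rcases Finset.mem_insert.1 hq' with rfl | hq'
        · rw [map_mul, map_mul, map_sub, Sp.alg, Sp.alg, sub_self, mul_zero, mul_zero]
        · rw [map_mul, h0 q' hq' ne, zero_mul]

theorem lda_iso {B : Type} [CommRing B] [IsNoetherianRing B] (g : B) (P : Ideal B) [hP : P.IsPrime]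
    (hmin : ∀ Q : Ideal B, Q.IsPrime → g ∈ Q → Q ≤ P → Q = P) :
    ∃ b ∉ P, ∀ Q : Ideal B, Q.IsPrime → g ∈ Q → b ∉ Q → P ≤ Q := by
  classical
  have hf := (Ideal.span {g}).finite_minimalPrimes_of_isNoetherianRing B
  have hn : ¬ (hf.toFinset.erase P).inf id ≤ P := by
    intro h
    obtain ⟨Q, hQ, hle⟩ := hP.inf_le'.1 h
    obtain ⟨ne, hQ⟩ := Finset.mem_erase.1 hQ
    have hQ := hf.mem_toFinset.1 hQ
    exact ne (hmin Q hQ.1.1 (hQ.1.2 (Ideal.mem_span_singleton_self g)) hle)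
  obtain ⟨b, hb, hbP⟩ := SetLike.not_le_iff_exists.1 hn
  refine ⟨b, hbP, fun Q hQ hg hbQ => ?_⟩
  obtain ⟨Q', hQ', hle⟩ := Ideal.exists_minimalPrimes_le
    ((Ideal.span_singleton_le_iff_mem Q).2 hg)
  by_contra hc
  have ne : Q' ≠ P := fun e => hc (e ▸ hle)
  exact hbQ (hle (Finset.inf_le (f := id)
    (Finset.mem_erase.2 ⟨ne, hf.mem_toFinset.2 hQ'⟩) hb))

theorem ld_fin {S R B L : Type} [CommRing S] [IsDomain S] [Algebra ℂ S] [Algebra.FiniteType ℂ S]
    [CommRing R] [IsDomain R] [Algebra ℂ R] [Algebra.FiniteType ℂ R] [CommRing B] [IsDomain B]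
    [Algebra ℂ B] [Algebra S R] [Algebra R B] [Algebra S B] [IsScalarTower S R B]
    [IsScalarTower ℂ R B] [IsScalarTower ℂ S B] [Module.Finite R B] [FaithfulSMul R B]
    (t : R) (π : R →ₐ[S] S) (h0 : π t = 0) (hπ : ∀ x, t ∣ x - algebraMap S R (π x)) (t0 : t ≠ 0)
    (P : Ideal B) [hP : P.IsPrime] (hg : algebraMap R B t ∈ P)
    (hS : P.comap (algebraMap S B) = ⊥) [CommRing L] [Algebra B L] [IsLocalization.AtPrime L P] :
    ∃ h ∉ P, (∀ q : Sp B, q h ≠ 0 → q (algebraMap R B t) = 0 → q ∈ Vz P) ∧ ∃ H₁ : R, H₁ ≠ 0 ∧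
      ∀ p ∈ Vz P, p h ≠ 0 → ∃ W₀, IsOpen W₀ ∧ p ∈ W₀ ∧ ∀ W, IsOpen W → p ∈ W → W ⊆ W₀ →
        ∀ᶠ z in 𝓝 (Sp.map (IsScalarTower.toAlgHom ℂ R B) p), z H₁ ≠ 0 → ∃ T : Finset (Sp B),
          T.card = (Ring.ord L (algebraMap B L (algebraMap R B t))).toNat ∧
          (T : Set (Sp B)) = W ∩ Sp.map (IsScalarTower.toAlgHom ℂ R B) ⁻¹' {z} := by
  classical
  have injR : Function.Injective (algebraMap R B) := FaithfulSMul.algebraMap_injective R B
  set g := algebraMap R B t with hgd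
  have g0 : g ≠ 0 := fun h => t0 (injR (h.trans (map_zero _).symm))
  have : IsNoetherianRing R := Algebra.FiniteType.isNoetherianRing ℂ R
  have : Algebra.FiniteType ℂ B := Algebra.FiniteType.trans (S := R) inferInstance inferInstance
  have : IsNoetherianRing B := Algebra.FiniteType.isNoetherianRing ℂ B
  -- `x ≡ π x` modulo `g`
  have red : ∀ x : R, ∃ c : B, algebraMap R B x = algebraMap S B (π x) + g * c := by
    intro x
    obtain ⟨c, hc⟩ := hπ x
    refine ⟨algebraMap R B c, ?_⟩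
    rw [hgd, ← map_mul, ← hc, map_sub, ← IsScalarTower.algebraMap_apply]
    ring
  have und : ∀ Q : Ideal B, g ∈ Q → Q.comap (algebraMap S B) = ⊥ → ∀ x : R,
      algebraMap R B x ∈ Q → π x = 0 := by
    intro Q hQ hb x hx
    obtain ⟨c, hc⟩ := red x
    have : π x ∈ Q.comap (algebraMap S B) := by
      rw [Ideal.mem_comap, ← sub_eq_iff_eq_add.2 hc]
      exact Q.sub_mem hx (Q.mul_mem_right _ hQ)
    rwa [hb, Ideal.mem_bot] at this
  have inc : ∀ Q Q' : Ideal B, Q.IsPrime → g ∈ Q → Q ≤ Q' → Q'.comap (algebraMap S B) = ⊥ →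
      Q = Q' := by
    intro Q Q' hQ hgQ hle hb
    by_contra ne
    obtain ⟨x, hx, hx'⟩ := SetLike.exists_of_lt
      (Ideal.IsIntegral.comap_lt_comap (R := R) (lt_of_le_of_ne hle ne))
    obtain ⟨c, hc⟩ := red x
    refine hx' ?_
    rw [Ideal.mem_comap, hc, und Q' (hle hgQ) hb x hx, map_zero, zero_add]
    exact Q.mul_mem_right _ hgQ
  have hmin : ∀ Q : Ideal B, Q.IsPrime → g ∈ Q → Q ≤ P → Q = P :=
    fun Q hQ h1 h2 => inc Q P hQ h1 h2 hS
  obtain ⟨b₀, hb₀, hb⟩ := lda_iso g P hmin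
  obtain ⟨fin, n, b, H, hH, lat, latq⟩ := ld_lift t π h0 hπ g0
  have fin2 : Module.Finite S (B ⧸ Ideal.span {g}) := fin
  have : Module.Finite S (B ⧸ P) := Module.Finite.of_surjective
    (Ideal.Quotient.factorₐ S ((Ideal.span_singleton_le_iff_mem P).2 hg)).toLinearMap
    (Ideal.Quotient.factor_surjective ((Ideal.span_singleton_le_iff_mem P).2 hg))
  have injS : ∀ s : S, algebraMap S B s ∈ P → s = 0 := fun s hs => by
    have : s ∈ P.comap (algebraMap S B) := hs
    rwa [hS, Ideal.mem_bot] at this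
  have : FaithfulSMul S (B ⧸ P) := (faithfulSMul_iff_algebraMap_injective S _).2 <|
    (injective_iff_map_eq_zero _).2 fun s hs => injS s (Ideal.Quotient.eq_zero_iff_mem.1 hs)
  obtain ⟨n', b', H', hH', lat'⟩ := exists_lat (S := S) (M := B ⧸ P)
  obtain ⟨h₁, hh₁, fibE⟩ := gen_fib (A := B ⧸ P) (A' := S)
  obtain ⟨H₁, hH₁, fibB⟩ := gen_fib (A := B) (A' := R)
  obtain ⟨e, he, htr⟩ := ld_trace_len (S := S) (K := FractionRing S) (L := L) g P hmin
  have H0 : H ≠ 0 := fun h => hH (by rw [h, map_zero])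
  have rk : Module.finrank R B = n := lat.finrank H0 fun x hx => by
    rw [Algebra.smul_def, mul_eq_zero] at hx
    exact hx.resolve_left fun h => H0 (injR (h.trans (map_zero _).symm))
  have rk' : Module.finrank S (B ⧸ P) = n' := lat'.finrank hH' fun x hx => by
    rw [Algebra.smul_def, mul_eq_zero] at hx
    exact hx.resolve_left fun h => hH' (injS _ (Ideal.Quotient.eq_zero_iff_mem.1 h))
  have vz : ∀ q : Sp B, q b₀ ≠ 0 → q g = 0 → q ∈ Vz P := fun q h1 h2 a ha =>
    hb (RingHom.ker q.hom) (RingHom.ker_isPrime _) h2 h1 ha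
  refine ⟨b₀ * algebraMap R B H * algebraMap S B (H' * h₁), fun h => ?_, fun q hq => ?_, H₁, hH₁,
    fun p hp hph => ?_⟩
  · rcases hP.mem_or_mem h with h | h
    · exact (hP.mem_or_mem h).elim hb₀ fun h => hH (und P hg hS H h)
    · exact mul_ne_zero hH' hh₁ (injS _ h)
  · exact vz q fun h => hq (by rw [map_mul, map_mul, h, zero_mul, zero_mul])
  simp only [map_mul, ne_eq, mul_eq_zero, not_or] at hph
  obtain ⟨⟨pb, pH⟩, pH', ph₁⟩ := hph
  set φ := IsScalarTower.toAlgHom ℂ R B with hφ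
  have em := Sp.emb_of_surj (φ := Ideal.Quotient.mkₐ ℂ P) Ideal.Quotient.mk_surjective
  have lift : ∀ q ∈ Vz P, ∃ q' : Sp (B ⧸ P), Sp.map (Ideal.Quotient.mkₐ ℂ P) q' = q := by
    intro q hq
    have : q ∈ range (Sp.map (Ideal.Quotient.mkₐ ℂ P)) := by
      rw [em.2]
      exact fun a ha => hq a (Ideal.Quotient.eq_zero_iff_mem.1 ha)
    exact this
  obtain ⟨p', hp'⟩ := lift p hp
  have pv : ∀ a : B, p' (Ideal.Quotient.mk P a) = p a := fun a => by rw [← hp']; rfl
  set y₀ : Sp S := Sp.map (IsScalarTower.toAlgHom ℂ S B) p with hy₀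
  obtain ⟨⟨T', hT', hT''⟩, -⟩ := fibE y₀ ph₁
  have memT' : ∀ q : Sp (B ⧸ P), q ∈ T' ↔ ∀ s, q (algebraMap S (B ⧸ P) s) = y₀ s := fun q => by
    rw [← Finset.mem_coe, hT'']
    exact ⟨fun h s => by rw [← (h : _ = y₀)]; rfl, fun h => Sp.ext h⟩
  have p'T : p' ∈ T' := (memT' p').2 fun s => pv (algebraMap S B s)
  obtain ⟨F₁, hF₁, hF₀⟩ := lda_sep p' T'
  obtain ⟨F₂, rfl⟩ := Ideal.Quotient.mk_surjective F₁
  set F : B := algebraMap ℂ B (p b₀)⁻¹ * b₀ * F₂ with hF
  have pF : p F = 1 := by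
    rw [hF, map_mul, map_mul, Sp.alg, inv_mul_cancel₀ pb, one_mul, ← pv, hF₁]
  have qF : ∀ q ∈ T', q ≠ p' → q (Ideal.Quotient.mk P F) = 0 := fun q hq ne => by
    rw [hF, map_mul, map_mul q, hF₀ q hq ne, mul_zero]
  have pg : p g = 0 := hp g hg
  have oth : ∀ q : Sp B, Sp.map φ q = Sp.map φ p → q ≠ p → q F = 0 := by
    intro q hq ne
    have ev : ∀ x : R, q (algebraMap R B x) = p (algebraMap R B x) := fun x =>
      DFunLike.congr_fun hq x
    by_cases hqb : q b₀ = 0
    · rw [hF, map_mul, map_mul, hqb, mul_zero, zero_mul]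
    obtain ⟨q', rfl⟩ := lift q (vz q hqb ((ev t).trans pg))
    refine qF q' ((memT' q').2 fun s => ?_) fun e => ne (e ▸ hp')
    have := ev (algebraMap S R s)
    rw [← IsScalarTower.algebraMap_apply] at this
    exact this
  obtain ⟨m, hm⟩ := lat.exists_mat (mulF R B F)
  obtain ⟨m', hm'⟩ := lat'.exists_mat (mulF S (B ⧸ P) F)
  have smk : ∀ (x : R) (y : B), Ideal.Quotient.mk (Ideal.span {g}) (x • y) =
      π x • Ideal.Quotient.mk (Ideal.span {g}) y := by
    intro x y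
    obtain ⟨c, hc⟩ := red x
    have : π x • Ideal.Quotient.mk (Ideal.span {g}) y =
        Ideal.Quotient.mk (Ideal.span {g}) (π x • y) := rfl
    rw [this, Ideal.Quotient.eq, Algebra.smul_def, Algebra.smul_def, hc]
    exact Ideal.mem_span_singleton.2 ⟨c * y, by ring⟩
  have t1 := latq.trace (K := FractionRing S) hH (mulF S (B ⧸ Ideal.span {g}) F)
    (m := m.map π) fun j => by
      have := congrArg (Ideal.Quotient.mk (Ideal.span {g})) (hm j)
      rw [smk, map_sum] at this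
      simp only [smk] at this
      exact this
  have t2 := lat'.trace (K := FractionRing S) hH' (mulF S (B ⧸ P) F) hm'
  have t3 := htr F fun Q hQ hgQ ne hb' => by
    by_cases h : b₀ ∈ Q
    · exact Q.mul_mem_right _ (Q.mul_mem_left _ h)
    · exact absurd (inc P Q hP hg (hb Q hQ hgQ h) hb').symm ne
  have t4 : H' * π m.trace = e * π H * m'.trace := by
    apply IsFractionRing.injective S (FractionRing S)
    have : (m.map π).trace = π m.trace := by simp [Matrix.trace, map_sum]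
    rw [map_mul, map_mul, map_mul, ← this, t1, t2, t3, map_natCast]
    ring
  have t5 := ld_pt_trace lat'.sp y₀.hom.toRingHom pH' (fun q : T' => q.1.hom.toRingHom)
    (fun q q' h => Subtype.ext (Sp.ext fun a => DFunLike.congr_fun h a))
    (fun q s => (memT' q.1).1 q.2 s) (by rw [Fintype.card_coe, hT', rk'])
    (Ideal.Quotient.mk P F) hm'
  have t6 : ∑ q : T', q.1.hom.toRingHom (Ideal.Quotient.mk P F) = 1 := by
    rw [Finset.sum_eq_single ⟨p', p'T⟩]
    · exact (pv F).trans pF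
    · exact fun q _ ne => qF q.1 q.2 fun e => ne (Subtype.ext e)
    · exact fun h => absurd (Finset.mem_univ _) h
  have yπ : ∀ x : R, y₀ (π x) = Sp.map φ p x := fun x => by
    obtain ⟨c, hc⟩ := red x
    change p (algebraMap S B (π x)) = p (algebraMap R B x)
    rw [hc, map_add, map_mul, pg, zero_mul, add_zero]
  have zH : Sp.map φ p H ≠ 0 := pH
  have t7 : Sp.map φ p m.trace / Sp.map φ p H = e := by
    have h := congrArg y₀ t4
    rw [t6, mul_one] at t5
    have t5' : y₀ m'.trace = y₀ H' := t5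
    have hy : y₀ H' ≠ 0 := pH'
    rw [map_mul, map_mul, map_mul, map_natCast, yπ, yπ, t5', mul_comm (y₀ H')] at h
    rw [mul_right_cancel₀ hy h, mul_div_assoc, div_self zH, mul_one]
  have cF : Continuous fun q : Sp B => ‖q F - 1‖ := ((Sp.cont_ev F).sub continuous_const).norm
  refine ⟨{q | ‖q F - 1‖ < 1 / 2}, isOpen_lt cF continuous_const, by simp [pF],
    fun W hW pW hW₀ => ?_⟩
  set ε : ℝ := 1 / (n + 2) with hε
  have n0 : (0 : ℝ) ≤ n := Nat.cast_nonneg n
  have ε0 : 0 < ε := by positivity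
  have ε1 : ε ≤ 1 / 2 := one_div_le_one_div_of_le (by norm_num) (by linarith)
  have ε2 : (n + 1) * ε < 1 := by
    rw [hε, mul_one_div, div_lt_one (by positivity)]; linarith
  have e1 := ld_fib_near φ (fun x => Algebra.IsIntegral.isIntegral (R := R) x) (Sp.map φ p)
    (W := W ∩ {q | ‖q F - 1‖ < ε} ∪ {q | ‖q F‖ < ε})
    ((hW.inter (isOpen_lt cF continuous_const)).union
      (isOpen_lt (Sp.cont_ev F).norm continuous_const)) fun q hq => by
      by_cases h : q = p
      · exact Or.inl ⟨h ▸ pW, by simpa [h, pF] using ε0⟩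
      · exact Or.inr (by simpa [oth q hq h] using ε0)
  have e2 : ∀ᶠ z : Sp R in 𝓝 (Sp.map φ p), ‖z m.trace / z H - e‖ < ε := by
    have : ContinuousAt (fun z : Sp R => ‖z m.trace / z H - e‖) (Sp.map φ p) :=
      (((Sp.cont_ev _).continuousAt.div (Sp.cont_ev _).continuousAt zH).sub
        continuousAt_const).norm
    exact this.eventually_lt continuousAt_const (by rw [t7, sub_self, norm_zero]; exact ε0)
  filter_upwards [e1, e2, Sp.ev_ne zH] with z h1 h2 h3 h4
  obtain ⟨⟨T, hT, hTs⟩, -⟩ := fibB z h4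
  have memT : ∀ q, q ∈ T ↔ Sp.map φ q = z := fun q => by
    rw [← Finset.mem_coe, hTs]; rfl
  have t8 := ld_pt_trace lat.sp z.hom.toRingHom h3 (fun q : T => q.1.hom.toRingHom)
    (fun q q' h => Subtype.ext (Sp.ext fun a => DFunLike.congr_fun h a))
    (fun q s => DFunLike.congr_fun ((memT q.1).1 q.2) s) (by rw [Fintype.card_coe, hT, rk]) F hm
  have t9 : z m.trace / z H = ∑ q ∈ T, q F := by
    have : z m.trace = z H * ∑ q : T, q.1 F := t8
    rw [this, mul_div_cancel_left₀ _ h3, Finset.sum_coe_sort T fun q => q F]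
  refine ⟨T.filter (· ∈ W), ?_, ?_⟩
  · rw [he, ENat.toNat_coe]
    refine ld_count T (fun q => q F) W e (ε := ε) (by rwa [hT, rk]) (fun q hq hqW => ?_)
      (fun q hq hqW => ?_) (by rwa [← t9])
    · rcases h1 q ((memT q).1 hq) with h | h
      · exact h.2
      · exfalso
        have a1 : ‖q F - 1‖ < 1 / 2 := hW₀ hqW
        have a2 : ‖q F‖ < ε := h
        have a3 := norm_sub_le (q F) (q F - 1)
        rw [sub_sub_cancel, norm_one] at a3
        linarith
    · exact (h1 q ((memT q).1 hq)).resolve_left fun h => hqW h.1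
  · ext q
    simp only [Finset.coe_filter, mem_setOf_eq, memT, mem_inter_iff, mem_preimage,
      mem_singleton_iff, and_comm]

end Pool.Agent.Lib.MP_d3d358_ag.Cw
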