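import Pool.Agent.Lib.MP_d3d358_ag.Cw.Sp

/-! Traces over a fraction field and lattices: definitions for the local degree. -/

set_option autoImplicit false

namespace Pool.Agent.Lib.MP_d3d358_ag.Cw

open Topology Set Filter TensorProduct

/-- the trace over `K = Frac S` of an endomorphism of an `S`-module -/
noncomputable def trK (S K : Type) [CommRing S] [Field K] [Algebra S K] {M : Type}
    [AddCommGroup M] [Module S M] (f : M →ₗ[S] M) : K :=
  LinearMap.trace K (K ⊗[S] M) (f.baseChange K)

/-- multiplication by `F` -/
def mulF (S : Type) [CommRing S] {B : Type} [CommRing B] [Algebra S B] (M : Type)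
    [AddCommGroup M] [Module B M] [Module S M] [IsScalarTower S B M] (F : B) : M →ₗ[S] M :=
  (LinearMap.lsmul B M F).restrictScalars S

/-- `b` is independent and spans `M` after inverting `H` -/
structure Lat (S : Type) [CommRing S] {M : Type} [AddCommGroup M] [Module S M] {n : ℕ}
    (b : Fin n → M) (H : S) : Prop where
  ind : LinearIndependent S b
  sp : ∀ x, H • x ∈ Submodule.span S (range b)

end Pool.Agent.Lib.MP_d3d358_ag.Cw
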