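import Pool.Agent.Lib.MP_d3d358_ag.Cw.LdD

/-! Trace = length times trace on the residue field. -/

set_option autoImplicit false

namespace Pool.Agent.Lib.MP_d3d358_ag.Cw

open TensorProduct

/-- the trace is additive in exact sequences -/
theorem ldt_add {K V₁ V₂ V₃ : Type} [Field K] [AddCommGroup V₁] [Module K V₁] [AddCommGroup V₂]
    [Module K V₂] [AddCommGroup V₃] [Module K V₃] [Module.Finite K V₁] [Module.Finite K V₂]
    [Module.Finite K V₃] {i : V₁ →ₗ[K] V₂} {p : V₂ →ₗ[K] V₃} (hi : Function.Injective i)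
    (hp : Function.Surjective p) (h : Function.Exact i p) {f₁ : V₁ →ₗ[K] V₁} {f₂ : V₂ →ₗ[K] V₂}
    {f₃ : V₃ →ₗ[K] V₃} (e₁ : f₂ ∘ₗ i = i ∘ₗ f₁) (e₂ : p ∘ₗ f₂ = f₃ ∘ₗ p) :
    LinearMap.trace K V₂ f₂ = LinearMap.trace K V₁ f₁ + LinearMap.trace K V₃ f₃ := by
  obtain ⟨s, hs⟩ := p.exists_rightInverse_of_surjective (LinearMap.range_eq_top.2 hp)
  obtain ⟨l, hl⟩ := i.exists_leftInverse_of_injective (LinearMap.ker_eq_bot.2 hi)
  have hs' : ∀ x, p (s x) = x := fun x => LinearMap.congr_fun hs x
  have hl' : ∀ x, l (i x) = x := fun x => LinearMap.congr_fun hl x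
  have k : f₂ = (f₂ ∘ₗ i) ∘ₗ (l ∘ₗ (LinearMap.id - s ∘ₗ p)) + (f₂ ∘ₗ s) ∘ₗ p := by
    ext x
    obtain ⟨y, hy⟩ := (h (x - s (p x))).1 (by rw [map_sub, hs', sub_self])
    simp only [LinearMap.add_apply, LinearMap.comp_apply, LinearMap.sub_apply, LinearMap.id_apply]
    rw [← hy, hl', hy, map_sub, sub_add_cancel]
  rw [k, map_add, LinearMap.trace_comp_comm' _ (f₂ ∘ₗ i), LinearMap.trace_comp_comm' p]
  congr 2
  · ext x
    have := LinearMap.congr_fun e₁ x
    simp only [LinearMap.comp_apply, LinearMap.sub_apply, LinearMap.id_apply] at this ⊢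
    rw [this, h.apply_apply_eq_zero, map_zero, sub_zero, hl']
  · ext x
    have := LinearMap.congr_fun e₂ (s x)
    simp only [LinearMap.comp_apply] at this ⊢
    rw [this, hs']

theorem ldt_sub {R A N : Type} [CommRing R] [CommRing A] [Algebra R A] [AddCommGroup N]
    [Module R N] {x : R} (hx : IsUnit (algebraMap R A x)) (h : ∀ m : N, x • m = 0) :
    Subsingleton (A ⊗[R] N) := by
  refine subsingleton_of_forall_eq 0 fun u => ?_
  induction u with
  | zero => rfl
  | add a b ha hb => rw [ha, hb, add_zero]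
  | tmul a m =>
    obtain ⟨c, hc⟩ := hx.exists_right_inv
    rw [show a = x • (c * a) by rw [Algebra.smul_def, ← mul_assoc, hc, one_mul], smul_tmul, h,
      tmul_zero]

variable {S K B L : Type} [CommRing S] [IsDomain S] [Field K] [Algebra S K] [IsFractionRing S K]
  [CommRing B] [Algebra S B]

omit [IsDomain S] [IsFractionRing S K] in
theorem ldt_comm {N N' : Type} [AddCommGroup N] [Module B N] [Module S N] [IsScalarTower S B N]
    [AddCommGroup N'] [Module B N'] [Module S N'] [IsScalarTower S B N'] (f : N →ₗ[B] N') (F : B) :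
    (mulF S N' F).baseChange K ∘ₗ (f.restrictScalars S).baseChange K =
      (f.restrictScalars S).baseChange K ∘ₗ (mulF S N F).baseChange K := by
  rw [← LinearMap.baseChange_comp, ← LinearMap.baseChange_comp]
  congr 1
  ext x
  simp [mulF]

theorem ldt_ind [IsNoetherianRing B] (g : B) (P : Ideal B) [P.IsPrime] [CommRing L] [Algebra B L]
    [IsLocalization.AtPrime L P] (hmin : ∀ Q : Ideal B, Q.IsPrime → g ∈ Q → Q ≤ P → Q = P)
    (N : Type) [AddCommGroup N] [Module B N] (hN : Module.Finite B N) :
    ∀ [Module S N] [IsScalarTower S B N], Module.Finite K (K ⊗[S] N) → (∀ m : N, g • m = 0) →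
      ∃ e : ℕ, Module.length L (L ⊗[B] N) = e ∧ ∀ F : B,
        (∀ Q : Ideal B, Q.IsPrime → g ∈ Q → Q ≠ P → Q.comap (algebraMap S B) = ⊥ → F ∈ Q) →
        trK S K (mulF S N F) = e * trK S K (mulF S (B ⧸ P) F) := by
  have fK : Module.Flat S K := IsLocalization.flat K (nonZeroDivisors S)
  have fL : Module.Flat B L := IsLocalization.flat L P.primeCompl
  induction hN using IsNoetherianRing.induction_on_isQuotientEquivQuotientPrime B with
  | subsingleton N =>
    intro _ _ _ _
    refine ⟨0, Module.length_eq_zero, fun F _ => ?_⟩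
    rw [Subsingleton.elim (mulF S N F) 0, trK, LinearMap.baseChange_zero, map_zero]
    simp
  | quotient N Q e =>
    intro _ _ fin hg
    have kill : ∀ x ∈ Q.1, ∀ m : N, x • m = 0 := fun x hx m => by
      apply e.injective
      obtain ⟨b, hb⟩ := Ideal.Quotient.mk_surjective (e m)
      rw [map_smul, map_zero, ← hb]
      exact Ideal.Quotient.eq_zero_iff_mem.2 (Q.1.mul_mem_right b hx)
    have gQ : g ∈ Q.1 := by
      have := congrArg e (hg (e.symm 1))
      rw [map_smul, e.apply_symm_apply, map_zero, Algebra.smul_def, mul_one] at this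
      exact Ideal.Quotient.eq_zero_iff_mem.1 this
    by_cases hQ : Q.1 = P
    · obtain ⟨Q, hq⟩ := Q
      obtain rfl : Q = P := hQ
      have := IsLocalization.AtPrime.isLocalRing L Q
      refine ⟨1, ?_, fun F _ => ?_⟩
      · rw [(e.baseChange B L _ _).length_eq,
          ← (Algebra.TensorProduct.quotIdealMapEquivTensorQuot L Q).toLinearEquiv.length_eq,
          IsLocalization.AtPrime.map_eq_maximalIdeal Q L]
        have : IsSimpleModule L (L ⧸ IsLocalRing.maximalIdeal L) :=
          isSimpleModule_iff_isCoatom.2 (Ideal.isMaximal_def.1 inferInstance)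
        exact Module.length_eq_one L _
      · rw [Nat.cast_one, one_mul, trK, trK,
          ← LinearMap.trace_conj' _ ((e.restrictScalars S).baseChange S K _ _)]
        congr 1
        rw [LinearEquiv.conj_apply, LinearEquiv.comp_toLinearMap_symm_eq]
        exact (ldt_comm e.toLinearMap F).symm
    · obtain ⟨x, hx, hxP⟩ := SetLike.not_le_iff_exists.1 fun h => hQ (hmin _ Q.2 gQ h)
      have := ldt_sub (A := L) (IsLocalization.map_units L (⟨x, hxP⟩ : P.primeCompl)) (kill x hx)
      refine ⟨0, Module.length_eq_zero, fun F hF => ?_⟩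
      rw [Nat.cast_zero, zero_mul]
      by_cases h0 : Q.1.comap (algebraMap S B) = ⊥
      · have : mulF S N F = 0 := LinearMap.ext (kill F (hF _ Q.2 gQ hQ h0))
        rw [this, trK, LinearMap.baseChange_zero, map_zero]
      · obtain ⟨s, hs, s0⟩ := Submodule.exists_mem_ne_zero_of_ne_bot h0
        have := ldt_sub (A := K) (N := N) (x := s)
          (IsUnit.mk0 _ (by simpa using s0)) fun m => by
            rw [← algebraMap_smul B s m]; exact kill _ hs m
        rw [trK, Subsingleton.elim (LinearMap.baseChange K _) 0, map_zero]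
  | exact N₁ N₂ N₃ f p hf hp hex h₁ h₃ =>
    intro _ _ fin hg
    let _ : Module S N₁ := Module.compHom N₁ (algebraMap S B)
    let _ : Module S N₃ := Module.compHom N₃ (algebraMap S B)
    have : IsScalarTower S B N₁ := IsScalarTower.of_compHom S B N₁
    have : IsScalarTower S B N₃ := IsScalarTower.of_compHom S B N₃
    have i1 : Function.Injective ((f.restrictScalars S).baseChange K) :=
      Module.Flat.lTensor_preserves_injective_linearMap (M := K) (f.restrictScalars S) hf
    have s1 : Function.Surjective ((p.restrictScalars S).baseChange K) :=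
      LinearMap.lTensor_surjective K (g := p.restrictScalars S) hp
    have x1 : Function.Exact ((f.restrictScalars S).baseChange K)
        ((p.restrictScalars S).baseChange K) :=
      Module.Flat.lTensor_exact K (f := f.restrictScalars S) (g := p.restrictScalars S) hex
    have f1 := Module.Finite.of_injective _ i1
    have f3 := Module.Finite.of_surjective _ s1
    obtain ⟨a, a1, a2⟩ := h₁ f1 fun m => hf (by rw [map_smul, hg, map_zero])
    obtain ⟨b, b1, b2⟩ := h₃ f3 fun m => by
      obtain ⟨m, rfl⟩ := hp m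
      rw [← map_smul, hg, map_zero]
    refine ⟨a + b, ?_, fun F hF => ?_⟩
    · rw [Module.length_eq_add_of_exact (f.baseChange L) (p.baseChange L)
        (Module.Flat.lTensor_preserves_injective_linearMap (M := L) f hf)
        (LinearMap.lTensor_surjective L hp) (Module.Flat.lTensor_exact L hex), a1, b1, Nat.cast_add]
    · rw [Nat.cast_add, add_mul, ← a2 F hF, ← b2 F hF]
      exact ldt_add i1 s1 x1 (ldt_comm f F) (ldt_comm p F).symm

theorem ld_trace_len {S K B L : Type} [CommRing S] [IsDomain S] [Field K] [Algebra S K]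
    [IsFractionRing S K] [CommRing B] [IsNoetherianRing B] [Algebra S B] (g : B)
    [Module.Finite S (B ⧸ Ideal.span {g})] (P : Ideal B) [P.IsPrime] [CommRing L] [Algebra B L]
    [IsLocalization.AtPrime L P] (hmin : ∀ Q : Ideal B, Q.IsPrime → g ∈ Q → Q ≤ P → Q = P) :
    ∃ e : ℕ, Ring.ord L (algebraMap B L g) = e ∧ ∀ F : B,
      (∀ Q : Ideal B, Q.IsPrime → g ∈ Q → Q ≠ P → Q.comap (algebraMap S B) = ⊥ → F ∈ Q) →
      trK S K (mulF S (B ⧸ Ideal.span {g}) F) = e * trK S K (mulF S (B ⧸ P) F) := by
  obtain ⟨e, h1, h2⟩ := ldt_ind (S := S) (K := K) (L := L) g P hmin (B ⧸ Ideal.span {g})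
    inferInstance inferInstance fun m => by
      obtain ⟨b, rfl⟩ := Ideal.Quotient.mk_surjective m
      exact Ideal.Quotient.eq_zero_iff_mem.2
        (Ideal.mul_mem_right b _ (Ideal.mem_span_singleton_self g))
  refine ⟨e, ?_, h2⟩
  rw [← h1, ← (Algebra.TensorProduct.quotIdealMapEquivTensorQuot L
    (Ideal.span {g})).toLinearEquiv.length_eq, Ideal.map_span, Set.image_singleton, Ring.ord]

end Pool.Agent.Lib.MP_d3d358_ag.Cw
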