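import Pool.Agent.Lib.MP_d3d358_ag.Cw.Loc

/-! Localised classes of jumps: small perturbations and linear changes of coordinates. -/

set_option autoImplicit false

namespace Pool.Agent.Lib.MP_d3d358_ag.Cw

open Topology Set Filter AS Matrix

variable {Z : Type} {n : ℕ} [MetricSpace Z] {K U : Set Z} {p : Z}

theorem lin_fn {V : Set Z} {f : Z → ℚ} (h : ∀ x ∈ V, f x = 0) : fnC f ∈ N V :=
  Null_of_zero fun l hl => by
    rcases l with _ | ⟨x, _ | ⟨y, l⟩⟩
    · exact Alg_nil _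
    · rw [Alg_fnC, Alg_fn_one, h x (hl x (by simp))]
    · rw [Alg_fnC, Alg_fn_two]

theorem lin_sign {g g' : Z → Fin n → ℝ} {W : Set Z} (hc : ContinuousOn g W)
    (hc' : ContinuousOn g' W) (h : ∀ u ∈ W, ∃ i, 0 < g u i * g' u i) :
    ∃ b, jr g - jr g' = dC b ∧ b ∈ N W := by
  obtain ⟨b, e1, e2⟩ := loc_tele (List.finRange n) (a := fun i => jp fun x => g x i)
    (a' := fun i => jp fun x => g' x i)
    (e := fun i => fnC ((fun x => if 0 ≤ g x i then 1 else 0) -
      fun x => if 0 ≤ g' x i then 1 else 0))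
    (fun i => by rw [Circle_fn_sub, map_sub]; rfl) (fun _ => dC_jp _) fun _ => dC_jp _
  refine ⟨b, by rw [loc_jr, loc_jr]; exact e1, Circle_local fun u hu => ?_⟩
  obtain ⟨i, hi⟩ := h u hu
  have c1 : ContinuousWithinAt (fun x => g x i) W u :=
    (continuous_apply i).continuousAt.comp_continuousWithinAt (hc u hu)
  have c2 : ContinuousWithinAt (fun x => g' x i) W u :=
    (continuous_apply i).continuousAt.comp_continuousWithinAt (hc' u hu)
  have key : ∀ (V : Set Z) (c : ℚ), (∀ x ∈ V, (if 0 ≤ g x i then (1 : ℚ) else 0) = c) →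
      (∀ x ∈ V, (if 0 ≤ g' x i then (1 : ℚ) else 0) = c) → b ∈ N V := fun V c h1 h2 =>
    e2 V i (List.mem_finRange i) (pt_const h1) (pt_const h2)
      (lin_fn fun x hx => by rw [Pi.sub_apply, h1 x hx, h2 x hx, sub_self])
  rcases mul_pos_iff.1 hi with ⟨h1, h2⟩ | ⟨h1, h2⟩
  · exact ⟨_, (c1.eventually_const_lt h1).and (c2.eventually_const_lt h2),
      key _ 1 (fun x hx => if_pos hx.1.le) fun x hx => if_pos hx.2.le⟩
  · exact ⟨_, (c1.eventually_lt_const h1).and (c2.eventually_lt_const h2),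
      key _ 0 (fun x hx => if_neg hx.1.not_ge) fun x hx => if_neg hx.2.not_ge⟩

theorem lc_sign (hU : U ∈ 𝓝 p) {g g' : Z → Fin n → ℝ} (hc : ContinuousOn g (U ∩ K))
    (hc' : ContinuousOn g' (U ∩ K)) (h : ∀ u ∈ U ∩ K, u ≠ p → ∃ i, 0 < g u i * g' u i)
    {x x' : HT ℚ K} (hx : Lc K p (jr g) x) (hx' : Lc K p (jr g') x') : x = x' := by
  obtain ⟨b, e, hb⟩ := lin_sign (W := (U ∩ K) \ {p}) (hc.mono sdiff_subset)
    (hc'.mono sdiff_subset) fun u hu => h u hu.1 hu.2
  exact Lc.eq hU (by rw [e, sub_self]; exact zero_mem _) hb hx hx'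

theorem lin_leash {v w : Fin n → ℝ} (h : ‖w - v‖ < ‖v‖) : ∃ i, 0 < v i * w i := by
  by_contra hn
  refine h.not_ge ((pi_norm_le_iff_of_nonneg (norm_nonneg _)).2 fun i => ?_)
  refine le_trans ?_ (norm_le_pi_norm (w - v) i)
  have := not_lt.1 fun h => hn ⟨i, h⟩
  rw [Real.norm_eq_abs, Real.norm_eq_abs, Pi.sub_apply, ← sq_le_sq]
  nlinarith [sq_nonneg (w i)]

theorem lc_leash (hU : U ∈ 𝓝 p) {g g' : Z → Fin n → ℝ} (hc : ContinuousOn g (U ∩ K))
    (hc' : ContinuousOn g' (U ∩ K)) (h : ∀ u ∈ U ∩ K, u ≠ p → ‖g' u - g u‖ < ‖g u‖)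
    {x x' : HT ℚ K} (hx : Lc K p (jr g) x) (hx' : Lc K p (jr g') x') : x = x' :=
  lc_sign hU hc hc' (fun u hu e => lin_leash (h u hu e)) hx hx'

theorem exists_lc_jr (hU : U ∈ 𝓝 p) {g : Z → Fin n → ℝ} (hc : ContinuousOn g (U ∩ K))
    (h0 : ∀ u ∈ U ∩ K, u ≠ p → g u ≠ 0) : ∃ x, Lc K p (jr g) x :=
  exists_lc hU (by rw [dC_jr]; exact zero_mem _)
    (jr_null (hc.mono sdiff_subset) fun u hu => h0 u hu.1 hu.2)

omit [MetricSpace Z] in
theorem lin_jp_neg (t : Z → ℝ) :
    jp (fun x => -t x) + jp t = dC (fnC fun x => if t x = 0 then 1 else 0) := by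
  have e : ((fun x => if 0 ≤ -t x then (1 : ℚ) else 0) - fun x => if t x = 0 then 1 else 0) =
      1 - fun x => if 0 ≤ t x then 1 else 0 := funext fun x => by
    simp only [Pi.sub_apply, Pi.one_apply]
    rcases lt_trichotomy (t x) 0 with h | h | h
    · rw [if_pos (by linarith), if_neg h.ne, if_neg h.not_ge]
    · rw [if_pos (by linarith), if_pos h, if_pos h.ge]
    · rw [if_neg (by linarith), if_neg h.ne', if_pos h.le]; norm_num
  have := congrArg (fun f => dC (fnC f)) e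
  simp only [Circle_fn_sub, map_sub] at this
  rw [show dC (fnC (1 : Z → ℚ)) = 0 from dC_one, zero_sub, sub_eq_iff_eq_add] at this
  rw [jp, jp, this]
  abel

omit [MetricSpace Z] in
theorem lin_jp_pos {c : ℝ} (hc : 0 < c) (t : Z → ℝ) : jp (fun x => c * t x) = jp t := by
  simp only [jp, mul_nonneg_iff_of_pos_left hc]

omit [MetricSpace Z] in
theorem lin_prod_smul {ι : Type} (L : List ι) (c : ι → ℚ) (a : ι → Ch Z ℚ) :
    (L.map fun i => c i • a i).prod = (L.map c).prod • (L.map a).prod := by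
  induction L with
  | nil => simp
  | cons i L ih => simp only [List.map_cons, List.prod_cons, ih, smul_mul_smul_comm]

theorem lin_diag {g : Z → Fin n → ℝ} {W : Set Z} (hc : ContinuousOn g W) (h0 : ∀ u ∈ W, g u ≠ 0)
    {D : Fin n → ℝ} (hD : ∀ i, D i ≠ 0) : ∃ b, jr (fun u i => D i * g u i) -
      ((SignType.sign (∏ i, D i) : ℤ) : ℚ) • jr g = dC b ∧ b ∈ N W := by
  let s : Fin n → ℚ := fun i => ((SignType.sign (D i) : ℤ) : ℚ)
  obtain ⟨b, e1, e2⟩ := loc_tele (List.finRange n) (a := fun i => jp fun x => D i * g x i)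
    (a' := fun i => s i • jp fun x => g x i)
    (e := fun i => if 0 < D i then 0 else fnC fun x => if g x i = 0 then 1 else 0)
    (fun i => by
      rcases lt_or_gt_of_ne (hD i) with h | h
      · have := lin_jp_pos (neg_pos.2 h) fun x => -g x i
        simp only [neg_mul_neg] at this
        simp only [s, sign_neg h, if_neg h.not_gt, this, ← lin_jp_neg]
        simp
      · simp [s, sign_pos h, h, lin_jp_pos h])
    (fun _ => dC_jp _) fun _ => by rw [map_smul, dC_jp, smul_zero]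
  refine ⟨b, ?_, Circle_local fun u hu => ?_⟩
  · rw [← e1, lin_prod_smul, loc_jr, loc_jr, ← List.ofFn_eq_map (f := s), List.prod_ofFn]
    congr 2
    rw [← signHom_apply, map_prod, ← SignType.castHom_apply, map_prod]
    simp [s]
  · obtain ⟨i, hi⟩ := Function.ne_iff.1 (h0 u hu)
    have c1 : ContinuousWithinAt (fun x => g x i) W u :=
      (continuous_apply i).continuousAt.comp_continuousWithinAt (hc u hu)
    obtain ⟨V1, h1, n1⟩ := loc_jp_null c1 hi
    obtain ⟨V2, h2, n2⟩ := loc_jp_null (t := fun x => D i * g x i)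
      (continuousWithinAt_const.mul c1) (mul_ne_zero (hD i) hi)
    refine ⟨V1 ∩ V2 ∩ {x | g x i ≠ 0}, inter_mem (inter_mem h1 h2) (c1.eventually_ne hi),
      e2 _ i (List.mem_finRange i) (N_mono (fun _ h => h.1.2) n2)
        (Submodule.smul_mem _ _ (N_mono (fun _ h => h.1.1) n1)) ?_⟩
    split_ifs
    · exact zero_mem _
    · exact lin_fn fun x hx => if_neg hx.2

theorem lc_lin (hU : U ∈ 𝓝 p) {M : Matrix (Fin n) (Fin n) ℝ} (hM : M.det ≠ 0)
    {g : Z → Fin n → ℝ} (hc : ContinuousOn g (U ∩ K)) (h0 : ∀ u ∈ U ∩ K, u ≠ p → g u ≠ 0)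
    {x x' : HT ℚ K} (hx : Lc K p (jr g) x) (hx' : Lc K p (jr fun u => M *ᵥ g u) x') :
    x' = ((SignType.sign M.det : ℤ) : ℚ) • x := by
  have cm : ∀ (A : Matrix (Fin n) (Fin n) ℝ) {g : Z → Fin n → ℝ}, ContinuousOn g (U ∩ K) →
      ContinuousOn (fun u => A *ᵥ g u) (U ∩ K) := fun A g hc =>
    (continuous_const.matrix_mulVec continuous_id).comp_continuousOn hc
  revert g x x'
  refine diagonal_transvection_induction_of_det_ne_zero (fun M => ∀ {g : Z → Fin n → ℝ},
    ContinuousOn g (U ∩ K) → (∀ u ∈ U ∩ K, u ≠ p → g u ≠ 0) → ∀ {x x' : HT ℚ K},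
    Lc K p (jr g) x → Lc K p (jr fun u => M *ᵥ g u) x' → x' = ((SignType.sign M.det : ℤ) : ℚ) • x)
    M hM (fun D hD g hc h0 x x' hx hx' => ?_) (fun t g hc h0 x x' hx hx' => ?_)
    fun A B hA hB ihA ihB g hc h0 x x' hx hx' => ?_
  · rw [det_diagonal] at hD ⊢
    obtain ⟨b, e, hb⟩ := lin_diag (W := (U ∩ K) \ {p}) (hc.mono sdiff_subset)
      (fun u hu => h0 u hu.1 hu.2) fun i => Finset.prod_ne_zero_iff.1 hD i (Finset.mem_univ i)
    refine Lc.eq hU ?_ hb hx' (hx.smul _)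
    rw [show (fun u => diagonal D *ᵥ g u) = fun u i => D i * g u i from
      funext fun u => funext fun i => mulVec_diagonal _ _ _, e, sub_self]
    exact zero_mem _
  · rw [t.det, sign_one, SignType.coe_one, Int.cast_one, one_smul]
    refine (lc_sign hU hc (cm _ hc) (fun u hu e => ?_) hx hx').symm
    have v : ∀ k, (t.toMatrix *ᵥ g u) k = g u k + if t.i = k then t.c * g u t.j else 0 := fun k => by
      simp [TransvectionStruct.toMatrix, transvection, add_mulVec, single_mulVec,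
        Function.update_apply, eq_comm]
    by_cases hj : g u t.j = 0
    · obtain ⟨k, hk⟩ := Function.ne_iff.1 (h0 u hu e)
      exact ⟨k, by rw [v, hj, mul_zero, ite_self, add_zero]; exact mul_self_pos.2 hk⟩
    · exact ⟨t.j, by rw [v, if_neg t.hij, add_zero]; exact mul_self_pos.2 hj⟩
  · have n0 : ∀ u ∈ U ∩ K, u ≠ p → B *ᵥ g u ≠ 0 := fun u hu e h =>
      h0 u hu e (eq_zero_of_mulVec_eq_zero hB h)
    obtain ⟨y, hy⟩ := exists_lc_jr hU (cm B hc) n0
    simp only [← mulVec_mulVec] at hx'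
    rw [ihA (cm B hc) n0 hy hx', ihB hc h0 hx hy, smul_smul, det_mul, sign_mul]
    simp

end Pool.Agent.Lib.MP_d3d358_ag.Cw
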