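import Mathlib

/-! Cutting a measurable set into pieces on which a `C¹` map is injective. -/

set_option autoImplicit false

namespace Pool.Agent.Lib.MP_d3d358_ag.Cw

open Topology Set Filter MeasureTheory

/-- a countable family of measurable sets is refined by a disjoint sequence -/
theorem msr_disj {X I : Type} [MeasurableSpace X] [Countable I] (C : I → Set X)
    (hC : ∀ i, MeasurableSet (C i)) : ∃ P : ℕ → Set X, (∀ k, MeasurableSet (P k)) ∧
      Pairwise (Function.onFun Disjoint P) ∧ ⋃ k, P k = ⋃ i, C i ∧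
      ∀ k, P k = ∅ ∨ ∃ i, P k ⊆ C i := by
  obtain ⟨e, he⟩ := exists_surjective_nat (Option I)
  let D : ℕ → Set X := fun k => (e k).elim ∅ C
  have hD : ∀ k, MeasurableSet (D k) := fun k => by
    simp only [D]
    cases e k with
    | none => exact MeasurableSet.empty
    | some i => exact hC i
  refine ⟨disjointed D, MeasurableSet.disjointed hD, disjoint_disjointed D, ?_, fun k => ?_⟩
  · rw [iUnion_disjointed]
    ext x
    simp only [mem_iUnion]
    constructor
    · rintro ⟨k, hk⟩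
      simp only [D] at hk
      cases h : e k with
      | none => simp [h] at hk
      | some i => exact ⟨i, by simpa [h] using hk⟩
    · rintro ⟨i, hi⟩
      obtain ⟨k, hk⟩ := he (some i)
      exact ⟨k, by simpa [D, hk] using hi⟩
  · have h1 := disjointed_subset D k
    cases h : e k with
    | none => exact .inl (subset_empty_iff.1 (by simpa [D, h] using h1))
    | some i => exact .inr ⟨i, by simpa [D, h] using h1⟩

variable {N : ℕ} {A : Set (Fin N → ℝ)} {f : (Fin N → ℝ) → Fin N → ℝ}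

/-- preimages of measurable sets inside `A` -/
theorem msr_pre (hA : MeasurableSet A) (hf : ∀ x ∈ A, ContDiffAt ℝ 1 f x) {R : Set (Fin N → ℝ)}
    (hR : MeasurableSet R) : MeasurableSet (A ∩ f ⁻¹' R) := by
  have h1 : ContinuousOn f A := fun x hx => (hf x hx).continuousAt.continuousWithinAt
  have h2 : MeasurableSet (A.domRestrict f ⁻¹' R) := h1.domRestrict.measurable hR
  convert hA.subtype_image h2 using 1
  ext x
  exact ⟨fun h => ⟨⟨x, h.1⟩, h.2, rfl⟩, fun ⟨y, h, e⟩ => e ▸ ⟨y.2, h⟩⟩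

theorem msr_det : Measurable fun x => (fderiv ℝ f x).det :=
  ContinuousLinearMap.continuous_det.measurable.comp (measurable_fderiv ℝ f)

/-- near a regular point `f` is injective and the sign of the determinant is constant -/
theorem msr_loc {x : Fin N → ℝ} (hf : ContDiffAt ℝ 1 f x) (hx : (fderiv ℝ f x).det ≠ 0) :
    ∃ U, IsOpen U ∧ x ∈ U ∧ InjOn f U ∧
      ∃ s : SignType, ∀ y ∈ U, SignType.sign (fderiv ℝ f y).det = s := by
  have h1 : HasStrictFDerivAt f
      ((fderiv ℝ f x).toContinuousLinearEquivOfDetNeZero hx : _ →L[ℝ] _) x := by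
    rw [ContinuousLinearMap.coe_toContinuousLinearEquivOfDetNeZero]
    exact hf.hasStrictFDerivAt one_ne_zero
  have h2 : ContinuousAt (fun y => (fderiv ℝ f y).det) x :=
    ContinuousLinearMap.continuous_det.continuousAt.comp
      (hf.fderiv_right (m := 0) le_rfl).continuousAt
  have h3 : ∀ᶠ y in 𝓝 x, SignType.sign (fderiv ℝ f y).det = SignType.sign (fderiv ℝ f x).det := by
    rcases lt_or_gt_of_ne hx with h | h
    · filter_upwards [h2.eventually (gt_mem_nhds h)] with y hy
      rw [sign_neg hy, sign_neg h]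
    · filter_upwards [h2.eventually (lt_mem_nhds h)] with y hy
      rw [sign_pos hy, sign_pos h]
  obtain ⟨V, hV, hVo, hxV⟩ := mem_nhds_iff.1 h3
  refine ⟨V ∩ (h1.toOpenPartialHomeomorph f).source,
    hVo.inter (h1.toOpenPartialHomeomorph f).open_source,
    ⟨hxV, h1.mem_toOpenPartialHomeomorph_source⟩,
    (h1.toOpenPartialHomeomorph f).injOn.mono inter_subset_right, _, fun y hy => hV hy.1⟩

/-- the regular part of `A` is a disjoint union of pieces on which `f` is injective, with constant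
integer part and constant sign of the determinant -/
theorem msr_cut (hA : MeasurableSet A) (hf : ∀ x ∈ A, ContDiffAt ℝ 1 f x) :
    ∃ P : ℕ → Set (Fin N → ℝ), (∀ k, MeasurableSet (P k)) ∧
      Pairwise (Function.onFun Disjoint P) ∧
      ⋃ k, P k = {x | x ∈ A ∧ (fderiv ℝ f x).det ≠ 0} ∧ ∀ k, InjOn f (P k) ∧
        (∃ z : Fin N → ℤ, ∀ x ∈ P k, ∀ i, ⌊f x i⌋ = z i) ∧
        ∃ s : SignType, ∀ x ∈ P k, SignType.sign (fderiv ℝ f x).det = s := by
  set A' := {x | x ∈ A ∧ (fderiv ℝ f x).det ≠ 0} with hA'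
  have mA : MeasurableSet A' :=
    hA.inter (msr_det (measurableSet_singleton (0 : ℝ)).compl)
  have h1 : ∀ x, ∃ U, IsOpen U ∧ (x ∈ A' → x ∈ U) ∧ InjOn f U ∧
      ∃ s : SignType, ∀ y ∈ U, SignType.sign (fderiv ℝ f y).det = s := fun x => by
    by_cases hx : x ∈ A'
    · obtain ⟨U, a, b, c⟩ := msr_loc (hf x hx.1) hx.2
      exact ⟨U, a, fun _ => b, c⟩
    · exact ⟨∅, isOpen_empty, fun h => (hx h).elim, injOn_empty _, 0, fun _ h => h.elim⟩
  choose U hU hx hi hs using h1
  obtain ⟨t, -, tc, ht⟩ := TopologicalSpace.countable_cover_nhdsWithin (f := U) (s := A')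
    fun x h => mem_nhdsWithin_of_mem_nhds ((hU x).mem_nhds (hx x h))
  have := tc.to_subtype
  obtain ⟨P, a, b, c, d⟩ := msr_disj (I := t × (Fin N → ℤ))
    (fun p => (A' ∩ U p.1) ∩ (A ∩ f ⁻¹' {y | ∀ i, ⌊y i⌋ = p.2 i})) fun p =>
      (mA.inter (hU _).measurableSet).inter (msr_pre hA hf (by
        rw [ofPred_forall]
        exact MeasurableSet.iInter fun i =>
          (Int.measurable_floor.comp (measurable_pi_apply i)) (measurableSet_singleton (p.2 i))))
  refine ⟨P, a, b, c.trans (subset_antisymm (iUnion_subset fun p x h => h.1.1) fun x h => ?_),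
    fun k => ?_⟩
  · obtain ⟨y, hy, hxy⟩ := mem_iUnion₂.1 (ht h)
    exact mem_iUnion.2 ⟨(⟨y, hy⟩, fun i => ⌊f x i⌋), ⟨h, hxy⟩, h.1, fun _ => rfl⟩
  · rcases d k with e | ⟨p, hp⟩
    · rw [e]
      exact ⟨injOn_empty _, ⟨0, fun _ h => h.elim⟩, 0, fun _ h => h.elim⟩
    · obtain ⟨s, hs⟩ := hs p.1
      exact ⟨(hi p.1).mono fun x h => (hp h).1.2, ⟨p.2, fun x h => (hp h).2.2⟩, s,
        fun x h => hs x (hp h).1.2⟩

end Pool.Agent.Lib.MP_d3d358_ag.Cw
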