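import Pool.Agent.Lib.MP_d3d358_ag.Cw.Sp
import Pool.Agent.Lib.MP_d3d358_ag.Cw.Defs

/-! Complex points of a scheme over `ℂ`, integration over cycles. -/

set_option autoImplicit false

namespace Pool.Agent.Lib.MP_d3d358_ag.Cw

open CategoryTheory AlgebraicGeometry MonoidalCategory Order Topology Set Filter AS

noncomputable section

/-- the complex points -/
def Pnt (W : Sch) : Type := 𝟙_ Sch ⟶ W

variable {V W : Sch}

/-- the morphism of schemes -/
def Pnt.mor (p : Pnt W) : Spec (.of ℂ) ⟶ W.left := Over.Hom.left p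

/-- the closed point -/
def Pnt.pt (p : Pnt W) : W.left := p.mor (IsLocalRing.closedPoint ℂ)

/-- the map on complex points -/
def Pnt.map (f : V ⟶ W) (p : Pnt V) : Pnt W := CategoryStruct.comp (obj := Sch) p f

theorem Pnt.le_pre (p : Pnt W) {U : W.left.Opens} (h : p.pt ∈ U) : ⊤ ≤ p.mor ⁻¹ᵁ U :=
  fun x _ => by
    have e : x = IsLocalRing.closedPoint ℂ := Subsingleton.elim (α := PrimeSpectrum ℂ) _ _
    rw [e]; exact h

open Classical in
/-- the value of a section at a complex point -/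
def val (U : W.left.Opens) (s : Γ(W.left, U)) (p : Pnt W) : ℂ :=
  if h : p.pt ∈ U then (Scheme.ΓSpecIso (.of ℂ)).hom (p.mor.appLE U ⊤ (p.le_pre h) s) else 0

instance algU (W : Sch) (U : W.left.Opens) : Algebra ℂ Γ(W.left, U) :=
  ((Scheme.ΓSpecIso (.of ℂ)).inv ≫ W.hom.appLE ⊤ U le_top).hom.toAlgebra

instance : TopologicalSpace (Pnt W) := TopologicalSpace.generateFrom
  {O | ∃ (U : W.left.Opens) (s : Γ(W.left, U)) (T : Set ℂ), IsOpen T ∧
    O = {p | p.pt ∈ U ∧ val U s p ∈ T}}

variable (W) in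
/-- `f` is regular at `p` -/
def Rg (p : Pnt W) (f : Pnt W → ℂ) : Prop :=
  ∃ (U : W.left.Opens) (s : Γ(W.left, U)), p.pt ∈ U ∧ f =ᶠ[𝓝 p] val U s

/-- the complex points of a subset -/
def Kc (D : Set W.left) : Set (Pnt W) := {p | p.pt ∈ D}

/-- the complex points of the closure of `w` -/
def Kw (w : W.left) : Set (Pnt W) := {p | w ⤳ p.pt}

/-- the dimension of the closure of a point -/
def dm {Y : Scheme.{0}} (w : Y) : ℕ := (height w).toNat

/-- the prime of a point in an affine open set -/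
abbrev pri {U : W.left.Opens} (hU : IsAffineOpen U) {w : W.left} (hw : w ∈ U) :
    Ideal Γ(W.left, U) := (hU.primeIdealOf ⟨w, hw⟩).asIdeal

/-- `e` identifies the points of the ring of an affine open set with its complex points -/
structure Emb {U : W.left.Opens} (hU : IsAffineOpen U) (e : Sp Γ(W.left, U) → Pnt W) : Prop where
  opn : IsOpenEmbedding e
  rng : range e = Kc (U : Set W.left)
  val_eq : ∀ q a, val U a (e q) = q a
  spec : ∀ w (hw : w ∈ U) q, e q ∈ Kw w ↔ q ∈ Vz (pri hU hw)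
  rg : ∀ q f, Rg W (e q) f ↔ RgA q (f ∘ e)

variable (W) in
/-- of finite type, with compact metrisable space of complex points -/
class Gd : Prop where
  ft : LocallyOfFiniteType W.hom
  qc : CompactSpace W.left
  cpt : CompactSpace (Pnt W)
  met : TopologicalSpace.MetrizableSpace (Pnt W)

attribute [instance] Gd.ft Gd.qc Gd.cpt Gd.met

instance [Gd W] : MetricSpace (Pnt W) := TopologicalSpace.metrizableSpaceMetric _

variable (W) in
/-- integral, and its complex points form a manifold of dimension `n` -/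
structure Mf (n : ℕ) : Prop where
  int : IsIntegral W.left
  pos : 0 < n
  cht : ∀ p, ∃ y : Pnt W → Fin n → ℂ, At (Rg W) univ p y

variable (W) in
/-- the cohomology ring of the complex points -/
abbrev HW : Type := HT ℚ (univ : Set (Pnt W))

variable (W) in
/-- its part of degree `k` -/
abbrev Hd (k : ℤ) : Submodule ℚ (HW W) := Hk univ k

/-- integration over the closure of `w` -/
def phi (w : W.left) : HT ℚ (Kw w) →ₗ[ℚ] ℚ := Classical.epsilon (Fund (Rg W) (Kw w) (dm w))

/-- the same, on classes of `W` -/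
def Phi (w : W.left) : HW W →ₗ[ℚ] ℚ := phi w ∘ₗ (res (subset_univ _)).toLinearMap

/-- integration over a cycle -/
def ev (c : Cyc W.left) : HW W →ₗ[ℚ] ℚ := ∑ᶠ w, c w • Phi w

variable (W) in
/-- integration over `W` -/
def tp : HW W →ₗ[ℚ] ℚ := ∑ᶠ (w : W.left) (_ : IsMax w), Phi w

theorem Pnt.mor_map (f : V ⟶ W) (p : Pnt V) : (p.map f).mor = p.mor ≫ f.left := rfl

theorem Pnt.pt_map (f : V ⟶ W) (p : Pnt V) : (p.map f).pt = f.left p.pt := rfl

theorem val_map (f : V ⟶ W) (U : W.left.Opens) (s : Γ(W.left, U)) (p : Pnt V) :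
    val U s (p.map f) = val (f.left ⁻¹ᵁ U) (f.left.app U s) p := by
  by_cases h : (p.map f).pt ∈ U
  · have h' : p.pt ∈ f.left ⁻¹ᵁ U := h
    rw [val, val, dif_pos h, dif_pos h']
    congr 1
  · have h' : p.pt ∉ f.left ⁻¹ᵁ U := h
    rw [val, val, dif_neg h, dif_neg h']

theorem Pnt.cont (f : V ⟶ W) : Continuous (Pnt.map f) :=
  continuous_generateFrom_iff.2 (by
    rintro _ ⟨U, s, T, hT, rfl⟩
    refine TopologicalSpace.isOpen_generateFrom_of_mem ⟨f.left ⁻¹ᵁ U, f.left.app U s, T, hT, ?_⟩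
    ext p
    simp only [mem_preimage, mem_ofPred_eq, val_map]
    rfl)

/-- pull back of classes -/
def pb (f : V ⟶ W) : HW W →ₐ[ℚ] HW V := pull (Pnt.map f) (Pnt.cont f).continuousOn (mapsTo_univ _ _)

end

end Pool.Agent.Lib.MP_d3d358_ag.Cw
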