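import Pool.Agent.Lib.MP_d3d358_ag.Cw.PntP
import Pool.Agent.Lib.MP_d3d358_ag.Cw.Kun

/-! Kuenneth for product squares. -/

set_option autoImplicit false

namespace Pool.Agent.Lib.MP_d3d358_ag.Cw

open CategoryTheory AlgebraicGeometry Topology Set Filter AS

variable {V W F : Sch} {f : V ⟶ W} {g : V ⟶ F}

theorem pk_iso (h : Sq f g) : ∃ (A : HT ℚ (univ ×ˢ univ : Set (Pnt W × Pnt F)) →ₐ[ℚ] HW V)
    (B : HW V →ₐ[ℚ] HT ℚ (univ ×ˢ univ : Set (Pnt W × Pnt F))),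
    (∀ u, A (B u) = u) ∧ (∀ u, B (A u) = u) ∧ (∀ k, ∀ u ∈ Hd V k, B u ∈ Hk _ k) ∧
      (∀ x, A (p1 univ univ x) = pb f x) ∧ ∀ y, A (p2 univ univ y) = pb g y := by
  let Φ := h.homeo.homeomorph
  have m : MapsTo Φ univ (univ ×ˢ univ) := fun _ _ => ⟨trivial, trivial⟩
  refine ⟨pull Φ Φ.continuous.continuousOn m,
    pull Φ.symm Φ.symm.continuous.continuousOn (mapsTo_univ _ _), fun u => ?_, fun u => ?_,
    fun k u hu => pull_mem hu, fun x => pull_pull x, fun y => pull_pull y⟩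
  · have e : EqOn (Φ.symm ∘ Φ) id univ := fun v _ => Φ.symm_apply_apply v
    rw [pull_pull, pull_congr (hg := continuousOn_id) (hn := mapsTo_id _) e]
    exact res_self u
  · have e : EqOn (Φ ∘ Φ.symm) id (univ ×ˢ univ) := fun v _ => Φ.apply_symm_apply v
    rw [pull_pull, pull_congr (hg := continuousOn_id) (hn := mapsTo_id _) e]
    exact res_self u

/-- Kuenneth (`cross_span` through `Sq.homeo`) -/
theorem Sq.span (h : Sq f g) [Gd W] [Gd F] (k : ℤ) : Hd V k ≤ Submodule.span ℚ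
    {u | ∃ i j, i + j = k ∧ ∃ x ∈ Hd W i, ∃ y ∈ Hd F j, u = pb f x * pb g y} := by
  obtain ⟨A, B, ab, -, hB, a1, a2⟩ := pk_iso h
  intro u hu
  have := Submodule.mem_map_of_mem (f := A.toLinearMap)
    (cross_span isCompact_univ isCompact_univ k (hB k u hu))
  rw [Submodule.map_span, AlgHom.toLinearMap_apply, ab] at this
  refine Submodule.span_mono ?_ this
  rintro _ ⟨_, ⟨i, j, e, x, hx, y, hy, rfl⟩, rfl⟩
  exact ⟨i, j, e, x, hx, y, hy, by rw [AlgHom.toLinearMap_apply, map_mul, a1, a2]⟩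

/-- every bilinear map factors through the product of pull backs -/
theorem Sq.bilin (h : Sq f g) [Gd W] [Gd F] {M : Type} [AddCommMonoid M] [Module ℚ M]
    (β : HW W →ₗ[ℚ] HW F →ₗ[ℚ] M) : ∃ I : HW V →ₗ[ℚ] M,
      ∀ i j, ∀ x ∈ Hd W i, ∀ y ∈ Hd F j, I (pb f x * pb g y) = β x y := by
  obtain ⟨A, B, -, ba, -, a1, a2⟩ := pk_iso h
  obtain ⟨I, hI⟩ := kun_bilin (isCompact_univ (X := Pnt W)) (isCompact_univ (X := Pnt F)) β
  refine ⟨I ∘ₗ B.toLinearMap, fun i j x hx y hy => ?_⟩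
  rw [← a1, ← a2, ← map_mul, LinearMap.comp_apply, AlgHom.toLinearMap_apply, ba]
  exact hI i j x hx y hy

theorem Sq.int (h : Sq f g) [Gd W] [Gd F] (φ : HW W →ₗ[ℚ] ℚ) : ∃ I : HW V →ₗ[ℚ] HW F,
    ∀ i j, ∀ x ∈ Hd W i, ∀ y ∈ Hd F j, I (pb f x * pb g y) = φ x • y :=
  h.bilin ((LinearMap.lsmul ℚ (HW F)).comp φ)

end Pool.Agent.Lib.MP_d3d358_ag.Cw
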