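import Pool.Agent.Lib.MP_d3d358_ag.Cw.PntA
import Pool.Agent.Lib.MP_d3d358_ag.Var.CxA

/-! Complex points of `Proj S` in a basic affine chart. -/

set_option autoImplicit false

namespace Pool.Agent.Lib.MP_d3d358_ag.Cw

open CategoryTheory AlgebraicGeometry MonoidalCategory CartesianMonoidalCategory Order Topology Set
  Filter AS
open Pool.Agent.Lib.MP_9ff3e7_ag.F Pool.Agent.Lib.MP_cd184e_ag.B G Var
open HomogeneousLocalization (Away awayMap fromZeroRingHom)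

noncomputable section

variable {S : Type} [CommRing S] [Algebra ℂ S] {𝒜 : ℕ → Submodule ℂ S} [GradedAlgebra 𝒜]

namespace PX

variable {m : ℕ} {f : S}

variable (𝒜) in
/-- the value of a fraction -/
def evA (p : S →ₐ[ℂ] ℂ) (h : p f ≠ 0) : Away 𝒜 f →+* ℂ :=
  (Localization.awayLift p.toRingHom f (isUnit_iff_ne_zero.2 h)).comp
    (algebraMap (Away 𝒜 f) (Localization.Away f))

theorem evA_of_val (p : S →ₐ[ℂ] ℂ) (h : p f ≠ 0) {x : Away 𝒜 f} {a : S} {b : Submonoid.powers f}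
    (e : x.val = Localization.mk a b) : evA 𝒜 p h x = p a / p b := by
  have hb : p b ≠ 0 := by
    obtain ⟨_, k, rfl⟩ := b
    simpa using fun e => absurd e h
  change Localization.awayLift p.toRingHom f (isUnit_iff_ne_zero.2 h) x.val = _
  rw [e, Localization.mk_eq_mk', eq_div_iff hb, mul_comm, eq_comm]
  exact ((IsLocalization.lift_mk'_spec _ a _ b).1 rfl)

theorem evA_mk (p : S →ₐ[ℂ] ℂ) (h : p f ≠ 0) (hf : f ∈ 𝒜 m) (k : ℕ) (a : S) (ha : a ∈ 𝒜 (k • m)) :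
    evA 𝒜 p h (HomogeneousLocalization.Away.mk 𝒜 hf k a ha) = p a / p f ^ k := by
  rw [evA_of_val p h (HomogeneousLocalization.Away.val_mk ..), map_pow]

theorem evA_zero (p : S →ₐ[ℂ] ℂ) (h : p f ≠ 0) (c : ℂ) :
    evA 𝒜 p h (fromZeroRingHom 𝒜 _ (algebraMap ℂ (𝒜 0) c)) = c := by
  rw [evA_of_val p h (a := algebraMap ℂ S c) (b := 1) rfl]
  simp

theorem evA_awayMap (p : S →ₐ[ℂ] ℂ) (hf : f ∈ 𝒜 m) {m' : ℕ} {g x : S} (hg : g ∈ 𝒜 m')
    (hx : x = f * g) (h : p f ≠ 0) (h' : p x ≠ 0) :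
    (evA 𝒜 p h').comp (awayMap 𝒜 hg hx) = evA 𝒜 p h := by
  ext y
  obtain ⟨k, a, ha, rfl⟩ := HomogeneousLocalization.Away.mk_surjective 𝒜 hf y
  have : p g ≠ 0 := fun e => h' (by simp [hx, e])
  rw [RingHom.comp_apply, HomogeneousLocalization.awayMap_mk, evA_mk, evA_mk, hx]
  simp only [map_mul, map_pow, mul_pow]
  field_simp

variable (𝒜) in
/-- the scheme over `ℂ` -/
abbrev PW : Sch := Over.mk (strMap 𝒜)

variable (𝒜) in
/-- a basic open set -/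
def UU (f : S) : (PW 𝒜).left.Opens := Proj.basicOpen 𝒜 f

/-- a fraction as a section -/
def sec (x : Away 𝒜 f) : Γ((PW 𝒜).left, UU 𝒜 f) := Proj.awayToSection 𝒜 f x

theorem aff_UU (hf : f ∈ 𝒜 m) (hm : 0 < m) : IsAffineOpen (UU 𝒜 f) :=
  Proj.isAffineOpen_basicOpen 𝒜 f hf hm

theorem sec_surj (hf : f ∈ 𝒜 m) (hm : 0 < m) (s : Γ((PW 𝒜).left, UU 𝒜 f)) :
    ∃ k a ha, sec (HomogeneousLocalization.Away.mk 𝒜 hf k a ha) = s := by
  obtain ⟨k, a, ha, e⟩ := HomogeneousLocalization.Away.mk_surjective 𝒜 hf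
    ((Proj.basicOpenIsoAway 𝒜 f hf hm).inv s)
  exact ⟨k, a, ha, e ▸ (Proj.basicOpenIsoAway 𝒜 f hf hm).inv_hom_id_apply s⟩

theorem fromSpec_eq (hf : f ∈ 𝒜 m) (hm : 0 < m) :
    Spec.map (Proj.awayToSection 𝒜 f) ≫ Proj.awayι 𝒜 f hf hm =
      (Proj.isAffineOpen_basicOpen 𝒜 f hf hm).fromSpec := by
  rw [← IsAffineOpen.isoSpec_inv_ι, Iso.eq_inv_comp, IsAffineOpen.isoSpec_hom, ← Category.assoc]
  exact (Proj.basicOpenIsoSpec 𝒜 f hf hm).hom_inv_id_assoc _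

/-- the complex point of a point of the cone, in one chart -/
def th (hf : f ∈ 𝒜 m) (hm : 0 < m) (p : S →ₐ[ℂ] ℂ) (h : p f ≠ 0) : Pnt (PW 𝒜) :=
  Over.homMk (Spec.map (CommRingCat.ofHom (evA 𝒜 p h)) ≫ Proj.awayι 𝒜 f hf hm) (by
    change (_ ≫ _) ≫ strMap 𝒜 = 𝟙 _
    rw [strMap, Category.assoc, Proj.awayι_toSpecZero_assoc, ← Spec.map_comp, ← Spec.map_comp]
    refine Eq.trans (congrArg Spec.map ?_) (Spec.map_id _)
    ext c
    exact evA_zero p h c)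

theorem th_mor (hf : f ∈ 𝒜 m) (hm : 0 < m) (p : S →ₐ[ℂ] ℂ) (h : p f ≠ 0) : (th hf hm p h).mor =
    Spec.map (CommRingCat.ofHom (evA 𝒜 p h)) ≫ Proj.awayι 𝒜 f hf hm := rfl

theorem th_eq (hf : f ∈ 𝒜 m) (hm : 0 < m) {m' : ℕ} {g : S} (hg : g ∈ 𝒜 m') (hm' : 0 < m')
    (p : S →ₐ[ℂ] ℂ) (h : p f ≠ 0) (h' : p g ≠ 0) : th hf hm p h = th hg hm' p h' := by
  have h2 : p (f * g) ≠ 0 := by rw [map_mul]; exact mul_ne_zero h h'
  refine Pnt.ext_mor ?_
  rw [th_mor, th_mor, ← evA_awayMap p hf hg rfl h h2, ← evA_awayMap p hg hf (mul_comm f g) h' h2,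
    CommRingCat.ofHom_comp, CommRingCat.ofHom_comp, Spec.map_comp, Spec.map_comp, Category.assoc,
    Category.assoc, Proj.SpecMap_awayMap_awayι, Proj.SpecMap_awayMap_awayι]
  congr! 2
  exact add_comm _ _

theorem mor_eq' (hf : f ∈ 𝒜 m) (hm : 0 < m) (P : Pnt (PW 𝒜)) (h : P.pt ∈ UU 𝒜 f) :
    Spec.map (Proj.awayToSection 𝒜 f ≫ valR P h) ≫ Proj.awayι 𝒜 f hf hm = P.mor := by
  rw [← mor_eq (aff_UU hf hm) P h, Spec.map_comp]
  exact (Category.assoc _ _ _).trans (congrArg (Spec.map (valR P h) ≫ ·) (fromSpec_eq hf hm))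

theorem th_mem_iff (hf : f ∈ 𝒜 m) (hm : 0 < m) (p : S →ₐ[ℂ] ℂ) (h : p f ≠ 0) {m' : ℕ} {g : S}
    (hg : g ∈ 𝒜 m') (hm' : 0 < m') : (th hf hm p h).pt ∈ UU 𝒜 g ↔ p g ≠ 0 := by
  change Spec.map (CommRingCat.ofHom (evA 𝒜 p h)) (IsLocalRing.closedPoint ℂ) ∈
    Proj.awayι 𝒜 f hf hm ⁻¹ᵁ Proj.basicOpen 𝒜 g ↔ _
  rw [Proj.awayι_preimage_basicOpen 𝒜 hf hm hg hm']
  change ¬evA 𝒜 p h _ ∈ IsLocalRing.maximalIdeal ℂ ↔ _
  rw [IsLocalRing.maximalIdeal_eq_bot, Ideal.mem_bot, evA_mk]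
  simp [h, hm.ne']

theorem val_th (hf : f ∈ 𝒜 m) (hm : 0 < m) (p : S →ₐ[ℂ] ℂ) (h : p f ≠ 0) (x : Away 𝒜 f) :
    val (UU 𝒜 f) (sec x) (th hf hm p h) = evA 𝒜 p h x := by
  have hp := (th_mem_iff hf hm p h hf hm).2 h
  have e := mor_eq' hf hm _ hp
  rw [th_mor, cancel_mono] at e
  rw [val_eq_valR _ hp]
  exact congrArg (fun φ : CommRingCat.of (Away 𝒜 f) ⟶ CommRingCat.of ℂ => φ x)
    (Spec.map_injective e)

theorem fromZero_eq (hf : f ∈ 𝒜 m) (a : 𝒜 0) : fromZeroRingHom 𝒜 _ a =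
    HomogeneousLocalization.Away.mk 𝒜 hf 0 a (by simp) :=
  HomogeneousLocalization.val_injective _ (by
    rw [HomogeneousLocalization.Away.val_mk]
    change Localization.mk _ 1 = _
    congr 1
    exact Subtype.ext (pow_zero f).symm)

/-- dehomogenisation -/
def dh (hf : f ∈ 𝒜 1) : S →+* Away 𝒜 f :=
  (DirectSum.toSemiring (fun j => AddMonoidHom.mk' (fun a : 𝒜 j =>
      HomogeneousLocalization.Away.mk 𝒜 hf j a (by simp)) fun a b =>
        HomogeneousLocalization.val_injective _ (by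
          simp [HomogeneousLocalization.Away.val_mk, Localization.add_mk_self]))
    (HomogeneousLocalization.val_injective _ (by simp [HomogeneousLocalization.Away.val_mk]))
    (fun {i j} a b => HomogeneousLocalization.val_injective _ (by
      simp [HomogeneousLocalization.Away.val_mk, Localization.mk_mul, pow_add]))).comp
    (DirectSum.decomposeRingEquiv 𝒜).toRingHom

theorem dh_eq (hf : f ∈ 𝒜 1) {j : ℕ} {a : S} (ha : a ∈ 𝒜 j) :
    dh hf a = HomogeneousLocalization.Away.mk 𝒜 hf j a (by simpa using ha) := by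
  have e : (DirectSum.decomposeRingEquiv 𝒜).toRingHom a = DirectSum.of (fun j => 𝒜 j) j ⟨a, ha⟩ :=
    DirectSum.decompose_of_mem 𝒜 ha
  rw [dh, RingHom.comp_apply, e, DirectSum.toSemiring_of]
  rfl

theorem exists_th (hf : f ∈ 𝒜 1) (P : Pnt (PW 𝒜)) (h : P.pt ∈ UU 𝒜 f) :
    ∃ (p : S →ₐ[ℂ] ℂ) (h' : p f ≠ 0), th hf one_pos p h' = P := by
  have e := mor_eq' hf one_pos P h
  generalize Proj.awayToSection 𝒜 f ≫ valR P h = q at e
  have e2 : Spec.map q ≫ Proj.awayι 𝒜 f hf one_pos ≫ strMap 𝒜 = 𝟙 _ :=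
    (Category.assoc _ _ _).symm.trans ((congrArg (· ≫ strMap 𝒜) e).trans P.mor_hom)
  rw [strMap, Proj.awayι_toSpecZero_assoc, ← Spec.map_comp, ← Spec.map_comp, ← Spec.map_id] at e2
  let p : S →ₐ[ℂ] ℂ := { q.hom.comp (dh hf) with
    commutes' := fun c => by
      have := congrArg (fun φ : CommRingCat.of ℂ ⟶ CommRingCat.of ℂ => φ c) (Spec.map_injective e2)
      refine Eq.trans (congrArg q ?_) this
      exact (dh_eq hf (algebraMap ℂ (𝒜 0) c).2).trans (fromZero_eq hf _).symm }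
  have hp : p f = 1 := by
    refine Eq.trans (congrArg q ((dh_eq hf hf).trans ?_)) (map_one q.hom)
    exact HomogeneousLocalization.val_injective _ (by simp [HomogeneousLocalization.Away.val_mk])
  refine ⟨p, hp ▸ one_ne_zero, Pnt.ext_mor ?_⟩
  rw [th_mor, ← e]
  congr 2
  ext y
  obtain ⟨k, a, ha, rfl⟩ := HomogeneousLocalization.Away.mk_surjective 𝒜 hf y
  refine (evA_mk p (hp ▸ one_ne_zero) hf k a ha).trans ?_
  rw [hp, one_pow, div_one]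
  exact congrArg q (dh_eq hf (by simpa using ha))

end PX

end

end Pool.Agent.Lib.MP_d3d358_ag.Cw
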