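import Pool.Agent.Lib.MP_d3d358_ag.Cw.LocA

/-! The angle cochain of a complex function. -/

set_option autoImplicit false

namespace Pool.Agent.Lib.MP_d3d358_ag.Cw

open Topology Set Filter AS

noncomputable section

/-- the argument in the circle of length one -/
def ratC (z : ℂ) : UnitAddCircle := ((z.arg * ((2 * Real.pi)⁻¹ * 1) : ℝ) : UnitAddCircle)

theorem ratC_eq (z : ℂ) : ratC z = AddCircle.equivAddCircle (2 * Real.pi) 1 Real.two_pi_pos.ne'
    one_ne_zero (z.arg : Real.Angle) := rfl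

theorem ratC_cont {z : ℂ} (hz : z ≠ 0) : ContinuousAt ratC z :=
  (AddCircle.homeomorphAddCircle (2 * Real.pi) 1 Real.two_pi_pos.ne'
    one_ne_zero).continuous.continuousAt.comp (Complex.continuousAt_arg_coe_angle hz)

theorem ratC_mul {z w : ℂ} (hz : z ≠ 0) (hw : w ≠ 0) : ratC (z * w) = ratC z + ratC w := by
  rw [ratC_eq, ratC_eq, ratC_eq, Complex.arg_mul_coe_angle hz hw]
  exact map_add _ _ _

theorem ratC_zero {z : ℂ} (h : ratC z = 0) : 0 ≤ z.re ∧ z.im = 0 := by
  rw [← Complex.arg_eq_zero_iff, ← Complex.arg_coe_angle_toReal_eq_arg]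
  exact (congrArg Real.Angle.toReal ((AddEquiv.map_eq_zero_iff _).1
    ((ratC_eq z).symm.trans h))).trans Real.Angle.toReal_zero

variable {Z : Type}

/-- the angle cochain -/
def ratA (g : Z → ℂ) : Ch Z ℚ :=
  fnC (fun x => if 0 ≤ (g x).re then 1 else 0) * jp fun x => (g x).im

theorem dC_ratA (g : Z → ℂ) :
    dC (ratA g) = jp (fun x => (g x).re) * jp fun x => (g x).im := by
  rw [ratA, dC_mul, jp, jp, dC_dC, mul_zero, add_zero]

theorem ratA_pull (g : Z → ℂ) : ratA g = pullC g (ratA id) := by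
  simp only [ratA, jp, map_mul, ← dC_pullC, pullC_fnC, Function.comp_def, id]

theorem rat_fn_null [TopologicalSpace Z] {K : Set Z} {u : Z → ℚ} (h : ∀ x ∈ K, u x = 0) :
    fnC u ∈ N K := Null_of_zero fun l hl => by
  change (if l.length = 1 then (l.map u).sum else 0) = 0
  rw [List.sum_eq_zero fun y hy => ?_, ite_self]
  obtain ⟨x, hx, rfl⟩ := List.mem_map.1 hy
  exact h x (hl x hx)

theorem rat_theta : ratA id - pullC ratC (thetaC ℚ) ∈ N ({0}ᶜ : Set ℂ) := by
  refine Circle_local fun z hz => ?_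
  have th : ∀ V : Set ℂ, (∀ w ∈ V, w.re < 0 ∨ w.im ≠ 0) → pullC ratC (thetaC ℚ) ∈ N V :=
    fun V hV => N_pullC (K := {0}ᶜ) (fun w hw => (ratC_cont fun e => by
      simpa [e] using hV w hw).continuousWithinAt)
      (fun w hw e => (hV w hw).elim (ratC_zero e).1.not_gt fun h => h (ratC_zero e).2) pt_theta
  rcases lt_trichotomy z.im 0 with h | h | h
  · exact ⟨{w | w.im < 0}, mem_nhdsWithin_of_mem_nhds
      ((isOpen_lt Complex.continuous_im continuous_const).mem_nhds h), sub_mem (N_mul_left _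
        (pt_const (c := 0) fun x hx => if_neg (not_le.2 hx))) (th _ fun w hw => Or.inr hw.ne)⟩
  swap
  · exact ⟨{w | 0 < w.im}, mem_nhdsWithin_of_mem_nhds
      ((isOpen_lt continuous_const Complex.continuous_im).mem_nhds h), sub_mem (N_mul_left _
        (pt_const (c := 1) fun x hx => if_pos (le_of_lt hx))) (th _ fun w hw => Or.inr hw.ne')⟩
  rcases lt_trichotomy z.re 0 with h' | h' | h'
  · exact ⟨{w | w.re < 0}, mem_nhdsWithin_of_mem_nhds
      ((isOpen_lt Complex.continuous_re continuous_const).mem_nhds h'), sub_mem (N_mul_right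
        (rat_fn_null (K := {w : ℂ | w.re < 0}) fun x hx => if_neg (not_le.2 hx)) _)
        (th _ fun w hw => Or.inl hw)⟩
  · exact (hz (Complex.ext h' h)).elim
  refine ⟨{w | 0 < w.re}, mem_nhdsWithin_of_mem_nhds
    ((isOpen_lt continuous_const Complex.continuous_re).mem_nhds h'), ?_⟩
  have a := thetaC_lift ℚ (K := {w : ℂ | 0 < w.re}) (c := ratC)
    (t := fun w => w.arg * ((2 * Real.pi)⁻¹ * 1)) (fun w hw => ((Complex.continuousAt_arg
      (Or.inl hw)).mul continuousAt_const).continuousWithinAt) fun _ _ => rfl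
  have b : dC (fnC ((fun w : ℂ => if 0 ≤ w.im then (1 : ℚ) else 0) -
      fun w : ℂ => ((⌊w.arg * ((2 * Real.pi)⁻¹ * 1)⌋ : ℤ) : ℚ))) ∈ N {w : ℂ | 0 < w.re} :=
    pt_const (c := 1) fun w _ => by
      have h1 := Complex.arg_mem_Ioc w
      have hp := Real.pi_pos
      rw [Pi.sub_apply, mul_one, ← div_eq_mul_inv]
      split_ifs with h0
      · rw [Int.floor_eq_zero_iff.2 ⟨div_nonneg (Complex.arg_nonneg_iff.2 h0) (by positivity),
          (div_lt_one (by positivity)).2 (by linarith [h1.2])⟩]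
        simp
      · rw [(Int.floor_eq_iff (z := -1)).2 ⟨(le_div_iff₀ (by positivity)).2
          (by push_cast; linarith [h1.1]), by
            simpa using div_neg_of_neg_of_pos (Complex.arg_neg_iff.2 (not_le.1 h0))
              Real.two_pi_pos⟩]
        simp
  have c : fnC ((fun w : ℂ => if 0 ≤ w.re then (1 : ℚ) else 0) - 1) ∈ N {w : ℂ | 0 < w.re} :=
    rat_fn_null fun x (hx : 0 < x.re) => by simp [hx.le]
  have d := N_mul_right c (jp Complex.im)
  rw [Circle_fn_sub, map_sub] at b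
  rw [Circle_fn_sub, sub_mul, show (fnC 1 : Ch ℂ ℚ) = 1 from rfl, one_mul] at d
  convert sub_mem (add_mem d b) a using 1
  simp only [ratA, jp, id]
  abel

variable [TopologicalSpace Z] {V : Set Z} {f g g' : Z → ℂ}

theorem rat_theta' (hg : ContinuousOn g V) (h0 : ∀ u ∈ V, g u ≠ 0) :
    ratA g - pullC (ratC ∘ g) (thetaC ℚ) ∈ N V := by
  rw [ratA_pull, ← pullC_pullC, ← map_sub]
  exact N_pullC (K := {0}ᶜ) hg h0 rat_theta

theorem ratC_on (hg : ContinuousOn g V) (h0 : ∀ u ∈ V, g u ≠ 0) : ContinuousOn (ratC ∘ g) V :=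
  fun u hu => (ratC_cont (h0 u hu)).comp_continuousWithinAt (hg u hu)

theorem rat_coc (hg : ContinuousOn g V) (h0 : ∀ u ∈ V, g u ≠ 0) : dC (ratA g) ∈ N V := by
  simpa using add_mem (N_dC (rat_theta' hg h0)) (Circle_coc (R := ℚ) (ratC_on hg h0))

theorem rat_add (hf : ContinuousOn f V) (f0 : ∀ u ∈ V, f u ≠ 0) (hg : ContinuousOn g' V)
    (g0 : ∀ u ∈ V, g' u ≠ 0) (e : ∀ u ∈ V, f u * g' u = g u) :
    ∃ c, ratA g - (ratA f + ratA g') - dC c ∈ N V := by
  have h := cls_add (R := ℚ) (ratC_on hf f0) (ratC_on hg g0)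
  have d : dC (pullC (ratC ∘ f) (thetaC ℚ) + pullC (ratC ∘ g') (thetaC ℚ)) ∈ N V := by
    rw [map_add]
    exact add_mem (Circle_coc (ratC_on hf f0)) (Circle_coc (ratC_on hg g0))
  rw [Circle_cls, Circle_cls, Circle_cls, ← mk_add _ _ d, mk_eq_iff] at h
  obtain ⟨c, hc⟩ := h
  have h1 := rat_theta' (g := g) ((hf.mul hg).congr fun u hu => (e u hu).symm)
    fun u hu => e u hu ▸ mul_ne_zero (f0 u hu) (g0 u hu)
  have h2 := pullC_congr (f := ratC ∘ g) (g := ratC ∘ f + ratC ∘ g') (K' := V) (fun u hu => by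
    rw [Function.comp, ← e u hu]
    exact ratC_mul (f0 u hu) (g0 u hu)) (thetaC ℚ)
  refine ⟨c, ?_⟩
  convert sub_mem (sub_mem (add_mem (add_mem h1 h2) hc) (rat_theta' hf f0)) (rat_theta' hg g0)
    using 1
  abel

end

end Pool.Agent.Lib.MP_d3d358_ag.Cw
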