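import Pool.Agent.Lib.MP_d3d358_ag.Cw.Rat0

/-! The divisor of a function is homologous to zero. -/

set_option autoImplicit false

namespace Pool.Agent.Lib.MP_d3d358_ag.Cw

open Topology Set Filter AS

variable {Z : Type} {r : ℕ} [MetricSpace Z] {K P : Set Z}

theorem rat_right {F : Filter Z} {a : Ch Z ℚ} (h : a ∈ ptN F) (b : Ch Z ℚ) : a * b ∈ ptN F :=
  h.imp fun _ h => ⟨h.1, N_mul_right h.2 b⟩

theorem rat_left {F : Filter Z} (a : Ch Z ℚ) {b : Ch Z ℚ} (h : b ∈ ptN F) : a * b ∈ ptN F :=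
  h.imp fun _ h => ⟨h.1, N_mul_left a h.2⟩

theorem rat_le {F G : Filter Z} (h : F ≤ G) {a : Ch Z ℚ} (ha : a ∈ ptN G) : a ∈ ptN F :=
  ha.imp fun _ e => ⟨h e.1, e.2⟩

theorem rat_mul (hP : IsClosed P) {c w : Ch Z ℚ} (hw : w ∈ N (K \ P))
    (hc : ∀ q ∈ P, c ∈ ptN (𝓝[K] q)) : c * w ∈ N K := Circle_local fun x _ => by
  by_cases hx : x ∈ P
  · exact rat_right (hc x hx) w
  · exact ⟨_, inter_mem_nhdsWithin K (hP.isOpen_compl.mem_nhds hx), N_mul_left c hw⟩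

theorem rat_nhds {c : Ch Z ℚ} (hc : ∀ q ∈ P, c ∈ ptN (𝓝[K] q)) : ∃ V ∈ 𝓝ˢ P, c ∈ N (V ∩ K) := by
  refine ⟨{z | c ∈ ptN (𝓝[K] z)}, mem_nhdsSet_iff_forall.2 fun q hq => ?_,
    Circle_local fun z hz => rat_le (nhdsWithin_mono _ inter_subset_right) hz.1⟩
  obtain ⟨U, hU, e⟩ := loc_at' (hc q hq)
  exact mem_of_superset (interior_mem_nhds.2 hU) fun z hz =>
    loc_at (mem_interior_iff_mem_nhds.1 hz) e

omit [MetricSpace Z] in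
theorem rat_dC {w : Ch Z ℚ} (a : Ch Z ℚ) (hw : dC w = 0) : dC (a * w) = dC a * w := by
  rw [dC_mul, hw, mul_zero, add_zero]

theorem rat_zero (hK : IsCompact K) (hP : IsCompact P) (hPK : P ⊆ K) {w a b : Ch Z ℚ} {k : ℤ}
    (hw : w ∈ N (K \ P)) (dw : dC w = 0) (ha : a ∈ DZ k) (hb : b ∈ DZ (k - 1))
    (hd : ∀ q ∈ P, dC a ∈ ptN (𝓝[K] q)) (e : a - dC b ∈ N P) (h : dC (a * w) ∈ N K) :
    AS.mk (a * w) h = 0 := by
  obtain ⟨V, hV, hdV⟩ := rat_nhds hd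
  obtain ⟨c, -, -, V', hV', e'⟩ := N_nhds hP hK hPK (sub_mem ha (MV_dC_mem hb)) e hV
    (by rwa [map_sub, dC_dC, sub_zero])
  refine MV_mk_zero_of (c := (b + c) * w) h ?_
  rw [rat_dC _ dw, ← sub_mul, map_add, ← sub_sub]
  exact rat_mul hP.isClosed hw fun q hq => loc_at (mem_nhdsSet_iff_forall.1 hV' q hq) e'

/-- the class `u` on `P` has an extension `a` with `φ (a * w) = ψ u` -/
def RatS (K P : Set Z) (w : Ch Z ℚ) (φ : HT ℚ K →ₗ[ℚ] ℚ) (ψ : HT ℚ P →ₗ[ℚ] ℚ) (k : ℤ)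
    (u : HT ℚ P) : Prop :=
  ∃ a ∈ DZ k, (∀ q ∈ P, dC a ∈ ptN (𝓝[K] q)) ∧ (∃ h, u = AS.mk a h) ∧
    ∃ h, φ (AS.mk (a * w) h) = ψ u

theorem rat_span {w : Ch Z ℚ} {φ : HT ℚ K →ₗ[ℚ] ℚ} {ψ : HT ℚ P →ₗ[ℚ] ℚ} {k : ℤ}
    {s : Set (HT ℚ P)} (hs : ∀ u ∈ s, RatS K P w φ ψ k u) {u : HT ℚ P}
    (hu : u ∈ Submodule.span ℚ s) : RatS K P w φ ψ k u := by
  induction hu using Submodule.span_induction with
  | mem u hu => exact hs u hu
  | zero =>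
    refine ⟨0, zero_mem _, fun q _ => by simp, ⟨by simp, (loc_mk_zero _ (zero_mem _)).symm⟩,
      by simp, ?_⟩
    rw [loc_mk_zero _ (by simp), map_zero, map_zero]
  | add u v _ _ hu hv =>
    obtain ⟨a, a1, a2, ⟨a3, rfl⟩, a4, a5⟩ := hu
    obtain ⟨b, b1, b2, ⟨b3, rfl⟩, b4, b5⟩ := hv
    have d : dC (a * w + b * w) ∈ N K := by rw [map_add]; exact add_mem a4 b4
    refine ⟨a + b, add_mem a1 b1, fun q hq => by rw [map_add]; exact add_mem (a2 q hq) (b2 q hq),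
      ⟨by rw [map_add]; exact add_mem a3 b3, (mk_add _ _ _).symm⟩, by rwa [add_mul], ?_⟩
    rw [map_add ψ, ← a5, ← b5, ← map_add φ, ← mk_add _ _ d]
    simp only [add_mul]
  | smul c u _ hu =>
    obtain ⟨a, a1, a2, ⟨a3, rfl⟩, a4, a5⟩ := hu
    have d : dC (c • (a * w)) ∈ N K := by rw [map_smul]; exact Submodule.smul_mem _ c a4
    refine ⟨c • a, Submodule.smul_mem _ c a1,
      fun q hq => by rw [map_smul]; exact Submodule.smul_mem _ c (a2 q hq),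
      ⟨by rw [map_smul]; exact Submodule.smul_mem _ c a3, (mk_smul _ _ _).symm⟩,
      by rwa [smul_mul_assoc], ?_⟩
    rw [map_smul ψ, ← a5, ← map_smul φ, ← mk_smul _ _ d]
    simp only [smul_mul_assoc]

theorem rat_pt (hP : IsClosed P) (hPK : P ⊆ K) {φ : HT ℚ K →ₗ[ℚ] ℚ} {ψ : HT ℚ P →ₗ[ℚ] ℚ}
    {f : Z → ℂ} (hf : ContinuousOn f (K \ P)) (h0 : ∀ u ∈ K \ P, f u ≠ 0) {p : Z} {U : Set Z}
    (hU : U ∈ 𝓝 p) {y : Z → Fin r → ℂ} {g g' : Z → ℂ} {m m' : ℚ} (hy : Cht P p y)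
    (cy : ContinuousOn y (U ∩ K)) (cg : ContinuousOn g (U ∩ K)) (cg' : ContinuousOn g' (U ∩ K))
    (hz : ∀ u ∈ U ∩ K, (g u = 0 ↔ u ∈ P) ∧ (g' u = 0 ↔ u ∈ P))
    (he : ∀ u ∈ (U ∩ K) \ P, f u * g' u = g u)
    (hm : ∀ x, IsPt K p (fun u => (Fin.snoc (y u) (g u) : Fin (r + 1) → ℂ)) x → φ x = m)
    (hm' : ∀ x, IsPt K p (fun u => (Fin.snoc (y u) (g' u) : Fin (r + 1) → ℂ)) x → φ x = m')
    {x : HT ℚ P} (hx : IsPt P p y x) (hψ : ψ x = m - m') :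
    RatS K P (dC (ratA f)) φ ψ (2 * (r : ℤ)) x := by
  obtain ⟨U', O, s, c, hp⟩ := hy
  obtain ⟨W, hW, cl, hs⟩ := exists_mem_nhds_isClosed_subset
    (inter_mem (interior_mem_nhds.2 hU) (c.oU.mem_nhds hp.1))
  set j : Ch Z ℚ := jc fun z => y z - y p with hj
  have near : ∀ q ∈ W, U ∩ K ∈ 𝓝[K] q := fun q hq => inter_mem (mem_nhdsWithin_of_mem_nhds
    (mem_interior_iff_mem_nhds.1 (hs hq).1)) self_mem_nhdsWithin
  have out : ∀ q ∉ W, ptCut W j ∈ ptN (𝓝[K] q) := fun q hq =>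
    ⟨_, mem_nhdsWithin_of_mem_nhds (cl.isOpen_compl.mem_nhds hq), pt_cut_out j⟩
  have inn : ptCut W j - j ∈ ptN (𝓝[K] p) := ⟨W, mem_nhdsWithin_of_mem_nhds hW, pt_cut_in j⟩
  have off : ∀ q ∈ P, q ≠ p → ptCut W j ∈ ptN (𝓝[K] q) := fun q hq hqp => by
    by_cases hw : q ∈ W
    swap
    · exact out q hw
    have h1 : ContinuousWithinAt (fun z => rl r (y z - y p)) K q :=
      (rl r).continuous.continuousAt.comp_continuousWithinAt (((cy q ⟨interior_subset (hs hw).1,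
        hPK hq⟩).mono_of_mem_nhdsWithin (near q hw)).sub continuousWithinAt_const)
    obtain ⟨V, hV, e⟩ := loc_jr_null h1 fun e => hqp (by
      rw [← c.li q ⟨(hs hw).2, hq⟩, sub_eq_zero.1 ((map_eq_zero_iff _ (rl r).injective).1 e),
        c.li p hp])
    exact ⟨V, hV, pt_cut_N (hj ▸ jc_eq (fun z => y z - y p) ▸ e)⟩
  have da : ∀ q ∈ P, dC (ptCut W j) ∈ ptN (𝓝[K] q) := fun q hq => by
    by_cases e : q = p
    · simpa [e, hj, dC_jc] using loc_dC inn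
    · exact loc_dC (off q hq e)
  have mul : ∀ {c w : Ch Z ℚ}, w ∈ N ((U ∩ K) \ P) → (∀ q ∉ W, c ∈ ptN (𝓝[K] q)) → ∀ q ∉ P,
      c * w ∈ ptN (𝓝[K] q) := fun {c w} hw hc q hq => by
    by_cases e : q ∈ W
    · exact ⟨_, inter_mem (near q e) (mem_nhdsWithin_of_mem_nhds (hP.isOpen_compl.mem_nhds hq)),
        N_mul_left c hw⟩
    · exact rat_right (hc q e) w
  have mul' : ∀ {w : Ch Z ℚ}, w ∈ N ((U ∩ K) \ P) → dC (ptCut W j) * w ∈ N K := fun {w} hw =>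
    Circle_local fun q _ => by
      by_cases e : q ∈ P
      exacts [rat_right (da q e) w, mul hw (fun q hq => loc_dC (out q hq)) q e]
  have pt : ∀ {g : Z → ℂ}, ContinuousOn g (U ∩ K) → (∀ u ∈ U ∩ K, g u = 0 ↔ u ∈ P) →
      ∃ h, IsPt K p (fun u => (Fin.snoc (y u) (g u) : Fin (r + 1) → ℂ))
        (AS.mk (ptCut W j * dC (ratA g)) h) := fun {g} cg hz => by
    have hw := rat_coc (V := (U ∩ K) \ P) (cg.mono sdiff_subset) fun u hu e =>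
      hu.2 ((hz u hu.1).1 e)
    refine ⟨by rw [rat_dC _ (dC_dC _)]; exact mul' hw, lc_iff.2 ⟨_, ⟨_, rfl⟩,
      Circle_local fun q hq => rat_le (nhdsWithin_mono _ sdiff_subset) ?_, ?_⟩⟩
    · by_cases e : q ∈ P
      exacts [rat_right (off q e hq.2) _, mul hw out q e]
    · have e : (fun z => (Fin.snoc (y z) (g z) : Fin (r + 1) → ℂ) - Fin.snoc (y p) (g p)) =
          fun z => (Fin.snoc (y z - y p) (g z) : Fin (r + 1) → ℂ) := by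
        funext z i
        refine Fin.lastCases ?_ (fun i => ?_) i
        · simp [(hz p ⟨mem_of_mem_nhds hU, hPK hp.2⟩).2 hp.2]
        · simp
      rw [e, jc_snoc, ← dC_ratA, ← hj, ← sub_mul]
      exact rat_right inn _
  obtain ⟨h1, e1⟩ := pt cg fun u hu => (hz u hu).1
  obtain ⟨h2, e2⟩ := pt cg' fun u hu => (hz u hu).2
  obtain ⟨t, ht⟩ := rat_add (V := (U ∩ K) \ P) (hf.mono fun u hu => ⟨hu.1.2, hu.2⟩)
    (fun u hu => h0 u ⟨hu.1.2, hu.2⟩) (cg'.mono sdiff_subset)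
    (fun u hu e => hu.2 ((hz u hu.1).2.1 e)) he
  have dP : dC (ptCut W j) ∈ N P :=
    Circle_local fun q hq => rat_le (nhdsWithin_mono _ hPK) (da q hq)
  have h3 : dC (ptCut W j * dC (ratA f)) ∈ N K := by
    rw [rat_dC _ (dC_dC _)]
    exact rat_mul hP (rat_coc hf h0) da
  have dg : ptCut W j ∈ DZ (2 * (r : ℤ)) := pt_cut_deg W (jc_mem _)
  refine ⟨_, dg, da, ⟨dP, Lc.unique hx (lc_iff.2 ⟨_, ⟨dP, rfl⟩, Circle_local fun q hq =>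
    rat_le (nhdsWithin_mono _ (sdiff_subset.trans hPK)) (off q hq.1 hq.2),
    rat_le (nhdsWithin_mono _ hPK) inn⟩)⟩, h3, ?_⟩
  have d : dC (ptCut W j * dC (ratA f) + ptCut W j * dC (ratA g')) ∈ N K := by
    rw [map_add]; exact add_mem h3 h2
  rw [hψ, ← hm _ e1, ← hm' _ e2, eq_sub_iff_add_eq, ← map_add, ← mk_add _ _ d]
  refine congrArg φ ((mk_eq_iff _ _).2 ⟨-(ptCut W j * (ratA g - (ratA f + ratA g') - dC t)), ?_⟩)
  convert mul' ht using 1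
  rw [map_neg, dC_mul, sg_of_mem dg, Int.negOnePow_two_mul]
  simp only [map_sub, map_add, dC_dC, Units.val_one, one_smul, sub_zero]
  noncomm_ring

theorem rat_of_span (hK : IsCompact K) (hP : IsCompact P) (hPK : P ⊆ K) {φ : HT ℚ K →ₗ[ℚ] ℚ}
    {ψ : HT ℚ P →ₗ[ℚ] ℚ} {f : Z → ℂ} (hf : ContinuousOn f (K \ P)) (h0 : ∀ u ∈ K \ P, f u ≠ 0)
    {k : ℤ} {x : HT ℚ K} (hx : x ∈ Hk K k) (h : RatS K P (dC (ratA f)) φ ψ k (res hPK x)) :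
    ψ (res hPK x) = 0 := by
  obtain ⟨a, ha, ak, rfl⟩ := hx
  obtain ⟨b, bk, db, ⟨hb, e⟩, h1, e1⟩ := h
  have dab : dC (a - b) ∈ N P := by rw [map_sub]; exact sub_mem (N_mono hPK ha) hb
  have h2 : dC (a * dC (ratA f)) ∈ N K := by
    rw [rat_dC _ (dC_dC _)]; exact N_mul_right ha _
  have h3 : dC ((a - b) * dC (ratA f)) ∈ N K := by
    rw [sub_mul, map_sub]; exact sub_mem h2 h1
  have z2 : AS.mk _ h2 = 0 := MV_mk_zero_of (c := sg a * ratA f) h2 (by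
    rw [dC_mul, sg_sg, dC_sg, neg_mul, sub_add_cancel_right, neg_neg]
    exact N_mul_right (N_sg ha) _)
  rw [res_mk, ← sub_eq_zero, ← MV_mk_sub _ _ dab] at e
  obtain ⟨c, ck, ec⟩ := (mk_eq_zero_iff (sub_mem ak bk) _).1 e
  have z3 := rat_zero hK hP hPK (rat_coc hf h0) (dC_dC _) (sub_mem ak bk) ck (fun q hq => by
    rw [map_sub]
    exact sub_mem ⟨K, self_mem_nhdsWithin, ha⟩ (db q hq)) ec h3
  simp only [sub_mul] at z3
  rw [MV_mk_sub h2 h1, z2, zero_sub, neg_eq_zero] at z3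
  rw [← e1, z3, map_zero]

theorem rat_of_gen (hK : IsCompact K) (hP : IsCompact P) (hPK : P ⊆ K) {B : Set Z}
    {φ : HT ℚ K →ₗ[ℚ] ℚ} (hgen : ∀ Y : Z → Z → Fin r → ℂ, (∀ p ∈ P \ B, Cht P p (Y p)) →
      Hk P (2 * (r : ℤ)) ≤ Submodule.span ℚ {x | ∃ p ∈ P \ B, IsPt P p (Y p) x})
    {f : Z → ℂ} (hf : ContinuousOn f (K \ P)) (h0 : ∀ u ∈ K \ P, f u ≠ 0) (ψ : HT ℚ P →ₗ[ℚ] ℚ)
    (hl : ∀ p ∈ P \ B, ∃ U ∈ 𝓝 p, ∃ (y : Z → Fin r → ℂ) (g g' : Z → ℂ) (m m' : ℚ), Cht P p y ∧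
      ContinuousOn y (U ∩ K) ∧ ContinuousOn g (U ∩ K) ∧ ContinuousOn g' (U ∩ K) ∧
      (∀ u ∈ U ∩ K, (g u = 0 ↔ u ∈ P) ∧ (g' u = 0 ↔ u ∈ P)) ∧
      (∀ u ∈ (U ∩ K) \ P, f u * g' u = g u) ∧
      (∀ x, IsPt K p (fun u => (Fin.snoc (y u) (g u) : Fin (r + 1) → ℂ)) x → φ x = m) ∧
      (∀ x, IsPt K p (fun u => (Fin.snoc (y u) (g' u) : Fin (r + 1) → ℂ)) x → φ x = m') ∧
      ∀ x, IsPt P p y x → ψ x = m - m') :
    ∀ x ∈ Hk K (2 * (r : ℤ)), ψ (res hPK x) = 0 := by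
  intro x hx
  choose! U hU y g g' m m' h1 h2 h3 h4 h5 h6 h7 h8 h9 using hl
  refine rat_of_span (φ := φ) hK hP hPK hf h0 hx (rat_span ?_ (hgen y h1 (MV_res_mem hPK hx)))
  rintro u ⟨p, hp, hu⟩
  exact rat_pt hP.isClosed hPK hf h0 (hU p hp) (h1 p hp) (h2 p hp) (h3 p hp) (h4 p hp) (h5 p hp)
    (h6 p hp) (h7 p hp) (h8 p hp) hu (h9 p hp u hu)

end Pool.Agent.Lib.MP_d3d358_ag.Cw
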