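import Pool.Agent.Lib.MP_d3d358_ag.Cw.Top
import Pool.Agent.Lib.MP_d3d358_ag.AS.AsTh

/-! Relative cochains: union, neighbourhoods, Mayer-Vietoris, gluing, vanishing over a base. -/

set_option autoImplicit false

namespace Pool.Agent.Lib.MP_d3d358_ag.Cw

open Topology Set Filter AS

variable {Z B : Type}

/-- null on `S ∩ L` with `L` closed: the cut is null on `S` -/
theorem rel_cut [TopologicalSpace Z] {S L : Set Z} (hL : IsClosed L) {a : Ch Z ℚ}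
    (h : a ∈ N (S ∩ L)) : ptCut L a ∈ N S := by
  classical
  intro x hx
  by_cases hxL : x ∈ L
  · obtain ⟨U, hU, e⟩ := h x ⟨hx, hxL⟩
    exact ⟨U, hU, fun l hl => ite_eq_right_iff.2 fun h' =>
      e l fun y hy => ⟨(hl y hy).1, (hl y hy).2, h' y hy⟩⟩
  · refine ⟨Lᶜ, hL.isOpen_compl.mem_nhds hxL, fun l hl => ite_eq_right_iff.2 fun h' => ?_⟩
    cases l with
    | nil => exact Alg_nil a
    | cons y l => exact ((hl y (by simp)).1 (h' y (by simp))).elim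

theorem rel_of_eq [TopologicalSpace Z] {K : Set Z} {a b : Ch Z ℚ} (h : a ∈ N K) (e : b = a) :
    b ∈ N K := e ▸ h

/-- `a` is on `E` the coboundary of a cochain that is null on `A` -/
def RZ [TopologicalSpace Z] (E A : Set Z) (k : ℤ) (a : Ch Z ℚ) : Prop :=
  ∃ b ∈ DZ (k - 1), b ∈ N (A ∩ E) ∧ a - dC b ∈ N E

theorem RZ.mono [TopologicalSpace Z] {E A E' A' : Set Z} {k : ℤ} {a : Ch Z ℚ} (h : RZ E A k a)
    (hE : E' ⊆ E) (hA : A' ∩ E' ⊆ A) : RZ E' A' k a := by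
  obtain ⟨b, hb, b1, e⟩ := h
  exact ⟨b, hb, N_mono (L := A ∩ E) (fun x hx => ⟨hA hx, hE hx.2⟩) b1, N_mono hE e⟩

theorem RZ.congr [TopologicalSpace Z] {E A : Set Z} {k : ℤ} {a a' : Ch Z ℚ} (h : RZ E A k a)
    (e : a' - a ∈ N E) : RZ E A k a' := by
  obtain ⟨b, hb, b1, e'⟩ := h
  exact ⟨b, hb, b1, rel_of_eq (add_mem e e') (by abel)⟩

theorem RZ.strict [TopologicalSpace Z] {E A : Set Z} (hE : IsClosed E) {k : ℤ} {a : Ch Z ℚ}
    (h : RZ E A k a) : ∃ b ∈ DZ (k - 1), b ∈ N A ∧ a - dC b ∈ N E := by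
  obtain ⟨b, hb, b1, e⟩ := h
  exact ⟨ptCut E b, pt_cut_deg E hb, rel_cut hE b1,
    rel_of_eq (sub_mem e (N_dC (pt_cut_in b))) (by rw [map_sub]; abel)⟩

variable [MetricSpace Z] {K L A : Set Z} {k : ℤ}

theorem rel_union (hK : IsCompact K) (hL : IsCompact L) (hA : IsCompact A) {a : Ch Z ℚ}
    (ha : a ∈ DZ k) (h1 : a ∈ N K) (h2 : a ∈ N L) (h3 : a ∈ N (A ∩ (K ∪ L)))
    (hd : dC a ∈ N (K ∪ L)) :
    ∃ b ∈ DZ (k - 1), b ∈ N K ∧ b ∈ N L ∧ b ∈ N A ∧ a - dC b ∈ N (K ∪ L) := by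
  obtain ⟨b, hb, b1, b2, e⟩ := N_union hK hL ha h1 h2 hd
  have e1 : dC b ∈ N (A ∩ (K ∪ L)) :=
    rel_of_eq (sub_mem h3 (N_mono inter_subset_right e)) (by abel)
  rw [inter_union_distrib_left] at e1
  obtain ⟨c, hc, c1, c2, e2⟩ := N_union (hA.inter hK) (hA.inter hL) hb
    (N_mono inter_subset_right b1) (N_mono inter_subset_right b2) e1
  rw [← inter_union_distrib_left] at e2
  have k1 : ptCut A c ∈ N K := rel_cut hA.isClosed (by rwa [inter_comm])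
  have k2 : ptCut A c ∈ N L := rel_cut hA.isClosed (by rwa [inter_comm])
  have k3 : b - dC (ptCut A c) ∈ N (A ∩ (K ∪ L)) :=
    rel_of_eq (sub_mem e2 (N_mono inter_subset_left (N_dC (pt_cut_in c))))
      (by rw [map_sub]; abel)
  refine ⟨ptCut (K ∪ L) (b - dC (ptCut A c)),
    pt_cut_deg _ (sub_mem hb (MV_dC_mem (pt_cut_deg A hc))), pt_cut_N (sub_mem b1 (N_dC k1)),
    pt_cut_N (sub_mem b2 (N_dC k2)), rel_cut (hK.union hL).isClosed k3,
    rel_of_eq (sub_mem e (N_dC (pt_cut_in (b - dC (ptCut A c))))) ?_⟩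
  simp only [map_sub, dC_dC]
  abel

theorem rel_nhds (hK : IsCompact K) (hL : IsCompact L) (hA : IsCompact A) (hKL : K ⊆ L)
    {a : Ch Z ℚ} (ha : a ∈ DZ k) (h1 : a ∈ N K) (h3 : a ∈ N A) {V : Set Z} (hV : V ∈ 𝓝ˢ K)
    (hd : dC a ∈ N (V ∩ L)) :
    ∃ b ∈ DZ (k - 1), b ∈ N K ∧ b ∈ N A ∧ ∃ V' ∈ 𝓝ˢ K, a - dC b ∈ N (V' ∩ L) := by
  obtain ⟨b, hb, b1, V₁, hV₁, e⟩ := N_nhds hK hL hKL ha h1 hV hd
  have e1 : dC b ∈ N (V₁ ∩ (L ∩ A)) :=
    rel_of_eq (sub_mem (N_mono (fun x hx => hx.2.2) h3)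
      (N_mono (L := V₁ ∩ L) (fun x hx => ⟨hx.1, hx.2.1⟩) e)) (by abel)
  obtain ⟨c, hc, c1, V₂, hV₂, e2⟩ := N_nhds (hK.inter hA) (hL.inter hA)
    (inter_subset_inter_left _ hKL) hb (N_mono inter_subset_left b1)
    (nhdsSet_mono inter_subset_left hV₁) e1
  have hV₃ : V₁ ∩ (V₂ ∪ Aᶜ) ∈ 𝓝ˢ K := inter_mem hV₁ (mem_nhdsSet_iff_forall.2 fun x hx => by
    by_cases hxA : x ∈ A
    · exact mem_of_superset (mem_nhdsSet_iff_forall.1 hV₂ x ⟨hx, hxA⟩) subset_union_left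
    · exact mem_of_superset (hA.isClosed.isOpen_compl.mem_nhds hxA) subset_union_right)
  obtain ⟨W, hW, cW, sW⟩ := exists_mem_nhdsSet_isClosed_subset hV₃ hK.isClosed
  have k1 : ptCut A c ∈ N K := rel_cut hA.isClosed c1
  have k3 : b - dC (ptCut A c) ∈ N (A ∩ (W ∩ L)) :=
    rel_of_eq (sub_mem (N_mono (L := V₂ ∩ (L ∩ A)) (fun x hx =>
      ⟨((sW hx.2.1).2).resolve_right fun h => h hx.1, hx.2.2, hx.1⟩) e2) (N_mono inter_subset_left (N_dC (pt_cut_in c))))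
      (by rw [map_sub]; abel)
  refine ⟨ptCut (W ∩ L) (b - dC (ptCut A c)),
    pt_cut_deg _ (sub_mem hb (MV_dC_mem (pt_cut_deg A hc))), pt_cut_N (sub_mem b1 (N_dC k1)),
    rel_cut (cW.inter hL.isClosed) k3, W, hW,
    rel_of_eq (sub_mem (N_mono (L := V₁ ∩ L) (fun x hx => ⟨(sW hx.1).1, hx.2⟩) e)
      (N_dC (pt_cut_in (b - dC (ptCut A c))))) ?_⟩
  simp only [map_sub, dC_dC]
  abel

/-- Mayer-Vietoris: zero on `K`, zero on `L`, the primitives differ by a coboundary -/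
theorem rel_mv (hK : IsCompact K) (hL : IsCompact L) (hA : IsCompact A) {a b b' : Ch Z ℚ}
    (ha : a ∈ DZ k) (h3 : a ∈ N (A ∩ (K ∪ L))) (hd : dC a ∈ N (K ∪ L)) (hb : b ∈ DZ (k - 1))
    (hb' : b' ∈ DZ (k - 1)) (b1 : b ∈ N A) (b2 : b' ∈ N A) (e : a - dC b ∈ N K)
    (e' : a - dC b' ∈ N L) (hg : RZ (K ∩ L) A (k - 1) (b - b')) : RZ (K ∪ L) A k a := by
  obtain ⟨g, hg, g1, eg⟩ := hg.strict (hK.inter hL).isClosed
  have m0 : ptCut L (b - b' - dC g) ∈ DZ (k - 1) :=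
    pt_cut_deg _ (sub_mem (sub_mem hb hb') (MV_dC_mem hg))
  have m1 : ptCut L (b - b' - dC g) ∈ N K := rel_cut hL.isClosed eg
  have m2 : ptCut L (b - b' - dC g) ∈ N A := pt_cut_N (sub_mem (sub_mem b1 b2) (N_dC g1))
  have m3 := pt_cut_in (K := L) (b - b' - dC g)
  generalize ptCut L (b - b' - dC g) = m at m0 m1 m2 m3
  obtain ⟨c, hc, -, -, c1, ec⟩ := rel_union hK hL hA (a := a - dC (b - m))
    (sub_mem ha (MV_dC_mem (sub_mem hb m0)))
    (rel_of_eq (add_mem e (N_dC m1)) (by rw [map_sub]; abel))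
    (rel_of_eq (add_mem e' (N_dC m3)) (by simp only [map_sub, dC_dC]; abel))
    (sub_mem h3 (N_mono inter_subset_left (N_dC (sub_mem b1 m2))))
    (by rwa [map_sub, dC_dC, sub_zero])
  exact ⟨b - m + c, add_mem (sub_mem hb m0) hc,
    N_mono inter_subset_left (add_mem (sub_mem b1 m2) c1), rel_of_eq ec (by rw [map_add]; abel)⟩

/-- gluing of two relative cocycles -/
theorem rel_glue (hK : IsCompact K) (hL : IsCompact L) (hA : IsCompact A) {a a' : Ch Z ℚ}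
    (ha : a ∈ DZ k) (ha' : a' ∈ DZ k) (a1 : a ∈ N A) (a2 : a' ∈ N A) (hd : dC a ∈ N K)
    (hd' : dC a' ∈ N L) (hg : RZ (K ∩ L) A k (a - a')) :
    ∃ c ∈ DZ k, c ∈ N A ∧ dC c ∈ N (K ∪ L) ∧ (∃ b, c - a - dC b ∈ N K) ∧ c - a' ∈ N L := by
  obtain ⟨g, hg, g1, eg⟩ := hg.strict (hK.inter hL).isClosed
  have m0 : ptCut L (a - a' - dC g) ∈ DZ k :=
    pt_cut_deg _ (sub_mem (sub_mem ha ha') (MV_dC_mem hg))
  have m1 : ptCut L (a - a' - dC g) ∈ N K := rel_cut hL.isClosed eg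
  have m2 : ptCut L (a - a' - dC g) ∈ N A := pt_cut_N (sub_mem (sub_mem a1 a2) (N_dC g1))
  have m3 := pt_cut_in (K := L) (a - a' - dC g)
  generalize ptCut L (a - a' - dC g) = m at m0 m1 m2 m3
  have c0 : a - dC g - m ∈ DZ k := sub_mem (sub_mem ha (MV_dC_mem hg)) m0
  have c1 : a - dC g - m ∈ N A := sub_mem (sub_mem a1 (N_dC g1)) m2
  obtain ⟨c, hc, k1, k2, k3, ec⟩ := rel_union hK hL hA (dC_mem c0)
    (rel_of_eq (sub_mem hd (N_dC m1)) (by simp only [map_sub, dC_dC]; abel))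
    (rel_of_eq (sub_mem hd' (N_dC m3)) (by simp only [map_sub, dC_dC]; abel))
    (N_mono inter_subset_left (N_dC c1)) (by rw [dC_dC]; exact zero_mem _)
  rw [add_sub_cancel_right] at hc
  exact ⟨a - dC g - m - c, sub_mem c0 hc, sub_mem c1 k3, by rwa [map_sub],
    ⟨-g, rel_of_eq (neg_mem (add_mem m1 k1)) (by rw [map_neg]; abel)⟩,
    rel_of_eq (neg_mem (add_mem m3 k2)) (by abel)⟩

variable [MetricSpace B]

/-- the theory of the compact set `E` relative to `A` over the base `B` -/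
noncomputable def relTh {E : Set Z} (hE : IsCompact E) (hA : IsCompact A) (f : Z → B)
    (hf : ContinuousOn f E) : Th ℚ B where
  M := Ch Z ℚ
  d := dC
  D k := DZ k ⊓ N A
  N K := N (E ∩ f ⁻¹' K)
  low := ⟨0, fun _ hk _ hm => DZ_neg hk hm.1⟩
  d_deg := fun _ _ hm => ⟨dC_mem hm.1, N_dC hm.2⟩
  d_N := fun _ _ hm => N_dC hm
  dd := fun m => by rw [dC_dC]; exact zero_mem _
  mono := fun _ _ h => N_mono (inter_subset_inter_right _ (preimage_mono h))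
  empty := fun m => by rw [preimage_empty, inter_empty]; exact N_empty m
  split := fun K L k hL a ha h => ⟨ptCut (E ∩ f ⁻¹' L) a, ⟨pt_cut_deg _ ha.1, pt_cut_N ha.2⟩,
    rel_cut (asTh_compact hE hf hL).isClosed (by
      rwa [preimage_inter, inter_inter_distrib_left] at h),
    rel_of_eq (neg_mem (pt_cut_in a)) (neg_sub _ _).symm⟩
  union := fun K L k hK hL a ha h1 h2 h => by
    rw [preimage_union, inter_union_distrib_left] at h ⊢
    obtain ⟨b, hb, b1, b2, b3, e⟩ := rel_union (asTh_compact hE hf hK) (asTh_compact hE hf hL) hA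
      ha.1 h1 h2 (N_mono inter_subset_left ha.2) h
    exact ⟨b, ⟨hb, b3⟩, b1, b2, e⟩
  nhds := fun K L k hK hL hKL a ha h1 V hV h => by
    obtain ⟨U, hU, hUV⟩ := asTh_up hf hV
    obtain ⟨b, hb, b1, b2, U', hU', e⟩ := rel_nhds (asTh_compact hE hf hK) (asTh_compact hE hf hL)
      hA (inter_subset_inter_right _ (preimage_mono hKL)) ha.1 h1 ha.2 hU
      (N_mono (L := E ∩ f ⁻¹' (V ∩ L)) (fun x hx => ⟨hx.2.1, hUV x hx.2.1 hx.1, hx.2.2⟩) h)
    obtain ⟨V', hV', hVU⟩ := asTh_down hE hf hU'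
    exact ⟨b, ⟨hb, b2⟩, b1, V', hV', N_mono (K := E ∩ f ⁻¹' (V' ∩ L)) (L := U' ∩ (E ∩ f ⁻¹' L))
      (fun x hx => ⟨hVU x hx.1 hx.2.1, hx.1, hx.2.2⟩) e⟩

/-- a class that is zero at every point is zero if the lower degrees vanish at points -/
theorem th_kill (T : Th ℚ B) {P : Set B} (hP : IsCompact P) {j : ℤ}
    (h : ∀ x ∈ P, ∀ i < j, T.Ac {x} i) {a : T.M} (ha : a ∈ T.D j) (hd : T.d a ∈ T.N P)
    (h0 : ∀ x ∈ P, ∃ b ∈ T.D (j - 1), a - T.d b ∈ T.N {x}) :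
    ∃ b ∈ T.D (j - 1), a - T.d b ∈ T.N P := by
  have ih : ∀ Q, IsClosed Q → Q ⊆ P → T.Ac Q (j - 1) := fun Q hQ hQP =>
    T.vanish (hP.of_isClosed_subset hQ hQP) (j - 1)
      (fun x hx i hi => h x (hQP hx) i (by omega)) _ le_rfl
  have key := hP.induction_on (p := fun S => ∃ Q, IsClosed Q ∧ Q ⊆ P ∧ S ∩ P ⊆ Q ∧
    ∃ b ∈ T.D (j - 1), a - T.d b ∈ T.N Q)
    ⟨∅, isClosed_empty, empty_subset _, by simp, 0, zero_mem _, T.empty _⟩
    (fun s t hst ⟨Q, h1, h2, h3, h4⟩ => ⟨Q, h1, h2, (inter_subset_inter_left _ hst).trans h3, h4⟩)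
    (fun s t ⟨Q', p1, p2, p3, b, hb, e⟩ ⟨Q, q1, q2, q3, b', hb', e'⟩ =>
      ⟨Q' ∪ Q, p1.union q1, union_subset p2 q2,
        by rw [union_inter_distrib_right]; exact union_subset_union p3 q3,
        T.mv0 p1 q1 (ih _ (p1.inter q1) (inter_subset_left.trans p2)) ha
          (T.mono _ _ (union_subset p2 q2) hd) hb hb' e e'⟩)
    (fun x hx => by
      have hxK : ({x} : Set B) ⊆ P := singleton_subset_iff.2 hx
      obtain ⟨b, hb, e⟩ := h0 x hx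
      obtain ⟨c, hc, -, V, hV, ec⟩ := T.nhds {x} P j isClosed_singleton hP.isClosed hxK _
        (sub_mem ha (T.d_deg' hb)) e univ Filter.univ_mem
        (T.mem_of_eq (sub_mem (T.mono _ _ inter_subset_right hd) (T.dd' _ b)) (map_sub _ _ _))
      rw [nhdsSet_singleton] at hV
      obtain ⟨C, hC, cC, sC⟩ := exists_mem_nhds_isClosed_subset hV
      exact ⟨C, mem_nhdsWithin_of_mem_nhds hC, C ∩ P, cC.inter hP.isClosed, inter_subset_right,
        subset_rfl, b + c, add_mem hb hc,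
        T.mem_of_eq (T.mono _ _ (inter_subset_inter_left _ sC) ec) (by rw [map_add]; abel)⟩)
  obtain ⟨Q, -, -, p3, b, hb, e⟩ := key
  exact ⟨b, hb, T.mono _ _ (by simpa using p3) e⟩

/-- a relative class that is zero on every fibre is zero if the fibres have no lower classes -/
theorem rel_kill {E : Set Z} (hE : IsCompact E) (hA : IsCompact A) {f : Z → B}
    (hf : ContinuousOn f E) {P : Set B} (hP : IsCompact P)
    (h : ∀ x ∈ P, ∀ i < k, ∀ a ∈ DZ i, dC a ∈ N (E ∩ f ⁻¹' {x}) → a ∈ N A →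
      RZ (E ∩ f ⁻¹' {x}) A i a) {a : Ch Z ℚ} (ha : a ∈ DZ k) (hd : dC a ∈ N (E ∩ f ⁻¹' P))
    (h1 : a ∈ N (A ∩ (E ∩ f ⁻¹' P))) (h0 : ∀ x ∈ P, RZ (E ∩ f ⁻¹' {x}) A k a) :
    RZ (E ∩ f ⁻¹' P) A k a := by
  have cl := (asTh_compact hE hf hP.isClosed).isClosed
  have e0 := pt_cut_in (K := E ∩ f ⁻¹' P) a
  obtain ⟨b, hb, e⟩ := th_kill (relTh hE hA f hf) hP (j := k) (fun x hx i hi c hc dc => by
      obtain ⟨b, hb, b1, e⟩ := (h x hx i hi c hc.1 dc hc.2).strict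
        (asTh_compact hE hf isClosed_singleton).isClosed
      exact ⟨b, ⟨hb, b1⟩, e⟩)
    (a := ptCut (E ∩ f ⁻¹' P) a) ⟨pt_cut_deg _ ha, rel_cut cl h1⟩
    (rel_of_eq (add_mem (N_dC e0) hd) (by change dC _ = _; rw [map_sub]; abel)) fun x hx => by
      obtain ⟨b, hb, b1, e⟩ := ((h0 x hx).congr (N_mono (inter_subset_inter_right _
        (preimage_mono (singleton_subset_iff.2 hx))) e0)).strict
        (asTh_compact hE hf isClosed_singleton).isClosed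
      exact ⟨b, ⟨hb, b1⟩, e⟩
  exact RZ.congr ⟨b, hb.1, N_mono inter_subset_left hb.2, e⟩
    (rel_of_eq (neg_mem e0) (neg_sub _ _).symm)

end Pool.Agent.Lib.MP_d3d358_ag.Cw
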