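import Pool.Agent.Lib.MP_d3d358_ag.Cw.Pnt

/-! Product squares and classes of cycles. -/

set_option autoImplicit false

namespace Pool.Agent.Lib.MP_d3d358_ag.Cw

open CategoryTheory AlgebraicGeometry AS

/-- `V` is the product of `W` and `F` -/
abbrev Sq {V W F : Sch} (f : V ⟶ W) (g : V ⟶ F) : Prop := IsPullback f.left g.left W.hom F.hom

/-- classes of even degree -/
noncomputable def Evn (W : Sch) : Submodule ℚ (HW W) := ⨆ k : ℤ, Hd W (2 * k)

/-- `α` is the class of the cycle `c` -/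
def Rep {W : Sch} (c : Cyc W.left) (α : HW W) : Prop :=
  α ∈ Evn W ∧ ∀ k, ∀ u ∈ Hd W k, ev c u = tp W (α * u)

end Pool.Agent.Lib.MP_d3d358_ag.Cw
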