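import Pool.Agent.Lib.MP_d3d358_ag.Cw.Top

/-! Complex points of an affine algebra. -/

set_option autoImplicit false

namespace Pool.Agent.Lib.MP_d3d358_ag.Cw

open Topology Set Filter

noncomputable section

/-- the complex points of `Spec A` -/
def Sp (A : Type) [CommRing A] [Algebra ℂ A] : Type := A →ₐ[ℂ] ℂ

variable {A A' : Type} [CommRing A] [Algebra ℂ A] [CommRing A'] [Algebra ℂ A'] {r : ℕ}

instance : FunLike (Sp A) A ℂ := inferInstanceAs (FunLike (A →ₐ[ℂ] ℂ) A ℂ)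

instance : AlgHomClass (Sp A) ℂ A ℂ := inferInstanceAs (AlgHomClass (A →ₐ[ℂ] ℂ) ℂ A ℂ)

instance : TopologicalSpace (Sp A) := TopologicalSpace.induced (fun p a => p a) Pi.topologicalSpace

/-- a point as an algebra map -/
def Sp.hom (p : Sp A) : A →ₐ[ℂ] ℂ := p

/-- the map on points -/
def Sp.map (φ : A' →ₐ[ℂ] A) (p : Sp A) : Sp A' := p.hom.comp φ

@[simp] theorem Sp.hom_apply (p : Sp A) (a : A) : p.hom a = p a := rfl

@[simp] theorem Sp.map_apply (φ : A' →ₐ[ℂ] A) (p : Sp A) (a : A') : Sp.map φ p a = p (φ a) := rfl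

/-- the values of a tuple of functions -/
def co (y : Fin r → A) (p : Sp A) : Fin r → ℂ := fun i => p (y i)

/-- the zero set of an ideal -/
def Vz (P : Ideal A) : Set (Sp A) := {p | ∀ a ∈ P, p a = 0}

/-- `f` is regular at `p` -/
def RgA (p : Sp A) (f : Sp A → ℂ) : Prop := ∃ a b : A, p b ≠ 0 ∧ ∀ᶠ q in 𝓝 p, f q = q a / q b

/-- the function `u` on a set over `Spec A` is integral over `A` -/
def Intg {T : Type} (π : T → Sp A) (u : T → ℂ) : Prop :=
  ∃ Q : Polynomial A, Q.Monic ∧ ∀ t, Q.eval₂ (π t).hom.toRingHom (u t) = 0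

end

end Pool.Agent.Lib.MP_d3d358_ag.Cw
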