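import Pool.Agent.Lib.MP_d3d358_ag.Cw.Sp

/-! The topology of the complex points of an affine algebra. -/

set_option autoImplicit false

namespace Pool.Agent.Lib.MP_d3d358_ag.Cw

open Topology Set Filter TensorProduct

variable {A A' : Type} [CommRing A] [Algebra ℂ A] [CommRing A'] [Algebra ℂ A'] {r : ℕ}

theorem Sp.cont_ev (a : A) : Continuous fun p : Sp A => p a :=
  (continuous_apply a).comp continuous_induced_dom

theorem Sp.tendsto_iff {T : Type} {l : Filter T} {f : T → Sp A} {p : Sp A} :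
    Tendsto f l (𝓝 p) ↔ ∀ a, Tendsto (fun t => f t a) l (𝓝 (p a)) := by
  rw [nhds_induced, tendsto_comap_iff, tendsto_pi_nhds]
  rfl

instance : T2Space (Sp A) :=
  IsEmbedding.t2Space (f := fun (p : Sp A) a => p a) ⟨⟨rfl⟩, DFunLike.coe_injective⟩

theorem Sp.cont_iff {T : Type} [TopologicalSpace T] {f : T → Sp A} :
    Continuous f ↔ ∀ a, Continuous fun t => f t a := by
  rw [continuous_induced_rng, continuous_pi_iff]
  rfl

theorem Sp.cont_map (φ : A' →ₐ[ℂ] A) : Continuous (Sp.map φ) :=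
  Sp.cont_iff.2 fun a => Sp.cont_ev (φ a)

theorem Sp.ext {p q : Sp A} (h : ∀ a, p a = q a) : p = q := DFunLike.ext p q h

theorem Sp.alg (q : Sp A) (c : ℂ) : q (algebraMap ℂ A c) = c := q.hom.commutes c

theorem Sp.ev_ne {p : Sp A} {b : A} (h : p b ≠ 0) : ∀ᶠ q in 𝓝 p, q b ≠ 0 :=
  (Sp.cont_ev b).continuousAt.eventually_ne h

theorem cont_co (y : Fin r → A) : Continuous (co y) := continuous_pi fun i => Sp.cont_ev (y i)

theorem isClosed_Vz (P : Ideal A) : IsClosed (Vz P) := by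
  have : Vz P = ⋂ a ∈ P, {p : Sp A | p a = 0} := by ext; simp [Vz]
  rw [this]
  exact isClosed_biInter fun a _ => isClosed_eq (Sp.cont_ev a) continuous_const

theorem shfA : Shf (RgA (A := A)) where
  const p c := ⟨algebraMap ℂ A c, 1, by simp, .of_forall fun q => by simp [Sp.alg]⟩
  add := by
    rintro p f g ⟨a, b, hb, e⟩ ⟨a', b', hb', e'⟩
    refine ⟨a * b' + b * a', b * b', by simp [hb, hb'], ?_⟩
    filter_upwards [e, e', Sp.ev_ne hb, Sp.ev_ne hb'] with q h1 h2 h3 h4
    rw [h1, h2, div_add_div _ _ h3 h4, map_add, map_mul, map_mul, map_mul]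
  mul := by
    rintro p f g ⟨a, b, hb, e⟩ ⟨a', b', hb', e'⟩
    refine ⟨a * a', b * b', by simp [hb, hb'], ?_⟩
    filter_upwards [e, e'] with q h1 h2
    rw [h1, h2, div_mul_div_comm, map_mul, map_mul]
  inv := by
    rintro p f ⟨a, b, -, e⟩ h0
    refine ⟨b, a, fun h => h0 (by rw [e.self_of_nhds, h, zero_div]), e.mono fun q h1 => ?_⟩
    simp only [h1, inv_div]
  congr := by
    rintro p f g ⟨a, b, hb, e⟩ h
    exact ⟨a, b, hb, (e.and h).mono fun q h1 => h1.2.symm.trans h1.1⟩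
  near := by
    rintro p f ⟨a, b, hb, e⟩
    filter_upwards [e.eventually_nhds, Sp.ev_ne hb] with q h1 h2
    exact ⟨a, b, h2, h1⟩
  cont := by
    rintro p f ⟨a, b, hb, e⟩
    exact ((Sp.cont_ev a).continuousAt.div (Sp.cont_ev b).continuousAt hb).congr
      (e.mono fun q h => h.symm)

theorem rgA_ev (p : Sp A) (a : A) : RgA p fun q => q a :=
  ⟨a, 1, by simp, .of_forall fun q => by simp⟩

theorem RgA.comp (φ : A' →ₐ[ℂ] A) {p : Sp A} {f : Sp A' → ℂ} (h : RgA (Sp.map φ p) f) :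
    RgA p (f ∘ Sp.map φ) := by
  obtain ⟨a, b, hb, e⟩ := h
  exact ⟨φ a, φ b, hb, (Sp.cont_map φ).continuousAt.eventually e⟩

theorem Sp.inducing {X : Type} [TopologicalSpace X] {f : Sp A → X} (hf : Continuous f)
    (h : ∀ p a, Tendsto (fun t : Sp A => t a) (comap f (𝓝 (f p))) (𝓝 (p a))) : IsInducing f :=
  isInducing_iff_nhds.2 fun p => le_antisymm hf.continuousAt.le_comap
    (Sp.tendsto_iff (f := id).2 (h p))

theorem Sp.emb_of_surj {φ : A' →ₐ[ℂ] A} (h : Function.Surjective φ) :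
    IsClosedEmbedding (Sp.map φ) ∧ range (Sp.map φ) = Vz (RingHom.ker φ) := by
  have hr : range (Sp.map φ) = Vz (RingHom.ker φ) := by
    refine subset_antisymm ?_ fun p hp => ?_
    · rintro _ ⟨q, rfl⟩ a ha
      rw [Sp.map_apply, RingHom.mem_ker.1 ha, map_zero]
    · exact ⟨(Ideal.Quotient.liftₐ _ p.hom hp).comp
        (Ideal.quotientKerAlgEquivOfSurjective h).symm.toAlgHom, Sp.ext fun a =>
          congrArg (Ideal.Quotient.liftₐ _ p.hom hp)
            ((Ideal.quotientKerAlgEquivOfSurjective h).symm_apply_apply (Ideal.Quotient.mk _ a))⟩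
  refine ⟨⟨⟨Sp.inducing (Sp.cont_map φ) fun p a => ?_, fun p q e => Sp.ext fun a => ?_⟩,
    hr ▸ isClosed_Vz _⟩, hr⟩
  · obtain ⟨a, rfl⟩ := h a
    exact ((Sp.cont_ev a).tendsto _).comp tendsto_comap
  · obtain ⟨a, rfl⟩ := h a
    exact DFunLike.congr_fun e a

theorem Sp.emb_away [Algebra A' A] [IsScalarTower ℂ A' A] (h : A') [IsLocalization.Away h A] :
    IsOpenEmbedding (Sp.map (IsScalarTower.toAlgHom ℂ A' A)) ∧
      range (Sp.map (IsScalarTower.toAlgHom ℂ A' A)) = {p | p h ≠ 0} := by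
  have h0 : ∀ q : Sp A, q (algebraMap A' A h) ≠ 0 := fun q =>
    ((IsLocalization.Away.algebraMap_isUnit h).map q).ne_zero
  have hv : ∀ a : A, ∃ (b : A') (n : ℕ), ∀ q : Sp A,
      q a = q (algebraMap A' A b) / q (algebraMap A' A h) ^ n := fun a => by
    obtain ⟨n, b, e⟩ := IsLocalization.Away.surj h a
    exact ⟨b, n, fun q => by rw [eq_div_iff (pow_ne_zero _ (h0 q)), ← map_pow, ← map_mul, e]⟩
  have hr : range (Sp.map (IsScalarTower.toAlgHom ℂ A' A)) = {p | p h ≠ 0} := by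
    refine subset_antisymm ?_ fun p hp => ?_
    · rintro _ ⟨q, rfl⟩
      exact h0 q
    · have hu : ∀ y : Submonoid.powers h, IsUnit (p.hom y) := by
        rintro ⟨_, n, rfl⟩
        exact (map_pow p.hom h n).symm ▸ (pow_ne_zero n hp).isUnit
      exact ⟨IsLocalization.liftAlgHom (S := A) hu, Sp.ext fun a => IsLocalization.lift_eq hu a⟩
  refine ⟨⟨⟨Sp.inducing (Sp.cont_map _) fun p a => ?_, fun p q e => Sp.ext fun a => ?_⟩,
    hr ▸ isOpen_ne_fun (Sp.cont_ev h) continuous_const⟩, hr⟩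
  · obtain ⟨b, n, e⟩ := hv a
    simp only [e]
    exact (((Sp.cont_ev b).tendsto _).comp tendsto_comap).div
      ((((Sp.cont_ev h).tendsto _).comp tendsto_comap).pow n) (pow_ne_zero _ (h0 p))
  · obtain ⟨b, n, e1⟩ := hv a
    rw [e1, e1]
    exact congrArg₂ (· / · ^ n) (DFunLike.congr_fun e b) (DFunLike.congr_fun e h)

theorem Sp.homeo_tensor : IsHomeomorph fun p : Sp (A ⊗[ℂ] A') =>
    (Sp.map Algebra.TensorProduct.includeLeft p, Sp.map Algebra.TensorProduct.includeRight p) := by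
  have hv : ∀ (q : Sp (A ⊗[ℂ] A')) (a : A) (b : A'), q (a ⊗ₜ b) = q (a ⊗ₜ 1) * q (1 ⊗ₜ b) :=
    fun q a b => by rw [← map_mul, Algebra.TensorProduct.tmul_mul_tmul, mul_one, one_mul]
  refine isHomeomorph_iff_isEmbedding_surjective.2 ⟨⟨Sp.inducing
    ((Sp.cont_map _).prodMk (Sp.cont_map _)) fun p x => ?_, fun p q e => Sp.ext fun x => ?_⟩,
    fun u => ⟨Algebra.TensorProduct.lift u.1.hom u.2.hom fun _ _ => .all _ _,
      Prod.ext (Sp.ext fun a => ?_) (Sp.ext fun b => ?_)⟩⟩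
  · induction x with
    | zero => simpa using tendsto_const_nhds
    | tmul a b =>
      simp only [hv _ a b]
      exact ((((Sp.cont_ev a).comp continuous_fst).tendsto _).comp tendsto_comap).mul
        ((((Sp.cont_ev b).comp continuous_snd).tendsto _).comp tendsto_comap)
    | add x y hx hy => simpa using hx.add hy
  · induction x with
    | zero => simp
    | tmul a b =>
      rw [hv, hv q]
      exact congrArg₂ (· * ·) (DFunLike.congr_fun (congrArg Prod.fst e) a)
        (DFunLike.congr_fun (congrArg Prod.snd e) b)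
    | add x y hx hy => rw [map_add, map_add, hx, hy]
  · exact (Algebra.TensorProduct.lift_tmul _ _ (fun _ _ => .all _ _) a 1).trans (by simp)
  · exact (Algebra.TensorProduct.lift_tmul _ _ (fun _ _ => .all _ _) 1 b).trans (by simp)

end Pool.Agent.Lib.MP_d3d358_ag.Cw
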