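import Pool.Agent.Lib.MP_d3d358_ag.Cw.ThomA

/-! The class of the diagonal. -/

set_option autoImplicit false

namespace Pool.Agent.Lib.MP_d3d358_ag.Cw

open Topology Set Filter AS Metric

variable {Z : Type} {n : ℕ} [MetricSpace Z]

/-- pairs at distance at least `ε` -/
def thG (Z : Type) [MetricSpace Z] (ε : ℝ) : Set (Z × Z) := {u | ε ≤ dist u.1 u.2}

theorem thG_cpt [CompactSpace Z] (ε : ℝ) : IsCompact (thG Z ε) :=
  (isClosed_le continuous_const (by fun_prop)).isCompact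

theorem thG_mono {ε ε' : ℝ} (h : ε' ≤ ε) : thG Z ε ⊆ thG Z ε' := fun _ hu => h.trans hu

theorem th_cpt [CompactSpace Z] {P : Set Z} (hP : IsCompact P) :
    IsCompact (Prod.fst ⁻¹' P : Set (Z × Z)) := (hP.isClosed.preimage continuous_fst).isCompact

theorem th_mk {x : Z} {S : Set Z} {T : Set (Z × Z)} (h : ∀ z ∈ S, (x, z) ∈ T) {a : Ch (Z × Z) ℚ}
    (ha : a ∈ N T) : pullC (Prod.mk x) a ∈ N S := N_pullC (by fun_prop) h ha

theorem th_dmk {x : Z} {P : Set Z} (hx : x ∈ P) {a : Ch (Z × Z) ℚ}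
    (ha : dC a ∈ N (Prod.fst ⁻¹' P)) : dC (pullC (Prod.mk x) a) ∈ N univ := by
  rw [dC_pullC]; exact th_mk (fun _ _ => hx) ha

variable (φ : HT ℚ (univ : Set Z) →ₗ[ℚ] ℚ)

/-- the integral of `a` over the fibre at `x` is `c` -/
def ThVal (a : Ch (Z × Z) ℚ) (x : Z) (c : ℚ) : Prop :=
  ∀ h, φ (AS.mk (pullC (Prod.mk x) a) h) = c

/-- classes over `C` near the diagonal with zero fibre integrals die -/
def ThKill (n : ℕ) (C : Set Z) (ε' ε : ℝ) : Prop :=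
  ∀ P, IsCompact P → P ⊆ C → ∀ k ≤ 2 * (n : ℤ), ∀ a ∈ DZ k, dC a ∈ N (Prod.fst ⁻¹' P) →
    a ∈ N (thG Z ε' ∩ Prod.fst ⁻¹' P) → (∀ x ∈ P, ThVal φ a x 0) →
    RZ (Prod.fst ⁻¹' P) (thG Z ε) k a

variable {φ} {Rg : Z → (Z → ℂ) → Prop}

theorem thVal_deg (h : Fund Rg univ n φ) {k : ℤ} (hk : k ≠ 2 * n) {a : Ch (Z × Z) ℚ}
    (ha : a ∈ DZ k) (x : Z) : ThVal φ a x 0 :=
  fun h' => h.deg k hk _ ⟨_, h', pullC_mem _ ha, rfl⟩

theorem ThVal.sub {a b : Ch (Z × Z) ℚ} {x : Z} {c : ℚ} {P : Set Z} (hx : x ∈ P)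
    (da : dC a ∈ N (Prod.fst ⁻¹' P)) (db : dC b ∈ N (Prod.fst ⁻¹' P)) (h : ThVal φ a x c)
    (h' : ThVal φ b x c) : ThVal φ (a - b) x 0 := fun e => by
  have e1 := th_dmk hx da
  have e2 := th_dmk hx db
  have := MV_mk_sub e1 e2 (by rw [map_sub]; exact sub_mem e1 e2)
  simp only [map_sub] at e ⊢
  rw [this, map_sub, h, h', sub_self]

theorem ThVal.congr {a b g : Ch (Z × Z) ℚ} {x : Z} {c : ℚ} {P : Set Z} (hx : x ∈ P)
    (da : dC a ∈ N (Prod.fst ⁻¹' P)) (e : b - a - dC g ∈ N (Prod.fst ⁻¹' P)) (h : ThVal φ a x c) :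
    ThVal φ b x c := fun e' => by
  have := th_mk (x := x) (S := univ) (fun _ _ => hx) e
  rw [map_sub, map_sub, ← dC_pullC] at this
  rw [(mk_eq_iff e' (th_dmk hx da)).2 ⟨_, this⟩, h]

theorem ThKill.union [CompactSpace Z] (h : Fund Rg univ n φ) {C C' : Set Z} (hC : IsClosed C)
    (hC' : IsClosed C') {ε₂ ε₁ ε : ℝ} (h1 : ε₁ ≤ ε) (h2 : ε₂ ≤ ε₁) (k1 : ThKill φ n C ε₂ ε₁)
    (k2 : ThKill φ n C' ε₂ ε₁) (k3 : ThKill φ n C ε₁ ε) : ThKill φ n (C ∪ C') ε₂ ε := by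
  intro P hP hPC k hk a ha hd hn hv
  have cP := th_cpt (hP.inter_right hC)
  have cQ := th_cpt (hP.inter_right hC')
  have sub : ∀ D : Set Z, (Prod.fst ⁻¹' (P ∩ D) : Set (Z × Z)) ⊆ Prod.fst ⁻¹' P :=
    fun D _ hu => hu.1
  obtain ⟨b, hb, b1, e⟩ := (k1 _ (hP.inter_right hC) inter_subset_right k hk a ha
    (N_mono (sub _) hd) (N_mono (inter_subset_inter_right _ (sub _)) hn)
    fun x hx => hv x hx.1).strict cP.isClosed
  obtain ⟨b', hb', b2, e'⟩ := (k2 _ (hP.inter_right hC') inter_subset_right k hk a ha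
    (N_mono (sub _) hd) (N_mono (inter_subset_inter_right _ (sub _)) hn)
    fun x hx => hv x hx.1).strict cQ.isClosed
  have := k3 ((P ∩ C) ∩ (P ∩ C')) ((hP.inter_right hC).inter (hP.inter_right hC'))
    (fun _ hx => hx.1.2) (k - 1) (by omega) (b - b') (sub_mem hb hb')
    (rel_of_eq (sub_mem (N_mono (K := Prod.fst ⁻¹' ((P ∩ C) ∩ (P ∩ C'))) (fun _ hu => hu.2) e')
      (N_mono (K := Prod.fst ⁻¹' ((P ∩ C) ∩ (P ∩ C'))) (fun _ hu => hu.1) e))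
      (by rw [map_sub]; abel))
    (N_mono inter_subset_left (sub_mem b1 b2))
    fun x _ => thVal_deg h (by omega) (sub_mem hb hb') x
  exact (rel_mv cP cQ (thG_cpt ε) ha (N_mono (inter_subset_inter (thG_mono (h2.trans h1))
    (union_subset (sub _) (sub _))) hn) (N_mono (union_subset (sub _) (sub _)) hd) hb hb'
    (N_mono (thG_mono h1) b1) (N_mono (thG_mono h1) b2) e e' this).mono
    (fun u hu => (hPC hu).imp (fun h' => ⟨hu, h'⟩) fun h' => ⟨hu, h'⟩) inter_subset_left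

/-- the local class of the diagonal -/
structure ThLoc (φ : HT ℚ (univ : Set Z) →ₗ[ℚ] ℚ) (y : Z → Fin n → ℂ) (U : Set Z)
    (t : Ch (Z × Z) ℚ) : Prop where
  cpt : IsCompact U
  deg : t ∈ DZ (2 * (n : ℤ))
  coc : dC t ∈ N (Prod.fst ⁻¹' U)
  off : t ∈ N {u | u.1 ∈ U ∧ u.1 ≠ u.2}
  eq : t - jc (fun u : Z × Z => y u.2 - y u.1) ∈ N (U ×ˢ U)
  val : ∀ x ∈ U, ThVal φ t x 1
  kill : ∀ ε > 0, ∃ ε' > 0, ε' ≤ ε ∧ ThKill φ n U ε' ε

theorem thom_loc [CompactSpace Z] (h : Man Rg n φ) {p : Z} {y : Z → Fin n → ℂ}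
    (hy : At Rg univ p y) : ∃ U ∈ 𝓝 p, ∃ t, ThLoc φ y U t := by
  obtain ⟨W, O, s, hc, hp, hq⟩ := hy
  obtain ⟨R₂, hR₂, hO⟩ := nhds_basis_closedBall.mem_iff.1 (hc.oO.mem_nhds (hc.my hp))
  obtain ⟨R, hR, rfl⟩ : ∃ R > 0, R₂ = 2 * R := ⟨R₂ / 2, by positivity, by ring⟩
  have cU := hc.cpt_ball ((closedBall_subset_closedBall (by linarith : R ≤ 2 * R)).trans hO)
  have cU' := hc.cpt_ball hO
  set U := W ∩ y ⁻¹' closedBall (y p) R with hU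
  set U' := W ∩ y ⁻¹' closedBall (y p) (2 * R) with hU'
  set J := jc fun u : Z × Z => y u.2 - y u.1 with hJ
  have sub : ∀ x ∈ U, ∀ ρ ≤ R, closedBall (y x) ρ ⊆ closedBall (y p) (2 * R) := fun x hx ρ hρ =>
    closedBall_subset_closedBall' (by linarith [mem_closedBall.1 hx.2])
  have nh : ∀ x ∈ U, U' ∈ 𝓝 x := fun x hx =>
    mem_of_superset ((hc.open_ball (y x) R).mem_nhds ⟨hx.1, mem_ball_self hR⟩)
      fun z hz => ⟨hz.1, sub x hx R le_rfl (ball_subset_closedBall hz.2)⟩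
  have inj : ∀ x ∈ W, ∀ z ∈ W, y z - y x = 0 → x = z := fun x hx z hz e => by
    rw [← hc.li x ⟨hx, trivial⟩, ← hc.li z ⟨hz, trivial⟩, sub_eq_zero.1 e]
  have cJ : ContinuousOn (fun u : Z × Z => y u.2 - y u.1) (W ×ˢ W) :=
    (hc.cy'.comp continuousOn_snd fun _ hu => hu.2).sub
      (hc.cy'.comp continuousOn_fst fun _ hu => hu.1)
  have t2 : ptCut (Prod.snd ⁻¹' U') J ∈ N {u : Z × Z | u.1 ∈ U ∧ u.1 ≠ u.2} :=
    rel_cut (cU'.isClosed.preimage continuous_snd) (jc_null (cJ.mono fun u hu =>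
      ⟨hu.1.1.1, hu.2.1⟩) fun u hu e => hu.1.2 (inj _ hu.1.1.1 _ hu.2.1 e))
  have t3 := pt_cut_in (K := Prod.snd ⁻¹' U') J
  have t1 : ptCut (Prod.snd ⁻¹' U') J ∈ DZ (2 * (n : ℤ)) := pt_cut_deg _ (jc_mem _)
  generalize ptCut (Prod.snd ⁻¹' U') J = t at t1 t2 t3
  have t4 : dC t ∈ N (Prod.fst ⁻¹' U) := Circle_local fun u hu => by
    by_cases e : u.1 = u.2
    · refine ⟨_, mem_nhdsWithin_of_mem_nhds (continuous_snd.continuousAt.preimage_mem_nhds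
        (nh u.2 (e ▸ hu))), rel_of_eq (N_dC t3) ?_⟩
      rw [map_sub, hJ, dC_jc, sub_zero]
    · exact ⟨_, inter_mem self_mem_nhdsWithin (mem_nhdsWithin_of_mem_nhds
        ((isOpen_ne_fun continuous_fst continuous_snd).mem_nhds e)), N_dC t2⟩
  have w2 : ∀ x, pullC (Prod.mk x) t - jc (fun z => y z - y x) ∈ N U' := fun x => by
    have := th_mk (x := x) (S := U') (fun _ hz => hz) t3
    rwa [map_sub, hJ, pullC_jc] at this
  have t5 : ∀ x ∈ U, ThVal φ t x 1 := fun x hx h' =>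
    h.fund.val x y _ ⟨W, O, s, hc, ⟨hx.1, trivial⟩, hq⟩
      ⟨_, h', rfl, th_mk (T := {u : Z × Z | u.1 ∈ U ∧ u.1 ≠ u.2})
        (fun z hz => ⟨hx, fun e => hz.2 e.symm⟩) t2, U', nh x hx,
        N_mono inter_subset_left (w2 x)⟩
  refine ⟨U, mem_of_superset ((hc.open_ball (y p) R).mem_nhds ⟨hp.1, mem_ball_self hR⟩)
    fun z hz => ⟨hz.1, ball_subset_closedBall hz.2⟩, t, cU, t1, t4, t2,
    N_mono (K := U ×ˢ U) (fun u hu => (mem_of_mem_nhds (nh _ hu.2) : u.2 ∈ U')) t3, t5, fun ε hε => ?_⟩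
  obtain ⟨δ, hδ, uc⟩ := Metric.uniformContinuousOn_iff.1
    ((isCompact_closedBall (y p) (2 * R)).uniformContinuousOn_of_continuous (hc.cs.mono hO)) ε hε
  obtain ⟨ρ, hρ, ρ1, ρ2⟩ : ∃ ρ > 0, ρ ≤ R ∧ ρ ≤ δ :=
    ⟨_, lt_min hR hδ, min_le_left _ _, min_le_right _ _⟩
  let A : Set (Z × Z) := Prod.fst ⁻¹' U ∩ (W ×ˢ W ∩ (fun u : Z × Z => y u.2 - y u.1) ⁻¹' ball 0 ρ)ᶜ
  have cA : IsCompact A := (th_cpt cU).inter_right
    (cJ.isOpen_inter_preimage (hc.oU.prod hc.oU) isOpen_ball).isClosed_compl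
  have mA : ∀ x ∈ U, ∀ z, (x, z) ∈ A ↔ z ∈ (W ∩ y ⁻¹' ball (y x) ρ)ᶜ := fun x hx z => by
    simp [A, hx, hx.1, dist_eq_norm]
  obtain ⟨ε', hε', hA⟩ : ∃ ε' > 0, ∀ u ∈ A, ε' ≤ dist u.1 u.2 :=
    cA.exists_forall_le' (f := fun u => dist u.1 u.2) (by fun_prop) fun u hu => dist_pos.2 fun e =>
      (mA u.1 hu.1 u.2).1 hu ⟨e ▸ hu.1.1, by rw [← e]; exact mem_ball_self hρ⟩
  have fib : ∀ x ∈ U, ∀ k ≤ 2 * (n : ℤ), ∀ a ∈ DZ k, dC a ∈ N (Prod.fst ⁻¹' {x}) →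
      a ∈ N (A ∩ Prod.fst ⁻¹' {x}) → ThVal φ a x 0 → RZ (Prod.fst ⁻¹' {x}) A k a := by
    intro x hx k hk a ha hd hn hv
    have da := th_dmk (mem_singleton x) hd
    have dt := th_dmk hx t4
    obtain ⟨c, b, hb, b1, e⟩ := thom_fib h.pos hc hρ ((sub x hx ρ ρ1).trans hO) (pullC_mem _ t1) dt
      (th_mk (S := (W ∩ y ⁻¹' ball (y x) ρ)ᶜ) (T := {u : Z × Z | u.1 ∈ U ∧ u.1 ≠ u.2})
        (fun z hz => ⟨hx, fun e : x = z =>
          hz ⟨e ▸ hx.1, by rw [← e]; exact mem_ball_self hρ⟩⟩) t2)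
      (N_mono (inter_subset_inter_right _ (preimage_mono (sub x hx ρ ρ1))) (w2 x)) hk
      (pullC_mem _ ha) da
      (th_mk (T := A ∩ Prod.fst ⁻¹' {x}) (fun z hz => ⟨(mA x hx z).2 hz, rfl⟩) hn)
    have e1 := (mk_eq_iff da (by rw [map_smul]; exact Submodule.smul_mem _ c dt)).2 ⟨b, e⟩
    have e2 := hv da
    rw [e1, mk_smul c dt, map_smul, t5 x hx, smul_eq_mul, mul_one] at e2
    rw [e2, zero_smul, sub_zero] at e
    have e3 := N_pullC (K' := Prod.fst ⁻¹' {x}) (continuousOn_snd (α := Z)) (mapsTo_univ _ _) e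
    have e4 := pullC_congr (K' := Prod.fst ⁻¹' {x}) (f := id) (g := Prod.mk x ∘ Prod.snd)
      (fun u hu => Prod.ext hu rfl) a
    rw [map_sub, pullC_pullC, ← dC_pullC] at e3
    rw [pullC_id] at e4
    refine ⟨pullC Prod.snd b, pullC_mem _ hb, N_pullC (K := (W ∩ y ⁻¹' ball (y x) ρ)ᶜ ∩ univ)
      continuousOn_snd (fun u hu => ⟨(mA x hx u.2).1 ?_, trivial⟩) b1,
      rel_of_eq (add_mem e3 e4) (by abel)⟩
    have : u.1 = x := hu.2
    rw [← this]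
    exact hu.1
  refine ⟨min ε' ε, lt_min hε' hε, min_le_right _ _, fun P hP hPU k hk a ha hd hn hv => ?_⟩
  have hn' : a ∈ N (A ∩ Prod.fst ⁻¹' P) :=
    N_mono (inter_subset_inter_left _ fun u hu => (min_le_left _ _).trans (hA u hu)) hn
  have key := rel_kill (k := k) isCompact_univ cA (continuousOn_fst (α := Z) (β := Z)) hP
    (fun x hx i hi c hc' dc nc => by
      rw [univ_inter] at dc ⊢
      exact fib x (hPU hx) i (by omega) c hc' dc (N_mono inter_subset_left nc)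
        (thVal_deg h.fund (by omega) hc' x))
    ha (by rwa [univ_inter]) (by rwa [univ_inter]) fun x hx => by
      rw [univ_inter]
      have s1 : (Prod.fst ⁻¹' {x} : Set (Z × Z)) ⊆ Prod.fst ⁻¹' P :=
        preimage_mono (singleton_subset_iff.2 hx)
      exact fib x (hPU hx) k hk a ha (N_mono s1 hd)
        (N_mono (inter_subset_inter_right _ s1) hn') (hv x hx)
  rw [univ_inter] at key
  refine key.mono subset_rfl fun u hu => (mA u.1 (hPU hu.2) u.2).2 fun hz => ?_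
  have hx := hPU hu.2
  have := uc _ (sub _ hx ρ ρ1 (ball_subset_closedBall hz.2)) _
    (sub _ hx ρ ρ1 (mem_closedBall_self hρ.le)) (lt_of_lt_of_le hz.2 ρ2)
  rw [hc.li _ ⟨hz.1, trivial⟩, hc.li _ ⟨hx.1, trivial⟩, dist_comm] at this
  exact this.not_ge hu.1

theorem thom (h : Man Rg n φ) : ∃ τ ∈ Hk (univ ×ˢ univ : Set (Z × Z)) (2 * (n : ℤ)),
    (∀ q : Z, φ (pull (fun z => (q, z)) (by fun_prop) (fun z _ => mk_mem_prod (mem_univ q) (mem_univ z)) τ) = 1) ∧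
    ∃ (Y : Z → Z → Fin n → ℂ) (U : Z → Set Z), (∀ p, At Rg univ p (Y p) ∧ U p ∈ 𝓝 p) ∧
      ∀ ε > 0, ∃ (t : Ch (Z × Z) ℚ) (ht : _), τ = AS.mk t ht ∧ t ∈ N {u : Z × Z | ε ≤ dist u.1 u.2} ∧ ∀ p, ∃ b,
        b ∈ N ((U p ×ˢ U p) ∩ {u : Z × Z | ε ≤ dist u.1 u.2}) ∧
        t - jc (fun u : Z × Z => Y p u.2 - Y p u.1) - dC b ∈ N (U p ×ˢ U p) := by
  have : CompactSpace Z := ⟨h.fund.cpt⟩
  choose Y hY using h.cht
  choose U hU t₀ hL using fun p => thom_loc h (hY p)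
  have K : ∀ ε > 0, ∃ ε' > 0, ε' ≤ ε ∧ ThKill φ n univ ε' ε := by
    obtain ⟨C, -, hC, k⟩ := isCompact_univ.induction_on (p := fun S : Set Z => ∃ C, IsClosed C ∧
      S ⊆ C ∧ ∀ ε > 0, ∃ ε' > 0, ε' ≤ ε ∧ ThKill φ n C ε' ε)
      ⟨∅, isClosed_empty, subset_rfl, fun ε hε => ⟨ε, hε, le_rfl, fun P _ hP k _ a _ _ _ _ => by
        rw [subset_empty_iff.1 hP, preimage_empty]
        exact ⟨0, zero_mem _, zero_mem _, N_empty _⟩⟩⟩
      (fun _ _ hst ⟨C, h1, h2, h3⟩ => ⟨C, h1, hst.trans h2, h3⟩)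
      (fun _ _ ⟨C, h1, h2, h3⟩ ⟨C', h1', h2', h3'⟩ => ⟨C ∪ C', h1.union h1',
        union_subset_union h2 h2', fun ε hε => by
          obtain ⟨ε₁, p1, l1, k1⟩ := h3 ε hε
          obtain ⟨ε₂, p2, l2, k2⟩ := h3 ε₁ p1
          obtain ⟨ε₃, p3, l3, k3⟩ := h3' ε₁ p1
          have m : ∀ {D : Set Z} {e : ℝ}, min ε₂ ε₃ ≤ e → ThKill φ n D e ε₁ →
              ThKill φ n D (min ε₂ ε₃) ε₁ := fun he k P hP hD j hj a ha hd hn =>
            k P hP hD j hj a ha hd (N_mono (inter_subset_inter_left _ (thG_mono he)) hn)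
          exact ⟨min ε₂ ε₃, lt_min p2 p3, ((min_le_left _ _).trans l2).trans l1,
            ThKill.union h.fund h1 h1' l1 ((min_le_left _ _).trans l2) (m (min_le_left _ _) k2)
              (m (min_le_right _ _) k3) k1⟩⟩)
      fun x _ => ⟨U x, mem_nhdsWithin_of_mem_nhds (hU x), U x, (hL x).cpt.isClosed, subset_rfl,
        (hL x).kill⟩
    rwa [univ_subset_iff.1 hC] at k
  have off : ∀ p, ∀ ε > 0, t₀ p ∈ N (thG Z ε ∩ Prod.fst ⁻¹' U p) := fun p ε hε =>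
    N_mono (L := {u | u.1 ∈ U p ∧ u.1 ≠ u.2})
      (fun u hu => ⟨hu.2, dist_pos.1 (hε.trans_le hu.1)⟩) (hL p).off
  have E : ∀ ε > 0, ∃ t ∈ DZ (2 * (n : ℤ)), dC t ∈ N (Prod.fst ⁻¹' univ) ∧ t ∈ N (thG Z ε) ∧
      ∀ x, ThVal φ t x 1 := by
    obtain ⟨C, -, hC, k⟩ := isCompact_univ.induction_on (p := fun S : Set Z => ∃ C, IsClosed C ∧
      S ⊆ C ∧ ∀ ε > 0, ∃ t ∈ DZ (2 * (n : ℤ)), dC t ∈ N (Prod.fst ⁻¹' C) ∧ t ∈ N (thG Z ε) ∧
        ∀ x ∈ C, ThVal φ t x 1)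
      ⟨∅, isClosed_empty, subset_rfl, fun ε _ => ⟨0, zero_mem _, N_empty _, zero_mem _,
        fun _ hx => hx.elim⟩⟩
      (fun _ _ hst ⟨C, h1, h2, h3⟩ => ⟨C, h1, hst.trans h2, h3⟩)
      (fun _ _ ⟨C, h1, h2, h3⟩ ⟨C', h1', h2', h3'⟩ => ⟨C ∪ C', h1.union h1',
        union_subset_union h2 h2', fun ε hε => by
          obtain ⟨ε₁, p1, l1, k1⟩ := K ε hε
          obtain ⟨t, a0, a1, a2, a3⟩ := h3 ε₁ p1
          obtain ⟨t', b0, b1, b2, b3⟩ := h3' ε₁ p1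
          have d1 : dC t ∈ N (Prod.fst ⁻¹' (C ∩ C')) := N_mono (fun _ hu => hu.1) a1
          have d2 : dC t' ∈ N (Prod.fst ⁻¹' (C ∩ C')) := N_mono (fun _ hu => hu.2) b1
          obtain ⟨c, c0, c1, c2, ⟨g, c3⟩, c4⟩ := rel_glue (th_cpt h1.isCompact)
            (th_cpt h1'.isCompact) (thG_cpt ε) a0 b0 (N_mono (thG_mono l1) a2)
            (N_mono (thG_mono l1) b2) a1 b1 (k1 (C ∩ C') (h1.inter h1').isCompact (subset_univ _)
              _ le_rfl _ (sub_mem a0 b0) (by rw [map_sub]; exact sub_mem d1 d2)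
              (N_mono inter_subset_left (sub_mem a2 b2))
              fun x hx => ThVal.sub hx d1 d2 (a3 x hx.1) (b3 x hx.2))
          exact ⟨c, c0, c2, c1, fun x hx => hx.elim (fun hx => (a3 x hx).congr hx a1 c3)
            fun hx => (b3 x hx).congr (g := 0) hx b1 (by rwa [map_zero, sub_zero])⟩⟩)
      fun x _ => ⟨U x, mem_nhdsWithin_of_mem_nhds (hU x), U x, (hL x).cpt.isClosed, subset_rfl,
        fun ε hε => by
          have e := pt_cut_in (K := Prod.fst ⁻¹' U x) (t₀ x)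
          exact ⟨_, pt_cut_deg _ (hL x).deg, rel_of_eq (add_mem (N_dC e) (hL x).coc)
            (by rw [map_sub]; abel), rel_cut (th_cpt (hL x).cpt).isClosed (off x ε hε),
            fun z hz => ((hL x).val z hz).congr (g := 0) hz (hL x).coc
              (by rwa [map_zero, sub_zero])⟩⟩
    rw [univ_subset_iff.1 hC] at k
    exact fun ε hε => (k ε hε).imp fun t ht => ⟨ht.1, ht.2.1, ht.2.2.1, fun x => ht.2.2.2 x trivial⟩
  have s1 : (univ ×ˢ univ : Set (Z × Z)) ⊆ Prod.fst ⁻¹' univ := fun _ _ => trivial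
  obtain ⟨ε₀, p0, -, k0⟩ := K 1 one_pos
  obtain ⟨τ, τ0, τ1, τ2, τ3⟩ := E ε₀ p0
  refine ⟨AS.mk τ (N_mono s1 τ1), ⟨_, _, τ0, rfl⟩, fun q => τ3 q (th_dmk (mem_univ q) τ1), Y, U,
    fun p => ⟨hY p, hU p⟩, fun ε hε => ?_⟩
  obtain ⟨ε₁, p1, l1, k1⟩ := K ε hε
  obtain ⟨t, t0, t1, t2, t3⟩ := E (min ε₁ ε₀) (lt_min p1 p0)
  have t4 : t ∈ N (thG Z ε₁) := N_mono (thG_mono (min_le_left _ _)) t2
  refine ⟨t, N_mono s1 t1, ?_, N_mono (thG_mono l1) t4, fun p => ?_⟩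
  · obtain ⟨b, -, -, e⟩ := k0 univ isCompact_univ subset_rfl _ le_rfl _ (sub_mem τ0 t0)
      (by rw [map_sub]; exact sub_mem τ1 t1) (N_mono inter_subset_left
        (sub_mem τ2 (N_mono (thG_mono (min_le_right _ _)) t2)))
      fun x hx => ThVal.sub hx τ1 t1 (τ3 x) (t3 x)
    exact (mk_eq_iff _ _).2 ⟨b, N_mono s1 e⟩
  · have d1 : dC t ∈ N (Prod.fst ⁻¹' U p) := N_mono (fun _ _ => trivial) t1
    obtain ⟨b, -, b1, e⟩ := k1 (U p) (hL p).cpt (subset_univ _) _ le_rfl _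
      (sub_mem t0 (hL p).deg) (by rw [map_sub]; exact sub_mem d1 (hL p).coc)
      (sub_mem (N_mono inter_subset_left t4) (off p ε₁ p1))
      fun x hx => ThVal.sub hx d1 (hL p).coc (t3 x) ((hL p).val x hx)
    exact ⟨b, N_mono (L := thG Z ε ∩ Prod.fst ⁻¹' U p) (fun u hu => ⟨hu.2, hu.1.1⟩) b1,
      rel_of_eq (add_mem (N_mono (K := U p ×ˢ U p) (fun u hu => hu.1) e) (hL p).eq) (by abel)⟩

end Pool.Agent.Lib.MP_d3d358_ag.Cw
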