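import Pool.Agent.Lib.MP_d3d358_ag.Cw.Rel
import Pool.Agent.Lib.MP_d3d358_ag.Cw.BallA
import Pool.Agent.Lib.MP_d3d358_ag.Cw.LocA

/-! The cohomology of a manifold relative to the complement of a chart ball. -/

set_option autoImplicit false

namespace Pool.Agent.Lib.MP_d3d358_ag.Cw

open Topology Set Filter AS Metric

variable {Z : Type} {n : ℕ} {k : ℤ}

theorem RZ.of_any [TopologicalSpace Z] {E A : Set Z} {a b : Ch Z ℚ} (ha : a ∈ DZ k)
    (hb : b ∈ N (A ∩ E)) (e : a - dC b ∈ N E) : RZ E A k a := by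
  refine ⟨prj (k - 1) b, prj_mem _ _, N_prj _ hb, ?_⟩
  have := N_prj k e
  rwa [map_sub, prj_of_mem ha, ← sub_add_cancel k 1, ← dC_prj] at this

/-- the pair (ball, sphere) -/
theorem thom_ball (hn : 0 < n) {ρ : ℝ} (hρ : 0 < ρ) (hk : k ≤ 2 * n) {a : Ch (Fin n → ℂ) ℚ}
    (ha : a ∈ DZ k) (hd : dC a ∈ N (closedBall 0 ρ)) (h1 : a ∈ N (sphere 0 ρ)) :
    ∃ (c : ℚ) (b : Ch (Fin n → ℂ) ℚ), b ∈ N (sphere 0 ρ) ∧
      a - c • jc id - dC b ∈ N (closedBall 0 ρ) := by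
  obtain ⟨θ, -, dθ, hF⟩ := fib_sphere hn
  obtain ⟨pc, ne, van, hθ, -, sp⟩ := hF ρ hρ (2 * n)
  have sub : sphere (0 : Fin n → ℂ) ρ ⊆ closedBall 0 ρ := sphere_subset_closedBall
  have hu : AS.mk a hd ∈ Hk (closedBall (0 : Fin n → ℂ) ρ) k := ⟨a, hd, ha, rfl⟩
  have one : ∀ S : Set (Fin n → ℂ), dC (1 : Ch (Fin n → ℂ) ℚ) ∈ N S := fun S => by
    rw [dC_one]; exact zero_mem _
  rcases lt_trichotomy k 0 with h | rfl | h
  · exact ⟨0, 0, zero_mem _, by rw [DZ_neg h ha]; simp⟩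
  · obtain ⟨c, hc⟩ := Hk_zero (convex_closedBall 0 ρ).isPreconnected hu
    have e := congrArg (res sub) hc
    rw [res_mk, loc_mk_zero _ h1, map_smul, map_one] at e
    rw [smul_one_ne ne e.symm, zero_smul] at hc
    obtain ⟨b, hb, e⟩ := (mk_eq_zero_iff ha hd).1 hc
    exact ⟨0, 0, zero_mem _, by rw [DZ_neg (by norm_num) hb] at e; simpa using e⟩
  obtain ⟨b, hb, e⟩ := (mk_eq_zero_iff ha hd).1 (van_starConvex (isCompact_closedBall 0 ρ)
    ((convex_closedBall 0 ρ).starConvex (mem_closedBall_self hρ.le)) h _ hu)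
  have db : dC b ∈ N (sphere (0 : Fin n → ℂ) ρ) := rel_of_eq (sub_mem h1 (N_mono sub e)) (by abel)
  have hv : AS.mk b db ∈ Hk (sphere (0 : Fin n → ℂ) ρ) (k - 1) := ⟨b, db, hb, rfl⟩
  by_cases h2 : k - 1 = 2 * n - 1
  · obtain ⟨c, hc⟩ := sp _ (h2 ▸ hv)
    rw [← mk_smul c hθ (by rw [map_smul]; exact Submodule.smul_mem _ c hθ)] at hc
    obtain ⟨g, hg⟩ := (mk_eq_iff _ _).1 hc
    exact ⟨c, _, hg, rel_of_eq e (by simp only [map_sub, map_smul, dC_dC, dθ]; abel)⟩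
  by_cases h3 : k - 1 = 0
  · obtain ⟨c, hc⟩ := Hk_zero pc (h3 ▸ hv)
    change _ = c • AS.mk 1 (one _) at hc
    rw [← mk_smul c (one _) (by rw [map_smul]; exact Submodule.smul_mem _ c (one _))] at hc
    obtain ⟨g, hg⟩ := (mk_eq_iff _ _).1 hc
    exact ⟨0, _, hg, rel_of_eq e (by simp [dC_dC, dC_one])⟩
  · obtain ⟨g, -, hg⟩ := (mk_eq_zero_iff hb db).1 (van (k - 1) (by omega) (by omega) h2 _ hv)
    exact ⟨0, _, hg, rel_of_eq e (by simp [dC_dC])⟩

variable [MetricSpace Z] {y : Z → Fin n → ℂ} {W : Set Z} {O : Set (Fin n → ℂ)}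
  {s : (Fin n → ℂ) → Z}

theorem Cd.cpt_ball (h : Cd univ y W O s) {v : Fin n → ℂ} {ρ : ℝ} (hO : closedBall v ρ ⊆ O) :
    IsCompact (W ∩ y ⁻¹' closedBall v ρ) := by
  have : W ∩ y ⁻¹' closedBall v ρ = s '' closedBall v ρ := by
    ext z
    refine ⟨fun hz => ⟨y z, hz.2, h.li z ⟨hz.1, trivial⟩⟩, ?_⟩
    rintro ⟨t, ht, rfl⟩
    exact ⟨(h.ms (hO ht)).1, by rw [mem_preimage, h.ri t (hO ht)]; exact ht⟩
  rw [this]
  exact (isCompact_closedBall v ρ).image_of_continuousOn (h.cs.mono hO)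

theorem Cd.cy' (h : Cd univ y W O s) : ContinuousOn y W := h.cy.mono fun _ hz => ⟨hz, trivial⟩

theorem Cd.open_ball (h : Cd univ y W O s) (v : Fin n → ℂ) (ρ : ℝ) :
    IsOpen (W ∩ y ⁻¹' ball v ρ) := h.cy'.isOpen_inter_preimage h.oU isOpen_ball

/-- the pair (manifold, complement of a chart ball) -/
theorem thom_fib [CompactSpace Z] (hn : 0 < n) (h : Cd univ y W O s) {v : Fin n → ℂ} {ρ : ℝ}
    (hρ : 0 < ρ) (hO : closedBall v ρ ⊆ O) {w : Ch Z ℚ} (w0 : w ∈ DZ (2 * (n : ℤ)))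
    (dw : dC w ∈ N univ) (w1 : w ∈ N (W ∩ y ⁻¹' ball v ρ)ᶜ)
    (w2 : w - jc (fun z => y z - v) ∈ N (W ∩ y ⁻¹' closedBall v ρ)) (hk : k ≤ 2 * n)
    {a : Ch Z ℚ} (ha : a ∈ DZ k) (hd : dC a ∈ N univ) (h1 : a ∈ N (W ∩ y ⁻¹' ball v ρ)ᶜ) :
    ∃ c : ℚ, RZ univ (W ∩ y ⁻¹' ball v ρ)ᶜ k (a - c • w) := by
  have cB := h.cpt_ball hO
  have cA : IsCompact (W ∩ y ⁻¹' ball v ρ)ᶜ := (h.open_ball v ρ).isClosed_compl.isCompact
  have mO : MapsTo (fun t => t + v) (closedBall 0 ρ) O := fun t ht => hO (by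
    simpa [dist_eq_norm] using ht)
  have cs : ContinuousOn (fun t => s (t + v)) (closedBall 0 ρ) := h.cs.comp (by fun_prop) mO
  have cy : ContinuousOn (fun z => y z - v) (W ∩ y ⁻¹' closedBall v ρ) :=
    (h.cy'.mono inter_subset_left).sub continuousOn_const
  have my : MapsTo (fun z => y z - v) (W ∩ y ⁻¹' closedBall v ρ) (closedBall 0 ρ) :=
    fun z hz => by simpa [dist_eq_norm] using hz.2
  obtain ⟨c, b, b1, e⟩ := thom_ball hn hρ hk (pullC_mem (fun t => s (t + v)) ha)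
    (by rw [dC_pullC]; exact N_pullC cs (mapsTo_univ _ _) hd)
    (N_pullC (K := (W ∩ y ⁻¹' ball v ρ)ᶜ) (cs.mono sphere_subset_closedBall) (fun t ht hz => by
      have h2 := hz.2
      rw [mem_preimage, h.ri _ (mO (sphere_subset_closedBall ht))] at h2
      simp only [mem_ball, dist_eq_norm, add_sub_cancel_right] at h2
      exact h2.ne (by simpa using ht)) h1)
  have e1 := N_pullC cy my e
  have e2 := pullC_congr (K' := W ∩ y ⁻¹' closedBall v ρ) (f := id)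
    (g := (fun t => s (t + v)) ∘ fun z => y z - v)
    (fun z hz => by simp [h.li z ⟨hz.1, trivial⟩]) a
  rw [map_sub, map_sub, map_smul, pullC_jc, pullC_pullC, ← dC_pullC] at e1
  rw [pullC_id] at e2
  have b2 : pullC (fun z => y z - v) b ∈
      N ((W ∩ y ⁻¹' ball v ρ)ᶜ ∩ (W ∩ y ⁻¹' closedBall v ρ)) :=
    N_pullC (cy.mono inter_subset_right) (fun z hz => by
      have h2 : ¬dist (y z) v < ρ := fun h' => hz.1 ⟨hz.2.1, h'⟩
      have h3 : dist (y z) v ≤ ρ := hz.2.2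
      simpa [dist_eq_norm] using le_antisymm h3 (not_lt.1 h2)) b1
  generalize pullC (fun z => y z - v) b = b' at e1 b2
  have e3 : a - c • w - dC b' ∈ N (W ∩ y ⁻¹' closedBall v ρ) :=
    rel_of_eq (sub_mem (add_mem e1 e2) (Submodule.smul_mem _ c w2)) (by
      rw [smul_sub]
      change _ = _ - c • jc (fun z => y z - v) - _ + _ - _
      abel)
  have cov : univ ⊆ (W ∩ y ⁻¹' closedBall v ρ) ∪ (W ∩ y ⁻¹' ball v ρ)ᶜ := fun z _ => by
    by_cases hz : z ∈ W ∩ y ⁻¹' ball v ρ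
    · exact Or.inl ⟨hz.1, ball_subset_closedBall hz.2⟩
    · exact Or.inr hz
  have a1 : a - c • w ∈ N (W ∩ y ⁻¹' ball v ρ)ᶜ := sub_mem h1 (Submodule.smul_mem _ c w1)
  have da : dC (a - c • w) ∈ N univ := by
    rw [map_sub, map_smul]; exact sub_mem hd (Submodule.smul_mem _ c dw)
  have key : ∀ j, RZ univ (W ∩ y ⁻¹' ball v ρ)ᶜ j (prj j (a - c • w)) := fun j => by
    have e4 := N_prj j e3
    rw [map_sub, ← sub_add_cancel j 1, ← dC_prj, sub_add_cancel] at e4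
    obtain ⟨g, hg, g1, eg⟩ := RZ.strict cB.isClosed ⟨_, prj_mem (j - 1) b', N_prj _ b2, e4⟩
    refine (rel_mv cB cA cA (prj_mem j _) (N_mono inter_subset_left (N_prj j a1))
      (by rw [dC_prj]; exact N_prj _ (N_mono (subset_univ _) da)) hg (zero_mem _) g1 (zero_mem _)
      eg (by rw [map_zero, sub_zero]; exact N_prj j a1) ⟨0, zero_mem _, zero_mem _, ?_⟩).mono cov
      inter_subset_left
    rw [map_zero, sub_zero, sub_zero]
    exact N_mono inter_subset_right g1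
  by_cases e5 : k = 2 * n
  · have := key k
    rw [prj_of_mem (sub_mem ha (Submodule.smul_mem _ c (e5 ▸ w0)))] at this
    exact ⟨c, this⟩
  · have := key k
    have e6 : prj k w = 0 := Alg_ext fun l => by
      rw [Alg_prj]
      split_ifs with e7
      · exact w0 l (by omega)
      · rfl
    rw [map_sub, map_smul, prj_of_mem ha, e6, smul_zero] at this
    exact ⟨0, by rwa [zero_smul]⟩

end Pool.Agent.Lib.MP_d3d358_ag.Cw
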