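import Pool.Agent.Lib.MP_d3d358_ag.AS.PointA

/-! Point classes, complex charts, thin sets, fundamental functionals. -/

set_option autoImplicit false

namespace Pool.Agent.Lib.MP_d3d358_ag.Cw

open Topology Set Filter AS

noncomputable section

variable {Z : Type} {r n : ℕ}

/-- the jump of a real function across zero -/
def jp (t : Z → ℝ) : Ch Z ℚ := dC (fnC fun x => if 0 ≤ t x then 1 else 0)

/-- the product of the jumps of real coordinates -/
def jr (h : Z → Fin n → ℝ) : Ch Z ℚ := (List.ofFn fun i => jp fun x => h x i).prod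

/-- the product of the jumps of complex coordinates -/
def jc (y : Z → Fin r → ℂ) : Ch Z ℚ :=
  (List.ofFn fun i => jp (fun x => (y x i).re) * jp fun x => (y x i).im).prod

/-- real coordinates `re v₀, im v₀, re v₁, …` -/
def rl (r : ℕ) : (Fin r → ℂ) ≃L[ℝ] (Fin (r * 2) → ℝ) :=
  LinearEquiv.toContinuousLinearEquiv
    { toFun := fun v k => if k.modNat = 0 then (v k.divNat).re else (v k.divNat).im
      invFun := fun t i => ⟨t (finProdFinEquiv (i, 0)), t (finProdFinEquiv (i, 1))⟩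
      map_add' := fun v w => funext fun k => by by_cases h : k.modNat = 0 <;> simp [h]
      map_smul' := fun c v => funext fun k => by by_cases h : k.modNat = 0 <;> simp [h]
      left_inv := fun v => funext fun i => by
        have e : ∀ j : Fin 2, (finProdFinEquiv (i, j)).modNat = j ∧
            (finProdFinEquiv (i, j)).divNat = i := fun j =>
          ⟨congrArg Prod.snd (finProdFinEquiv.symm_apply_apply (i, j)),
            congrArg Prod.fst (finProdFinEquiv.symm_apply_apply (i, j))⟩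
        simp [e]
      right_inv := fun t => funext fun k => by
        have e : finProdFinEquiv (k.divNat, k.modNat) = k := finProdFinEquiv.apply_symm_apply k
        by_cases h : k.modNat = 0
        · simp only [h, if_true]; rw [← h, e]
        · have h1 : k.modNat = 1 := by omega
          simp only [h, if_false]; rw [← h1, e] }

variable [TopologicalSpace Z]

/-- `x` is the class of the cochain `j` localised at `p` -/
def Lc (K : Set Z) (p : Z) (j : Ch Z ℚ) (x : HT ℚ K) : Prop :=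
  ∃ (a : Ch Z ℚ) (ha : dC a ∈ N K), x = mk a ha ∧ a ∈ N (K \ {p}) ∧ ∃ U ∈ 𝓝 p, a - j ∈ N (U ∩ K)

/-- `x` is the pull back by `y` of the class of the point `y p`, localised at `p` -/
def IsPt (K : Set Z) (p : Z) (y : Z → Fin r → ℂ) (x : HT ℚ K) : Prop :=
  Lc K p (jc fun z => y z - y p) x

/-- `y` maps `U ∩ K` homeomorphically onto the open set `O`, with inverse `s` -/
structure Cd (K : Set Z) (y : Z → Fin r → ℂ) (U : Set Z) (O : Set (Fin r → ℂ))
    (s : (Fin r → ℂ) → Z) : Prop where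
  oU : IsOpen U
  oO : IsOpen O
  cy : ContinuousOn y (U ∩ K)
  my : MapsTo y (U ∩ K) O
  cs : ContinuousOn s O
  ms : MapsTo s O (U ∩ K)
  li : ∀ z ∈ U ∩ K, s (y z) = z
  ri : ∀ t ∈ O, y (s t) = t

/-- `y` is a chart of `K` at `p` -/
def Cht (K : Set Z) (p : Z) (y : Z → Fin r → ℂ) : Prop := ∃ U O s, Cd K y U O s ∧ p ∈ U ∩ K

/-- `Rg p f` reads: `f` is regular at `p` -/
structure Shf (Rg : Z → (Z → ℂ) → Prop) : Prop where
  const : ∀ p c, Rg p fun _ => c
  add : ∀ p f g, Rg p f → Rg p g → Rg p fun z => f z + g z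
  mul : ∀ p f g, Rg p f → Rg p g → Rg p fun z => f z * g z
  inv : ∀ p f, Rg p f → f p ≠ 0 → Rg p fun z => (f z)⁻¹
  congr : ∀ p f g, Rg p f → f =ᶠ[𝓝 p] g → Rg p g
  near : ∀ p f, Rg p f → ∀ᶠ q in 𝓝 p, Rg q f
  cont : ∀ p f, Rg p f → ContinuousAt f p

/-- `y` is a chart of `K` at `p` by regular functions in which regular functions are holomorphic -/
def At (Rg : Z → (Z → ℂ) → Prop) (K : Set Z) (p : Z) (y : Z → Fin r → ℂ) : Prop :=
  ∃ U O s, Cd K y U O s ∧ p ∈ U ∩ K ∧ ∀ q ∈ U ∩ K, (∀ i, Rg q fun z => y z i) ∧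
    ∀ f, Rg q f → ContDiffAt ℂ 1 (f ∘ s) (y q)

/-- complex dimension less than `r` -/
def Thin (B : Set Z) (r : ℕ) : Prop :=
  ∃ s : Set (Set Z), s.Finite ∧ B ⊆ ⋃₀ s ∧ ∀ C ∈ s, IsCompact C ∧ ∃ m < r,
    ∃ f : Z → Fin m → ℂ, ContinuousOn f C ∧ ∀ t, (C ∩ f ⁻¹' {t}).Finite

/-- the cohomology of `K` relative to a compact subset vanishes above degree `n` -/
def Dim (K : Set Z) (n : ℤ) : Prop :=
  ∀ L, IsCompact L → L ⊆ K → ∀ k > n, ∀ a ∈ DZ (Z := Z) (R := ℚ) k, dC a ∈ N K → a ∈ N L →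
    ∃ b ∈ DZ (k - 1), b ∈ N L ∧ a - dC b ∈ N K

/-- `φ` is integration over the compact set `K` of complex dimension `r` -/
structure Fund (Rg : Z → (Z → ℂ) → Prop) (K : Set Z) (r : ℕ) (φ : HT ℚ K →ₗ[ℚ] ℚ) : Prop where
  cpt : IsCompact K
  thin : Thin K (r + 1)
  bad : ∃ B, IsCompact B ∧ B ⊆ K ∧ Thin B r ∧ K ⊆ closure (K \ B) ∧
    ∀ p ∈ K \ B, ∃ y : Z → Fin r → ℂ, At Rg K p y
  val : ∀ p (y : Z → Fin r → ℂ) x, At Rg K p y → IsPt K p y x → φ x = 1
  deg : ∀ k : ℤ, k ≠ 2 * r → ∀ x ∈ Hk K k, φ x = 0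

/-- a compact complex manifold of dimension `n` -/
structure Man (Rg : Z → (Z → ℂ) → Prop) (n : ℕ) (φ : HT ℚ (univ : Set Z) →ₗ[ℚ] ℚ) : Prop where
  shf : Shf Rg
  fund : Fund Rg univ n φ
  pos : 0 < n
  cht : ∀ p, ∃ y : Z → Fin n → ℂ, At Rg univ p y

variable {Z' : Type} [TopologicalSpace Z']

/-- pull back along the first projection -/
def p1 (K : Set Z) (L : Set Z') : HT ℚ K →ₐ[ℚ] HT ℚ (K ×ˢ L) :=
  pull Prod.fst continuous_fst.continuousOn fun _ h => h.1

/-- pull back along the second projection -/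
def p2 (K : Set Z) (L : Set Z') : HT ℚ L →ₐ[ℚ] HT ℚ (K ×ˢ L) :=
  pull Prod.snd continuous_snd.continuousOn fun _ h => h.2

/-- near `p` the sets `A`, `B` are the zero sets of `s`, `t`, and `s, t, y - y p` generate the
maximal ideal -/
def TrAt (Rg : Z → (Z → ℂ) → Prop) (n : ℕ) (A B : Set Z) (p : Z) {c : ℕ} (y : Z → Fin c → ℂ) :
    Prop :=
  ∃ (k l : ℕ) (s : Z → Fin k → ℂ) (t : Z → Fin l → ℂ), k + l + c ≤ n ∧
    (∀ i, Rg p fun z => s z i) ∧ (∀ i, Rg p fun z => t z i) ∧ (∀ i, Rg p fun z => y z i) ∧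
    (∀ᶠ u in 𝓝 p, (u ∈ A ↔ s u = 0) ∧ (u ∈ B ↔ t u = 0)) ∧
    ∀ f, Rg p f → ∃ (α : Z → Fin k → ℂ) (β : Z → Fin l → ℂ) (γ : Z → Fin c → ℂ),
      ContinuousAt α p ∧ ContinuousAt β p ∧ ContinuousAt γ p ∧ ∀ᶠ u in 𝓝 p,
        f u - f p = α u ⬝ᵥ s u + β u ⬝ᵥ t u + γ u ⬝ᵥ (y u - y p)

end

end Pool.Agent.Lib.MP_d3d358_ag.Cw
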