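import Pool.Agent.Lib.MP_d3d358_ag.Cw.Top

/-! Push forward of compactly supported cochains along a local homeomorphism. -/

set_option autoImplicit false

namespace Pool.Agent.Lib.MP_d3d358_ag.Cw

open Topology Set Filter AS

noncomputable section

variable {Z : Type} {r : ℕ}

theorem tr_loc [TopologicalSpace Z] {K : Set Z} {a : Ch Z ℚ}
    (h : ∀ x ∈ K, ∃ V ∈ 𝓝 x, a ∈ N (V ∩ K)) : a ∈ N K := fun x hx => by
  obtain ⟨V, hV, e⟩ := h x hx
  obtain ⟨U, hU, e'⟩ := e x ⟨mem_of_mem_nhds hV, hx⟩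
  exact ⟨U ∩ V, inter_mem hU hV, fun l hl => e' l fun y hy =>
    ⟨(hl y hy).1.1, (hl y hy).1.2, (hl y hy).2⟩⟩

theorem tr_fn [TopologicalSpace Z] {K : Set Z} {f : Z → ℚ} (h : ∀ x ∈ K, f x = 0) :
    fnC f ∈ N K := Null_of_zero fun l hl => by
  rcases l with _ | ⟨x, _ | ⟨y, l⟩⟩
  · exact Alg_nil _
  · exact (Alg_fn_one f x).trans (h x (hl x (by simp)))
  · exact Alg_fn_two f x y l

theorem tr_fn_add (f g : Z → ℚ) : fnC (f + g) = fnC f + fnC g := Alg_ext fun l => by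
  rcases l with _ | ⟨x, _ | ⟨y, l⟩⟩
  · rw [Alg_nil, Alg_nil]
  · simp [Alg_add, Alg_fnC, Alg_fn_one]
  · simp [Alg_add, Alg_fnC, Alg_fn_two]

theorem tr_fn_sum {ι : Type} (s : Finset ι) (f : ι → Z → ℚ) :
    fnC (∑ i ∈ s, f i) = ∑ i ∈ s, fnC (f i) := by
  classical
  induction s using Finset.induction_on with
  | empty =>
    have := tr_fn_add (0 : Z → ℚ) 0
    rw [add_zero] at this
    exact left_eq_add.1 this
  | insert i s hi ih => rw [Finset.sum_insert hi, Finset.sum_insert hi, tr_fn_add, ih]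

open Classical in
theorem tr_cut_val (O : Set Z) (a : Ch Z ℚ) (l : List Z) :
    (ptCut O a).1 l = if ∀ x ∈ l, x ∈ O then a.1 l else 0 := rfl

/-- the cut off as a linear map -/
def trCut (O : Set Z) : Ch Z ℚ →ₗ[ℚ] Ch Z ℚ where
  toFun := ptCut O
  map_add' a b := Alg_ext fun l => by
    rw [Alg_add, tr_cut_val, tr_cut_val, tr_cut_val, Alg_add]
    split_ifs
    · rfl
    · exact (add_zero 0).symm
  map_smul' c a := Alg_ext fun l => by
    rw [RingHom.id_apply, Alg_smul, tr_cut_val, tr_cut_val, Alg_smul]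
    split_ifs
    · rfl
    · exact (mul_zero c).symm

theorem tr_glue {E : Type} [TopologicalSpace E] {A : Set E} (hA : IsClosed A) {a b : Ch E ℚ}
    (ha : a ∈ N Aᶜ) (hb : b ∈ N Aᶜ) (h : ∀ t ∈ A, ∃ W ∈ 𝓝 t, a - b ∈ N W) : a - b ∈ N univ :=
  tr_loc fun t _ => by
    by_cases ht : t ∈ A
    · obtain ⟨W, hW, e⟩ := h t ht
      exact ⟨W, hW, N_mono inter_subset_left e⟩
    · exact ⟨Aᶜ, hA.isOpen_compl.mem_nhds ht, N_mono inter_subset_left (sub_mem ha hb)⟩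

variable [MetricSpace Z] {K : Set Z} {π : Z → Fin r → ℂ}

/-- `b` is a push forward of a cochain `a` with support in `S` -/
def Psh (π : Z → Fin r → ℂ) (O : Set (Fin r → ℂ)) (s : (Fin r → ℂ) → Z) (S : Set Z)
    (a : Ch Z ℚ) (b : Ch (Fin r → ℂ) ℚ) : Prop := b ∈ N (π '' S)ᶜ ∧ b - pullC s a ∈ N O

theorem Cd.tr_null {U O s} (c : Cd K π U O s) {S : Set Z} {a : Ch Z ℚ} (ha : a ∈ N (K \ S)) :
    pullC s a ∈ N (O \ π '' S) :=
  N_pullC (c.cs.mono sdiff_subset)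
    (fun t ht => mem_sdiff_of_mem (c.ms ht.1).2 fun h => ht.2 (c.ri t ht.1 ▸ mem_image_of_mem π h)) ha

theorem Cd.exists_psh {U O s} (c : Cd K π U O s) {Q : Set Z} (hQ : IsCompact Q)
    (hQU : Q ⊆ U ∩ K) : ∃ T : Ch Z ℚ →ₗ[ℚ] Ch (Fin r → ℂ) ℚ, ∀ S, IsCompact S → S ⊆ Q →
      ∀ a ∈ N (K \ S), Psh π O s S a (T a) := by
  obtain ⟨O', h1, h2, h3⟩ := exists_compact_between (hQ.image_of_continuousOn (c.cy.mono hQU))
    c.oO (image_subset_iff.2 fun z hz => c.my (hQU hz))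
  refine ⟨trCut O' ∘ₗ (pullC s).toLinearMap, fun S hS hSQ a ha => ?_⟩
  have hc : IsClosed (π '' S) :=
    (hS.image_of_continuousOn (c.cy.mono (hSQ.trans hQU))).isClosed
  have h0 := c.tr_null ha
  have ho : IsOpen (O \ π '' S) := c.oO.sdiff hc
  refine ⟨tr_loc fun t ht => ?_, tr_loc fun t ht => ?_⟩
  · by_cases hO : t ∈ O'
    · exact ⟨_, ho.mem_nhds ⟨h3 hO, ht⟩, N_mono inter_subset_left (pt_cut_N h0)⟩
    · exact ⟨O'ᶜ, h1.isClosed.isOpen_compl.mem_nhds hO,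
        N_mono inter_subset_left (pt_cut_out _)⟩
  · by_cases hS' : t ∈ π '' S
    · exact ⟨O', mem_interior_iff_mem_nhds.1 (h2 (image_mono hSQ hS')),
        N_mono inter_subset_left (pt_cut_in _)⟩
    · exact ⟨_, ho.mem_nhds ⟨ht, hS'⟩, N_mono inter_subset_left (sub_mem (pt_cut_N h0) h0)⟩

theorem Psh.eq {U O s U' O' s'} (c : Cd K π U O s) (c' : Cd K π U' O' s') {S : Set Z}
    (hS : IsCompact S) (h1 : S ⊆ U ∩ K) (h2 : S ⊆ U' ∩ K) {a : Ch Z ℚ} {b b' : Ch (Fin r → ℂ) ℚ}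
    (h : Psh π O s S a b) (h' : Psh π O' s' S a b') : b - b' ∈ N univ := by
  refine tr_glue (hS.image_of_continuousOn (c.cy.mono h1)).isClosed h.1 h'.1 ?_
  rintro _ ⟨p, hp, rfl⟩
  have hO : O ∈ 𝓝 (π p) := c.oO.mem_nhds (c.my (h1 hp))
  have hU : s ⁻¹' U' ∈ 𝓝 (π p) := (c.cs.continuousAt hO).preimage_mem_nhds (by
    rw [c.li p (h1 hp)]; exact c'.oU.mem_nhds (h2 hp).1)
  refine ⟨O ∩ O' ∩ s ⁻¹' U', inter_mem (inter_mem hO (c'.oO.mem_nhds (c'.my (h2 hp)))) hU, ?_⟩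
  have e : pullC s a - pullC s' a ∈ N (O ∩ O' ∩ s ⁻¹' U') := pullC_congr (fun t ht => by
    have := c'.li (s t) ⟨ht.2, (c.ms ht.1.1).2⟩
    rw [c.ri t ht.1.1] at this
    exact this.symm) a
  have := add_mem (sub_mem (N_mono (fun t ht => ht.1.1) h.2) (N_mono (fun t ht => ht.1.2) h'.2)) e
  convert this using 1
  abel

/-- the properties of the integral on the model space -/
def TrL (l : Ch (Fin r → ℂ) ℚ →ₗ[ℚ] ℚ) : Prop :=
  ∀ a b (ρ : ℝ), b ∈ N (Metric.ball (0 : Fin r → ℂ) ρ)ᶜ → a - dC b ∈ N univ → l a = 0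

theorem TrL.eq {l : Ch (Fin r → ℂ) ℚ →ₗ[ℚ] ℚ} (hl : TrL l) {a b : Ch (Fin r → ℂ) ℚ}
    (h : a - b ∈ N univ) : l a = l b := by
  rw [← sub_eq_zero, ← map_sub]
  exact hl _ 0 0 (zero_mem _) (by rwa [map_zero, sub_zero])

/-- integration of cochains with support in a compact set `C` on which `π` is a chart -/
theorem tr_exists_int (hK : IsCompact K) {C : Set Z} (hC : IsCompact C)
    (hπ : ∀ p ∈ C, Cht K p π) {l : Ch (Fin r → ℂ) ℚ →ₗ[ℚ] ℚ} (hl : TrL l) :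
    ∃ L : Ch Z ℚ →ₗ[ℚ] ℚ, (∀ a ∈ N K, L a = 0) ∧ (∀ b ∈ N (K \ C), L (dC b) = 0) ∧
      ∀ p ∈ C, ∀ a ∈ N (K \ {p}), ∀ (j : Ch (Fin r → ℂ) ℚ), j ∈ N {π p}ᶜ →
        ∀ V ∈ 𝓝 p, a - pullC π j ∈ N (V ∩ K) → L a = l j := by
  classical
  have : ∀ p : C, ∃ U O s, ∃ Q : Set Z, Cd K π U O s ∧ IsClosed Q ∧ Q ∈ 𝓝 p.1 ∧ Q ⊆ U :=
    fun p => by
      obtain ⟨U, O, s, c, hp⟩ := hπ p p.2
      obtain ⟨Q, h1, h2, h3⟩ := exists_mem_nhds_isClosed_subset (c.oU.mem_nhds hp.1)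
      exact ⟨U, O, s, Q, c, h2, h1, h3⟩
  choose U O s Q c hQ hQn hQU using this
  obtain ⟨F, hF⟩ := hC.elim_nhds_subcover' (fun p hp => interior (Q ⟨p, hp⟩))
    fun p hp => interior_mem_nhds.2 (hQn ⟨p, hp⟩)
  have hF' : ∀ x ∈ C, ∃ k ∈ F, Q k ∈ 𝓝 x := fun x hx => by
    obtain ⟨k, hk, h⟩ := mem_iUnion₂.1 (hF hx)
    exact ⟨k, hk, mem_interior_iff_mem_nhds.1 h⟩
  have hQK : ∀ k, IsCompact (Q k ∩ K) := fun k => hK.inter_left (hQ k)
  have hsub : ∀ k, Q k ∩ K ⊆ U k ∩ K := fun k => inter_subset_inter_left _ (hQU k)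
  choose T hT using fun k => (c k).exists_psh (hQK k) (hsub k)
  have : ∀ x : Z, ∃ χ : C → ℚ, (∀ k, x ∉ Q k → χ k = 0) ∧
      ((∃ k ∈ F, x ∈ Q k) → ∑ k ∈ F, χ k = 1) := fun x => by
    by_cases h : ∃ k ∈ F, x ∈ Q k
    · obtain ⟨k, hk, hx⟩ := h
      exact ⟨Pi.single k 1, fun j hj => Pi.single_eq_of_ne (fun e => hj (by rw [e]; exact hx)) _,
        fun _ => by simp [Finset.sum_pi_single', hk]⟩
    · exact ⟨0, fun _ _ => rfl, fun h' => (h h').elim⟩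
  choose χ χ0 χ1 using this
  let ξ : C → Ch Z ℚ := fun k => fnC fun x => χ x k
  have ξ0 : ∀ k a, ξ k * a ∈ N (K \ (Q k ∩ K)) := fun k a =>
    N_mul_right (tr_fn fun x hx => χ0 x k fun h => hx.2 ⟨h, hx.1⟩) a
  have ξ1 : ∀ a ∈ N (K \ C), a - ∑ k ∈ F, ξ k * a ∈ N K := fun a ha => tr_loc fun x hx => by
    by_cases hxC : x ∈ C
    · obtain ⟨k, hk, h⟩ := hF' x hxC
      refine ⟨Q k, h, ?_⟩
      have e : fnC (∑ k ∈ F, fun x => χ x k) - 1 ∈ N (R := ℚ) (Q k ∩ K) := by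
        have : fnC ((∑ k ∈ F, fun x => χ x k) - 1) ∈ N (R := ℚ) (Q k ∩ K) :=
          tr_fn fun y hy => by simp [χ1 y ⟨k, hk, hy.1⟩]
        rwa [← eq_sub_of_add_eq (show fnC ((∑ k ∈ F, fun x => χ x k) - 1) + 1 =
          fnC (∑ k ∈ F, fun x => χ x k) by
            rw [show (1 : Ch Z ℚ) = fnC 1 from rfl, ← tr_fn_add, sub_add_cancel])]
      have := neg_mem (N_mul_right e a)
      rwa [tr_fn_sum, sub_mul, one_mul, neg_sub, Finset.sum_mul] at this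
    · refine ⟨Cᶜ, hC.isClosed.isOpen_compl.mem_nhds hxC, ?_⟩
      have h0 : a ∈ N (Cᶜ ∩ K) := N_mono (fun y hy => mem_sdiff_of_mem hy.2 hy.1) ha
      exact sub_mem h0 (sum_mem fun k _ => N_mul_left _ h0)
  have hz : ∀ k, ∀ a ∈ N K, l (T k a) = 0 := fun k a ha => by
    have := (hT k ∅ isCompact_empty (empty_subset _) a (by rwa [sdiff_empty])).1
    rw [image_empty, compl_empty] at this
    exact (hl.eq (b := 0) (by rwa [sub_zero])).trans (map_zero l)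
  let L : Ch Z ℚ →ₗ[ℚ] ℚ := ∑ k ∈ F, l ∘ₗ T k ∘ₗ LinearMap.mulLeft ℚ (ξ k)
  have hL : ∀ a, L a = ∑ k ∈ F, l (T k (ξ k * a)) := fun a => by simp [L]
  have L0 : ∀ a ∈ N K, L a = 0 := fun a ha => by
    rw [hL]
    exact Finset.sum_eq_zero fun k _ => hz k _ (N_mul_left _ ha)
  have L1 : ∀ j, ∀ a ∈ N (K \ C), a ∈ N (K \ (Q j ∩ K)) → L a = l (T j a) := fun j a ha hj => by
    have e : ∀ k, l (T k (ξ k * a)) = l (T j (ξ k * a)) := fun k => by
      have hS : IsCompact (Q k ∩ K ∩ (Q j ∩ K)) := (hQK k).inter_right (hQK j).isClosed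
      have hN : ξ k * a ∈ N (K \ (Q k ∩ K ∩ (Q j ∩ K))) := tr_loc fun x hx => by
        by_cases h : x ∈ Q k
        · exact ⟨(Q j)ᶜ, (hQ j).isOpen_compl.mem_nhds fun h' => hx.2 ⟨⟨h, hx.1⟩, h', hx.1⟩,
            N_mono (fun y hy => mem_sdiff_of_mem hy.2.1 fun h => hy.1 h.1) (N_mul_left _ hj)⟩
        · exact ⟨(Q k)ᶜ, (hQ k).isOpen_compl.mem_nhds h,
            N_mono (fun y hy => mem_sdiff_of_mem hy.2.1 fun h => hy.1 h.1) (ξ0 k a)⟩
      exact hl.eq (Psh.eq (c k) (c j) hS (inter_subset_left.trans (hsub k))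
        (inter_subset_right.trans (hsub j)) (hT k _ hS inter_subset_left _ hN)
        (hT j _ hS inter_subset_right _ hN))
    have := hz j _ (ξ1 a ha)
    rw [map_sub, map_sub, map_sum, map_sum, sub_eq_zero] at this
    rw [hL, this]
    exact Finset.sum_congr rfl fun k _ => e k
  refine ⟨L, L0, fun b hb => ?_, fun p hp a ha j hj V hV e => ?_⟩
  · have := L0 _ (N_dC (ξ1 b hb))
    rw [map_sub, map_sub, map_sum, map_sum, sub_eq_zero] at this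
    rw [this]
    refine Finset.sum_eq_zero fun k _ => ?_
    rw [L1 k _ (N_dC (N_mul_left _ hb)) (N_dC (ξ0 k b))]
    have h1 := hT k _ (hQK k) subset_rfl _ (ξ0 k b)
    have h2 := hT k _ (hQK k) subset_rfl _ (N_dC (ξ0 k b))
    obtain ⟨ρ, hρ⟩ := ((hQK k).image_of_continuousOn
      ((c k).cy.mono (hsub k))).isBounded.subset_ball 0
    refine hl _ _ ρ (N_mono (compl_subset_compl.2 hρ) h1.1)
      (Psh.eq (c k) (c k) (hQK k) (hsub k) (hsub k) h2 ⟨N_dC h1.1, ?_⟩)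
    rw [← dC_pullC, ← map_sub]
    exact N_dC h1.2
  · obtain ⟨k, -, hk⟩ := hF' p hp
    have hpK : p ∈ K := (hπ p hp).choose_spec.choose_spec.choose_spec.2.2
    have hpQ : {p} ⊆ Q k ∩ K := singleton_subset_iff.2 ⟨mem_of_mem_nhds hk, hpK⟩
    rw [L1 k a (N_mono (sdiff_subset_sdiff_right (singleton_subset_iff.2 hp)) ha)
      (N_mono (sdiff_subset_sdiff_right hpQ) ha)]
    obtain ⟨h1, h2⟩ := hT k _ isCompact_singleton hpQ a ha
    rw [image_singleton] at h1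
    refine hl.eq (tr_glue isClosed_singleton h1 hj ?_)
    rintro _ rfl
    have hpU := hsub k (hpQ rfl)
    have hO : O k ∈ 𝓝 (π p) := (c k).oO.mem_nhds ((c k).my hpU)
    have hU : s k ⁻¹' V ∈ 𝓝 (π p) := ((c k).cs.continuousAt hO).preimage_mem_nhds (by
      rwa [(c k).li p hpU])
    refine ⟨O k ∩ s k ⁻¹' V, inter_mem hO hU, ?_⟩
    have e1 : pullC (s k) (a - pullC π j) ∈ N (O k ∩ s k ⁻¹' V) :=
      N_pullC ((c k).cs.mono inter_subset_left) (fun t ht => mem_inter ht.2 ((c k).ms ht.1).2) e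
    have e2 : pullC (π ∘ s k) j - pullC id j ∈ N (O k ∩ s k ⁻¹' V) :=
      pullC_congr (fun t ht => (c k).ri t ht.1) j
    rw [map_sub, pullC_pullC] at e1
    rw [pullC_id] at e2
    have := add_mem (add_mem (N_mono inter_subset_left h2) e1) e2
    convert this using 1
    abel

end

end Pool.Agent.Lib.MP_d3d358_ag.Cw
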